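import Mathlib

namespace Pool.Agent.Work.MP_d4a230_co

/-- The chromatic threshold of `H` with respect to the edge probabilities `p = p n`: the infimum
of all `d > 0` for which there is a constant `C` such that, with probability tending to `1`, every
`H`-free spanning subgraph `G'` of the binomial random graph `G(n, p n)` with minimum degree at
least `d * p n * n` has chromatic number at most `C`. -/
noncomputable def chromThreshold {W : Type} (H : SimpleGraph W) (p : ℕ → unitInterval) : ℝ :=
  sInf {d : ℝ | 0 < d ∧ ∃ C : ℕ, Filter.Tendsto
    (fun n : ℕ => (SimpleGraph.binomialRandom (Fin n) (p n)).real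
      {G | ∀ G' : SimpleGraph (Fin n), G' ≤ G → H.Free G' →
        (∀ v, d * (p n : ℝ) * n ≤ ((G'.neighborSet v).ncard : ℝ)) → G'.Colorable C})
    Filter.atTop (nhds 1)}

end Pool.Agent.Work.MP_d4a230_co
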