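import Pool.Agent.Work.MP_d4a230_co.Defs

namespace Pool.Agent.Work.MP_d4a230_co

/-- The ratio `(e(F) - 1) / (v(F) - 2)` of a subgraph `F`. -/
noncomputable def twoRatio {W : Type} {H : SimpleGraph W} (F : H.Subgraph) : ℝ :=
  ((F.edgeSet.ncard : ℝ) - 1) / ((F.verts.ncard : ℝ) - 2)

/-- The 2-density `m₂(H)`: the largest ratio `(e(F) - 1) / (v(F) - 2)` over subgraphs `F` of `H`
with at least three vertices. -/
noncomputable def twoDensity {W : Type} (H : SimpleGraph W) : ℝ :=
  sSup {d : ℝ | ∃ F : H.Subgraph, 3 ≤ F.verts.ncard ∧ d = twoRatio F}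

/-- `H` has at least three vertices and every proper subgraph with at least three vertices has a
smaller ratio `(e - 1) / (v - 2)` than `H` itself. -/
def StrictlyTwoBalanced {W : Type} (H : SimpleGraph W) : Prop :=
  3 ≤ Nat.card W ∧
    ∀ F : H.Subgraph, F ≠ ⊤ → 3 ≤ F.verts.ncard → twoRatio F < twoRatio (⊤ : H.Subgraph)

/-- The constant `2 e(H) c ^ (e(H) - 1) / |Aut H|` (the limiting mean number of copies of `H`
through a given edge of `G(n, c n ^ (-1 / m₂(H)))`). -/
noncomputable def copyRate {W : Type} (H : SimpleGraph W) (c : ℝ) : ℝ :=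
  2 * (H.edgeSet.ncard : ℝ) * c ^ (H.edgeSet.ncard - 1) / (Nat.card (H ≃g H) : ℝ)

/-- The minimum-degree Turán threshold: the infimum of all `d > 0` such that, with probability
tending to `1`, the random graph `G(n, p n)` has no `H`-free spanning subgraph with minimum degree
at least `d * p n * n`. -/
noncomputable def turanThreshold {W : Type} (H : SimpleGraph W) (p : ℕ → unitInterval) : ℝ :=
  sInf {d : ℝ | 0 < d ∧ Filter.Tendsto
    (fun n : ℕ => (SimpleGraph.binomialRandom (Fin n) (p n)).real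
      {G | ¬ ∃ G' : SimpleGraph (Fin n), G' ≤ G ∧ H.Free G' ∧
        ∀ v, d * (p n : ℝ) * n ≤ ((G'.neighborSet v).ncard : ℝ)})
    Filter.atTop (nhds 1)}

end Pool.Agent.Work.MP_d4a230_co
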