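import Pool.Agent.Work.MP_07f1b5_pr.Basic
import Pool.Agent.Work.MP_d4a230_co.HDefs
import Pool.Agent.Work.MP_d4a230_co.Defs

-- merged part: Pool.Agent.Work.MP_d4a230_co.HConc
section
-- merged part: Pool.Agent.Work.MP_d4a230_co.Whp
section
-- merged part: Pool.Agent.Work.MP_d4a230_co.Prob
section
namespace Pool.Agent.Work.MP_d4a230_co

open Finset Pool.Agent.Work.MP_07f1b5_pr

open Classical in
/-- Indicator of a proposition. -/
noncomputable def ind (q : Prop) : ℝ := if q then 1 else 0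

lemma ind_pos {q : Prop} (h : q) : ind q = 1 := by unfold ind; rw [if_pos h]
lemma ind_neg {q : Prop} (h : ¬ q) : ind q = 0 := by unfold ind; rw [if_neg h]
lemma ind_nonneg (q : Prop) : 0 ≤ ind q := by
  by_cases h : q
  · rw [ind_pos h]; norm_num
  · rw [ind_neg h]
lemma ind_le_one (q : Prop) : ind q ≤ 1 := by
  by_cases h : q
  · rw [ind_pos h]
  · rw [ind_neg h]; norm_num
lemma ind_congr {q r : Prop} (h : q ↔ r) : ind q = ind r := by rw [propext h]
lemma ind_mono {q r : Prop} (h : q → r) : ind q ≤ ind r := by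
  by_cases hq : q
  · rw [ind_pos hq, ind_pos (h hq)]
  · rw [ind_neg hq]; exact ind_nonneg _
lemma ind_and (q r : Prop) : ind (q ∧ r) = ind q * ind r := by
  by_cases hq : q <;> by_cases hr : r <;> simp [ind_pos, ind_neg, hq, hr]
lemma ind_not (q : Prop) : ind (¬ q) = 1 - ind q := by
  by_cases hq : q <;> simp [ind_pos, ind_neg, hq]
lemma ind_or_le (q r : Prop) : ind (q ∨ r) ≤ ind q + ind r := by
  by_cases hq : q
  · rw [ind_pos hq]; linarith [ind_le_one (q ∨ r), ind_nonneg r]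
  · rw [ind_neg hq, zero_add]; exact ind_mono fun h => h.resolve_left hq
lemma ind_exists_le {κ : Type} (s : Finset κ) (q : κ → Prop) :
    ind (∃ k ∈ s, q k) ≤ ∑ k ∈ s, ind (q k) := by
  by_cases h : ∃ k ∈ s, q k
  · obtain ⟨k, hk, hq⟩ := h
    calc ind (∃ k ∈ s, q k) ≤ 1 := ind_le_one _
      _ = ind (q k) := (ind_pos hq).symm
      _ ≤ _ := Finset.single_le_sum (f := fun k => ind (q k)) (fun _ _ => ind_nonneg _) hk
  · rw [ind_neg h]; exact Finset.sum_nonneg fun _ _ => ind_nonneg _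

lemma sum_ind {κ : Type} (s : Finset κ) (q : κ → Prop) [DecidablePred q] :
    ∑ k ∈ s, ind (q k) = ((s.filter q).card : ℝ) := by
  rw [Finset.card_filter, Nat.cast_sum]
  refine Finset.sum_congr rfl fun k _ => ?_
  by_cases h : q k
  · rw [ind_pos h, if_pos h]; simp
  · rw [ind_neg h, if_neg h]; simp

variable {ι : Type} [Fintype ι] [DecidableEq ι]

/-- Expectation for a random subset containing each element with probability `p`. -/
noncomputable def E (p : ℝ) (f : Finset ι → ℝ) : ℝ := Ex (fun _ => p) f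

/-- Probability. -/
noncomputable def Pr (p : ℝ) (A : Finset ι → Prop) : ℝ := E p (fun ω => ind (A ω))

variable {p : ℝ}

lemma E_add (f g : Finset ι → ℝ) : E p (fun ω => f ω + g ω) = E p f + E p g := Ex_add _ _ _
lemma E_sub (f g : Finset ι → ℝ) : E p (fun ω => f ω - g ω) = E p f - E p g := Ex_sub _ _ _
lemma E_const (c : ℝ) : E p (fun _ : Finset ι => c) = c := Ex_const _ _
lemma E_const_mul (c : ℝ) (f : Finset ι → ℝ) : E p (fun ω => c * f ω) = c * E p f :=
  Ex_const_mul _ _ _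
lemma E_sum {κ : Type} (s : Finset κ) (f : κ → Finset ι → ℝ) :
    E p (fun ω => ∑ k ∈ s, f k ω) = ∑ k ∈ s, E p (f k) := Ex_sum _ _ _
lemma E_mono (h0 : 0 ≤ p) (h1 : p ≤ 1) {f g : Finset ι → ℝ} (h : ∀ ω, f ω ≤ g ω) :
    E p f ≤ E p g := Ex_mono_ae (fun _ => ⟨h0, h1⟩) fun ω _ => h ω
lemma E_nonneg (h0 : 0 ≤ p) (h1 : p ≤ 1) {f : Finset ι → ℝ} (h : ∀ ω, 0 ≤ f ω) : 0 ≤ E p f :=
  Ex_nonneg (fun _ => ⟨h0, h1⟩) h
lemma E_congr {f g : Finset ι → ℝ} (h : ∀ ω, f ω = g ω) : E p f = E p g := by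
  rw [funext h]
lemma abs_E_le (h0 : 0 ≤ p) (h1 : p ≤ 1) (f : Finset ι → ℝ) :
    |E p f| ≤ E p (fun ω => |f ω|) := by
  rw [abs_le]
  constructor
  · have := E_mono h0 h1 (f := fun ω => (-1) * |f ω|) (g := f)
      (fun ω => by linarith [neg_abs_le (f ω)])
    rw [E_const_mul] at this; linarith
  · exact E_mono h0 h1 fun ω => le_abs_self _
lemma E_le_one (h0 : 0 ≤ p) (h1 : p ≤ 1) {f : Finset ι → ℝ} (h : ∀ ω, f ω ≤ 1) : E p f ≤ 1 := by
  have := E_mono h0 h1 (g := fun _ => 1) h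
  rwa [E_const] at this

lemma plant1 (e : ι) (g : Finset ι → ℝ) :
    E p (fun ω => ind (e ∈ ω) * g ω) = p * E p (fun ω => g (insert e ω)) := by
  unfold E
  rw [Ex_split _ e, Ex_split _ e (fun ω => g (insert e ω))]
  have h1 : Ex (Function.update (fun _ : ι => p) e 0) (fun ω => ind (e ∈ ω) * g ω) = 0 := by
    rw [Ex_congr_ae (g := fun _ => 0), Ex_const]
    intro ω hω
    have : e ∉ ω := fun he => ne_zero_of_wt_ne hω he (by simp)
    rw [ind_neg this, zero_mul]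
  have h2 : (fun ω => ind (e ∈ insert e ω) * g (insert e ω)) = fun ω => g (insert e ω) := by
    funext ω; rw [ind_pos (Finset.mem_insert_self _ _), one_mul]
  have h3 : (fun ω => g (insert e (insert e ω))) = fun ω => g (insert e ω) := by
    funext ω; rw [Finset.insert_idem]
  rw [h1, h2, h3]; ring

lemma plant (Q : Finset ι) (g : Finset ι → ℝ) :
    E p (fun ω => ind (Q ⊆ ω) * g ω) = p ^ Q.card * E p (fun ω => g (ω ∪ Q)) := by
  induction Q using Finset.induction_on generalizing g with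
  | empty =>
    simp only [Finset.card_empty, pow_zero, one_mul, Finset.union_empty]
    exact E_congr fun ω => by rw [ind_pos (Finset.empty_subset _), one_mul]
  | insert e Q he ih =>
    have h1 : ∀ ω : Finset ι, ind (insert e Q ⊆ ω) * g ω = ind (Q ⊆ ω) * (ind (e ∈ ω) * g ω) := by
      intro ω; rw [← mul_assoc, ← ind_and]; congr 1
      exact ind_congr (by rw [Finset.insert_subset_iff, and_comm])
    rw [E_congr h1, ih]
    have h2 : ∀ ω : Finset ι, ind (e ∈ ω ∪ Q) * g (ω ∪ Q) = ind (e ∈ ω) * g (ω ∪ Q) := by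
      intro ω; congr 1; exact ind_congr (by simp [he])
    rw [E_congr h2, plant1, Finset.card_insert_of_notMem he, pow_succ, mul_assoc]
    congr 2
    exact E_congr fun ω => by rw [Finset.insert_union, Finset.union_insert]

lemma Pr_subset (Q : Finset ι) : Pr p (fun ω => Q ⊆ ω) = p ^ Q.card := by
  have := plant (p := p) Q (fun _ => 1)
  simp only [mul_one, E_const] at this
  exact this

lemma Pr_nonneg (h0 : 0 ≤ p) (h1 : p ≤ 1) (A : Finset ι → Prop) : 0 ≤ Pr p A :=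
  E_nonneg h0 h1 fun _ => ind_nonneg _
lemma Pr_le_one (h0 : 0 ≤ p) (h1 : p ≤ 1) (A : Finset ι → Prop) : Pr p A ≤ 1 :=
  E_le_one h0 h1 fun _ => ind_le_one _
lemma Pr_mono (h0 : 0 ≤ p) (h1 : p ≤ 1) {A B : Finset ι → Prop} (h : ∀ ω, A ω → B ω) :
    Pr p A ≤ Pr p B := E_mono h0 h1 fun ω => ind_mono (h ω)
lemma Pr_or_le (h0 : 0 ≤ p) (h1 : p ≤ 1) (A B : Finset ι → Prop) :
    Pr p (fun ω => A ω ∨ B ω) ≤ Pr p A + Pr p B := by
  unfold Pr; rw [← E_add]; exact E_mono h0 h1 fun ω => ind_or_le _ _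
lemma Pr_not (A : Finset ι → Prop) : Pr p (fun ω => ¬ A ω) = 1 - Pr p A := by
  unfold Pr; rw [E_congr (fun ω => ind_not (A ω)), E_sub, E_const]
lemma Pr_exists_le (h0 : 0 ≤ p) (h1 : p ≤ 1) {κ : Type} (s : Finset κ)
    (A : κ → Finset ι → Prop) : Pr p (fun ω => ∃ k ∈ s, A k ω) ≤ ∑ k ∈ s, Pr p (A k) := by
  unfold Pr; rw [← E_sum]; exact E_mono h0 h1 fun ω => ind_exists_le s fun k => A k ω

lemma markov (h0 : 0 ≤ p) (h1 : p ≤ 1) {f : Finset ι → ℝ} (hf : ∀ ω, 0 ≤ f ω) {a : ℝ}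
    (ha : 0 < a) : Pr p (fun ω => a ≤ f ω) ≤ E p f / a := by
  rw [div_eq_inv_mul, ← E_const_mul]
  refine E_mono h0 h1 fun ω => ?_
  by_cases h : a ≤ f ω
  · rw [ind_pos h, inv_mul_eq_div, le_div_iff₀ ha]; linarith
  · rw [ind_neg h]; exact mul_nonneg (inv_nonneg.2 ha.le) (hf ω)

lemma mgf (θ : ℝ) (M : Finset ι) :
    E p (fun ω => θ ^ (ω ∩ M).card) = (1 + p * (θ - 1)) ^ M.card := by
  induction M using Finset.induction_on with
  | empty => simp [E_const]
  | insert e M he ih =>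
    have h1 : ∀ ω : Finset ι, θ ^ (ω ∩ insert e M).card =
        θ ^ (ω ∩ M).card + (θ - 1) * (ind (e ∈ ω) * θ ^ (ω ∩ M).card) := by
      intro ω
      by_cases h : e ∈ ω
      · rw [Finset.inter_insert_of_mem h, Finset.card_insert_of_notMem (by simp [he]), ind_pos h]
        ring
      · rw [Finset.inter_insert_of_notMem h, ind_neg h]; ring
    rw [E_congr h1, E_add, E_const_mul, plant1]
    have h2 : ∀ ω : Finset ι, θ ^ (insert e ω ∩ M).card = θ ^ (ω ∩ M).card := by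
      intro ω; rw [Finset.insert_inter_of_notMem he]
    rw [E_congr h2, ih, Finset.card_insert_of_notMem he]; ring

lemma mgf_le (h0 : 0 ≤ p) (h1 : p ≤ 1) {θ : ℝ} (hθ : 0 ≤ θ) (M : Finset ι) :
    E p (fun ω => θ ^ (ω ∩ M).card) ≤ Real.exp (p * (θ - 1) * M.card) := by
  rw [mgf, mul_comm _ (M.card : ℝ), Real.exp_nat_mul]
  refine pow_le_pow_left₀ (by nlinarith only [h1, h0, hθ]) ?_ _
  linarith [Real.add_one_le_exp (p * (θ - 1))]

lemma chernoff_up (h0 : 0 ≤ p) (h1 : p ≤ 1) (M : Finset ι) (k : ℝ) :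
    Pr p (fun ω => k ≤ ((ω ∩ M).card : ℝ)) ≤ Real.exp (2 * p * M.card - k) := by
  have hm := markov h0 h1 (f := fun ω => Real.exp 1 ^ (ω ∩ M).card)
    (fun ω => by positivity) (Real.exp_pos k)
  have h2 := mgf_le h0 h1 (Real.exp_pos 1).le M
  refine le_trans (Pr_mono h0 h1 fun ω h => ?_) (hm.trans ?_)
  · rw [← Real.exp_nat_mul, mul_one]; exact Real.exp_le_exp.2 h
  · rw [Real.exp_sub]
    refine div_le_div_of_nonneg_right (h2.trans (Real.exp_le_exp.2 ?_)) (Real.exp_pos k).le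
    have : Real.exp 1 - 1 ≤ 2 := by linarith only [Real.exp_one_lt_d9]
    have h3 : (0 : ℝ) ≤ p * M.card := by positivity
    nlinarith only [this, h3]

lemma chernoff_low (h0 : 0 ≤ p) (h1 : p ≤ 1) (M : Finset ι) (k : ℝ) {u : ℝ} (hu : 0 ≤ u) :
    Pr p (fun ω => ((ω ∩ M).card : ℝ) ≤ k) ≤
      Real.exp (u * k - u / (1 + u) * (p * M.card)) := by
  have hm := markov h0 h1 (f := fun ω => Real.exp (-u) ^ (ω ∩ M).card)
    (fun ω => by positivity) (Real.exp_pos (-(u * k)))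
  have h2 := mgf_le h0 h1 (Real.exp_pos (-u)).le M
  refine le_trans (Pr_mono h0 h1 fun ω h => ?_) (hm.trans ?_)
  · rw [← Real.exp_nat_mul]; exact Real.exp_le_exp.2 (by nlinarith only [hu, h])
  · rw [div_le_iff₀ (Real.exp_pos _), ← Real.exp_add]
    refine h2.trans (Real.exp_le_exp.2 ?_)
    have h4 : Real.exp (-u) ≤ 1 / (1 + u) := by
      rw [Real.exp_neg, ← one_div]
      exact one_div_le_one_div_of_le (by linarith) (by linarith [Real.add_one_le_exp u])
    have h5 : 1 / (1 + u) - 1 = -(u / (1 + u)) := by field_simp; ring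
    have h3 : (0 : ℝ) ≤ p * M.card := by positivity
    nlinarith only [h4, h3, h5]

lemma Pr_empty_le (h0 : 0 ≤ p) (h1 : p ≤ 1) (M : Finset ι) :
    Pr p (fun ω => ω ∩ M = ∅) ≤ Real.exp (-(p * M.card)) := by
  have h2 := mgf_le h0 h1 (le_refl 0) M
  refine le_trans (E_mono h0 h1 fun ω => ?_) (h2.trans (le_of_eq (by congr 1; ring)))
  by_cases h : ω ∩ M = ∅
  · rw [ind_pos h, h]; simp
  · rw [ind_neg h]; positivity

end Pool.Agent.Work.MP_d4a230_co
end

-- merged part: Pool.Agent.Work.MP_d4a230_co.HMsg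
section
namespace Pool.Agent.Work.MP_d4a230_co

open Finset

variable {ι : Type}

/-- Karp-Sipser messages on the hypergraph of members of `𝒞` contained in `ω`. -/
def HF (𝒞 : Finset (Finset ι)) (ω : Finset ι) : ℕ → ι → Finset ι → Prop
  | 0, _, _ => True
  | t + 1, e, X => ∀ T ∈ 𝒞, T ≠ X → e ∈ T → T ⊆ ω → ¬ ∀ g ∈ T, g ≠ e → HF 𝒞 ω t g T

variable {𝒞 : Finset (Finset ι)} {ω : Finset ι}

lemma HF_succ {t : ℕ} {e : ι} {X : Finset ι} : HF 𝒞 ω (t + 1) e X ↔
    ∀ T ∈ 𝒞, T ≠ X → e ∈ T → T ⊆ ω → ¬ ∀ g ∈ T, g ≠ e → HF 𝒞 ω t g T := Iff.rfl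

lemma HF_step {s t : ℕ} (h : ∀ e X, HF 𝒞 ω s e X → HF 𝒞 ω t e X) (e : ι) (X : Finset ι)
    (h' : HF 𝒞 ω (t + 1) e X) : HF 𝒞 ω (s + 1) e X :=
  fun T h1 h2 h3 h4 hh => h' T h1 h2 h3 h4 fun g hg hge => h _ _ (hh g hg hge)

lemma HF_even_dec (k : ℕ) : ∀ e X, HF 𝒞 ω (2 * k + 2) e X → HF 𝒞 ω (2 * k) e X := by
  induction k with
  | zero => intro _ _ _; trivial
  | succ k ih => exact HF_step (HF_step ih)

lemma HF_odd_even_same (k : ℕ) : ∀ e X, HF 𝒞 ω (2 * k + 1) e X → HF 𝒞 ω (2 * k) e X := by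
  induction k with
  | zero => intro _ _ _; trivial
  | succ k ih => exact HF_step (HF_step ih)

lemma HF_odd_mono {i j : ℕ} (hij : i ≤ j) {e : ι} {X : Finset ι} (h : HF 𝒞 ω (2 * i + 1) e X) :
    HF 𝒞 ω (2 * j + 1) e X := by
  induction j, hij using Nat.le_induction with
  | base => exact h
  | succ j _ ih => exact HF_step (HF_even_dec j) _ _ ih

lemma HF_even_anti {i j : ℕ} (hij : i ≤ j) {e : ι} {X : Finset ι} (h : HF 𝒞 ω (2 * j) e X) :
    HF 𝒞 ω (2 * i) e X := by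
  induction j, hij using Nat.le_induction with
  | base => exact h
  | succ j _ ih => exact ih (HF_even_dec j _ _ h)

lemma HF_odd_even (i j : ℕ) {e : ι} {X : Finset ι} (h : HF 𝒞 ω (2 * i + 1) e X) :
    HF 𝒞 ω (2 * j) e X := by
  rcases le_total i j with hij | hij
  · exact HF_odd_even_same j _ _ (HF_odd_mono hij h)
  · exact HF_even_anti hij (HF_odd_even_same i _ _ h)

/-- `T` supports `e` at level `k`. -/
def HSup (𝒞 : Finset (Finset ι)) (ω : Finset ι) (k : ℕ) (e : ι) (T : Finset ι) : Prop :=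
  T ∈ 𝒞 ∧ e ∈ T ∧ T ⊆ ω ∧ ∀ g ∈ T, g ≠ e → HF 𝒞 ω (2 * k + 1) g T

/-- All messages into `T` have depth `i`. -/
def HAll (𝒞 : Finset (Finset ι)) (ω : Finset ι) (i : ℕ) (T : Finset ι) : Prop :=
  T ⊆ ω ∧ ∀ e ∈ T, HF 𝒞 ω i e T

/-- The message from `g` has depth `j`, the others depth `i`. -/
def HTri (𝒞 : Finset (Finset ι)) (ω : Finset ι) (i j : ℕ) (g : ι) (T : Finset ι) : Prop :=
  T ⊆ ω ∧ HF 𝒞 ω j g T ∧ ∀ e ∈ T, e ≠ g → HF 𝒞 ω i e T

lemma HTri_iff {i : ℕ} {g : ι} {T : Finset ι} (hg : g ∈ T) :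
    HTri 𝒞 ω i i g T ↔ HAll 𝒞 ω i T := by
  refine ⟨fun h => ⟨h.1, fun e he => ?_⟩, fun h => ⟨h.1, h.2 g hg, fun e he _ => h.2 e he⟩⟩
  by_cases hc : e = g
  · rw [hc]; exact h.2.1
  · exact h.2.2 e he hc

lemma HSup.mono {k l : ℕ} (hkl : k ≤ l) {e : ι} {T : Finset ι} (h : HSup 𝒞 ω k e T) :
    HSup 𝒞 ω l e T := ⟨h.1, h.2.1, h.2.2.1, fun g hg hge => HF_odd_mono hkl (h.2.2.2 g hg hge)⟩

lemma not_HF_iff {k : ℕ} {e : ι} {X : Finset ι} :
    ¬ HF 𝒞 ω (2 * k + 2) e X ↔ ∃ T, T ≠ X ∧ HSup 𝒞 ω k e T := by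
  rw [HF_succ]
  constructor
  · intro h
    by_contra hc
    exact h fun T h1 h2 h3 h4 h5 => hc ⟨T, h2, h1, h3, h4, h5⟩
  · rintro ⟨T, h2, h1, h3, h4, h5⟩ h
    exact h T h1 h2 h3 h4 h5

lemma hsup_unique {k l : ℕ} {e : ι} {T T' : Finset ι} (h : HF 𝒞 ω (2 * k + 1) e T)
    (hu : HSup 𝒞 ω l e T') : T' = T := by
  by_contra hne
  exact h T' hu.1 hne hu.2.1 hu.2.2.1 fun g hg hge => HF_odd_even _ _ (hu.2.2.2 g hg hge)

/-- A support of least level. -/
def HMin (𝒞 : Finset (Finset ι)) (ω : Finset ι) (k : ℕ) (e : ι) (T : Finset ι) : Prop :=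
  HSup 𝒞 ω k e T ∧ ∀ j < k, ∀ T', ¬ HSup 𝒞 ω j e T'

lemma hkey1 {k l : ℕ} {u g : ι} {T T' : Finset ι} (h : HF 𝒞 ω (2 * k + 1) u T) (hne : T' ≠ T)
    (hu : u ∈ T') (h' : HMin 𝒞 ω l g T') : l < k := by
  have h3 : ¬ HF 𝒞 ω (2 * k) g T' := fun h4 => h T' h'.1.1 hne hu h'.1.2.2.1 fun e he _ => by
    by_cases hc : e = g
    · rw [hc]; exact h4
    · exact HF_odd_even _ _ (h'.1.2.2.2 e he hc)
  cases k with
  | zero => exact absurd trivial h3
  | succ k =>
    obtain ⟨T'', _, hu⟩ := not_HF_iff.1 h3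
    by_contra hc
    exact h'.2 k (by omega) T'' hu

lemma hkey2 {k l : ℕ} {u e g : ι} {T T' : Finset ι} (h : HMin 𝒞 ω k e T) (h' : HMin 𝒞 ω l g T')
    (hu : u ∈ T) (hu' : u ∈ T') (hue : u ≠ e) (hug : u ≠ g) : T' = T := by
  by_contra hne
  have := hkey1 (h.1.2.2.2 u hu hue) hne hu' h'
  have := hkey1 (h'.1.2.2.2 u hu' hug) (Ne.symm hne) hu h
  omega

lemma exists_hmin {s : ℕ} {e : ι} {X : Finset ι} (h : ¬ HF 𝒞 ω (2 * s + 2) e X) :
    ∃ k ≤ s, ∃ T, HMin 𝒞 ω k e T := by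
  classical
  obtain ⟨w, _, hw⟩ := not_HF_iff.1 h
  have hex : ∃ k, ∃ w, HSup 𝒞 ω k e w := ⟨s, w, hw⟩
  obtain ⟨u, hu⟩ := Nat.find_spec hex
  exact ⟨Nat.find hex, Nat.find_min' hex ⟨w, hw⟩, u, hu,
    fun j hj u' hu' => Nat.find_min hex hj ⟨u', hu'⟩⟩

/-- Deterministic upper bound for sets containing no member of `𝒞`. -/
theorem hupper_det {k : ℕ} (hk : ∀ T ∈ 𝒞, T.card = k) (D : Finset ι) (hD : ∀ T ∈ 𝒞, T ⊆ D)
    {ω' : Finset ι} (hle : ω' ⊆ ω) (hfree : ∀ T ∈ 𝒞, ¬ T ⊆ ω') (s : ℕ) :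
    ∑ e ∈ D, ind (e ∈ ω') ≤ ∑ e ∈ D, ind (e ∈ ω ∧ HF 𝒞 ω (2 * s + 2) e ∅) +
      ((k : ℝ) - 1) * ∑ T ∈ 𝒞, ind (HAll 𝒞 ω (2 * s + 1) T) := by
  classical
  set L := 2 * s + 1 with hL
  let src := D.filter fun e => e ∈ ω' ∧ ¬ HF 𝒞 ω (2 * s + 2) e ∅ ∧
    ¬ ∃ T ∈ 𝒞, e ∈ T ∧ HAll 𝒞 ω L T
  let tgt := D.filter fun g => g ∈ ω ∧ g ∉ ω' ∧ HF 𝒞 ω (2 * s + 2) g ∅
  have hcard : src.card ≤ tgt.card := by
    refine Finset.card_le_card_of_forall_subsingleton
      (fun e g => ∃ k ≤ s, ∃ T, HMin 𝒞 ω k e T ∧ g ∈ T) ?_ ?_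
    · intro e he
      obtain ⟨_, h1, h2, h3⟩ := Finset.mem_filter.1 he
      obtain ⟨k, hk, T, hT⟩ := exists_hmin h2
      obtain ⟨g, hg, hg'⟩ := Finset.not_subset.1 (hfree T hT.1.1)
      have hge : g ≠ e := fun h => hg' (h ▸ h1)
      refine ⟨g, Finset.mem_filter.2 ⟨hD T hT.1.1 hg, hT.1.2.2.1 hg, hg', ?_⟩, k, hk, T, hT, hg⟩
      by_contra hc
      obtain ⟨T', _, hT'⟩ := not_HF_iff.1 hc
      have := hsup_unique (hT.1.2.2.2 g hg hge) hT'
      subst this
      refine h3 ⟨T', hT.1.1, hT.1.2.1, hT.1.2.2.1, fun u hu => ?_⟩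
      by_cases hc : u = g
      · rw [hc]; exact HF_odd_mono hk (hT.1.2.2.2 g hg hge)
      · exact hT'.2.2.2 u hu hc
    · rintro g hg e ⟨he, k, hk, T, hT, hgT⟩ e' ⟨he', k', hk', T', hT', hgT'⟩
      obtain ⟨_, h1, _, h3⟩ := Finset.mem_filter.1 he
      obtain ⟨_, h1', _⟩ := Finset.mem_filter.1 he'
      have hg' := (Finset.mem_filter.1 hg).2.2.1
      have := hkey2 hT hT' hgT hgT' (fun h => hg' (h ▸ h1)) (fun h => hg' (h ▸ h1'))
      subst this
      by_contra hne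
      refine h3 ⟨T', hT.1.1, hT.1.2.1, hT.1.2.2.1, fun u hu => ?_⟩
      by_cases hc : u = e
      · rw [hc]; exact HF_odd_mono hk' (hT'.1.2.2.2 e hT.1.2.1 hne)
      · exact HF_odd_mono hk (hT.1.2.2.2 u hu hc)
  have hcard' : (src.card : ℝ) ≤ tgt.card := by exact_mod_cast hcard
  rw [← sum_ind, ← sum_ind] at hcard'
  have hc : ∑ e ∈ D, ∑ T ∈ 𝒞, ind (e ∈ ω' ∧ e ∈ T ∧ HAll 𝒞 ω L T) ≤
      ((k : ℝ) - 1) * ∑ T ∈ 𝒞, ind (HAll 𝒞 ω L T) := by
    rw [Finset.sum_comm, Finset.mul_sum]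
    refine Finset.sum_le_sum fun T hT => ?_
    by_cases h : HAll 𝒞 ω L T
    · rw [ind_pos h, mul_one, sum_ind]
      obtain ⟨g, hg, hg'⟩ := Finset.not_subset.1 (hfree T hT)
      have e1 : (D.filter fun e => e ∈ ω' ∧ e ∈ T ∧ HAll 𝒞 ω L T) ⊆ T.erase g := fun e he => by
        obtain ⟨_, h1, h2, _⟩ := Finset.mem_filter.1 he
        exact Finset.mem_erase.2 ⟨fun h => hg' (h ▸ h1), h2⟩
      have e2 := Finset.card_le_card e1
      have e3 := Finset.card_erase_add_one hg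
      rw [hk T hT] at e3
      have e4 : (D.filter fun e => e ∈ ω' ∧ e ∈ T ∧ HAll 𝒞 ω L T).card + 1 ≤ k := by omega
      have e5 : ((D.filter fun e => e ∈ ω' ∧ e ∈ T ∧ HAll 𝒞 ω L T).card : ℝ) + 1 ≤ k := by
        exact_mod_cast e4
      linarith only [e5]
    · rw [ind_neg h, mul_zero]
      exact (Finset.sum_eq_zero fun e _ => ind_neg fun h' => h h'.2.2).le
  have h5 : ∑ e ∈ D, (ind (e ∈ ω') + ind (e ∈ ω ∧ e ∉ ω' ∧ HF 𝒞 ω (2 * s + 2) e ∅)) ≤
      ∑ e ∈ D, (ind (e ∈ ω ∧ HF 𝒞 ω (2 * s + 2) e ∅) +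
      ind (e ∈ ω' ∧ ¬ HF 𝒞 ω (2 * s + 2) e ∅ ∧ ¬ ∃ T ∈ 𝒞, e ∈ T ∧ HAll 𝒞 ω L T) +
      ∑ T ∈ 𝒞, ind (e ∈ ω' ∧ e ∈ T ∧ HAll 𝒞 ω L T)) := by
    refine Finset.sum_le_sum fun e _ => ?_
    have n1 := ind_nonneg (e ∈ ω ∧ HF 𝒞 ω (2 * s + 2) e ∅)
    have n2 := ind_nonneg (e ∈ ω' ∧ ¬ HF 𝒞 ω (2 * s + 2) e ∅ ∧
      ¬ ∃ T ∈ 𝒞, e ∈ T ∧ HAll 𝒞 ω L T)
    have n3 : 0 ≤ ∑ T ∈ 𝒞, ind (e ∈ ω' ∧ e ∈ T ∧ HAll 𝒞 ω L T) :=
      Finset.sum_nonneg fun _ _ => ind_nonneg _
    by_cases he : e ∈ ω'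
    · rw [ind_pos he, ind_neg (q := e ∈ ω ∧ e ∉ ω' ∧ _) (fun h => h.2.1 he)]
      by_cases hF : HF 𝒞 ω (2 * s + 2) e ∅
      · rw [ind_pos (q := e ∈ ω ∧ _) ⟨hle he, hF⟩]; linarith only [n2, n3]
      · by_cases hex : ∃ T ∈ 𝒞, e ∈ T ∧ HAll 𝒞 ω L T
        · obtain ⟨T, hT, hw⟩ := hex
          have := Finset.single_le_sum (f := fun T => ind (e ∈ ω' ∧ e ∈ T ∧ HAll 𝒞 ω L T))
            (fun _ _ => ind_nonneg _) hT
          simp only [ind_pos (q := e ∈ ω' ∧ e ∈ T ∧ HAll 𝒞 ω L T) ⟨he, hw⟩] at this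
          linarith only [n1, n2, this]
        · rw [ind_pos (q := e ∈ ω' ∧ ¬ _ ∧ _) ⟨he, hF, hex⟩]; linarith
    · rw [ind_neg he]
      have := ind_mono (q := e ∈ ω ∧ e ∉ ω' ∧ HF 𝒞 ω (2 * s + 2) e ∅)
        (r := e ∈ ω ∧ HF 𝒞 ω (2 * s + 2) e ∅) (fun h => ⟨h.1, h.2.2⟩)
      linarith
  simp only [Finset.sum_add_distrib] at h5
  linarith only [hcard', hc, h5]

lemma round_lemma {V α : Type} [Fintype V] (𝒯 : Finset α) (opt : α → Finset ι)
    (w : α → ι → ℝ) (u : α → ι → V → ℝ) (K : ℝ) [Nonempty ι] (h0 : ∀ T e, 0 ≤ w T e)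
    (h1 : ∀ T ∈ 𝒯, ∑ e ∈ opt T, w T e = 1) (h2 : ∀ T ∈ 𝒯, ∀ v, ∑ e ∈ opt T, w T e * u T e v = 0)
    (h3 : ∀ T ∈ 𝒯, ∀ e ∈ opt T, ∑ v, u T e v ^ 2 ≤ K) :
    ∃ σ : α → ι, (∀ T ∈ 𝒯, σ T ∈ opt T ∧ 0 < w T (σ T)) ∧
      ∑ v, (∑ T ∈ 𝒯, u T (σ T) v) ^ 2 ≤ K * 𝒯.card := by
  classical
  induction 𝒯 using Finset.induction_on with
  | empty => exact ⟨fun _ => Classical.arbitrary ι, by simp, by simp⟩
  | insert T0 𝒯 hT0 ih =>
    obtain ⟨σ, s1, s2⟩ := ih (fun T hT => h1 T (Finset.mem_insert_of_mem hT))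
      (fun T hT => h2 T (Finset.mem_insert_of_mem hT))
      (fun T hT => h3 T (Finset.mem_insert_of_mem hT))
    set S : V → ℝ := fun v => ∑ T ∈ 𝒯, u T (σ T) v with hS
    have m := Finset.mem_insert_self T0 𝒯
    obtain ⟨e, he, hw, hneg⟩ : ∃ e ∈ opt T0, 0 < w T0 e ∧ ∑ v, S v * u T0 e v ≤ 0 := by
      by_contra hc
      push Not at hc
      have e1 : ∑ e ∈ opt T0, w T0 e * ∑ v, S v * u T0 e v = 0 := by
        simp only [Finset.mul_sum]
        rw [Finset.sum_comm]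
        refine Finset.sum_eq_zero fun v _ => ?_
        have := h2 T0 m v
        calc ∑ e ∈ opt T0, w T0 e * (S v * u T0 e v) = S v * ∑ e ∈ opt T0, w T0 e * u T0 e v := by
              rw [Finset.mul_sum]; exact Finset.sum_congr rfl fun _ _ => by ring
          _ = 0 := by rw [this, mul_zero]
      obtain ⟨e, he, hw⟩ : ∃ e ∈ opt T0, 0 < w T0 e := by
        by_contra hd
        push Not at hd
        have := Finset.sum_nonpos hd
        rw [h1 T0 m] at this
        linarith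
      refine absurd e1 (ne_of_gt (Finset.sum_pos' (fun g hg => ?_) ⟨e, he, mul_pos hw (hc e he hw)⟩))
      rcases (h0 T0 g).lt_or_eq with h | h
      · exact (mul_pos h (hc g hg h)).le
      · rw [← h, zero_mul]
    refine ⟨Function.update σ T0 e, fun T hT => ?_, ?_⟩
    · rcases Finset.mem_insert.1 hT with rfl | hT
      · rw [Function.update_self]; exact ⟨he, hw⟩
      · rw [Function.update_of_ne (fun h : T = T0 => hT0 (h ▸ hT))]; exact s1 T hT
    · have e1 : ∀ v, ∑ T ∈ insert T0 𝒯, u T (Function.update σ T0 e T) v = u T0 e v + S v := by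
        intro v
        rw [Finset.sum_insert hT0, Function.update_self]
        congr 1
        exact Finset.sum_congr rfl fun T hT => by
          rw [Function.update_of_ne (fun h : T = T0 => hT0 (h ▸ hT))]
      have e2 : ∀ v, (u T0 e v + S v) ^ 2 = u T0 e v ^ 2 + 2 * (S v * u T0 e v) + S v ^ 2 :=
        fun v => by ring
      simp only [e1, e2, Finset.sum_add_distrib, ← Finset.mul_sum]
      rw [Finset.card_insert_of_notMem hT0]
      push_cast
      linarith [h3 T0 m e he]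

/-- Critical members in which `e` has the largest level. -/
def HForced (𝒞 : Finset (Finset ι)) (ω : Finset ι) (s : ℕ) (e : ι) (T : Finset ι) : Prop :=
  ∃ k < s, HTri 𝒞 ω (2 * k + 1) (2 * (k + 1) + 1) e T ∧ ¬ HF 𝒞 ω (2 * k + 1) e T

lemma HForced.crit {s : ℕ} {e : ι} {T : Finset ι} (h : HForced 𝒞 ω s e T) :
    HAll 𝒞 ω (2 * s + 1) T := by
  obtain ⟨k, hk, h, _⟩ := h
  refine ⟨h.1, fun g hg => ?_⟩
  by_cases hc : g = e
  · rw [hc]; exact HF_odd_mono hk h.2.1
  · exact HF_odd_mono hk.le (h.2.2 g hg hc)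

lemma HForced.unique {s : ℕ} {e g : ι} {T : Finset ι} (he : e ∈ T) (hg : g ∈ T)
    (h : HForced 𝒞 ω s e T) (h' : HForced 𝒞 ω s g T) : g = e := by
  by_contra hne
  obtain ⟨k, _, h, h1⟩ := h
  obtain ⟨l, _, h', h2⟩ := h'
  rcases le_total k l with hkl | hkl
  · exact h2 (HF_odd_mono hkl (h.2.2 g hg hne))
  · exact h1 (HF_odd_mono hkl (h'.2.2 e he (Ne.symm hne)))

lemma hfree_of_not_forced {s k : ℕ} {e : ι} {T : Finset ι} (hc : HAll 𝒞 ω (2 * s + 1) T)
    (hf : ¬ HForced 𝒞 ω s e T) (hk : k ≤ s) (hs : HSup 𝒞 ω k e T) :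
    HF 𝒞 ω (2 * k + 1) e T := by
  have : ∀ j, k + j ≤ s → HF 𝒞 ω (2 * (k + j) + 1) e T → HF 𝒞 ω (2 * k + 1) e T := by
    intro j
    induction j with
    | zero => exact fun _ h => h
    | succ j ih =>
      intro hj h
      refine ih (by omega) ?_
      by_contra hn
      exact hf ⟨k + j, by omega, ⟨hc.1, h, fun g hg hge =>
        HF_odd_mono (by omega) (hs.2.2.2 g hg hge)⟩, hn⟩
  obtain ⟨j, rfl⟩ := Nat.exists_eq_add_of_le hk
  exact this j le_rfl (hc.2 e hs.2.1)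

lemma ind_hforced (s : ℕ) (e : ι) (T : Finset ι) : ind (HForced 𝒞 ω s e T) =
    ∑ k ∈ range s, (ind (HTri 𝒞 ω (2 * k + 1) (2 * (k + 1) + 1) e T) -
      ind (HTri 𝒞 ω (2 * k + 1) (2 * k + 1) e T)) := by
  have e0 : ∀ k, ind (HTri 𝒞 ω (2 * k + 1) (2 * (k + 1) + 1) e T) -
      ind (HTri 𝒞 ω (2 * k + 1) (2 * k + 1) e T) =
      ind (HTri 𝒞 ω (2 * k + 1) (2 * (k + 1) + 1) e T ∧ ¬ HF 𝒞 ω (2 * k + 1) e T) := by
    intro k
    by_cases h1 : HTri 𝒞 ω (2 * k + 1) (2 * (k + 1) + 1) e T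
    · by_cases h2 : HF 𝒞 ω (2 * k + 1) e T
      · rw [ind_pos h1, ind_pos (q := HTri _ _ _ _ _ _) ⟨h1.1, h2, h1.2.2⟩,
          ind_neg (fun h => h.2 h2)]; ring
      · rw [ind_pos h1, ind_neg (q := HTri _ _ _ _ _ _) (fun h => h2 h.2.1),
          ind_pos (q := _ ∧ _) ⟨h1, h2⟩]; ring
    · rw [ind_neg h1, ind_neg (q := HTri _ _ _ _ _ _)
        (fun h => h1 ⟨h.1, HF_odd_mono (Nat.le_succ k) h.2.1, h.2.2⟩),
        ind_neg (fun h => h1 h.1)]; ring
  simp only [e0]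
  by_cases h : HForced 𝒞 ω s e T
  · obtain ⟨k, hk, h1⟩ := h
    rw [ind_pos (q := HForced 𝒞 ω s e T) ⟨k, hk, h1⟩, Finset.sum_eq_single k, ind_pos h1]
    · intro l _ hl
      refine ind_neg fun h2 => ?_
      rcases lt_or_gt_of_ne hl with hl | hl
      · exact h1.2 (HF_odd_mono hl h2.1.2.1)
      · exact h2.2 (HF_odd_mono hl h1.1.2.1)
    · intro hk'; exact absurd (Finset.mem_range.2 hk) hk'
  · rw [ind_neg h, eq_comm]
    exact Finset.sum_eq_zero fun k hk => ind_neg fun h2 => h ⟨k, Finset.mem_range.1 hk, h2⟩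

/-- Fractional choice of the deleted element. -/
noncomputable def hwgt (𝒞 : Finset (Finset ι)) (ω : Finset ι) (s : ℕ) (T : Finset ι) (e : ι) :
    ℝ := ind (HForced 𝒞 ω s e T) + (1 - ∑ g ∈ T, ind (HForced 𝒞 ω s g T)) / T.card

lemma sum_forced (s : ℕ) (T : Finset ι) :
    ∑ g ∈ T, ind (HForced 𝒞 ω s g T) = ind (∃ g ∈ T, HForced 𝒞 ω s g T) := by
  by_cases h : ∃ g ∈ T, HForced 𝒞 ω s g T
  · rw [ind_pos h]
    obtain ⟨g, hg, hf⟩ := h
    rw [Finset.sum_eq_single_of_mem g hg, ind_pos hf]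
    exact fun e he hne => ind_neg fun h => hne (HForced.unique hg he hf h)
  · rw [ind_neg h]
    exact Finset.sum_eq_zero fun g hg => ind_neg fun h' => h ⟨g, hg, h'⟩

lemma hwgt_nonneg (s : ℕ) (T : Finset ι) (e : ι) : 0 ≤ hwgt 𝒞 ω s T e := by
  unfold hwgt
  rw [sum_forced]
  exact add_nonneg (ind_nonneg _) (div_nonneg (sub_nonneg.2 (ind_le_one _)) (Nat.cast_nonneg _))

lemma hwgt_sum (s : ℕ) {T : Finset ι} (hT : T.Nonempty) : ∑ e ∈ T, hwgt 𝒞 ω s T e = 1 := by
  unfold hwgt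
  have : (T.card : ℝ) ≠ 0 := by exact_mod_cast hT.card_pos.ne'
  rw [Finset.sum_add_distrib, Finset.sum_const, nsmul_eq_mul]
  field_simp
  ring

lemma hwgt_pos {s : ℕ} {T : Finset ι} {e g : ι} (he : e ∈ T) (h : 0 < hwgt 𝒞 ω s T e)
    (hg : g ∈ T) (hf : HForced 𝒞 ω s g T) : g = e := by
  unfold hwgt at h
  rw [sum_forced, ind_pos (q := ∃ g ∈ T, HForced 𝒞 ω s g T) ⟨g, hg, hf⟩, sub_self, zero_div, add_zero] at h
  by_contra hne
  rw [ind_neg fun h' => hne (HForced.unique he hg h' hf)] at h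
  exact lt_irrefl _ h

/-- The cover: given a choice of one element in each critical member respecting forced elements,
the remaining set contains no member of `𝒞`. -/
theorem hcover (s : ℕ) (σ : Finset ι → ι)
    (hσ : ∀ T ∈ 𝒞, HAll 𝒞 ω (2 * s + 1) T → σ T ∈ T ∧ ∀ g ∈ T, HForced 𝒞 ω s g T → g = σ T)
    {R : Finset ι} (hR : ∀ e ∈ R, e ∈ ω ∧
      (¬ ∃ T ∈ 𝒞, e ∈ T ∧ HAll 𝒞 ω (2 * s + 2) T ∧ ¬ HAll 𝒞 ω (2 * s + 1) T) ∧
      (HF 𝒞 ω (2 * s + 2) e ∅ ∨ ∃ T ∈ 𝒞, e ∈ T ∧ HAll 𝒞 ω (2 * s + 1) T ∧ σ T ≠ e))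
    (hne : ∀ T ∈ 𝒞, T.Nonempty) : ∀ T ∈ 𝒞, ¬ T ⊆ R := by
  have hsup : ∀ e ∈ R, ∀ T k, k ≤ s → HSup 𝒞 ω k e T →
      HAll 𝒞 ω (2 * s + 1) T ∧ σ T ≠ e := by
    intro e he T k hk hs
    rcases (hR e he).2.2 with h | ⟨T', _, h1, h2, h3⟩
    · exact absurd h (not_HF_iff.2 ⟨T, Finset.ne_empty_of_mem hs.2.1, hs.mono hk⟩)
    · have : T = T' := hsup_unique (h2.2 e h1) hs
      subst this
      exact ⟨h2, h3⟩
  intro T hT hTR
  have hTω : T ⊆ ω := fun e he => (hR e (hTR he)).1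
  have desc : ∀ k ≤ s + 1, ∀ e ∈ T, HF 𝒞 ω (2 * k) e T := by
    intro k
    induction k with
    | zero => intro _ _ _; trivial
    | succ k ih =>
      intro hk e he
      by_contra hn
      obtain ⟨T', hT', hs⟩ := not_HF_iff.1 hn
      obtain ⟨h1, h2⟩ := hsup e (hTR he) T' k (by omega) hs
      have hnf : ¬ HForced 𝒞 ω s e T' := fun hf => h2 ((hσ T' hs.1 h1).2 e hs.2.1 hf).symm
      exact hfree_of_not_forced h1 hnf (by omega) hs T hT hT'.symm he hTω
        fun g hg _ => ih (by omega) g hg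
  have hc : HAll 𝒞 ω (2 * s + 1) T := by
    by_contra hn
    obtain ⟨e, he⟩ := hne T hT
    exact (hR e (hTR he)).2.1 ⟨T, hT, he, ⟨hTω, desc (s + 1) le_rfl⟩, hn⟩
  have hm := (hσ T hT hc).1
  exact (hsup _ (hTR hm) T s le_rfl ⟨hT, hm, hTω, fun g hg _ => hc.2 g hg⟩).2 rfl

end Pool.Agent.Work.MP_d4a230_co
end

-- merged part: Pool.Agent.Work.MP_d4a230_co.HSys
section
namespace Pool.Agent.Work.MP_d4a230_co

open Finset

variable {V : Type} [DecidableEq V]

/-- Vertices covered by a set of pairs. -/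
def vs (T : Finset (Sym2 V)) : Finset V := T.biUnion Sym2.toFinset

lemma mem_vs {T : Finset (Sym2 V)} {x : V} : x ∈ vs T ↔ ∃ e ∈ T, x ∈ e := by
  unfold vs; simp [Sym2.mem_toFinset]

lemma vs_mono {T T' : Finset (Sym2 V)} (h : T ⊆ T') : vs T ⊆ vs T' := fun _ hx =>
  let ⟨e, he, hxe⟩ := mem_vs.1 hx
  mem_vs.2 ⟨e, h he, hxe⟩

lemma card_vs_le (T : Finset (Sym2 V)) : (vs T).card ≤ 2 * T.card := by
  rw [mul_comm]
  exact Finset.card_biUnion_le_card_mul _ _ 2 fun e _ => by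
    rw [Sym2.card_toFinset]; split_ifs <;> omega

/-- Number of members of `T` inside `U`. -/
def ein (T : Finset (Sym2 V)) (U : Finset V) : ℕ := (T.filter fun e => e.toFinset ⊆ U).card

omit [DecidableEq V] in
lemma sym2_eq_of_subset {e g : Sym2 V} (he : ¬ e.IsDiag) (h : ∀ x ∈ e, x ∈ g) : e = g := by
  induction e using Sym2.ind with
  | _ a b =>
    exact Sym2.eq_of_ne_mem (x := a) (y := b) (by simpa using he) (by simp) (by simp)
      (h a (by simp)) (h b (by simp))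

/-- The abstract properties of the family of copies of a strictly 2-balanced graph. -/
structure Sys (𝒞 : Finset (Finset (Sym2 V))) (h k K0 : ℕ) : Prop where
  h3 : 3 ≤ h
  hk : h ≤ k
  card : ∀ T ∈ 𝒞, T.card = k
  nd : ∀ T ∈ 𝒞, ∀ e ∈ T, ¬ e.IsDiag
  cvs : ∀ T ∈ 𝒞, (vs T).card = h
  bal : ∀ T ∈ 𝒞, ∀ U ⊆ vs T, 3 ≤ U.card → U.card < h →
    ((ein T U : ℤ) - 1) * ((h : ℤ) - 2) < ((k : ℤ) - 1) * ((U.card : ℤ) - 2)
  mult : ∀ Y, (𝒞.filter fun T => vs T = Y).card ≤ K0

variable {𝒞 : Finset (Finset (Sym2 V))} {h k K0 : ℕ}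

lemma Sys.nonempty (S : Sys 𝒞 h k K0) {T : Finset (Sym2 V)} (hT : T ∈ 𝒞) : T.Nonempty :=
  Finset.card_pos.1 (by have := S.card T hT; have := S.h3; have := S.hk; omega)

lemma Sys.ein_le_one (S : Sys 𝒞 h k K0) {T : Finset (Sym2 V)} (hT : T ∈ 𝒞) {U : Finset V}
    (hU : U.card ≤ 2) : ein T U ≤ 1 := by
  refine Finset.card_le_one.2 fun e he g hg => ?_
  obtain ⟨e1, e2⟩ := Finset.mem_filter.1 he
  obtain ⟨g1, g2⟩ := Finset.mem_filter.1 hg
  have e3 : g.toFinset = U := Finset.eq_of_subset_of_card_le g2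
    (by rw [Sym2.card_toFinset_of_not_isDiag _ (S.nd T hT g g1)]; exact hU)
  exact sym2_eq_of_subset (S.nd T hT e e1) fun x hx =>
    Sym2.mem_toFinset.1 (e3 ▸ e2 (Sym2.mem_toFinset.2 hx))

lemma Sys.ein_le (S : Sys 𝒞 h k K0) {T : Finset (Sym2 V)} (hT : T ∈ 𝒞) (U : Finset V) :
    ein T U ≤ k := (Finset.card_filter_le _ _).trans (S.card T hT).le

lemma Sys.wbal (S : Sys 𝒞 h k K0) {T : Finset (Sym2 V)} (hT : T ∈ 𝒞) {U : Finset V}
    (hU : U ⊆ vs T) (h2 : 2 ≤ U.card) :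
    ((ein T U : ℤ) - 1) * ((h : ℤ) - 2) ≤ ((k : ℤ) - 1) * ((U.card : ℤ) - 2) := by
  have e0 : (3 : ℤ) ≤ h := by exact_mod_cast S.h3
  rcases h2.lt_or_eq with h2 | h2
  · have e1 := Finset.card_le_card hU
    rw [S.cvs T hT] at e1
    rcases e1.lt_or_eq with e1 | e1
    · exact (S.bal T hT U hU h2 e1).le
    · have : (ein T U : ℤ) ≤ k := by exact_mod_cast S.ein_le hT U
      rw [e1]; nlinarith
  · have : (ein T U : ℤ) ≤ 1 := by exact_mod_cast S.ein_le_one hT h2.ge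
    rw [← h2]; push_cast; nlinarith only [this, e0]

lemma Sys.mem_vs_erase (S : Sys 𝒞 h k K0) {T : Finset (Sym2 V)} (hT : T ∈ 𝒞) {e : Sym2 V}
    (he : e ∈ T) {a : V} (ha : a ∈ e) : a ∈ vs (T.erase e) := by
  by_contra hc
  have ha' : a ∈ vs T := mem_vs.2 ⟨e, he, ha⟩
  have c1 : ((vs T).erase a).card + 1 = h := by rw [Finset.card_erase_add_one ha', S.cvs T hT]
  have e1 := S.wbal hT (Finset.erase_subset a _) (by have := S.h3; omega)
  have e2 : (T.erase e).card ≤ ein T ((vs T).erase a) := by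
    refine Finset.card_le_card fun g hg => Finset.mem_filter.2 ⟨Finset.mem_of_mem_erase hg, ?_⟩
    intro x hx
    refine Finset.mem_erase.2 ⟨?_, mem_vs.2 ⟨g, Finset.mem_of_mem_erase hg, Sym2.mem_toFinset.1 hx⟩⟩
    rintro rfl
    exact hc (mem_vs.2 ⟨g, hg, Sym2.mem_toFinset.1 hx⟩)
  have c2 : (T.erase e).card + 1 = k := by rw [Finset.card_erase_add_one he, S.card T hT]
  have e3 : (k : ℤ) ≤ ein T ((vs T).erase a) + 1 := by exact_mod_cast (by omega)
  have e4 : (((vs T).erase a).card : ℤ) = h - 1 := by rw [← c1]; push_cast; ring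
  have e5 : (3 : ℤ) ≤ h := by exact_mod_cast S.h3
  have e6 : (h : ℤ) ≤ k := by exact_mod_cast S.hk
  rw [e4] at e1
  nlinarith only [c1, e1, c2, e6, e2, e5]

lemma Sys.exists_avoid (S : Sys 𝒞 h k K0) {T : Finset (Sym2 V)} (hT : T ∈ 𝒞) (y : V) :
    ∃ e ∈ T, y ∉ e := by
  obtain ⟨e, he⟩ := S.nonempty hT
  by_cases hy : y ∈ e
  · obtain ⟨a, rfl⟩ := Sym2.mem_iff_exists.1 hy
    obtain ⟨g, hg, hag⟩ := mem_vs.1 (S.mem_vs_erase hT he (Sym2.mem_mk_right y a))
    refine ⟨g, Finset.mem_of_mem_erase hg, fun hyg => (Finset.mem_erase.1 hg).1 ?_⟩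
    refine (sym2_eq_of_subset (S.nd T hT _ he) fun x hx => ?_).symm
    rcases Sym2.mem_iff.1 hx with rfl | rfl <;> assumption
  · exact ⟨e, he, hy⟩

lemma Sys.split (S : Sys 𝒞 h k K0) {T T' P : Finset (Sym2 V)} (hT : T ∈ 𝒞) (hT' : T' ∈ 𝒞)
    {e : Sym2 V} (he : e ∈ T) (hP : ∀ x ∈ vs P, x ∈ vs T → x ∈ e) (hsub : T' ⊆ P ∪ T) {x0 : V}
    (x1 : x0 ∈ vs T') (x2 : x0 ∈ vs T) (x3 : x0 ∉ e) : T' = T := by
  set A := e.toFinset with hA
  set X := vs T' ∩ (vs T \ A) with hX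
  set Y := vs T' \ X with hY
  have cA : A.card = 2 := Sym2.card_toFinset_of_not_isDiag _ (S.nd T hT e he)
  have hAT : A ⊆ vs T := fun x hx => mem_vs.2 ⟨e, he, Sym2.mem_toFinset.1 hx⟩
  have hXA : Disjoint X A := Finset.disjoint_left.2 fun x hx =>
    (Finset.mem_sdiff.1 (Finset.mem_inter.1 hx).2).2
  have hXAT : X ∪ A ⊆ vs T := Finset.union_subset
    (fun x hx => (Finset.mem_sdiff.1 (Finset.mem_inter.1 hx).2).1) hAT
  have cXA : (X ∪ A).card = X.card + 2 := by rw [Finset.card_union_of_disjoint hXA, cA]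
  have cX : 1 ≤ X.card := Finset.card_pos.2 ⟨x0, Finset.mem_inter.2
    ⟨x1, Finset.mem_sdiff.2 ⟨x2, fun h => x3 (Sym2.mem_toFinset.1 h)⟩⟩⟩
  have cY : Y.card + X.card = h := by
    rw [Finset.card_sdiff_add_card_eq_card Finset.inter_subset_left, S.cvs T' hT']
  have cle : X.card + 2 ≤ h := by
    rw [← cXA, ← S.cvs T hT]; exact Finset.card_le_card hXAT
  have hout : (T'.filter fun g => ¬ g.toFinset ⊆ Y) ⊆
      (T.filter fun g => g.toFinset ⊆ X ∪ A).erase e := by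
    intro g hg
    obtain ⟨g1, g2⟩ := Finset.mem_filter.1 hg
    obtain ⟨x, hx, hxY⟩ := Finset.not_subset.1 g2
    have hx' := Sym2.mem_toFinset.1 hx
    have hxX : x ∈ X := by
      by_contra hc
      exact hxY (Finset.mem_sdiff.2 ⟨mem_vs.2 ⟨g, g1, hx'⟩, hc⟩)
    obtain ⟨hxT, hxA⟩ := Finset.mem_sdiff.1 (Finset.mem_inter.1 hxX).2
    have gT : g ∈ T := (Finset.mem_union.1 (hsub g1)).resolve_left fun h =>
      hxA (Sym2.mem_toFinset.2 (hP x (mem_vs.2 ⟨g, h, hx'⟩) hxT))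
    refine Finset.mem_erase.2 ⟨fun h => hxA (by rw [hA, ← h]; exact hx), Finset.mem_filter.2 ⟨gT, fun y hy => ?_⟩⟩
    by_cases hyA : y ∈ A
    · exact Finset.mem_union_right _ hyA
    · exact Finset.mem_union_left _ (Finset.mem_inter.2 ⟨mem_vs.2 ⟨g, g1, Sym2.mem_toFinset.1 hy⟩,
        Finset.mem_sdiff.2 ⟨mem_vs.2 ⟨g, gT, Sym2.mem_toFinset.1 hy⟩, hyA⟩⟩)
  have c1 : ein T' Y + (T'.filter fun g => ¬ g.toFinset ⊆ Y).card = k := by
    unfold ein
    rw [Finset.card_filter_add_card_filter_not, S.card T' hT']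
  have c2 : ((T.filter fun g => g.toFinset ⊆ X ∪ A).erase e).card + 1 = ein T (X ∪ A) :=
    Finset.card_erase_add_one (Finset.mem_filter.2 ⟨he, Finset.subset_union_right⟩)
  have c3 := Finset.card_le_card hout
  rcases cle.lt_or_eq with hlt | heq
  · exfalso
    have b1 := S.bal T hT _ hXAT (by omega) (by omega)
    have b2 := S.wbal hT' (U := Y) Finset.sdiff_subset (by omega)
    have e1 : (k : ℤ) + 1 ≤ ein T' Y + ein T (X ∪ A) := by exact_mod_cast (by omega)
    have e2 : (Y.card : ℤ) = h - X.card := by rw [← cY]; push_cast; ring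
    have e3 : (3 : ℤ) ≤ h := by exact_mod_cast S.h3
    rw [cXA] at b1
    rw [e2] at b2
    push_cast at b1
    nlinarith only [c1, c2, b2, b1, c3, cY, cX, cle]
  · have d1 := S.ein_le_one hT' (U := Y) (by omega)
    have d2 : (T.erase e).card + 1 = k := by rw [Finset.card_erase_add_one he, S.card T hT]
    have d3 : (T'.filter fun g => ¬ g.toFinset ⊆ Y) = T.erase e :=
      Finset.eq_of_subset_of_card_le
        (hout.trans (Finset.erase_subset_erase _ (Finset.filter_subset _ _))) (by omega)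
    have d4 : A = Y := by
      refine Finset.eq_of_subset_of_card_le (fun x hx => Finset.mem_sdiff.2 ⟨?_, fun h =>
        Finset.disjoint_left.1 hXA h hx⟩) (by omega)
      refine vs_mono ?_ (S.mem_vs_erase hT he (Sym2.mem_toFinset.1 hx))
      rw [← d3]; exact Finset.filter_subset _ _
    refine Finset.eq_of_subset_of_card_le (fun g hg => ?_) (by rw [S.card T hT, S.card T' hT'])
    by_cases hc : g.toFinset ⊆ Y
    · rw [sym2_eq_of_subset (g := e) (S.nd T' hT' g hg) fun x hx =>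
        Sym2.mem_toFinset.1 (by rw [← hA, d4]; exact hc (Sym2.mem_toFinset.2 hx))]
      exact he
    · exact Finset.mem_of_mem_erase (d3 ▸ Finset.mem_filter.2 ⟨hg, hc⟩)

variable [Fintype V]

lemma Sys.count0 (S : Sys 𝒞 h k K0) (U : Finset V) :
    (𝒞.filter fun T => U ⊆ vs T).card ≤ K0 * Fintype.card V ^ (h - U.card) := by
  refine (Finset.card_le_mul_card_image_of_maps_to (f := fun T => vs T \ U)
    (t := univ.powersetCard (h - U.card)) (fun T hT => ?_) K0 (fun Z _ => ?_)).trans ?_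
  · obtain ⟨h1, h2⟩ := Finset.mem_filter.1 hT
    exact Finset.mem_powersetCard.2 ⟨Finset.subset_univ _, by
      rw [Finset.card_sdiff_of_subset h2, S.cvs T h1]⟩
  · refine le_trans (Finset.card_le_card fun T hT => ?_) (S.mult (Z ∪ U))
    obtain ⟨h1, h2⟩ := Finset.mem_filter.1 hT
    obtain ⟨h3, h4⟩ := Finset.mem_filter.1 h1
    exact Finset.mem_filter.2 ⟨h3, by rw [← h2, Finset.sdiff_union_of_subset h4]⟩
  · rw [Finset.card_powersetCard, Finset.card_univ]
    exact Nat.mul_le_mul_left _ (Nat.choose_le_pow _ _)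

lemma Sys.count1 (S : Sys 𝒞 h k K0) (X : Finset V) (w : ℕ) :
    (𝒞.filter fun T => w ≤ (vs T ∩ X).card).card ≤
      X.card ^ w * (K0 * Fintype.card V ^ (h - w)) := by
  have : (𝒞.filter fun T => w ≤ (vs T ∩ X).card) ⊆
      (X.powersetCard w).biUnion fun U => 𝒞.filter fun T => U ⊆ vs T := by
    intro T hT
    obtain ⟨h1, h2⟩ := Finset.mem_filter.1 hT
    obtain ⟨U, u1, u2⟩ := Finset.exists_subset_card_eq h2
    exact Finset.mem_biUnion.2 ⟨U, Finset.mem_powersetCard.2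
      ⟨u1.trans Finset.inter_subset_right, u2⟩,
      Finset.mem_filter.2 ⟨h1, u1.trans Finset.inter_subset_left⟩⟩
  refine (Finset.card_le_card this).trans ((Finset.card_biUnion_le_card_mul _ _ _
    fun U hU => (Finset.mem_powersetCard.1 hU).2 ▸ S.count0 U).trans ?_)
  rw [Finset.card_powersetCard]
  exact Nat.mul_le_mul_right _ (Nat.choose_le_pow _ _)

/-- Dense extensions have weight at most `θ`. -/
def Dense (𝒞 : Finset (Finset (Sym2 V))) (h k : ℕ) (p θ : ℝ) : Prop :=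
  ∀ T ∈ 𝒞, ∀ U ⊆ vs T, 3 ≤ U.card → U.card < h →
    (Fintype.card V : ℝ) ^ (h - U.card) * p ^ (k - ein T U) ≤ θ

variable {p θ : ℝ}

lemma Sys.wU (S : Sys 𝒞 h k K0) (hθ : 0 ≤ θ) (hD : Dense 𝒞 h k p θ) {U : Finset V}
    (h3 : 3 ≤ U.card) (h4 : U.card < h) :
    ∑ T ∈ 𝒞.filter (fun T => U ⊆ vs T), p ^ (k - ein T U) ≤ K0 * θ := by
  have hn : (0 : ℝ) < (Fintype.card V : ℝ) ^ (h - U.card) := by
    have : 0 < Fintype.card V := lt_of_lt_of_le (by omega) (Finset.card_le_univ U)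
    positivity
  refine le_of_mul_le_mul_left ?_ hn
  rw [Finset.mul_sum]
  refine (Finset.sum_le_card_nsmul _ _ θ fun T hT =>
    hD T (Finset.mem_filter.1 hT).1 U (Finset.mem_filter.1 hT).2 h3 h4).trans ?_
  have : (((𝒞.filter fun T => U ⊆ vs T).card : ℕ) : ℝ) ≤
      K0 * (Fintype.card V : ℝ) ^ (h - U.card) := by exact_mod_cast S.count0 U
  rw [nsmul_eq_mul]
  nlinarith only [hθ, this]

omit [Fintype V] in
lemma Sys.card_sdiff_ge (S : Sys 𝒞 h k K0) {T : Finset (Sym2 V)} (hT : T ∈ 𝒞)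
    (P : Finset (Sym2 V)) : k - ein T (vs T ∩ vs P) ≤ (T \ P).card := by
  have e1 : (T ∩ P).card ≤ ein T (vs T ∩ vs P) := Finset.card_le_card fun g hg =>
    Finset.mem_filter.2 ⟨(Finset.mem_inter.1 hg).1, fun x hx => Finset.mem_inter.2
      ⟨mem_vs.2 ⟨g, (Finset.mem_inter.1 hg).1, Sym2.mem_toFinset.1 hx⟩,
        mem_vs.2 ⟨g, (Finset.mem_inter.1 hg).2, Sym2.mem_toFinset.1 hx⟩⟩⟩
  have e2 := Finset.card_sdiff_add_card_inter T P
  rw [S.card T hT] at e2
  omega

omit [Fintype V] in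
lemma wsum (𝓑 : Finset (Finset (Sym2 V))) (X : Finset V) (f : Finset (Sym2 V) → ℝ) {b : ℝ}
    (hU : ∀ U ⊆ X, ∑ T ∈ 𝓑.filter (fun T => vs T ∩ X = U), f T ≤ b) :
    ∑ T ∈ 𝓑, f T ≤ 2 ^ X.card * b := by
  rw [← Finset.sum_fiberwise_of_maps_to (t := X.powerset) (g := fun T => vs T ∩ X)
    (fun T _ => Finset.mem_powerset.2 Finset.inter_subset_right)]
  refine (Finset.sum_le_card_nsmul _ _ b fun U hU' => hU U (Finset.mem_powerset.1 hU')).trans
    (le_of_eq ?_)
  rw [Finset.card_powerset, nsmul_eq_mul]; push_cast; ring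

lemma Sys.wfib (S : Sys 𝒞 h k K0) (h0 : 0 ≤ p) (h1 : p ≤ 1) (hθ : 0 ≤ θ)
    (hD : Dense 𝒞 h k p θ) (P : Finset (Sym2 V)) {𝓑 : Finset (Finset (Sym2 V))} (hB : 𝓑 ⊆ 𝒞)
    {U : Finset V} (h3 : 3 ≤ U.card) {b : ℝ} (hb0 : 0 ≤ b) (hb : ∀ T ∈ 𝓑, p ^ (T \ P).card ≤ b) :
    ∑ T ∈ 𝓑.filter (fun T => vs T ∩ vs P = U), p ^ (T \ P).card ≤ K0 * (θ + b) := by
  by_cases h4 : U.card < h
  · refine le_trans ?_ ((S.wU hθ hD h3 h4).trans
      (mul_le_mul_of_nonneg_left (le_add_of_nonneg_right hb0) (Nat.cast_nonneg _)))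
    refine le_trans (Finset.sum_le_sum fun T hT => ?_) (Finset.sum_le_sum_of_subset_of_nonneg
      (fun T hT => ?_) fun _ _ _ => pow_nonneg h0 _)
    · obtain ⟨e1, e2⟩ := Finset.mem_filter.1 hT
      exact pow_le_pow_of_le_one h0 h1 (e2 ▸ S.card_sdiff_ge (hB e1) P)
    · obtain ⟨e1, e2⟩ := Finset.mem_filter.1 hT
      exact Finset.mem_filter.2 ⟨hB e1, e2 ▸ Finset.inter_subset_left⟩
  · refine (Finset.sum_le_card_nsmul _ _ b fun T hT => hb T (Finset.mem_filter.1 hT).1).trans ?_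
    have e1 : (𝓑.filter fun T => vs T ∩ vs P = U).card ≤ K0 := by
      refine le_trans (Finset.card_le_card fun T hT => ?_) (S.mult U)
      obtain ⟨e1, e2⟩ := Finset.mem_filter.1 hT
      exact Finset.mem_filter.2 ⟨hB e1, (Finset.eq_of_subset_of_card_le
        (e2 ▸ Finset.inter_subset_left) (by rw [S.cvs T (hB e1)]; omega)).symm⟩
    have e2 : (((𝓑.filter fun T => vs T ∩ vs P = U).card : ℕ) : ℝ) ≤ K0 := by exact_mod_cast e1
    rw [nsmul_eq_mul]
    nlinarith only [hθ, hb0, e2, mul_nonneg (Nat.cast_nonneg (α := ℝ) K0) hθ]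

lemma Sys.wbad (S : Sys 𝒞 h k K0) (h0 : 0 ≤ p) (h1 : p ≤ 1) (hθ : 0 ≤ θ)
    (hD : Dense 𝒞 h k p θ) (P : Finset (Sym2 V)) {𝓑 : Finset (Finset (Sym2 V))}
    (hB : ∀ T ∈ 𝓑, T ∈ 𝒞 ∧ 3 ≤ (vs T ∩ vs P).card ∧ ¬ T ⊆ P) :
    ∑ T ∈ 𝓑, p ^ (T \ P).card ≤ 4 ^ P.card * (K0 * (θ + p)) := by
  refine (wsum 𝓑 (vs P) _ (b := K0 * (θ + p)) fun U _ => ?_).trans ?_
  · by_cases h3 : 3 ≤ U.card
    · refine S.wfib h0 h1 hθ hD P (fun T hT => (hB T hT).1) h3 h0 fun T hT => ?_
      refine (pow_le_pow_of_le_one h0 h1 (Finset.card_pos.2 ?_)).trans (pow_one p).le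
      exact Finset.sdiff_nonempty.2 (hB T hT).2.2
    · rw [Finset.sum_eq_zero]
      · positivity
      · intro T hT
        obtain ⟨e1, e2⟩ := Finset.mem_filter.1 hT
        exact absurd (e2 ▸ (hB T e1).2.1) h3
  · refine mul_le_mul_of_nonneg_right ?_ (by positivity)
    rw [show (4 : ℝ) = 2 ^ 2 by norm_num, ← pow_mul]
    exact pow_le_pow_right₀ (by norm_num) (card_vs_le P)

lemma Sys.wext (S : Sys 𝒞 h k K0) (h0 : 0 ≤ p) (h1 : p ≤ 1) (hθ : 0 ≤ θ)
    (hD : Dense 𝒞 h k p θ) (P : Finset (Sym2 V)) {𝓑 : Finset (Finset (Sym2 V))}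
    (hB : ∀ T ∈ 𝓑, T ∈ 𝒞 ∧ 2 ≤ (vs T ∩ vs P).card) :
    ∑ T ∈ 𝓑, p ^ (T \ P).card ≤
      4 ^ P.card * (K0 * ((Fintype.card V : ℝ) ^ (h - 2) * p ^ (k - 1) + θ + 1)) := by
  refine (wsum 𝓑 (vs P) _
    (b := K0 * ((Fintype.card V : ℝ) ^ (h - 2) * p ^ (k - 1) + θ + 1)) fun U _ => ?_).trans ?_
  · by_cases h3 : 3 ≤ U.card
    · refine (S.wfib h0 h1 hθ hD P (fun T hT => (hB T hT).1) h3 zero_le_one
        fun T _ => pow_le_one₀ h0 h1).trans (mul_le_mul_of_nonneg_left ?_ (Nat.cast_nonneg _))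
      have : 0 ≤ (Fintype.card V : ℝ) ^ (h - 2) * p ^ (k - 1) := by positivity
      linarith
    · refine (Finset.sum_le_card_nsmul _ _ (p ^ (k - 1)) fun T hT => ?_).trans ?_
      · obtain ⟨e1, e2⟩ := Finset.mem_filter.1 hT
        have e3 := S.card_sdiff_ge (hB T e1).1 P
        have e4 := S.ein_le_one (hB T e1).1 (U := U) (by omega)
        rw [e2] at e3
        exact pow_le_pow_of_le_one h0 h1 (by omega)
      · have e1 : (𝓑.filter fun T => vs T ∩ vs P = U).card ≤ K0 * Fintype.card V ^ (h - 2) := by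
          rcases (𝓑.filter fun T => vs T ∩ vs P = U).eq_empty_or_nonempty with he | ⟨T0, hT0⟩
          · rw [he]; simp
          · have e2 : U.card = 2 := by
              obtain ⟨e1, e2⟩ := Finset.mem_filter.1 hT0
              have := (hB T0 e1).2
              rw [e2] at this; omega
            rw [← e2]
            refine le_trans (Finset.card_le_card fun T hT => ?_) (S.count0 U)
            obtain ⟨e1, e2⟩ := Finset.mem_filter.1 hT
            exact Finset.mem_filter.2 ⟨(hB T e1).1, e2 ▸ Finset.inter_subset_left⟩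
        have e2 : (((𝓑.filter fun T => vs T ∩ vs P = U).card : ℕ) : ℝ) ≤
            K0 * (Fintype.card V : ℝ) ^ (h - 2) := by exact_mod_cast e1
        rw [nsmul_eq_mul]
        have e3 := mul_le_mul_of_nonneg_right e2 (pow_nonneg h0 (k - 1))
        nlinarith only [e3, hθ, mul_nonneg (Nat.cast_nonneg (α := ℝ) K0) hθ, Nat.cast_nonneg (α := ℝ) K0]
  · refine mul_le_mul_of_nonneg_right ?_ (by positivity)
    rw [show (4 : ℝ) = 2 ^ 2 by norm_num, ← pow_mul]
    exact pow_le_pow_right₀ (by norm_num) (card_vs_le P)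

end Pool.Agent.Work.MP_d4a230_co
end

-- merged part: Pool.Agent.Work.MP_d4a230_co.Msg
section
namespace Pool.Agent.Work.MP_d4a230_co

open Finset

variable {V : Type}

/-- Symmetric families of triples. -/
structure SymT (T : V → V → V → Prop) : Prop where
  s12 : ∀ a b w, T a b w → T b a w
  s23 : ∀ a b w, T a b w → T a w b

/-- `w` is a common neighbour of `a` and `b` and the triple is allowed. -/
def Lk (G : SimpleGraph V) (T : V → V → V → Prop) (a b w : V) : Prop :=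
  G.Adj a w ∧ G.Adj b w ∧ T a b w

/-- Karp-Sipser messages on the triangle hypergraph. -/
def F (G : SimpleGraph V) (T : V → V → V → Prop) : ℕ → V → V → V → Prop
  | 0, _, _, _ => True
  | t + 1, a, b, z => ∀ w, w ≠ z → Lk G T a b w → ¬ (F G T t a w b ∧ F G T t b w a)

variable {G : SimpleGraph V} {T : V → V → V → Prop}

lemma Lk.symm (hT : SymT T) {a b w : V} (h : Lk G T a b w) : Lk G T b a w :=
  ⟨h.2.1, h.1, hT.s12 _ _ _ h.2.2⟩

lemma Lk.rot (hT : SymT T) {a b w : V} (h : Lk G T a b w) (hab : G.Adj a b) : Lk G T a w b :=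
  ⟨hab, h.2.1.symm, hT.s23 _ _ _ h.2.2⟩

lemma F_succ {t : ℕ} {a b z : V} :
    F G T (t + 1) a b z ↔ ∀ w, w ≠ z → Lk G T a b w → ¬ (F G T t a w b ∧ F G T t b w a) :=
  Iff.rfl

lemma F.symm (hT : SymT T) {t : ℕ} {a b z : V} (h : F G T t a b z) : F G T t b a z := by
  cases t with
  | zero => trivial
  | succ t => exact fun w hw hl hh => h w hw (hl.symm hT) ⟨hh.2, hh.1⟩

lemma F_step {s t : ℕ} (h : ∀ a b z, F G T s a b z → F G T t a b z) (a b z : V)
    (h' : F G T (t + 1) a b z) : F G T (s + 1) a b z :=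
  fun w hw hl hh => h' w hw hl ⟨h _ _ _ hh.1, h _ _ _ hh.2⟩

lemma F_even_dec (k : ℕ) : ∀ a b z, F G T (2 * k + 2) a b z → F G T (2 * k) a b z := by
  induction k with
  | zero => intro _ _ _ _; trivial
  | succ k ih => exact F_step (F_step ih)

lemma F_odd_even_same (k : ℕ) : ∀ a b z, F G T (2 * k + 1) a b z → F G T (2 * k) a b z := by
  induction k with
  | zero => intro _ _ _ _; trivial
  | succ k ih => exact F_step (F_step ih)

lemma F_odd_mono {i j : ℕ} (hij : i ≤ j) {a b z : V} (h : F G T (2 * i + 1) a b z) :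
    F G T (2 * j + 1) a b z := by
  induction j, hij using Nat.le_induction with
  | base => exact h
  | succ j _ ih => exact F_step (F_even_dec j) _ _ _ ih

lemma F_even_anti {i j : ℕ} (hij : i ≤ j) {a b z : V} (h : F G T (2 * j) a b z) :
    F G T (2 * i) a b z := by
  induction j, hij using Nat.le_induction with
  | base => exact h
  | succ j _ ih => exact ih (F_even_dec j _ _ _ h)

lemma F_odd_even (i j : ℕ) {a b z : V} (h : F G T (2 * i + 1) a b z) : F G T (2 * j) a b z := by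
  rcases le_total i j with hij | hij
  · exact F_odd_even_same j _ _ _ (F_odd_mono hij h)
  · exact F_even_anti hij (F_odd_even_same i _ _ _ h)

/-- `w` is the apex of a supporting triangle of level `k` of the edge `ab`. -/
def Sup (G : SimpleGraph V) (T : V → V → V → Prop) (k : ℕ) (a b w : V) : Prop :=
  Lk G T a b w ∧ F G T (2 * k + 1) a w b ∧ F G T (2 * k + 1) b w a

/-- Triangles with prescribed message depths. -/
def Tri (G : SimpleGraph V) (T : V → V → V → Prop) (i j k : ℕ) (a b w : V) : Prop :=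
  G.Adj a b ∧ Lk G T a b w ∧ F G T i a b w ∧ F G T j a w b ∧ F G T k b w a

lemma Sup.symm (hT : SymT T) {k : ℕ} {a b w : V} (h : Sup G T k a b w) : Sup G T k b a w :=
  ⟨h.1.symm hT, h.2.2, h.2.1⟩

lemma Sup.mono {k l : ℕ} (hkl : k ≤ l) {a b w : V} (h : Sup G T k a b w) : Sup G T l a b w :=
  ⟨h.1, F_odd_mono hkl h.2.1, F_odd_mono hkl h.2.2⟩

lemma Tri.s12 (hT : SymT T) {i j k : ℕ} {a b w : V} (h : Tri G T i j k a b w) :
    Tri G T i k j b a w :=
  ⟨h.1.symm, h.2.1.symm hT, h.2.2.1.symm hT, h.2.2.2.2, h.2.2.2.1⟩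

lemma Tri.s23 (hT : SymT T) {i j k : ℕ} {a b w : V} (h : Tri G T i j k a b w) :
    Tri G T j i k a w b :=
  ⟨h.2.1.1, h.2.1.rot hT h.1, h.2.2.2.1, h.2.2.1, h.2.2.2.2.symm hT⟩

lemma not_F_iff {k : ℕ} {a b z : V} :
    ¬ F G T (2 * k + 2) a b z ↔ ∃ w, w ≠ z ∧ Sup G T k a b w := by
  rw [F_succ]
  push Not
  exact ⟨fun ⟨w, h1, h2, h3⟩ => ⟨w, h1, h2, h3⟩, fun ⟨w, h1, h2, h3⟩ => ⟨w, h1, h2, h3⟩⟩

/-- A free edge has no other supporting triangle. -/
lemma sup_unique {k l : ℕ} {a b w u : V} (h : F G T (2 * k + 1) a b w) (hu : Sup G T l a b u) :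
    u = w := by
  by_contra hne
  exact h u hne hu.1 ⟨F_odd_even _ _ hu.2.1, F_odd_even _ _ hu.2.2⟩

lemma key0 {k l : ℕ} {a w b b' : V} (h : F G T (2 * k + 1) a w b) (hb : b' ≠ b)
    (hl : Lk G T a w b') (h2 : F G T (2 * l + 1) w b' a) : ∃ j < k, ∃ u, Sup G T j a b' u := by
  have h3 : ¬ F G T (2 * k) a b' w := fun h4 => h b' hb hl ⟨h4, F_odd_even _ _ h2⟩
  cases k with
  | zero => exact absurd trivial h3
  | succ k =>
    obtain ⟨u, _, hu⟩ := not_F_iff.1 h3
    exact ⟨k, Nat.lt_succ_self k, u, hu⟩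

/-- A supporting triangle of least level. -/
def MinSup (G : SimpleGraph V) (T : V → V → V → Prop) (k : ℕ) (a b w : V) : Prop :=
  G.Adj a b ∧ Sup G T k a b w ∧ ∀ j < k, ∀ u, ¬ Sup G T j a b u

lemma MinSup.symm (hT : SymT T) {k : ℕ} {a b w : V} (h : MinSup G T k a b w) :
    MinSup G T k b a w :=
  ⟨h.1.symm, h.2.1.symm hT, fun j hj u hu => h.2.2 j hj u (hu.symm hT)⟩

lemma key1 (hT : SymT T) {k l : ℕ} {a w b b' : V} (hb : b' ≠ b)
    (h : F G T (2 * k + 1) a w b) (h' : MinSup G T l a b' w ∨ MinSup G T l w b' a) : l < k := by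
  rcases h' with h' | h'
  · obtain ⟨j, hj, u, hu⟩ := key0 h hb (h'.2.1.1.rot hT h'.1) (h'.2.1.2.2.symm hT)
    by_contra hc
    exact h'.2.2 j (by omega) u hu
  · obtain ⟨j, hj, u, hu⟩ := key0 (h.symm hT) hb (h'.2.1.1.rot hT h'.1) (h'.2.1.2.2.symm hT)
    by_contra hc
    exact h'.2.2 j (by omega) u hu

lemma key2 (hT : SymT T) {k l : ℕ} {a w b b' : V}
    (h : MinSup G T k a b w ∨ MinSup G T k w b a)
    (h' : MinSup G T l a b' w ∨ MinSup G T l w b' a) : b' = b := by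
  by_contra hb
  have f1 : F G T (2 * k + 1) a w b := by
    rcases h with h | h
    · exact h.2.1.2.1
    · exact h.2.1.2.1.symm hT
  have f2 : F G T (2 * l + 1) a w b' := by
    rcases h' with h | h
    · exact h.2.1.2.1
    · exact h.2.1.2.1.symm hT
  have := key1 hT hb f1 h'
  have := key1 hT (Ne.symm hb) f2 h
  omega

lemma exists_minSup {s : ℕ} {a b : V} (hab : G.Adj a b) (h : ¬ F G T (2 * s + 2) a b a) :
    ∃ k ≤ s, ∃ w, MinSup G T k a b w := by
  classical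
  obtain ⟨w, _, hw⟩ := not_F_iff.1 h
  have hex : ∃ k, ∃ w, Sup G T k a b w := ⟨s, w, hw⟩
  obtain ⟨u, hu⟩ := Nat.find_spec hex
  exact ⟨Nat.find hex, Nat.find_min' hex ⟨w, hw⟩, u, hab, hu,
    fun j hj u' hu' => Nat.find_min hex hj ⟨u', hu'⟩⟩

variable [Fintype V]

/-- Number of neighbours `a ∈ W` of `v` whose edge sends a positive message. -/
noncomputable def stE (G : SimpleGraph V) (T : V → V → V → Prop) (W : Finset V) (t : ℕ)
    (v : V) : ℝ := ∑ a ∈ W, ind (G.Adj v a ∧ F G T t v a v)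

/-- Number of ordered triangles at `v` with prescribed messages. -/
noncomputable def stT (G : SimpleGraph V) (T : V → V → V → Prop) (i j k : ℕ) (v : V) : ℝ :=
  ∑ x : V × V, ind (Tri G T i j k x.1 x.2 v)

/-- Degree. -/
noncomputable def dg (G : SimpleGraph V) (v : V) : ℝ := ∑ a, ind (G.Adj v a)

/-- Triangle-freeness. -/
def TF (G : SimpleGraph V) : Prop := ∀ a b w, G.Adj a b → G.Adj a w → G.Adj b w → False

lemma sum_crit_le (hT : SymT T) {G' : SimpleGraph V} (hG' : TF G') (L : ℕ) :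
    ∑ a, ∑ b, ∑ w, ind (G'.Adj a b ∧ Tri G T L L L a b w) ≤ 2 / 3 * ∑ v, stT G T L L L v := by
  set X : V → V → V → ℝ := fun a b w => ind (G'.Adj a b ∧ Tri G T L L L a b w) with hX
  have h1 : ∑ a, ∑ b, ∑ w, X a b w = ∑ a, ∑ b, ∑ w, X a w b :=
    Finset.sum_congr rfl fun a _ => Finset.sum_comm
  have h2 : ∑ a, ∑ b, ∑ w, X a b w = ∑ a, ∑ b, ∑ w, X b w a := by
    rw [eq_comm, Finset.sum_comm]
    exact Finset.sum_congr rfl fun a _ => Finset.sum_comm
  have h3 : ∑ v, stT G T L L L v = ∑ a, ∑ b, ∑ w, ind (Tri G T L L L a b w) := by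
    unfold stT
    simp only [Fintype.sum_prod_type]
    rw [Finset.sum_comm]
    exact Finset.sum_congr rfl fun a _ => Finset.sum_comm
  have h4 : ∑ a, ∑ b, ∑ w, (X a b w + X a w b + X b w a) ≤
      ∑ a, ∑ b, ∑ w, 2 * ind (Tri G T L L L a b w) := by
    refine Finset.sum_le_sum fun a _ => Finset.sum_le_sum fun b _ =>
      Finset.sum_le_sum fun w _ => ?_
    simp only [hX]
    by_cases hc : Tri G T L L L a b w
    · rw [ind_pos hc]
      have e1 := ind_le_one (G'.Adj a b ∧ Tri G T L L L a b w)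
      have e2 := ind_le_one (G'.Adj a w ∧ Tri G T L L L a w b)
      have e3 := ind_le_one (G'.Adj b w ∧ Tri G T L L L b w a)
      by_cases hab : G'.Adj a b
      · by_cases haw : G'.Adj a w
        · rw [ind_neg (q := G'.Adj b w ∧ _) (fun h => hG' a b w hab haw h.1)]; linarith
        · rw [ind_neg (q := G'.Adj a w ∧ _) (fun h => haw h.1)]; linarith
      · rw [ind_neg (q := G'.Adj a b ∧ _) (fun h => hab h.1)]; linarith
    · rw [ind_neg hc, ind_neg (fun h => hc h.2), ind_neg (fun h => hc (h.2.s23 hT)),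
        ind_neg (fun h => hc ((h.2.s23 hT).s12 hT))]
      norm_num
  simp only [Finset.sum_add_distrib, ← Finset.mul_sum] at h4
  rw [h3]
  linarith only [h1, h2, h4]

/-- Deterministic upper bound on triangle-free subgraphs. -/
theorem upper_det (hT : SymT T) {G' : SimpleGraph V} (hle : G' ≤ G) (hG' : TF G') (s : ℕ) :
    ∑ v, dg G' v ≤ ∑ v, (stE G T univ (2 * s + 2) v +
      2 / 3 * stT G T (2 * s + 1) (2 * s + 1) (2 * s + 1) v) := by
  classical
  set L := 2 * s + 1 with hL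
  let src : Finset (V × V) := univ.filter fun x =>
    G'.Adj x.1 x.2 ∧ ¬ F G T (2 * s + 2) x.1 x.2 x.1 ∧ ¬ ∃ w, Tri G T L L L x.1 x.2 w
  let tgt : Finset (V × V) := univ.filter fun x =>
    G.Adj x.1 x.2 ∧ ¬ G'.Adj x.1 x.2 ∧ F G T (2 * s + 2) x.1 x.2 x.1
  have hfree : ∀ {k a b w}, k ≤ s → MinSup G T k a b w → (¬ ∃ w, Tri G T L L L a b w) →
      ∀ z, ¬ Lk G T a w z ∨ z = b ∨ True → F G T (2 * s + 2) a w a := by
    intro k a b w hk hm hnc _ _
    by_contra hc
    obtain ⟨u, _, hu⟩ := not_F_iff.1 hc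
    have hub : u = b := sup_unique hm.2.1.2.1 hu
    subst hub
    exact hnc ⟨w, hm.1, hm.2.1.1, hu.2.1, F_odd_mono hk hm.2.1.2.1, F_odd_mono hk hm.2.1.2.2⟩
  have hcard : src.card ≤ tgt.card := by
    refine Finset.card_le_card_of_forall_subsingleton
      (fun x y => ∃ k ≤ s, ∃ w, MinSup G T k x.1 x.2 w ∧ (y = (x.1, w) ∨ y = (w, x.2))) ?_ ?_
    · rintro ⟨a, b⟩ hx
      simp only [src, Finset.mem_filter, Finset.mem_univ, true_and] at hx
      obtain ⟨hab, hnF, hnc⟩ := hx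
      obtain ⟨k, hk, w, hw⟩ := exists_minSup (hle hab) hnF
      by_cases haw : G'.Adj a w
      · refine ⟨(w, b), ?_, k, hk, w, hw, Or.inr rfl⟩
        simp only [tgt, Finset.mem_filter, Finset.mem_univ, true_and]
        refine ⟨hw.2.1.1.2.1.symm, fun h => hG' a b w hab haw h.symm, ?_⟩
        have := hfree hk (hw.symm hT) (fun ⟨u, hu⟩ => hnc ⟨u, hu.s12 hT⟩) a (Or.inr (Or.inr trivial))
        intro u _ hl
        exact this.symm hT u (fun h => hl.2.1.ne h.symm) hl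
      · refine ⟨(a, w), ?_, k, hk, w, hw, Or.inl rfl⟩
        simp only [tgt, Finset.mem_filter, Finset.mem_univ, true_and]
        exact ⟨hw.2.1.1.1, haw, hfree hk hw hnc a (Or.inr (Or.inr trivial))⟩
    · rintro ⟨c, d⟩ _ ⟨a, b⟩ ⟨hx, k, hk, w, hw, h⟩ ⟨a', b'⟩ ⟨hx', k', hk', w', hw', h'⟩
      simp only [src, Finset.mem_univ, true_and,
        Finset.mem_filter] at hx hx'
      simp only [Prod.mk.injEq] at h h' hw hw' ⊢
      rcases h with ⟨rfl, rfl⟩ | ⟨rfl, rfl⟩ <;> rcases h' with ⟨h1, h2⟩ | ⟨h1, h2⟩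
      · subst h1 h2
        exact ⟨rfl, (key2 hT (Or.inl hw) (Or.inl hw')).symm⟩
      · subst h1 h2
        have := key2 hT (Or.inl hw) (Or.inr (hw'.symm hT))
        subst this
        exact absurd ⟨d, hw.1, hw.2.1.1, F_odd_mono hk' (hw'.2.1.2.1.symm hT),
          F_odd_mono hk hw.2.1.2.1, F_odd_mono hk hw.2.1.2.2⟩ hx.2.2
      · subst h1 h2
        have := key2 hT (Or.inl hw') (Or.inr (hw.symm hT))
        subst this
        exact absurd ⟨d, hw'.1, hw'.2.1.1, F_odd_mono hk (hw.2.1.2.1.symm hT),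
          F_odd_mono hk' hw'.2.1.2.1, F_odd_mono hk' hw'.2.1.2.2⟩ hx'.2.2
      · subst h1 h2
        exact ⟨(key2 hT (Or.inl (hw.symm hT)) (Or.inl (hw'.symm hT))).symm, rfl⟩
  have hc := sum_crit_le (G := G) hT hG' L
  have e1 : (src.card : ℝ) = ∑ a, ∑ b, ind (G'.Adj a b ∧ ¬ F G T (2 * s + 2) a b a ∧
      ¬ ∃ w, Tri G T L L L a b w) := by
    rw [← sum_ind, Fintype.sum_prod_type]
  have e2 : (tgt.card : ℝ) = ∑ a, ∑ b, ind (G.Adj a b ∧ ¬ G'.Adj a b ∧
      F G T (2 * s + 2) a b a) := by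
    rw [← sum_ind, Fintype.sum_prod_type]
  have hcard' : (src.card : ℝ) ≤ tgt.card := by exact_mod_cast hcard
  have h5 : ∑ a, ∑ b, (ind (G'.Adj a b) + ind (G.Adj a b ∧ ¬ G'.Adj a b ∧
      F G T (2 * s + 2) a b a)) ≤ ∑ a, ∑ b, (ind (G.Adj a b ∧ F G T (2 * s + 2) a b a) +
      ind (G'.Adj a b ∧ ¬ F G T (2 * s + 2) a b a ∧ ¬ ∃ w, Tri G T L L L a b w) +
      ∑ w, ind (G'.Adj a b ∧ Tri G T L L L a b w)) := by
    refine Finset.sum_le_sum fun a _ => Finset.sum_le_sum fun b _ => ?_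
    have n1 := ind_nonneg (G.Adj a b ∧ F G T (2 * s + 2) a b a)
    have n2 := ind_nonneg (G'.Adj a b ∧ ¬ F G T (2 * s + 2) a b a ∧ ¬ ∃ w, Tri G T L L L a b w)
    have n3 : 0 ≤ ∑ w, ind (G'.Adj a b ∧ Tri G T L L L a b w) :=
      Finset.sum_nonneg fun _ _ => ind_nonneg _
    by_cases hab : G'.Adj a b
    · rw [ind_pos hab, ind_neg (q := G.Adj a b ∧ ¬ G'.Adj a b ∧ _) (fun h => h.2.1 hab)]
      by_cases hF : F G T (2 * s + 2) a b a
      · rw [ind_pos (q := G.Adj a b ∧ _) ⟨hle hab, hF⟩]; linarith only [n2, n3]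
      · by_cases hex : ∃ w, Tri G T L L L a b w
        · obtain ⟨w, hw⟩ := hex
          have := Finset.single_le_sum (f := fun w => ind (G'.Adj a b ∧ Tri G T L L L a b w))
            (fun _ _ => ind_nonneg _) (Finset.mem_univ w)
          simp only [ind_pos (q := G'.Adj a b ∧ Tri G T L L L a b w) ⟨hab, hw⟩] at this
          linarith only [n1, n2, this]
        · rw [ind_pos (q := G'.Adj a b ∧ ¬ _ ∧ _) ⟨hab, hF, hex⟩]; linarith only [n1, n3]
    · rw [ind_neg hab]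
      have := ind_mono (q := G.Adj a b ∧ ¬ G'.Adj a b ∧ F G T (2 * s + 2) a b a)
        (r := G.Adj a b ∧ F G T (2 * s + 2) a b a) (fun h => ⟨h.1, h.2.2⟩)
      linarith only [n2, n3, this]
  simp only [Finset.sum_add_distrib] at h5
  simp only [Finset.sum_add_distrib, ← Finset.mul_sum]
  unfold dg stE
  linarith only [hc, e1, e2, hcard', h5]

end Pool.Agent.Work.MP_d4a230_co
end

-- merged part: Pool.Agent.Work.MP_d4a230_co.Local
section
namespace Pool.Agent.Work.MP_d4a230_co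

open Finset Filter Topology

/-- The graph with a given set of pairs as edges. -/
def gr {V : Type} (ω : Finset (Sym2 V)) : SimpleGraph V := SimpleGraph.fromEdgeSet (ω : Set (Sym2 V))

lemma gr_adj {V : Type} {ω : Finset (Sym2 V)} {a b : V} :
    (gr ω).Adj a b ↔ s(a, b) ∈ ω ∧ a ≠ b := by
  unfold gr; rw [SimpleGraph.fromEdgeSet_adj]; simp

/-- Iterates of the Karp-Sipser recursion. -/
noncomputable def xs (μ : ℝ) : ℕ → ℝ
  | 0 => 1
  | t + 1 => Real.exp (-(μ * xs μ t ^ 2))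

lemma xs_pos (μ : ℝ) (t : ℕ) : 0 < xs μ t := by
  cases t with
  | zero => exact one_pos
  | succ t => exact Real.exp_pos _

lemma xs_le_one {μ : ℝ} (hμ : 0 ≤ μ) (t : ℕ) : xs μ t ≤ 1 := by
  cases t with
  | zero => exact le_rfl
  | succ t => exact Real.exp_le_one_iff.2 (neg_nonpos.2 (by positivity))

/-- An edge with an excluded apex and a depth. -/
abbrev Item (V : Type) := V × V × V × ℕ

section Fixed

variable {V : Type} [DecidableEq V]

/-- All messages of the items are positive. -/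
def holds (T : V → V → V → Prop) (P : Finset (Sym2 V)) (I : Finset (Item V))
    (ω : Finset (Sym2 V)) : Prop :=
  ∀ i ∈ I, F (gr (ω ∪ P)) T i.2.2.2 i.1 i.2.1 i.2.2.1

/-- Tree-like configurations of planted edges and items. -/
def Valid (P : Finset (Sym2 V)) (I : Finset (Item V)) : Prop :=
  (∀ i ∈ I, i.1 ≠ i.2.1 ∧ s(i.1, i.2.1) ∈ P ∧ ∀ u, u ≠ i.2.2.1 → u ≠ i.1 → u ≠ i.2.1 →
    s(i.1, u) ∈ P → s(i.2.1, u) ∈ P → False) ∧
  ∀ i ∈ I, ∀ j ∈ I, s(i.1, i.2.1) = s(j.1, j.2.1) → i = j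

omit [DecidableEq V] in
lemma Valid.card_le {P : Finset (Sym2 V)} {I : Finset (Item V)} (h : Valid P I) :
    I.card ≤ P.card :=
  Finset.card_le_card_of_injOn (fun i => s(i.1, i.2.1)) (fun i hi => (h.1 i hi).2.1)
    fun i hi j hj hij => h.2 i hi j hj hij

/-- Planted edges joining `W` to `a` and `b`. -/
def QW (a b : V) (W : Finset V) : Finset (Sym2 V) :=
  W.image (fun w => s(a, w)) ∪ W.image (fun w => s(b, w))

/-- New items. -/
def IW (a b : V) (t : ℕ) (W : Finset V) : Finset (Item V) :=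
  W.image (fun w => (a, w, b, t)) ∪ W.image (fun w => (b, w, a, t))

lemma mem_QW {a b : V} {W : Finset V} {e : Sym2 V} :
    e ∈ QW a b W ↔ ∃ w ∈ W, e = s(a, w) ∨ e = s(b, w) := by
  unfold QW
  simp only [Finset.mem_union, Finset.mem_image]
  constructor
  · rintro (⟨w, h, rfl⟩ | ⟨w, h, rfl⟩)
    · exact ⟨w, h, Or.inl rfl⟩
    · exact ⟨w, h, Or.inr rfl⟩
  · rintro ⟨w, h, rfl | rfl⟩
    · exact Or.inl ⟨w, h, rfl⟩
    · exact Or.inr ⟨w, h, rfl⟩

lemma mem_IW {a b : V} {t : ℕ} {W : Finset V} {i : Item V} :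
    i ∈ IW a b t W ↔ ∃ w ∈ W, i = (a, w, b, t) ∨ i = (b, w, a, t) := by
  unfold IW
  simp only [Finset.mem_union, Finset.mem_image]
  constructor
  · rintro (⟨w, h, rfl⟩ | ⟨w, h, rfl⟩)
    · exact ⟨w, h, Or.inl rfl⟩
    · exact ⟨w, h, Or.inr rfl⟩
  · rintro ⟨w, h, rfl | rfl⟩
    · exact Or.inl ⟨w, h, rfl⟩
    · exact Or.inr ⟨w, h, rfl⟩

lemma card_QW {a b : V} {W : Finset V} (hab : a ≠ b) (hb : b ∉ W) :
    (QW a b W).card = 2 * W.card := by
  unfold QW
  rw [Finset.card_union_of_disjoint, Finset.card_image_of_injective,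
    Finset.card_image_of_injective, two_mul]
  · exact fun x y h => Sym2.congr_right.1 h
  · exact fun x y h => Sym2.congr_right.1 h
  · rw [Finset.disjoint_left]
    intro e h1 h2
    obtain ⟨w, hw, rfl⟩ := Finset.mem_image.1 h1
    obtain ⟨w', hw', h⟩ := Finset.mem_image.1 h2
    rcases Sym2.eq_iff.1 h with h | h
    · exact hab h.1.symm
    · exact hb (h.1 ▸ hw)

lemma valid_step {P : Finset (Sym2 V)} {I : Finset (Item V)} (h : Valid P I) {i0 : Item V}
    (hi : i0 ∈ I) (t : ℕ) {W : Finset V} (hW : ∀ w ∈ W, ∀ e ∈ P, w ∉ e) :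
    Valid (QW i0.1 i0.2.1 W ∪ P) (IW i0.1 i0.2.1 t W ∪ I.erase i0) := by
  obtain ⟨a, b, z, t0⟩ := i0
  obtain ⟨hab, habP, _⟩ := h.1 _ hi
  simp only at hab habP ⊢
  have hWa : ∀ w ∈ W, w ≠ a := fun w hw h => hW w hw _ habP (by simp [h])
  have hWb : ∀ w ∈ W, w ≠ b := fun w hw h => hW w hw _ habP (by simp [h])
  have hfr : ∀ w ∈ W, ∀ u, s(w, u) ∈ QW a b W ∪ P → u = a ∨ u = b := by
    intro w hw u hu
    rcases Finset.mem_union.1 hu with hu | hu
    · obtain ⟨w', _, h' | h'⟩ := mem_QW.1 hu <;> rcases Sym2.eq_iff.1 h' with h' | h'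
      · exact absurd h'.1 (hWa w hw)
      · exact Or.inl h'.2
      · exact absurd h'.1 (hWb w hw)
      · exact Or.inr h'.2
    · exact absurd (by simp) (hW w hw _ hu)
  have hold : ∀ x u, x ∉ W → u ∉ W → s(x, u) ∈ QW a b W ∪ P → s(x, u) ∈ P := by
    intro x u hx hu h'
    rcases Finset.mem_union.1 h' with h' | h'
    · obtain ⟨w', hw', h' | h'⟩ := mem_QW.1 h' <;> rcases Sym2.eq_iff.1 h' with h' | h'
      · exact absurd (h'.2 ▸ hw') hu
      · exact absurd (h'.1 ▸ hw') hx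
      · exact absurd (h'.2 ▸ hw') hu
      · exact absurd (h'.1 ▸ hw') hx
    · exact h'
  have hnW : ∀ i ∈ I, i.1 ∉ W ∧ i.2.1 ∉ W := fun i hi' =>
    ⟨fun h' => hW _ h' _ (h.1 i hi').2.1 (by simp), fun h' => hW _ h' _ (h.1 i hi').2.1 (by simp)⟩
  constructor
  · intro i hi'
    rcases Finset.mem_union.1 hi' with hi' | hi'
    · obtain ⟨w, hw, rfl | rfl⟩ := mem_IW.1 hi'
      · refine ⟨(hWa w hw).symm, Finset.mem_union_left _ (mem_QW.2 ⟨w, hw, Or.inl rfl⟩), ?_⟩
        intro u h1 h2 _ _ h5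
        rcases hfr w hw u h5 with h | h
        · exact h2 h
        · exact h1 h
      · refine ⟨(hWb w hw).symm, Finset.mem_union_left _ (mem_QW.2 ⟨w, hw, Or.inr rfl⟩), ?_⟩
        intro u h1 h2 _ _ h5
        rcases hfr w hw u h5 with h | h
        · exact h1 h
        · exact h2 h
    · obtain ⟨hne, hi'⟩ := Finset.mem_erase.1 hi'
      obtain ⟨h1, h2, h3⟩ := h.1 i hi'
      refine ⟨h1, Finset.mem_union_right _ h2, fun u u1 u2 u3 u4 u5 => ?_⟩
      by_cases hu : u ∈ W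
      · have e1 := hfr u hu i.1 (by rwa [Sym2.eq_swap])
        have e2 := hfr u hu i.2.1 (by rwa [Sym2.eq_swap])
        refine hne (h.2 i hi' _ hi ?_)
        rcases e1 with e1 | e1 <;> rcases e2 with e2 | e2
        · exact absurd (e1.trans e2.symm) h1
        · rw [e1, e2]
        · rw [e1, e2, Sym2.eq_swap]
        · exact absurd (e1.trans e2.symm) h1
      · exact h3 u u1 u2 u3 (hold _ _ (hnW i hi').1 hu u4) (hold _ _ (hnW i hi').2 hu u5)
  · have hmix : ∀ i ∈ IW a b t W, ∀ j ∈ I, s(i.1, i.2.1) ≠ s(j.1, j.2.1) := by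
      intro i hi' j hj he
      obtain ⟨w, hw, rfl | rfl⟩ := mem_IW.1 hi' <;>
        exact hW w hw _ (h.1 j hj).2.1 (by rw [← he]; simp)
    intro i hi' j hj he
    rcases Finset.mem_union.1 hi' with hi' | hi' <;> rcases Finset.mem_union.1 hj with hj | hj
    · obtain ⟨w, hw, rfl | rfl⟩ := mem_IW.1 hi' <;> obtain ⟨w', hw', rfl | rfl⟩ := mem_IW.1 hj <;>
        simp only at he <;> rcases Sym2.eq_iff.1 he with he | he
      · rw [he.2]
      · exact absurd he.2 (hWa w hw)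
      · exact absurd he.1 hab
      · exact absurd he.2 (hWb w hw)
      · exact absurd he.1.symm hab
      · exact absurd he.2 (hWa w hw)
      · rw [he.2]
      · exact absurd he.2 (hWb w hw)
    · exact absurd he (hmix i hi' j (Finset.mem_of_mem_erase hj))
    · exact absurd he.symm (hmix j hj i (Finset.mem_of_mem_erase hi'))
    · exact h.2 i (Finset.mem_of_mem_erase hi') j (Finset.mem_of_mem_erase hj) he

lemma prod_IW {P : Finset (Sym2 V)} {I : Finset (Item V)} (h : Valid P I) {i0 : Item V}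
    (hi : i0 ∈ I) (t : ℕ) {W : Finset V} (hW : ∀ w ∈ W, ∀ e ∈ P, w ∉ e) (x : ℕ → ℝ) :
    ∏ i ∈ IW i0.1 i0.2.1 t W ∪ I.erase i0, x i.2.2.2 =
      (x t ^ 2) ^ W.card * ∏ i ∈ I.erase i0, x i.2.2.2 := by
  rw [Finset.prod_union]
  · congr 1
    unfold IW
    rw [Finset.prod_union, Finset.prod_image, Finset.prod_image]
    · simp only [Finset.prod_const]; ring
    · intro x _ y _ hxy; simpa using hxy
    · intro x _ y _ hxy; simpa using hxy
    · rw [Finset.disjoint_left]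
      intro e h1 h2
      obtain ⟨w, _, rfl⟩ := Finset.mem_image.1 h1
      obtain ⟨w', _, h'⟩ := Finset.mem_image.1 h2
      exact (h.1 _ hi).1 (congrArg Prod.fst h').symm
  · rw [Finset.disjoint_left]
    intro i h1 h2
    have h3 := (h.1 i (Finset.mem_of_mem_erase h2)).2.1
    obtain ⟨w, hw, rfl | rfl⟩ := mem_IW.1 h1 <;> exact hW w hw _ h3 (by simp)

lemma bonferroni (X J : ℕ) :
    |ind (X = 0) - ∑ j ∈ range (J + 1), (-1 : ℝ) ^ j * (X.choose j : ℝ)| ≤ X.choose (J + 1) := by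
  cases X with
  | zero =>
    rw [ind_pos rfl, Finset.sum_range_succ']
    simp
  | succ X =>
    have h := Int.alternating_sum_range_choose_eq_choose (n := X) (m := J)
    have h' : ∑ j ∈ range (J + 1), (-1 : ℝ) ^ j * ((X + 1).choose j : ℝ) =
        (-1) ^ J * (X.choose J : ℝ) := by exact_mod_cast h
    rw [ind_neg (Nat.succ_ne_zero X), h', zero_sub, abs_neg, abs_mul, abs_pow, abs_neg, abs_one,
      one_pow, one_mul, Nat.abs_cast, Nat.choose_succ_succ']
    push_cast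
    linarith [Nat.cast_nonneg (α := ℝ) (X.choose (J + 1))]

omit [DecidableEq V] in
lemma choose_eq_sum (Fr : Finset V) (g : V → Prop) [DecidablePred g] (j : ℕ) :
    (((Fr.filter g).card.choose j : ℕ) : ℝ) =
      ∑ W ∈ Fr.powersetCard j, ind (∀ w ∈ W, g w) := by
  classical
  rw [sum_ind, ← Finset.card_powersetCard]
  congr 2
  ext W
  simp only [Finset.mem_powersetCard, Finset.mem_filter, Finset.subset_iff]
  exact ⟨fun h => ⟨⟨fun x hx => (h.1 hx).1, h.2⟩, fun x hx => (h.1 hx).2⟩,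
    fun h => ⟨fun x hx => ⟨h.1.1 hx, h.2 x hx⟩, h.1.2⟩⟩

variable [Fintype V] {p : ℝ}

lemma step_bound (h0 : 0 ≤ p) (h1 : p ≤ 1) (T : V → V → V → Prop) {P : Finset (Sym2 V)}
    {I : Finset (Item V)} (hV : Valid P I) {i0 : Item V} (hi : i0 ∈ I) {t : ℕ}
    (ht : i0.2.2.2 = t + 1) (x : ℕ → ℝ) (J : ℕ) {ε : ℝ} (Fr : Finset V)
    (hFr : ∀ w, w ∈ Fr ↔ T i0.1 i0.2.1 w ∧ (∀ e ∈ P, w ∉ e) ∧ w ≠ i0.2.2.1)
    (hIH : ∀ W ⊆ Fr, W.card ≤ J →
      |Pr p (holds T (QW i0.1 i0.2.1 W ∪ P) (IW i0.1 i0.2.1 t W ∪ I.erase i0)) -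
        ∏ i ∈ IW i0.1 i0.2.1 t W ∪ I.erase i0, x i.2.2.2| ≤ ε) :
    |Pr p (holds T P I) - (∏ i ∈ I.erase i0, x i.2.2.2) * ∑ j ∈ range (J + 1),
        (-1 : ℝ) ^ j * ((Fr.card.choose j : ℝ) * (p ^ 2) ^ j) * (x t ^ 2) ^ j| ≤
      2 * P.card * p + (Fr.card.choose (J + 1) : ℝ) * (p ^ 2) ^ (J + 1) +
        ε * ∑ j ∈ range (J + 1), (Fr.card.choose j : ℝ) * (p ^ 2) ^ j := by
  classical
  obtain ⟨a, b, z, t0⟩ := i0
  simp only at ht hFr hIH ⊢
  subst ht
  obtain ⟨hab, habP, htri⟩ := hV.1 _ hi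
  simp only at hab habP htri
  set r := ∏ i ∈ I.erase (a, b, z, t + 1), x i.2.2.2 with hr
  let good : Finset (Sym2 V) → V → Prop := fun ω w => Lk (gr (ω ∪ P)) T a b w ∧
    F (gr (ω ∪ P)) T t a w b ∧ F (gr (ω ∪ P)) T t b w a
  let X : Finset (Sym2 V) → ℕ := fun ω => (Fr.filter (good ω)).card
  let rest : Finset (Sym2 V) → ℝ := fun ω => ind (holds T P (I.erase (a, b, z, t + 1)) ω)
  have hWP : ∀ W ⊆ Fr, ∀ w ∈ W, ∀ e ∈ P, w ∉ e := fun W hW w hw => ((hFr w).1 (hW hw)).2.1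
  have hWa : ∀ W ⊆ Fr, a ∉ W := fun W hW h => hWP W hW a h _ habP (by simp)
  have hWb : ∀ W ⊆ Fr, b ∉ W := fun W hW h => hWP W hW b h _ habP (by simp)
  have hQ : ∀ W ⊆ Fr, ∀ ω, (∀ w ∈ W, good ω w) ↔
      QW a b W ⊆ ω ∧ holds T P (IW a b t W) ω := by
    intro W hW ω
    constructor
    · intro h
      constructor
      · intro e he
        obtain ⟨w, hw, rfl | rfl⟩ := mem_QW.1 he
        · exact (Finset.mem_union.1 (gr_adj.1 (h w hw).1.1).1).resolve_right
            fun h' => hWP W hW w hw _ h' (by simp)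
        · exact (Finset.mem_union.1 (gr_adj.1 (h w hw).1.2.1).1).resolve_right
            fun h' => hWP W hW w hw _ h' (by simp)
      · intro i hi'
        obtain ⟨w, hw, rfl | rfl⟩ := mem_IW.1 hi'
        · exact (h w hw).2.1
        · exact (h w hw).2.2
    · rintro ⟨h, h'⟩ w hw
      refine ⟨⟨gr_adj.2 ⟨Finset.mem_union_left _ (h (mem_QW.2 ⟨w, hw, Or.inl rfl⟩)), ?_⟩,
        gr_adj.2 ⟨Finset.mem_union_left _ (h (mem_QW.2 ⟨w, hw, Or.inr rfl⟩)), ?_⟩,
        ((hFr w).1 (hW hw)).1⟩, h' _ (mem_IW.2 ⟨w, hw, Or.inl rfl⟩),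
        h' _ (mem_IW.2 ⟨w, hw, Or.inr rfl⟩)⟩
      · rintro rfl; exact hWa W hW hw
      · rintro rfl; exact hWb W hW hw
  -- moments
  have hmom : ∀ j ≤ J, |E p (fun ω => ((X ω).choose j : ℝ) * rest ω) -
      (Fr.card.choose j : ℝ) * (p ^ 2) ^ j * ((x t ^ 2) ^ j * r)| ≤
      ε * ((Fr.card.choose j : ℝ) * (p ^ 2) ^ j) := by
    intro j hj
    have e1 : ∀ ω, ((X ω).choose j : ℝ) * rest ω = ∑ W ∈ Fr.powersetCard j,
        ind (QW a b W ⊆ ω) * ind (holds T P (IW a b t W ∪ I.erase (a, b, z, t + 1)) ω) := by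
      intro ω
      simp only [X]
      rw [choose_eq_sum, Finset.sum_mul]
      refine Finset.sum_congr rfl fun W hW => ?_
      rw [hQ W (Finset.mem_powersetCard.1 hW).1, ind_and, mul_assoc, ← ind_and]
      congr 1
      refine ind_congr ?_
      unfold holds
      simp only [Finset.mem_union, or_imp, forall_and]
    rw [E_congr e1, E_sum]
    have e2 : (Fr.card.choose j : ℝ) * (p ^ 2) ^ j * ((x t ^ 2) ^ j * r) =
        ∑ _W ∈ Fr.powersetCard j, (p ^ 2) ^ j * ((x t ^ 2) ^ j * r) := by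
      rw [Finset.sum_const, Finset.card_powersetCard, nsmul_eq_mul]; ring
    have e3 : ε * ((Fr.card.choose j : ℝ) * (p ^ 2) ^ j) =
        ∑ _W ∈ Fr.powersetCard j, (p ^ 2) ^ j * ε := by
      rw [Finset.sum_const, Finset.card_powersetCard, nsmul_eq_mul]; ring
    rw [e2, e3, ← Finset.sum_sub_distrib]
    refine (Finset.abs_sum_le_sum_abs _ _).trans (Finset.sum_le_sum fun W hW => ?_)
    obtain ⟨hW, hc⟩ := Finset.mem_powersetCard.1 hW
    rw [plant, card_QW hab (hWb W hW), pow_mul, hc, ← mul_sub, abs_mul,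
      abs_of_nonneg (by positivity)]
    refine mul_le_mul_of_nonneg_left ?_ (by positivity)
    have e4 := hIH W hW (by omega)
    have e5 := prod_IW hV hi t (hWP W hW) x
    simp only at e5
    rw [e5, hc] at e4
    refine le_trans (le_of_eq ?_) e4
    congr 2
    refine E_congr fun ω => ind_congr ?_
    unfold holds
    rw [Finset.union_assoc]
  have hlast : E p (fun ω => ((X ω).choose (J + 1) : ℝ)) ≤
      (Fr.card.choose (J + 1) : ℝ) * (p ^ 2) ^ (J + 1) := by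
    have e1 : ∀ ω, ((X ω).choose (J + 1) : ℝ) ≤
        ∑ W ∈ Fr.powersetCard (J + 1), ind (QW a b W ⊆ ω) := by
      intro ω
      simp only [X]
      rw [choose_eq_sum]
      exact Finset.sum_le_sum fun W hW => ind_mono fun h =>
        ((hQ W (Finset.mem_powersetCard.1 hW).1 ω).1 h).1
    refine (E_mono h0 h1 e1).trans (le_of_eq ?_)
    rw [E_sum, Finset.sum_congr rfl (g := fun _ => (p ^ 2) ^ (J + 1)), Finset.sum_const,
      Finset.card_powersetCard, nsmul_eq_mul]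
    intro W hW
    obtain ⟨hW, hc⟩ := Finset.mem_powersetCard.1 hW
    have := Pr_subset (p := p) (QW a b W)
    rw [card_QW hab (hWb W hW), pow_mul, hc] at this
    exact this
  -- used vertices
  let Us : Finset V := univ.filter fun u => (∃ e ∈ P, u ∈ e) ∧ u ≠ z
  have hUs : (Us.card : ℝ) ≤ 2 * P.card := by
    have : Us ⊆ P.biUnion fun e => e.toFinset := by
      intro u hu
      obtain ⟨⟨e, he, hue⟩, _⟩ := (Finset.mem_filter.1 hu).2
      exact Finset.mem_biUnion.2 ⟨e, he, Sym2.mem_toFinset.2 hue⟩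
    have h2 := (Finset.card_le_card this).trans (Finset.card_biUnion_le_card_mul _ _ 2
      fun e _ => by rw [Sym2.card_toFinset]; split_ifs <;> omega)
    rw [mul_comm] at h2
    exact_mod_cast h2
  have hbad : E p (fun ω => ∑ u ∈ Us, ind ((gr (ω ∪ P)).Adj a u ∧ (gr (ω ∪ P)).Adj b u)) ≤
      2 * P.card * p := by
    rw [E_sum]
    refine (Finset.sum_le_card_nsmul _ _ p fun u hu => ?_).trans ?_
    · obtain ⟨_, huz⟩ := (Finset.mem_filter.1 hu).2
      have hs : ∀ e : Sym2 V, Pr p (fun ω => e ∈ ω) = p := fun e => by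
        have := Pr_subset (p := p) ({e} : Finset (Sym2 V))
        simpa using this
      by_cases ha : s(a, u) ∈ P
      · refine le_trans (E_mono h0 h1 fun ω => ind_mono fun h => ?_) (hs s(b, u)).le
        exact (Finset.mem_union.1 (gr_adj.1 h.2).1).resolve_right
          fun h' => htri u huz h.1.ne.symm h.2.ne.symm ha h'
      · refine le_trans (E_mono h0 h1 fun ω => ind_mono fun h => ?_) (hs s(a, u)).le
        exact (Finset.mem_union.1 (gr_adj.1 h.1).1).resolve_right ha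
    · rw [nsmul_eq_mul]; exact mul_le_mul_of_nonneg_right hUs h0
  -- pointwise bound
  have hpt : ∀ ω, |ind (holds T P I ω) - ∑ j ∈ range (J + 1),
      (-1 : ℝ) ^ j * (((X ω).choose j : ℝ) * rest ω)| ≤
      ∑ u ∈ Us, ind ((gr (ω ∪ P)).Adj a u ∧ (gr (ω ∪ P)).Adj b u) + (X ω).choose (J + 1) := by
    intro ω
    have e1 : ind (holds T P I ω) = ind (F (gr (ω ∪ P)) T (t + 1) a b z) * rest ω := by
      rw [← ind_and]
      refine ind_congr ⟨fun h => ⟨h _ hi, fun i hi' => h i (Finset.mem_of_mem_erase hi')⟩, ?_⟩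
      rintro ⟨h, h'⟩ i hi'
      by_cases hc : i = (a, b, z, t + 1)
      · subst hc; exact h
      · exact h' i (Finset.mem_erase.2 ⟨hc, hi'⟩)
    have e2 : |ind (F (gr (ω ∪ P)) T (t + 1) a b z) - ind (X ω = 0)| ≤
        ∑ u ∈ Us, ind ((gr (ω ∪ P)).Adj a u ∧ (gr (ω ∪ P)).Adj b u) := by
      have n1 : 0 ≤ ∑ u ∈ Us, ind ((gr (ω ∪ P)).Adj a u ∧ (gr (ω ∪ P)).Adj b u) :=
        Finset.sum_nonneg fun _ _ => ind_nonneg _
      by_cases hF : F (gr (ω ∪ P)) T (t + 1) a b z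
      · rw [ind_pos hF, ind_pos (q := X ω = 0), sub_self, abs_zero]
        · exact n1
        · simp only [X, Finset.card_eq_zero, Finset.filter_eq_empty_iff]
          exact fun w hw hg => hF w ((hFr w).1 hw).2.2 hg.1 hg.2
      · by_cases hX : X ω = 0
        · rw [ind_neg hF, ind_pos hX]
          rw [F_succ] at hF
          push Not at hF
          obtain ⟨w, hwz, hl, hg⟩ := hF
          have hw : w ∈ Us := by
            refine Finset.mem_filter.2 ⟨Finset.mem_univ _, ?_, hwz⟩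
            by_contra hc
            push Not at hc
            simp only [X, Finset.card_eq_zero, Finset.filter_eq_empty_iff] at hX
            exact hX ((hFr w).2 ⟨hl.2.2, hc, hwz⟩) ⟨hl, hg⟩
          have := Finset.single_le_sum
            (f := fun u => ind ((gr (ω ∪ P)).Adj a u ∧ (gr (ω ∪ P)).Adj b u))
            (fun _ _ => ind_nonneg _) hw
          simp only [ind_pos (q := (gr (ω ∪ P)).Adj a w ∧ _) ⟨hl.1, hl.2.1⟩] at this
          simpa using this
        · rw [ind_neg hF, ind_neg hX, sub_self, abs_zero]; exact n1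
    have e3 := bonferroni (X ω) J
    have e4 : ∑ j ∈ range (J + 1), (-1 : ℝ) ^ j * (((X ω).choose j : ℝ) * rest ω) =
        (∑ j ∈ range (J + 1), (-1 : ℝ) ^ j * ((X ω).choose j : ℝ)) * rest ω := by
      rw [Finset.sum_mul]; exact Finset.sum_congr rfl fun _ _ => by ring
    rw [e1, e4, ← sub_mul, abs_mul]
    have e5 : |rest ω| ≤ 1 := by rw [abs_of_nonneg (ind_nonneg _)]; exact ind_le_one _
    refine (mul_le_of_le_one_right (abs_nonneg _) e5).trans ?_
    exact (abs_sub_le _ _ _).trans (add_le_add e2 e3)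
  have f1 : |Pr p (holds T P I) - ∑ j ∈ range (J + 1),
      (-1 : ℝ) ^ j * E p (fun ω => ((X ω).choose j : ℝ) * rest ω)| ≤
      2 * P.card * p + (Fr.card.choose (J + 1) : ℝ) * (p ^ 2) ^ (J + 1) := by
    have e1 : Pr p (holds T P I) - ∑ j ∈ range (J + 1),
        (-1 : ℝ) ^ j * E p (fun ω => ((X ω).choose j : ℝ) * rest ω) =
        E p (fun ω => ind (holds T P I ω) - ∑ j ∈ range (J + 1),
          (-1 : ℝ) ^ j * (((X ω).choose j : ℝ) * rest ω)) := by
      rw [E_sub, E_sum]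
      congr 1
      exact Finset.sum_congr rfl fun j _ => (E_const_mul _ _).symm
    rw [e1]
    refine (abs_E_le h0 h1 _).trans ((E_mono h0 h1 hpt).trans ?_)
    rw [E_add]
    exact add_le_add hbad hlast
  have f2 : |∑ j ∈ range (J + 1), (-1 : ℝ) ^ j * E p (fun ω => ((X ω).choose j : ℝ) * rest ω) -
      r * ∑ j ∈ range (J + 1),
        (-1 : ℝ) ^ j * ((Fr.card.choose j : ℝ) * (p ^ 2) ^ j) * (x t ^ 2) ^ j| ≤
      ε * ∑ j ∈ range (J + 1), (Fr.card.choose j : ℝ) * (p ^ 2) ^ j := by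
    rw [Finset.mul_sum, Finset.mul_sum, ← Finset.sum_sub_distrib]
    refine (Finset.abs_sum_le_sum_abs _ _).trans (Finset.sum_le_sum fun j hj => ?_)
    refine le_trans (le_of_eq ?_) (hmom j (by have := Finset.mem_range.1 hj; omega))
    have : (-1 : ℝ) ^ j * E p (fun ω => ((X ω).choose j : ℝ) * rest ω) -
        r * ((-1 : ℝ) ^ j * ((Fr.card.choose j : ℝ) * (p ^ 2) ^ j) * (x t ^ 2) ^ j) =
        (-1 : ℝ) ^ j * (E p (fun ω => ((X ω).choose j : ℝ) * rest ω) -
          (Fr.card.choose j : ℝ) * (p ^ 2) ^ j * ((x t ^ 2) ^ j * r)) := by ring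
    rw [this, abs_mul, abs_pow, abs_neg, abs_one, one_pow, one_mul]
  exact (abs_sub_le _ _ _).trans (add_le_add f1 f2)

end Fixed

/-- The regime of the parameters. -/
structure Reg (p : ℕ → ℝ) (T : ∀ n, Fin n → Fin n → Fin n → Prop) (m : ℕ → ℕ) (μ : ℝ) :
    Prop where
  p0 : ∀ n, 0 ≤ p n
  p1 : ∀ n, p n ≤ 1
  lim0 : Tendsto p atTop (𝓝 0)
  limm : Tendsto (fun n => (m n : ℝ) * p n ^ 2) atTop (𝓝 μ)
  cnt : ∀ n a b, ∑ w, ind (T n a b w) = m n
  sym : ∀ n, SymT (T n)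

variable {p : ℕ → ℝ} {T : ∀ n, Fin n → Fin n → Fin n → Prop} {m : ℕ → ℕ} {μ : ℝ}

lemma Reg.mu_nonneg (h : Reg p T m μ) : 0 ≤ μ :=
  ge_of_tendsto' h.limm fun n => by positivity

lemma Reg.choose_lim (h : Reg p T m μ) (j K : ℕ) {ε : ℝ} (hε : 0 < ε) :
    ∀ᶠ n in atTop, ∀ N : ℕ, m n ≤ N + K → N ≤ m n →
      |(N.choose j : ℝ) * (p n ^ 2) ^ j - μ ^ j / j.factorial| ≤ ε := by
  have l1 : Tendsto (fun n => ((m n : ℝ) * p n ^ 2) ^ j / j.factorial) atTop
      (𝓝 (μ ^ j / j.factorial)) := (h.limm.pow j).div_const _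
  have l2 : Tendsto (fun n => (max 0 ((m n : ℝ) * p n ^ 2 - (K + j) * p n ^ 2)) ^ j / j.factorial)
      atTop (𝓝 (μ ^ j / j.factorial)) := by
    have := (tendsto_const_nhds (x := (0 : ℝ))).max
      (h.limm.sub ((h.lim0.pow 2).const_mul ((K : ℝ) + j)))
    simp only [ne_eq, OfNat.ofNat_ne_zero, not_false_eq_true, zero_pow, mul_zero, sub_zero,
      max_eq_right h.mu_nonneg] at this
    exact (this.pow j).div_const _
  filter_upwards [l1.eventually (gt_mem_nhds (lt_add_of_pos_right _ hε)),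
    l2.eventually (lt_mem_nhds (sub_lt_self _ hε))] with n h1 h2 N hN1 hN2
  have hp : 0 ≤ p n ^ 2 := by positivity
  have hf : (0 : ℝ) < j.factorial := by positivity
  have u1 : (N.choose j : ℝ) * (p n ^ 2) ^ j ≤ ((m n : ℝ) * p n ^ 2) ^ j / j.factorial := by
    have e1 := Nat.choose_le_pow_div (α := ℝ) j N
    have e2 : (N : ℝ) ^ j ≤ (m n : ℝ) ^ j := pow_le_pow_left₀ (by positivity) (by exact_mod_cast hN2) _
    calc (N.choose j : ℝ) * (p n ^ 2) ^ j ≤ (m n : ℝ) ^ j / j.factorial * (p n ^ 2) ^ j :=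
          mul_le_mul_of_nonneg_right (e1.trans (div_le_div_of_nonneg_right e2 hf.le)) (by positivity)
      _ = _ := by rw [mul_pow]; ring
  have u2 : (max 0 ((m n : ℝ) * p n ^ 2 - (K + j) * p n ^ 2)) ^ j / j.factorial ≤
      (N.choose j : ℝ) * (p n ^ 2) ^ j := by
    have e1 := Nat.pow_le_choose (α := ℝ) j N
    have e2 : max 0 ((m n : ℝ) * p n ^ 2 - (K + j) * p n ^ 2) ≤
        ((N + 1 - j : ℕ) : ℝ) * p n ^ 2 := by
      refine max_le (by positivity) ?_
      rw [← sub_mul]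
      refine mul_le_mul_of_nonneg_right ?_ hp
      have : m n ≤ (N + 1 - j) + (K + j) := by omega
      have : (m n : ℝ) ≤ ((N + 1 - j : ℕ) : ℝ) + (K + j) := by exact_mod_cast this
      linarith only [this]
    calc _ ≤ (((N + 1 - j : ℕ) : ℝ) * p n ^ 2) ^ j / j.factorial :=
          div_le_div_of_nonneg_right (pow_le_pow_left₀ (le_max_left _ _) e2 _) hf.le
      _ = ((N + 1 - j : ℕ) : ℝ) ^ j / j.factorial * (p n ^ 2) ^ j := by rw [mul_pow]; ring
      _ ≤ _ := mul_le_mul_of_nonneg_right e1 (by positivity)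
  rw [abs_le]
  constructor <;> linarith only [h2, u2, h1, u1]

/-- Statement of the local limit lemma with bounded depth and number of deepest items. -/
def LL (p : ℕ → ℝ) (T : ∀ n, Fin n → Fin n → Fin n → Prop) (μ : ℝ) (D k : ℕ) : Prop :=
  ∀ (M : ℕ) (ε : ℝ), 0 < ε → ∀ᶠ n in atTop, ∀ (P : Finset (Sym2 (Fin n)))
    (I : Finset (Item (Fin n))), P.card ≤ M → Valid P I → (∀ i ∈ I, i.2.2.2 ≤ D) →
    (I.filter fun i => i.2.2.2 = D).card ≤ k →
    |Pr (p n) (holds (T n) P I) - ∏ i ∈ I, xs μ i.2.2.2| ≤ ε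

lemma LL_succ (h : Reg p T m μ) {D k : ℕ} (ih : LL p T μ (D + 1) k) :
    LL p T μ (D + 1) (k + 1) := by
  intro M ε hε
  have hμ := h.mu_nonneg
  set y := xs μ D ^ 2 with hy
  have hy0 : 0 ≤ y := by positivity
  have hy1 : y ≤ 1 := pow_le_one₀ (xs_pos μ D).le (xs_le_one hμ D)
  obtain ⟨J, hJ1, hJ2⟩ : ∃ J : ℕ, μ ^ (J + 1) / (J + 1).factorial ≤ ε / 6 ∧
      |∑ j ∈ range (J + 1), (-(μ * y)) ^ j / j.factorial - Real.exp (-(μ * y))| ≤ ε / 6 := by
    have l1 := (FloorSemiring.tendsto_pow_div_factorial_atTop μ).comp (tendsto_add_atTop_nat 1)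
    have l2 := ((NormedSpace.expSeries_div_hasSum_exp (-(μ * y))).tendsto_sum_nat).comp
      (tendsto_add_atTop_nat 1)
    rw [← Real.exp_eq_exp_ℝ] at l2
    have l3 := Metric.tendsto_nhds.1 l2 (ε / 6) (by positivity)
    obtain ⟨J, h1, h2⟩ := ((l1.eventually (gt_mem_nhds (show (0 : ℝ) < ε / 6 by positivity))).and
      l3).exists
    exact ⟨J, h1.le, h2.le⟩
  set Kc : ℝ := ∑ j ∈ range (J + 1), (μ ^ j / j.factorial + 1) with hKc
  have hKc0 : 0 < Kc := Finset.sum_pos (fun j _ => by positivity) (by simp)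
  set η : ℝ := min 1 (ε / 6 / (J + 1)) with hη
  have hη0 : 0 < η := lt_min one_pos (by positivity)
  have c1 : ∀ᶠ n in atTop, ∀ j ∈ range (J + 2), ∀ N : ℕ, m n ≤ N + (2 * M + 1) → N ≤ m n →
      |(N.choose j : ℝ) * (p n ^ 2) ^ j - μ ^ j / j.factorial| ≤ η :=
    (Filter.eventually_all_finset _).2 fun j _ => h.choose_lim j _ hη0
  have c2 : ∀ᶠ n in atTop, 2 * M * p n ≤ ε / 6 := by
    have := h.lim0.const_mul (2 * (M : ℝ))
    rw [mul_zero] at this
    exact this.eventually (ge_mem_nhds (by positivity))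
  filter_upwards [ih M ε hε, ih (2 * J + M) (ε / 6 / Kc) (by positivity), c1, c2]
    with n ih1 ih2 c1 c2 P I hP hV hD hk
  classical
  by_cases hk' : (I.filter fun i => i.2.2.2 = D + 1).card ≤ k
  · exact ih1 P I hP hV hD hk'
  obtain ⟨i0, hi0⟩ : (I.filter fun i => i.2.2.2 = D + 1).Nonempty := Finset.card_pos.1 (by omega)
  obtain ⟨hi, ht⟩ := Finset.mem_filter.1 hi0
  let Fr : Finset (Fin n) := univ.filter fun w =>
    T n i0.1 i0.2.1 w ∧ (∀ e ∈ P, w ∉ e) ∧ w ≠ i0.2.2.1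
  have hFr : ∀ w, w ∈ Fr ↔ T n i0.1 i0.2.1 w ∧ (∀ e ∈ P, w ∉ e) ∧ w ≠ i0.2.2.1 := by
    intro w; simp only [Fr, Finset.mem_filter, Finset.mem_univ, true_and]
  have hcnt : (univ.filter fun w => T n i0.1 i0.2.1 w).card = m n := by
    have := h.cnt n i0.1 i0.2.1
    rw [sum_ind] at this
    exact_mod_cast this
  have hN2 : Fr.card ≤ m n := by
    rw [← hcnt]
    exact Finset.card_le_card fun w hw =>
      Finset.mem_filter.2 ⟨Finset.mem_univ _, ((hFr w).1 hw).1⟩
  have hN1 : m n ≤ Fr.card + (2 * M + 1) := by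
    rw [← hcnt]
    have : (univ.filter fun w => T n i0.1 i0.2.1 w) ⊆
        Fr ∪ insert i0.2.2.1 (P.biUnion fun e => e.toFinset) := by
      intro w hw
      by_cases h1 : w ∈ Fr
      · exact Finset.mem_union_left _ h1
      · refine Finset.mem_union_right _ ?_
        rw [hFr] at h1
        by_contra h2
        simp only [Finset.mem_insert, Finset.mem_biUnion, Sym2.mem_toFinset, not_or, not_exists,
          not_and] at h2
        exact h1 ⟨(Finset.mem_filter.1 hw).2, h2.2, h2.1⟩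
    have e1 := (Finset.card_le_card this).trans (Finset.card_union_le _ _)
    have e2 := Finset.card_insert_le i0.2.2.1 (P.biUnion fun e => e.toFinset)
    have e3 := Finset.card_biUnion_le_card_mul P (fun e => e.toFinset) 2
      fun e _ => by rw [Sym2.card_toFinset]; split_ifs <;> omega
    omega
  have hstep := step_bound (h.p0 n) (h.p1 n) (T n) hV hi ht (xs μ) J (ε := ε / 6 / Kc) Fr hFr (by
    intro W hW hWJ
    have hWP : ∀ w ∈ W, ∀ e ∈ P, w ∉ e := fun w hw => ((hFr w).1 (hW hw)).2.1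
    refine ih2 _ _ ?_ (valid_step hV hi D hWP) ?_ ?_
    · refine (Finset.card_union_le _ _).trans (add_le_add ?_ hP)
      unfold QW
      have e1 := Finset.card_image_le (s := W) (f := fun w => s(i0.1, w))
      have e2 := Finset.card_image_le (s := W) (f := fun w => s(i0.2.1, w))
      exact (Finset.card_union_le _ _).trans (by omega)
    · intro i hi'
      rcases Finset.mem_union.1 hi' with hi' | hi'
      · obtain ⟨w, _, rfl | rfl⟩ := mem_IW.1 hi' <;> exact Nat.le_succ D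
      · exact hD i (Finset.mem_of_mem_erase hi')
    · have : ((IW i0.1 i0.2.1 D W ∪ I.erase i0).filter fun i => i.2.2.2 = D + 1) ⊆
          (I.filter fun i => i.2.2.2 = D + 1).erase i0 := by
        intro i hi'
        obtain ⟨h1, h2⟩ := Finset.mem_filter.1 hi'
        rcases Finset.mem_union.1 h1 with h1 | h1
        · obtain ⟨w, _, rfl | rfl⟩ := mem_IW.1 h1 <;> simp at h2
        · exact Finset.mem_erase.2 ⟨(Finset.mem_erase.1 h1).1,
            Finset.mem_filter.2 ⟨Finset.mem_of_mem_erase h1, h2⟩⟩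
      have e1 := Finset.card_le_card this
      rw [Finset.card_erase_of_mem hi0] at e1
      omega)
  set r := ∏ i ∈ I.erase i0, xs μ i.2.2.2 with hr
  have hr0 : 0 ≤ r := Finset.prod_nonneg fun i _ => (xs_pos _ _).le
  have hr1 : r ≤ 1 := Finset.prod_le_one (fun i _ => (xs_pos _ _).le) fun i _ => xs_le_one hμ _
  have e1 : ∏ i ∈ I, xs μ i.2.2.2 = r * Real.exp (-(μ * y)) := by
    rw [← Finset.prod_erase_mul _ _ hi, ht]; rfl
  have e2 : ∑ j ∈ range (J + 1), (Fr.card.choose j : ℝ) * (p n ^ 2) ^ j ≤ Kc := by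
    refine Finset.sum_le_sum fun j hj => ?_
    have := c1 j (Finset.mem_range.2 (by have := Finset.mem_range.1 hj; omega)) _ hN1 hN2
    linarith only [this, (abs_le.1 this).2, min_le_left 1 (ε / 6 / (J + 1))]
  have e3 : (Fr.card.choose (J + 1) : ℝ) * (p n ^ 2) ^ (J + 1) ≤ ε / 6 + ε / 6 := by
    have := c1 (J + 1) (Finset.mem_range.2 (by omega)) _ hN1 hN2
    have e4 : ε / 6 / (J + 1) ≤ ε / 6 := div_le_self (by positivity) (by linarith only [Nat.cast_nonneg (α := ℝ) J])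
    linarith only [hJ1, e4, this, (abs_le.1 this).2, min_le_right 1 (ε / 6 / (J + 1))]
  have e4 : |∑ j ∈ range (J + 1), (-1 : ℝ) ^ j * ((Fr.card.choose j : ℝ) * (p n ^ 2) ^ j) * y ^ j -
      ∑ j ∈ range (J + 1), (-(μ * y)) ^ j / j.factorial| ≤ ε / 6 := by
    rw [← Finset.sum_sub_distrib]
    refine (Finset.abs_sum_le_sum_abs _ _).trans
      ((Finset.sum_le_card_nsmul _ _ (ε / 6 / (J + 1)) fun j hj => ?_).trans (le_of_eq ?_))
    · have := c1 j (Finset.mem_range.2 (by have := Finset.mem_range.1 hj; omega)) _ hN1 hN2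
      have e5 : (-1 : ℝ) ^ j * ((Fr.card.choose j : ℝ) * (p n ^ 2) ^ j) * y ^ j -
          (-(μ * y)) ^ j / j.factorial = ((-1 : ℝ) ^ j * y ^ j) *
          ((Fr.card.choose j : ℝ) * (p n ^ 2) ^ j - μ ^ j / j.factorial) := by
        rw [neg_pow (μ * y), mul_pow]; ring
      rw [e5, abs_mul, abs_mul, abs_pow, abs_neg, abs_one, one_pow, one_mul,
        abs_of_nonneg (pow_nonneg hy0 j)]
      exact (mul_le_of_le_one_left (abs_nonneg _) (pow_le_one₀ hy0 hy1)).trans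
        (this.trans (min_le_right _ _))
    · rw [Finset.card_range, nsmul_eq_mul]; push_cast; field_simp
  have e5 : ε / 6 / Kc * ∑ j ∈ range (J + 1), (Fr.card.choose j : ℝ) * (p n ^ 2) ^ j ≤ ε / 6 := by
    refine (mul_le_mul_of_nonneg_left e2 (by (clear * - e1 e2 e3 e4 hFr hN1 hN2 hcnt hi hi0 hr hr0 hr1 hstep ht hε hμ; positivity))).trans (le_of_eq ?_)
    field_simp
  have e6 : 2 * (P.card : ℝ) * p n ≤ ε / 6 := by
    refine le_trans (mul_le_mul_of_nonneg_right ?_ (h.p0 n)) c2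
    have : (P.card : ℝ) ≤ M := by exact_mod_cast hP
    linarith only [this]
  have e7 : |r * ∑ j ∈ range (J + 1),
      (-1 : ℝ) ^ j * ((Fr.card.choose j : ℝ) * (p n ^ 2) ^ j) * y ^ j -
      r * Real.exp (-(μ * y))| ≤ ε / 6 + ε / 6 := by
    rw [← mul_sub, abs_mul, abs_of_nonneg hr0]
    exact (mul_le_of_le_one_left (abs_nonneg _) hr1).trans
      ((abs_sub_le _ _ _).trans (add_le_add e4 hJ2))
  rw [e1]
  have := (abs_sub_le _ _ _).trans (add_le_add hstep e7)
  linarith only [e3, e5, e6, this]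

theorem local_limit (h : Reg p T m μ) (D M : ℕ) {ε : ℝ} (hε : 0 < ε) :
    ∀ᶠ n in atTop, ∀ (P : Finset (Sym2 (Fin n))) (I : Finset (Item (Fin n))), P.card ≤ M →
      Valid P I → (∀ i ∈ I, i.2.2.2 ≤ D) →
      |Pr (p n) (holds (T n) P I) - ∏ i ∈ I, xs μ i.2.2.2| ≤ ε := by
  have key : ∀ D k, LL p T μ D k := by
    intro D
    induction D with
    | zero =>
      intro k M ε hε
      refine Filter.Eventually.of_forall fun n P I _ _ hD _ => ?_
      have e1 : Pr (p n) (holds (T n) P I) = 1 := by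
        unfold Pr
        rw [E_congr (g := fun _ => 1), E_const]
        refine fun ω => ind_pos fun i hi => ?_
        rw [Nat.le_zero.1 (hD i hi)]; trivial
      have e2 : ∏ i ∈ I, xs μ i.2.2.2 = 1 :=
        Finset.prod_eq_one fun i hi => by rw [Nat.le_zero.1 (hD i hi)]; rfl
      rw [e1, e2, sub_self, abs_zero]; exact hε.le
    | succ D ih =>
      intro k
      induction k with
      | zero =>
        intro M ε hε
        filter_upwards [ih M M ε hε] with n hn P I hP hV hD hk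
        refine hn P I hP hV (fun i hi => ?_)
          ((Finset.card_filter_le _ _).trans (hV.card_le.trans hP))
        have h1 := hD i hi
        have h2 : i.2.2.2 ≠ D + 1 := fun h3 => by
          have := Finset.card_pos.2 ⟨i, (Finset.mem_filter (p := fun i => i.2.2.2 = D + 1)).2 ⟨hi, h3⟩⟩
          omega
        omega
      | succ k ihk => exact LL_succ h ihk
  filter_upwards [key D M M ε hε] with n hn P I hP hV hD
  exact hn P I hP hV hD ((Finset.card_filter_le _ _).trans (hV.card_le.trans hP))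

end Pool.Agent.Work.MP_d4a230_co
end

-- merged part: Pool.Agent.Work.MP_d4a230_co.Conc
section
namespace Pool.Agent.Work.MP_d4a230_co

open Finset Filter Topology

lemma L2_bound {ι : Type} [Fintype ι] [DecidableEq ι] {p : ℝ} (h0 : 0 ≤ p) (h1 : p ≤ 1)
    {α : Type} (A : Finset α) (Q : α → Finset ι) (g : α → Finset ι → Prop) (q : ℕ) {μ ε Δ : ℝ}
    (cp : α → α → Prop) (hμ0 : 0 ≤ μ) (hμ1 : μ ≤ 1) (hε : 0 ≤ ε)
    (hq : ∀ a ∈ A, (Q a).card = q)
    (h1m : ∀ a ∈ A, |Pr p (fun ω => g a (ω ∪ Q a)) - μ| ≤ ε)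
    (h2m : ∀ a ∈ A, ∀ b ∈ A, cp a b → Disjoint (Q a) (Q b) ∧
      |Pr p (fun ω => g a (ω ∪ (Q a ∪ Q b)) ∧ g b (ω ∪ (Q a ∪ Q b))) - μ ^ 2| ≤ ε)
    (hΔ : ∑ a ∈ A, ∑ b ∈ A, ind (¬ cp a b) * p ^ (Q a ∪ Q b).card ≤ Δ) :
    E p (fun ω => (∑ a ∈ A, ind (Q a ⊆ ω ∧ g a ω) - A.card * p ^ q * μ) ^ 2) ≤
      3 * ε * (A.card * p ^ q) ^ 2 + Δ := by
  set c := (A.card : ℝ) * p ^ q with hc
  have hc0 : 0 ≤ c := by positivity
  have m1 : c * (μ - ε) ≤ E p (fun ω => ∑ a ∈ A, ind (Q a ⊆ ω ∧ g a ω)) := by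
    rw [E_sum, hc, mul_assoc, ← nsmul_eq_mul]
    refine Finset.card_nsmul_le_sum _ _ _ fun a ha => ?_
    rw [E_congr (fun ω => ind_and _ _), plant, hq a ha]
    refine mul_le_mul_of_nonneg_left ?_ (by positivity)
    have := (abs_le.1 (h1m a ha)).1
    unfold Pr at this
    linarith
  have m2 : E p (fun ω => (∑ a ∈ A, ind (Q a ⊆ ω ∧ g a ω)) ^ 2) ≤ c ^ 2 * (μ ^ 2 + ε) + Δ := by
    have e1 : ∀ ω, (∑ a ∈ A, ind (Q a ⊆ ω ∧ g a ω)) ^ 2 =
        ∑ a ∈ A, ∑ b ∈ A, ind (Q a ∪ Q b ⊆ ω) * ind (g a ω ∧ g b ω) := by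
      intro ω
      rw [sq, Finset.sum_mul_sum]
      refine Finset.sum_congr rfl fun a _ => Finset.sum_congr rfl fun b _ => ?_
      rw [← ind_and, ← ind_and]
      refine ind_congr ?_
      rw [Finset.union_subset_iff]
      exact ⟨fun h => ⟨⟨h.1.1, h.2.1⟩, h.1.2, h.2.2⟩, fun h => ⟨⟨h.1.1, h.2.1⟩, h.1.2, h.2.2⟩⟩
    rw [E_congr e1, E_sum]
    have e2 : c ^ 2 * (μ ^ 2 + ε) = ∑ _a ∈ A, ∑ _b ∈ A, (p ^ q) ^ 2 * (μ ^ 2 + ε) := by
      simp only [Finset.sum_const, nsmul_eq_mul, hc]; ring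
    refine le_trans ?_ (add_le_add e2.ge hΔ)
    rw [← Finset.sum_add_distrib]
    refine Finset.sum_le_sum fun a ha => ?_
    rw [E_sum, ← Finset.sum_add_distrib]
    refine Finset.sum_le_sum fun b hb => ?_
    rw [plant]
    by_cases h : cp a b
    · obtain ⟨hd, hm⟩ := h2m a ha b hb h
      rw [ind_neg (not_not.2 h), zero_mul, add_zero, Finset.card_union_of_disjoint hd, hq a ha,
        hq b hb, pow_add, ← sq]
      refine mul_le_mul_of_nonneg_left ?_ (by positivity)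
      have := (abs_le.1 hm).2
      unfold Pr at this
      linarith
    · rw [ind_pos h, one_mul]
      have e3 : 0 ≤ (p ^ q) ^ 2 * (μ ^ 2 + ε) := by positivity
      have e4 := mul_le_of_le_one_right (a := p ^ (Q a ∪ Q b).card) (by positivity)
        (E_le_one h0 h1 (f := fun ω => ind (g a (ω ∪ (Q a ∪ Q b)) ∧ g b (ω ∪ (Q a ∪ Q b))))
          fun ω => ind_le_one _)
      linarith
  have e : ∀ ω, (∑ a ∈ A, ind (Q a ⊆ ω ∧ g a ω) - c * μ) ^ 2 =
      (∑ a ∈ A, ind (Q a ⊆ ω ∧ g a ω)) ^ 2 +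
        (-(2 * c * μ)) * (∑ a ∈ A, ind (Q a ⊆ ω ∧ g a ω)) + (c * μ) ^ 2 := fun ω => by ring
  rw [E_congr e, E_add, E_add, E_const_mul, E_const]
  have e5 := mul_le_mul_of_nonneg_left m1 (show 0 ≤ 2 * c * μ by positivity)
  have e6 : 0 ≤ c ^ 2 * ε * (1 - μ) := mul_nonneg (by positivity) (by linarith)
  nlinarith only [m2, e5, e6]

lemma valid_union {V : Type} [DecidableEq V] {v : V} {Q Q' : Finset (Sym2 V)}
    {I I' : Finset (Item V)} {U U' : Finset V} (hd : Disjoint U U')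
    (hQ : ∀ x y, s(x, y) ∈ Q → x ≠ y ∧ (x = v ∨ x ∈ U))
    (hQ' : ∀ x y, s(x, y) ∈ Q' → x ≠ y ∧ (x = v ∨ x ∈ U'))
    (h : Valid Q I) (h' : Valid Q' I') :
    Disjoint Q Q' ∧ Disjoint I I' ∧ Valid (Q ∪ Q') (I ∪ I') := by
  have key : ∀ x y y', s(x, y) ∈ Q → s(x, y') ∈ Q' → x = v := fun x y y' h1 h2 => by
    by_contra hc
    exact Finset.disjoint_left.1 hd ((hQ x y h1).2.resolve_left hc)
      ((hQ' x y' h2).2.resolve_left hc)
  have d1 : Disjoint Q Q' := by
    rw [Finset.disjoint_left]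
    intro e
    induction e using Sym2.ind with
    | _ x y =>
      intro h1 h2
      exact (hQ x y h1).1 ((key x y y h1 h2).trans
        (key y x x (by rwa [Sym2.eq_swap]) (by rwa [Sym2.eq_swap])).symm)
  have aux : ∀ {Q Q' : Finset (Sym2 V)} {I : Finset (Item V)},
      (∀ x y y', s(x, y) ∈ Q → s(x, y') ∈ Q' → x = v) → Valid Q I → ∀ i ∈ I, ∀ u, u ≠ i.2.2.1 →
      u ≠ i.1 → u ≠ i.2.1 → s(i.1, u) ∈ Q ∪ Q' → s(i.2.1, u) ∈ Q ∪ Q' → False := by
    intro Q Q' I key h i hi u u1 u2 u3 u4 u5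
    obtain ⟨e1, e2, e3⟩ := h.1 i hi
    have e2' : s(i.2.1, i.1) ∈ Q := by rwa [Sym2.eq_swap]
    rcases Finset.mem_union.1 u4 with u4 | u4 <;> rcases Finset.mem_union.1 u5 with u5 | u5
    · exact e3 u u1 u2 u3 u4 u5
    · exact u3 ((key u _ _ (by rwa [Sym2.eq_swap]) (by rwa [Sym2.eq_swap])).trans
        (key _ _ _ e2' u5).symm)
    · exact u2 ((key u _ _ (by rwa [Sym2.eq_swap]) (by rwa [Sym2.eq_swap])).trans
        (key _ _ _ e2 u4).symm)
    · exact e1 ((key _ _ _ e2 u4).trans (key _ _ _ e2' u5).symm)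
  refine ⟨d1, ?_, ?_, ?_⟩
  · rw [Finset.disjoint_left]
    exact fun i h1 h2 => Finset.disjoint_left.1 d1 (h.1 i h1).2.1 (h'.1 i h2).2.1
  · intro i hi
    rcases Finset.mem_union.1 hi with hi | hi
    · exact ⟨(h.1 i hi).1, Finset.mem_union_left _ (h.1 i hi).2.1, aux key h i hi⟩
    · refine ⟨(h'.1 i hi).1, Finset.mem_union_right _ (h'.1 i hi).2.1, ?_⟩
      rw [Finset.union_comm]
      exact aux (fun x y y' h1 h2 => key x y' y h2 h1) h' i hi
  · intro i hi j hj he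
    rcases Finset.mem_union.1 hi with hi | hi <;> rcases Finset.mem_union.1 hj with hj | hj
    · exact h.2 i hi j hj he
    · exact absurd (he ▸ (h'.1 j hj).2.1) (Finset.disjoint_left.1 d1 (h.1 i hi).2.1)
    · exact absurd (he ▸ (h'.1 i hi).2.1) (Finset.disjoint_left.1 d1 (h.1 j hj).2.1)
    · exact h'.2 i hi j hj he

/-- Concentration in mean of a vertex statistic on the scale `p n`. -/
def Conc (p : ℕ → ℝ) (X : ∀ n, Fin n → Finset (Sym2 (Fin n)) → ℝ) (μ : ℝ) : Prop :=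
  ∀ ε : ℝ, 0 < ε → ∀ᶠ n in atTop, ∀ v,
    E (p n) (fun ω => |X n v ω - μ * (p n * n)|) ≤ ε * (p n * n)

variable {p : ℕ → ℝ} {T : ∀ n, Fin n → Fin n → Fin n → Prop} {m : ℕ → ℕ} {μ : ℝ}

lemma Conc.add (h0 : ∀ n, 0 ≤ p n) (h1 : ∀ n, p n ≤ 1) {X Y} {a b : ℝ} (hX : Conc p X a)
    (hY : Conc p Y b) : Conc p (fun n v ω => X n v ω + Y n v ω) (a + b) := by
  intro ε hε
  filter_upwards [hX (ε / 2) (by positivity), hY (ε / 2) (by positivity)] with n e1 e2 v
  refine (E_mono (h0 n) (h1 n) (g := fun ω => |X n v ω - a * (p n * n)| +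
    |Y n v ω - b * (p n * n)|) fun ω => ?_).trans ?_
  · refine le_trans (le_of_eq ?_) (abs_add_le _ _)
    congr 1; ring
  · rw [E_add]; linarith only [e1 v, e2 v]

lemma Conc.smul (h0 : ∀ n, 0 ≤ p n) (c : ℝ) {X} {a : ℝ} (hX : Conc p X a) :
    Conc p (fun n v ω => c * X n v ω) (c * a) := by
  intro ε hε
  filter_upwards [hX (ε / (|c| + 1)) (by positivity)] with n e1 v
  have e : ∀ ω, |c * X n v ω - c * a * (p n * n)| = |c| * |X n v ω - a * (p n * n)| := fun ω => by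
    rw [← abs_mul]; congr 1; ring
  rw [E_congr e, E_const_mul]
  refine (mul_le_mul_of_nonneg_left (e1 v) (abs_nonneg c)).trans ?_
  rw [← mul_assoc]
  refine mul_le_mul_of_nonneg_right ?_ (mul_nonneg (h0 n) (Nat.cast_nonneg n))
  rw [mul_div_assoc', div_le_iff₀ (by positivity)]
  nlinarith

lemma Conc.sum (h0 : ∀ n, 0 ≤ p n) (h1 : ∀ n, p n ≤ 1) (s : ℕ)
    {X : ℕ → ∀ n, Fin n → Finset (Sym2 (Fin n)) → ℝ} {a : ℕ → ℝ}
    (hX : ∀ k, Conc p (X k) (a k)) :
    Conc p (fun n v ω => ∑ k ∈ range s, X k n v ω) (∑ k ∈ range s, a k) := by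
  induction s with
  | zero =>
    intro ε hε
    refine Filter.Eventually.of_forall fun n v => ?_
    simp only [Finset.range_zero, Finset.sum_empty, zero_mul, sub_zero, abs_zero, E_const]
    exact mul_nonneg hε.le (mul_nonneg (h0 n) (Nat.cast_nonneg n))
  | succ s ih =>
    simp only [Finset.sum_range_succ]
    exact ih.add h0 h1 (hX s)

theorem conc_cluster (h : Reg p T m μ) (hpos : ∀ᶠ n in atTop, 0 < p n * n) (α : ℕ → Type)
    (A : ∀ n, Fin n → Finset (α n)) (Q : ∀ n, Fin n → α n → Finset (Sym2 (Fin n)))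
    (I : ∀ n, Fin n → α n → Finset (Item (Fin n))) (U : ∀ n, Fin n → α n → Finset (Fin n))
    (q D : ℕ) {μ0 β : ℝ} (hμ0 : 0 ≤ μ0) (hμ1 : μ0 ≤ 1)
    (hq : ∀ n v, ∀ a ∈ A n v, (Q n v a).card = q)
    (hU : ∀ n v, ∀ a ∈ A n v, ∀ x y, s(x, y) ∈ Q n v a → x ≠ y ∧ (x = v ∨ x ∈ U n v a))
    (hV : ∀ n v, ∀ a ∈ A n v, Valid (Q n v a) (I n v a))
    (hD : ∀ n v, ∀ a ∈ A n v, ∀ i ∈ I n v a, i.2.2.2 ≤ D)
    (hx : ∀ n v, ∀ a ∈ A n v, ∏ i ∈ I n v a, xs μ i.2.2.2 = μ0)
    (hβ : ∀ ε : ℝ, 0 < ε → ∀ᶠ n in atTop, ∀ v,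
      |(A n v).card * p n ^ q - β * (p n * n)| ≤ ε * (p n * n))
    (hΔ : ∀ ε : ℝ, 0 < ε → ∀ᶠ n in atTop, ∀ v, ∑ a ∈ A n v, ∑ b ∈ A n v,
      ind (¬ Disjoint (U n v a) (U n v b)) * p n ^ (Q n v a ∪ Q n v b).card ≤
        ε * (p n * n) ^ 2) :
    Conc p (fun n v ω => ∑ a ∈ A n v, ind (Q n v a ⊆ ω ∧ holds (T n) ∅ (I n v a) ω))
      (β * μ0) := by
  intro ε hε
  set K := |β| + 1 with hK
  have hK0 : 0 < K := by positivity
  set η := ε ^ 2 / (4 * (3 * K ^ 2 + 1)) with hη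
  have hη0 : 0 < η := by positivity
  filter_upwards [hpos, local_limit h D (q + q) hη0, hβ (min 1 (ε / 2)) (by positivity),
    hΔ η hη0] with n hp hL hβ hΔ v
  set y := p n * n with hy
  have hh : ∀ (P : Finset (Sym2 (Fin n))) I ω, holds (T n) ∅ I (ω ∪ P) ↔ holds (T n) P I ω := by
    intro P I ω; unfold holds; rw [Finset.union_empty]
  have L2 := L2_bound (h.p0 n) (h.p1 n) (A n v) (Q n v) (fun a ω => holds (T n) ∅ (I n v a) ω) q
    (fun a b => Disjoint (U n v a) (U n v b)) hμ0 hμ1 hη0.le (hq n v)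
    (fun a ha => by
      have := hL _ _ (by rw [hq n v a ha]; omega) (hV n v a ha) (hD n v a ha)
      rw [hx n v a ha] at this
      simp only [hh]
      exact this)
    (fun a ha b hb hd => by
      obtain ⟨d1, d2, d3⟩ := valid_union hd (hU n v a ha) (hU n v b hb) (hV n v a ha) (hV n v b hb)
      refine ⟨d1, ?_⟩
      have := hL _ _ (by rw [Finset.card_union_of_disjoint d1, hq n v a ha, hq n v b hb]) d3
        (fun i hi => (Finset.mem_union.1 hi).elim (hD n v a ha i) (hD n v b hb i))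
      rw [Finset.prod_union d2, hx n v a ha, hx n v b hb, ← sq] at this
      simp only [hh]
      refine le_trans (le_of_eq ?_) this
      congr 3
      funext ω
      unfold holds
      simp only [Finset.mem_union, or_imp, forall_and])
    (hΔ v)
  set c := ((A n v).card : ℝ) * p n ^ q with hc
  have hc0 : 0 ≤ c := mul_nonneg (Nat.cast_nonneg _) (pow_nonneg (h.p0 n) _)
  have b1 := hβ v
  have b2 : c ≤ K * y := by
    have e1 := (abs_le.1 b1).2
    have e2 := mul_le_mul_of_nonneg_right (min_le_left 1 (ε / 2)) hp.le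
    have e3 := mul_le_mul_of_nonneg_right (le_abs_self β) hp.le
    rw [hK]; linarith only [e1, e2, e3]
  have b3 : |c * μ0 - β * μ0 * y| ≤ ε / 2 * y := by
    have : c * μ0 - β * μ0 * y = (c - β * y) * μ0 := by ring
    rw [this, abs_mul, abs_of_nonneg hμ0]
    exact (mul_le_of_le_one_right (abs_nonneg _) hμ1).trans
      (b1.trans (mul_le_mul_of_nonneg_right (min_le_right _ _) hp.le))
  have b4 : 3 * η * c ^ 2 + η * y ^ 2 ≤ ε ^ 2 / 4 * y ^ 2 := by
    have e1 : c ^ 2 ≤ (K * y) ^ 2 := pow_le_pow_left₀ hc0 b2 2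
    have e2 : η * (3 * K ^ 2 + 1) = ε ^ 2 / 4 := by rw [hη]; field_simp
    have e3 := mul_le_mul_of_nonneg_left e1 (show 0 ≤ 3 * η by positivity)
    rw [← e2]; nlinarith only [e3]
  set Z : Finset (Sym2 (Fin n)) → ℝ := fun ω =>
    ∑ a ∈ A n v, ind (Q n v a ⊆ ω ∧ holds (T n) ∅ (I n v a) ω) with hZ
  have b5 : ∀ ω, |Z ω - β * μ0 * y| ≤
      (ε / 2 * y + ε / 4 * y) + (ε * y)⁻¹ * (Z ω - c * μ0) ^ 2 := by
    intro ω
    have e1 := abs_sub_le (Z ω) (c * μ0) (β * μ0 * y)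
    have e2 : |Z ω - c * μ0| ≤ ε / 4 * y + (ε * y)⁻¹ * (Z ω - c * μ0) ^ 2 := by
      rw [← sq_abs (Z ω - c * μ0)]
      set w := |Z ω - c * μ0|
      have hey : 0 < ε * y := mul_pos hε hp
      have : (ε * y)⁻¹ * w ^ 2 = w ^ 2 / (ε * y) := by rw [inv_mul_eq_div]
      rw [this, ← sub_le_iff_le_add', le_div_iff₀ hey]
      nlinarith only [sq_nonneg (w - ε * y / 2)]
    linarith only [b3, e1, e2]
  refine (E_mono (h.p0 n) (h.p1 n) b5).trans ?_
  rw [E_add, E_const, E_const_mul]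
  have b6 : (ε * y)⁻¹ * E (p n) (fun ω => (Z ω - c * μ0) ^ 2) ≤ ε / 4 * y := by
    refine (mul_le_mul_of_nonneg_left (L2.trans b4) (inv_nonneg.2 (mul_pos hε hp).le)).trans
      (le_of_eq ?_)
    field_simp
  linarith only [b6]

theorem conc_E (h : Reg p T m μ) (hinf : Tendsto (fun n => p n * n) atTop atTop)
    (W : ∀ n, Fin n → Finset (Fin n)) {β : ℝ}
    (hβ : ∀ ε : ℝ, 0 < ε → ∀ᶠ n in atTop, ∀ v, |((W n v).card : ℝ) - β * n| ≤ ε * n) (t : ℕ) :
    Conc p (fun n v ω => stE (gr ω) (T n) (W n v) t v) (β * xs μ t) := by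
  have key := conc_cluster h (hinf.eventually (eventually_gt_atTop 0)) (fun n => Fin n)
    (fun n v => (W n v).erase v) (fun n v a => {s(v, a)}) (fun n v a => {(v, a, v, t)})
    (fun n v a => {a}) 1 t (β := β) (xs_pos μ t).le (xs_le_one h.mu_nonneg t)
    (fun n v a _ => Finset.card_singleton _)
    (fun n v a ha x y hxy => by
      have hne := (Finset.mem_erase.1 ha).1
      rcases Sym2.eq_iff.1 (Finset.mem_singleton.1 hxy) with ⟨rfl, rfl⟩ | ⟨rfl, rfl⟩
      · exact ⟨hne.symm, Or.inl rfl⟩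
      · exact ⟨hne, Or.inr (Finset.mem_singleton_self _)⟩)
    (fun n v a ha => by
      have hne := (Finset.mem_erase.1 ha).1
      refine ⟨fun i hi => ?_, fun i hi j hj _ => ?_⟩
      · rw [Finset.mem_singleton.1 hi]
        refine ⟨hne.symm, Finset.mem_singleton_self _, fun u _ _ u3 u4 _ => u3 ?_⟩
        exact Sym2.congr_right.1 (Finset.mem_singleton.1 u4)
      · rw [Finset.mem_singleton.1 hi, Finset.mem_singleton.1 hj])
    (fun n v a _ i hi => by rw [Finset.mem_singleton.1 hi])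
    (fun n v a _ => Finset.prod_singleton _ _)
    (fun ε hε => by
      filter_upwards [hβ (ε / 2) (by positivity),
        (tendsto_natCast_atTop_atTop (R := ℝ)).eventually (eventually_ge_atTop (2 / ε))]
        with n e1 e2 v
      have e3 : |(((W n v).erase v).card : ℝ) - (W n v).card| ≤ 1 := by
        have f1 : ((W n v).erase v).card ≤ (W n v).card := Finset.card_erase_le
        have f2 : (W n v).card ≤ ((W n v).erase v).card + 1 := by
          have := Finset.pred_card_le_card_erase (s := W n v) (a := v); omega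
        have f1' : (((W n v).erase v).card : ℝ) ≤ (W n v).card := by exact_mod_cast f1
        have f2' : ((W n v).card : ℝ) ≤ ((W n v).erase v).card + 1 := by exact_mod_cast f2
        rw [abs_le]; constructor <;> linarith only [f2', f1']
      have e4 : (((W n v).erase v).card : ℝ) * p n ^ 1 - β * (p n * n) =
          p n * ((((W n v).erase v).card : ℝ) - β * n) := by ring
      have e5 := (abs_sub_le _ _ _).trans (add_le_add e3 (e1 v))
      rw [div_le_iff₀ hε] at e2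
      rw [e4, abs_mul, abs_of_nonneg (h.p0 n), mul_left_comm]
      exact mul_le_mul_of_nonneg_left (by linarith only [e2, e5]) (h.p0 n))
    (fun ε hε => by
      filter_upwards [hinf.eventually (eventually_ge_atTop (1 / ε))] with n e1 v
      have e2 : ∑ a ∈ (W n v).erase v, ∑ b ∈ (W n v).erase v,
          ind (¬ Disjoint ({a} : Finset (Fin n)) {b}) *
            p n ^ (({s(v, a)} : Finset (Sym2 (Fin n))) ∪ {s(v, b)}).card ≤
          ∑ _a ∈ (W n v).erase v, p n := by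
        refine Finset.sum_le_sum fun a ha => ?_
        rw [Finset.sum_eq_single_of_mem a ha]
        · rw [Finset.union_self, Finset.card_singleton, pow_one]
          exact mul_le_of_le_one_left (h.p0 n) (ind_le_one _)
        · intro b _ hb
          rw [ind_neg (not_not.2 (by simpa using hb.symm)), zero_mul]
      refine e2.trans ?_
      rw [Finset.sum_const, nsmul_eq_mul]
      have e3 : (((W n v).erase v).card : ℝ) ≤ n := by
        exact_mod_cast (Finset.card_le_univ _).trans_eq (Fintype.card_fin n)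
      have e4 := mul_le_mul_of_nonneg_right e3 (h.p0 n)
      rw [div_le_iff₀ hε] at e1
      have e5 : 0 ≤ p n * n := mul_nonneg (h.p0 n) (Nat.cast_nonneg n)
      nlinarith only [e1, hε, e4])
  have e : (fun n v ω => stE (gr ω) (T n) (W n v) t v) = fun n v ω =>
      ∑ a ∈ (W n v).erase v, ind (({s(v, a)} : Finset (Sym2 (Fin n))) ⊆ ω ∧
        holds (T n) ∅ {(v, a, v, t)} ω) := by
    funext n v ω
    unfold stE
    rw [eq_comm]
    refine Finset.sum_subset_zero_on_sdiff (Finset.erase_subset _ _) ?_ ?_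
    · intro a ha
      have : a = v := by
        by_contra hc
        simp [hc] at ha
      subst this
      exact ind_neg fun h => h.1.ne rfl
    · intro a ha
      refine ind_congr ?_
      unfold holds
      simp [gr_adj, (Finset.mem_erase.1 ha).1.symm]
  rw [e]
  exact key

lemma sum_ind_fst {V : Type} [Fintype V] (a : V) :
    ∑ y : V × V, ind (y.1 = a) = Fintype.card V := by
  classical
  rw [Fintype.sum_prod_type, Finset.sum_eq_single a]
  · simp [ind_pos]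
  · intro b _ hb; simp [ind_neg hb]
  · simp

lemma sum_ind_snd {V : Type} [Fintype V] (a : V) :
    ∑ y : V × V, ind (y.2 = a) = Fintype.card V := by
  rw [← sum_ind_fst a, ← Equiv.sum_comp (Equiv.prodComm V V)]; rfl

lemma sum_ind_eq {V : Type} [Fintype V] (a : V) : ∑ y : V, ind (y = a) = 1 := by
  classical
  rw [Finset.sum_eq_single a, ind_pos rfl]
  · intro b _ hb; exact ind_neg hb
  · simp

lemma card_tri {V : Type} [DecidableEq V] {a b v : V} (h1 : a ≠ b) (h2 : a ≠ v) (h3 : b ≠ v) :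
    ({s(a, b), s(a, v), s(b, v)} : Finset (Sym2 V)).card = 3 := by
  rw [Finset.card_eq_three]
  refine ⟨_, _, _, ?_, ?_, ?_, rfl⟩ <;> simp [h1, h2, h3, h1.symm, h3.symm]

theorem conc_T (h : Reg p T m μ) {lam : ℝ}
    (hlam : Tendsto (fun n : ℕ => (n : ℝ) * p n ^ 2) atTop (𝓝 lam))
    (hinf : Tendsto (fun n => p n * n) atTop atTop) (i j k : ℕ) :
    Conc p (fun n v ω => stT (gr ω) (T n) i j k v) (μ * (xs μ i * xs μ j * xs μ k)) := by
  classical
  have hμ := h.mu_nonneg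
  have key := conc_cluster h (hinf.eventually (eventually_gt_atTop 0)) (fun n => Fin n × Fin n)
    (fun n v => univ.filter fun x => x.1 ≠ x.2 ∧ x.1 ≠ v ∧ x.2 ≠ v ∧ T n x.1 x.2 v)
    (fun n v x => {s(x.1, x.2), s(x.1, v), s(x.2, v)})
    (fun n v x => {(x.1, x.2, v, i), (x.1, v, x.2, j), (x.2, v, x.1, k)})
    (fun n v x => {x.1, x.2}) 3 (i + j + k) (β := μ) (μ0 := xs μ i * xs μ j * xs μ k)
    (mul_nonneg (mul_nonneg (xs_pos _ _).le (xs_pos _ _).le) (xs_pos _ _).le)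
    (mul_le_one₀ (mul_le_one₀ (xs_le_one hμ _) (xs_pos _ _).le (xs_le_one hμ _)) (xs_pos _ _).le
      (xs_le_one hμ _))
    (fun n v x hx => by
      obtain ⟨h1, h2, h3, _⟩ := (Finset.mem_filter.1 hx).2
      exact card_tri h1 h2 h3)
    (fun n v x hx a b hab => by
      obtain ⟨h1, h2, h3, _⟩ := (Finset.mem_filter.1 hx).2
      simp only [Finset.mem_insert, Finset.mem_singleton, Sym2.eq_iff] at hab ⊢
      rcases hab with (⟨rfl, rfl⟩ | ⟨rfl, rfl⟩) | (⟨rfl, rfl⟩ | ⟨rfl, rfl⟩) |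
        (⟨rfl, rfl⟩ | ⟨rfl, rfl⟩) <;> simp [h1, h2, h3, h1.symm, h2.symm, h3.symm])
    (fun n v x hx => by
      obtain ⟨a, b⟩ := x
      obtain ⟨h1, h2, h3, _⟩ := (Finset.mem_filter.1 hx).2
      simp only at h1 h2 h3
      have h1' := h1.symm
      have h2' := h2.symm
      have h3' := h3.symm
      refine ⟨fun i hi => ?_, fun i hi j hj he => ?_⟩
      · simp only [Finset.mem_insert, Finset.mem_singleton] at hi
        rcases hi with rfl | rfl | rfl <;>
          refine ⟨by assumption, by simp, fun u u1 u2 u3 u4 _ => ?_⟩ <;>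
          (clear * - h1 h2 u1 u2 u3 u4; simp_all)
      · simp only [Finset.mem_insert, Finset.mem_singleton] at hi hj
        rcases hi with rfl | rfl | rfl <;> rcases hj with rfl | rfl | rfl <;>
          simp_all)
    (fun n v x _ i hi => by
      simp only [Finset.mem_insert, Finset.mem_singleton] at hi
      rcases hi with rfl | rfl | rfl <;> simp only <;> omega)
    (fun n v x hx => by
      obtain ⟨h1, h2, h3, _⟩ := (Finset.mem_filter.1 hx).2
      rw [Finset.prod_insert (by simp [h1, h3]), Finset.prod_pair (by simp [h1]), mul_assoc])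
    (fun ε hε => by
      have l1 := Metric.tendsto_nhds.1 h.limm (ε / 2) (by positivity)
      have l2 : Tendsto (fun n => 3 * p n ^ 2) atTop (𝓝 0) := by
        simpa using (h.lim0.pow 2).const_mul 3
      filter_upwards [l1, l2.eventually (ge_mem_nhds (show (0 : ℝ) < ε / 2 by positivity))]
        with n e1 e2 v
      rw [Real.dist_eq] at e1
      rw [← sum_ind]
      have f1 : ∑ x : Fin n × Fin n, ind (T n x.1 x.2 v) = n * m n := by
        rw [Fintype.sum_prod_type, Finset.sum_congr rfl (g := fun _ => (m n : ℝ))]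
        · simp
        · intro a _
          rw [← h.cnt n a v]
          exact Finset.sum_congr rfl fun b _ =>
            ind_congr ⟨(h.sym n).s23 _ _ _, (h.sym n).s23 _ _ _⟩
      have f2 : ∑ x : Fin n × Fin n, ind (x.1 ≠ x.2 ∧ x.1 ≠ v ∧ x.2 ≠ v ∧ T n x.1 x.2 v) ≤
          n * m n := by
        rw [← f1]; exact Finset.sum_le_sum fun x _ => ind_mono fun h => h.2.2.2
      have f3 : ∑ x : Fin n × Fin n, ind (T n x.1 x.2 v) ≤ ∑ x : Fin n × Fin n,
          (ind (x.1 ≠ x.2 ∧ x.1 ≠ v ∧ x.2 ≠ v ∧ T n x.1 x.2 v) + ind (x.2 = x.1) +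
            ind (x.1 = v) + ind (x.2 = v)) := by
        refine Finset.sum_le_sum fun x _ => ?_
        have n1 := ind_nonneg (x.1 ≠ x.2 ∧ x.1 ≠ v ∧ x.2 ≠ v ∧ T n x.1 x.2 v)
        have n2 := ind_nonneg (x.2 = x.1)
        have n3 := ind_nonneg (x.1 = v)
        have n4 := ind_nonneg (x.2 = v)
        have n5 := ind_le_one (T n x.1 x.2 v)
        by_cases c1 : x.2 = x.1
        · rw [ind_pos c1]; linarith only [n1, n3, n4, n5]
        · by_cases c2 : x.1 = v
          · rw [ind_pos c2]; linarith only [n1, n2, n4, n5]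
          · by_cases c3 : x.2 = v
            · rw [ind_pos c3]; linarith only [n1, n2, n3, n5]
            · have := ind_mono (q := T n x.1 x.2 v)
                (r := x.1 ≠ x.2 ∧ x.1 ≠ v ∧ x.2 ≠ v ∧ T n x.1 x.2 v)
                fun h => ⟨Ne.symm c1, c2, c3, h⟩
              linarith
      have f4 : ∑ x : Fin n × Fin n, ind (x.2 = x.1) = n := by
        rw [Fintype.sum_prod_type]; simp [sum_ind_eq]
      simp only [Finset.sum_add_distrib, f1, f4, sum_ind_fst, sum_ind_snd, Fintype.card_fin] at f3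
      set c := ∑ x : Fin n × Fin n, ind (x.1 ≠ x.2 ∧ x.1 ≠ v ∧ x.2 ≠ v ∧ T n x.1 x.2 v)
      have hp3 : 0 ≤ p n ^ 3 := pow_nonneg (h.p0 n) 3
      have hy : 0 ≤ p n * n := mul_nonneg (h.p0 n) (Nat.cast_nonneg n)
      have g1 := mul_le_mul_of_nonneg_right f2 hp3
      have g2 := mul_le_mul_of_nonneg_right f3 hp3
      have g3 := mul_le_mul_of_nonneg_right (abs_le.1 e1.le).1 hy
      have g4 := mul_le_mul_of_nonneg_right (abs_le.1 e1.le).2 hy
      have g5 := mul_le_mul_of_nonneg_right e2 hy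
      have g6 : 0 ≤ ε * (p n * n) := mul_nonneg hε.le hy
      rw [abs_le]
      constructor <;> nlinarith only [g2, g3, g5, g1, g4])
    (fun ε hε => by
      have l1 : Tendsto (fun n : ℕ => p n * (2 + 4 * ((n : ℝ) * p n ^ 2))) atTop (𝓝 0) := by
        simpa using h.lim0.mul ((hlam.const_mul 4).const_add 2)
      filter_upwards [l1.eventually (ge_mem_nhds hε)] with n e1 v
      set A := univ.filter fun x : Fin n × Fin n =>
        x.1 ≠ x.2 ∧ x.1 ≠ v ∧ x.2 ≠ v ∧ T n x.1 x.2 v with hA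
      have hp3 : 0 ≤ p n ^ 3 := pow_nonneg (h.p0 n) 3
      have hp5 : 0 ≤ p n ^ 5 := pow_nonneg (h.p0 n) 5
      have f1 : ∀ x ∈ A, ∑ y ∈ A, ind (¬ Disjoint ({x.1, x.2} : Finset (Fin n)) {y.1, y.2}) *
          p n ^ (({s(x.1, x.2), s(x.1, v), s(x.2, v)} : Finset (Sym2 (Fin n))) ∪
            {s(y.1, y.2), s(y.1, v), s(y.2, v)}).card ≤ 2 * p n ^ 3 + 4 * n * p n ^ 5 := by
        intro x hx
        obtain ⟨h1, h2, h3, _⟩ := (Finset.mem_filter.1 hx).2
        have g1 : ∑ y : Fin n × Fin n, ((ind (y = x) + ind (y = x.swap)) * p n ^ 3 +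
            (ind (y.1 = x.1) + ind (y.1 = x.2) + ind (y.2 = x.1) + ind (y.2 = x.2)) * p n ^ 5) =
            2 * p n ^ 3 + 4 * n * p n ^ 5 := by
          simp only [Finset.sum_add_distrib, ← Finset.sum_mul, sum_ind_eq, sum_ind_fst,
            sum_ind_snd, Fintype.card_fin]
          ring
        rw [← g1]
        refine le_trans (Finset.sum_le_sum fun y hy => ?_)
          (Finset.sum_le_sum_of_subset_of_nonneg (Finset.subset_univ A) fun y _ _ => add_nonneg
            (mul_nonneg (add_nonneg (ind_nonneg _) (ind_nonneg _)) hp3)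
            (mul_nonneg (add_nonneg (add_nonneg (add_nonneg (ind_nonneg _) (ind_nonneg _))
              (ind_nonneg _)) (ind_nonneg _)) hp5))
        obtain ⟨k1, k2, k3, _⟩ := (Finset.mem_filter.1 hy).2
        have n1 := ind_nonneg (y = x)
        have n2 := ind_nonneg (y = x.swap)
        have n3 := ind_nonneg (y.1 = x.1)
        have n4 := ind_nonneg (y.1 = x.2)
        have n5 := ind_nonneg (y.2 = x.1)
        have n6 := ind_nonneg (y.2 = x.2)
        by_cases hd : Disjoint ({x.1, x.2} : Finset (Fin n)) {y.1, y.2}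
        · rw [ind_neg (not_not.2 hd), zero_mul]; positivity
        · rw [ind_pos hd, one_mul]
          by_cases hs : y = x ∨ y = x.swap
          · have c1 : p n ^ (({s(x.1, x.2), s(x.1, v), s(x.2, v)} : Finset (Sym2 (Fin n))) ∪
                {s(y.1, y.2), s(y.1, v), s(y.2, v)}).card ≤ p n ^ 3 :=
              pow_le_pow_of_le_one (h.p0 n) (h.p1 n) ((card_tri h1 h2 h3).ge.trans
                (Finset.card_le_card Finset.subset_union_left))
            have c2 : 1 ≤ ind (y = x) + ind (y = x.swap) := by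
              rcases hs with hs | hs <;> rw [ind_pos hs] <;> linarith only [n2, n1]
            have c3 := mul_le_mul_of_nonneg_right c2 hp3
            have c4 : 0 ≤ (ind (y.1 = x.1) + ind (y.1 = x.2) + ind (y.2 = x.1) +
              ind (y.2 = x.2)) * p n ^ 5 := by positivity
            linarith
          · obtain ⟨c, hc1, hc2, hc3⟩ : ∃ c, (c = y.1 ∨ c = y.2) ∧ c ≠ x.1 ∧ c ≠ x.2 := by
              by_contra hc
              push Not at hc hs
              have a1 := hc y.1 (Or.inl rfl)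
              have a2 := hc y.2 (Or.inr rfl)
              by_cases b1 : y.1 = x.1
              · by_cases b2 : y.2 = x.1
                · exact k1 (b1.trans b2.symm)
                · exact hs.1 (Prod.ext b1 (a2 b2))
              · by_cases b2 : y.2 = x.1
                · exact hs.2 (Prod.ext (a1 b1) b2)
                · exact k1 ((a1 b1).trans (a2 b2).symm)
            have hcv : c ≠ v := by rcases hc1 with rfl | rfl <;> assumption
            have c0 : (insert s(y.1, y.2) (insert s(c, v)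
                ({s(x.1, x.2), s(x.1, v), s(x.2, v)} : Finset (Sym2 (Fin n))))).card = 5 := by
              rw [Finset.card_insert_of_notMem, Finset.card_insert_of_notMem, card_tri h1 h2 h3]
              · simp only [Finset.mem_insert, Finset.mem_singleton, Sym2.eq_iff]
                simp [hc2, hc3, hcv]
              · simp only [Finset.mem_insert, Finset.mem_singleton, Sym2.eq_iff]
                rcases hc1 with rfl | rfl <;> simp [hc2, hc3, k2, k3]
            have c1 : p n ^ (({s(x.1, x.2), s(x.1, v), s(x.2, v)} : Finset (Sym2 (Fin n))) ∪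
                {s(y.1, y.2), s(y.1, v), s(y.2, v)}).card ≤ p n ^ 5 := by
              refine pow_le_pow_of_le_one (h.p0 n) (h.p1 n) (c0.ge.trans
                (Finset.card_le_card ?_))
              refine Finset.insert_subset (Finset.mem_union_right _ (by simp))
                (Finset.insert_subset (Finset.mem_union_right _ ?_) Finset.subset_union_left)
              rcases hc1 with rfl | rfl <;> simp
            have c2 : 1 ≤ ind (y.1 = x.1) + ind (y.1 = x.2) + ind (y.2 = x.1) +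
                ind (y.2 = x.2) := by
              obtain ⟨u, u1, u2⟩ := Finset.not_disjoint_iff.1 hd
              simp only [Finset.mem_insert, Finset.mem_singleton] at u1 u2
              rcases u1 with rfl | rfl <;> rcases u2 with u2 | u2 <;> rw [ind_pos u2.symm] <;>
                linarith only [n4, n5, n6, n3]
            have c3 := mul_le_mul_of_nonneg_right c2 hp5
            have c4 : 0 ≤ (ind (y = x) + ind (y = x.swap)) * p n ^ 3 := by positivity
            linarith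
      refine (Finset.sum_le_card_nsmul _ _ _ f1).trans ?_
      have f2 : (A.card : ℝ) ≤ n * n := by
        have := Finset.card_le_univ A
        rw [Fintype.card_prod, Fintype.card_fin] at this
        exact_mod_cast this
      rw [nsmul_eq_mul]
      refine (mul_le_mul_of_nonneg_right f2 (by positivity)).trans ?_
      refine le_trans (le_of_eq ?_) (mul_le_mul_of_nonneg_right e1 (sq_nonneg (p n * n)))
      ring)
  have e : (fun n v ω => stT (gr ω) (T n) i j k v) = fun n (v : Fin n) ω =>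
      ∑ x ∈ (univ.filter fun x : Fin n × Fin n => x.1 ≠ x.2 ∧ x.1 ≠ v ∧ x.2 ≠ v ∧ T n x.1 x.2 v),
        ind (({s(x.1, x.2), s(x.1, v), s(x.2, v)} : Finset (Sym2 (Fin n))) ⊆ ω ∧
          holds (T n) ∅ {(x.1, x.2, v, i), (x.1, v, x.2, j), (x.2, v, x.1, k)} ω) := by
    funext n v ω
    unfold stT
    rw [eq_comm]
    refine Finset.sum_subset_zero_on_sdiff (Finset.subset_univ _) ?_ ?_
    · intro x hx
      refine ind_neg fun h => (Finset.mem_sdiff.1 hx).2 (Finset.mem_filter.2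
        ⟨Finset.mem_univ _, h.1.ne, h.2.1.1.ne, h.2.1.2.1.ne, h.2.1.2.2⟩)
    · intro x hx
      obtain ⟨h1, h2, h3, h4⟩ := (Finset.mem_filter.1 hx).2
      refine ind_congr ?_
      unfold holds Tri Lk
      simp only [gr_adj, Finset.insert_subset_iff, Finset.singleton_subset_iff, Finset.union_empty,
        Finset.mem_insert, Finset.mem_singleton, forall_eq_or_imp, forall_eq]
      exact ⟨fun h => ⟨⟨h.1.1, h1⟩, ⟨⟨h.1.2.1, h2⟩, ⟨h.1.2.2, h3⟩, h4⟩, h.2⟩,
        fun h => ⟨⟨h.1.1, h.2.1.1.1, h.2.1.2.1.1⟩, h.2.2⟩⟩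
  rw [e]
  exact key

end Pool.Agent.Work.MP_d4a230_co
end

-- merged part: Pool.Agent.Work.MP_d4a230_co.Clean
section
namespace Pool.Agent.Work.MP_d4a230_co

open Finset

variable {V : Type} [DecidableEq V] {G : SimpleGraph V}

/-- Number of neighbours of `v` in `X`. -/
noncomputable def nb (G : SimpleGraph V) (X : Finset V) (v : V) : ℝ := ∑ u ∈ X, ind (G.Adj v u)

omit [DecidableEq V] in
lemma nb_nonneg (X : Finset V) (v : V) : 0 ≤ nb G X v :=
  Finset.sum_nonneg fun _ _ => ind_nonneg _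

lemma closure_lemma [Fintype V] {D : ℝ} (hD : 0 ≤ D) {m : ℕ}
    (h1 : ∀ X : Finset V, X.Nonempty → X.card ≤ 2 * m → ∑ v ∈ X, nb G X v < D * X.card)
    (B0 : Finset V) (hB0 : B0.card ≤ m) :
    ∃ B, B0 ⊆ B ∧ B.card ≤ 2 * m ∧ ∀ v ∉ B, nb G B v ≤ D := by
  classical
  let C : Finset (Finset V) := univ.filter fun B => B0 ⊆ B ∧ B.card ≤ 2 * m ∧
    2 * D * ((B.card : ℝ) - B0.card) ≤ ∑ v ∈ B, nb G B v
  have hne : C.Nonempty := ⟨B0, Finset.mem_filter.2 ⟨Finset.mem_univ _, Finset.Subset.refl _,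
    by omega, by simpa using Finset.sum_nonneg fun v _ => nb_nonneg B0 v⟩⟩
  obtain ⟨B, hB, hmax⟩ := Finset.exists_max_image C Finset.card hne
  obtain ⟨_, hB1, hB2, hB3⟩ := Finset.mem_filter.1 hB
  refine ⟨B, hB1, hB2, fun v hv => ?_⟩
  by_contra hc
  have hc := not_le.1 hc
  rcases hB2.lt_or_eq with hlt | heq
  · have hmem : insert v B ∈ C := by
      refine Finset.mem_filter.2 ⟨Finset.mem_univ _, hB1.trans (Finset.subset_insert _ _), ?_, ?_⟩
      · rw [Finset.card_insert_of_notMem hv]; omega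
      · rw [Finset.card_insert_of_notMem hv, Finset.sum_insert hv]
        have e1 : nb G B v ≤ nb G (insert v B) v := by
          unfold nb; rw [Finset.sum_insert hv]; linarith only [ind_nonneg (G.Adj v v)]
        have e2 : ∑ u ∈ B, nb G (insert v B) u = ∑ u ∈ B, nb G B u + nb G B v := by
          unfold nb
          rw [← Finset.sum_add_distrib]
          refine Finset.sum_congr rfl fun u _ => ?_
          rw [Finset.sum_insert hv, add_comm, ind_congr (G.adj_comm u v)]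
        rw [e2]; push_cast; linarith
    have := hmax _ hmem
    rw [Finset.card_insert_of_notMem hv] at this
    omega
  · have hBne : B.Nonempty := by
      rw [Finset.nonempty_iff_ne_empty]
      rintro rfl
      simp only [nb, Finset.sum_empty] at hc
      linarith only [hD, hc]
    have e1 := h1 B hBne hB2
    have e2 : (B.card : ℝ) = 2 * m := by exact_mod_cast heq
    have e3 : (B0.card : ℝ) ≤ m := by exact_mod_cast hB0
    nlinarith only [hB3, e1, hD, e2, e3]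

lemma degen_lemma {D : ℝ} (hD : 0 ≤ D) (S : Finset V) : ∀ (n : ℕ) (B : Finset V), B.card = n →
    (∀ X ⊆ B, X.Nonempty → ∃ v ∈ X, nb G X v ≤ D) →
    ∃ κ : V → ℕ, Set.InjOn κ B ∧ (∀ y ∈ B, κ y < n) ∧
      (∀ y ∈ B, ∀ a ∈ B, a ∈ S → κ y < κ a → y ∈ S) ∧
      ∀ a ∈ B, ∑ y ∈ B \ S, ind (G.Adj a y ∧ κ y < κ a) ≤ D := by
  intro n
  induction n with
  | zero =>
    intro B hB _
    rw [Finset.card_eq_zero] at hB
    subst hB
    exact ⟨fun _ => 0, by simp, by simp, by simp, by simp⟩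
  | succ n ih =>
    intro B hB h
    obtain ⟨a0, ha0, h2, h3⟩ : ∃ a0 ∈ B, (a0 ∈ S → ∀ y ∈ B, y ∈ S) ∧ nb G (B \ S) a0 ≤ D := by
      by_cases hne : (B \ S).Nonempty
      · obtain ⟨v, hv, hv2⟩ := h _ Finset.sdiff_subset hne
        exact ⟨v, (Finset.mem_sdiff.1 hv).1, fun h => absurd h (Finset.mem_sdiff.1 hv).2, hv2⟩
      · obtain ⟨v, hv⟩ : B.Nonempty := Finset.card_pos.1 (by omega)
        rw [Finset.not_nonempty_iff_eq_empty] at hne
        refine ⟨v, hv, fun _ y hy => ?_, by rw [hne]; simpa [nb] using hD⟩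
        by_contra hc
        exact Finset.notMem_empty y (hne ▸ Finset.mem_sdiff.2 ⟨hy, hc⟩)
    obtain ⟨κ, k1, k2, k3, k4⟩ := ih (B.erase a0) (by rw [Finset.card_erase_of_mem ha0]; omega)
      fun X hX => h X (hX.trans (Finset.erase_subset _ _))
    have hm : ∀ y ∈ B, y ≠ a0 → y ∈ B.erase a0 := fun y hy h => Finset.mem_erase.2 ⟨h, hy⟩
    refine ⟨Function.update κ a0 n, ?_, ?_, ?_, ?_⟩
    · intro x hx y hy hxy
      by_cases h1 : x = a0 <;> by_cases h2 : y = a0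
      · rw [h1, h2]
      · subst h1
        rw [Function.update_self, Function.update_of_ne h2] at hxy
        have := k2 y (hm y hy h2); omega
      · subst h2
        rw [Function.update_self, Function.update_of_ne h1] at hxy
        have := k2 x (hm x hx h1); omega
      · rw [Function.update_of_ne h1, Function.update_of_ne h2] at hxy
        exact k1 (hm x hx h1) (hm y hy h2) hxy
    · intro y hy
      by_cases h1 : y = a0
      · subst h1; rw [Function.update_self]; omega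
      · rw [Function.update_of_ne h1]; have := k2 y (hm y hy h1); omega
    · intro y hy a ha haS hlt
      by_cases h1 : a = a0
      · subst h1; exact h2 haS y hy
      · by_cases h4 : y = a0
        · subst h4
          rw [Function.update_self, Function.update_of_ne h1] at hlt
          have := k2 a (hm a ha h1); omega
        · rw [Function.update_of_ne h1, Function.update_of_ne h4] at hlt
          exact k3 y (hm y hy h4) a (hm a ha h1) haS hlt
    · intro a ha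
      by_cases h1 : a = a0
      · subst h1
        exact (Finset.sum_le_sum fun y _ => ind_mono fun h => h.1).trans h3
      · refine le_trans (le_of_eq ?_) (k4 a (hm a ha h1))
        rw [eq_comm]
        refine Finset.sum_subset_zero_on_sdiff
          (Finset.sdiff_subset_sdiff (Finset.erase_subset _ _) (Finset.Subset.refl _)) ?_ ?_
        · intro y hy
          have : y = a0 := by
            by_contra hc
            simp only [Finset.mem_sdiff, Finset.mem_erase] at hy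
            tauto
          subst this
          refine ind_neg fun h => ?_
          rw [Function.update_self, Function.update_of_ne h1] at h
          have := k2 a (hm a ha h1); omega
        · intro y hy
          have : y ≠ a0 := (Finset.mem_erase.1 (Finset.mem_sdiff.1 hy).1).1
          rw [Function.update_of_ne h1, Function.update_of_ne this]

theorem clean_det [Fintype V] {D Er : ℝ} (hD : 0 ≤ D) {m : ℕ} {R : SimpleGraph V} (hR : R ≤ G)
    (hTF : TF R) (B0 S : Finset V) (hS : S ⊆ B0) (hB0 : B0.card ≤ m)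
    (hST : ∀ a ∈ S, ∀ b ∈ S, ∀ c ∈ S, G.Adj a b → G.Adj a c → G.Adj b c → False)
    (h1 : ∀ X : Finset V, X.Nonempty → X.card ≤ 2 * m → ∑ v ∈ X, nb G X v < D * X.card)
    (h2 : ∀ (a : V) (Y : Finset V), (∀ y ∈ Y, G.Adj a y) → (Y.card : ℝ) ≤ 2 * D →
      ∑ b, ind (G.Adj a b ∧ ∃ y ∈ Y, G.Adj y b) ≤ Er)
    (h4 : ∀ v, nb G S v ≤ D) :
    ∃ G' ≤ G, TF G' ∧ (∀ a ∈ S, ∀ b ∈ S, G.Adj a b → G'.Adj a b) ∧
      (∀ v, dg R v - Er ≤ dg G' v) ∧ ∀ v ∈ B0, dg G v - Er ≤ dg G' v := by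
  classical
  obtain ⟨B, hB1, hB2, hB3⟩ := closure_lemma hD h1 B0 hB0
  obtain ⟨κ, k1, k2, k3, k4⟩ := degen_lemma (G := G) hD S B.card B rfl (by
    intro X hX hne
    by_contra hc
    push Not at hc
    have e1 := h1 X hne ((Finset.card_le_card hX).trans hB2)
    have e2 : ∑ _v ∈ X, D ≤ ∑ v ∈ X, nb G X v := Finset.sum_le_sum fun v hv => (hc v hv).le
    rw [Finset.sum_const, nsmul_eq_mul] at e2
    linarith only [e1, e2])
  let ρ : V → ℕ := fun v => if v ∈ B then κ v else B.card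
  have r1 : ∀ v ∈ B, ρ v = κ v := fun v hv => if_pos hv
  have r2 : ∀ v ∉ B, ρ v = B.card := fun v hv => if_neg hv
  have r3 : ∀ v, ρ v ≤ B.card := fun v => by
    by_cases hv : v ∈ B
    · rw [r1 v hv]; exact (k2 v hv).le
    · rw [r2 v hv]
  have r4 : ∀ v ∈ B, ρ v < B.card := fun v hv => by rw [r1 v hv]; exact k2 v hv
  have r5 : ∀ y a, ρ y < ρ a → y ∈ B := fun y a h => by
    by_contra hc
    have := r2 y hc; have := r3 a; omega
  have r6 : ∀ a b, a ≠ b → ρ a = ρ b → ρ a = B.card := fun a b hab h => by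
    by_cases ha : a ∈ B
    · by_cases hb : b ∈ B
      · rw [r1 a ha, r1 b hb] at h; exact absurd (k1 ha hb h) hab
      · rw [h, r2 b hb]
    · exact r2 a ha
  let G' : SimpleGraph V :=
    { Adj := fun a b => G.Adj a b ∧ (a ∈ B ∨ b ∈ B ∨ R.Adj a b) ∧
        ¬ ∃ y, ρ y < ρ a ∧ ρ y < ρ b ∧ G.Adj y a ∧ G.Adj y b
      symm := ⟨fun a b h => ⟨h.1.symm, by
          rcases h.2.1 with h | h | h
          · exact Or.inr (Or.inl h)
          · exact Or.inl h
          · exact Or.inr (Or.inr h.symm),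
        fun ⟨y, e1, e2, e3, e4⟩ => h.2.2 ⟨y, e2, e1, e4, e3⟩⟩⟩
      loopless := ⟨fun a h => h.1.ne rfl⟩ }
  have hload : ∀ a, ∑ b, ind (G.Adj a b ∧
      ∃ y, ρ y < ρ a ∧ ρ y < ρ b ∧ G.Adj y a ∧ G.Adj y b) ≤ Er := by
    intro a
    let Y : Finset V := univ.filter fun y => G.Adj a y ∧ ρ y < ρ a
    have hY : (Y.card : ℝ) ≤ 2 * D := by
      rw [← sum_ind]
      have e0 : ∑ y, ind (G.Adj a y ∧ ρ y < ρ a) = ∑ y ∈ B, ind (G.Adj a y ∧ ρ y < ρ a) := by
        rw [eq_comm]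
        exact Finset.sum_subset (Finset.subset_univ _) fun y _ hy =>
          ind_neg fun h => hy (r5 y a h.2)
      rw [e0]
      by_cases ha : a ∈ B
      · rw [← Finset.sum_sdiff (hS.trans hB1)]
        have e1 : ∑ y ∈ B \ S, ind (G.Adj a y ∧ ρ y < ρ a) ≤ D := by
          refine le_trans (le_of_eq (Finset.sum_congr rfl fun y hy => ?_)) (k4 a ha)
          rw [r1 a ha, r1 y (Finset.mem_sdiff.1 hy).1]
        have e2 : ∑ y ∈ S, ind (G.Adj a y ∧ ρ y < ρ a) ≤ D :=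
          (Finset.sum_le_sum fun y _ => ind_mono fun h => h.1).trans (h4 a)
        linarith only [e1, e2]
      · have e1 : ∑ y ∈ B, ind (G.Adj a y ∧ ρ y < ρ a) ≤ D :=
          (Finset.sum_le_sum fun y _ => ind_mono fun h => h.1).trans (hB3 a ha)
        linarith
    refine le_trans (Finset.sum_le_sum fun b _ => ind_mono ?_)
      (h2 a Y (fun y hy => (Finset.mem_filter.1 hy).2.1) hY)
    rintro ⟨h, y, e1, _, e3, e4⟩
    exact ⟨h, y, Finset.mem_filter.2 ⟨Finset.mem_univ _, e3.symm, e1⟩, e4⟩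
  have hdeg : ∀ (H : SimpleGraph V) (v : V), H ≤ G →
      (∀ b, H.Adj v b → v ∈ B ∨ b ∈ B ∨ R.Adj v b) → dg H v - Er ≤ dg G' v := by
    intro H v hH hv
    have e1 : dg H v ≤ dg G' v + ∑ b, ind (G.Adj v b ∧
        ∃ y, ρ y < ρ v ∧ ρ y < ρ b ∧ G.Adj y v ∧ G.Adj y b) := by
      unfold dg
      rw [← Finset.sum_add_distrib]
      refine Finset.sum_le_sum fun b _ => le_trans (ind_mono fun h => ?_) (ind_or_le _ _)
      by_cases hy : ∃ y, ρ y < ρ v ∧ ρ y < ρ b ∧ G.Adj y v ∧ G.Adj y b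
      · exact Or.inr ⟨hH h, hy⟩
      · exact Or.inl ⟨hH h, hv b h, hy⟩
    linarith only [e1, hload v]
  refine ⟨G', fun a b h => h.1, ?_, ?_, fun v => hdeg R v hR fun b h => Or.inr (Or.inr h),
    fun v hv => hdeg G v le_rfl fun b _ => Or.inl (hB1 hv)⟩
  · intro a b c hab hac hbc
    by_cases hin : a ∈ B ∨ b ∈ B ∨ c ∈ B
    · have e1 := r6 a b hab.1.ne
      have e2 := r6 a c hac.1.ne
      have e3 := r6 b c hbc.1.ne
      have e4 := r3 a
      have e5 := r3 b
      have e6 := r3 c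
      have e7 : ρ a < B.card ∨ ρ b < B.card ∨ ρ c < B.card := by
        rcases hin with h | h | h
        · exact Or.inl (r4 _ h)
        · exact Or.inr (Or.inl (r4 _ h))
        · exact Or.inr (Or.inr (r4 _ h))
      have : (ρ a < ρ b ∧ ρ a < ρ c) ∨ (ρ b < ρ a ∧ ρ b < ρ c) ∨ (ρ c < ρ a ∧ ρ c < ρ b) := by
        omega
      rcases this with h | h | h
      · exact hbc.2.2 ⟨a, h.1, h.2, hab.1, hac.1⟩
      · exact hac.2.2 ⟨b, h.1, h.2, hab.1.symm, hbc.1⟩
      · exact hab.2.2 ⟨c, h.1, h.2, hac.1.symm, hbc.1.symm⟩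
    · push Not at hin
      exact hTF a b c ((hab.2.1.resolve_left hin.1).resolve_left hin.2.1)
        ((hac.2.1.resolve_left hin.1).resolve_left hin.2.2)
        ((hbc.2.1.resolve_left hin.2.1).resolve_left hin.2.2)
  · intro a ha b hb hab
    refine ⟨hab, Or.inl (hB1 (hS ha)), ?_⟩
    rintro ⟨y, e1, _, e3, e4⟩
    have hy := r5 y a e1
    rw [r1 y hy, r1 a (hB1 (hS ha))] at e1
    exact hST y (k3 y hy a (hB1 (hS ha)) ha e1) a ha b hb e3 e4 hab

end Pool.Agent.Work.MP_d4a230_co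
end

-- merged part: Pool.Agent.Work.MP_d4a230_co.Whp
section
namespace Pool.Agent.Work.MP_d4a230_co

open Finset Filter Topology

variable {V : Type} [Fintype V] [DecidableEq V] {p : ℝ}

lemma Pr_false {ι : Type} [Fintype ι] [DecidableEq ι] :
    Pr p (fun _ : Finset ι => False) = 0 := by
  show E p (fun _ => ind False) = 0
  rw [ind_neg not_false, E_const]

omit [DecidableEq V] in
lemma sum_pow_card_le {y : ℝ} (hy : 0 ≤ y) :
    ∑ X : Finset V, y ^ X.card ≤ Real.exp (Fintype.card V * y) := by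
  have := Finset.prod_one_add (f := fun _ : V => y) univ
  simp only [Finset.prod_const, Finset.powerset_univ, Finset.card_univ] at this
  rw [← this, Real.exp_nat_mul]
  exact pow_le_pow_left₀ (by linarith) (by linarith [Real.add_one_le_exp y]) _

omit [Fintype V] in
lemma nb_eq (ω : Finset (Sym2 V)) (X : Finset V) (v : V) :
    nb (gr ω) X v = ((ω ∩ (X.erase v).image fun u => s(v, u)).card : ℝ) := by
  classical
  unfold nb
  rw [sum_ind, ← Finset.card_image_of_injective (f := fun u => s(v, u)) _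
    fun x y h => Sym2.congr_right.1 h]
  congr 2
  ext e
  simp only [Finset.mem_image, Finset.mem_filter, Finset.mem_inter, Finset.mem_erase, gr_adj]
  constructor
  · rintro ⟨u, ⟨h1, h2, h3⟩, rfl⟩
    exact ⟨h2, u, ⟨h3.symm, h1⟩, rfl⟩
  · rintro ⟨h2, u, ⟨h3, h1⟩, rfl⟩
    exact ⟨u, ⟨h1, h2, h3.symm⟩, rfl⟩

lemma sparse_bound (h0 : 0 ≤ p) (h1 : p ≤ 1) {D : ℝ} {m : ℕ} (hD : 32 * p * m ≤ D) :
    Pr p (fun ω : Finset (Sym2 V) => ∃ X : Finset V, X.Nonempty ∧ X.card ≤ 2 * m ∧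
      D * X.card ≤ ∑ v ∈ X, nb (gr ω) X v) ≤
      Real.exp (Fintype.card V * Real.exp (-(D / 4))) - 1 := by
  classical
  have e0 := sum_pow_card_le (V := V) (Real.exp_pos (-(D / 4))).le
  rw [← Finset.add_sum_erase _ _ (Finset.mem_univ ∅), Finset.card_empty, pow_zero] at e0
  refine le_trans ?_ (le_sub_iff_add_le'.2 e0)
  refine (Pr_mono h0 h1 (B := fun ω => ∃ X ∈ (univ : Finset (Finset V)).erase ∅,
    X.card ≤ 2 * m ∧ D * X.card / 2 ≤
      ((ω ∩ (X ×ˢ X).image fun x => s(x.1, x.2)).card : ℝ)) ?_).trans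
    ((Pr_exists_le h0 h1 _ _).trans (Finset.sum_le_sum fun X _ => ?_))
  · rintro ω ⟨X, hne, hX, h⟩
    refine ⟨X, Finset.mem_erase.2 ⟨hne.ne_empty, Finset.mem_univ _⟩, hX, ?_⟩
    have e1 : ∑ v ∈ X, nb (gr ω) X v =
        (((X ×ˢ X).filter fun x => (gr ω).Adj x.1 x.2).card : ℝ) := by
      rw [← sum_ind, Finset.sum_product]; rfl
    have e2 := Finset.card_le_mul_card_image_of_maps_to
      (s := (X ×ˢ X).filter fun x => (gr ω).Adj x.1 x.2)
      (t := ω ∩ (X ×ˢ X).image fun x => s(x.1, x.2)) (f := fun x => s(x.1, x.2))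
      (fun x hx => Finset.mem_inter.2 ⟨(gr_adj.1 (Finset.mem_filter.1 hx).2).1,
        Finset.mem_image_of_mem _ (Finset.mem_filter.1 hx).1⟩) 2 (by
        intro e _
        induction e using Sym2.ind with
        | _ a b =>
          refine le_trans (Finset.card_le_card (t := {(a, b), (b, a)}) ?_) Finset.card_le_two
          rintro ⟨x, y⟩ hx
          rcases Sym2.eq_iff.1 (Finset.mem_filter.1 hx).2 with h | h <;>
            simp only at h <;> simp [h.1, h.2])
    have e3 : ((((X ×ˢ X).filter fun x => (gr ω).Adj x.1 x.2).card : ℕ) : ℝ) ≤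
        2 * ((ω ∩ (X ×ˢ X).image fun x => s(x.1, x.2)).card : ℝ) := by exact_mod_cast e2
    linarith only [h, e1, e3]
  · by_cases hX : X.card ≤ 2 * m
    · refine (Pr_mono h0 h1 fun ω h => h.2).trans ((chernoff_up h0 h1 _ _).trans ?_)
      rw [← Real.exp_nat_mul]
      refine Real.exp_le_exp.2 ?_
      have e1 : ((((X ×ˢ X).image fun x => s(x.1, x.2)).card : ℕ) : ℝ) ≤ X.card * (2 * m) := by
        have := (Finset.card_image_le (s := X ×ˢ X) (f := fun x => s(x.1, x.2))).trans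
          ((Finset.card_product X X).le.trans (Nat.mul_le_mul_left _ hX))
        exact_mod_cast this
      have e2 := mul_le_mul_of_nonneg_left e1 (show 0 ≤ 2 * p by positivity)
      have e3 := mul_le_mul_of_nonneg_left hD (Nat.cast_nonneg (α := ℝ) X.card)
      have e4 : 0 ≤ (X.card : ℝ) * (p * m) := by positivity
      nlinarith only [e2, e3, e4]
    · refine le_trans (Pr_mono h0 h1 (B := fun _ => False) fun ω h => hX h.1) ?_
      rw [Pr_false]; positivity

lemma load_bound (h0 : 0 ≤ p) (h1 : p ≤ 1) {y0 k γ : ℝ} (hγ : 0 ≤ γ)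
    (hy : y0 * p ≤ Real.exp (-γ)) :
    Pr p (fun ω : Finset (Sym2 V) => ∃ (a : V) (Y : Finset V), (∀ y ∈ Y, (gr ω).Adj a y) ∧
      (Y.card : ℝ) ≤ y0 ∧ y0 + k ≤ ∑ b, ind ((gr ω).Adj a b ∧ ∃ y ∈ Y, (gr ω).Adj y b)) ≤
      Fintype.card V * Real.exp (2 * (Fintype.card V * p) - γ * k) := by
  classical
  refine (Pr_mono h0 h1 (B := fun ω => ∃ a ∈ (univ : Finset V), ∃ Y ∈ (univ : Finset (Finset V)),
    ∃ Z ∈ (univ : Finset (Finset V)),
      ∃ φ ∈ Fintype.piFinset (fun b => if b ∈ Z then Y else {a}),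
      ((Y.card : ℝ) ≤ y0 ∧ k ≤ Z.card ∧ a ∉ Y ∧ a ∉ Z ∧ Disjoint Y Z) ∧
      ((Y ∪ Z).image fun u => s(a, u)) ∪ (Z.image fun b => s(φ b, b)) ⊆ ω) ?_).trans ?_
  · rintro ω ⟨a, Y, hY, hc, hk⟩
    let Z := (univ.filter fun b => (gr ω).Adj a b ∧ ∃ y ∈ Y, (gr ω).Adj y b) \ Y
    have hZ : ∀ b ∈ Z, b ∉ Y ∧ (gr ω).Adj a b ∧ ∃ y ∈ Y, (gr ω).Adj y b := fun b hb =>
      ⟨(Finset.mem_sdiff.1 hb).2, (Finset.mem_filter.1 (Finset.mem_sdiff.1 hb).1).2⟩
    have hex : ∀ b, ∃ y, y ∈ (if b ∈ Z then Y else {a}) ∧ (b ∈ Z → (gr ω).Adj y b) := by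
      intro b
      by_cases hb : b ∈ Z
      · obtain ⟨y, hy, h⟩ := (hZ b hb).2.2
        exact ⟨y, by rwa [if_pos hb], fun _ => h⟩
      · exact ⟨a, by rw [if_neg hb]; simp, fun h => absurd h hb⟩
    choose φ hφ1 hφ2 using hex
    refine ⟨a, Finset.mem_univ _, Y, Finset.mem_univ _, Z, Finset.mem_univ _, φ,
      Fintype.mem_piFinset.2 hφ1, ⟨hc, ?_, fun h => (hY a h).ne rfl,
      fun h => (hZ a h).2.1.ne rfl, Finset.disjoint_sdiff⟩, ?_⟩
    · rw [sum_ind] at hk
      have := Finset.le_card_sdiff Y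
        (univ.filter fun b => (gr ω).Adj a b ∧ ∃ y ∈ Y, (gr ω).Adj y b)
      have e : (univ.filter fun b => (gr ω).Adj a b ∧ ∃ y ∈ Y, (gr ω).Adj y b).card ≤
        Z.card + Y.card := by simp only [Z]; omega
      have e' : ((univ.filter fun b => (gr ω).Adj a b ∧ ∃ y ∈ Y, (gr ω).Adj y b).card : ℝ) ≤
        Z.card + Y.card := by exact_mod_cast e
      linarith only [hc, hk, e']
    · intro e he
      rcases Finset.mem_union.1 he with he | he
      · obtain ⟨u, hu, rfl⟩ := Finset.mem_image.1 he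
        rcases Finset.mem_union.1 hu with hu | hu
        · exact (gr_adj.1 (hY u hu)).1
        · exact (gr_adj.1 (hZ u hu).2.1).1
      · obtain ⟨u, hu, rfl⟩ := Finset.mem_image.1 he
        exact (gr_adj.1 (hφ2 u hu)).1
  · refine (Pr_exists_le h0 h1 _ _).trans ?_
    rw [← Finset.card_univ, ← nsmul_eq_mul]
    refine Finset.sum_le_card_nsmul _ _ _ fun a _ => ?_
    have e0 := sum_pow_card_le (V := V) h0
    have e1 : ∑ Y : Finset V, ∑ Z : Finset V, Real.exp (-(γ * k)) * (p ^ Y.card * p ^ Z.card) ≤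
        Real.exp (2 * ((univ : Finset V).card * p) - γ * k) := by
      simp only [← Finset.mul_sum, ← Finset.sum_mul]
      rw [sub_eq_add_neg, Real.exp_add, two_mul, Real.exp_add, mul_comm, Finset.card_univ]
      refine mul_le_mul_of_nonneg_right (mul_le_mul e0 e0
        (Finset.sum_nonneg fun _ _ => by positivity) (by positivity)) (by positivity)
    refine le_trans ?_ e1
    refine (Pr_exists_le h0 h1 _ _).trans (Finset.sum_le_sum fun Y _ => ?_)
    refine (Pr_exists_le h0 h1 _ _).trans (Finset.sum_le_sum fun Z _ => ?_)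
    refine (Pr_exists_le h0 h1 _ _).trans ?_
    by_cases hc : (Y.card : ℝ) ≤ y0 ∧ k ≤ Z.card ∧ a ∉ Y ∧ a ∉ Z ∧ Disjoint Y Z
    · obtain ⟨c1, c2, c3, c4, c5⟩ := hc
      refine (Finset.sum_le_card_nsmul _ _ (p ^ (Y.card + Z.card + Z.card)) fun φ hφ => ?_).trans
        ?_
      · refine (Pr_mono h0 h1 fun ω h => h.2).trans (le_of_eq ?_)
        have hφY : ∀ b ∈ Z, φ b ∈ Y := fun b hb => by
          have := Fintype.mem_piFinset.1 hφ b
          rwa [if_pos hb] at this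
        rw [Pr_subset, Finset.card_union_of_disjoint, Finset.card_image_of_injective,
          Finset.card_image_of_injOn, Finset.card_union_of_disjoint c5]
        · intro b hb b' hb' h
          rcases Sym2.eq_iff.1 h with h | h
          · exact h.2
          · exact absurd hb' (Finset.disjoint_left.1 c5 (h.1 ▸ hφY b hb))
        · exact fun x y h => Sym2.congr_right.1 h
        · rw [Finset.disjoint_left]
          intro e e1 e2
          obtain ⟨u, _, rfl⟩ := Finset.mem_image.1 e1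
          obtain ⟨b, hb, h⟩ := Finset.mem_image.1 e2
          rcases Sym2.eq_iff.1 h with h | h
          · exact c3 (h.1 ▸ hφY b hb)
          · exact c4 (h.2 ▸ hb)
      · have e2 : (Fintype.piFinset fun b => if b ∈ Z then Y else {a}).card = Y.card ^ Z.card := by
          rw [Fintype.card_piFinset]
          simp only [apply_ite Finset.card, Finset.card_singleton]
          rw [Finset.prod_ite_mem, Finset.univ_inter, Finset.prod_const]
        rw [e2, nsmul_eq_mul, Nat.cast_pow]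
        have e3 : ((Y.card : ℝ) * p) ^ Z.card ≤ Real.exp (-(γ * k)) := by
          refine (pow_le_pow_left₀ (by positivity)
            ((mul_le_mul_of_nonneg_right c1 h0).trans hy) _).trans ?_
          rw [← Real.exp_nat_mul]
          exact Real.exp_le_exp.2 (by nlinarith only [hγ, c2])
        calc (Y.card : ℝ) ^ Z.card * p ^ (Y.card + Z.card + Z.card)
            = ((Y.card : ℝ) * p) ^ Z.card * (p ^ Y.card * p ^ Z.card) := by ring
          _ ≤ _ := mul_le_mul_of_nonneg_right e3 (by positivity)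
    · refine le_trans (Finset.sum_nonpos fun φ _ => ?_) (by positivity)
      exact le_trans (Pr_mono h0 h1 (B := fun _ => False) fun ω h => hc h.1) Pr_false.le

lemma mindeg_bound (h0 : 0 ≤ p) (h1 : p ≤ 1) {ε : ℝ} (hε : 0 ≤ ε) :
    Pr p (fun ω : Finset (Sym2 V) => ∃ v ∈ (univ : Finset V),
      dg (gr ω) v ≤ (1 - ε) * (p * Fintype.card V)) ≤
      Fintype.card V * Real.exp (1 - ε ^ 2 / 6 * (p * Fintype.card V)) := by
  refine (Pr_exists_le h0 h1 _ _).trans ?_
  rw [← Finset.card_univ, ← nsmul_eq_mul]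
  refine Finset.sum_le_card_nsmul _ _ _ fun v _ => ?_
  have e := chernoff_low h0 h1 ((univ.erase v).image fun u => s(v, u))
    ((1 - ε) * (p * (univ : Finset V).card)) (u := ε / 2) (by positivity)
  refine le_trans (Pr_mono h0 h1 fun ω h => ?_) (e.trans (Real.exp_le_exp.2 ?_))
  · rw [← nb_eq]; exact h
  · rw [Finset.card_image_of_injective _ fun x y h => Sym2.congr_right.1 h,
      Finset.card_erase_of_mem (Finset.mem_univ v),
      Nat.cast_sub (Finset.card_pos.2 ⟨v, Finset.mem_univ v⟩)]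
    set y := p * ((univ : Finset V).card : ℝ) with hy
    have hy0 : 0 ≤ y := by positivity
    have e1 : ε / 2 / (1 + ε / 2) ≤ 1 := by rw [div_le_one (by positivity)]; linarith only []
    have e2 : ε / 2 * (1 - ε) + ε ^ 2 / 6 ≤ ε / 2 / (1 + ε / 2) := by
      rw [le_div_iff₀ (by positivity)]; nlinarith only [hε, mul_nonneg hε hε, mul_nonneg (mul_nonneg hε hε) hε]
    have e3 := mul_le_mul_of_nonneg_right e2 hy0
    have e4 := mul_le_mul e1 h1 h0 zero_le_one
    have e5 : p * (((univ : Finset V).card : ℝ) - (1 : ℕ)) = y - p := by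
      rw [hy]; push_cast; ring
    rw [e5]
    nlinarith only [e3, e4]

lemma nbS_bound (h0 : 0 ≤ p) (h1 : p ≤ 1) (S : Finset V) (D : ℝ) :
    Pr p (fun ω : Finset (Sym2 V) => ∃ v ∈ (univ : Finset V), D ≤ nb (gr ω) S v) ≤
      Fintype.card V * Real.exp (2 * (p * S.card) - D) := by
  refine (Pr_exists_le h0 h1 _ _).trans ?_
  rw [← Finset.card_univ, ← nsmul_eq_mul]
  refine Finset.sum_le_card_nsmul _ _ _ fun v _ => ?_
  have e := chernoff_up h0 h1 ((S.erase v).image fun u => s(v, u)) D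
  refine le_trans (Pr_mono h0 h1 fun ω h => ?_) (e.trans (Real.exp_le_exp.2 ?_))
  · rw [← nb_eq]; exact h
  · have : ((((S.erase v).image fun u => s(v, u)).card : ℕ) : ℝ) ≤ S.card := by
      exact_mod_cast Finset.card_image_le.trans Finset.card_erase_le
    nlinarith only [h0, this]

lemma triS_bound (h0 : 0 ≤ p) (h1 : p ≤ 1) (S : Finset V) (hS : S.Nonempty) :
    Pr p (fun ω : Finset (Sym2 V) => (S.card : ℝ) / 2 ≤ ∑ a ∈ S, ind (∃ b ∈ S, ∃ c ∈ S,
      (gr ω).Adj a b ∧ (gr ω).Adj a c ∧ (gr ω).Adj b c)) ≤ (p * S.card) ^ 3 / (S.card / 2) := by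
  have hpos : (0 : ℝ) < S.card := by exact_mod_cast hS.card_pos
  refine (markov h0 h1 (fun ω => Finset.sum_nonneg fun _ _ => ind_nonneg _)
    (by positivity)).trans (div_le_div_of_nonneg_right ?_ (by positivity))
  rw [E_sum]
  have e : (p * S.card) ^ 3 = ∑ _a ∈ S, ∑ _b ∈ S, ∑ _c ∈ S, p ^ 3 := by
    simp only [Finset.sum_const, nsmul_eq_mul]; ring
  rw [e]
  refine Finset.sum_le_sum fun a _ => ?_
  refine (Pr_exists_le h0 h1 _ _).trans (Finset.sum_le_sum fun b _ => ?_)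
  refine (Pr_exists_le h0 h1 _ _).trans (Finset.sum_le_sum fun c _ => ?_)
  by_cases h : a ≠ b ∧ a ≠ c ∧ b ≠ c
  · rw [← card_tri h.1 h.2.1 h.2.2, ← Pr_subset]
    refine Pr_mono h0 h1 fun ω hω => ?_
    simp only [Finset.insert_subset_iff, Finset.singleton_subset_iff]
    exact ⟨(gr_adj.1 hω.1).1, (gr_adj.1 hω.2.1).1, (gr_adj.1 hω.2.2).1⟩
  · refine le_trans (Pr_mono h0 h1 (B := fun _ => False)
      fun ω hω => h ⟨hω.1.ne, hω.2.1.ne, hω.2.2.ne⟩) ?_
    rw [Pr_false]; positivity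

lemma indep_bound (h0 : 0 ≤ p) (h1 : p ≤ 1) (S : Finset V) {C : ℝ} (hC : 1 ≤ C)
    (hS : 4 * C ≤ S.card) (hp : 32 * C ^ 2 ≤ p * S.card) :
    Pr p (fun ω : Finset (Sym2 V) => ∃ Z ∈ S.powerset, (S.card : ℝ) ≤ 2 * C * Z.card ∧
      ∀ a ∈ Z, ∀ b ∈ Z, ¬ (gr ω).Adj a b) ≤ Real.exp (-(S.card : ℝ)) := by
  refine (Pr_exists_le h0 h1 _ _).trans
    ((Finset.sum_le_card_nsmul _ _ (Real.exp (-(2 * S.card))) fun Z _ => ?_).trans ?_)
  · by_cases hZ : (S.card : ℝ) ≤ 2 * C * Z.card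
    · have e := Pr_empty_le h0 h1 (Z.offDiag.image Sym2.mk.uncurry)
      refine le_trans (Pr_mono h0 h1 fun ω h => ?_) (e.trans (Real.exp_le_exp.2 ?_))
      · rw [Finset.eq_empty_iff_forall_notMem]
        intro e he
        obtain ⟨e1, e2⟩ := Finset.mem_inter.1 he
        obtain ⟨⟨a, b⟩, hx, rfl⟩ := Finset.mem_image.1 e2
        obtain ⟨x1, x2, x3⟩ := Finset.mem_offDiag.1 hx
        exact h.2 a x1 b x2 (gr_adj.2 ⟨e1, x3⟩)
      · have e1 := Sym2.two_mul_card_image_offDiag Z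
        rw [Finset.offDiag_card] at e1
        have e2 : Z.card * Z.card ≤ 2 * (Z.offDiag.image Sym2.mk.uncurry).card + Z.card := by omega
        have e3 : (Z.card : ℝ) * Z.card ≤
            2 * ((Z.offDiag.image Sym2.mk.uncurry).card : ℝ) + Z.card := by exact_mod_cast e2
        set M : ℝ := ((Z.offDiag.image Sym2.mk.uncurry).card : ℝ)
        set z : ℝ := (Z.card : ℝ)
        set s : ℝ := (S.card : ℝ)
        have hz : 2 ≤ z := by nlinarith only [h1, hC, hp, hZ, hS]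
        have e4 : z * z ≤ 4 * M := by nlinarith only [h1, hC, hp, hZ, e3, hS]
        have hs : 0 ≤ s := by nlinarith only [hC, hS]
        have e5 : s * s ≤ (2 * C * z) * (2 * C * z) := mul_self_le_mul_self hs hZ
        have e6 : s * s ≤ 16 * C ^ 2 * M := by nlinarith only [e5, e4]
        have e7 : 16 * C ^ 2 * (2 * s) ≤ 16 * C ^ 2 * (p * M) := by nlinarith only [hp, h0, e6, hC, hS]
        have e8 : 2 * s ≤ p * M := le_of_mul_le_mul_left e7 (by positivity)
        linarith only [e8]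
    · refine le_trans (Pr_mono h0 h1 (B := fun _ => False) fun ω h => hZ h.1) ?_
      rw [Pr_false]; positivity
  · rw [Finset.card_powerset, nsmul_eq_mul, Nat.cast_pow]
    have e1 : ((2 : ℕ) : ℝ) ^ S.card ≤ Real.exp (S.card : ℝ) := by
      rw [← mul_one (S.card : ℝ), Real.exp_nat_mul]
      exact pow_le_pow_left₀ (by positivity) (by push_cast; linarith [Real.add_one_le_exp 1]) _
    refine (mul_le_mul_of_nonneg_right e1 (by positivity)).trans (le_of_eq ?_)
    rw [← Real.exp_add]; congr 1; ring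

lemma bad_bound (h0 : 0 ≤ p) (h1 : p ≤ 1) (X : V → Finset (Sym2 V) → ℝ) {a b δ : ℝ}
    (ha : 0 < a) (hb : 0 < b) (h : ∀ v, E p (fun ω => |X v ω|) ≤ δ) :
    Pr p (fun ω : Finset (Sym2 V) => b ≤ ∑ v, ind (a ≤ |X v ω|)) ≤
      Fintype.card V * (δ / a) / b := by
  refine (markov h0 h1 (fun ω => Finset.sum_nonneg fun _ _ => ind_nonneg _) hb).trans
    (div_le_div_of_nonneg_right ?_ hb.le)
  rw [E_sum, ← Finset.card_univ, ← nsmul_eq_mul]
  exact Finset.sum_le_card_nsmul _ _ _ fun v _ =>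
    (markov h0 h1 (fun ω => abs_nonneg _) ha).trans (div_le_div_of_nonneg_right (h v) ha.le)

end Pool.Agent.Work.MP_d4a230_co
end
end

-- merged part: Pool.Agent.Work.MP_d4a230_co.HConc
section
-- merged part: Pool.Agent.Work.MP_d4a230_co.HStep
section
namespace Pool.Agent.Work.MP_d4a230_co

open Finset

lemma plant' {ι : Type} [Fintype ι] [DecidableEq ι] {p : ℝ} (T P : Finset ι) (g : Finset ι → ℝ) :
    E p (fun ω => ind (T ⊆ ω ∪ P) * g (ω ∪ P)) =
      p ^ (T \ P).card * E p (fun ω => g (ω ∪ (T ∪ P))) := by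
  have e1 : ∀ ω : Finset ι, ind (T ⊆ ω ∪ P) * g (ω ∪ P) = ind (T \ P ⊆ ω) * g (ω ∪ P) := by
    intro ω
    congr 1
    refine ind_congr ⟨fun h x hx => (Finset.mem_union.1 (h (Finset.mem_sdiff.1 hx).1)).resolve_right
      (Finset.mem_sdiff.1 hx).2, fun h x hx => ?_⟩
    by_cases hc : x ∈ P
    · exact Finset.mem_union_right _ hc
    · exact Finset.mem_union_left _ (h (Finset.mem_sdiff.2 ⟨hx, hc⟩))
  rw [E_congr e1, plant (T \ P) (fun ω => g (ω ∪ P))]
  congr 1
  exact E_congr fun ω => by rw [Finset.union_assoc, Finset.sdiff_union_self_eq_union]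

/-- An edge with an excluded copy and a depth. -/
abbrev HItem (V : Type) := Sym2 V × Finset (Sym2 V) × ℕ

variable {V : Type} [DecidableEq V] {𝒞 : Finset (Finset (Sym2 V))} {h k K0 : ℕ}

/-- All messages of the items are positive. -/
def hholds (𝒞 : Finset (Finset (Sym2 V))) (P : Finset (Sym2 V)) (I : Finset (HItem V))
    (ω : Finset (Sym2 V)) : Prop := ∀ i ∈ I, HF 𝒞 (ω ∪ P) i.2.2 i.1 i.2.1

/-- Tree-like configurations. -/
def HValid (𝒞 : Finset (Finset (Sym2 V))) (P : Finset (Sym2 V)) (I : Finset (HItem V)) : Prop :=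
  (∀ i ∈ I, ¬ i.1.IsDiag ∧ i.1 ∈ P ∧ ∀ T ∈ 𝒞, i.1 ∈ T → T ⊆ P → T = i.2.1) ∧
  ∀ i ∈ I, ∀ j ∈ I, i.1 = j.1 → i = j

omit [DecidableEq V] in
lemma HValid.card_le {P : Finset (Sym2 V)} {I : Finset (HItem V)} (h : HValid 𝒞 P I) :
    I.card ≤ P.card :=
  Finset.card_le_card_of_injOn (fun i => i.1) (fun i hi => (h.1 i hi).2.1)
    fun i hi j hj hij => h.2 i hi j hj hij

/-- Number of present copies through `e`. -/
noncomputable def cY (𝒞 : Finset (Finset (Sym2 V))) (e : Sym2 V) (ω : Finset (Sym2 V)) : ℝ :=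
  ∑ T ∈ 𝒞.filter (fun T => e ∈ T), ind (T ⊆ ω)

lemma cY_nonneg (e : Sym2 V) (ω : Finset (Sym2 V)) : 0 ≤ cY 𝒞 e ω :=
  Finset.sum_nonneg fun _ _ => ind_nonneg _

/-- New items. -/
def HIW (e : Sym2 V) (t : ℕ) (W : Finset (Finset (Sym2 V))) : Finset (HItem V) :=
  W.biUnion fun T => (T.erase e).image fun g => (g, T, t)

lemma mem_HIW {e : Sym2 V} {t : ℕ} {W : Finset (Finset (Sym2 V))} {i : HItem V} :
    i ∈ HIW e t W ↔ ∃ T ∈ W, ∃ g ∈ T, g ≠ e ∧ i = (g, T, t) := by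
  unfold HIW
  simp only [Finset.mem_biUnion, Finset.mem_image, Finset.mem_erase]
  constructor
  · rintro ⟨T, h1, g, ⟨h2, h3⟩, rfl⟩; exact ⟨T, h1, g, h3, h2, rfl⟩
  · rintro ⟨T, h1, g, h3, h2, rfl⟩; exact ⟨T, h1, g, ⟨h2, h3⟩, rfl⟩

/-- A family of fresh copies through `e`, pairwise meeting only in `e`. -/
def Petals (𝒞 : Finset (Finset (Sym2 V))) (P : Finset (Sym2 V)) (e : Sym2 V)
    (W : Finset (Finset (Sym2 V))) : Prop :=
  (∀ T ∈ W, T ∈ 𝒞 ∧ e ∈ T ∧ ∀ x ∈ vs P, x ∈ vs T → x ∈ e) ∧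
    ∀ T ∈ W, ∀ T' ∈ W, T ≠ T' → ∀ x ∈ vs T, x ∈ vs T' → x ∈ e

lemma Sys.eq_of_fresh (S : Sys 𝒞 h k K0) {T P : Finset (Sym2 V)} {e g : Sym2 V} (hT : T ∈ 𝒞)
    (hP : ∀ x ∈ vs P, x ∈ vs T → x ∈ e) (h1 : g ∈ T) (h2 : g ∈ P) : g = e :=
  sym2_eq_of_subset (S.nd T hT g h1) fun x hx =>
    hP x (mem_vs.2 ⟨g, h2, hx⟩) (mem_vs.2 ⟨g, h1, hx⟩)

lemma Petals.eq (S : Sys 𝒞 h k K0) {P : Finset (Sym2 V)} {e g : Sym2 V}
    {W : Finset (Finset (Sym2 V))} (hW : Petals 𝒞 P e W) {T T' : Finset (Sym2 V)} (h1 : T ∈ W)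
    (h2 : T' ∈ W) (g1 : g ∈ T) (g2 : g ∈ T') (hge : g ≠ e) : T = T' := by
  by_contra hne
  exact hge (S.eq_of_fresh (hW.1 T h1).1 (fun x x1 x2 => hW.2 T h1 T' h2 hne x x2 x1) g1 g2)

lemma Petals.sub (S : Sys 𝒞 h k K0) {P : Finset (Sym2 V)} {e : Sym2 V} (he : e ∈ P)
    {W : Finset (Finset (Sym2 V))} (hW : Petals 𝒞 P e W) {T' : Finset (Sym2 V)} (hT' : T' ∈ 𝒞)
    (hsub : T' ⊆ W.biUnion id ∪ P) : T' ⊆ P ∨ T' ∈ W := by
  by_cases hc : ∃ T ∈ W, ∃ x ∈ vs T', x ∈ vs T ∧ x ∉ e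
  · obtain ⟨T, hT, x, x1, x2, x3⟩ := hc
    refine Or.inr ?_
    rw [S.split (P := (W.erase T).biUnion id ∪ P) (hW.1 T hT).1 hT' (hW.1 T hT).2.1 ?_ ?_ x1 x2 x3]
    · exact hT
    · intro y hy hyT
      obtain ⟨g, hg, hyg⟩ := mem_vs.1 hy
      rcases Finset.mem_union.1 hg with hg | hg
      · obtain ⟨T'', h1, h2⟩ := Finset.mem_biUnion.1 hg
        exact hW.2 T'' (Finset.mem_of_mem_erase h1) T hT (Finset.mem_erase.1 h1).1 y
          (mem_vs.2 ⟨g, h2, hyg⟩) hyT
      · exact (hW.1 T hT).2.2 y (mem_vs.2 ⟨g, hg, hyg⟩) hyT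
    · intro g hg
      rcases Finset.mem_union.1 (hsub hg) with hg | hg
      · obtain ⟨T'', h1, h2⟩ := Finset.mem_biUnion.1 hg
        by_cases h3 : T'' = T
        · exact Finset.mem_union_right _ (h3 ▸ h2)
        · exact Finset.mem_union_left _ (Finset.mem_union_left _
            (Finset.mem_biUnion.2 ⟨T'', Finset.mem_erase.2 ⟨h3, h1⟩, h2⟩))
      · exact Finset.mem_union_left _ (Finset.mem_union_right _ hg)
  · refine Or.inl fun g hg => ?_
    rcases Finset.mem_union.1 (hsub hg) with hg' | hg'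
    · obtain ⟨T, h1, h2⟩ := Finset.mem_biUnion.1 hg'
      rw [sym2_eq_of_subset (g := e) (S.nd T' hT' g hg) fun x hx => by_contra fun hx' =>
        hc ⟨T, h1, x, mem_vs.2 ⟨g, hg, hx⟩, mem_vs.2 ⟨g, h2, hx⟩, hx'⟩]
      exact he
    · exact hg'

lemma hvalid_step (S : Sys 𝒞 h k K0) {P : Finset (Sym2 V)} {I : Finset (HItem V)}
    (hV : HValid 𝒞 P I) {i0 : HItem V} (hi : i0 ∈ I) (t : ℕ) {W : Finset (Finset (Sym2 V))}
    (hW : Petals 𝒞 P i0.1 W) : HValid 𝒞 (W.biUnion id ∪ P) (HIW i0.1 t W ∪ I.erase i0) := by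
  have he := (hV.1 i0 hi).2.1
  have hnP : ∀ T ∈ W, ∀ g ∈ T, g ≠ i0.1 → g ∉ P := fun T hT g hg hge hP =>
    hge (S.eq_of_fresh (hW.1 T hT).1 (hW.1 T hT).2.2 hg hP)
  constructor
  · intro i hi'
    rcases Finset.mem_union.1 hi' with hi' | hi'
    · obtain ⟨T, hT, g, hg, hge, rfl⟩ := mem_HIW.1 hi'
      refine ⟨S.nd T (hW.1 T hT).1 g hg,
        Finset.mem_union_left _ (Finset.mem_biUnion.2 ⟨T, hT, hg⟩), fun T' h1 h2 h3 => ?_⟩
      rcases hW.sub S he h1 h3 with h4 | h4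
      · exact absurd (h4 h2) (hnP T hT g hg hge)
      · exact hW.eq S h4 hT h2 hg hge
    · obtain ⟨hne, hi'⟩ := Finset.mem_erase.1 hi'
      obtain ⟨h1, h2, h3⟩ := hV.1 i hi'
      refine ⟨h1, Finset.mem_union_right _ h2, fun T' t1 t2 t3 => ?_⟩
      rcases hW.sub S he t1 t3 with h4 | h4
      · exact h3 T' t1 t2 h4
      · exact absurd h2 (hnP T' h4 _ t2 fun h5 => hne (hV.2 i hi' i0 hi h5))
  · have hmix : ∀ i ∈ HIW i0.1 t W, ∀ j ∈ I, i.1 ≠ j.1 := by
      intro i hi' j hj he'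
      obtain ⟨T, hT, g, hg, hge, rfl⟩ := mem_HIW.1 hi'
      exact hnP T hT g hg hge (by simp only at he'; rw [he']; exact (hV.1 j hj).2.1)
    intro i hi' j hj he'
    rcases Finset.mem_union.1 hi' with hi' | hi' <;> rcases Finset.mem_union.1 hj with hj | hj
    · obtain ⟨T, hT, g, hg, hge, rfl⟩ := mem_HIW.1 hi'
      obtain ⟨T', hT', g', hg', _, rfl⟩ := mem_HIW.1 hj
      simp only at he'
      subst he'
      rw [hW.eq S hT hT' hg hg' hge]
    · exact absurd he' (hmix i hi' j (Finset.mem_of_mem_erase hj))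
    · exact absurd he'.symm (hmix j hj i (Finset.mem_of_mem_erase hi'))
    · exact hV.2 i (Finset.mem_of_mem_erase hi') j (Finset.mem_of_mem_erase hj) he'

lemma Petals.card (S : Sys 𝒞 h k K0) {P : Finset (Sym2 V)} {e : Sym2 V} (he : e ∈ P)
    {W : Finset (Finset (Sym2 V))} (hW : Petals 𝒞 P e W) :
    (W.biUnion id \ P).card = (k - 1) * W.card := by
  have : W.biUnion id \ P = W.biUnion fun T => T.erase e := by
    ext g
    simp only [Finset.mem_sdiff, Finset.mem_biUnion, id, Finset.mem_erase]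
    constructor
    · rintro ⟨⟨T, h1, h2⟩, h3⟩
      exact ⟨T, h1, fun h => h3 (h ▸ he), h2⟩
    · rintro ⟨T, h1, h2, h3⟩
      exact ⟨⟨T, h1, h3⟩, fun h => h2 (S.eq_of_fresh (hW.1 T h1).1 (hW.1 T h1).2.2 h3 h)⟩
  rw [this, Finset.card_biUnion, Finset.sum_const_nat (m := k - 1), mul_comm]
  · intro T hT
    rw [Finset.card_erase_of_mem (hW.1 T hT).2.1, S.card T (hW.1 T hT).1]
  · intro T hT T' hT' hne
    refine Finset.disjoint_left.2 fun g g1 g2 => hne ?_
    exact hW.eq S hT hT' (Finset.mem_of_mem_erase g1) (Finset.mem_of_mem_erase g2)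
      (Finset.mem_erase.1 g1).1

lemma prod_HIW (S : Sys 𝒞 h k K0) {P : Finset (Sym2 V)} {I : Finset (HItem V)}
    (hV : HValid 𝒞 P I) (i0 : HItem V) (t : ℕ) {W : Finset (Finset (Sym2 V))}
    (hW : Petals 𝒞 P i0.1 W) (x : ℕ → ℝ) :
    ∏ i ∈ HIW i0.1 t W ∪ I.erase i0, x i.2.2 =
      (x t ^ (k - 1)) ^ W.card * ∏ i ∈ I.erase i0, x i.2.2 := by
  rw [Finset.prod_union]
  · congr 1
    unfold HIW
    rw [Finset.prod_biUnion, ← Finset.prod_const]
    · refine Finset.prod_congr rfl fun T hT => ?_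
      rw [Finset.prod_image (fun _ _ _ _ h => congrArg Prod.fst h)]
      simp only [Finset.prod_const]
      rw [Finset.card_erase_of_mem (hW.1 T hT).2.1, S.card T (hW.1 T hT).1]
    · intro T _ T' _ hne
      refine Finset.disjoint_left.2 fun i i1 i2 => hne ?_
      obtain ⟨g, _, rfl⟩ := Finset.mem_image.1 i1
      obtain ⟨g', _, h'⟩ := Finset.mem_image.1 i2
      exact (congrArg (fun i : HItem V => i.2.1) h').symm
  · refine Finset.disjoint_left.2 fun i h1 h2 => ?_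
    obtain ⟨T, hT, g, hg, hge, rfl⟩ := mem_HIW.1 h1
    exact hge (S.eq_of_fresh (hW.1 T hT).1 (hW.1 T hT).2.2 hg
      (hV.1 _ (Finset.mem_of_mem_erase h2)).2.1)

lemma two_le_inter {T P : Finset (Sym2 V)} {e : Sym2 V} (he : ¬ e.IsDiag) (h1 : e ∈ T)
    (h2 : e ∈ P) : 2 ≤ (vs T ∩ vs P).card := by
  rw [← Sym2.card_toFinset_of_not_isDiag _ he]
  exact Finset.card_le_card fun x hx => Finset.mem_inter.2
    ⟨mem_vs.2 ⟨e, h1, Sym2.mem_toFinset.1 hx⟩, mem_vs.2 ⟨e, h2, Sym2.mem_toFinset.1 hx⟩⟩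

lemma three_le_inter {T P : Finset (Sym2 V)} {e : Sym2 V} (he : ¬ e.IsDiag) (h1 : e ∈ T)
    (h2 : e ∈ P) {x : V} (x1 : x ∈ vs T) (x2 : x ∈ vs P) (x3 : x ∉ e) :
    3 ≤ (vs T ∩ vs P).card := by
  have : (insert x e.toFinset).card = 3 := by
    rw [Finset.card_insert_of_notMem (fun h => x3 (Sym2.mem_toFinset.1 h)),
      Sym2.card_toFinset_of_not_isDiag _ he]
  rw [← this]
  exact Finset.card_le_card (Finset.insert_subset (Finset.mem_inter.2 ⟨x1, x2⟩)
    fun x hx => Finset.mem_inter.2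
      ⟨mem_vs.2 ⟨e, h1, Sym2.mem_toFinset.1 hx⟩, mem_vs.2 ⟨e, h2, Sym2.mem_toFinset.1 hx⟩⟩)

variable [Fintype V] {p : ℝ}

lemma moment_bound (S : Sys 𝒞 h k K0) (h0 : 0 ≤ p) {e : Sym2 V} {M : ℕ} {c : ℝ}
    (hc0 : 0 ≤ c)
    (hc : ∀ P : Finset (Sym2 V), e ∈ P → P.card ≤ M →
      ∑ T ∈ 𝒞.filter (fun T => e ∈ T), p ^ (T \ P).card ≤ c) (j : ℕ) :
    ∀ P : Finset (Sym2 V), e ∈ P → P.card + j * k ≤ M →
      E p (fun ω => (1 + cY 𝒞 e (ω ∪ P)) ^ j) ≤ (1 + c) ^ j := by
  induction j with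
  | zero => intro P _ _; simp [E_const]
  | succ j ih =>
    intro P hP hM
    have e1 : ∀ ω, (1 + cY 𝒞 e (ω ∪ P)) ^ (j + 1) = (1 + cY 𝒞 e (ω ∪ P)) ^ j +
        ∑ T ∈ 𝒞.filter (fun T => e ∈ T), ind (T ⊆ ω ∪ P) * (1 + cY 𝒞 e (ω ∪ P)) ^ j := by
      intro ω
      rw [← Finset.sum_mul, pow_succ]
      unfold cY; ring
    rw [E_congr e1, E_add, E_sum]
    have hM' : P.card + k + j * k ≤ M := by rw [Nat.succ_mul] at hM; omega
    have e2 : ∑ T ∈ 𝒞.filter (fun T => e ∈ T),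
        E p (fun ω => ind (T ⊆ ω ∪ P) * (1 + cY 𝒞 e (ω ∪ P)) ^ j) ≤ c * (1 + c) ^ j := by
      refine le_trans ?_ (mul_le_mul_of_nonneg_right (hc P hP (by omega)) (by positivity))
      rw [Finset.sum_mul]
      refine Finset.sum_le_sum fun T hT => ?_
      rw [plant' T P (fun ω => (1 + cY 𝒞 e ω) ^ j)]
      refine mul_le_mul_of_nonneg_left (ih _ (Finset.mem_union_right _ hP) ?_) (by positivity)
      have := Finset.card_union_le T P
      rw [S.card T (Finset.mem_filter.1 hT).1] at this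
      omega
    have e3 := ih P hP (by omega)
    rw [pow_succ]; linarith only [e2, e3]

lemma hstep_bound (S : Sys 𝒞 h k K0) (h0 : 0 ≤ p) (h1 : p ≤ 1) {P : Finset (Sym2 V)}
    {I : Finset (HItem V)} (hV : HValid 𝒞 P I) {i0 : HItem V} (hi : i0 ∈ I) {t : ℕ}
    (ht : i0.2.2 = t + 1) (x : ℕ → ℝ) (J : ℕ) {ε β Cm : ℝ} (hβ0 : 0 ≤ β) (hCm : 0 ≤ Cm)
    (Fr : Finset (Finset (Sym2 V)))
    (hFr : ∀ T, T ∈ Fr ↔ T ∈ 𝒞 ∧ i0.1 ∈ T ∧ (∀ x ∈ vs P, x ∈ vs T → x ∈ i0.1) ∧ T ≠ i0.2.1)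
    (DW : ℕ → Finset (Finset (Finset (Sym2 V))))
    (hDW : ∀ j W, W ∈ DW j ↔ W ∈ Fr.powersetCard j ∧ Petals 𝒞 P i0.1 W)
    (hβ : ∀ P' : Finset (Sym2 V), P'.card ≤ P.card + k → ∀ 𝓑 : Finset (Finset (Sym2 V)),
      (∀ T ∈ 𝓑, T ∈ 𝒞 ∧ 3 ≤ (vs T ∩ vs P').card ∧ ¬ T ⊆ P') → ∑ T ∈ 𝓑, p ^ (T \ P').card ≤ β)
    (hm : ∀ P' : Finset (Sym2 V), i0.1 ∈ P' → P'.card ≤ P.card + 2 * k →
      E p (fun ω => (1 + cY 𝒞 i0.1 (ω ∪ P')) ^ J) ≤ Cm)
    (hIH : ∀ j ≤ J, ∀ W ∈ DW j,
      |Pr p (hholds 𝒞 (W.biUnion id ∪ P) (HIW i0.1 t W ∪ I.erase i0)) -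
        ∏ i ∈ HIW i0.1 t W ∪ I.erase i0, x i.2.2| ≤ ε) :
    (|Pr p (hholds 𝒞 P I) - (∏ i ∈ I.erase i0, x i.2.2) * ∑ j ∈ range (J + 1),
        (-1 : ℝ) ^ j * (((DW j).card : ℝ) * (p ^ (k - 1)) ^ j) * (x t ^ (k - 1)) ^ j| ≤
      (J + 2) * Cm * β * (1 + Fr.card * p ^ (k - 1)) +
        ((DW (J + 1)).card : ℝ) * (p ^ (k - 1)) ^ (J + 1) +
        ε * ∑ j ∈ range (J + 1), ((DW j).card : ℝ) * (p ^ (k - 1)) ^ j) ∧
    ((𝒞.filter fun T => i0.1 ∈ T).card * p ^ (k - 1) ≤
      Fr.card * p ^ (k - 1) + β + p ^ (k - 1)) ∧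
    ∀ j, (Fr.card.choose j : ℝ) * (p ^ (k - 1)) ^ j ≤ ((DW j).card : ℝ) * (p ^ (k - 1)) ^ j +
      (1 + Fr.card * p ^ (k - 1)) ^ j * β := by
  classical
  obtain ⟨e, X0, t0⟩ := i0
  simp only at ht hFr hIH hDW hm ⊢
  subst ht
  obtain ⟨hnd, heP, hval⟩ := hV.1 _ hi
  simp only at hnd heP hval
  set q := p ^ (k - 1) with hq
  have hq0 : 0 ≤ q := pow_nonneg h0 _
  set r := ∏ i ∈ I.erase (e, X0, t + 1), x i.2.2 with hr
  let NF := 𝒞.filter fun T => e ∈ T ∧ T ≠ X0 ∧ T ∉ Fr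
  let Ov : Finset (Sym2 V) → Finset (Finset (Sym2 V)) := fun T =>
    Fr.filter fun T' => T' ≠ T ∧ ∃ x ∈ vs T', x ∈ vs T ∧ x ∉ e
  have hNF : ∑ T ∈ NF, p ^ (T \ P).card ≤ β := by
    refine hβ P (by omega) NF fun T hT => ?_
    obtain ⟨t1, t2, t3, t4⟩ := Finset.mem_filter.1 hT
    refine ⟨t1, ?_, fun h => t3 (hval T t1 t2 h)⟩
    by_contra hc
    exact t4 ((hFr T).2 ⟨t1, t2, fun x x1 x2 => by_contra fun x3 =>
      hc (three_le_inter hnd t2 heP x2 x1 x3), t3⟩)
  have hcardTP : ∀ T ∈ 𝒞, (T ∪ P).card ≤ P.card + k := fun T hT => by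
    have := Finset.card_union_le T P
    rw [S.card T hT] at this; omega
  have hOv : ∀ T ∈ Fr, ∑ T' ∈ Ov T, p ^ (T' \ (T ∪ P)).card ≤ β := by
    intro T hT
    obtain ⟨t1, t2, t3, _⟩ := (hFr T).1 hT
    refine hβ _ (hcardTP T t1) _ fun T' hT' => ?_
    obtain ⟨s1, s2, y, y1, y2, y3⟩ := Finset.mem_filter.1 hT'
    obtain ⟨s3, s4, _⟩ := (hFr T').1 s1
    exact ⟨s3, three_le_inter hnd s4 (Finset.mem_union_right _ heP) y1
      (vs_mono Finset.subset_union_left y2) y3,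
      fun h => s2 (S.split t1 s3 t2 t3 (by rwa [Finset.union_comm]) y1 y2 y3)⟩
  have hqle : ∀ T ∈ 𝒞, e ∈ T → ∀ P' : Finset (Sym2 V), e ∈ P' → q ≤ p ^ (T \ P').card := by
    intro T hT he P' he'
    refine pow_le_pow_of_le_one h0 h1 ?_
    rw [← S.card T hT, ← Finset.card_erase_of_mem he]
    exact Finset.card_le_card fun g hg => Finset.mem_erase.2
      ⟨fun h => (Finset.mem_sdiff.1 hg).2 (h ▸ he'), (Finset.mem_sdiff.1 hg).1⟩
  have hFrq : ∀ T ∈ Fr, p ^ (T \ P).card = q := by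
    intro T hT
    obtain ⟨t1, t2, t3, _⟩ := (hFr T).1 hT
    have := Petals.card S heP (W := {T}) ⟨by simpa using ⟨t1, t2, t3⟩, by simp⟩
    simp only [Finset.singleton_biUnion, id, Finset.card_singleton, mul_one] at this
    rw [this]
  refine ⟨?_, ?_, ?_⟩
  swap
  · have e1 : (𝒞.filter fun T => e ∈ T) ⊆ insert X0 (Fr ∪ NF) := by
      intro T hT
      obtain ⟨t1, t2⟩ := Finset.mem_filter.1 hT
      by_cases c1 : T = X0
      · exact Finset.mem_insert.2 (Or.inl c1)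
      · refine Finset.mem_insert_of_mem ?_
        by_cases c2 : T ∈ Fr
        · exact Finset.mem_union_left _ c2
        · exact Finset.mem_union_right _ (Finset.mem_filter.2 ⟨t1, t2, c1, c2⟩)
    have e2 := (Finset.card_le_card e1).trans ((Finset.card_insert_le _ _).trans
      (Nat.succ_le_succ (Finset.card_union_le _ _)))
    have e3 : ((𝒞.filter fun T => e ∈ T).card : ℝ) ≤ Fr.card + NF.card + 1 := by
      exact_mod_cast e2
    have e4 : (NF.card : ℝ) * q ≤ β := by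
      rw [← nsmul_eq_mul]
      exact (Finset.card_nsmul_le_sum _ _ _ fun T hT =>
        hqle T (Finset.mem_filter.1 hT).1 (Finset.mem_filter.1 hT).2.1 P heP).trans hNF
    nlinarith only [e4, hq0, e3]
  swap
  · intro j
    have e4 : ∀ T ∈ Fr, ((Ov T).card : ℝ) * q ≤ β := by
      intro T hT
      rw [← nsmul_eq_mul]
      refine (Finset.card_nsmul_le_sum _ _ _ fun T' hT' => ?_).trans (hOv T hT)
      obtain ⟨s3, s4, _⟩ := (hFr T').1 (Finset.mem_filter.1 hT').1
      exact hqle T' s3 s4 _ (Finset.mem_union_right _ heP)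
    have e1 : Fr.powersetCard j ⊆ DW j ∪ Fr.biUnion fun T => (Ov T).biUnion fun T' =>
        (Fr.powersetCard j).filter fun W => {T, T'} ⊆ W := by
      intro W hW
      by_cases c : Petals 𝒞 P e W
      · exact Finset.mem_union_left _ ((hDW j W).2 ⟨hW, c⟩)
      · refine Finset.mem_union_right _ ?_
        have hWF := (Finset.mem_powersetCard.1 hW).1
        by_contra hc
        refine c ⟨fun T hT => ?_, fun T hT T' hT' hne y y1 y2 => by_contra fun y3 => hc ?_⟩
        · obtain ⟨t1, t2, t3, _⟩ := (hFr T).1 (hWF hT)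
          exact ⟨t1, t2, t3⟩
        · exact Finset.mem_biUnion.2 ⟨T, hWF hT, Finset.mem_biUnion.2 ⟨T',
            Finset.mem_filter.2 ⟨hWF hT', hne.symm, y, y2, y1, y3⟩, Finset.mem_filter.2
              ⟨hW, Finset.insert_subset hT (Finset.singleton_subset_iff.2 hT')⟩⟩⟩
    have e2 := (Finset.card_le_card e1).trans ((Finset.card_union_le _ _).trans
      (Nat.add_le_add_left (Finset.card_biUnion_le.trans
        (Finset.sum_le_sum fun T _ => Finset.card_biUnion_le)) _))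
    rw [Finset.card_powersetCard] at e2
    have e3 : (Fr.card.choose j : ℝ) ≤ (DW j).card + ∑ T ∈ Fr, ∑ T' ∈ Ov T,
        (((Fr.powersetCard j).filter fun W => {T, T'} ⊆ W).card : ℝ) := by exact_mod_cast e2
    have e5 : (∑ T ∈ Fr, ∑ T' ∈ Ov T,
        (((Fr.powersetCard j).filter fun W => {T, T'} ⊆ W).card : ℝ)) * q ^ j ≤
        (1 + Fr.card * q) ^ j * β := by
      by_cases hj : j < 2
      · rw [Finset.sum_eq_zero, zero_mul]
        · (clear * - h0 hβ0; positivity)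
        · intro T _
          refine Finset.sum_eq_zero fun T' hT' => ?_
          rw [Nat.cast_eq_zero, Finset.card_eq_zero, Finset.filter_eq_empty_iff]
          intro W hW hsub
          have := Finset.card_le_card hsub
          rw [Finset.card_pair (Finset.mem_filter.1 hT').2.1.symm,
            (Finset.mem_powersetCard.1 hW).2] at this
          omega
      · obtain ⟨i, rfl⟩ : ∃ i, j = i + 2 := ⟨j - 2, by omega⟩
        have f1 : ∀ T ∈ Fr, (∑ T' ∈ Ov T,
            (((Fr.powersetCard (i + 2)).filter fun W => {T, T'} ⊆ W).card : ℝ)) * q ≤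
            (Fr.card : ℝ) ^ i * β := by
          intro T hT
          have f2 : ∑ T' ∈ Ov T,
              (((Fr.powersetCard (i + 2)).filter fun W => {T, T'} ⊆ W).card : ℝ) ≤
              (Ov T).card * (Fr.card : ℝ) ^ i := by
            rw [← nsmul_eq_mul]
            refine Finset.sum_le_card_nsmul _ _ _ fun T' hT' => ?_
            obtain ⟨s1, s2, _⟩ := Finset.mem_filter.1 hT'
            have c2 := Finset.card_pair s2.symm
            rw [Finset.card_filter_powersetCard_subset _ _ _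
              (Finset.insert_subset hT (Finset.singleton_subset_iff.2 s1)) (by omega), c2,
              Nat.add_sub_cancel]
            exact_mod_cast (Nat.choose_le_pow _ _).trans (Nat.pow_le_pow_left (Nat.sub_le _ _) _)
          have f3 := mul_le_mul_of_nonneg_left (e4 T hT)
            (show 0 ≤ (Fr.card : ℝ) ^ i by (clear * -; positivity))
          nlinarith only [f3, f2, hq0, mul_le_mul_of_nonneg_right f2 hq0]
        have f4 := Finset.sum_le_card_nsmul _ _ _ f1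
        rw [← Finset.sum_mul, nsmul_eq_mul] at f4
        have f5 := mul_le_mul_of_nonneg_right f4 (pow_nonneg hq0 (i + 1))
        have f6 : (Fr.card * q) ^ (i + 1) ≤ (1 + Fr.card * q) ^ (i + 2) :=
          (pow_le_pow_left₀ (by (clear * - h0; positivity)) (by linarith only []) _).trans
            (pow_le_pow_right₀ (by linarith only [hq0, mul_nonneg (Nat.cast_nonneg (α := ℝ) Fr.card) hq0])
              (Nat.le_succ _))
        calc _ = _ * q * q ^ (i + 1) := by ring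
          _ ≤ _ := f5
          _ = (Fr.card * q) ^ (i + 1) * β := by ring
          _ ≤ _ := mul_le_mul_of_nonneg_right f6 hβ0
    nlinarith only [e5, e3, hq0, mul_le_mul_of_nonneg_right e3 (pow_nonneg hq0 j)]
  let good : Finset (Sym2 V) → Finset (Sym2 V) → Prop := fun ω T =>
    T ⊆ ω ∪ P ∧ ∀ g ∈ T, g ≠ e → HF 𝒞 (ω ∪ P) t g T
  let D : ℕ → Finset (Sym2 V) → ℝ := fun j ω => ∑ W ∈ DW j, ind (∀ T ∈ W, good ω T)
  let rest : Finset (Sym2 V) → ℝ := fun ω => ind (hholds 𝒞 P (I.erase (e, X0, t + 1)) ω)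
  have hQ : ∀ W ω, (∀ T ∈ W, good ω T) ↔
      W.biUnion id ⊆ ω ∪ P ∧ hholds 𝒞 P (HIW e t W) ω := by
    intro W ω
    constructor
    · intro h
      refine ⟨Finset.biUnion_subset.2 fun T hT => (h T hT).1, fun i hi' => ?_⟩
      obtain ⟨T, hT, g, hg, hge, rfl⟩ := mem_HIW.1 hi'
      exact (h T hT).2 g hg hge
    · rintro ⟨h, h'⟩ T hT
      exact ⟨Finset.biUnion_subset.1 h T hT, fun g hg hge =>
        h' _ (mem_HIW.2 ⟨T, hT, g, hg, hge, rfl⟩)⟩
  have hpow : ∀ j, ∀ W ∈ DW j, p ^ (W.biUnion id \ P).card = q ^ j := by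
    intro j W hW
    obtain ⟨w1, w2⟩ := (hDW j W).1 hW
    rw [w2.card S heP, pow_mul, (Finset.mem_powersetCard.1 w1).2]
  have hmom : ∀ j ≤ J, |E p (fun ω => D j ω * rest ω) -
      ((DW j).card : ℝ) * q ^ j * ((x t ^ (k - 1)) ^ j * r)| ≤ ε * (((DW j).card : ℝ) * q ^ j) := by
    intro j hj
    have e1 : ∀ ω, D j ω * rest ω = ∑ W ∈ DW j, ind (W.biUnion id ⊆ ω ∪ P) *
        ind (∀ i ∈ HIW e t W ∪ I.erase (e, X0, t + 1), HF 𝒞 (ω ∪ P) i.2.2 i.1 i.2.1) := by
      intro ω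
      simp only [D]
      rw [Finset.sum_mul]
      refine Finset.sum_congr rfl fun W _ => ?_
      rw [hQ W, ind_and, mul_assoc, ← ind_and]
      congr 1
      refine ind_congr ?_
      unfold hholds
      simp only [Finset.mem_union, or_imp, forall_and]
    rw [E_congr e1, E_sum]
    have e2 : ((DW j).card : ℝ) * q ^ j * ((x t ^ (k - 1)) ^ j * r) =
        ∑ _W ∈ DW j, q ^ j * ((x t ^ (k - 1)) ^ j * r) := by
      rw [Finset.sum_const, nsmul_eq_mul]; ring
    have e3 : ε * (((DW j).card : ℝ) * q ^ j) = ∑ _W ∈ DW j, q ^ j * ε := by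
      rw [Finset.sum_const, nsmul_eq_mul]; ring
    rw [e2, e3, ← Finset.sum_sub_distrib]
    refine (Finset.abs_sum_le_sum_abs _ _).trans (Finset.sum_le_sum fun W hW => ?_)
    rw [plant' (W.biUnion id) P (fun ω => ind (∀ i ∈ HIW e t W ∪ I.erase (e, X0, t + 1),
      HF 𝒞 ω i.2.2 i.1 i.2.1)), hpow j W hW, ← mul_sub, abs_mul, abs_of_nonneg (by positivity)]
    refine mul_le_mul_of_nonneg_left ?_ (by positivity)
    have e4 := hIH j hj W hW
    obtain ⟨w1, w2⟩ := (hDW j W).1 hW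
    have e5 := prod_HIW S hV (e, X0, t + 1) t w2 x
    simp only at e5
    rw [e5, (Finset.mem_powersetCard.1 w1).2] at e4
    exact e4
  have hlast : E p (D (J + 1)) ≤ ((DW (J + 1)).card : ℝ) * q ^ (J + 1) := by
    simp only [D]
    rw [E_sum, ← nsmul_eq_mul]
    refine Finset.sum_le_card_nsmul _ _ _ fun W hW => ?_
    have := plant' (p := p) (W.biUnion id) P (fun _ => 1)
    rw [E_const, mul_one, hpow _ W hW] at this
    rw [← this]
    exact E_mono h0 h1 fun ω => by rw [mul_one]; exact ind_mono fun h => ((hQ W ω).1 h).1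
  let Z : Finset (Sym2 V) → ℝ := fun ω => (1 + cY 𝒞 e ω) ^ J
  have hZ0 : ∀ ω, 0 ≤ Z ω := fun ω => pow_nonneg (by linarith [cY_nonneg (𝒞 := 𝒞) e ω]) _
  let bad : Finset (Sym2 V) → ℝ := fun ω => ∑ T ∈ NF, ind (T ⊆ ω ∪ P) * Z (ω ∪ P) +
    ∑ T ∈ Fr, ∑ T' ∈ Ov T, ind (T ⊆ ω ∪ P) * (ind (T' ⊆ ω ∪ P) * Z (ω ∪ P))
  have hbad : E p bad ≤ Cm * β * (1 + Fr.card * q) := by
    simp only [bad]
    rw [E_add, E_sum, E_sum]
    have e1 : ∑ T ∈ NF, E p (fun ω => ind (T ⊆ ω ∪ P) * Z (ω ∪ P)) ≤ Cm * β := by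
      refine le_trans ?_ (mul_le_mul_of_nonneg_left hNF hCm)
      rw [Finset.mul_sum]
      refine Finset.sum_le_sum fun T hT => ?_
      rw [plant' T P Z, mul_comm]
      exact mul_le_mul_of_nonneg_right (hm _ (Finset.mem_union_right _ heP)
        ((hcardTP T (Finset.mem_filter.1 hT).1).trans (by omega))) (by positivity)
    have e2 : ∑ T ∈ Fr, E p (fun ω => ∑ T' ∈ Ov T,
        ind (T ⊆ ω ∪ P) * (ind (T' ⊆ ω ∪ P) * Z (ω ∪ P))) ≤ Fr.card * (q * (Cm * β)) := by
      rw [← nsmul_eq_mul]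
      refine Finset.sum_le_card_nsmul _ _ _ fun T hT => ?_
      rw [E_sum]
      refine le_trans ?_ (mul_le_mul_of_nonneg_left
        (mul_le_mul_of_nonneg_left (hOv T hT) hCm) hq0)
      rw [Finset.mul_sum, Finset.mul_sum]
      refine Finset.sum_le_sum fun T' hT' => ?_
      rw [plant' T P (fun ω => ind (T' ⊆ ω) * Z ω), hFrq T hT, plant' T' (T ∪ P) Z, mul_comm Cm]
      refine mul_le_mul_of_nonneg_left (mul_le_mul_of_nonneg_left (hm _
        (Finset.mem_union_right _ (Finset.mem_union_right _ heP)) ?_) (by positivity)) hq0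
      have f1 := Finset.card_union_le T' (T ∪ P)
      have f2 := hcardTP T ((hFr T).1 hT).1
      rw [S.card T' ((hFr T').1 (Finset.mem_filter.1 hT').1).1] at f1
      omega
    linarith
  have hpt : ∀ ω, |ind (hholds 𝒞 P I ω) - ∑ j ∈ range (J + 1),
      (-1 : ℝ) ^ j * (D j ω * rest ω)| ≤ (J + 2) * bad ω + D (J + 1) ω := by
    intro ω
    have e1 : ind (hholds 𝒞 P I ω) = ind (HF 𝒞 (ω ∪ P) (t + 1) e X0) * rest ω := by
      rw [← ind_and]
      refine ind_congr ⟨fun h => ⟨h _ hi, fun i hi' => h i (Finset.mem_of_mem_erase hi')⟩, ?_⟩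
      rintro ⟨h, h'⟩ i hi'
      by_cases hc : i = (e, X0, t + 1)
      · subst hc; exact h
      · exact h' i (Finset.mem_erase.2 ⟨hc, hi'⟩)
    have e4 : ∑ j ∈ range (J + 1), (-1 : ℝ) ^ j * (D j ω * rest ω) =
        (∑ j ∈ range (J + 1), (-1 : ℝ) ^ j * D j ω) * rest ω := by
      rw [Finset.sum_mul]; exact Finset.sum_congr rfl fun _ _ => by ring
    rw [e1, e4, ← sub_mul, abs_mul]
    have e5 : |rest ω| ≤ 1 := by rw [abs_of_nonneg (ind_nonneg _)]; exact ind_le_one _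
    refine (mul_le_of_le_one_right (abs_nonneg _) e5).trans ?_
    have hD0 : ∀ j, 0 ≤ D j ω := fun j => Finset.sum_nonneg fun _ _ => ind_nonneg _
    have n1 : 0 ≤ ∑ T ∈ NF, ind (T ⊆ ω ∪ P) * Z (ω ∪ P) :=
      Finset.sum_nonneg fun _ _ => mul_nonneg (ind_nonneg _) (hZ0 _)
    have n2' : ∀ T, 0 ≤ ∑ T' ∈ Ov T, ind (T ⊆ ω ∪ P) * (ind (T' ⊆ ω ∪ P) * Z (ω ∪ P)) :=
      fun T => Finset.sum_nonneg fun _ _ =>
        mul_nonneg (ind_nonneg _) (mul_nonneg (ind_nonneg _) (hZ0 _))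
    have n2 := Finset.sum_nonneg fun T (_ : T ∈ Fr) => n2' T
    by_cases hg : (∃ T ∈ NF, T ⊆ ω ∪ P) ∨ ∃ T ∈ Fr, ∃ T' ∈ Ov T, T ⊆ ω ∪ P ∧ T' ⊆ ω ∪ P
    · have f1 : Z (ω ∪ P) ≤ bad ω := by
        simp only [bad]
        rcases hg with ⟨T, hT, h⟩ | ⟨T, hT, T', hT', h, h'⟩
        · have := Finset.single_le_sum (f := fun T => ind (T ⊆ ω ∪ P) * Z (ω ∪ P))
            (fun _ _ => mul_nonneg (ind_nonneg _) (hZ0 _)) hT
          simp only [ind_pos h, one_mul] at this
          linarith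
        · have g1 := Finset.single_le_sum (fun T _ => n2' T) hT
          have g2 := Finset.single_le_sum
            (f := fun T' => ind (T ⊆ ω ∪ P) * (ind (T' ⊆ ω ∪ P) * Z (ω ∪ P)))
            (fun _ _ => mul_nonneg (ind_nonneg _) (mul_nonneg (ind_nonneg _) (hZ0 _))) hT'
          simp only [ind_pos h'] at g2
          rw [ind_pos h, one_mul, one_mul] at g2
          rw [ind_pos h] at g1
          linarith
      have y0 := cY_nonneg (𝒞 := 𝒞) e (ω ∪ P)
      have f2 : ∀ j ≤ J, D j ω ≤ Z (ω ∪ P) := by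
        intro j hj
        have g1 : D j ω ≤ (((Fr.filter (good ω)).card.choose j : ℕ) : ℝ) := by
          rw [choose_eq_sum]
          exact Finset.sum_le_sum_of_subset_of_nonneg (fun W hW => ((hDW j W).1 hW).1)
            fun _ _ _ => ind_nonneg _
        have g2 : ((Fr.filter (good ω)).card : ℝ) ≤ cY 𝒞 e (ω ∪ P) := by
          rw [← sum_ind]
          exact (Finset.sum_le_sum fun T _ => ind_mono fun h => h.1).trans
            (Finset.sum_le_sum_of_subset_of_nonneg (fun T hT => Finset.mem_filter.2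
              ⟨((hFr T).1 hT).1, ((hFr T).1 hT).2.1⟩) fun _ _ _ => ind_nonneg _)
        have g3 : (((Fr.filter (good ω)).card.choose j : ℕ) : ℝ) ≤
            ((Fr.filter (good ω)).card : ℝ) ^ j := by exact_mod_cast Nat.choose_le_pow _ _
        exact g1.trans (g3.trans ((pow_le_pow_left₀ (Nat.cast_nonneg _) (by linarith only [g2]) j).trans
          (pow_le_pow_right₀ (by linarith) hj)))
      have f3 : |∑ j ∈ range (J + 1), (-1 : ℝ) ^ j * D j ω| ≤ (J + 1) * Z (ω ∪ P) := by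
        refine (Finset.abs_sum_le_sum_abs _ _).trans ((Finset.sum_le_card_nsmul _ _ (Z (ω ∪ P))
          fun j hj => ?_).trans (le_of_eq (by simp)))
        rw [abs_mul, abs_pow, abs_neg, abs_one, one_pow, one_mul, abs_of_nonneg (hD0 j)]
        exact f2 j (by have := Finset.mem_range.1 hj; omega)
      have f4 : 1 ≤ Z (ω ∪ P) := one_le_pow₀ (by linarith)
      have f5 := abs_sub (ind (HF 𝒞 (ω ∪ P) (t + 1) e X0))
        (∑ j ∈ range (J + 1), (-1 : ℝ) ^ j * D j ω)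
      rw [abs_of_nonneg (ind_nonneg _)] at f5
      have f6 := mul_le_mul_of_nonneg_left f1 (show (0 : ℝ) ≤ J + 2 by positivity)
      linarith only [f3, f4, f5, f6, ind_le_one (HF 𝒞 (ω ∪ P) (t + 1) e X0), hD0 (J + 1)]
    · push Not at hg
      have f1 : ∀ j, D j ω = (((Fr.filter (good ω)).card.choose j : ℕ) : ℝ) := by
        intro j
        rw [choose_eq_sum]
        refine Finset.sum_subset (fun W hW => ((hDW j W).1 hW).1) fun W hW hW' =>
          ind_neg fun hgd => hW' ((hDW j W).2 ⟨hW, fun T hT => ?_,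
            fun T hT T' hT' hne y y1 y2 => by_contra fun y3 => ?_⟩)
        · obtain ⟨t1, t2, t3, _⟩ := (hFr T).1 ((Finset.mem_powersetCard.1 hW).1 hT)
          exact ⟨t1, t2, t3⟩
        · exact hg.2 T ((Finset.mem_powersetCard.1 hW).1 hT) T' (Finset.mem_filter.2
            ⟨(Finset.mem_powersetCard.1 hW).1 hT', hne.symm, y, y2, y1, y3⟩) (hgd T hT).1
            (hgd T' hT').1
      have f2 : HF 𝒞 (ω ∪ P) (t + 1) e X0 ↔ (Fr.filter (good ω)).card = 0 := by
        rw [Finset.card_eq_zero, Finset.filter_eq_empty_iff]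
        constructor
        · intro hF T hT hgd
          obtain ⟨t1, t2, _, t4⟩ := (hFr T).1 hT
          exact hF T t1 t4 t2 hgd.1 hgd.2
        · intro hF T t1 t4 t2 t5 t6
          by_cases c : T ∈ Fr
          · exact hF c ⟨t5, t6⟩
          · exact hg.1 T (Finset.mem_filter.2 ⟨t1, t2, t4, c⟩) t5
      simp only [f1, f2]
      refine (bonferroni _ J).trans (le_add_of_nonneg_left ?_)
      exact mul_nonneg (by positivity) (add_nonneg n1 n2)
  have f1 : |Pr p (hholds 𝒞 P I) - ∑ j ∈ range (J + 1),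
      (-1 : ℝ) ^ j * E p (fun ω => D j ω * rest ω)| ≤
      (J + 2) * Cm * β * (1 + Fr.card * q) + ((DW (J + 1)).card : ℝ) * q ^ (J + 1) := by
    have e1 : Pr p (hholds 𝒞 P I) - ∑ j ∈ range (J + 1),
        (-1 : ℝ) ^ j * E p (fun ω => D j ω * rest ω) =
        E p (fun ω => ind (hholds 𝒞 P I ω) - ∑ j ∈ range (J + 1),
          (-1 : ℝ) ^ j * (D j ω * rest ω)) := by
      rw [E_sub, E_sum]
      congr 1
      exact Finset.sum_congr rfl fun j _ => (E_const_mul _ _).symm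
    rw [e1]
    refine (abs_E_le h0 h1 _).trans ((E_mono h0 h1 hpt).trans ?_)
    rw [E_add, E_const_mul]
    have := mul_le_mul_of_nonneg_left hbad (show (0 : ℝ) ≤ J + 2 by positivity)
    linarith only [hlast, this]
  have f2 : |∑ j ∈ range (J + 1), (-1 : ℝ) ^ j * E p (fun ω => D j ω * rest ω) -
      r * ∑ j ∈ range (J + 1),
        (-1 : ℝ) ^ j * (((DW j).card : ℝ) * q ^ j) * (x t ^ (k - 1)) ^ j| ≤
      ε * ∑ j ∈ range (J + 1), ((DW j).card : ℝ) * q ^ j := by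
    rw [Finset.mul_sum, Finset.mul_sum, ← Finset.sum_sub_distrib]
    refine (Finset.abs_sum_le_sum_abs _ _).trans (Finset.sum_le_sum fun j hj => ?_)
    refine le_trans (le_of_eq ?_) (hmom j (by have := Finset.mem_range.1 hj; omega))
    have : (-1 : ℝ) ^ j * E p (fun ω => D j ω * rest ω) -
        r * ((-1 : ℝ) ^ j * (((DW j).card : ℝ) * q ^ j) * (x t ^ (k - 1)) ^ j) =
        (-1 : ℝ) ^ j * (E p (fun ω => D j ω * rest ω) -
          ((DW j).card : ℝ) * q ^ j * ((x t ^ (k - 1)) ^ j * r)) := by ring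
    rw [this, abs_mul, abs_pow, abs_neg, abs_one, one_pow, one_mul]
  exact (abs_sub_le _ _ _).trans (add_le_add f1 f2)

end Pool.Agent.Work.MP_d4a230_co
end

-- merged part: Pool.Agent.Work.MP_d4a230_co.HLocal
section
namespace Pool.Agent.Work.MP_d4a230_co

open Finset Filter Topology

/-- Iterates of the Karp-Sipser recursion for `k`-uniform hypergraphs. -/
noncomputable def hxs (μ : ℝ) (k : ℕ) : ℕ → ℝ
  | 0 => 1
  | t + 1 => Real.exp (-(μ * hxs μ k t ^ (k - 1)))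

lemma hxs_pos (μ : ℝ) (k t : ℕ) : 0 < hxs μ k t := by
  cases t with
  | zero => exact one_pos
  | succ t => exact Real.exp_pos _

lemma hxs_le_one {μ : ℝ} (hμ : 0 ≤ μ) (k t : ℕ) : hxs μ k t ≤ 1 := by
  cases t with
  | zero => exact le_rfl
  | succ t => exact Real.exp_le_one_iff.2 (neg_nonpos.2 (mul_nonneg hμ (pow_pos (hxs_pos _ _ _) _).le))

/-- The regime of the parameters. -/
structure HReg (p : ℕ → ℝ) (𝒞 : ∀ n, Finset (Finset (Sym2 (Fin n)))) (h k K0 : ℕ) (μ Λ : ℝ) :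
    Prop where
  p0 : ∀ n, 0 ≤ p n
  p1 : ∀ n, p n ≤ 1
  sys : ∀ n, Sys (𝒞 n) h k K0
  lim : Tendsto (fun n : ℕ => (n : ℝ) ^ (h - 2) * p n ^ (k - 1)) atTop (𝓝 Λ)
  pos : 0 < Λ
  mu0 : 0 ≤ μ
  cnt : ∀ ε : ℝ, 0 < ε → ∀ᶠ n in atTop, ∀ e : Sym2 (Fin n), ¬ e.IsDiag →
    |((𝒞 n).filter fun T => e ∈ T).card * p n ^ (k - 1) - μ| ≤ ε

variable {p : ℕ → ℝ} {𝒞 : ∀ n, Finset (Finset (Sym2 (Fin n)))} {h k K0 : ℕ} {μ Λ : ℝ}

lemma HReg.bd (R : HReg p 𝒞 h k K0 μ Λ) :
    ∀ᶠ n : ℕ in atTop, (n : ℝ) ^ (h - 2) * p n ^ (k - 1) ≤ Λ + 1 :=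
  R.lim.eventually (ge_mem_nhds (lt_add_one Λ))

lemma root_lim {f : ℕ → ℝ} {j : ℕ} (hj : j ≠ 0) (h0 : ∀ n, 0 ≤ f n)
    (h : Tendsto (fun n => f n ^ j) atTop (𝓝 0)) : Tendsto f atTop (𝓝 0) := by
  have := h.rpow_const (p := (j : ℝ)⁻¹) (Or.inr (by positivity))
  rw [Real.zero_rpow (by positivity)] at this
  exact this.congr fun n => Real.pow_rpow_inv_natCast (h0 n) hj

lemma HReg.qlim (R : HReg p 𝒞 h k K0 μ Λ) : Tendsto (fun n => p n ^ (k - 1)) atTop (𝓝 0) := by
  have h3 := (R.sys 0).h3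
  have l1 := R.lim.div_atTop ((tendsto_pow_atTop (n := h - 2) (by omega)).comp
    (tendsto_natCast_atTop_atTop (R := ℝ)))
  refine l1.congr' ?_
  filter_upwards [eventually_gt_atTop 0] with n hn
  have : (n : ℝ) ^ (h - 2) ≠ 0 := by positivity
  simp only [Function.comp]
  field_simp

lemma HReg.lim0 (R : HReg p 𝒞 h k K0 μ Λ) : Tendsto p atTop (𝓝 0) :=
  root_lim (by have := (R.sys 0).h3; have := (R.sys 0).hk; omega) R.p0 R.qlim

lemma HReg.theta (R : HReg p 𝒞 h k K0 μ Λ) : ∃ θ : ℕ → ℝ,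
    (∀ᶠ n in atTop, 0 < θ n ∧ Dense (𝒞 n) h k (p n) (θ n)) ∧ Tendsto θ atTop (𝓝 0) ∧
      Tendsto (fun n : ℕ => (n : ℝ) ^ h * θ n ^ ((k - 1) * (h + 1))) atTop (𝓝 0) := by
  have h3 := (R.sys 0).h3
  have hk := (R.sys 0).hk
  have hΛ := R.pos
  have hk1 : k - 1 ≠ 0 := by omega
  set L := (Λ + 1) ^ k with hL
  have hL0 : 0 < L := by positivity
  have e0 : ∀ n : ℕ, ((L / n) ^ ((k - 1 : ℕ) : ℝ)⁻¹) ^ (k - 1) = L / n := fun n =>
    Real.rpow_inv_natCast_pow (by positivity) hk1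
  have l0 : Tendsto (fun n : ℕ => L / n) atTop (𝓝 0) := tendsto_const_div_atTop_nhds_zero_nat L
  refine ⟨fun n => (L / n) ^ ((k - 1 : ℕ) : ℝ)⁻¹, ?_, ?_, ?_⟩
  · filter_upwards [R.bd, eventually_gt_atTop 0] with n hb hn
    have hn' : (0 : ℝ) < n := by exact_mod_cast hn
    have hn1 : (1 : ℝ) ≤ n := by exact_mod_cast hn
    refine ⟨by positivity, fun T hT U hU u1 u2 => ?_⟩
    have hp := R.p0 n
    refine le_of_pow_le_pow_left₀ hk1 (by positivity) ?_
    rw [e0, Fintype.card_fin, le_div_iff₀ hn']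
    have b1 := (R.sys n).bal T hT U hU u1 u2
    have b2 := (R.sys n).ein_le hT U
    set e := ein T U
    have b3 : (h - U.card) * (k - 1) + 1 ≤ (h - 2) * (k - e) := by
      zify [u2.le, b2, (show 1 ≤ k by omega), (show 2 ≤ h by omega)]
      nlinarith only [b1]
    have b4 : ((n : ℝ) ^ (h - U.card) * p n ^ (k - e)) ^ (k - 1) * n ≤
        ((n : ℝ) ^ (h - 2) * p n ^ (k - 1)) ^ (k - e) := by
      rw [mul_pow, mul_pow, ← pow_mul, ← pow_mul, ← pow_mul, ← pow_mul, mul_right_comm,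
        ← pow_succ, mul_comm (k - e) (k - 1)]
      exact mul_le_mul_of_nonneg_right (pow_le_pow_right₀ hn1 b3) (by positivity)
    exact b4.trans ((pow_le_pow_left₀ (by positivity) hb _).trans
      (pow_le_pow_right₀ (by linarith only [hΛ]) (Nat.sub_le _ _)))
  · exact root_lim hk1 (fun n => by positivity) (l0.congr fun n => (e0 n).symm)
  · have l1 := (tendsto_const_div_atTop_nhds_zero_nat (L ^ (h + 1)))
    refine l1.congr' ?_
    filter_upwards [eventually_gt_atTop 0] with n hn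
    have hn' : (n : ℝ) ≠ 0 := by positivity
    rw [pow_mul, e0, div_pow, pow_succ (n : ℝ) h]
    field_simp

lemma choose_cont {μ : ℝ} (hμ : 0 ≤ μ) (j : ℕ) {ε : ℝ} (hε : 0 < ε) :
    ∀ᶠ δ in 𝓝 (0 : ℝ), ∀ (N : ℕ) (q : ℝ), 0 ≤ q → q ≤ δ → |N * q - μ| ≤ δ →
      |(N.choose j : ℝ) * q ^ j - μ ^ j / j.factorial| ≤ ε := by
  have l1 : Tendsto (fun δ : ℝ => (μ + δ) ^ j / j.factorial) (𝓝 0) (𝓝 (μ ^ j / j.factorial)) := by
    have : Continuous fun δ : ℝ => (μ + δ) ^ j / j.factorial := by fun_prop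
    simpa using this.tendsto 0
  have l2 : Tendsto (fun δ : ℝ => (max 0 (μ - δ - j * δ)) ^ j / j.factorial) (𝓝 0)
      (𝓝 (μ ^ j / j.factorial)) := by
    have : Continuous fun δ : ℝ => (max 0 (μ - δ - j * δ)) ^ j / j.factorial := by fun_prop
    simpa [max_eq_right hμ] using this.tendsto 0
  filter_upwards [l1.eventually (gt_mem_nhds (lt_add_of_pos_right _ hε)),
    l2.eventually (lt_mem_nhds (sub_lt_self _ hε))] with δ h1 h2 N q hq hqδ hN
  have hf : (0 : ℝ) < j.factorial := by positivity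
  obtain ⟨n1, n2⟩ := abs_le.1 hN
  have u1 : (N.choose j : ℝ) * q ^ j ≤ (μ + δ) ^ j / j.factorial := by
    calc (N.choose j : ℝ) * q ^ j ≤ (N : ℝ) ^ j / j.factorial * q ^ j :=
          mul_le_mul_of_nonneg_right (Nat.choose_le_pow_div j N) (by positivity)
      _ = (N * q) ^ j / j.factorial := by rw [mul_pow]; ring
      _ ≤ _ := div_le_div_of_nonneg_right (pow_le_pow_left₀ (by positivity) (by linarith) _) hf.le
  have u2 : (max 0 (μ - δ - j * δ)) ^ j / j.factorial ≤ (N.choose j : ℝ) * q ^ j := by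
    have e1 := Nat.pow_le_choose (α := ℝ) j N
    have e2 : max 0 (μ - δ - j * δ) ≤ ((N + 1 - j : ℕ) : ℝ) * q := by
      refine max_le (by positivity) ?_
      have : N ≤ (N + 1 - j) + j := by omega
      have : (N : ℝ) ≤ ((N + 1 - j : ℕ) : ℝ) + j := by exact_mod_cast this
      have := mul_le_mul_of_nonneg_right this hq
      have := mul_le_mul_of_nonneg_left hqδ (Nat.cast_nonneg (α := ℝ) j)
      linarith
    calc _ ≤ (((N + 1 - j : ℕ) : ℝ) * q) ^ j / j.factorial :=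
          div_le_div_of_nonneg_right (pow_le_pow_left₀ (le_max_left _ _) e2 _) hf.le
      _ = ((N + 1 - j : ℕ) : ℝ) ^ j / j.factorial * q ^ j := by rw [mul_pow]; ring
      _ ≤ _ := mul_le_mul_of_nonneg_right e1 (by positivity)
  rw [abs_le]
  constructor <;> linarith only [h2, u2, h1, u1]

/-- Uniform smallness of the weight of non-fresh copies. -/
lemma HReg.bad (R : HReg p 𝒞 h k K0 μ Λ) (M : ℕ) {β : ℝ} (hβ : 0 < β) :
    ∀ᶠ n in atTop, ∀ P : Finset (Sym2 (Fin n)), P.card ≤ M →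
      ∀ 𝓑 : Finset (Finset (Sym2 (Fin n))),
      (∀ T ∈ 𝓑, T ∈ 𝒞 n ∧ 3 ≤ (vs T ∩ vs P).card ∧ ¬ T ⊆ P) →
        ∑ T ∈ 𝓑, p n ^ (T \ P).card ≤ β := by
  obtain ⟨θ, t1, t2, -⟩ := R.theta
  have l := ((t2.add R.lim0).const_mul (K0 : ℝ)).const_mul ((4 : ℝ) ^ M)
  simp only [add_zero, mul_zero] at l
  filter_upwards [t1, l.eventually (ge_mem_nhds hβ)] with n t1 l P hP 𝓑 hB
  refine ((R.sys n).wbad (R.p0 n) (R.p1 n) t1.1.le t1.2 P hB).trans (le_trans ?_ l)
  have := R.p0 n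
  have := t1.1
  exact mul_le_mul_of_nonneg_right (pow_le_pow_right₀ (by norm_num) hP) (by positivity)

/-- Uniform boundedness of the weight of copies sharing two vertices. -/
lemma HReg.ext (R : HReg p 𝒞 h k K0 μ Λ) (M : ℕ) :
    ∀ᶠ n in atTop, ∀ P : Finset (Sym2 (Fin n)), P.card ≤ M →
      ∀ 𝓑 : Finset (Finset (Sym2 (Fin n))), (∀ T ∈ 𝓑, T ∈ 𝒞 n ∧ 2 ≤ (vs T ∩ vs P).card) →
        ∑ T ∈ 𝓑, p n ^ (T \ P).card ≤ 4 ^ M * (K0 * (Λ + 3)) := by
  obtain ⟨θ, t1, t2, -⟩ := R.theta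
  filter_upwards [t1, t2.eventually (ge_mem_nhds one_pos), R.bd] with n t1 t2 t3 P hP 𝓑 hB
  refine ((R.sys n).wext (R.p0 n) (R.p1 n) t1.1.le t1.2 P hB).trans ?_
  have := R.p0 n
  have := t1.1
  rw [Fintype.card_fin]
  exact mul_le_mul (pow_le_pow_right₀ (by norm_num) hP)
    (mul_le_mul_of_nonneg_left (by linarith only [t2, t3]) (Nat.cast_nonneg _)) (by positivity) (by positivity)

/-- Statement of the local limit lemma with bounded depth and number of deepest items. -/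
def HLL (p : ℕ → ℝ) (𝒞 : ∀ n, Finset (Finset (Sym2 (Fin n)))) (k : ℕ) (μ : ℝ) (D m : ℕ) : Prop :=
  ∀ (M : ℕ) (ε : ℝ), 0 < ε → ∀ᶠ n in atTop, ∀ (P : Finset (Sym2 (Fin n)))
    (I : Finset (HItem (Fin n))), P.card ≤ M → HValid (𝒞 n) P I → (∀ i ∈ I, i.2.2 ≤ D) →
    (I.filter fun i => i.2.2 = D).card ≤ m →
    |Pr (p n) (hholds (𝒞 n) P I) - ∏ i ∈ I, hxs μ k i.2.2| ≤ ε

lemma HLL_succ (R : HReg p 𝒞 h k K0 μ Λ) {D m : ℕ} (ih : HLL p 𝒞 k μ (D + 1) m) :
    HLL p 𝒞 k μ (D + 1) (m + 1) := by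
  intro M ε hε
  have hμ := R.mu0
  have hΛ := R.pos
  set y := hxs μ k D ^ (k - 1) with hy
  have hy0 : 0 ≤ y := (pow_pos (hxs_pos _ _ _) _).le
  have hy1 : y ≤ 1 := pow_le_one₀ (hxs_pos μ k D).le (hxs_le_one hμ k D)
  obtain ⟨J, hJ1, hJ2⟩ : ∃ J : ℕ, μ ^ (J + 1) / (J + 1).factorial ≤ ε / 6 ∧
      |∑ j ∈ range (J + 1), (-(μ * y)) ^ j / j.factorial - Real.exp (-(μ * y))| ≤ ε / 6 := by
    have l1 := (FloorSemiring.tendsto_pow_div_factorial_atTop μ).comp (tendsto_add_atTop_nat 1)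
    have l2 := ((NormedSpace.expSeries_div_hasSum_exp (-(μ * y))).tendsto_sum_nat).comp
      (tendsto_add_atTop_nat 1)
    rw [← Real.exp_eq_exp_ℝ] at l2
    have l3 := Metric.tendsto_nhds.1 l2 (ε / 6) (by positivity)
    obtain ⟨J, h1, h2⟩ := ((l1.eventually (gt_mem_nhds (show (0 : ℝ) < ε / 6 by positivity))).and
      l3).exists
    exact ⟨J, h1.le, h2.le⟩
  set Kc : ℝ := ∑ j ∈ range (J + 1), (μ ^ j / j.factorial + 1) with hKc
  have hKc0 : 0 < Kc := Finset.sum_pos (fun j _ => by positivity) (by simp)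
  set η : ℝ := min 1 (ε / 6 / (J + 1)) with hη
  have hη0 : 0 < η := lt_min one_pos (by positivity)
  obtain ⟨δ, hδ0, hδ1, hδ⟩ : ∃ δ : ℝ, 0 < δ ∧ δ ≤ 1 ∧ ∀ j ∈ range (J + 2), ∀ (N : ℕ) (q : ℝ),
      0 ≤ q → q ≤ δ → |N * q - μ| ≤ δ →
      |(N.choose j : ℝ) * q ^ j - μ ^ j / j.factorial| ≤ η / 2 := by
    have c1 := ((Filter.eventually_all_finset (range (J + 2))).2 fun j _ =>
      choose_cont hμ j (half_pos hη0)).and (ge_mem_nhds (show (0 : ℝ) < 1 by norm_num))
    obtain ⟨δ, h1, h2⟩ := ((c1.filter_mono nhdsWithin_le_nhds).and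
      (self_mem_nhdsWithin (s := Set.Ioi 0))).exists
    exact ⟨δ, h2, h1.2, h1.1⟩
  set c : ℝ := 4 ^ (M + 2 * k + J * k) * (K0 * (Λ + 3)) with hc
  have hc0 : 0 ≤ c := by positivity
  set β : ℝ := min (δ / 3) (min (η / 2 / (2 + μ) ^ (J + 1))
    (ε / 6 / ((J + 2) * (1 + c) ^ J * (2 + μ)))) with hβ
  have hβ0 : 0 < β := lt_min (by positivity) (lt_min (by positivity) (by positivity))
  filter_upwards [ih M ε hε, ih (J * k + M) (ε / 6 / Kc) (by positivity), R.bad (M + k) hβ0,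
    R.ext (M + 2 * k + J * k), R.cnt (δ / 3) (by positivity),
    R.qlim.eventually (ge_mem_nhds (show 0 < δ / 3 by positivity))]
    with n ih1 ih2 c1 c2 c3 c4 P I hP hV hD hm
  classical
  by_cases hm' : (I.filter fun i => i.2.2 = D + 1).card ≤ m
  · exact ih1 P I hP hV hD hm'
  obtain ⟨i0, hi0⟩ : (I.filter fun i => i.2.2 = D + 1).Nonempty := Finset.card_pos.1 (by omega)
  obtain ⟨hi, ht⟩ := Finset.mem_filter.1 hi0
  have S := R.sys n
  obtain ⟨hnd, heP, -⟩ := hV.1 i0 hi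
  let Fr := (𝒞 n).filter fun T => i0.1 ∈ T ∧ (∀ x ∈ vs P, x ∈ vs T → x ∈ i0.1) ∧ T ≠ i0.2.1
  let DW := fun j => (Fr.powersetCard j).filter (Petals (𝒞 n) P i0.1)
  obtain ⟨s1, s2, s3⟩ := hstep_bound S (R.p0 n) (R.p1 n) hV hi ht (hxs μ k) J
    (ε := ε / 6 / Kc) (Cm := (1 + c) ^ J) hβ0.le (by positivity) Fr
    (fun T => Finset.mem_filter) DW (fun j W => Finset.mem_filter)
    (fun P' hP' => c1 P' (by omega))
    (fun P' h1 h2 => moment_bound S (R.p0 n) hc0 (M := M + 2 * k + J * k)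
      (fun P'' h3 h4 => c2 P'' h4 _ fun T hT => ⟨(Finset.mem_filter.1 hT).1,
        two_le_inter hnd (Finset.mem_filter.1 hT).2 h3⟩) J P' h1 (by omega))
    (by
      intro j hj W hW
      obtain ⟨w1, w2⟩ := Finset.mem_filter.1 hW
      refine ih2 _ _ ?_ (hvalid_step S hV hi D w2) ?_ ?_
      · refine (Finset.card_union_le _ _).trans (add_le_add ?_ hP)
        refine (Finset.card_biUnion_le_card_mul _ _ k fun T hT => (S.card T (w2.1 T hT).1).le).trans
          (Nat.mul_le_mul_right _ ?_)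
        rw [(Finset.mem_powersetCard.1 w1).2]; exact hj
      · intro i hi'
        rcases Finset.mem_union.1 hi' with hi' | hi'
        · obtain ⟨T, _, g, _, _, rfl⟩ := mem_HIW.1 hi'; exact Nat.le_succ D
        · exact hD i (Finset.mem_of_mem_erase hi')
      · have : ((HIW i0.1 D W ∪ I.erase i0).filter fun i => i.2.2 = D + 1) ⊆
            (I.filter fun i => i.2.2 = D + 1).erase i0 := by
          intro i hi'
          obtain ⟨h1, h2⟩ := Finset.mem_filter.1 hi'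
          rcases Finset.mem_union.1 h1 with h1 | h1
          · obtain ⟨T, _, g, _, _, rfl⟩ := mem_HIW.1 h1; simp at h2
          · exact Finset.mem_erase.2 ⟨(Finset.mem_erase.1 h1).1,
              Finset.mem_filter.2 ⟨Finset.mem_of_mem_erase h1, h2⟩⟩
        have e1 := Finset.card_le_card this
        rw [Finset.card_erase_of_mem hi0] at e1
        omega)
  set q := p n ^ (k - 1) with hq
  have hq0 : 0 ≤ q := pow_nonneg (R.p0 n) _
  have hβ1 : β ≤ δ / 3 := min_le_left _ _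
  have hβ2 : β ≤ η / 2 / (2 + μ) ^ (J + 1) := (min_le_right _ _).trans (min_le_left _ _)
  have hβ3 : β ≤ ε / 6 / ((J + 2) * (1 + c) ^ J * (2 + μ)) :=
    (min_le_right _ _).trans (min_le_right _ _)
  have a1 : |Fr.card * q - μ| ≤ δ := by
    obtain ⟨e1, e2⟩ := abs_le.1 (c3 _ hnd)
    have e3 : (Fr.card : ℝ) ≤ ((𝒞 n).filter fun T => i0.1 ∈ T).card := by
      have : Fr ⊆ (𝒞 n).filter fun T => i0.1 ∈ T := fun T hT => Finset.mem_filter.2
        ⟨(Finset.mem_filter.1 hT).1, (Finset.mem_filter.1 hT).2.1⟩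
      exact_mod_cast Finset.card_le_card this
    have e4 := mul_le_mul_of_nonneg_right e3 hq0
    rw [abs_le]; constructor <;> linarith only [c4, s2, hβ1, e1, hβ0, e2, e4]
  have a2 : 1 + Fr.card * q ≤ 2 + μ := by linarith only [hδ1, a1, (abs_le.1 a1).2]
  have a3 : ∀ j ∈ range (J + 2), |((DW j).card : ℝ) * q ^ j - μ ^ j / j.factorial| ≤ η := by
    intro j hj
    obtain ⟨e1, e2⟩ := abs_le.1 (hδ j hj Fr.card q hq0 (by linarith only [hβ0, c4, hβ1]) a1)
    have e3 : ((DW j).card : ℝ) ≤ Fr.card.choose j := by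
      exact_mod_cast (Finset.card_filter_le _ _).trans (Finset.card_powersetCard _ _).le
    have e4 := mul_le_mul_of_nonneg_right e3 (pow_nonneg hq0 j)
    have e5 : (1 + Fr.card * q) ^ j * β ≤ η / 2 := by
      have f1 : (1 + Fr.card * q) ^ j ≤ (2 + μ) ^ (J + 1) :=
        (pow_le_pow_left₀ (by (clear * - hq0; positivity)) a2 j).trans
          (pow_le_pow_right₀ (by linarith only [hμ, hδ1, hβ0, hβ1]) (by have := Finset.mem_range.1 hj; omega))
      rw [le_div_iff₀ (by positivity)] at hβ2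
      nlinarith only [hβ2, hβ0, f1]
    have e6 := s3 j
    rw [abs_le]; constructor <;> linarith only [e1, e5, e6, hη0, e2, e4]
  set r := ∏ i ∈ I.erase i0, hxs μ k i.2.2 with hr
  have hr0 : 0 ≤ r := Finset.prod_nonneg fun i _ => (hxs_pos _ _ _).le
  have hr1 : r ≤ 1 :=
    Finset.prod_le_one (fun i _ => (hxs_pos _ _ _).le) fun i _ => hxs_le_one hμ _ _
  have e1 : ∏ i ∈ I, hxs μ k i.2.2 = r * Real.exp (-(μ * y)) := by
    rw [← Finset.prod_erase_mul _ _ hi, ht]; rfl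
  have e2 : ∑ j ∈ range (J + 1), ((DW j).card : ℝ) * q ^ j ≤ Kc := by
    refine Finset.sum_le_sum fun j hj => ?_
    have := a3 j (Finset.mem_range.2 (by have := Finset.mem_range.1 hj; omega))
    linarith only [this, (abs_le.1 this).2, min_le_left 1 (ε / 6 / (J + 1))]
  have e3 : ((DW (J + 1)).card : ℝ) * q ^ (J + 1) ≤ ε / 6 + ε / 6 := by
    have := a3 (J + 1) (Finset.mem_range.2 (by omega))
    have e4 : ε / 6 / (J + 1) ≤ ε / 6 :=
      div_le_self (by positivity) (by linarith only [Nat.cast_nonneg (α := ℝ) J])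
    linarith only [hJ1, e4, this, (abs_le.1 this).2, min_le_right 1 (ε / 6 / (J + 1))]
  have e4 : |∑ j ∈ range (J + 1), (-1 : ℝ) ^ j * (((DW j).card : ℝ) * q ^ j) * y ^ j -
      ∑ j ∈ range (J + 1), (-(μ * y)) ^ j / j.factorial| ≤ ε / 6 := by
    rw [← Finset.sum_sub_distrib]
    refine (Finset.abs_sum_le_sum_abs _ _).trans
      ((Finset.sum_le_card_nsmul _ _ (ε / 6 / (J + 1)) fun j hj => ?_).trans (le_of_eq ?_))
    · have := a3 j (Finset.mem_range.2 (by have := Finset.mem_range.1 hj; omega))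
      have e5 : (-1 : ℝ) ^ j * (((DW j).card : ℝ) * q ^ j) * y ^ j -
          (-(μ * y)) ^ j / j.factorial = ((-1 : ℝ) ^ j * y ^ j) *
          (((DW j).card : ℝ) * q ^ j - μ ^ j / j.factorial) := by
        rw [neg_pow (μ * y), mul_pow]; ring
      rw [e5, abs_mul, abs_mul, abs_pow, abs_neg, abs_one, one_pow, one_mul,
        abs_of_nonneg (pow_nonneg hy0 j)]
      exact (mul_le_of_le_one_left (abs_nonneg _) (pow_le_one₀ hy0 hy1)).trans
        (this.trans (min_le_right _ _))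
    · rw [Finset.card_range, nsmul_eq_mul]; push_cast; field_simp
  have e5 : ε / 6 / Kc * ∑ j ∈ range (J + 1), ((DW j).card : ℝ) * q ^ j ≤ ε / 6 := by
    refine (mul_le_mul_of_nonneg_left e2 (by (clear * - a1 a2 a3 e1 e2 e3 e4 heP hi hi0 hnd hr hr0 hr1 ht hε hμ s1 s2 s3; positivity))).trans (le_of_eq ?_)
    field_simp
  have e6 : (J + 2) * (1 + c) ^ J * β * (1 + Fr.card * q) ≤ ε / 6 := by
    rw [le_div_iff₀ (by positivity)] at hβ3
    refine le_trans (mul_le_mul_of_nonneg_left a2 (by (clear * - hΛ hδ0 hε hμ; positivity))) (le_trans (le_of_eq ?_) hβ3)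
    ring
  have e7 : |r * ∑ j ∈ range (J + 1), (-1 : ℝ) ^ j * (((DW j).card : ℝ) * q ^ j) * y ^ j -
      r * Real.exp (-(μ * y))| ≤ ε / 6 + ε / 6 := by
    rw [← mul_sub, abs_mul, abs_of_nonneg hr0]
    exact (mul_le_of_le_one_left (abs_nonneg _) hr1).trans
      ((abs_sub_le _ _ _).trans (add_le_add e4 hJ2))
  rw [e1]
  have := (abs_sub_le _ _ _).trans (add_le_add s1 e7)
  linarith only [e3, e5, e6, this]

theorem hlocal_limit (R : HReg p 𝒞 h k K0 μ Λ) (D M : ℕ) {ε : ℝ} (hε : 0 < ε) :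
    ∀ᶠ n in atTop, ∀ (P : Finset (Sym2 (Fin n))) (I : Finset (HItem (Fin n))), P.card ≤ M →
      HValid (𝒞 n) P I → (∀ i ∈ I, i.2.2 ≤ D) →
      |Pr (p n) (hholds (𝒞 n) P I) - ∏ i ∈ I, hxs μ k i.2.2| ≤ ε := by
  have key : ∀ D m, HLL p 𝒞 k μ D m := by
    intro D
    induction D with
    | zero =>
      intro m M ε hε
      refine Filter.Eventually.of_forall fun n P I _ _ hD _ => ?_
      have e1 : Pr (p n) (hholds (𝒞 n) P I) = 1 := by
        unfold Pr
        rw [E_congr (g := fun _ => 1), E_const]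
        refine fun ω => ind_pos fun i hi => ?_
        rw [Nat.le_zero.1 (hD i hi)]; trivial
      have e2 : ∏ i ∈ I, hxs μ k i.2.2 = 1 :=
        Finset.prod_eq_one fun i hi => by rw [Nat.le_zero.1 (hD i hi)]; rfl
      rw [e1, e2, sub_self, abs_zero]; exact hε.le
    | succ D ih =>
      intro m
      induction m with
      | zero =>
        intro M ε hε
        filter_upwards [ih M M ε hε] with n hn P I hP hV hD hk
        refine hn P I hP hV (fun i hi => ?_)
          ((Finset.card_filter_le _ _).trans (hV.card_le.trans hP))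
        have h1 := hD i hi
        have h2 : i.2.2 ≠ D + 1 := fun h3 => by
          have := Finset.card_pos.2
            ⟨i, (Finset.mem_filter (p := fun i => i.2.2 = D + 1)).2 ⟨hi, h3⟩⟩
          omega
        omega
      | succ m ihk => exact HLL_succ R ihk
  filter_upwards [key D M M ε hε] with n hn P I hP hV hD
  exact hn P I hP hV hD ((Finset.card_filter_le _ _).trans (hV.card_le.trans hP))

end Pool.Agent.Work.MP_d4a230_co
end

-- merged part: Pool.Agent.Work.MP_d4a230_co.HConc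
section
namespace Pool.Agent.Work.MP_d4a230_co

open Finset Filter Topology

variable {p : ℕ → ℝ} {𝒞 : ∀ n, Finset (Finset (Sym2 (Fin n)))} {h k K0 : ℕ} {μ Λ : ℝ}

theorem hconc_cluster (R : HReg p 𝒞 h k K0 μ Λ) (hpos : ∀ᶠ n in atTop, 0 < p n * n)
    (α : ℕ → Type) (A : ∀ n, Fin n → Finset (α n))
    (Q : ∀ n, Fin n → α n → Finset (Sym2 (Fin n)))
    (I : ∀ n, Fin n → α n → Finset (HItem (Fin n))) (cp : ∀ n, Fin n → α n → α n → Prop)
    (q D : ℕ) {μ0 β : ℝ} (hμ0 : 0 ≤ μ0) (hμ1 : μ0 ≤ 1)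
    (hq : ∀ n v, ∀ a ∈ A n v, (Q n v a).card = q)
    (hV : ∀ n v, ∀ a ∈ A n v, HValid (𝒞 n) (Q n v a) (I n v a))
    (hV2 : ∀ n v, ∀ a ∈ A n v, ∀ b ∈ A n v, cp n v a b → Disjoint (Q n v a) (Q n v b) ∧
      Disjoint (I n v a) (I n v b) ∧ HValid (𝒞 n) (Q n v a ∪ Q n v b) (I n v a ∪ I n v b))
    (hD : ∀ n v, ∀ a ∈ A n v, ∀ i ∈ I n v a, i.2.2 ≤ D)
    (hx : ∀ n v, ∀ a ∈ A n v, ∏ i ∈ I n v a, hxs μ k i.2.2 = μ0)
    (hβ : ∀ ε : ℝ, 0 < ε → ∀ᶠ n in atTop, ∀ v,
      |(A n v).card * p n ^ q - β * (p n * n)| ≤ ε * (p n * n))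
    (hΔ : ∀ ε : ℝ, 0 < ε → ∀ᶠ n in atTop, ∀ v, ∑ a ∈ A n v, ∑ b ∈ A n v,
      ind (¬ cp n v a b) * p n ^ (Q n v a ∪ Q n v b).card ≤ ε * (p n * n) ^ 2) :
    Conc p (fun n v ω => ∑ a ∈ A n v, ind (Q n v a ⊆ ω ∧ hholds (𝒞 n) ∅ (I n v a) ω))
      (β * μ0) := by
  intro ε hε
  set K := |β| + 1 with hK
  have hK0 : 0 < K := by positivity
  set η := ε ^ 2 / (4 * (3 * K ^ 2 + 1)) with hη
  have hη0 : 0 < η := by positivity
  filter_upwards [hpos, hlocal_limit R D (q + q) hη0, hβ (min 1 (ε / 2)) (by positivity),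
    hΔ η hη0] with n hp hL hβ hΔ v
  set y := p n * n with hy
  have hh : ∀ (P : Finset (Sym2 (Fin n))) I ω,
      hholds (𝒞 n) ∅ I (ω ∪ P) ↔ hholds (𝒞 n) P I ω := by
    intro P I ω; unfold hholds; rw [Finset.union_empty]
  have L2 := L2_bound (R.p0 n) (R.p1 n) (A n v) (Q n v)
    (fun a ω => hholds (𝒞 n) ∅ (I n v a) ω) q (cp n v) hμ0 hμ1 hη0.le (hq n v)
    (fun a ha => by
      have := hL _ _ (by rw [hq n v a ha]; omega) (hV n v a ha) (hD n v a ha)
      rw [hx n v a ha] at this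
      simp only [hh]
      exact this)
    (fun a ha b hb hd => by
      obtain ⟨d1, d2, d3⟩ := hV2 n v a ha b hb hd
      refine ⟨d1, ?_⟩
      have := hL _ _ (by rw [Finset.card_union_of_disjoint d1, hq n v a ha, hq n v b hb]) d3
        (fun i hi => (Finset.mem_union.1 hi).elim (hD n v a ha i) (hD n v b hb i))
      rw [Finset.prod_union d2, hx n v a ha, hx n v b hb, ← sq] at this
      simp only [hh]
      refine le_trans (le_of_eq ?_) this
      congr 3
      funext ω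
      unfold hholds
      simp only [Finset.mem_union, or_imp, forall_and])
    (hΔ v)
  set c := ((A n v).card : ℝ) * p n ^ q with hc
  have hc0 : 0 ≤ c := mul_nonneg (Nat.cast_nonneg _) (pow_nonneg (R.p0 n) _)
  have b1 := hβ v
  have b2 : c ≤ K * y := by
    have e1 := (abs_le.1 b1).2
    have e2 := mul_le_mul_of_nonneg_right (min_le_left 1 (ε / 2)) hp.le
    have e3 := mul_le_mul_of_nonneg_right (le_abs_self β) hp.le
    rw [hK]; linarith only [e1, e2, e3]
  have b3 : |c * μ0 - β * μ0 * y| ≤ ε / 2 * y := by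
    have : c * μ0 - β * μ0 * y = (c - β * y) * μ0 := by ring
    rw [this, abs_mul, abs_of_nonneg hμ0]
    exact (mul_le_of_le_one_right (abs_nonneg _) hμ1).trans
      (b1.trans (mul_le_mul_of_nonneg_right (min_le_right _ _) hp.le))
  have b4 : 3 * η * c ^ 2 + η * y ^ 2 ≤ ε ^ 2 / 4 * y ^ 2 := by
    have e1 : c ^ 2 ≤ (K * y) ^ 2 := pow_le_pow_left₀ hc0 b2 2
    have e2 : η * (3 * K ^ 2 + 1) = ε ^ 2 / 4 := by rw [hη]; field_simp
    have e3 := mul_le_mul_of_nonneg_left e1 (show 0 ≤ 3 * η by positivity)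
    rw [← e2]; nlinarith only [e3]
  set Z : Finset (Sym2 (Fin n)) → ℝ := fun ω =>
    ∑ a ∈ A n v, ind (Q n v a ⊆ ω ∧ hholds (𝒞 n) ∅ (I n v a) ω) with hZ
  have b5 : ∀ ω, |Z ω - β * μ0 * y| ≤
      (ε / 2 * y + ε / 4 * y) + (ε * y)⁻¹ * (Z ω - c * μ0) ^ 2 := by
    intro ω
    have e1 := abs_sub_le (Z ω) (c * μ0) (β * μ0 * y)
    have e2 : |Z ω - c * μ0| ≤ ε / 4 * y + (ε * y)⁻¹ * (Z ω - c * μ0) ^ 2 := by
      rw [← sq_abs (Z ω - c * μ0)]
      set w := |Z ω - c * μ0|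
      have hey : 0 < ε * y := mul_pos hε hp
      have : (ε * y)⁻¹ * w ^ 2 = w ^ 2 / (ε * y) := by rw [inv_mul_eq_div]
      rw [this, ← sub_le_iff_le_add', le_div_iff₀ hey]
      nlinarith only [sq_nonneg (w - ε * y / 2)]
    linarith only [b3, e1, e2]
  refine (E_mono (R.p0 n) (R.p1 n) b5).trans ?_
  rw [E_add, E_const, E_const_mul]
  have b6 : (ε * y)⁻¹ * E (p n) (fun ω => (Z ω - c * μ0) ^ 2) ≤ ε / 4 * y := by
    refine (mul_le_mul_of_nonneg_left (L2.trans b4) (inv_nonneg.2 (mul_pos hε hp).le)).trans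
      (le_of_eq ?_)
    field_simp
  linarith only [b6]

lemma HReg.pow_ge (R : HReg p 𝒞 h k K0 μ Λ) :
    ∀ᶠ n : ℕ in atTop, Λ / 2 * n ≤ (p n * n) ^ (k - 1) := by
  have h3 := (R.sys 0).h3
  have hk := (R.sys 0).hk
  filter_upwards [R.lim.eventually (le_mem_nhds (half_lt_self R.pos)), eventually_gt_atTop 0]
    with n h1 hn
  have hn1 : (1 : ℝ) ≤ n := by exact_mod_cast hn
  have hp := R.p0 n
  have e1 : (n : ℝ) ^ (h - 2) * n ≤ (n : ℝ) ^ (k - 1) := by
    rw [← pow_succ]; exact pow_le_pow_right₀ hn1 (by omega)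
  have e2 := mul_le_mul_of_nonneg_right e1 (pow_nonneg hp (k - 1))
  have e3 := mul_le_mul_of_nonneg_right h1 (by linarith only [hn1] : (0 : ℝ) ≤ n)
  rw [mul_pow]; linarith only [e2, e3]

lemma HReg.inf (R : HReg p 𝒞 h k K0 μ Λ) : Tendsto (fun n : ℕ => p n * n) atTop atTop := by
  have l1 : Tendsto (fun n : ℕ => (p n * n) ^ (k - 1)) atTop atTop :=
    tendsto_atTop_mono' _ R.pow_ge
      ((tendsto_natCast_atTop_atTop (R := ℝ)).const_mul_atTop (half_pos R.pos))
  refine tendsto_atTop.2 fun b => ?_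
  filter_upwards [l1.eventually (eventually_gt_atTop (|b| ^ (k - 1)))] with n hn
  exact (le_abs_self b).trans (lt_of_pow_lt_pow_left₀ _
    (mul_nonneg (R.p0 n) (Nat.cast_nonneg n)) hn).le

lemma HReg.decay (R : HReg p 𝒞 h k K0 μ Λ) {γ : ℝ} (hγ : 0 < γ) (c : ℝ) :
    Tendsto (fun n : ℕ => (n : ℝ) * Real.exp (c - γ * (p n * n))) atTop (𝓝 0) := by
  have hΛ := R.pos
  have l1 := (Real.tendsto_pow_mul_exp_neg_atTop_nhds_zero (k - 1)).comp
    (R.inf.const_mul_atTop hγ)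
  have l2 := l1.const_mul (2 / Λ * Real.exp c / γ ^ (k - 1))
  rw [mul_zero] at l2
  refine squeeze_zero' (Filter.Eventually.of_forall fun n => by positivity) ?_ l2
  filter_upwards [R.pow_ge] with n hn
  simp only [Function.comp]
  have e1 : (n : ℝ) ≤ 2 / Λ * (p n * n) ^ (k - 1) := by
    rw [div_mul_eq_mul_div, le_div_iff₀ hΛ]; linarith
  refine (mul_le_mul_of_nonneg_right e1 (Real.exp_pos _).le).trans (le_of_eq ?_)
  rw [sub_eq_add_neg, Real.exp_add, mul_pow γ]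
  field_simp

section Stats

variable {V : Type} [DecidableEq V]

/-- Number of neighbours `a ∈ W` of `v` whose edge sends a positive message. -/
noncomputable def hstE (𝒞 : Finset (Finset (Sym2 V))) (ω : Finset (Sym2 V)) (W : Finset V)
    (t : ℕ) (v : V) : ℝ := ∑ a ∈ W.erase v, ind (s(v, a) ∈ ω ∧ HF 𝒞 ω t s(v, a) ∅)

/-- The distinguished edges: the root edge only, or all edges. -/
def gset (b : Bool) (e : Sym2 V) (T : Finset (Sym2 V)) : Finset (Sym2 V) := cond b {e} T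

/-- Copies through edges at `v` with prescribed messages. -/
noncomputable def hst [Fintype V] (𝒞 : Finset (Finset (Sym2 V))) (ω : Finset (Sym2 V)) (b : Bool)
    (i j : ℕ) (v : V) : ℝ :=
  ∑ a ∈ univ.erase v, ∑ T ∈ 𝒞.filter (fun T => s(v, a) ∈ T), ∑ g ∈ gset b s(v, a) T,
    ind (HTri 𝒞 ω i j g T)

omit [DecidableEq V] in
lemma gset_sub {b : Bool} {e : Sym2 V} {T : Finset (Sym2 V)} (he : e ∈ T) : gset b e T ⊆ T := by
  cases b
  · exact Finset.Subset.refl _
  · exact Finset.singleton_subset_iff.2 he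

lemma Sys.two_petals {𝒞 : Finset (Finset (Sym2 V))} (S : Sys 𝒞 h k K0)
    {T T' T'' : Finset (Sym2 V)} (hT : T ∈ 𝒞) (hT' : T' ∈ 𝒞) (hT'' : T'' ∈ 𝒞) {v a a' : V}
    (h1 : s(v, a) ∈ T) (h2 : s(v, a') ∈ T') (hd : ∀ x ∈ vs T, x ∈ vs T' → x = v)
    (hdd : Disjoint T T') (hsub : T'' ⊆ T ∪ T') : T'' = T ∨ T'' = T' := by
  by_contra hc
  push Not at hc
  have aux : ∀ {T T' : Finset (Sym2 V)} {a : V}, T ∈ 𝒞 → s(v, a) ∈ T →
      (∀ x ∈ vs T, x ∈ vs T' → x = v) → T'' ⊆ T' ∪ T → T'' ≠ T → ∀ g ∈ T'', g ∈ T →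
      g = s(v, a) := by
    intro T T' a hT h1 hd hsub hne g g1 g2
    refine sym2_eq_of_subset (S.nd T hT g g2) fun x hx => by_contra fun hx' => hne ?_
    exact S.split hT hT'' h1 (fun y y1 y2 => by rw [hd y y2 y1]; simp) hsub
      (mem_vs.2 ⟨g, g1, hx⟩) (mem_vs.2 ⟨g, g2, hx⟩) hx'
  have e1 : T'' ⊆ {s(v, a), s(v, a')} := by
    intro g hg
    rcases Finset.mem_union.1 (hsub hg) with h | h
    · rw [aux hT h1 hd (by rwa [Finset.union_comm]) hc.1 g hg h]; simp
    · rw [aux hT' h2 (fun x x1 x2 => hd x x2 x1) hsub hc.2 g hg h]; simp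
  have e2 := (Finset.card_le_card e1).trans Finset.card_le_two
  have := S.card T'' hT''
  have := S.h3
  have := S.hk
  have := hdd
  omega

end Stats

theorem hconc_E (R : HReg p 𝒞 h k K0 μ Λ) (W : ∀ n, Fin n → Finset (Fin n)) {β : ℝ}
    (hβ : ∀ ε : ℝ, 0 < ε → ∀ᶠ n in atTop, ∀ v, |((W n v).card : ℝ) - β * n| ≤ ε * n) (t : ℕ) :
    Conc p (fun n v ω => hstE (𝒞 n) ω (W n v) t v) (β * hxs μ k t) := by
  have hinf := R.inf
  have small : ∀ n (P T : Finset (Sym2 (Fin n))), P.card ≤ 2 → T ∈ 𝒞 n → ¬ T ⊆ P := by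
    intro n P T h1 h2 h3
    have := Finset.card_le_card h3
    have := (R.sys n).card T h2
    have := (R.sys n).h3
    have := (R.sys n).hk
    omega
  have key := hconc_cluster R (hinf.eventually (eventually_gt_atTop 0)) (fun n => Fin n)
    (fun n v => (W n v).erase v) (fun n v a => {s(v, a)}) (fun n v a => {(s(v, a), ∅, t)})
    (fun n v a b => a ≠ b) 1 t (β := β) (hxs_pos μ k t).le (hxs_le_one R.mu0 k t)
    (fun n v a _ => Finset.card_singleton _)
    (fun n v a ha => by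
      have hne := (Finset.mem_erase.1 ha).1
      refine ⟨fun i hi => ?_, fun i hi j hj _ => ?_⟩
      · rw [Finset.mem_singleton.1 hi]
        exact ⟨by simpa using hne.symm, Finset.mem_singleton_self _,
          fun T h1 _ h3 => absurd h3 (small n _ T (by simp) h1)⟩
      · rw [Finset.mem_singleton.1 hi, Finset.mem_singleton.1 hj])
    (fun n v a ha b hb hab => by
      have hne := (Finset.mem_erase.1 ha).1
      have hne' := (Finset.mem_erase.1 hb).1
      have e0 : s(v, a) ≠ s(v, b) := fun h => hab (Sym2.congr_right.1 h)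
      refine ⟨by simpa using e0, by simpa using e0, fun i hi => ?_, fun i hi j hj he => ?_⟩
      · have e1 : ∀ T ∈ 𝒞 n, ¬ T ⊆ {s(v, a)} ∪ {s(v, b)} := fun T hT =>
          small n _ T ((Finset.card_union_le _ _).trans (by simp)) hT
        rcases Finset.mem_union.1 hi with hi | hi <;> rw [Finset.mem_singleton.1 hi]
        · exact ⟨by simpa using hne.symm, by simp, fun T h1 _ h3 => absurd h3 (e1 T h1)⟩
        · exact ⟨by simpa using hne'.symm, by simp, fun T h1 _ h3 => absurd h3 (e1 T h1)⟩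
      · rcases Finset.mem_union.1 hi with hi | hi <;> rcases Finset.mem_union.1 hj with hj | hj <;>
          rw [Finset.mem_singleton.1 hi, Finset.mem_singleton.1 hj] at he ⊢
        · exact absurd he e0
        · exact absurd he.symm e0)
    (fun n v a _ i hi => by rw [Finset.mem_singleton.1 hi])
    (fun n v a _ => Finset.prod_singleton _ _)
    (fun ε hε => by
      filter_upwards [hβ (ε / 2) (by positivity),
        (tendsto_natCast_atTop_atTop (R := ℝ)).eventually (eventually_ge_atTop (2 / ε))]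
        with n e1 e2 v
      have e3 : |(((W n v).erase v).card : ℝ) - (W n v).card| ≤ 1 := by
        have f1 : ((W n v).erase v).card ≤ (W n v).card := Finset.card_erase_le
        have f2 : (W n v).card ≤ ((W n v).erase v).card + 1 := by
          have := Finset.pred_card_le_card_erase (s := W n v) (a := v); omega
        have f1' : (((W n v).erase v).card : ℝ) ≤ (W n v).card := by exact_mod_cast f1
        have f2' : ((W n v).card : ℝ) ≤ ((W n v).erase v).card + 1 := by exact_mod_cast f2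
        rw [abs_le]; constructor <;> linarith only [f2', f1']
      have e4 : (((W n v).erase v).card : ℝ) * p n ^ 1 - β * (p n * n) =
          p n * ((((W n v).erase v).card : ℝ) - β * n) := by ring
      have e5 := (abs_sub_le _ _ _).trans (add_le_add e3 (e1 v))
      rw [div_le_iff₀ hε] at e2
      rw [e4, abs_mul, abs_of_nonneg (R.p0 n), mul_left_comm]
      exact mul_le_mul_of_nonneg_left (by linarith) (R.p0 n))
    (fun ε hε => by
      filter_upwards [hinf.eventually (eventually_ge_atTop (1 / ε))] with n e1 v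
      have e2 : ∑ a ∈ (W n v).erase v, ∑ b ∈ (W n v).erase v, ind (¬ a ≠ b) *
            p n ^ (({s(v, a)} : Finset (Sym2 (Fin n))) ∪ {s(v, b)}).card ≤
          ∑ _a ∈ (W n v).erase v, p n := by
        refine Finset.sum_le_sum fun a ha => ?_
        rw [Finset.sum_eq_single_of_mem a ha]
        · rw [Finset.union_self, Finset.card_singleton, pow_one]
          exact mul_le_of_le_one_left (R.p0 n) (ind_le_one _)
        · intro b _ hb
          rw [ind_neg (not_not.2 hb.symm), zero_mul]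
      refine e2.trans ?_
      rw [Finset.sum_const, nsmul_eq_mul]
      have e3 : (((W n v).erase v).card : ℝ) ≤ n := by
        exact_mod_cast (Finset.card_le_univ _).trans_eq (Fintype.card_fin n)
      have e4 := mul_le_mul_of_nonneg_right e3 (R.p0 n)
      rw [div_le_iff₀ hε] at e1
      have e5 : 0 ≤ p n * n := mul_nonneg (R.p0 n) (Nat.cast_nonneg n)
      nlinarith only [e1, hε, e4])
  have e : (fun n v ω => hstE (𝒞 n) ω (W n v) t v) = fun n v ω =>
      ∑ a ∈ (W n v).erase v, ind (({s(v, a)} : Finset (Sym2 (Fin n))) ⊆ ω ∧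
        hholds (𝒞 n) ∅ {(s(v, a), ∅, t)} ω) := by
    funext n v ω
    unfold hstE hholds
    simp
  rw [e]
  exact key

theorem hconc_T (R : HReg p 𝒞 h k K0 μ Λ) (b : Bool) (i j : ℕ) :
    Conc p (fun n v ω => hst (𝒞 n) ω b i j v)
      (cond b 1 (k : ℝ) * μ * (hxs μ k j * hxs μ k i ^ (k - 1))) := by
  classical
  have hμ := R.mu0
  have hinf := R.inf
  have hΛ := R.pos
  set κ : ℝ := cond b 1 (k : ℝ) with hκ
  have hk1 : 1 ≤ k := by have := (R.sys 0).h3; have := (R.sys 0).hk; omega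
  have hκ1 : 1 ≤ κ := by
    rw [hκ]; cases b
    · show (1 : ℝ) ≤ k
      exact_mod_cast hk1
    · exact le_rfl
  have hg : ∀ n (e : Sym2 (Fin n)), ∀ T ∈ 𝒞 n, ((gset b e T).card : ℝ) = κ := by
    intro n e T hT
    rw [hκ]; cases b
    · show ((T.card : ℕ) : ℝ) = k
      rw [(R.sys n).card T hT]
    · simp [gset]
  let A : ∀ n, Fin n → Finset (Σ _ : Fin n, Σ _ : Finset (Sym2 (Fin n)), Sym2 (Fin n)) :=
    fun n v => (univ.erase v).sigma fun a =>
      ((𝒞 n).filter fun T => s(v, a) ∈ T).sigma fun T => gset b s(v, a) T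
  have hA : ∀ n v, ∀ x ∈ A n v, x.1 ≠ v ∧ x.2.1 ∈ 𝒞 n ∧ s(v, x.1) ∈ x.2.1 ∧ x.2.2 ∈ x.2.1 := by
    intro n v x hx
    obtain ⟨h1, h2⟩ := Finset.mem_sigma.1 hx
    obtain ⟨h3, h4⟩ := Finset.mem_sigma.1 h2
    obtain ⟨h5, h6⟩ := Finset.mem_filter.1 h3
    exact ⟨(Finset.mem_erase.1 h1).1, h5, h6, gset_sub h6 h4⟩
  have hsum : ∀ n v (f : Finset (Sym2 (Fin n)) → ℝ), ∑ x ∈ A n v, f x.2.1 =
      κ * ∑ a ∈ univ.erase v, ∑ T ∈ (𝒞 n).filter (fun T => s(v, a) ∈ T), f T := by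
    intro n v f
    simp only [A, Finset.sum_sigma, Finset.sum_const, nsmul_eq_mul, Finset.mul_sum]
    exact Finset.sum_congr rfl fun a _ => Finset.sum_congr rfl fun T hT => by
      rw [hg n _ T (Finset.mem_filter.1 hT).1]
  have hcard : ∀ ε : ℝ, 0 < ε → ∀ᶠ n in atTop, ∀ v,
      |(A n v).card * p n ^ k - κ * μ * (p n * n)| ≤ ε * (p n * n) := by
    intro ε hε
    filter_upwards [R.cnt (ε / 2 / κ) (by positivity),
      (tendsto_natCast_atTop_atTop (R := ℝ)).eventually (eventually_ge_atTop (κ * μ / (ε / 2)))]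
      with n e1 e2 v
    have hp := R.p0 n
    have f1 := hsum n v fun _ => 1
    simp only [Finset.sum_const, nsmul_eq_mul, mul_one] at f1
    have f2 : p n ^ k = p n ^ (k - 1) * p n := by rw [← pow_succ, Nat.sub_add_cancel hk1]
    have f3 : ((univ.erase v).card : ℝ) = n - 1 := by
      rw [Finset.card_erase_of_mem (Finset.mem_univ v), Finset.card_univ, Fintype.card_fin,
        Nat.cast_sub v.pos]; simp
    have f4 : |∑ a ∈ univ.erase v, (((𝒞 n).filter fun T => s(v, a) ∈ T).card : ℝ) *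
        p n ^ (k - 1) - (n - 1) * μ| ≤ n * (ε / 2 / κ) := by
      rw [← f3, ← nsmul_eq_mul, ← Finset.sum_const, ← Finset.sum_sub_distrib]
      refine (Finset.abs_sum_le_sum_abs _ _).trans ((Finset.sum_le_card_nsmul _ _ _ fun a ha =>
        e1 _ (by simpa using (Finset.mem_erase.1 ha).1.symm)).trans ?_)
      rw [nsmul_eq_mul, f3]
      exact mul_le_mul_of_nonneg_right (by linarith only []) (by positivity)
    rw [← Finset.sum_mul] at f4
    set Z := ∑ a ∈ univ.erase v, (((𝒞 n).filter fun T => s(v, a) ∈ T).card : ℝ)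
    have f5 : κ * Z * (p n ^ (k - 1) * p n) - κ * μ * (p n * n) =
        (κ * p n) * (Z * p n ^ (k - 1) - (n - 1) * μ) - κ * μ * p n := by ring
    have f6 : (κ * p n) * (n * (ε / 2 / κ)) = ε / 2 * (p n * n) := by field_simp
    have f7 := mul_le_mul_of_nonneg_left f4 (show 0 ≤ κ * p n by positivity)
    rw [div_le_iff₀ (by positivity)] at e2
    have f8 := mul_le_mul_of_nonneg_right e2 hp
    rw [f1, f2, f5]
    refine (abs_sub _ _).trans ?_
    rw [abs_mul, abs_of_nonneg (show 0 ≤ κ * p n by positivity),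
      abs_of_nonneg (show 0 ≤ κ * μ * p n by positivity)]
    linarith only [f6, f7, f8]
  have key := hconc_cluster R (hinf.eventually (eventually_gt_atTop 0)) _ A (fun n v x => x.2.1)
    (fun n v x => x.2.1.image fun e => (e, x.2.1, if e = x.2.2 then j else i))
    (fun n v x y => ∀ u ∈ vs x.2.1, u ∈ vs y.2.1 → u = v) k (i + j) (β := κ * μ)
    (μ0 := hxs μ k j * hxs μ k i ^ (k - 1))
    (mul_nonneg (hxs_pos _ _ _).le (pow_nonneg (hxs_pos _ _ _).le _))
    (mul_le_one₀ (hxs_le_one hμ _ _) (pow_nonneg (hxs_pos _ _ _).le _)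
      (pow_le_one₀ (hxs_pos _ _ _).le (hxs_le_one hμ _ _)))
    (fun n v x hx => (R.sys n).card _ (hA n v x hx).2.1)
    (fun n v x hx => by
      have hT := (hA n v x hx).2.1
      refine ⟨fun u hu => ?_, fun u hu w hw he => ?_⟩
      · obtain ⟨e, he, rfl⟩ := Finset.mem_image.1 hu
        exact ⟨(R.sys n).nd _ hT e he, he, fun T t1 _ t3 => Finset.eq_of_subset_of_card_le t3
          (by rw [(R.sys n).card _ hT, (R.sys n).card _ t1])⟩
      · obtain ⟨e, _, rfl⟩ := Finset.mem_image.1 hu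
        obtain ⟨e', _, rfl⟩ := Finset.mem_image.1 hw
        simp only at he
        rw [he])
    (fun n v x hx y hy hd => by
      obtain ⟨_, x2, x3, _⟩ := hA n v x hx
      obtain ⟨_, y2, y3, _⟩ := hA n v y hy
      have S := R.sys n
      have d1 : Disjoint x.2.1 y.2.1 := Finset.disjoint_left.2 fun e e1 e2 => by
        refine S.nd _ x2 e e1 ?_
        induction e using Sym2.ind with
        | _ c d =>
          rw [Sym2.mk_isDiag_iff, hd c (mem_vs.2 ⟨_, e1, by simp⟩) (mem_vs.2 ⟨_, e2, by simp⟩),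
            hd d (mem_vs.2 ⟨_, e1, by simp⟩) (mem_vs.2 ⟨_, e2, by simp⟩)]
      refine ⟨d1, Finset.disjoint_left.2 fun u u1 u2 => ?_, fun u hu => ?_, fun u hu w hw he => ?_⟩
      · obtain ⟨e, he, rfl⟩ := Finset.mem_image.1 u1
        obtain ⟨e', he', h'⟩ := Finset.mem_image.1 u2
        have h'' : e' = e := congrArg Prod.fst h'
        exact Finset.disjoint_left.1 d1 he (h'' ▸ he')
      · rcases Finset.mem_union.1 hu with hu | hu <;> obtain ⟨e, he, rfl⟩ := Finset.mem_image.1 hu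
        · exact ⟨S.nd _ x2 e he, Finset.mem_union_left _ he, fun T t1 t2 t3 =>
            (S.two_petals x2 y2 t1 x3 y3 hd d1 t3).resolve_right
              fun h => Finset.disjoint_left.1 d1 he (h ▸ t2)⟩
        · exact ⟨S.nd _ y2 e he, Finset.mem_union_right _ he, fun T t1 t2 t3 =>
            (S.two_petals x2 y2 t1 x3 y3 hd d1 t3).resolve_left
              fun h => Finset.disjoint_left.1 d1 (h ▸ t2) he⟩
      · rcases Finset.mem_union.1 hu with hu | hu <;> rcases Finset.mem_union.1 hw with hw | hw <;>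
          obtain ⟨e, h1, rfl⟩ := Finset.mem_image.1 hu <;>
          obtain ⟨e', h2, rfl⟩ := Finset.mem_image.1 hw <;> simp only at he <;> subst he
        · rfl
        · exact absurd h2 (Finset.disjoint_left.1 d1 h1)
        · exact absurd h1 (Finset.disjoint_left.1 d1 h2)
        · rfl)
    (fun n v x _ u hu => by
      obtain ⟨e, _, rfl⟩ := Finset.mem_image.1 hu
      simp only
      split_ifs <;> omega)
    (fun n v x hx => by
      obtain ⟨_, x2, _, x4⟩ := hA n v x hx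
      rw [Finset.prod_image (fun _ _ _ _ h => congrArg Prod.fst h),
        ← Finset.mul_prod_erase _ _ x4, if_pos rfl, ← (R.sys n).card _ x2,
        ← Finset.card_erase_of_mem x4, ← Finset.prod_const]
      congr 1
      exact Finset.prod_congr rfl fun e he => by rw [if_neg (Finset.mem_erase.1 he).1])
    hcard
    (fun ε hε => by
      set c : ℝ := κ * h * (4 ^ k * (K0 * (Λ + 3))) with hc
      have hc0 : 0 ≤ c := by positivity
      filter_upwards [R.ext k, hcard 1 one_pos,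
        hinf.eventually (eventually_ge_atTop ((κ * μ + 1) * c / ε))] with n e1 e2 e3 v
      have hp := R.p0 n
      have S := R.sys n
      have f1 : ∀ x ∈ A n v, ∑ y ∈ A n v, ind (¬ ∀ u ∈ vs x.2.1, u ∈ vs y.2.1 → u = v) *
          p n ^ (x.2.1 ∪ y.2.1).card ≤ p n ^ k * c := by
        intro x hx
        obtain ⟨_, x2, x3, _⟩ := hA n v x hx
        rw [hsum n v (fun T => ind (¬ ∀ u ∈ vs x.2.1, u ∈ vs T → u = v) * p n ^ (x.2.1 ∪ T).card)]
        have g1 : ∑ a ∈ univ.erase v, ∑ T ∈ (𝒞 n).filter (fun T => s(v, a) ∈ T),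
            ind (¬ ∀ u ∈ vs x.2.1, u ∈ vs T → u = v) * p n ^ (x.2.1 ∪ T).card ≤
            ∑ T ∈ (𝒞 n).filter (fun T => 2 ≤ (vs T ∩ vs x.2.1).card),
              h * (p n ^ k * p n ^ (T \ x.2.1).card) := by
          simp only [Finset.sum_filter]
          rw [Finset.sum_comm]
          refine Finset.sum_le_sum fun T hT => ?_
          rw [← Finset.sum_filter]
          by_cases hc : 2 ≤ (vs T ∩ vs x.2.1).card
          · rw [if_pos hc, Finset.sum_const, nsmul_eq_mul]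
            refine mul_le_mul ?_ ?_ (mul_nonneg (ind_nonneg _) (by positivity)) (by positivity)
            · rw [← S.cvs T hT]
              exact_mod_cast Finset.card_le_card fun a ha =>
                mem_vs.2 ⟨_, (Finset.mem_filter.1 ha).2, by simp⟩
            · rw [← pow_add, ← S.card _ x2, add_comm, Finset.card_sdiff_add_card,
                Finset.union_comm]
              exact mul_le_of_le_one_left (by positivity) (ind_le_one _)
          · rw [if_neg hc]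
            refine (Finset.sum_eq_zero fun a ha => ?_).le
            rw [ind_neg (not_not.2 fun u u1 u2 => by_contra fun u3 => hc ?_), zero_mul]
            rw [← Finset.card_pair u3]
            exact Finset.card_le_card (Finset.insert_subset (Finset.mem_inter.2 ⟨u2, u1⟩)
              (Finset.singleton_subset_iff.2 (Finset.mem_inter.2
                ⟨mem_vs.2 ⟨_, (Finset.mem_filter.1 ha).2, by simp⟩, mem_vs.2 ⟨_, x3, by simp⟩⟩)))
        rw [← Finset.mul_sum, ← Finset.mul_sum] at g1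
        have g2 := e1 x.2.1 (S.card _ x2).le _ fun T (hT : T ∈ (𝒞 n).filter
          (fun T => 2 ≤ (vs T ∩ vs x.2.1).card)) => Finset.mem_filter.1 hT
        have g3 := mul_le_mul_of_nonneg_left (mul_le_mul_of_nonneg_left g2 (pow_nonneg hp k))
          (Nat.cast_nonneg (α := ℝ) h)
        refine (mul_le_mul_of_nonneg_left (g1.trans g3) (by linarith only [hκ1])).trans (le_of_eq ?_)
        rw [hc]; ring
      refine (Finset.sum_le_card_nsmul _ _ _ f1).trans ?_
      have f2 := mul_le_mul_of_nonneg_right (abs_le.1 (e2 v)).2 hc0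
      rw [div_le_iff₀ hε] at e3
      have f3 := mul_le_mul_of_nonneg_right e3 (mul_nonneg hp (Nat.cast_nonneg n))
      rw [nsmul_eq_mul]
      nlinarith only [f2, f3])
  have e : (fun n v ω => hst (𝒞 n) ω b i j v) = fun n (v : Fin n) ω => ∑ x ∈ A n v,
      ind (x.2.1 ⊆ ω ∧ hholds (𝒞 n) ∅
        (x.2.1.image fun e => (e, x.2.1, if e = x.2.2 then j else i)) ω) := by
    funext n v ω
    unfold hst
    simp only [A, Finset.sum_sigma]
    refine Finset.sum_congr rfl fun a _ => Finset.sum_congr rfl fun T hT =>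
      Finset.sum_congr rfl fun g hg => ind_congr ?_
    have hgT := gset_sub (Finset.mem_filter.1 hT).2 hg
    unfold HTri hholds
    simp only [Finset.union_empty, Finset.forall_mem_image]
    refine and_congr_right fun _ => ⟨fun h e he => ?_, fun h => ⟨?_, fun e he hne => ?_⟩⟩
    · by_cases hc : e = g
      · rw [if_pos hc, hc]; exact h.1
      · rw [if_neg hc]; exact h.2 e he hc
    · have := h hgT
      rwa [if_pos rfl] at this
    · have := h he
      rwa [if_neg hne] at this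
  rw [e]
  exact key

end Pool.Agent.Work.MP_d4a230_co
end
end
end

-- merged part: Pool.Agent.Work.MP_d4a230_co.HBounds
section
-- merged part: Pool.Agent.Work.MP_d4a230_co.HDet
section
namespace Pool.Agent.Work.MP_d4a230_co

open Finset

variable {V : Type} [DecidableEq V] [Fintype V] {𝒞 : Finset (Finset (Sym2 V))} {h k K0 : ℕ}
  {ω : Finset (Sym2 V)}

/-- Degree of `v` in a set of pairs. -/
noncomputable def dgE (ω : Finset (Sym2 V)) (v : V) : ℝ := ∑ a ∈ univ.erase v, ind (s(v, a) ∈ ω)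

lemma dg_gr (ω : Finset (Sym2 V)) (v : V) : dg (gr ω) v = dgE ω v := by
  unfold dg dgE
  rw [eq_comm]
  refine Finset.sum_subset_zero_on_sdiff (Finset.subset_univ _) (fun a ha => ?_) fun a ha => ?_
  · have : a = v := by simpa using ha
    subst this
    exact ind_neg fun h => h.ne rfl
  · exact ind_congr (by rw [gr_adj]; simp [(Finset.mem_erase.1 ha).1.symm])

lemma star_sum {T : Finset (Sym2 V)} (hT : ∀ e ∈ T, ¬ e.IsDiag) (f : Sym2 V → ℝ) (v : V) :
    ∑ a ∈ univ.erase v, ind (s(v, a) ∈ T) * f s(v, a) = ∑ g ∈ T, ind (v ∈ g) * f g := by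
  have e1 : ∀ a, ind (s(v, a) ∈ T) * f s(v, a) = ∑ g ∈ T, ind (g = s(v, a)) * f g := by
    intro a
    by_cases h : s(v, a) ∈ T
    · rw [Finset.sum_eq_single_of_mem _ h, ind_pos h, ind_pos rfl]
      exact fun g _ hg => by rw [ind_neg hg, zero_mul]
    · rw [ind_neg h, zero_mul, eq_comm]
      exact Finset.sum_eq_zero fun g hg => by rw [ind_neg fun h' : g = s(v, a) => h (h' ▸ hg), zero_mul]
  simp only [e1]
  rw [Finset.sum_comm]
  refine Finset.sum_congr rfl fun g hg => ?_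
  rw [← Finset.sum_mul]
  congr 1
  by_cases hv : v ∈ g
  · obtain ⟨b, rfl⟩ := Sym2.mem_iff_exists.1 hv
    have hb : b ≠ v := fun h => hT _ hg (by simp [h])
    rw [Finset.sum_eq_single_of_mem b (by simpa using hb), ind_pos rfl, ind_pos hv]
    exact fun a _ ha => ind_neg fun h => ha (Sym2.congr_right.1 h).symm
  · rw [ind_neg hv]
    exact Finset.sum_eq_zero fun a _ => ind_neg fun h => hv (by simp [h])

lemma handshake (f : Sym2 V → ℝ) : ∑ v, ∑ a ∈ univ.erase v, f s(v, a) =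
    2 * ∑ e ∈ univ.filter (fun e : Sym2 V => ¬ e.IsDiag), f e := by
  have e1 : ∀ v, ∑ a ∈ univ.erase v, f s(v, a) =
      ∑ g ∈ univ.filter (fun e : Sym2 V => ¬ e.IsDiag), ind (v ∈ g) * f g := by
    intro v
    rw [← star_sum (fun e he => (Finset.mem_filter.1 he).2)]
    refine Finset.sum_congr rfl fun a ha => ?_
    rw [ind_pos (by simpa using (Finset.mem_erase.1 ha).1.symm), one_mul]
  simp only [e1]
  rw [Finset.sum_comm, Finset.mul_sum]
  refine Finset.sum_congr rfl fun g hg => ?_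
  rw [← Finset.sum_mul, sum_ind]
  have : (univ.filter fun v => v ∈ g) = g.toFinset := by ext; simp
  rw [this, Sym2.card_toFinset_of_not_isDiag _ (Finset.mem_filter.1 hg).2]
  norm_num

lemma hst_true (i j : ℕ) (v : V) : hst 𝒞 ω true i j v =
    ∑ a ∈ univ.erase v, ∑ T ∈ 𝒞, ind (s(v, a) ∈ T) * ind (HTri 𝒞 ω i j s(v, a) T) := by
  unfold hst gset
  simp only [cond_true, Finset.sum_singleton, Finset.sum_filter]
  refine Finset.sum_congr rfl fun a _ => Finset.sum_congr rfl fun T _ => ?_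
  split_ifs with h
  · rw [ind_pos h, one_mul]
  · rw [ind_neg h, zero_mul]

lemma hst_false (i j : ℕ) (v : V) : hst 𝒞 ω false i j v =
    ∑ a ∈ univ.erase v, ∑ T ∈ 𝒞, ind (s(v, a) ∈ T) * ∑ g ∈ T, ind (HTri 𝒞 ω i j g T) := by
  unfold hst gset
  simp only [cond_false, Finset.sum_filter]
  refine Finset.sum_congr rfl fun a _ => Finset.sum_congr rfl fun T _ => ?_
  split_ifs with h
  · rw [ind_pos h, one_mul]
  · rw [ind_neg h, zero_mul]

lemma hst_all (i : ℕ) (v : V) : hst 𝒞 ω true i i v =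
    ∑ a ∈ univ.erase v, ∑ T ∈ 𝒞, ind (s(v, a) ∈ T) * ind (HAll 𝒞 ω i T) := by
  rw [hst_true]
  refine Finset.sum_congr rfl fun a _ => Finset.sum_congr rfl fun T _ => ?_
  by_cases h : s(v, a) ∈ T
  · rw [HTri_iff h]
  · rw [ind_neg h, zero_mul, zero_mul]

theorem Sys.upper (S : Sys 𝒞 h k K0) {ω' : Finset (Sym2 V)} (hle : ω' ⊆ ω)
    (hfree : ∀ T ∈ 𝒞, ¬ T ⊆ ω') (s : ℕ) :
    ∑ v, dgE ω' v ≤ ∑ v, (hstE 𝒞 ω univ (2 * s + 2) v +
      ((k : ℝ) - 1) / k * hst 𝒞 ω true (2 * s + 1) (2 * s + 1) v) := by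
  have hD : ∀ T ∈ 𝒞, T ⊆ univ.filter (fun e : Sym2 V => ¬ e.IsDiag) := fun T hT e he =>
    Finset.mem_filter.2 ⟨Finset.mem_univ _, S.nd T hT e he⟩
  have e1 := hupper_det S.card _ hD hle hfree s
  have e2 := handshake (V := V) fun e => ind (e ∈ ω')
  have e3 := handshake (V := V) fun e => ind (e ∈ ω ∧ HF 𝒞 ω (2 * s + 2) e ∅)
  have e4 := handshake (V := V) fun e => ∑ T ∈ 𝒞, ind (e ∈ T) * ind (HAll 𝒞 ω (2 * s + 1) T)
  have e5 : ∑ e ∈ univ.filter (fun e : Sym2 V => ¬ e.IsDiag),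
      ∑ T ∈ 𝒞, ind (e ∈ T) * ind (HAll 𝒞 ω (2 * s + 1) T) =
      k * ∑ T ∈ 𝒞, ind (HAll 𝒞 ω (2 * s + 1) T) := by
    rw [Finset.sum_comm, Finset.mul_sum]
    refine Finset.sum_congr rfl fun T hT => ?_
    rw [← Finset.sum_mul, sum_ind, Finset.filter_mem_eq_inter, Finset.inter_eq_right.2 (hD T hT),
      S.card T hT]
  have hk : (k : ℝ) ≠ 0 := by
    have := S.h3; have := S.hk
    exact_mod_cast (by omega : k ≠ 0)
  simp only [Finset.sum_add_distrib, ← Finset.mul_sum, hst_all]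
  rw [e4, e5]
  unfold dgE hstE
  rw [e2, e3]
  have : ((k : ℝ) - 1) / k * (2 * (k * ∑ T ∈ 𝒞, ind (HAll 𝒞 ω (2 * s + 1) T))) =
      2 * (((k : ℝ) - 1) * ∑ T ∈ 𝒞, ind (HAll 𝒞 ω (2 * s + 1) T)) := by field_simp
  linarith only [e1, this]

/-- The statistic bounding the degree of `v` in the subgraph without copies from below. -/
noncomputable def hlow (𝒞 : Finset (Finset (Sym2 V))) (ω : Finset (Sym2 V)) (k s : ℕ) (v : V) :
    ℝ :=
  hstE 𝒞 ω univ (2 * s + 2) v +
    ((2 - 1 / (k : ℝ)) * hst 𝒞 ω true (2 * s + 1) (2 * s + 1) v +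
      (-1) * hst 𝒞 ω true (2 * s + 2) (2 * s + 2) v) +
    ∑ j ∈ range s, ((-1) * hst 𝒞 ω true (2 * j + 1) (2 * (j + 1) + 1) v +
      hst 𝒞 ω true (2 * j + 1) (2 * j + 1) v +
      (1 / (k : ℝ)) * hst 𝒞 ω false (2 * j + 1) (2 * (j + 1) + 1) v +
      (-1 / (k : ℝ)) * hst 𝒞 ω false (2 * j + 1) (2 * j + 1) v)

theorem Sys.lower (S : Sys 𝒞 h k K0) (ω : Finset (Sym2 V)) (s : ℕ) :
    ∃ R ⊆ ω, (∀ T ∈ 𝒞, ¬ T ⊆ R) ∧ ∃ dev : V → ℝ,
      ∑ v, dev v ^ 2 ≤ h * ∑ T ∈ 𝒞, ind (T ⊆ ω) ∧ ∀ v, hlow 𝒞 ω k s v - dev v ≤ dgE R v := by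
  classical
  rcases isEmpty_or_nonempty V with hV | hV
  · exact ⟨∅, Finset.empty_subset _, fun T hT h => (S.nonempty hT).ne_empty (Finset.subset_empty.1 h),
      fun _ => 0, by
        rw [Finset.sum_of_isEmpty]
        exact mul_nonneg (Nat.cast_nonneg _) (Finset.sum_nonneg fun _ _ => ind_nonneg _),
      fun v => isEmptyElim v⟩
  have : Nonempty (Sym2 V) := ⟨s(Classical.arbitrary V, Classical.arbitrary V)⟩
  set L := 2 * s + 1 with hL
  set U := 2 * s + 2 with hU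
  let 𝒯 := 𝒞.filter (HAll 𝒞 ω L)
  obtain ⟨σ, s1, s2⟩ := round_lemma (V := V) 𝒯 id (hwgt 𝒞 ω s)
    (fun T e v => ind (v ∈ e) - ∑ g ∈ T, ind (v ∈ g) * hwgt 𝒞 ω s T g) h (hwgt_nonneg s)
    (fun T hT => hwgt_sum s (S.nonempty (Finset.mem_filter.1 hT).1))
    (fun T hT v => by
      simp only [id, mul_sub, Finset.sum_sub_distrib, ← Finset.sum_mul]
      rw [hwgt_sum s (S.nonempty (Finset.mem_filter.1 hT).1), one_mul, sub_eq_zero]
      exact Finset.sum_congr rfl fun _ _ => mul_comm _ _)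
    (fun T hT e he => by
      have hT' := (Finset.mem_filter.1 hT).1
      rw [← S.cvs T hT', ← Finset.sum_subset (Finset.subset_univ (vs T))]
      · refine (Finset.sum_le_card_nsmul _ _ 1 fun v _ => ?_).trans (by simp)
        have f1 : 0 ≤ ∑ g ∈ T, ind (v ∈ g) * hwgt 𝒞 ω s T g :=
          Finset.sum_nonneg fun g _ => mul_nonneg (ind_nonneg _) (hwgt_nonneg _ _ _)
        have f2 : ∑ g ∈ T, ind (v ∈ g) * hwgt 𝒞 ω s T g ≤ 1 := by
          rw [← hwgt_sum (𝒞 := 𝒞) (ω := ω) s (S.nonempty hT')]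
          exact Finset.sum_le_sum fun g _ =>
            mul_le_of_le_one_left (hwgt_nonneg _ _ _) (ind_le_one _)
        exact (sq_le_one_iff_abs_le_one _).2 (abs_le.2
          ⟨by linarith only [f2, ind_nonneg (v ∈ e)], by linarith [ind_le_one (v ∈ e)]⟩)
      · intro v _ hv
        rw [ind_neg fun h => hv (mem_vs.2 ⟨e, he, h⟩), Finset.sum_eq_zero fun g hg => by
          rw [ind_neg fun h => hv (mem_vs.2 ⟨g, hg, h⟩), zero_mul]]
        simp)
  let R := ω.filter fun e => (¬ ∃ T ∈ 𝒞, e ∈ T ∧ HAll 𝒞 ω U T ∧ ¬ HAll 𝒞 ω L T) ∧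
    (HF 𝒞 ω U e ∅ ∨ ∃ T ∈ 𝒞, e ∈ T ∧ HAll 𝒞 ω L T ∧ σ T ≠ e)
  refine ⟨R, Finset.filter_subset _ _, hcover s σ (fun T hT hc => ?_)
    (fun e he => Finset.mem_filter.1 he) fun T hT => S.nonempty hT, _, s2.trans ?_, fun v => ?_⟩
  · obtain ⟨h1, h2⟩ := s1 T (Finset.mem_filter.2 ⟨hT, hc⟩)
    exact ⟨h1, fun g hg hf => hwgt_pos h1 h2 hg hf⟩
  · refine mul_le_mul_of_nonneg_left ?_ (Nat.cast_nonneg _)
    rw [← sum_ind]
    exact Finset.sum_le_sum fun T _ => ind_mono fun h => h.1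
  have c1 : ∑ a ∈ univ.erase v, (ind (s(v, a) ∈ ω ∧ HF 𝒞 ω U s(v, a) ∅) +
      ∑ T ∈ 𝒞, (ind (s(v, a) ∈ T) * ind (HAll 𝒞 ω L T) -
        ind (HAll 𝒞 ω L T) * ind (σ T = s(v, a))) -
      ∑ T ∈ 𝒞, (ind (s(v, a) ∈ T) * ind (HAll 𝒞 ω U T) -
        ind (s(v, a) ∈ T) * ind (HAll 𝒞 ω L T))) ≤ dgE R v := by
    clear * - V ω v 𝒞 U L σ R s h this
    refine Finset.sum_le_sum fun a _ => ?_
    set e := s(v, a)
    have n3 : ∀ T, 0 ≤ ind (e ∈ T) * ind (HAll 𝒞 ω U T) - ind (e ∈ T) * ind (HAll 𝒞 ω L T) :=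
      fun T => sub_nonneg.2 (mul_le_mul_of_nonneg_left (ind_mono fun h =>
        ⟨h.1, fun g hg => HF_odd_even s (s + 1) (h.2 g hg)⟩) (ind_nonneg _))
    have m1 : ind (e ∈ ω ∧ HF 𝒞 ω U e ∅) + ∑ T ∈ 𝒞, (ind (e ∈ T) * ind (HAll 𝒞 ω L T) -
        ind (HAll 𝒞 ω L T) * ind (σ T = e)) ≤
        ind (e ∈ ω ∧ (HF 𝒞 ω U e ∅ ∨ ∃ T ∈ 𝒞, e ∈ T ∧ HAll 𝒞 ω L T ∧ σ T ≠ e)) := by
      by_cases h : ∃ T ∈ 𝒞, e ∈ T ∧ HAll 𝒞 ω L T ∧ σ T ≠ e
      · obtain ⟨T, t1, t2, t3, t4⟩ := h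
        have hs : HSup 𝒞 ω s e T := ⟨t1, t2, t3.1, fun g hg _ => t3.2 g hg⟩
        have f1 : ∑ T' ∈ 𝒞, (ind (e ∈ T') * ind (HAll 𝒞 ω L T') -
            ind (HAll 𝒞 ω L T') * ind (σ T' = e)) ≤ ∑ T' ∈ 𝒞, ind (T' = T) := by
          refine Finset.sum_le_sum fun T' hT' => ?_
          rw [← ind_and]
          refine (sub_le_self _ (mul_nonneg (ind_nonneg _) (ind_nonneg _))).trans
            (ind_mono fun h => hsup_unique (t3.2 e t2) ⟨hT', h.1, h.2.1, fun g hg _ => h.2.2 g hg⟩)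
        rw [Finset.sum_eq_single_of_mem T t1 (f := fun T' => ind (T' = T))
          (fun T' _ h => ind_neg h), ind_pos rfl] at f1
        rw [ind_neg (q := _ ∧ HF 𝒞 ω U e ∅)
          (fun h4 => not_HF_iff.2 ⟨T, Finset.ne_empty_of_mem t2, hs⟩ h4.2),
          ind_pos (q := e ∈ ω ∧ _) ⟨t3.1 t2, Or.inr ⟨T, t1, t2, t3, t4⟩⟩]
        linarith
      · have f1 : ∑ T ∈ 𝒞, (ind (e ∈ T) * ind (HAll 𝒞 ω L T) -
            ind (HAll 𝒞 ω L T) * ind (σ T = e)) ≤ 0 := by
          refine Finset.sum_nonpos fun T hT => ?_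
          rw [← ind_and, ← ind_and, sub_nonpos]
          exact ind_mono fun h1 => ⟨h1.2, by_contra fun h2 => h ⟨T, hT, h1.1, h1.2, h2⟩⟩
        linarith [ind_mono (q := e ∈ ω ∧ HF 𝒞 ω U e ∅) (r := e ∈ ω ∧ (HF 𝒞 ω U e ∅ ∨
          ∃ T ∈ 𝒞, e ∈ T ∧ HAll 𝒞 ω L T ∧ σ T ≠ e)) fun h4 => ⟨h4.1, Or.inl h4.2⟩]
    by_cases hl : ∃ T ∈ 𝒞, e ∈ T ∧ HAll 𝒞 ω U T ∧ ¬ HAll 𝒞 ω L T
    · obtain ⟨T, t1, t2, t3, t4⟩ := hl
      have := Finset.single_le_sum (fun T _ => n3 T) t1
      rw [ind_pos t2, ind_pos t3, ind_neg t4] at this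
      linarith only [m1, this, ind_nonneg (e ∈ R), ind_le_one
        (e ∈ ω ∧ (HF 𝒞 ω U e ∅ ∨ ∃ T ∈ 𝒞, e ∈ T ∧ HAll 𝒞 ω L T ∧ σ T ≠ e))]
    · have := ind_mono (q := e ∈ ω ∧ (HF 𝒞 ω U e ∅ ∨ ∃ T ∈ 𝒞, e ∈ T ∧ HAll 𝒞 ω L T ∧ σ T ≠ e))
        (r := e ∈ R) (fun h => Finset.mem_filter.2 ⟨h.1, hl, h.2⟩)
      have n4 := Finset.sum_nonneg fun T (_ : T ∈ 𝒞) => n3 T
      linarith
  have c2 : ∑ a ∈ univ.erase v, ∑ T ∈ 𝒞, ind (HAll 𝒞 ω L T) * ind (σ T = s(v, a)) ≤
      ∑ T ∈ 𝒯, ind (v ∈ σ T) := by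
    rw [Finset.sum_comm, Finset.sum_filter]
    refine Finset.sum_le_sum fun T _ => ?_
    rw [← Finset.mul_sum]
    split_ifs with hc
    · rw [ind_pos hc, one_mul]
      by_cases hv : v ∈ σ T
      · obtain ⟨b, hb⟩ := Sym2.mem_iff_exists.1 hv
        rw [ind_pos hv, hb, ← sum_ind_eq b]
        exact (Finset.sum_le_sum fun a _ => ind_mono fun h => (Sym2.congr_right.1 h).symm).trans
          (Finset.sum_le_sum_of_subset_of_nonneg (Finset.subset_univ _) fun _ _ _ => ind_nonneg _)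
      · rw [ind_neg hv]
        exact (Finset.sum_eq_zero fun a _ => ind_neg fun h => hv (by simp [h])).le
    · rw [ind_neg hc, zero_mul]
  have c3 : ∑ T ∈ 𝒯, ∑ g ∈ T, ind (v ∈ g) * hwgt 𝒞 ω s T g =
      ∑ a ∈ univ.erase v, ∑ T ∈ 𝒞, (ind (s(v, a) ∈ T) * ind (HForced 𝒞 ω s s(v, a) T) +
        1 / (k : ℝ) * (ind (s(v, a) ∈ T) * ind (HAll 𝒞 ω L T)) -
        1 / (k : ℝ) * (ind (s(v, a) ∈ T) * ∑ g ∈ T, ind (HForced 𝒞 ω s g T))) := by
    rw [Finset.sum_comm, Finset.sum_filter]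
    refine Finset.sum_congr rfl fun T hT => ?_
    split_ifs with hc
    · rw [← star_sum (S.nd T hT)]
      refine Finset.sum_congr rfl fun a _ => ?_
      unfold hwgt
      rw [ind_pos hc, S.card T hT]; ring
    · rw [eq_comm]
      refine Finset.sum_eq_zero fun a _ => ?_
      rw [ind_neg hc, ind_neg (q := HForced _ _ _ _ _) fun h => hc h.crit,
        Finset.sum_eq_zero fun g _ => ind_neg fun h => hc h.crit]
      ring
  have f1 : ∑ a ∈ univ.erase v, ∑ T ∈ 𝒞, ind (s(v, a) ∈ T) * ind (HForced 𝒞 ω s s(v, a) T) =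
      ∑ j ∈ range s, (hst 𝒞 ω true (2 * j + 1) (2 * (j + 1) + 1) v -
        hst 𝒞 ω true (2 * j + 1) (2 * j + 1) v) := by
    simp only [ind_hforced, hst_true, Finset.mul_sum, ← Finset.sum_sub_distrib, ← mul_sub]
    rw [eq_comm, Finset.sum_comm]
    exact Finset.sum_congr rfl fun a _ => Finset.sum_comm
  have f2 : ∑ a ∈ univ.erase v, ∑ T ∈ 𝒞, ind (s(v, a) ∈ T) * ∑ g ∈ T, ind (HForced 𝒞 ω s g T) =
      ∑ j ∈ range s, (hst 𝒞 ω false (2 * j + 1) (2 * (j + 1) + 1) v -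
        hst 𝒞 ω false (2 * j + 1) (2 * j + 1) v) := by
    simp only [ind_hforced, hst_false, Finset.mul_sum, ← Finset.sum_sub_distrib, ← mul_sub]
    rw [eq_comm, Finset.sum_comm]
    refine Finset.sum_congr rfl fun a _ => ?_
    rw [Finset.sum_comm]
    exact Finset.sum_congr rfl fun T _ => Finset.sum_comm
  simp only [Finset.sum_add_distrib, Finset.sum_sub_distrib, ← Finset.mul_sum] at c1 c3 f1 f2 ⊢
  rw [f1, f2] at c3
  unfold hlow hstE
  simp only [Finset.sum_add_distrib, ← Finset.mul_sum]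
  rw [← hL, ← hU, hst_all, hst_all]
  have e : (-1 / (k : ℝ)) = -(1 / k) := by ring
  rw [e]
  linarith only [c2, c1, c3]

end Pool.Agent.Work.MP_d4a230_co
end

-- merged part: Pool.Agent.Work.MP_d4a230_co.HClean
section
namespace Pool.Agent.Work.MP_d4a230_co

open Finset

variable {V : Type} [DecidableEq V]

lemma closure_abs [Fintype V] (ld : Finset V → V → ℝ) (l0 : ∀ X a, 0 ≤ ld X a)
    (lm : ∀ X Y a, X ⊆ Y → ld X a ≤ ld Y a) {D : ℝ} (hD : 0 ≤ D) (le : ∀ a, ld ∅ a ≤ D) {m : ℕ}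
    (h1 : ∀ X : Finset V, X.Nonempty → X.card ≤ 2 * m → ∑ v ∈ X, ld X v < D / 2 * X.card)
    (B0 : Finset V) (hB0 : B0.card ≤ m) :
    ∃ B, B0 ⊆ B ∧ B.card ≤ 2 * m ∧ ∀ v ∉ B, ld B v ≤ D := by
  classical
  let C : Finset (Finset V) := univ.filter fun B => B0 ⊆ B ∧ B.card ≤ 2 * m ∧
    D * ((B.card : ℝ) - B0.card) ≤ ∑ v ∈ B, ld B v
  have hne : C.Nonempty := ⟨B0, Finset.mem_filter.2 ⟨Finset.mem_univ _, Finset.Subset.refl _,
    by omega, by simpa using Finset.sum_nonneg fun v _ => l0 B0 v⟩⟩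
  obtain ⟨B, hB, hmax⟩ := Finset.exists_max_image C Finset.card hne
  obtain ⟨_, hB1, hB2, hB3⟩ := Finset.mem_filter.1 hB
  refine ⟨B, hB1, hB2, fun v hv => ?_⟩
  by_contra hc
  have hc := not_le.1 hc
  rcases hB2.lt_or_eq with hlt | heq
  · have hmem : insert v B ∈ C := by
      refine Finset.mem_filter.2 ⟨Finset.mem_univ _, hB1.trans (Finset.subset_insert _ _), ?_, ?_⟩
      · rw [Finset.card_insert_of_notMem hv]; omega
      · rw [Finset.card_insert_of_notMem hv, Finset.sum_insert hv]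
        have e1 := lm _ _ v (Finset.subset_insert v B)
        have e2 : ∑ u ∈ B, ld B u ≤ ∑ u ∈ B, ld (insert v B) u :=
          Finset.sum_le_sum fun u _ => lm _ _ u (Finset.subset_insert v B)
        push_cast; linarith
    have := hmax _ hmem
    rw [Finset.card_insert_of_notMem hv] at this
    omega
  · have hBne : B.Nonempty := by
      rw [Finset.nonempty_iff_ne_empty]
      rintro rfl
      linarith [le v]
    have e1 := h1 B hBne hB2
    have e2 : (B.card : ℝ) = 2 * m := by exact_mod_cast heq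
    have e3 : (B0.card : ℝ) ≤ m := by exact_mod_cast hB0
    nlinarith only [hB3, e1, hD, e2, e3]

lemma degen_abs (ld : Finset V → V → ℝ) (lm : ∀ X Y a, X ⊆ Y → ld X a ≤ ld Y a) {D : ℝ}
    (le : ∀ a, ld ∅ a ≤ D) (S : Finset V) : ∀ (n : ℕ) (B : Finset V), B.card = n →
    (∀ X ⊆ B, X.Nonempty → ∃ v ∈ X, ld X v ≤ D) →
    ∃ κ : V → ℕ, Set.InjOn κ B ∧ (∀ y ∈ B, κ y < n) ∧
      (∀ y ∈ B, ∀ a ∈ B, a ∈ S → κ y < κ a → y ∈ S) ∧
      ∀ a ∈ B, ld ((B \ S).filter fun y => κ y < κ a) a ≤ D := by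
  intro n
  induction n with
  | zero =>
    intro B hB _
    rw [Finset.card_eq_zero] at hB
    subst hB
    exact ⟨fun _ => 0, by simp, by simp, by simp, by simp⟩
  | succ n ih =>
    intro B hB h
    obtain ⟨a0, ha0, h2, h3⟩ : ∃ a0 ∈ B, (a0 ∈ S → ∀ y ∈ B, y ∈ S) ∧ ld (B \ S) a0 ≤ D := by
      by_cases hne : (B \ S).Nonempty
      · obtain ⟨v, hv, hv2⟩ := h _ Finset.sdiff_subset hne
        exact ⟨v, (Finset.mem_sdiff.1 hv).1, fun h => absurd h (Finset.mem_sdiff.1 hv).2, hv2⟩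
      · obtain ⟨v, hv⟩ : B.Nonempty := Finset.card_pos.1 (by omega)
        rw [Finset.not_nonempty_iff_eq_empty] at hne
        refine ⟨v, hv, fun _ y hy => ?_, by rw [hne]; exact le v⟩
        by_contra hc
        exact Finset.notMem_empty y (hne ▸ Finset.mem_sdiff.2 ⟨hy, hc⟩)
    obtain ⟨κ, k1, k2, k3, k4⟩ := ih (B.erase a0) (by rw [Finset.card_erase_of_mem ha0]; omega)
      fun X hX => h X (hX.trans (Finset.erase_subset _ _))
    have hm : ∀ y ∈ B, y ≠ a0 → y ∈ B.erase a0 := fun y hy h => Finset.mem_erase.2 ⟨h, hy⟩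
    refine ⟨Function.update κ a0 n, ?_, ?_, ?_, ?_⟩
    · intro x hx y hy hxy
      by_cases h1 : x = a0 <;> by_cases h2 : y = a0
      · rw [h1, h2]
      · subst h1
        rw [Function.update_self, Function.update_of_ne h2] at hxy
        have := k2 y (hm y hy h2); omega
      · subst h2
        rw [Function.update_self, Function.update_of_ne h1] at hxy
        have := k2 x (hm x hx h1); omega
      · rw [Function.update_of_ne h1, Function.update_of_ne h2] at hxy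
        exact k1 (hm x hx h1) (hm y hy h2) hxy
    · intro y hy
      by_cases h1 : y = a0
      · subst h1; rw [Function.update_self]; omega
      · rw [Function.update_of_ne h1]; have := k2 y (hm y hy h1); omega
    · intro y hy a ha haS hlt
      by_cases h1 : a = a0
      · subst h1; exact h2 haS y hy
      · by_cases h4 : y = a0
        · subst h4
          rw [Function.update_self, Function.update_of_ne h1] at hlt
          have := k2 a (hm a ha h1); omega
        · rw [Function.update_of_ne h1, Function.update_of_ne h4] at hlt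
          exact k3 y (hm y hy h4) a (hm a ha h1) haS hlt
    · intro a ha
      by_cases h1 : a = a0
      · subst h1
        exact (lm _ _ _ (Finset.filter_subset _ _)).trans h3
      · refine (lm _ _ _ fun y hy => ?_).trans (k4 a (hm a ha h1))
        obtain ⟨y1, y2⟩ := Finset.mem_filter.1 hy
        obtain ⟨y3, y4⟩ := Finset.mem_sdiff.1 y1
        have : y ≠ a0 := by
          rintro rfl
          rw [Function.update_self, Function.update_of_ne h1] at y2
          have := k2 a (hm a ha h1); omega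
        rw [Function.update_of_ne h1, Function.update_of_ne this] at y2
        exact Finset.mem_filter.2 ⟨Finset.mem_sdiff.2 ⟨hm y y3 this, y4⟩, y2⟩

/-- Number of present copies through `a` and another vertex in `X`. -/
noncomputable def hld (𝒞 : Finset (Finset (Sym2 V))) (ω : Finset (Sym2 V)) (X : Finset V) (a : V) :
    ℝ := ∑ T ∈ 𝒞, ind (T ⊆ ω ∧ a ∈ vs T ∧ ∃ y ∈ X, y ≠ a ∧ y ∈ vs T)

variable {𝒞 : Finset (Finset (Sym2 V))} {h k K0 : ℕ} {ω : Finset (Sym2 V)}

lemma hld_mono (X Y : Finset V) (a : V) (hXY : X ⊆ Y) : hld 𝒞 ω X a ≤ hld 𝒞 ω Y a :=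
  Finset.sum_le_sum fun _ _ => ind_mono fun ⟨h1, h2, y, h3, h4⟩ => ⟨h1, h2, y, hXY h3, h4⟩

lemma hld_union (X Y : Finset V) (a : V) : hld 𝒞 ω (X ∪ Y) a ≤ hld 𝒞 ω X a + hld 𝒞 ω Y a := by
  unfold hld
  rw [← Finset.sum_add_distrib]
  refine Finset.sum_le_sum fun T _ => le_trans (ind_mono ?_) (ind_or_le _ _)
  rintro ⟨h1, h2, y, h3, h4⟩
  exact (Finset.mem_union.1 h3).imp (fun h => ⟨h1, h2, y, h, h4⟩) fun h => ⟨h1, h2, y, h, h4⟩

theorem Sys.clean [Fintype V] (S0 : Sys 𝒞 h k K0) {D : ℝ} (hD : 0 ≤ D) {m : ℕ}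
    {R : Finset (Sym2 V)} (hR : R ⊆ ω) (hfree : ∀ T ∈ 𝒞, ¬ T ⊆ R) (B0 S : Finset V) (hS : S ⊆ B0)
    (hB0 : B0.card ≤ m) (hST : ∀ T ∈ 𝒞, T ⊆ ω → (vs T ∩ S).card < 3)
    (h1 : ∀ X : Finset V, X.Nonempty → X.card ≤ 2 * m → ∑ v ∈ X, hld 𝒞 ω X v < D / 2 * X.card)
    (h4 : ∀ v, hld 𝒞 ω S v ≤ D) :
    ∃ ω' ⊆ ω, (∀ T ∈ 𝒞, ¬ T ⊆ ω') ∧ (∀ a ∈ S, ∀ b ∈ S, s(a, b) ∈ ω → s(a, b) ∈ ω') ∧
      (∀ v, dgE R v - 2 * D ≤ dgE ω' v) ∧ ∀ v ∈ B0, dgE ω v - 2 * D ≤ dgE ω' v := by
  classical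
  rcases isEmpty_or_nonempty V with hV | hV
  · exact ⟨R, hR, hfree, fun a => isEmptyElim a, fun a => isEmptyElim a, fun a => isEmptyElim a⟩
  have l0 : ∀ X a, 0 ≤ hld 𝒞 ω X a := fun X a => Finset.sum_nonneg fun _ _ => ind_nonneg _
  have le : ∀ a, hld 𝒞 ω ∅ a ≤ D := fun a => (hld_mono _ _ a (Finset.empty_subset S)).trans (h4 a)
  obtain ⟨B, hB1, hB2, hB3⟩ := closure_abs (hld 𝒞 ω) l0 hld_mono hD le h1 B0 hB0
  obtain ⟨κ, k1, k2, k3, k4⟩ := degen_abs (hld 𝒞 ω) hld_mono le S B.card B rfl (by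
    intro X hX hne
    by_contra hc
    push Not at hc
    have e1 := h1 X hne ((Finset.card_le_card hX).trans hB2)
    have e2 : ∑ _v ∈ X, D ≤ ∑ v ∈ X, hld 𝒞 ω X v := Finset.sum_le_sum fun v hv => (hc v hv).le
    rw [Finset.sum_const, nsmul_eq_mul] at e2
    have e3 := mul_nonneg hD (Nat.cast_nonneg (α := ℝ) X.card)
    linarith only [e1, e2, e3])
  let ρ : V → ℕ := fun v => if v ∈ B then κ v else B.card
  have r1 : ∀ v ∈ B, ρ v = κ v := fun v hv => if_pos hv
  have r2 : ∀ v ∉ B, ρ v = B.card := fun v hv => if_neg hv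
  have hex : ∀ T : Finset (Sym2 V), ∃ (y : V) (e : Sym2 V), T ∈ 𝒞 →
      y ∈ vs T ∧ (∀ x ∈ vs T, ρ y ≤ ρ x) ∧ e ∈ T ∧ y ∉ e := by
    intro T
    by_cases hT : T ∈ 𝒞
    · obtain ⟨y, y1, y2⟩ := Finset.exists_min_image (vs T) ρ
        (Finset.card_pos.1 (by have := S0.cvs T hT; have := S0.h3; omega))
      obtain ⟨e, e1, e2⟩ := S0.exists_avoid hT y
      exact ⟨y, e, fun _ => ⟨y1, y2, e1, e2⟩⟩
    · exact ⟨Classical.arbitrary V, s(Classical.arbitrary V, Classical.arbitrary V),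
        fun h => absurd h hT⟩
  choose y del hy using hex
  have hlt : ∀ T ∈ 𝒞, y T ∈ B → ∀ a ∈ del T, a ∈ B → κ (y T) < κ a := by
    intro T hT hB a ha haB
    obtain ⟨-, e2, e3, e4⟩ := hy T hT
    have := e2 a (mem_vs.2 ⟨_, e3, ha⟩)
    rw [r1 _ hB, r1 _ haB] at this
    exact lt_of_le_of_ne this fun h => e4 (k1 hB haB h ▸ ha)
  let ω' := ω.filter fun e => ((∃ x ∈ e, x ∈ B) ∨ e ∈ R) ∧
    ¬ ∃ T ∈ 𝒞, T ⊆ ω ∧ y T ∈ B ∧ del T = e
  have hload : ∀ v, ∑ a ∈ univ.erase v, ind (∃ T ∈ 𝒞, T ⊆ ω ∧ y T ∈ B ∧ del T = s(v, a)) ≤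
      2 * D := by
    intro v
    have e1 : ∀ Y : Finset V, (∀ T ∈ 𝒞, y T ∈ B → v ∈ del T → y T ∈ Y) →
        ∑ a ∈ univ.erase v, ind (∃ T ∈ 𝒞, T ⊆ ω ∧ y T ∈ B ∧ del T = s(v, a)) ≤ hld 𝒞 ω Y v := by
      intro Y hY
      refine (Finset.sum_le_sum fun a _ => ind_exists_le _ _).trans ?_
      rw [Finset.sum_comm]
      refine Finset.sum_le_sum fun T hT => ?_
      by_cases hc : T ⊆ ω ∧ y T ∈ B ∧ v ∈ del T
      · obtain ⟨b, hb⟩ := Sym2.mem_iff_exists.1 hc.2.2
        obtain ⟨f1, -, f3, f4⟩ := hy T hT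
        rw [ind_pos ⟨hc.1, mem_vs.2 ⟨_, f3, hc.2.2⟩, y T, hY T hT hc.2.1 hc.2.2,
          fun h => f4 (h ▸ hc.2.2), f1⟩, ← sum_ind_eq b, hb]
        exact (Finset.sum_le_sum fun a _ => ind_mono fun h =>
          (Sym2.congr_right.1 h.2.2).symm).trans
          (Finset.sum_le_sum_of_subset_of_nonneg (Finset.subset_univ _) fun _ _ _ => ind_nonneg _)
      · exact (Finset.sum_eq_zero fun a _ => ind_neg fun h =>
          hc ⟨h.1, h.2.1, by simp [h.2.2]⟩).le.trans (ind_nonneg _)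
    by_cases hv : v ∈ B
    · refine (e1 (S ∪ (B \ S).filter fun x => κ x < κ v) fun T hT f1 f2 => ?_).trans
        ((hld_union _ _ _).trans (by linarith only [h4 v, k4 v hv]))
      by_cases hc : y T ∈ S
      · exact Finset.mem_union_left _ hc
      · exact Finset.mem_union_right _ (Finset.mem_filter.2
          ⟨Finset.mem_sdiff.2 ⟨f1, hc⟩, hlt T hT f1 v f2 hv⟩)
    · exact (e1 B fun T _ f1 _ => f1).trans (by linarith [hB3 v hv])
  have hdeg : ∀ (ω1 : Finset (Sym2 V)) (v : V), ω1 ⊆ ω →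
      (∀ b, s(v, b) ∈ ω1 → v ∈ B ∨ s(v, b) ∈ R) → dgE ω1 v - 2 * D ≤ dgE ω' v := by
    intro ω1 v h1 hv
    have e1 : dgE ω1 v ≤ dgE ω' v +
        ∑ a ∈ univ.erase v, ind (∃ T ∈ 𝒞, T ⊆ ω ∧ y T ∈ B ∧ del T = s(v, a)) := by
      unfold dgE
      rw [← Finset.sum_add_distrib]
      refine Finset.sum_le_sum fun b _ => le_trans (ind_mono fun h => ?_) (ind_or_le _ _)
      by_cases hy : ∃ T ∈ 𝒞, T ⊆ ω ∧ y T ∈ B ∧ del T = s(v, b)
      · exact Or.inr hy
      · exact Or.inl (Finset.mem_filter.2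
          ⟨h1 h, (hv b h).imp (fun h => ⟨v, Sym2.mem_mk_left _ _, h⟩) id, hy⟩)
    linarith [hload v]
  refine ⟨ω', Finset.filter_subset _ _, fun T hT hsub => ?_, fun a ha b hb hab => ?_,
    fun v => hdeg R v hR fun b h => Or.inr h,
    fun v hv => hdeg ω v (Finset.Subset.refl _) fun b _ => Or.inl (hB1 hv)⟩
  · obtain ⟨f1, f2, f3, f4⟩ := hy T hT
    by_cases hyB : y T ∈ B
    · exact (Finset.mem_filter.1 (hsub f3)).2.2
        ⟨T, hT, hsub.trans (Finset.filter_subset _ _), hyB, rfl⟩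
    · refine hfree T hT fun e he => (Finset.mem_filter.1 (hsub he)).2.1.resolve_left ?_
      rintro ⟨x, x1, x2⟩
      have := f2 x (mem_vs.2 ⟨e, he, x1⟩)
      rw [r2 _ hyB, r1 _ x2] at this
      exact absurd (k2 x x2) (not_lt.2 this)
  · refine Finset.mem_filter.2 ⟨hab, Or.inl ⟨a, Sym2.mem_mk_left _ _, hB1 (hS ha)⟩, ?_⟩
    rintro ⟨T, hT, t1, t2, t3⟩
    obtain ⟨f1, -, f3, f4⟩ := hy T hT
    have g1 := k3 _ t2 a (hB1 (hS ha)) ha (hlt T hT t2 a (by simp [t3]) (hB1 (hS ha)))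
    have g2 : insert (y T) (del T).toFinset ⊆ vs T ∩ S := by
      refine Finset.insert_subset (Finset.mem_inter.2 ⟨f1, g1⟩) fun x hx => ?_
      have hx' := Sym2.mem_toFinset.1 hx
      refine Finset.mem_inter.2 ⟨mem_vs.2 ⟨_, f3, hx'⟩, ?_⟩
      rw [t3] at hx'
      rcases Sym2.mem_iff.1 hx' with rfl | rfl <;> assumption
    have g3 := Finset.card_le_card g2
    rw [Finset.card_insert_of_notMem fun h => f4 (Sym2.mem_toFinset.1 h),
      Sym2.card_toFinset_of_not_isDiag _ (S0.nd T hT _ f3)] at g3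
    have := hST T hT t1
    omega

end Pool.Agent.Work.MP_d4a230_co
end

-- merged part: Pool.Agent.Work.MP_d4a230_co.HTail
section
namespace Pool.Agent.Work.MP_d4a230_co

open Finset

section General

variable {ι κ : Type} [DecidableEq ι] [DecidableEq κ]

/-- Pairwise disjointness of the sets attached to the members of a family. -/
def PD (Q : κ → Finset ι) (M : Finset κ) : Prop :=
  ∀ T ∈ M, ∀ T' ∈ M, T ≠ T' → Disjoint (Q T) (Q T')

lemma max_disj (𝓐 : Finset κ) (Q : κ → Finset ι) {k mult : ℕ} (hne : ∀ T ∈ 𝓐, (Q T).Nonempty)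
    (hk : ∀ T ∈ 𝓐, (Q T).card ≤ k) (hm : ∀ e, (𝓐.filter fun T => e ∈ Q T).card ≤ mult) :
    ∃ M ⊆ 𝓐, PD Q M ∧ 𝓐.card ≤ k * mult * M.card := by
  classical
  obtain ⟨M, hM, hmax⟩ := Finset.exists_max_image (𝓐.powerset.filter (PD Q)) Finset.card
    ⟨∅, Finset.mem_filter.2 ⟨Finset.empty_mem_powerset _, fun T hT => by simp at hT⟩⟩
  obtain ⟨m1, m2⟩ := Finset.mem_filter.1 hM
  have m1 := Finset.mem_powerset.1 m1
  refine ⟨M, m1, m2, ?_⟩
  have hsub : 𝓐 ⊆ (M.biUnion Q).biUnion fun e => 𝓐.filter fun T => e ∈ Q T := by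
    intro T hT
    by_contra hc
    have hd : ∀ T' ∈ M, Disjoint (Q T) (Q T') := fun T' hT' => Finset.disjoint_left.2
      fun e e1 e2 => hc (Finset.mem_biUnion.2 ⟨e, Finset.mem_biUnion.2 ⟨T', hT', e2⟩,
        Finset.mem_filter.2 ⟨hT, e1⟩⟩)
    have hTM : T ∉ M := fun h => (hne T hT).ne_empty (disjoint_self.1 (hd T h))
    have := hmax (insert T M) (Finset.mem_filter.2 ⟨Finset.mem_powerset.2
      (Finset.insert_subset hT m1), fun A hA B hB hAB => by
        rcases Finset.mem_insert.1 hA with a1 | a1 <;> rcases Finset.mem_insert.1 hB with b1 | b1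
        · exact absurd (a1.trans b1.symm) hAB
        · exact a1 ▸ hd B b1
        · exact b1 ▸ (hd A a1).symm
        · exact m2 A a1 B b1 hAB⟩)
    rw [Finset.card_insert_of_notMem hTM] at this
    omega
  refine (Finset.card_le_card hsub).trans ((Finset.card_biUnion_le_card_mul _ _ _
    fun e _ => hm e).trans ?_)
  have := Finset.card_biUnion_le_card_mul M Q k fun T hT => hk T (m1 hT)
  nlinarith only [this]

omit [DecidableEq κ] in
lemma disj_tail [Fintype ι] {p : ℝ} (h0 : 0 ≤ p) (h1 : p ≤ 1) (𝓐 : Finset κ) (Q : κ → Finset ι)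
    (P : Finset ι) (hP : ∀ T ∈ 𝓐, Disjoint P (Q T)) {t j w : ℝ} (ht : 0 ≤ t)
    (hw : ∑ T ∈ 𝓐, p ^ (Q T).card ≤ w) :
    Pr p (fun ω => ∃ M ∈ 𝓐.powerset, PD Q M ∧ j ≤ M.card ∧ P ⊆ ω ∧ ∀ T ∈ M, Q T ⊆ ω) ≤
      p ^ P.card * Real.exp (Real.exp t * w - t * j) := by
  have e1 : ∑ M ∈ 𝓐.powerset, ∏ T ∈ M, (Real.exp t * p ^ (Q T).card) ≤
      Real.exp (Real.exp t * w) := by
    rw [← Finset.prod_one_add]
    refine (Finset.prod_le_prod (fun T _ => by positivity)
      (g := fun T => Real.exp (Real.exp t * p ^ (Q T).card)) fun T _ => ?_).trans ?_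
    · linarith [Real.add_one_le_exp (Real.exp t * p ^ (Q T).card)]
    · rw [← Real.exp_sum, ← Finset.mul_sum]
      exact Real.exp_le_exp.2 (mul_le_mul_of_nonneg_left hw (Real.exp_pos _).le)
  refine (Pr_exists_le h0 h1 _ _).trans (le_trans (Finset.sum_le_sum (g := fun M =>
    p ^ P.card * Real.exp (-(t * j)) * ∏ T ∈ M, (Real.exp t * p ^ (Q T).card)) fun M hM => ?_) ?_)
  · have hM := Finset.mem_powerset.1 hM
    by_cases hc : PD Q M ∧ j ≤ M.card
    · refine (Pr_mono h0 h1 (B := fun ω => P ∪ M.biUnion Q ⊆ ω) fun ω h =>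
        Finset.union_subset h.2.2.1 (Finset.biUnion_subset.2 h.2.2.2)).trans ?_
      rw [Pr_subset, Finset.card_union_of_disjoint ((Finset.disjoint_biUnion_right _ _ _).2
        fun T hT => hP T (hM hT)), Finset.card_biUnion hc.1, pow_add, Finset.prod_mul_distrib,
        Finset.prod_const, Finset.prod_pow_eq_pow_sum, mul_assoc, ← mul_assoc (Real.exp _),
        ← Real.exp_nat_mul, ← Real.exp_add]
      refine mul_le_mul_of_nonneg_left (le_mul_of_one_le_left (by positivity)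
        (Real.one_le_exp ?_)) (by positivity)
      nlinarith only [ht, hc, hc.2]
    · refine le_trans (Pr_mono h0 h1 (B := fun _ => False) fun ω h => hc ⟨h.1, h.2.1⟩) ?_
      rw [Pr_false]
      exact mul_nonneg (by positivity) (Finset.prod_nonneg fun _ _ => by positivity)
  · rw [← Finset.mul_sum, sub_eq_add_neg, add_comm, Real.exp_add, ← mul_assoc]
    exact mul_le_mul_of_nonneg_left e1 (by positivity)

end General

variable {V : Type} [DecidableEq V] [Fintype V] {𝒞 : Finset (Finset (Sym2 V))} {h k K0 : ℕ}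
  {ω : Finset (Sym2 V)} {p θ : ℝ}

/-- The members of `T` not inside `U`. -/
def outE (U : Finset V) (T : Finset (Sym2 V)) : Finset (Sym2 V) :=
  T.filter fun e => ¬ e.toFinset ⊆ U

/-- A large present sunflower of copies with a kernel of at least three vertices. -/
def Sun (𝒞 : Finset (Finset (Sym2 V))) (h r : ℕ) (ω : Finset (Sym2 V)) : Prop :=
  ∃ U ∈ univ.filter (fun U : Finset V => 3 ≤ U.card ∧ U.card < h),
    ∃ M ∈ (𝒞.filter fun T => U ⊆ vs T).powerset, PD (outE U) M ∧ (r : ℝ) ≤ M.card ∧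
      ∅ ⊆ ω ∧ ∀ T ∈ M, outE U T ⊆ ω

lemma Sys.sun_bound (S : Sys 𝒞 h k K0) (h0 : 0 ≤ p) (h1 : p ≤ 1) (hθ : 0 < θ) (hθ1 : θ ≤ 1)
    (hD : Dense 𝒞 h k p θ) (hn : 0 < Fintype.card V) (r : ℕ) :
    Pr p (Sun 𝒞 h r) ≤ Real.exp (K0 + 1) * ((Fintype.card V : ℝ) ^ h * θ ^ r) := by
  have hn1 : (1 : ℝ) ≤ Fintype.card V := by exact_mod_cast hn
  have e0 := sum_pow_card_le (V := V) (y := 1 / Fintype.card V) (by positivity)
  rw [mul_one_div_cancel (by positivity)] at e0
  refine (Pr_exists_le h0 h1 _ _).trans (le_trans (Finset.sum_le_sum (g := fun U : Finset V =>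
    Real.exp K0 * ((Fintype.card V : ℝ) ^ h * θ ^ r) * (1 / Fintype.card V) ^ U.card)
    fun U hU => ?_) ?_)
  · obtain ⟨u1, u2⟩ := (Finset.mem_filter.1 hU).2
    have e1 := disj_tail h0 h1 (𝒞.filter fun T => U ⊆ vs T) (outE U) ∅
      (fun _ _ => Finset.disjoint_empty_left _) (t := -Real.log θ) (j := r) (w := K0 * θ)
      (neg_nonneg.2 (Real.log_nonpos hθ.le hθ1)) (le_trans (le_of_eq (Finset.sum_congr rfl
        fun T hT => by
          have := Finset.card_filter_add_card_filter_not (s := T) fun e => e.toFinset ⊆ U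
          rw [S.card T (Finset.mem_filter.1 hT).1] at this
          congr 1
          unfold outE ein; omega)) (S.wU hθ.le hD u1 u2))
    refine e1.trans ?_
    rw [Finset.card_empty, pow_zero, one_mul, Real.exp_neg, Real.exp_log hθ, neg_mul,
      sub_neg_eq_add, Real.exp_add, mul_comm (Real.log θ), Real.exp_nat_mul, Real.exp_log hθ,
      show θ⁻¹ * (K0 * θ) = K0 by field_simp, mul_assoc]
    refine mul_le_mul_of_nonneg_left ?_ (by positivity)
    rw [mul_right_comm]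
    refine le_mul_of_one_le_left (by positivity) ?_
    rw [one_div, inv_pow, ← div_eq_mul_inv, one_le_div (by positivity)]
    exact pow_le_pow_right₀ hn1 u2.le
  · rw [← Finset.mul_sum, Real.exp_add, mul_right_comm (Real.exp _) (Real.exp 1)]
    refine mul_le_mul_of_nonneg_left (le_trans ?_ e0) (by positivity)
    exact Finset.sum_le_sum_of_subset_of_nonneg (Finset.subset_univ _) fun _ _ _ => by positivity

lemma Sys.mult_le (S : Sys 𝒞 h k K0) {r : ℕ} (hr : 0 < r) (hs : ¬ Sun 𝒞 h r ω) (d : ℕ) :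
    ∀ U : Finset V, 3 ≤ U.card → h ≤ U.card + d →
      (𝒞.filter fun T => T ⊆ ω ∧ U ⊆ vs T).card ≤ K0 * (h * r) ^ d := by
  have base : ∀ U : Finset V, h ≤ U.card → (𝒞.filter fun T => T ⊆ ω ∧ U ⊆ vs T).card ≤ K0 :=
    fun U hU => le_trans (Finset.card_le_card fun T hT => by
      obtain ⟨t1, -, t2⟩ := Finset.mem_filter.1 hT
      exact Finset.mem_filter.2 ⟨t1, (Finset.eq_of_subset_of_card_le t2
        (by rw [S.cvs T t1]; exact hU)).symm⟩) (S.mult U)
  induction d with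
  | zero => exact fun U _ hU => (base U hU).trans (by simp)
  | succ d ih =>
    intro U u1 u2
    by_cases hU : h ≤ U.card
    · have := S.h3
      exact (base U hU).trans (Nat.le_mul_of_pos_right _ (by positivity))
    obtain ⟨M, m1, m2, m3⟩ := max_disj (𝒞.filter fun T => T ⊆ ω ∧ U ⊆ vs T) (fun T => vs T \ U)
      (k := h) (mult := K0 * (h * r) ^ d) (fun T hT => by
        obtain ⟨t1, -, t2⟩ := Finset.mem_filter.1 hT
        refine Finset.card_pos.1 ?_
        rw [Finset.card_sdiff_of_subset t2, S.cvs T t1]; omega)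
      (fun T hT => (Finset.card_le_card Finset.sdiff_subset).trans
        (S.cvs T (Finset.mem_filter.1 hT).1).le)
      (fun x => by
        by_cases hx : x ∈ U
        · rw [Finset.filter_eq_empty_iff.2 fun T _ h => (Finset.mem_sdiff.1 h).2 hx]; simp
        · refine le_trans (Finset.card_le_card fun T hT => ?_) (ih (insert x U)
            (by rw [Finset.card_insert_of_notMem hx]; omega)
            (by rw [Finset.card_insert_of_notMem hx]; omega))
          obtain ⟨t1, t2⟩ := Finset.mem_filter.1 hT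
          obtain ⟨t3, t4, t5⟩ := Finset.mem_filter.1 t1
          exact Finset.mem_filter.2 ⟨t3, t4, Finset.insert_subset (Finset.mem_sdiff.1 t2).1 t5⟩)
    have m4 : M.card ≤ r := by
      by_contra hc
      refine hs ⟨U, Finset.mem_filter.2 ⟨Finset.mem_univ _, u1, not_le.1 hU⟩, M,
        Finset.mem_powerset.2 fun T hT => ?_, fun T hT T' hT' hne => ?_, ?_,
        Finset.empty_subset _, fun T hT => ?_⟩
      · obtain ⟨t1, -, t2⟩ := Finset.mem_filter.1 (m1 hT)
        exact Finset.mem_filter.2 ⟨t1, t2⟩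
      · refine Finset.disjoint_left.2 fun e e1 e2 => ?_
        obtain ⟨x, x1, x2⟩ := Finset.not_subset.1 (Finset.mem_filter.1 e1).2
        have x3 := Sym2.mem_toFinset.1 x1
        exact Finset.disjoint_left.1 (m2 T hT T' hT' hne)
          (Finset.mem_sdiff.2 ⟨mem_vs.2 ⟨e, (Finset.mem_filter.1 e1).1, x3⟩, x2⟩)
          (Finset.mem_sdiff.2 ⟨mem_vs.2 ⟨e, (Finset.mem_filter.1 e2).1, x3⟩, x2⟩)
      · exact_mod_cast (not_le.1 hc).le
      · exact (Finset.filter_subset _ _).trans (Finset.mem_filter.1 (m1 hT)).2.1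
    refine m3.trans ((Nat.mul_le_mul_left _ m4).trans (le_of_eq (by ring)))

/-- Number of present copies through a vertex. -/
noncomputable def cV (𝒞 : Finset (Finset (Sym2 V))) (ω : Finset (Sym2 V)) (v : V) : ℝ :=
  ∑ T ∈ 𝒞, ind (T ⊆ ω ∧ v ∈ vs T)

/-- Number of present copies through a pair. -/
noncomputable def cE (𝒞 : Finset (Finset (Sym2 V))) (ω : Finset (Sym2 V)) (e : Sym2 V) : ℝ :=
  ∑ T ∈ 𝒞, ind (T ⊆ ω ∧ e ∈ T)

lemma Sys.star_weight (S : Sys 𝒞 h k K0) (h0 : 0 < p) (hn : 0 < Fintype.card V) (v : V)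
    (N : Finset V) (hN : (N.card : ℝ) ≤ 3 * (p * Fintype.card V)) :
    ∑ T ∈ 𝒞.filter (fun T => v ∈ vs T ∧ ∀ a, s(v, a) ∈ T → a ∈ N),
      p ^ (T.filter fun e => v ∉ e).card ≤
      K0 * ((Fintype.card V : ℝ) ^ (h - 1) * p ^ k) * Real.exp 3 := by
  classical
  have hn' : (0 : ℝ) < Fintype.card V := by exact_mod_cast hn
  set y := 1 / (p * Fintype.card V) with hy
  have hy0 : 0 ≤ y := by positivity
  have e1 : ∑ Y ∈ N.powerset, y ^ Y.card ≤ Real.exp 3 := by
    have := Finset.prod_one_add (f := fun _ : V => y) N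
    simp only [Finset.prod_const] at this
    rw [← this]
    refine (pow_le_pow_left₀ (by positivity) (by linarith [Real.add_one_le_exp y]) _).trans
      (b := Real.exp y ^ N.card) ?_
    rw [← Real.exp_nat_mul, hy, mul_one_div]
    exact Real.exp_le_exp.2 ((div_le_iff₀ (by positivity)).2 hN)
  rw [← Finset.sum_fiberwise_of_maps_to (t := N.powerset)
    (g := fun T => univ.filter fun a => s(v, a) ∈ T) (fun T hT => Finset.mem_powerset.2
      fun a ha => (Finset.mem_filter.1 hT).2.2 a (Finset.mem_filter.1 ha).2)]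
  refine le_trans (Finset.sum_le_sum fun Y _ => ?_)
    ((Finset.mul_sum _ _ _).ge.trans (mul_le_mul_of_nonneg_left e1 (by positivity)))
  set 𝓑 := (𝒞.filter fun T => v ∈ vs T ∧ ∀ a, s(v, a) ∈ T → a ∈ N).filter
    fun T => (univ.filter fun a => s(v, a) ∈ T) = Y with hB
  have key : ∀ T ∈ 𝓑, T ∈ 𝒞 ∧ v ∉ Y ∧ insert v Y ⊆ vs T ∧
      (T.filter fun e => v ∉ e).card + Y.card = k := by
    intro T hT
    obtain ⟨t1, t2⟩ := Finset.mem_filter.1 hT
    obtain ⟨t3, t4, -⟩ := Finset.mem_filter.1 t1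
    have t5 : ∀ a, a ∈ Y ↔ s(v, a) ∈ T := fun a => by rw [← t2]; simp
    refine ⟨t3, fun hv => S.nd T t3 _ ((t5 v).1 hv) (by simp), Finset.insert_subset t4
      fun a ha => mem_vs.2 ⟨_, (t5 a).1 ha, by simp⟩, ?_⟩
    have f1 : (T.filter fun e => v ∈ e) = Y.image fun a => s(v, a) := by
      ext e
      simp only [Finset.mem_filter, Finset.mem_image, t5]
      constructor
      · rintro ⟨g1, g2⟩
        obtain ⟨b, rfl⟩ := Sym2.mem_iff_exists.1 g2
        exact ⟨b, g1, rfl⟩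
      · rintro ⟨b, g1, rfl⟩
        exact ⟨g1, by simp⟩
    rw [← S.card T t3, ← Finset.card_filter_add_card_filter_not (s := T) (fun e => v ∈ e), f1,
      Finset.card_image_of_injective _ fun x y h => Sym2.congr_right.1 h, add_comm]
  rcases 𝓑.eq_empty_or_nonempty with he | ⟨T0, hT0⟩
  · rw [he, Finset.sum_empty]; positivity
  obtain ⟨f1, f2, f3, f4⟩ := key T0 hT0
  have f5 := Finset.card_le_card f3
  rw [S.cvs T0 f1, Finset.card_insert_of_notMem f2] at f5
  refine (Finset.sum_le_card_nsmul _ _ (p ^ (k - Y.card)) fun T hT =>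
    le_of_eq (by rw [← (key T hT).2.2.2, Nat.add_sub_cancel])).trans ?_
  have f6 : 𝓑.card ≤ K0 * Fintype.card V ^ (h - (Y.card + 1)) := by
    rw [← Finset.card_insert_of_notMem f2]
    exact le_trans (Finset.card_le_card fun T hT => Finset.mem_filter.2
      ⟨(key T hT).1, (key T hT).2.2.1⟩) (S.count0 _)
  have f7 : (𝓑.card : ℝ) ≤ K0 * (Fintype.card V : ℝ) ^ (h - (Y.card + 1)) := by exact_mod_cast f6
  rw [nsmul_eq_mul]
  refine (mul_le_mul_of_nonneg_right f7 (by positivity)).trans (le_of_eq ?_)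
  have g1 : (Fintype.card V : ℝ) ^ (h - 1) =
      (Fintype.card V : ℝ) ^ (h - (Y.card + 1)) * (Fintype.card V : ℝ) ^ Y.card := by
    rw [← pow_add]; congr 1; omega
  have g2 : p ^ k = p ^ (k - Y.card) * p ^ Y.card := by rw [← pow_add]; congr 1; omega
  rw [g1, g2, hy, one_div, inv_pow, mul_pow]
  field_simp

lemma Sys.cV_bound (S : Sys 𝒞 h k K0) (h0 : 0 < p) (h1 : p ≤ 1) (hn : 0 < Fintype.card V)
    {r : ℕ} (hr : 0 < r) (j : ℝ) :
    Pr p (fun ω => ¬ Sun 𝒞 h r ω ∧ ∃ v ∈ (univ : Finset V),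
      nb (gr ω) univ v ≤ 3 * (p * Fintype.card V) ∧ (k * (K0 * (h * r) ^ h) : ℕ) * j < cV 𝒞 ω v) ≤
      Fintype.card V * Real.exp (Fintype.card V * p +
        3 * (K0 * ((Fintype.card V : ℝ) ^ (h - 1) * p ^ k) * Real.exp 3) - j) := by
  classical
  refine (Pr_mono h0.le h1 (B := fun ω => ∃ v ∈ (univ : Finset V),
    ∃ N ∈ univ.filter (fun N : Finset V => (N.card : ℝ) ≤ 3 * (p * Fintype.card V)),
    ∃ M ∈ (𝒞.filter fun T => v ∈ vs T ∧ ∀ a, s(v, a) ∈ T → a ∈ N).powerset,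
      PD (fun T => T.filter fun e => v ∉ e) M ∧ j ≤ M.card ∧ N.image (fun a => s(v, a)) ⊆ ω ∧
      ∀ T ∈ M, (T.filter fun e => v ∉ e) ⊆ ω) ?_).trans ?_
  · rintro ω ⟨hs, v, -, hv, hj⟩
    obtain ⟨M, m1, m2, m3⟩ := max_disj (𝒞.filter fun T => T ⊆ ω ∧ v ∈ vs T)
      (fun T => T.filter fun e => v ∉ e) (k := k) (mult := K0 * (h * r) ^ h) (fun T hT => by
        obtain ⟨e, e1, e2⟩ := S.exists_avoid (Finset.mem_filter.1 hT).1 v
        exact ⟨e, Finset.mem_filter.2 ⟨e1, e2⟩⟩)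
      (fun T hT => (Finset.card_filter_le _ _).trans (S.card T (Finset.mem_filter.1 hT).1).le)
      (fun e => by
        rcases ((𝒞.filter fun T => T ⊆ ω ∧ v ∈ vs T).filter
          fun T => e ∈ T.filter fun e => v ∉ e).eq_empty_or_nonempty with he | ⟨T0, hT0⟩
        · rw [he]; simp
        obtain ⟨t1, t2⟩ := Finset.mem_filter.1 hT0
        obtain ⟨t3, t4⟩ := Finset.mem_filter.1 t2
        refine le_trans (Finset.card_le_card fun T hT => ?_) (S.mult_le hr hs h
          (insert v e.toFinset) (by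
            rw [Finset.card_insert_of_notMem fun h => t4 (Sym2.mem_toFinset.1 h),
              Sym2.card_toFinset_of_not_isDiag _ (S.nd T0 (Finset.mem_filter.1 t1).1 e t3)])
          (by omega))
        obtain ⟨u1, u2⟩ := Finset.mem_filter.1 hT
        obtain ⟨u3, u4, u5⟩ := Finset.mem_filter.1 u1
        exact Finset.mem_filter.2 ⟨u3, u4, Finset.insert_subset u5 fun x hx =>
          mem_vs.2 ⟨e, (Finset.mem_filter.1 u2).1, Sym2.mem_toFinset.1 hx⟩⟩)
    refine ⟨v, Finset.mem_univ _, univ.filter fun a => (gr ω).Adj v a,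
      Finset.mem_filter.2 ⟨Finset.mem_univ _, by rw [← sum_ind]; exact hv⟩, M,
      Finset.mem_powerset.2 fun T hT => ?_, m2, ?_, fun e he => ?_, fun T hT => ?_⟩
    · obtain ⟨t1, t2, t3⟩ := Finset.mem_filter.1 (m1 hT)
      exact Finset.mem_filter.2 ⟨t1, t3, fun a ha => Finset.mem_filter.2 ⟨Finset.mem_univ _,
        gr_adj.2 ⟨t2 ha, by simpa using S.nd T t1 _ ha⟩⟩⟩
    · unfold cV at hj
      rw [sum_ind] at hj
      have m4 : (((𝒞.filter fun T => T ⊆ ω ∧ v ∈ vs T).card : ℕ) : ℝ) ≤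
          (k * (K0 * (h * r) ^ h) : ℕ) * (M.card : ℝ) := by exact_mod_cast m3
      exact (lt_of_mul_lt_mul_left (hj.trans_le m4) (Nat.cast_nonneg _)).le
    · obtain ⟨a, ha, rfl⟩ := Finset.mem_image.1 he
      exact (gr_adj.1 (Finset.mem_filter.1 ha).2).1
    · exact (Finset.filter_subset _ _).trans (Finset.mem_filter.1 (m1 hT)).2.1
  · refine (Pr_exists_le h0.le h1 _ _).trans ?_
    rw [← Finset.card_univ (α := V), ← nsmul_eq_mul, Finset.card_univ]
    refine Finset.sum_le_card_nsmul _ _ _ fun v _ => ?_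
    set w := K0 * ((Fintype.card V : ℝ) ^ (h - 1) * p ^ k) * Real.exp 3 with hw
    have hw0 : 0 ≤ w := by positivity
    refine (Pr_exists_le h0.le h1 _ _).trans (le_trans (Finset.sum_le_sum
      (g := fun N : Finset V => p ^ N.card * Real.exp (3 * w - j)) fun N hN => ?_) ?_)
    · refine (disj_tail h0.le h1 _ _ _ (fun T _ => Finset.disjoint_left.2 fun e e1 e2 => ?_)
        zero_le_one (S.star_weight h0 hn v N (Finset.mem_filter.1 hN).2)).trans ?_
      · obtain ⟨a, -, rfl⟩ := Finset.mem_image.1 e1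
        exact (Finset.mem_filter.1 e2).2 (by simp)
      · rw [Finset.card_image_of_injective _ fun x y h => Sym2.congr_right.1 h, ← hw]
        refine mul_le_mul_of_nonneg_left (Real.exp_le_exp.2 ?_) (by positivity)
        nlinarith only [hw0, Real.exp_one_lt_d9]
    · rw [← Finset.sum_mul, add_sub_assoc, Real.exp_add]
      exact mul_le_mul_of_nonneg_right ((Finset.sum_le_sum_of_subset_of_nonneg
        (Finset.filter_subset _ _) fun _ _ _ => by positivity).trans (sum_pow_card_le h0.le))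
        (by positivity)

open Classical in
/-- Present pairs lying in at most `D0` present copies. -/
noncomputable def light (𝒞 : Finset (Finset (Sym2 V))) (D0 : ℕ) (ω : Finset (Sym2 V)) :
    Finset (Sym2 V) := ω.filter fun e => cE 𝒞 ω e ≤ D0

omit [Fintype V] in
lemma mem_light {D0 : ℕ} {e : Sym2 V} : e ∈ light 𝒞 D0 ω ↔ e ∈ ω ∧ cE 𝒞 ω e ≤ D0 := by
  unfold light; rw [Finset.mem_filter]

omit [Fintype V] in
lemma light_sub {D0 : ℕ} : light 𝒞 D0 ω ⊆ ω := fun _ h => (mem_light.1 h).1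

lemma Sys.light_tail (S : Sys 𝒞 h k K0) (h0 : 0 ≤ p) (h1 : p ≤ 1) (D0 : ℕ)
    {𝓑 : Finset (Finset (Sym2 V))} (hB : 𝓑 ⊆ 𝒞) {j w : ℝ} (hw : 𝓑.card * p ^ k ≤ w) :
    Pr p (fun ω => (k * D0 : ℕ) * j < ∑ T ∈ 𝓑, ind (T ⊆ light 𝒞 D0 ω)) ≤
      Real.exp (3 * w - j) := by
  have hw0 : 0 ≤ w := le_trans (by positivity) hw
  refine le_trans (Pr_mono h0 h1 fun ω hj => ?_) ((disj_tail h0 h1 𝓑 id ∅
    (fun _ _ => Finset.disjoint_empty_left _) (j := j) (w := w) zero_le_one ?_).trans ?_)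
  · obtain ⟨M, m1, m2, m3⟩ := max_disj (𝓑.filter fun T => T ⊆ light 𝒞 D0 ω) id (k := k)
      (mult := D0) (fun T hT => S.nonempty (hB (Finset.mem_filter.1 hT).1))
      (fun T hT => (S.card T (hB (Finset.mem_filter.1 hT).1)).le) (fun e => by
        rcases ((𝓑.filter fun T => T ⊆ light 𝒞 D0 ω).filter
          fun T => e ∈ id T).eq_empty_or_nonempty with he | ⟨T0, hT0⟩
        · rw [he]; simp
        obtain ⟨t1, t2⟩ := Finset.mem_filter.1 hT0
        have t3 := (mem_light.1 ((Finset.mem_filter.1 t1).2 t2)).2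
        unfold cE at t3
        rw [sum_ind] at t3
        refine le_trans (Finset.card_le_card fun T hT => ?_) (Nat.cast_le.1 t3)
        obtain ⟨u1, u2⟩ := Finset.mem_filter.1 hT
        obtain ⟨u3, u4⟩ := Finset.mem_filter.1 u1
        exact Finset.mem_filter.2 ⟨hB u3, u4.trans light_sub, u2⟩)
    rw [sum_ind] at hj
    have m4 : (((𝓑.filter fun T => T ⊆ light 𝒞 D0 ω).card : ℕ) : ℝ) ≤
        (k * D0 : ℕ) * (M.card : ℝ) := by exact_mod_cast m3
    exact ⟨M, Finset.mem_powerset.2 (m1.trans (Finset.filter_subset _ _)), m2,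
      (lt_of_mul_lt_mul_left (hj.trans_le m4) (Nat.cast_nonneg _)).le, Finset.empty_subset _,
      fun T hT => (Finset.mem_filter.1 (m1 hT)).2.trans light_sub⟩
  · refine le_trans (le_of_eq ?_) hw
    rw [← nsmul_eq_mul, ← Finset.sum_const]
    exact Finset.sum_congr rfl fun T hT => by rw [id, S.card T (hB hT)]
  · rw [Finset.card_empty, pow_zero, one_mul]
    refine Real.exp_le_exp.2 ?_
    nlinarith only [hw0, Real.exp_one_lt_d9]

end Pool.Agent.Work.MP_d4a230_co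
end

-- merged part: Pool.Agent.Work.MP_d4a230_co.HWhp
section
namespace Pool.Agent.Work.MP_d4a230_co

open Finset

variable {V : Type} [DecidableEq V] [Fintype V] {𝒞 : Finset (Finset (Sym2 V))} {h k K0 : ℕ}
  {ω : Finset (Sym2 V)} {p : ℝ}

omit [Fintype V] in
lemma Sys.sum_vs_le (S : Sys 𝒞 h k K0) (X : Finset V) (q : Finset (Sym2 V) → Prop) :
    ∑ a ∈ X, ∑ T ∈ 𝒞, ind (q T ∧ a ∈ vs T) ≤ h * ∑ T ∈ 𝒞, ind (q T) := by
  rw [Finset.sum_comm, Finset.mul_sum]
  refine Finset.sum_le_sum fun T hT => ?_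
  simp only [ind_and, ← Finset.mul_sum]
  rw [mul_comm, sum_ind, ← S.cvs T hT]
  exact mul_le_mul_of_nonneg_right (Nat.cast_le.2 (Finset.card_le_card fun a ha =>
    (Finset.mem_filter.1 ha).2)) (ind_nonneg _)

omit [DecidableEq V] [Fintype V] in
lemma sum_ind_filter (q r : Finset (Sym2 V) → Prop) [DecidablePred r] :
    ∑ T ∈ 𝒞, ind (q T ∧ r T) = ∑ T ∈ 𝒞.filter r, ind (q T) := by
  rw [Finset.sum_filter]
  refine Finset.sum_congr rfl fun T _ => ?_
  split_ifs with hr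
  · exact ind_congr (and_iff_left hr)
  · exact ind_neg fun h => hr h.2

lemma Sys.sparse_bound (S : Sys 𝒞 h k K0) (h0 : 0 ≤ p) (h1 : p ≤ 1) (D0 m : ℕ) {D z : ℝ}
    (hD : 2 * h * (k * D0 : ℕ) *
      (z + 6 * m * (K0 * (Fintype.card V : ℝ) ^ (h - 2) * p ^ k)) < D) :
    Pr p (fun ω : Finset (Sym2 V) => ∃ X : Finset V, X.Nonempty ∧ X.card ≤ 2 * m ∧
      D / 2 * X.card ≤ ∑ v ∈ X, hld 𝒞 (light 𝒞 D0 ω) X v) ≤
      Real.exp (Fintype.card V * Real.exp (-z)) - 1 := by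
  classical
  have e0 := sum_pow_card_le (V := V) (Real.exp_pos (-z)).le
  rw [← Finset.add_sum_erase _ _ (Finset.mem_univ ∅), Finset.card_empty, pow_zero] at e0
  refine le_trans ?_ (le_sub_iff_add_le'.2 e0)
  set w1 := K0 * (Fintype.card V : ℝ) ^ (h - 2) * p ^ k with hw1
  have hw0 : 0 ≤ w1 := by positivity
  refine (Pr_mono h0 h1 (B := fun ω => ∃ X ∈ (univ : Finset (Finset V)).erase ∅,
    X.card ≤ 2 * m ∧ (k * D0 : ℕ) * (X.card * (z + 6 * m * w1)) <
      ∑ T ∈ 𝒞.filter (fun T => 2 ≤ (vs T ∩ X).card), ind (T ⊆ light 𝒞 D0 ω)) ?_).trans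
    ((Pr_exists_le h0 h1 _ _).trans (Finset.sum_le_sum fun X _ => ?_))
  · rintro ω ⟨X, hne, hX, hs⟩
    refine ⟨X, Finset.mem_erase.2 ⟨hne.ne_empty, Finset.mem_univ _⟩, hX, ?_⟩
    have e1 := S.sum_vs_le X fun T => T ⊆ light 𝒞 D0 ω ∧ 2 ≤ (vs T ∩ X).card
    rw [sum_ind_filter] at e1
    have e2 : ∑ v ∈ X, hld 𝒞 (light 𝒞 D0 ω) X v ≤
        ∑ a ∈ X, ∑ T ∈ 𝒞, ind ((T ⊆ light 𝒞 D0 ω ∧ 2 ≤ (vs T ∩ X).card) ∧ a ∈ vs T) :=
      Finset.sum_le_sum fun a ha => Finset.sum_le_sum fun T _ => ind_mono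
        fun ⟨t1, t2, y, t3, t4, t5⟩ => ⟨⟨t1, Finset.one_lt_card.2 ⟨y, Finset.mem_inter.2 ⟨t5, t3⟩,
          a, Finset.mem_inter.2 ⟨t2, ha⟩, t4⟩⟩, t2⟩
    have e3 : (0 : ℝ) < X.card := by exact_mod_cast hne.card_pos
    have e4 := mul_lt_mul_of_pos_right hD e3
    refine lt_of_mul_lt_mul_left (a := (h : ℝ)) ?_ (Nat.cast_nonneg _)
    linarith only [hs, e1, e2, e4]
  · by_cases hX : X.card ≤ 2 * m
    · refine (Pr_mono h0 h1 fun ω h => h.2).trans ((S.light_tail h0 h1 D0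
        (Finset.filter_subset _ _) (w := X.card * (2 * m * w1)) ?_).trans (le_of_eq ?_))
      · have e1 : (((𝒞.filter fun T => 2 ≤ (vs T ∩ X).card).card : ℕ) : ℝ) ≤
            X.card ^ 2 * (K0 * (Fintype.card V : ℝ) ^ (h - 2)) := by exact_mod_cast S.count1 X 2
        have e2 : (X.card : ℝ) ≤ 2 * m := by exact_mod_cast hX
        refine (mul_le_mul_of_nonneg_right e1 (by positivity)).trans ?_
        rw [mul_assoc, ← hw1, sq, mul_assoc]
        exact mul_le_mul_of_nonneg_left (mul_le_mul_of_nonneg_right e2 hw0) (by positivity)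
      · rw [← Real.exp_nat_mul]; congr 1; ring
    · refine le_trans (Pr_mono h0 h1 (B := fun _ => False) fun ω h => hX h.1) ?_
      rw [Pr_false]; positivity

lemma Sys.ldS_bound (S0 : Sys 𝒞 h k K0) (h0 : 0 ≤ p) (h1 : p ≤ 1) (D0 : ℕ) (S : Finset V)
    (j : ℝ) : Pr p (fun ω : Finset (Sym2 V) => ∃ a ∈ (univ : Finset V),
      (k * D0 : ℕ) * j < hld 𝒞 (light 𝒞 D0 ω) S a) ≤
      Fintype.card V *
        Real.exp (3 * (S.card * (K0 * (Fintype.card V : ℝ) ^ (h - 2)) * p ^ k) - j) := by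
  classical
  refine (Pr_exists_le h0 h1 _ _).trans ?_
  refine le_trans (Finset.sum_le_card_nsmul _ _ _ fun a _ => ?_) (nsmul_eq_mul _ _).le
  unfold hld
  simp only [sum_ind_filter]
  refine S0.light_tail h0 h1 D0 (Finset.filter_subset _ _)
    (mul_le_mul_of_nonneg_right ?_ (by positivity))
  have e1 : (𝒞.filter fun T => a ∈ vs T ∧ ∃ y ∈ S, y ≠ a ∧ y ∈ vs T) ⊆
      (S.erase a).biUnion fun y => 𝒞.filter fun T => {y, a} ⊆ vs T := by
    intro T hT
    obtain ⟨t1, t2, y, t3, t4, t5⟩ := Finset.mem_filter.1 hT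
    exact Finset.mem_biUnion.2 ⟨y, Finset.mem_erase.2 ⟨t4, t3⟩, Finset.mem_filter.2
      ⟨t1, Finset.insert_subset t5 (Finset.singleton_subset_iff.2 t2)⟩⟩
  have e2 := (Finset.card_le_card e1).trans ((Finset.card_biUnion_le_card_mul _ _
    (K0 * Fintype.card V ^ (h - 2)) fun y hy => by
      have := S0.count0 {y, a}
      rwa [Finset.card_pair (Finset.mem_erase.1 hy).1] at this).trans
    (Nat.mul_le_mul_right _ Finset.card_erase_le))
  exact_mod_cast e2

lemma Sys.E_sub (S : Sys 𝒞 h k K0) (r : Finset (Sym2 V) → Prop) [DecidablePred r] :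
    E p (fun ω => ∑ T ∈ 𝒞, ind (T ⊆ ω ∧ r T)) = (𝒞.filter r).card * p ^ k := by
  rw [E_congr fun ω => sum_ind_filter (fun T => T ⊆ ω) r, E_sum, ← nsmul_eq_mul,
    ← Finset.sum_const]
  refine Finset.sum_congr rfl fun T hT => ?_
  rw [← S.card T (Finset.mem_filter.1 hT).1]
  exact Pr_subset T

lemma Sys.badS_bound (S0 : Sys 𝒞 h k K0) (h0 : 0 ≤ p) (h1 : p ≤ 1) {D0 : ℕ} (hD : 0 < D0)
    (S : Finset V) (hS : S.Nonempty) :
    Pr p (fun ω : Finset (Sym2 V) => (S.card : ℝ) / 2 ≤ ∑ a ∈ S,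
      ind ((∃ b ∈ S.erase a, (D0 : ℝ) ≤ cE 𝒞 ω s(a, b)) ∨
        ∃ T ∈ 𝒞, (T ⊆ ω ∧ 3 ≤ (vs T ∩ S).card) ∧ a ∈ vs T)) ≤
      (S.card * (S.card * (K0 * (Fintype.card V : ℝ) ^ (h - 2) * p ^ k / D0)) +
        h * (S.card ^ 3 * (K0 * (Fintype.card V : ℝ) ^ (h - 3)) * p ^ k)) / (S.card / 2) := by
  have hpos : (0 : ℝ) < S.card := by exact_mod_cast hS.card_pos
  refine (markov h0 h1 (fun ω => Finset.sum_nonneg fun _ _ => ind_nonneg _)
    (by positivity)).trans (div_le_div_of_nonneg_right ?_ (by positivity))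
  refine (E_mono h0 h1 (g := fun ω => ∑ a ∈ S, ∑ b ∈ S.erase a, ind ((D0 : ℝ) ≤ cE 𝒞 ω s(a, b)) +
    h * ∑ T ∈ 𝒞, ind (T ⊆ ω ∧ 3 ≤ (vs T ∩ S).card)) fun ω => ?_).trans ?_
  · refine le_trans ?_ (add_le_add le_rfl (S0.sum_vs_le S _))
    rw [← Finset.sum_add_distrib]
    exact Finset.sum_le_sum fun a _ => (ind_or_le _ _).trans
      (add_le_add (ind_exists_le _ _) (ind_exists_le _ _))
  rw [E_add, E_const_mul, S0.E_sub, E_sum]
  refine add_le_add ?_ (mul_le_mul_of_nonneg_left (mul_le_mul_of_nonneg_right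
    (by exact_mod_cast S0.count1 S 3) (by positivity)) (Nat.cast_nonneg _))
  rw [← nsmul_eq_mul]
  refine Finset.sum_le_card_nsmul _ _ _ fun a _ => ?_
  rw [E_sum]
  refine (Finset.sum_le_card_nsmul _ _ (K0 * (Fintype.card V : ℝ) ^ (h - 2) * p ^ k / D0)
    fun b hb => ?_).trans ?_
  · refine (markov h0 h1 (fun ω => Finset.sum_nonneg fun _ _ => ind_nonneg _)
      (by exact_mod_cast hD)).trans (div_le_div_of_nonneg_right ?_ (by positivity))
    rw [S0.E_sub]
    refine mul_le_mul_of_nonneg_right ?_ (by positivity)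
    have e1 := S0.count0 {b, a}
    rw [Finset.card_pair (Finset.mem_erase.1 hb).1] at e1
    have e2 : (𝒞.filter fun T => s(a, b) ∈ T).card ≤ K0 * Fintype.card V ^ (h - 2) :=
      le_trans (Finset.card_le_card fun T hT => by
        obtain ⟨t1, t2⟩ := Finset.mem_filter.1 hT
        exact Finset.mem_filter.2 ⟨t1, Finset.insert_subset (mem_vs.2 ⟨_, t2, by simp⟩)
          (Finset.singleton_subset_iff.2 (mem_vs.2 ⟨_, t2, by simp⟩))⟩) e1
    exact_mod_cast e2
  · rw [nsmul_eq_mul]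
    exact mul_le_mul_of_nonneg_right (by exact_mod_cast Finset.card_erase_le) (by positivity)

lemma Sys.heavy_deg (S : Sys 𝒞 h k K0) (D0 : ℕ) (v : V) :
    D0 * ∑ a ∈ univ.erase v, ind (¬ cE 𝒞 ω s(v, a) ≤ D0) ≤ k * cV 𝒞 ω v := by
  have e1 : ∑ a ∈ univ.erase v, cE 𝒞 ω s(v, a) ≤ k * cV 𝒞 ω v := by
    unfold cE cV
    rw [Finset.sum_comm, Finset.mul_sum]
    refine Finset.sum_le_sum fun T hT => ?_
    have e2 := star_sum (S.nd T hT) (fun _ => ind (T ⊆ ω)) v
    simp only [ind_and, mul_comm (ind (T ⊆ ω))]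
    rw [e2, ← S.card T hT, ← nsmul_eq_mul]
    exact Finset.sum_le_card_nsmul _ _ _ fun g hg => mul_le_mul_of_nonneg_right
      (ind_mono fun h => mem_vs.2 ⟨g, hg, h⟩) (ind_nonneg _)
  refine le_trans ?_ e1
  rw [Finset.mul_sum]
  refine Finset.sum_le_sum fun a _ => ?_
  by_cases hc : cE 𝒞 ω s(v, a) ≤ D0
  · rw [ind_neg (not_not.2 hc), mul_zero]
    exact Finset.sum_nonneg fun _ _ => ind_nonneg _
  · rw [ind_pos hc, mul_one]; exact (not_le.1 hc).le

lemma Sys.sum_cV (S : Sys 𝒞 h k K0) : h * ∑ T ∈ 𝒞, ind (T ⊆ ω) = ∑ v, cV 𝒞 ω v := by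
  unfold cV
  rw [Finset.sum_comm, Finset.mul_sum]
  refine Finset.sum_congr rfl fun T hT => ?_
  simp only [ind_and, ← Finset.mul_sum]
  rw [mul_comm, sum_ind, ← S.cvs T hT, Finset.filter_mem_eq_inter, Finset.univ_inter]

lemma Sys.lower_fixed (S0 : Sys 𝒞 h k K0) {R : Finset (Sym2 V)} (hR : R ⊆ ω)
    (hfree : ∀ T ∈ 𝒞, ¬ T ⊆ R) {y d ε μ C1 : ℝ} {C m D0 : ℕ} (X dev : V → ℝ) (S : Finset V)
    (hε : 0 < ε) (hy0 : 0 < y) (hD0 : 0 < D0) (hdμ : d + 5 * ε ≤ μ) (hd1 : d + 4 * ε ≤ 1)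
    (hdev : ∑ v, dev v ^ 2 ≤ h * ∑ T ∈ 𝒞, ind (T ⊆ ω)) (hX : ∀ v, X v - dev v ≤ dgE R v)
    (hC : 0 < C) (hm : (S.card : ℝ) + ∑ v, ind (ε * y ≤ |X v - μ * y|) +
      Fintype.card V * (C1 * y) / (ε * y) ^ 2 ≤ m) (hC1 : k * C1 ≤ ε * D0)
    (h1 : ¬ ∃ X : Finset V, X.Nonempty ∧ X.card ≤ 2 * m ∧
      ε * y / 2 * X.card ≤ ∑ v ∈ X, hld 𝒞 (light 𝒞 D0 ω) X v)
    (h2 : ∀ v, cV 𝒞 ω v ≤ C1 * y)
    (h3 : ¬ ∃ v ∈ (univ : Finset V), dg (gr ω) v ≤ (1 - ε) * y)
    (h4 : ∀ a, hld 𝒞 (light 𝒞 D0 ω) S a ≤ ε * y)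
    (h5 : ¬ (S.card : ℝ) / 2 ≤ ∑ a ∈ S, ind ((∃ b ∈ S.erase a, (D0 : ℝ) ≤ cE 𝒞 ω s(a, b)) ∨
        ∃ T ∈ 𝒞, (T ⊆ ω ∧ 3 ≤ (vs T ∩ S).card) ∧ a ∈ vs T))
    (h6 : ¬ ∃ Z ∈ S.powerset, (S.card : ℝ) ≤ 2 * C * Z.card ∧
      ∀ a ∈ Z, ∀ b ∈ Z, ¬ (gr ω).Adj a b) :
    ∃ ω' ⊆ ω, (∀ T ∈ 𝒞, ¬ T ⊆ ω') ∧ (∀ v, d * y ≤ dgE ω' v) ∧ ¬ (gr ω').Colorable C := by
  classical
  push Not at h1 h3 h5
  let bad : V → Prop := fun a => (∃ b ∈ S.erase a, (D0 : ℝ) ≤ cE 𝒞 ω s(a, b)) ∨
    ∃ T ∈ 𝒞, (T ⊆ ω ∧ 3 ≤ (vs T ∩ S).card) ∧ a ∈ vs T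
  let S' := S.filter fun a => ¬ bad a
  let B0 := S ∪ (univ.filter fun v => ε * y ≤ |X v - μ * y|) ∪ univ.filter fun v => ε * y ≤ dev v
  have hS'S : S' ⊆ S := Finset.filter_subset _ _
  have hB0 : B0.card ≤ m := by
    clear * - V ε y dev C1 hε hy0 h 𝒞 ω hdev k K0 S0 h2 S X μ m hm
    rw [sum_ind] at hm
    have e1 : ((univ.filter fun v => ε * y ≤ dev v).card : ℝ) ≤
        Fintype.card V * (C1 * y) / (ε * y) ^ 2 := by
      rw [le_div_iff₀ (by positivity), ← nsmul_eq_mul, ← Finset.sum_const]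
      refine le_trans ?_ (hdev.trans (S0.sum_cV.trans_le ?_))
      · exact (Finset.sum_le_sum fun v hv => pow_le_pow_left₀ (by positivity)
          (Finset.mem_filter.1 hv).2 2).trans (Finset.sum_le_sum_of_subset_of_nonneg
          (Finset.subset_univ _) fun _ _ _ => sq_nonneg _)
      · rw [← Finset.card_univ, ← nsmul_eq_mul]
        exact Finset.sum_le_card_nsmul _ _ _ fun v _ => h2 v
    have : ((S.card + (univ.filter fun v => ε * y ≤ |X v - μ * y|).card +
        (univ.filter fun v => ε * y ≤ dev v).card : ℕ) : ℝ) ≤ m := by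
      push_cast; linarith only [hm, e1]
    exact (Finset.card_union_le _ _).trans ((Nat.add_le_add_right (Finset.card_union_le _ _) _).trans
      (by exact_mod_cast this))
  have hv : ∀ (ω1 ω2 : Finset (Sym2 V)), (∀ e ∈ ω1, cE 𝒞 ω e ≤ D0 → e ∈ ω2) → ∀ v,
      dgE ω1 v - ε * y ≤ dgE ω2 v := by
    intro ω1 ω2 h12 v
    have e1 : dgE ω1 v ≤ dgE ω2 v + ∑ a ∈ univ.erase v, ind (¬ cE 𝒞 ω s(v, a) ≤ D0) := by
      unfold dgE
      rw [← Finset.sum_add_distrib]
      exact Finset.sum_le_sum fun a _ => le_trans (ind_mono fun h =>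
        (em _).imp (h12 _ h) id) (ind_or_le _ _)
    have e2 := (S0.heavy_deg D0 v).trans (mul_le_mul_of_nonneg_left (h2 v) (Nat.cast_nonneg _))
    have e3 := mul_le_mul_of_nonneg_right hC1 hy0.le
    have e4 : (0 : ℝ) < D0 := by exact_mod_cast hD0
    have e5 : ∑ a ∈ univ.erase v, ind (¬ cE 𝒞 ω s(v, a) ≤ D0) ≤ ε * y :=
      le_of_mul_le_mul_left (by linarith only [e2, e3]) e4
    linarith only [e1, e5]
  obtain ⟨ω', g1, g2, g3, g4, g5⟩ := S0.clean (ω := light 𝒞 D0 ω) (D := ε * y) (by positivity)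
    (R := R ∩ light 𝒞 D0 ω) Finset.inter_subset_right
    (fun T hT h => hfree T hT (h.trans Finset.inter_subset_left)) B0 S'
    (hS'S.trans (Finset.subset_union_left.trans Finset.subset_union_left)) hB0
    (fun T hT t1 => by
      by_contra hc
      obtain ⟨a, ha⟩ : (vs T ∩ S').Nonempty := Finset.card_pos.1 (by omega)
      obtain ⟨a1, a2⟩ := Finset.mem_inter.1 ha
      exact (Finset.mem_filter.1 a2).2 (Or.inr ⟨T, hT, ⟨t1.trans light_sub, (not_lt.1 hc).trans
        (Finset.card_le_card (Finset.inter_subset_inter_left hS'S))⟩, a1⟩)) h1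
    (fun v => (hld_mono _ _ v hS'S).trans (h4 v))
  refine ⟨ω', g1.trans light_sub, g2, fun v => ?_, ?_⟩
  · by_cases hvB : v ∈ B0
    · have e1 := g5 v hvB
      have e2 := h3 v (Finset.mem_univ v)
      have e3 := mul_le_mul_of_nonneg_right hd1 hy0.le
      have e4 := hv ω (light 𝒞 D0 ω) (fun e h1 h2 => mem_light.2 ⟨h1, h2⟩) v
      rw [dg_gr] at e2
      linarith only [e1, e2, e3, e4]
    · have e1 := g4 v
      have e2 : |X v - μ * y| < ε * y := by
        by_contra hc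
        exact hvB (Finset.mem_union_left _ (Finset.mem_union_right _
          (Finset.mem_filter.2 ⟨Finset.mem_univ _, not_lt.1 hc⟩)))
      have e3 := mul_le_mul_of_nonneg_right hdμ hy0.le
      have e4 := hv R (R ∩ light 𝒞 D0 ω)
        (fun e h1 h2 => Finset.mem_inter.2 ⟨h1, mem_light.2 ⟨hR h1, h2⟩⟩) v
      have e5 : dev v < ε * y := by
        by_contra hc
        exact hvB (Finset.mem_union_right _ (Finset.mem_filter.2 ⟨Finset.mem_univ _, not_lt.1 hc⟩))
      linarith only [e1, e3, e4, e5, e2, (abs_lt.1 e2).1, hX v]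
  · rintro ⟨c⟩
    have e1 : (S.card : ℝ) ≤ 2 * S'.card := by
      rw [sum_ind] at h5
      have := Finset.card_filter_add_card_filter_not (s := S) bad
      have e : (((S.filter bad).card + S'.card : ℕ) : ℝ) = S.card := by exact_mod_cast this
      push_cast at e
      linarith only [h5, e]
    have : Nonempty (Fin C) := ⟨⟨0, hC⟩⟩
    obtain ⟨i, _, hi⟩ := Finset.exists_max_image (univ : Finset (Fin C))
      (fun i => (S'.filter fun a => c a = i).card) Finset.univ_nonempty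
    have e2 : S'.card ≤ C * (S'.filter fun a => c a = i).card := by
      have := Finset.card_le_mul_card_image_of_maps_to (s := S') (t := univ) (f := c)
        (fun _ _ => Finset.mem_univ _) _ hi
      rwa [Finset.card_univ, Fintype.card_fin, mul_comm] at this
    have e3 : (S'.card : ℝ) ≤ C * (S'.filter fun a => c a = i).card := by exact_mod_cast e2
    refine h6 ⟨S'.filter fun a => c a = i,
      Finset.mem_powerset.2 ((Finset.filter_subset _ _).trans hS'S), by linarith only [e1, e3], ?_⟩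
    intro a ha b hb hab
    obtain ⟨a1, a2⟩ := Finset.mem_filter.1 ha
    obtain ⟨b1, b2⟩ := Finset.mem_filter.1 hb
    refine c.valid (gr_adj.2 ⟨g3 a a1 b b1 (mem_light.2 ⟨(gr_adj.1 hab).1, ?_⟩), hab.ne⟩)
      (a2.trans b2.symm)
    by_contra hc
    exact (Finset.mem_filter.1 a1).2 (Or.inl ⟨b, Finset.mem_erase.2 ⟨hab.ne.symm, hS'S b1⟩,
      (not_le.1 hc).le⟩)

end Pool.Agent.Work.MP_d4a230_co
end

-- merged part: Pool.Agent.Work.MP_d4a230_co.HBounds
section
namespace Pool.Agent.Work.MP_d4a230_co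

open Finset Filter Topology

/-- The event in the definition of the chromatic threshold, for sets of pairs. -/
def HEv {V : Type} [DecidableEq V] [Fintype V] (𝒞 : Finset (Finset (Sym2 V))) (y : ℝ) (C : ℕ)
    (ω : Finset (Sym2 V)) : Prop :=
  ∀ ω' ⊆ ω, (∀ T ∈ 𝒞, ¬ T ⊆ ω') → (∀ v, y ≤ dgE ω' v) → (gr ω').Colorable C

variable {p : ℕ → ℝ} {𝒞 : ∀ n, Finset (Finset (Sym2 (Fin n)))} {h k K0 : ℕ} {μ Λ : ℝ}

theorem hupper_prob (p0 : ∀ n, 0 ≤ p n) (p1 : ∀ n, p n ≤ 1)
    (hinf : Tendsto (fun n : ℕ => p n * n) atTop atTop)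
    {Y : ∀ n, Fin n → Finset (Sym2 (Fin n)) → ℝ} {ν d : ℝ} (hY : Conc p Y ν)
    (hdet : ∀ n ω, ∀ ω' ⊆ ω, (∀ T ∈ 𝒞 n, ¬ T ⊆ ω') → ∑ v, dgE ω' v ≤ ∑ v, Y n v ω)
    (hd : ν < d) : Tendsto (fun n => Pr (p n) (HEv (𝒞 n) (d * p n * n) 0)) atTop (𝓝 1) := by
  refine Metric.tendsto_nhds.2 fun ε hε => ?_
  filter_upwards [hY (ε / 2 * (d - ν)) (by have := sub_pos.2 hd; positivity),
    hinf.eventually (eventually_gt_atTop 0)] with n e1 hy
  have hn : (0 : ℝ) < n := pos_of_mul_pos_right hy (p0 n) |> fun h => h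
  have hdm := sub_pos.2 hd
  have m1 := markov (p0 n) (p1 n) (f := fun ω => ∑ v, |Y n v ω - ν * (p n * n)|)
    (fun ω => Finset.sum_nonneg fun _ _ => abs_nonneg _)
    (a := n * ((d - ν) * (p n * n))) (by positivity)
  have m2 : E (p n) (fun ω => ∑ v, |Y n v ω - ν * (p n * n)|) ≤
      n * (ε / 2 * (d - ν) * (p n * n)) := by
    rw [E_sum]
    refine (Finset.sum_le_card_nsmul _ _ _ fun v _ => e1 v).trans (le_of_eq ?_)
    simp
  have m3 : Pr (p n) (fun ω => ¬ HEv (𝒞 n) (d * p n * n) 0 ω) ≤ ε / 2 := by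
    refine le_trans (Pr_mono (p0 n) (p1 n) fun ω hω => ?_) (m1.trans ?_)
    · unfold HEv at hω
      simp only [not_forall] at hω
      obtain ⟨ω', g1, g2, g3, _⟩ := hω
      have f1 := hdet n ω ω' g1 g2
      have f2 : ∑ _v : Fin n, d * p n * n ≤ ∑ v, dgE ω' v := Finset.sum_le_sum fun v _ => g3 v
      have f3 : ∑ v, (Y n v ω - ν * (p n * n)) ≤ ∑ v, |Y n v ω - ν * (p n * n)| :=
        Finset.sum_le_sum fun v _ => le_abs_self _
      simp only [Finset.sum_sub_distrib, Finset.sum_const, Finset.card_univ, Fintype.card_fin,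
        nsmul_eq_mul] at f2 f3
      linarith only [f1, f2, f3]
    · rw [div_le_iff₀ (by positivity)]
      exact m2.trans (le_of_eq (by ring))
  rw [Pr_not] at m3
  rw [Real.dist_eq, abs_lt]
  constructor <;> linarith only [hε, m3, Pr_le_one (p0 n) (p1 n) (HEv (𝒞 n) (d * p n * n) 0)]

theorem hlower_core (R : HReg p 𝒞 h k K0 μ Λ) {ν d ε b : ℝ} (hε0 : 0 < ε) (hε1 : d + 5 * ε ≤ ν)
    (hε2 : d + 4 * ε ≤ 1) (h20 : 0 < b) (C : ℕ) : ∃ η : ℝ, 0 < η ∧
    ∀ᶠ n in atTop, Pr (p n) (fun ω => HEv (𝒞 n) (d * p n * n) C ω ∧ ∃ R ⊆ ω,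
      (∀ T ∈ 𝒞 n, ¬ T ⊆ R) ∧ ∃ X dev : Fin n → ℝ, ∑ v, dev v ^ 2 ≤ h * ∑ T ∈ 𝒞 n, ind (T ⊆ ω) ∧
      (∀ v, X v - dev v ≤ dgE R v) ∧
      ∑ v, ind (ε * (p n * n) ≤ |X v - ν * (p n * n)|) ≤ η * n / 8) ≤ 8 * b := by
  have hΛ := R.pos
  have h3 := (R.sys 0).h3
  have hk := (R.sys 0).hk
  have hh0 : (0 : ℝ) < h := by exact_mod_cast (by omega : 0 < h)
  have hk0 : (0 : ℝ) < k := by exact_mod_cast (by omega : 0 < k)
  set r := (k - 1) * (h + 1) with hr
  have hr0 : 0 < r := Nat.mul_pos (by omega) (by omega)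
  set L := K0 * (Λ + 1) with hL
  have hL0 : 0 ≤ L := by positivity
  set C1 : ℝ := ((k * (K0 * (h * r) ^ h) : ℕ) : ℝ) * (2 + 3 * L * Real.exp 3) with hC1
  have hC10 : 0 ≤ C1 := by positivity
  set C' : ℝ := ((C + 1 : ℕ) : ℝ) with hC'
  have hC'1 : 1 ≤ C' := by rw [hC']; exact_mod_cast Nat.succ_pos C
  set A := 32 * C' ^ 2 with hA
  have hA0 : 0 < A := by positivity
  obtain ⟨D0, hD0⟩ := exists_nat_gt (k * C1 / ε + 4 * (A + 1) * L / b)
  have hD1 : (0 : ℝ) < D0 := lt_of_le_of_lt (by clear * - k C1 ε A L b hk0 K0 h r Λ hΛ hε0 C' C h20 D0 hD0; positivity) hD0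
  have hD2 : k * C1 ≤ ε * D0 := by
    have : k * C1 / ε ≤ D0 := by have : 0 ≤ 4 * (A + 1) * L / b := by positivity
                                 linarith only [hD0, this]
    rw [div_le_iff₀ hε0] at this; linarith only [this]
  have hD3 : 4 * (A + 1) * L ≤ D0 * b := by
    clear * - k C1 ε hk0 K0 h r L Λ hΛ hε0 A b D0 h20 C' hD0
    have : 0 ≤ k * C1 / ε := by positivity
    exact (div_le_iff₀ h20).1 (by linarith only [hD0, this])
  set c0 : ℝ := ((k * D0 : ℕ) : ℝ) with hc0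
  have hc00 : 0 < c0 := by rw [hc0]; push_cast; positivity
  set η := ε / (8 * h * c0 * (6 * L + 1)) with hη
  have hη0 : 0 < η := by positivity
  clear_value C1 A η
  have hinf := R.inf
  refine ⟨η, hη0, ?_⟩
  obtain ⟨θ, θ1, θ2, θ3⟩ := R.theta
  have t0 := (θ3.const_mul (Real.exp (K0 + 1))).eventually 
    (ge_mem_nhds (lt_of_eq_of_lt (mul_zero _) h20))
  have t1 : ∀ᶠ n : ℕ in atTop, Real.exp (n * Real.exp (0 - η * (p n * n))) - 1 ≤ b := by
    have := ((Real.continuous_exp.tendsto 0).comp (R.decay hη0 0)).sub_const 1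
    rw [Real.exp_zero, sub_self] at this
    exact this.eventually (ge_mem_nhds h20)
  have t2 := (R.decay one_pos 0).eventually (ge_mem_nhds h20)
  have t3 := (R.decay (γ := ε ^ 2 / 6) (by positivity) 1).eventually (ge_mem_nhds h20)
  have t4 := (R.decay (γ := ε / c0) (by positivity) (3 * ((A + 1) * L))).eventually
    (ge_mem_nhds h20)
  have t5 := R.lim0.eventually (ge_mem_nhds (show (0 : ℝ) < A / (1 / b + 4 * C') by positivity))
  have t7 := (tendsto_natCast_atTop_atTop (R := ℝ)).eventually (eventually_ge_atTop (2 / η))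
  filter_upwards [t0, t1, t2, t3, t4, t5, R.bd, t7, θ1,
    θ2.eventually (ge_mem_nhds one_pos),
    hinf.eventually (eventually_ge_atTop (8 * C1 / (ε ^ 2 * η) + 4 * h * (A + 1) ^ 2 * L / b)),
    hinf.eventually (eventually_ge_atTop ((A + 1) * (8 / η + 1)))]
    with n t0 t1 t2 t3 t4 t5 t6 t7 θ1 θ2 t9 t10
  have h0 := R.p0 n
  have h1 := R.p1 n
  have S0 := R.sys n
  set y := p n * n with hy
  have hy0 : 0 < y := lt_of_lt_of_le (by clear * - A η hA0 hη0 t10 y; positivity) t10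
  have hp : 0 < p n := pos_of_mul_pos_left hy0 (Nat.cast_nonneg n) |> fun h => h
  have hn : (0 : ℝ) < n := lt_of_lt_of_le (by positivity) t7
  have hn' : 0 < Fintype.card (Fin n) := by rw [Fintype.card_fin]; exact_mod_cast hn
  have w2 : K0 * (n : ℝ) ^ (h - 2) * p n ^ k ≤ L * p n := by
    rw [show k = k - 1 + 1 by omega, pow_succ, ← mul_assoc, mul_assoc (K0 : ℝ)]
    exact mul_le_mul_of_nonneg_right (mul_le_mul_of_nonneg_left t6 (Nat.cast_nonneg _)) h0
  have w1 : K0 * ((n : ℝ) ^ (h - 1) * p n ^ k) ≤ L * y := by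
    have := mul_le_mul_of_nonneg_right w2 hn.le
    rw [show h - 1 = h - 2 + 1 by omega, pow_succ, hy]
    linarith only [this]
  have w3 : K0 * (n : ℝ) ^ (h - 3) * p n ^ k * n ≤ L * p n := by
    rw [show h - 2 = h - 3 + 1 by omega, pow_succ] at w2
    linarith only [w2]
  set s := ⌈A / p n⌉₊ with hs
  have s1 : A ≤ p n * s := by
    have := Nat.le_ceil (A / p n)
    rw [div_le_iff₀ hp] at this; linarith only [this]
  have s2 : p n * s ≤ A + 1 := by
    have := (Nat.ceil_lt_add_one (show 0 ≤ A / p n by positivity)).le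
    have e := mul_le_mul_of_nonneg_left this h0
    rw [mul_add, mul_div_cancel₀ _ hp.ne'] at e
    linarith only [h1, e]
  have s3 : (s : ℝ) * (8 / η + 1) ≤ n := by
    have e := mul_le_mul_of_nonneg_right s2 (show 0 ≤ 8 / η + 1 by positivity)
    have : p n * (s * (8 / η + 1)) ≤ p n * n := by linarith only [t10, e]
    exact le_of_mul_le_mul_left this hp
  have s0 : (0 : ℝ) ≤ s := Nat.cast_nonneg s
  have s4 : s ≤ n := by
    have : 0 ≤ (s : ℝ) * (8 / η) := by positivity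
    have : (s : ℝ) ≤ n := by linarith only [s3, this]
    exact_mod_cast this
  have s5 : (s : ℝ) ≤ η * n / 8 := by
    have e : (s : ℝ) * (8 / η) ≤ n := by linarith only [s3]
    rw [← mul_div_assoc, div_le_iff₀ hη0] at e
    linarith only [e]
  have s6 : 1 / b + 4 * C' ≤ s := by
    rw [le_div_iff₀ (by positivity)] at t5
    have : p n * (1 / b + 4 * C') ≤ p n * s := by linarith only [t5, s1]
    exact le_of_mul_le_mul_left this hp
  have s7 : 0 < 1 / b := by positivity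
  obtain ⟨S, -, hS⟩ := Finset.exists_subset_card_eq (s := (univ : Finset (Fin n))) (n := s)
    (by simpa using s4)
  set m := ⌊η * n⌋₊ with hm
  have m1 : (m : ℝ) ≤ η * n := Nat.floor_le (by positivity)
  have m2 : η * n / 2 ≤ m := by
    have := Nat.lt_floor_add_one (η * n)
    rw [div_le_iff₀ hη0] at t7
    linarith only [hC'1, s5, s6, s7, this]
  have b0 := S0.sun_bound h0 h1 θ1.1 θ2 θ1.2 hn' r
  have b1 := S0.sparse_bound h0 h1 D0 m (D := ε * y) (z := η * y) (by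
    clear * - h k D0 η y m K0 n p ε c0 hc0 L m1 w2 hn hp hη0 hη hy h3 hc00 hL0 hε0 Λ hy0
    rw [Fintype.card_fin, ← hc0]
    have e1 := mul_le_mul m1 w2 (by positivity) (by positivity)
    have e2 : 2 * h * c0 * (η * y + 6 * (η * n * (L * p n))) = ε * y / 4 := by
      rw [hη, hy]; field_simp; ring
    have e3 := mul_le_mul_of_nonneg_left (show η * y + 6 * m * (K0 * (n : ℝ) ^ (h - 2) * p n ^ k) ≤
      η * y + 6 * (η * n * (L * p n)) by linarith only [e1]) (show 0 ≤ 2 * h * c0 by positivity)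
    have e4 := mul_pos hε0 hy0
    linarith only [e2, e3, e4])
  have b2 := S0.cV_bound hp h1 hn' hr0 ((2 + 3 * L * Real.exp 3) * y)
  have b2' := nbS_bound (V := Fin n) h0 h1 univ (3 * y)
  have b3 := mindeg_bound (V := Fin n) h0 h1 hε0.le
  have b4 := S0.ldS_bound h0 h1 D0 S (ε / c0 * y)
  have b5 := S0.badS_bound h0 h1 (D0 := D0) (by exact_mod_cast hD1) S (Finset.card_pos.1 (by
    have : (0 : ℝ) < s := by linarith only [hC'1, s6, s7]
    rw [hS]; exact_mod_cast this))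
  have b6 := indep_bound (V := Fin n) h0 h1 S hC'1 (by rw [hS]; linarith only [s6, s7])
    (by rw [hS, ← hA]; exact s1)
  simp only [Fintype.card_fin, Finset.card_univ, hS] at b0 b1 b2 b2' b3 b4 b5 b6
  have c0' := b0.trans t0
  have c1 := b1.trans (le_of_eq_of_le (by congr 4; ring) t1)
  have c2 := b2.trans ((mul_le_mul_of_nonneg_left (Real.exp_le_exp.2 (by
    have := mul_le_mul_of_nonneg_right w1 (Real.exp_pos 3).le
    linarith only [this])) hn.le).trans t2)
  have c2' := b2'.trans (le_of_eq_of_le (by congr 2; ring) t2)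
  have c3 := b3.trans t3
  have c4 := b4.trans ((mul_le_mul_of_nonneg_left (Real.exp_le_exp.2 (by
    have e1 := mul_le_mul_of_nonneg_left w2 s0
    have e2 := mul_le_mul_of_nonneg_right s2 hL0
    linarith only [e1, e2])) hn.le).trans t4)
  have c5 := b5.trans (show _ ≤ b by
    clear * - s K0 n h p k D0 b hD1 L w2 s0 A s2 hL0 Λ hD3 y w3 h3 hA0 hp hΛ C1 ε η hC10 hε0 hη0
      h20 t9 hy hy0 C' hC'1 s6 s7
    have e1 : s * (K0 * (n : ℝ) ^ (h - 2) * p n ^ k / D0) ≤ b / 4 := by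
      rw [← mul_div_assoc, div_le_iff₀ hD1]
      have e1 := mul_le_mul_of_nonneg_left w2 s0
      have e2 := mul_le_mul_of_nonneg_right s2 hL0
      linarith only [hD3, e1, e2]
    have e2 : h * (s ^ 2 * (K0 * (n : ℝ) ^ (h - 3)) * p n ^ k) ≤ b / 4 := by
      refine le_of_mul_le_mul_right ?_ hy0
      have f1 := mul_le_mul_of_nonneg_left w3 (show 0 ≤ h * s ^ 2 * p n by positivity)
      have f2 : (p n * s) ^ 2 ≤ (A + 1) ^ 2 := pow_le_pow_left₀ (by positivity) s2 2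
      have f3 := mul_le_mul_of_nonneg_left f2 (show 0 ≤ h * L by positivity)
      have f4 : 0 ≤ 8 * C1 / (ε ^ 2 * η) := by positivity
      have f5 : 4 * h * (A + 1) ^ 2 * L ≤ y * b := (div_le_iff₀ h20).1 (by linarith only [t9, f4])
      rw [hy] at f5 ⊢
      linarith only [f1, f3, f5]
    have e3 := mul_le_mul_of_nonneg_left e1 s0
    have e4 := mul_le_mul_of_nonneg_left e2 s0
    rw [div_le_iff₀ (by linarith only [hC'1, s6, s7])]; linarith only [e3, e4])
  have c6 := b6.trans (show _ ≤ b by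
    rw [Real.exp_neg, ← one_div, ← one_div_one_div b]
    refine one_div_le_one_div_of_le s7 ?_
    linarith only [hC'1, s6, Real.add_one_le_exp (s : ℝ)])
  have u := (Pr_or_le h0 h1 _ _).trans (add_le_add c0' ((Pr_or_le h0 h1 _ _).trans (add_le_add c2'
    ((Pr_or_le h0 h1 _ _).trans (add_le_add c1 ((Pr_or_le h0 h1 _ _).trans (add_le_add c2
    ((Pr_or_le h0 h1 _ _).trans (add_le_add c3 ((Pr_or_le h0 h1 _ _).trans (add_le_add c4
    ((Pr_or_le h0 h1 _ _).trans (add_le_add c5 c6)))))))))))))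
  refine le_trans (Pr_mono h0 h1 ?_) (u.trans (le_of_eq (by ring)))
  rintro ω ⟨hω, R', r1, r2, X, dev, r3, r4, k7⟩
  by_contra hc
  simp only [not_or] at hc
  obtain ⟨k0, k2', k1, k2, k3, k4, k5, k6⟩ := hc
  obtain ⟨ω', g1, g2, g3, g4⟩ := S0.lower_fixed (y := y) (d := d) (ε := ε) (μ := ν) (C1 := C1)
    (C := C + 1) (m := m) (D0 := D0) r1 r2 X dev S hε0 hy0
    (by exact_mod_cast hD1) hε1 hε2 r3 r4 (Nat.succ_pos C) (by
      clear * - n C1 y ε η h A L b h3 hA0 K0 Λ hΛ h20 p t9 hε0 hp hn hη0 S X ν m s hS C' hC'1 s5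
        s6 s7 m2 k7 hD2 k1
      have e1 : (n : ℝ) * (C1 * y) / (ε * y) ^ 2 ≤ η * n / 8 := by
        have f1 : 8 * C1 / (ε ^ 2 * η) ≤ y := by
          have : 0 ≤ 4 * h * (A + 1) ^ 2 * L / b := by positivity
          linarith only [t9, this]
        rw [div_le_iff₀ (by positivity)] at f1 ⊢
        have := mul_le_mul_of_nonneg_left f1 (show 0 ≤ n * y / 8 by positivity)
        linarith only [this]
      rw [hS, Fintype.card_fin]
      have := mul_pos hη0 hn
      linarith only [hC'1, s5, s6, s7, m2, k7, e1]) hD2 k1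
    (fun v => by
      by_contra hc
      refine k2 ⟨k0, v, Finset.mem_univ _, ?_, ?_⟩
      · by_contra hc'
        exact k2' ⟨v, Finset.mem_univ _, (not_le.1 hc').le⟩
      · rw [← mul_assoc, ← hC1]; exact not_le.1 hc) k3
    (fun a => by
      by_contra hc
      refine k4 ⟨a, Finset.mem_univ _, lt_of_eq_of_lt ?_ (not_le.1 hc)⟩
      rw [← hc0]; field_simp) (by rw [hS]; exact k5) (by rw [hS]; exact k6)
  exact g4 ((hω ω' g1 g2 fun v => by rw [mul_assoc]; exact g3 v).mono (Nat.le_succ C))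

theorem hlower_prob (R : HReg p 𝒞 h k K0 μ Λ) {X : ∀ n, Fin n → Finset (Sym2 (Fin n)) → ℝ}
    {ν d : ℝ} (hX : Conc p X ν)
    (hdet : ∀ n ω, ∃ R ⊆ ω, (∀ T ∈ 𝒞 n, ¬ T ⊆ R) ∧ ∃ dev : Fin n → ℝ,
      ∑ v, dev v ^ 2 ≤ h * ∑ T ∈ 𝒞 n, ind (T ⊆ ω) ∧ ∀ v, X n v ω - dev v ≤ dgE R v)
    (hd : d < ν) (hd1 : d < 1) (C : ℕ) :
    ∀ᶠ n in atTop, Pr (p n) (HEv (𝒞 n) (d * p n * n) C) ≤ 1 / 2 := by
  set ε := min (ν - d) (1 - d) / 5 with hε
  have hε0 : 0 < ε := by have := lt_min (sub_pos.2 hd) (sub_pos.2 hd1); positivity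
  obtain ⟨η, hη, h1⟩ := hlower_core R (ν := ν) (d := d) (b := 1 / 32) hε0
    (by have := min_le_left (ν - d) (1 - d); linarith only [hε, this])
    (by have := min_le_right (ν - d) (1 - d); linarith) (by norm_num) C
  filter_upwards [h1, hX (ε * η / 32) (by positivity), R.inf.eventually (eventually_gt_atTop 0)]
    with n h1 h2 hy
  have hn : (0 : ℝ) < n := pos_of_mul_pos_right hy (R.p0 n) |> fun h => h
  have hp : 0 < p n := pos_of_mul_pos_left hy (Nat.cast_nonneg n) |> fun h => h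
  have b7 := bad_bound (V := Fin n) (R.p0 n) (R.p1 n) (fun v ω => X n v ω - ν * (p n * n))
    (a := ε * (p n * n)) (b := η * n / 8) (by positivity) (by positivity) h2
  rw [Fintype.card_fin] at b7
  have c7 := b7.trans (show _ ≤ (1 : ℝ) / 4 by
    refine le_of_eq ?_
    field_simp
    norm_num)
  refine le_trans (Pr_mono (R.p0 n) (R.p1 n) fun ω hω => ?_)
    ((Pr_or_le (R.p0 n) (R.p1 n) _ _).trans ((add_le_add h1 c7).trans (by norm_num)))
  obtain ⟨R', r1, r2, dev, r3, r4⟩ := hdet n ω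
  exact (le_total _ _).imp (fun h => ⟨hω, R', r1, r2, fun v => X n v ω, dev, r3, r4, h⟩) id

end Pool.Agent.Work.MP_d4a230_co
end
end

-- merged part: Pool.Agent.Work.MP_d4a230_co.Bounds
section
namespace Pool.Agent.Work.MP_d4a230_co

open Finset Filter Topology

/-- The critical window `n p ^ 2 → lam`. -/
structure Base (p : ℕ → ℝ) (lam : ℝ) : Prop where
  p0 : ∀ n, 0 ≤ p n
  p1 : ∀ n, p n ≤ 1
  lim : Tendsto (fun n : ℕ => (n : ℝ) * p n ^ 2) atTop (𝓝 lam)
  pos : 0 < lam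

variable {p : ℕ → ℝ} {lam : ℝ}

lemma Base.inf (h : Base p lam) : Tendsto (fun n : ℕ => p n * n) atTop atTop := by
  have l1 : Tendsto (fun n : ℕ => (n : ℝ) * ((n : ℝ) * p n ^ 2)) atTop atTop :=
    (tendsto_natCast_atTop_atTop (R := ℝ)).atTop_mul_pos h.pos h.lim
  refine (Real.tendsto_sqrt_atTop.comp l1).congr fun n => ?_
  have : (n : ℝ) * ((n : ℝ) * p n ^ 2) = (p n * n) ^ 2 := by ring
  simp only [Function.comp]
  rw [this, Real.sqrt_sq (mul_nonneg (h.p0 n) (Nat.cast_nonneg n))]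

lemma Base.lim0 (h : Base p lam) : Tendsto p atTop (𝓝 0) := by
  have l1 := h.lim.div_atTop h.inf
  refine l1.congr' ?_
  filter_upwards [h.inf.eventually (eventually_gt_atTop 0)] with n hn
  rw [div_eq_iff hn.ne']; ring

lemma Base.decay (h : Base p lam) {γ : ℝ} (hγ : 0 < γ) (c : ℝ) :
    Tendsto (fun n : ℕ => (n : ℝ) * Real.exp (c - γ * (p n * n))) atTop (𝓝 0) := by
  have l1 := (Real.tendsto_pow_mul_exp_neg_atTop_nhds_zero 2).comp (h.inf.const_mul_atTop hγ)
  have l2 := (l1.mul (h.lim.inv₀ h.pos.ne')).const_mul (Real.exp c / γ ^ 2)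
  simp only [zero_mul, mul_zero] at l2
  refine l2.congr' ?_
  filter_upwards [h.inf.eventually (eventually_gt_atTop 0)] with n hn
  have hp : p n ≠ 0 := left_ne_zero_of_mul hn.ne'
  have hn' : (n : ℝ) ≠ 0 := right_ne_zero_of_mul hn.ne'
  simp only [Function.comp]
  rw [sub_eq_add_neg, Real.exp_add]
  field_simp

/-- The event in the definition of the chromatic threshold. -/
def Ev (n : ℕ) (q d : ℝ) (C : ℕ) (G : SimpleGraph (Fin n)) : Prop :=
  ∀ G' ≤ G, TF G' → (∀ v, d * q * n ≤ dg G' v) → G'.Colorable C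

theorem upper_prob (h : Base p lam) {Y : ∀ n, Fin n → Finset (Sym2 (Fin n)) → ℝ} {μ d : ℝ}
    (hY : Conc p Y μ) (hdet : ∀ n ω, ∀ G' ≤ gr ω, TF G' → ∑ v, dg G' v ≤ ∑ v, Y n v ω)
    (hd : μ < d) : Tendsto (fun n => Pr (p n) (fun ω => Ev n (p n) d 0 (gr ω))) atTop (𝓝 1) := by
  refine Metric.tendsto_nhds.2 fun ε hε => ?_
  filter_upwards [hY (ε / 2 * (d - μ)) (by have := sub_pos.2 hd; positivity),
    h.inf.eventually (eventually_gt_atTop 0)] with n e1 hy
  have hn : (0 : ℝ) < n := pos_of_mul_pos_right hy (h.p0 n) |> fun h => h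
  have hdm := sub_pos.2 hd
  have m1 := markov (h.p0 n) (h.p1 n) (f := fun ω => ∑ v, |Y n v ω - μ * (p n * n)|)
    (fun ω => Finset.sum_nonneg fun _ _ => abs_nonneg _)
    (a := n * ((d - μ) * (p n * n))) (by positivity)
  have m2 : E (p n) (fun ω => ∑ v, |Y n v ω - μ * (p n * n)|) ≤
      n * (ε / 2 * (d - μ) * (p n * n)) := by
    rw [E_sum]
    refine (Finset.sum_le_card_nsmul _ _ _ fun v _ => e1 v).trans (le_of_eq ?_)
    simp
  have m3 : Pr (p n) (fun ω => ¬ Ev n (p n) d 0 (gr ω)) ≤ ε / 2 := by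
    refine le_trans (Pr_mono (h.p0 n) (h.p1 n) fun ω hω => ?_) (m1.trans ?_)
    · unfold Ev at hω
      push Not at hω
      obtain ⟨G', g1, g2, g3, _⟩ := hω
      have f1 := hdet n ω G' g1 g2
      have f2 : ∑ _v : Fin n, d * p n * n ≤ ∑ v, dg G' v := Finset.sum_le_sum fun v _ => g3 v
      have f3 : ∑ v, (Y n v ω - μ * (p n * n)) ≤ ∑ v, |Y n v ω - μ * (p n * n)| :=
        Finset.sum_le_sum fun v _ => le_abs_self _
      simp only [Finset.sum_sub_distrib, Finset.sum_const, Finset.card_univ, Fintype.card_fin,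
        nsmul_eq_mul] at f2 f3
      linarith only [f1, f2, f3]
    · rw [div_le_iff₀ (by positivity)]
      exact m2.trans (le_of_eq (by ring))
  rw [Pr_not] at m3
  rw [Real.dist_eq, abs_lt]
  constructor <;> linarith only [hε, m3, Pr_le_one (h.p0 n) (h.p1 n) fun ω => Ev n (p n) d 0 (gr ω)]

lemma lower_fixed {n : ℕ} {G R : SimpleGraph (Fin n)} (hR : R ≤ G) (hTF : TF R) {y d ε D μ : ℝ}
    {C m : ℕ} (X : Fin n → ℝ) (S : Finset (Fin n)) (hD : 0 ≤ D) (hy : 1 ≤ ε * y) (hy0 : 0 ≤ y)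
    (hdμ : d + 3 * ε ≤ μ) (hd1 : d + 2 * ε ≤ 1) (hX : ∀ v, X v - 1 ≤ dg R v)
    (hC : 0 < C) (hm : (S.card : ℝ) + ∑ v, ind (ε * y ≤ |X v - μ * y|) ≤ m)
    (h1 : ¬ ∃ X : Finset (Fin n), X.Nonempty ∧ X.card ≤ 2 * m ∧ D * X.card ≤ ∑ v ∈ X, nb G X v)
    (h2 : ¬ ∃ (a : Fin n) (Y : Finset (Fin n)), (∀ y ∈ Y, G.Adj a y) ∧ (Y.card : ℝ) ≤ 2 * D ∧
      ε * y ≤ ∑ b, ind (G.Adj a b ∧ ∃ y ∈ Y, G.Adj y b))
    (h3 : ¬ ∃ v ∈ (univ : Finset (Fin n)), dg G v ≤ (1 - ε) * y)
    (h4 : ¬ ∃ v ∈ (univ : Finset (Fin n)), D ≤ nb G S v)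
    (h5 : ¬ (S.card : ℝ) / 2 ≤
      ∑ a ∈ S, ind (∃ b ∈ S, ∃ c ∈ S, G.Adj a b ∧ G.Adj a c ∧ G.Adj b c))
    (h6 : ¬ ∃ Z ∈ S.powerset, (S.card : ℝ) ≤ 2 * C * Z.card ∧ ∀ a ∈ Z, ∀ b ∈ Z, ¬ G.Adj a b) :
    ∃ G' ≤ G, TF G' ∧ (∀ v, d * y ≤ dg G' v) ∧ ¬ G'.Colorable C := by
  classical
  push Not at h1 h2 h3 h4 h5
  let S' := S.filter fun a => ¬ ∃ b ∈ S, ∃ c ∈ S, G.Adj a b ∧ G.Adj a c ∧ G.Adj b c
  let B0 := S ∪ univ.filter fun v => ε * y ≤ |X v - μ * y|
  have hS'S : S' ⊆ S := Finset.filter_subset _ _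
  have hB0 : B0.card ≤ m := by
    rw [sum_ind] at hm
    have : ((S.card + (univ.filter fun v => ε * y ≤ |X v - μ * y|).card : ℕ) : ℝ) ≤ m := by
      push_cast; exact hm
    exact (Finset.card_union_le _ _).trans (by exact_mod_cast this)
  obtain ⟨G', g1, g2, g3, g4, g5⟩ := clean_det (Er := ε * y) hD hR hTF B0 S'
    (hS'S.trans Finset.subset_union_left) hB0
    (fun a ha b hb c hc e1 e2 e3 =>
      (Finset.mem_filter.1 ha).2 ⟨b, hS'S hb, c, hS'S hc, e1, e2, e3⟩) h1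
    (fun a Y e1 e2 => (h2 a Y e1 e2).le)
    (fun v => (Finset.sum_le_sum_of_subset_of_nonneg hS'S fun _ _ _ => ind_nonneg _).trans
      (h4 v (Finset.mem_univ v)).le)
  refine ⟨G', g1, g2, fun v => ?_, ?_⟩
  · by_cases hv : v ∈ B0
    · have e1 := g5 v hv
      have e2 := h3 v (Finset.mem_univ v)
      have e3 := mul_le_mul_of_nonneg_right hd1 hy0
      linarith only [e1, e2, e3]
    · have e1 := g4 v
      have e2 : |X v - μ * y| < ε * y := by
        by_contra hc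
        exact hv (Finset.mem_union_right _ (Finset.mem_filter.2 ⟨Finset.mem_univ _, not_lt.1 hc⟩))
      have e3 := mul_le_mul_of_nonneg_right hdμ hy0
      linarith only [hy, e1, e3, e2, (abs_lt.1 e2).1, hX v]
  · rintro ⟨c⟩
    have e1 : (S.card : ℝ) ≤ 2 * S'.card := by
      rw [sum_ind] at h5
      have := Finset.card_filter_add_card_filter_not (s := S)
        (fun a => ∃ b ∈ S, ∃ c ∈ S, G.Adj a b ∧ G.Adj a c ∧ G.Adj b c)
      have e : (((S.filter fun a => ∃ b ∈ S, ∃ c ∈ S, G.Adj a b ∧ G.Adj a c ∧ G.Adj b c).card +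
        S'.card : ℕ) : ℝ) = S.card := by exact_mod_cast this
      push_cast at e
      linarith only [h5, e]
    have : Nonempty (Fin C) := ⟨⟨0, hC⟩⟩
    obtain ⟨i, _, hi⟩ := Finset.exists_max_image (univ : Finset (Fin C))
      (fun i => (S'.filter fun a => c a = i).card) Finset.univ_nonempty
    have e2 : S'.card ≤ C * (S'.filter fun a => c a = i).card := by
      have := Finset.card_le_mul_card_image_of_maps_to (s := S') (t := univ) (f := c)
        (fun _ _ => Finset.mem_univ _) _ hi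
      rwa [Finset.card_univ, Fintype.card_fin, mul_comm] at this
    have e3 : (S'.card : ℝ) ≤ C * (S'.filter fun a => c a = i).card := by exact_mod_cast e2
    refine h6 ⟨S'.filter fun a => c a = i,
      Finset.mem_powerset.2 ((Finset.filter_subset _ _).trans hS'S), by linarith only [e1, e3], ?_⟩
    intro a ha b hb hab
    obtain ⟨a1, a2⟩ := Finset.mem_filter.1 ha
    obtain ⟨b1, b2⟩ := Finset.mem_filter.1 hb
    exact c.valid (g3 a a1 b b1 hab) (a2.trans b2.symm)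

theorem lower_prob (h : Base p lam) {X : ∀ n, Fin n → Finset (Sym2 (Fin n)) → ℝ} {μ d : ℝ}
    (hX : Conc p X μ)
    (hdet : ∀ n ω, ∃ R ≤ gr ω, TF R ∧ ∀ v, X n v ω - 1 ≤ dg R v)
    (hd : d < μ) (hd1 : d < 1) (C : ℕ) :
    ∀ᶠ n in atTop, Pr (p n) (fun ω => Ev n (p n) d C (gr ω)) ≤ 7 / 10 := by
  have hlam := h.pos
  set ε := min (μ - d) (1 - d) / 3 with hε
  have hε0 : 0 < ε := by have := lt_min (sub_pos.2 hd) (sub_pos.2 hd1); positivity
  have hε1 : d + 3 * ε ≤ μ := by have := min_le_left (μ - d) (1 - d); linarith only [hε, this]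
  have hε2 : d + 2 * ε ≤ 1 := by have := min_le_right (μ - d) (1 - d); linarith
  set η := min (ε / 4) (Real.exp (-(6 / ε)) / (2 * (lam + 1))) with hη
  have hη0 : 0 < η := lt_min (by positivity) (by positivity)
  set C' : ℝ := ((C + 1 : ℕ) : ℝ) with hC'
  have hC1 : 1 ≤ C' := by rw [hC']; exact_mod_cast Nat.succ_pos C
  set A := 32 * C' ^ 2 with hA
  have hA0 : 0 < A := by positivity
  have hinf := h.inf
  have t1 : ∀ᶠ n : ℕ in atTop, Real.exp (n * Real.exp (0 - η / 4 * (p n * n))) - 1 ≤ 1 / 10 := by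
    have := ((Real.continuous_exp.tendsto 0).comp (h.decay (γ := η / 4) (by positivity) 0)).sub_const 1
    rw [Real.exp_zero, sub_self] at this
    exact this.eventually (ge_mem_nhds (by norm_num))
  have t2 := (h.decay one_pos 0).eventually (ge_mem_nhds (show (0 : ℝ) < 1 / 10 by norm_num))
  have t3 := (h.decay (γ := ε ^ 2 / 6) (by positivity) 1).eventually
    (ge_mem_nhds (show (0 : ℝ) < 1 / 10 by norm_num))
  have t4 := (h.decay hη0 (2 * (A + 1))).eventually
    (ge_mem_nhds (show (0 : ℝ) < 1 / 10 by norm_num))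
  have t5 := h.lim0.eventually (ge_mem_nhds
    (show (0 : ℝ) < A / (20 * (A + 1) ^ 3 + 4 * C') by positivity))
  have t6 := h.lim.eventually (ge_mem_nhds (lt_add_one lam))
  have t7 := (tendsto_natCast_atTop_atTop (R := ℝ)).eventually (eventually_ge_atTop (64 / η))
  filter_upwards [t1, t2, t3, t4, t5, t6, t7, hX (ε * η / 1280) (by positivity),
    hinf.eventually (eventually_ge_atTop (1 / ε)),
    hinf.eventually (eventually_ge_atTop ((A + 1) * (128 / η + 1)))]
    with n t1 t2 t3 t4 t5 t6 t7 t8 t9 t10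
  have h0 := h.p0 n
  have h1 := h.p1 n
  set y := p n * n with hy
  have hy1 : 1 ≤ ε * y := by rw [div_le_iff₀ hε0] at t9; linarith only [t9]
  have hy0 : 0 < y := lt_of_lt_of_le (by positivity) t9
  have hp : 0 < p n := pos_of_mul_pos_left hy0 (Nat.cast_nonneg n) |> fun h => h
  have hn : (0 : ℝ) < n := lt_of_lt_of_le (by positivity) t7
  set s := ⌈A / p n⌉₊ with hs
  have s1 : A ≤ p n * s := by
    have := Nat.le_ceil (A / p n)
    rw [div_le_iff₀ hp] at this; linarith only [this]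
  have s2 : p n * s ≤ A + 1 := by
    have := (Nat.ceil_lt_add_one (show 0 ≤ A / p n by positivity)).le
    have e := mul_le_mul_of_nonneg_left this h0
    rw [mul_add, mul_div_cancel₀ _ hp.ne'] at e
    linarith only [h1, e]
  have s3 : (s : ℝ) * (128 / η + 1) ≤ n := by
    have e := mul_le_mul_of_nonneg_right s2 (show 0 ≤ 128 / η + 1 by positivity)
    have : p n * (s * (128 / η + 1)) ≤ p n * n := by linarith only [t10, e]
    exact le_of_mul_le_mul_left this hp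
  have s0 : (0 : ℝ) ≤ s := Nat.cast_nonneg s
  have s4 : s ≤ n := by
    have : 0 ≤ (s : ℝ) * (128 / η) := by positivity
    have : (s : ℝ) ≤ n := by linarith only [s3, this]
    exact_mod_cast this
  have s5 : (s : ℝ) ≤ η * n / 128 := by
    have e : (s : ℝ) * (128 / η) ≤ n := by linarith only [s3]
    rw [← mul_div_assoc, div_le_iff₀ hη0] at e
    linarith only [e]
  have s6 : 20 * (A + 1) ^ 3 + 4 * C' ≤ s := by
    rw [le_div_iff₀ (by positivity)] at t5
    have : p n * (20 * (A + 1) ^ 3 + 4 * C') ≤ p n * s := by linarith only [t5, s1]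
    exact le_of_mul_le_mul_left this hp
  obtain ⟨S, -, hS⟩ := Finset.exists_subset_card_eq (s := (univ : Finset (Fin n))) (n := s)
    (by simpa using s4)
  set m := ⌊η * n / 32⌋₊ with hm
  have m1 : (m : ℝ) ≤ η * n / 32 := Nat.floor_le (by positivity)
  have m2 : η * n / 64 ≤ m := by
    have := Nat.lt_floor_add_one (η * n / 32)
    rw [div_le_iff₀ hη0] at t7
    linarith only [t7, this]
  have hA3 : 0 ≤ (A + 1) ^ 3 := by positivity
  have b1 := sparse_bound (V := Fin n) h0 h1 (D := η * y) (m := m) (by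
    have := mul_le_mul_of_nonneg_left m1 h0
    rw [hy]; linarith only [this])
  have b2 := load_bound (V := Fin n) h0 h1 (y0 := 2 * (η * y)) (k := ε / 2 * y) (γ := 6 / ε)
    (by positivity) (by
      have e1 : η ≤ Real.exp (-(6 / ε)) / (2 * (lam + 1)) := min_le_right _ _
      rw [le_div_iff₀ (by positivity)] at e1
      have e2 := mul_le_mul_of_nonneg_left t6 (show 0 ≤ 2 * η by positivity)
      rw [hy]; linarith only [e1, e2])
  have b3 := mindeg_bound (V := Fin n) h0 h1 hε0.le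
  have b4 := nbS_bound (V := Fin n) h0 h1 S (η * y)
  have b5 := triS_bound (V := Fin n) h0 h1 S (Finset.card_pos.1 (by
    have : (0 : ℝ) < s := by linarith only [hC1, s6, hA3]
    rw [hS]; exact_mod_cast this))
  have b6 := indep_bound (V := Fin n) h0 h1 S hC1 (by rw [hS]; linarith only [s6, hA3]) (by rw [hS]; exact s1)
  have b7 := bad_bound (V := Fin n) h0 h1 (fun v ω => X n v ω - μ * y) (a := ε * y)
    (b := η * n / 128) (by positivity) (by positivity) t8
  simp only [Fintype.card_fin, hS] at b1 b2 b3 b4 b5 b6 b7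
  have c1 := b1.trans (le_of_eq_of_le (by congr 4; ring) t1)
  have c2 := b2.trans (le_of_eq_of_le (by congr 2; rw [hy]; field_simp; ring) t2)
  have c3 := b3.trans t3
  have c4 := b4.trans ((mul_le_mul_of_nonneg_left (Real.exp_le_exp.2 (by linarith only [s2])) hn.le).trans t4)
  have c5 := b5.trans (show _ ≤ (1 : ℝ) / 10 by
    have e1 : (p n * s) ^ 3 ≤ (A + 1) ^ 3 := pow_le_pow_left₀ (by positivity) s2 3
    rw [div_le_iff₀ (by linarith only [hC1, s6, hA3])]; linarith only [hC1, s6, e1])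
  have c6 := b6.trans (show _ ≤ (1 : ℝ) / 10 by
    rw [Real.exp_neg, ← one_div]
    refine one_div_le_one_div_of_le (by norm_num) ?_
    have : 1 ≤ (A + 1) ^ 3 := one_le_pow₀ (by linarith only [hA0])
    linarith only [hC1, s6, this, Real.add_one_le_exp (s : ℝ)])
  have c7 := b7.trans (show _ ≤ (1 : ℝ) / 10 by
    refine le_of_eq ?_
    field_simp
    norm_num)
  have u := (Pr_or_le h0 h1 _ _).trans (add_le_add c1 ((Pr_or_le h0 h1 _ _).trans (add_le_add c2
    ((Pr_or_le h0 h1 _ _).trans (add_le_add c3 ((Pr_or_le h0 h1 _ _).trans (add_le_add c4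
    ((Pr_or_le h0 h1 _ _).trans (add_le_add c5 ((Pr_or_le h0 h1 _ _).trans
    (add_le_add c6 c7)))))))))))
  refine le_trans (Pr_mono h0 h1 fun ω hω => ?_) (u.trans (by norm_num))
  by_contra hc
  simp only [not_or] at hc
  obtain ⟨k1, k2, k3, k4, k5, k6, k7⟩ := hc
  obtain ⟨R, r1, r2, r3⟩ := hdet n ω
  obtain ⟨G', g1, g2, g3, g4⟩ := lower_fixed (y := y) (d := d) (ε := ε) (D := η * y) (μ := μ)
    (C := C + 1) (m := m) r1 r2 (fun v => X n v ω) S (by positivity) hy1 hy0.le hε1 hε2 r3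
    (Nat.succ_pos C) (by rw [hS]; linarith only [s5, m2, k7, not_le.1 k7]) k1
    (fun ⟨a, Y, e1, e2, e3⟩ => k2 ⟨a, Y, e1, e2, by
      have := mul_le_mul_of_nonneg_right (min_le_left (ε / 4)
        (Real.exp (-(6 / ε)) / (2 * (lam + 1)))) hy0.le
      linarith only [e3, this]⟩) k3 k4 (by rw [hS]; exact k5) (by rw [hS]; exact k6)
  exact g4 ((hω G' g1 g2 fun v => by rw [mul_assoc]; exact g3 v).mono (Nat.le_succ C))

end Pool.Agent.Work.MP_d4a230_co
end

-- merged part: Pool.Agent.Work.MP_d4a230_co.HMain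
section
-- merged part: Pool.Agent.Work.MP_d4a230_co.HGraph
section
namespace Pool.Agent.Work.MP_d4a230_co

open Finset Filter Topology

variable {W : Type} [Fintype W] [DecidableEq W] {H : SimpleGraph W} [DecidableRel H.Adj]

/-- Strict 2-balance in counting form. -/
structure HBal (H : SimpleGraph W) [DecidableRel H.Adj] : Prop where
  h3 : 3 ≤ Fintype.card W
  hk : Fintype.card W ≤ H.edgeFinset.card
  bal : ∀ U : Finset W, 3 ≤ U.card → U.card < Fintype.card W →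
    ((ein H.edgeFinset U : ℤ) - 1) * ((Fintype.card W : ℤ) - 2) <
      ((H.edgeFinset.card : ℤ) - 1) * ((U.card : ℤ) - 2)

omit [DecidableEq W] in
lemma ncard_edge : H.edgeSet.ncard = H.edgeFinset.card := Set.ncard_eq_toFinset_card' _

omit [DecidableEq W] in
lemma twoRatio_top : twoRatio (⊤ : H.Subgraph) =
    ((H.edgeFinset.card : ℝ) - 1) / ((Fintype.card W : ℝ) - 2) := by
  unfold twoRatio
  rw [SimpleGraph.Subgraph.edgeSet_top, SimpleGraph.Subgraph.verts_top, Set.ncard_univ,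
    Nat.card_eq_fintype_card, ncard_edge]

omit [DecidableEq W] in
lemma StrictlyTwoBalanced.twoDensity_eq (hH : StrictlyTwoBalanced H) :
    twoDensity H = ((H.edgeFinset.card : ℝ) - 1) / ((Fintype.card W : ℝ) - 2) := by
  rw [← twoRatio_top]
  refine IsGreatest.csSup_eq ⟨⟨⊤, by simpa [Set.ncard_univ] using hH.1, rfl⟩, ?_⟩
  rintro _ ⟨F, h1, rfl⟩
  by_cases h : F = ⊤
  · rw [h]
  · exact (hH.2 F h h1).le

lemma StrictlyTwoBalanced.hbal (hH : StrictlyTwoBalanced H) (hm : 1 < twoDensity H) : HBal H := by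
  have h3 : 3 ≤ Fintype.card W := Nat.card_eq_fintype_card (α := W) ▸ hH.1
  have h3' : (3 : ℝ) ≤ Fintype.card W := by exact_mod_cast h3
  rw [hH.twoDensity_eq, one_lt_div (by linarith only [h3'])] at hm
  refine ⟨h3, ?_, fun U u1 u2 => ?_⟩
  · have : (Fintype.card W : ℝ) < H.edgeFinset.card + 1 := by linarith only [hm]
    have : Fintype.card W < H.edgeFinset.card + 1 := by exact_mod_cast this
    omega
  · have e1 : ((⊤ : H.Subgraph).induce (U : Set W)).verts.ncard = U.card := by simp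
    have e2 : ((⊤ : H.Subgraph).induce (U : Set W)).edgeSet.ncard = ein H.edgeFinset U := by
      unfold ein
      rw [← Set.ncard_coe_finset]
      congr 1
      ext e
      induction e using Sym2.ind with
      | _ a b => simp [Finset.subset_iff]; tauto
    have e3 := hH.2 ((⊤ : H.Subgraph).induce (U : Set W)) (fun h => by
      rw [h, SimpleGraph.Subgraph.verts_top, Set.ncard_univ, Nat.card_eq_fintype_card] at e1
      omega) (by rw [e1]; exact u1)
    have u3 : (3 : ℝ) ≤ U.card := by exact_mod_cast u1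
    rw [twoRatio_top, twoRatio, e1, e2, div_lt_div_iff₀ (by linarith only [u3]) (by linarith only [h3'])] at e3
    exact_mod_cast e3

lemma HBal.vs_eq (B : HBal H) : vs H.edgeFinset = univ := by
  rw [Finset.eq_univ_iff_forall]
  intro w
  by_contra hw
  have h3 := B.h3
  have hk := B.hk
  have c1 : (univ.erase w).card + 1 = Fintype.card W := Finset.card_erase_add_one (mem_univ w)
  have e1 : ∀ e ∈ H.edgeFinset, e.toFinset ⊆ univ.erase w := fun e he x hx =>
    Finset.mem_erase.2 ⟨fun h => hw (mem_vs.2 ⟨e, he, h ▸ Sym2.mem_toFinset.1 hx⟩), mem_univ x⟩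
  by_cases h4 : 3 ≤ (univ.erase w).card
  · have e2 := B.bal _ h4 (by omega)
    unfold ein at e2
    rw [Finset.filter_true_of_mem e1, ← c1] at e2
    have : (3 : ℤ) ≤ H.edgeFinset.card := by exact_mod_cast h3.trans hk
    push_cast at e2
    linarith only [h3, hk, e2]
  · have : H.edgeFinset.card ≤ 1 := Finset.card_le_one.2 fun e he g hg => by
      have e3 : g.toFinset = univ.erase w := Finset.eq_of_subset_of_card_le (e1 g hg) (by
        rw [Sym2.card_toFinset_of_not_isDiag _ (H.not_isDiag_of_mem_edgeFinset hg)]; omega)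
      exact sym2_eq_of_subset (H.not_isDiag_of_mem_edgeFinset he) fun x hx =>
        Sym2.mem_toFinset.1 (e3 ▸ e1 e he (Sym2.mem_toFinset.2 hx))
    omega

variable {V : Type} [Fintype V] [DecidableEq V]

/-- Edge set of the copy of `H` given by an embedding. -/
def img (H : SimpleGraph W) [DecidableRel H.Adj] (f : W ↪ V) : Finset (Sym2 V) :=
  H.edgeFinset.image (Sym2.map f)

/-- The copies of `H` in the complete graph on `V`. -/
noncomputable def copies (H : SimpleGraph W) [DecidableRel H.Adj] (V : Type) [Fintype V]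
    [DecidableEq V] : Finset (Finset (Sym2 V)) := univ.image (img (V := V) H)

omit [Fintype V] [DecidableEq W] in
lemma mem_img {f : W ↪ V} {u v : W} : s(f u, f v) ∈ img H f ↔ H.Adj u v := by
  unfold img
  rw [← Sym2.map_mk, Finset.mem_image]
  constructor
  · rintro ⟨e, he, h⟩
    rw [Sym2.map.injective f.injective h] at he
    simpa using he
  · exact fun h => ⟨s(u, v), by simpa using h, rfl⟩

omit [Fintype V] [DecidableEq W] in
lemma card_img (f : W ↪ V) : (img H f).card = H.edgeFinset.card :=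
  Finset.card_image_of_injective _ (Sym2.map.injective f.injective)

omit [Fintype V] [DecidableEq W] in
lemma img_nd {f : W ↪ V} {e : Sym2 V} (he : e ∈ img H f) : ¬ e.IsDiag := by
  obtain ⟨g, hg, rfl⟩ := Finset.mem_image.1 he
  rw [Sym2.isDiag_map f.injective]
  exact H.not_isDiag_of_mem_edgeFinset hg

omit [Fintype V] in
lemma HBal.vs_img (B : HBal H) (f : W ↪ V) : vs (img H f) = univ.map f := by
  ext x
  rw [mem_vs, Finset.mem_map]
  constructor
  · rintro ⟨e, he, hx⟩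
    obtain ⟨g, -, rfl⟩ := Finset.mem_image.1 he
    obtain ⟨a, -, rfl⟩ := Sym2.mem_map.1 hx
    exact ⟨a, mem_univ a, rfl⟩
  · rintro ⟨a, ha, rfl⟩
    obtain ⟨e, he, hx⟩ := mem_vs.1 (B.vs_eq ▸ ha)
    exact ⟨_, Finset.mem_image_of_mem _ he, Sym2.mem_map.2 ⟨a, hx, rfl⟩⟩

lemma HBal.sys (B : HBal H) : Sys (copies H V) (Fintype.card W) H.edgeFinset.card
    (2 ^ (Fintype.card W + 1).choose 2) := by
  have cvs : ∀ T ∈ copies H V, (vs T).card = Fintype.card W := fun T hT => by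
    obtain ⟨f, -, rfl⟩ := Finset.mem_image.1 hT
    rw [B.vs_img, Finset.card_map, Finset.card_univ]
  refine ⟨B.h3, B.hk, fun T hT => ?_, fun T hT e he => ?_, cvs, fun T hT U hU u1 u2 => ?_,
    fun Y => ?_⟩
  · obtain ⟨f, -, rfl⟩ := Finset.mem_image.1 hT
    exact card_img f
  · obtain ⟨f, -, rfl⟩ := Finset.mem_image.1 hT
    exact img_nd he
  · obtain ⟨f, -, rfl⟩ := Finset.mem_image.1 hT
    rw [B.vs_img] at hU
    obtain ⟨U0, -, rfl⟩ := Finset.subset_map_iff.1 hU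
    have e1 : ein (img H f) (U0.map f) = ein H.edgeFinset U0 := by
      unfold ein img
      rw [Finset.filter_image, Finset.card_image_of_injective _ (Sym2.map.injective f.injective)]
      congr 1
      refine Finset.filter_congr fun e _ => ?_
      induction e using Sym2.ind with
      | _ a b => simp [Finset.subset_iff]
    rw [Finset.card_map] at u1 u2 ⊢
    rw [e1]
    exact B.bal U0 u1 u2
  · rcases ((copies H V).filter fun T => vs T = Y).eq_empty_or_nonempty with he | ⟨T0, hT0⟩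
    · rw [he]; simp
    obtain ⟨t1, t2⟩ := Finset.mem_filter.1 hT0
    rw [← cvs T0 t1, t2, ← Finset.card_sym2, ← Finset.card_powerset]
    refine Finset.card_le_card fun T hT => Finset.mem_powerset.2 fun e he => ?_
    rw [Finset.mem_sym2_iff, ← (Finset.mem_filter.1 hT).2]
    exact fun x hx => mem_vs.2 ⟨e, he, hx⟩

lemma HBal.fiber (B : HBal H) (f0 : W ↪ V) :
    (univ.filter fun f : W ↪ V => img H f = img H f0).card = Nat.card (H ≃g H) := by
  rw [← Fintype.card_coe, ← Nat.card_eq_fintype_card, eq_comm]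
  refine Nat.card_congr (Equiv.ofBijective (fun φ => ⟨φ.toEquiv.toEmbedding.trans f0, ?_⟩) ⟨?_, ?_⟩)
  · refine Finset.mem_filter.2 ⟨mem_univ _, Finset.eq_of_subset_of_card_le (fun e he => ?_)
      (by rw [card_img, card_img])⟩
    obtain ⟨g, hg, rfl⟩ := Finset.mem_image.1 he
    induction g using Sym2.ind with
    | _ a b => exact mem_img.2 (φ.map_adj_iff.2 (by simpa using hg))
  · intro φ ψ h
    ext w
    exact f0.injective (DFunLike.congr_fun (congrArg Subtype.val h) w)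
  · rintro ⟨f, hf⟩
    have hf' := (Finset.mem_filter.1 hf).2
    have hex : ∀ w, ∃ w', f0 w' = f w := fun w => by
      have : f w ∈ vs (img H f0) := by rw [← hf', B.vs_img]; exact Finset.mem_map_of_mem _ (mem_univ w)
      rw [B.vs_img] at this
      obtain ⟨w', -, h⟩ := Finset.mem_map.1 this
      exact ⟨w', h⟩
    choose φ hφ using hex
    have hinj : Function.Injective φ := fun a b h => f.injective (by rw [← hφ, ← hφ, h])
    refine ⟨⟨Equiv.ofBijective φ hinj.bijective_of_finite, fun {a b} => ?_⟩, Subtype.ext ?_⟩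
    · show H.Adj (φ a) (φ b) ↔ H.Adj a b
      rw [← mem_img (f := f0), hφ, hφ, ← hf', mem_img]
    · ext w
      exact hφ w

lemma HBal.count (B : HBal H) {e : Sym2 V} (he : ¬ e.IsDiag) :
    ((copies H V).filter fun T => e ∈ T).card * Nat.card (H ≃g H) * (Fintype.card V).choose 2 =
      H.edgeFinset.card * (Fintype.card V).descFactorial (Fintype.card W) := by
  have e1 : ∀ e : Sym2 V, ((copies H V).filter fun T => e ∈ T).card * Nat.card (H ≃g H) =
      (univ.filter fun f : W ↪ V => e ∈ img H f).card := by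
    intro e
    rw [Finset.card_eq_sum_card_fiberwise (f := img H) (t := (copies H V).filter fun T => e ∈ T)
      (s := univ.filter fun f : W ↪ V => e ∈ img H f) (fun f hf => Finset.mem_filter.2
        ⟨Finset.mem_image_of_mem _ (mem_univ f), (Finset.mem_filter.1 hf).2⟩), ← smul_eq_mul,
      ← Finset.sum_const]
    refine Finset.sum_congr rfl fun T hT => ?_
    obtain ⟨t1, t2⟩ := Finset.mem_filter.1 hT
    obtain ⟨f0, -, rfl⟩ := Finset.mem_image.1 t1
    rw [← B.fiber f0, Finset.filter_filter]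
    congr 1
    exact Finset.filter_congr fun f _ => ⟨fun h => ⟨h ▸ t2, h⟩, fun h => h.2⟩
  have e2 : ∀ e e' : Sym2 V, ¬ e.IsDiag → ¬ e'.IsDiag →
      (univ.filter fun f : W ↪ V => e ∈ img H f).card ≤
      (univ.filter fun f : W ↪ V => e' ∈ img H f).card := by
    intro e e' h1 h2
    induction e using Sym2.ind with | _ a b => ?_
    induction e' using Sym2.ind with | _ a' b' => ?_
    have h3 : a ≠ b := by simpa using h1
    have h4 : a' ≠ b' := by simpa using h2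
    let σ := (Equiv.swap a a').trans (Equiv.swap (Equiv.swap a a' b) b')
    have s1 : σ a = a' := by
      refine (congrArg _ (Equiv.swap_apply_left a a')).trans (Equiv.swap_apply_of_ne_of_ne ?_ h4)
      exact fun h => h3 ((Equiv.swap a a').injective ((Equiv.swap_apply_left a a').trans h))
    have s2 : σ b = b' := Equiv.swap_apply_left _ _
    refine Finset.card_le_card_of_injOn (fun f => f.trans σ.toEmbedding) (fun f hf => ?_)
      fun f _ g _ h => Function.Embedding.ext fun w => σ.injective (DFunLike.congr_fun h w)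
    obtain ⟨g, hg, h⟩ := Finset.mem_image.1 (Finset.mem_filter.1 hf).2
    refine Finset.mem_filter.2 ⟨mem_univ _, Finset.mem_image.2 ⟨g, hg, ?_⟩⟩
    rw [← s1, ← s2, ← Sym2.map_mk, ← h, Sym2.map_map]
    rfl
  have e3 : ∑ g ∈ univ.filter (fun g : Sym2 V => ¬ g.IsDiag),
      (univ.filter fun f : W ↪ V => g ∈ img H f).card =
      H.edgeFinset.card * (Fintype.card V).descFactorial (Fintype.card W) := by
    rw [← Fintype.card_embedding_eq, ← Finset.card_univ, mul_comm, ← smul_eq_mul,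
      ← Finset.sum_const]
    simp only [Finset.card_filter]
    rw [Finset.sum_comm]
    refine Finset.sum_congr rfl fun f _ => ?_
    rw [← Finset.card_filter, ← card_img f, Finset.filter_mem_eq_inter, Finset.inter_eq_right.2
      fun g hg => Finset.mem_filter.2 ⟨mem_univ g, img_nd hg⟩]
  rw [← e3, e1, ← Sym2.card_subtype_not_diag, Fintype.card_subtype, mul_comm, ← smul_eq_mul,
    ← Finset.sum_const]
  exact Finset.sum_congr rfl fun g hg => le_antisymm (e2 _ _ he (Finset.mem_filter.1 hg).2)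
    (e2 _ _ (Finset.mem_filter.1 hg).2 he)

lemma free_gr {ω : Finset (Sym2 V)} :
    H.Free (gr ω) ↔ ∀ T ∈ copies H V, ¬ T ⊆ ω := by
  constructor
  · intro h T hT hs
    obtain ⟨f, -, rfl⟩ := Finset.mem_image.1 hT
    exact h ⟨⟨⟨f, fun {a b} hab => gr_adj.2 ⟨hs (mem_img.2 hab), f.injective.ne hab.ne⟩⟩,
      f.injective⟩⟩
  · rintro h ⟨c⟩
    refine h _ (Finset.mem_image_of_mem _ (mem_univ c.toEmbedding)) fun e he => ?_
    obtain ⟨g, hg, rfl⟩ := Finset.mem_image.1 he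
    induction g using Sym2.ind with
    | _ a b => exact (gr_adj.1 (c.toHom.map_adj (by simpa using hg))).1

omit [DecidableEq V] in
lemma sub_iff {ω : Finset (Sym2 V)} (q : SimpleGraph V → Prop) :
    (∀ G' ≤ gr ω, q G') ↔ ∀ ω' ⊆ ω, q (gr ω') := by
  classical
  refine ⟨fun h ω' hs => h _ fun a b hab => gr_adj.2 ⟨hs (gr_adj.1 hab).1, hab.ne⟩,
    fun h G' hG => ?_⟩
  have e : gr G'.edgeFinset = G' := by unfold gr; simp
  refine e ▸ h _ fun e he => ?_
  induction e using Sym2.ind with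
  | _ a b => exact (gr_adj.1 (hG (by simpa using he))).1

lemma HBal.reg (B : HBal H) {p : ℕ → unitInterval} {c : ℝ} (hc : 0 < c)
    (hp : Tendsto (fun n : ℕ => (p n : ℝ) * (n : ℝ) ^
      (1 / (((H.edgeFinset.card : ℝ) - 1) / ((Fintype.card W : ℝ) - 2)))) atTop (𝓝 c)) :
    HReg (fun n => p n) (fun n => copies H (Fin n)) (Fintype.card W) H.edgeFinset.card
      (2 ^ (Fintype.card W + 1).choose 2) (copyRate H c) (c ^ (H.edgeFinset.card - 1)) := by
  have h3 := B.h3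
  have hk := B.hk
  set h := Fintype.card W
  set k := H.edgeFinset.card with hk'
  have lim : Tendsto (fun n : ℕ => (n : ℝ) ^ (h - 2) * (p n : ℝ) ^ (k - 1)) atTop
      (𝓝 (c ^ (k - 1))) := by
    refine (hp.pow (k - 1)).congr fun n => ?_
    have e1 : (k : ℝ) - 1 ≠ 0 := by
      have : (3 : ℝ) ≤ k := by exact_mod_cast h3.trans hk
      linarith only [this]
    rw [mul_pow, ← Real.rpow_natCast ((n : ℝ) ^ _), ← Real.rpow_mul (Nat.cast_nonneg n),
      Nat.cast_sub (by omega), one_div_div, Nat.cast_one, div_mul_cancel₀ _ e1, mul_comm,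
      ← Real.rpow_natCast (n : ℝ), Nat.cast_sub (by omega), Nat.cast_two]
  have hA : (0 : ℝ) < Nat.card (H ≃g H) := by
    have : Finite (H ≃g H) := Finite.of_injective _ RelIso.toEquiv_injective
    have : Nonempty (H ≃g H) := ⟨SimpleGraph.Iso.refl⟩
    exact_mod_cast Nat.card_pos
  refine ⟨fun n => (p n).2.1, fun n => (p n).2.2, fun n => B.sys, lim, by positivity, ?_, ?_⟩
  · unfold copyRate; positivity
  · have l1 : ∀ j : ℕ, Tendsto (fun n : ℕ => (n.descFactorial j : ℝ) / (n : ℝ) ^ j) atTop (𝓝 1) :=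
      fun j => (Asymptotics.isEquivalent_iff_tendsto_one (by
        filter_upwards [eventually_gt_atTop 0] with n hn
        positivity)).1 (isEquivalent_descFactorial j)
    have l2 := (((l1 h).div (l1 2) one_ne_zero).mul lim).const_mul (2 * k / Nat.card (H ≃g H) : ℝ)
    have e0 : 2 * k / (Nat.card (H ≃g H) : ℝ) * (1 / 1 * c ^ (k - 1)) = copyRate H c := by
      unfold copyRate
      rw [ncard_edge]; ring
    rw [e0] at l2
    intro ε hε
    filter_upwards [Metric.tendsto_nhds.1 l2 ε hε, eventually_ge_atTop 2] with n h1 hn e he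
    refine le_trans (le_of_eq ?_) h1.le
    rw [Real.dist_eq]
    congr 2
    have e1 := B.count he
    rw [Fintype.card_fin] at e1
    have e2 : n.descFactorial 2 = 2 * n.choose 2 := Nat.descFactorial_eq_factorial_mul_choose n 2
    have e3 : (0 : ℝ) < n.choose 2 := by exact_mod_cast Nat.choose_pos hn
    have e4 : (0 : ℝ) < n := by exact_mod_cast (by omega : 0 < n)
    have e5 : ((((copies H (Fin n)).filter fun T => e ∈ T).card : ℕ) : ℝ) * Nat.card (H ≃g H) *
      n.choose 2 = k * n.descFactorial h := by exact_mod_cast e1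
    have e6 : (n : ℝ) ^ h = (n : ℝ) ^ (h - 2) * n ^ 2 := by rw [← pow_add]; congr 1; omega
    simp only [Pi.div_apply]
    rw [e2, e6]
    push_cast
    field_simp
    linear_combination (p n : ℝ) ^ (k - 1) * e5

end Pool.Agent.Work.MP_d4a230_co
end

-- merged part: Pool.Agent.Work.MP_d4a230_co.Cover
section
namespace Pool.Agent.Work.MP_d4a230_co

open Finset

lemma hall_round {V α : Type} [Fintype V] [Nonempty V] (𝒯 : Finset α) (w : V → α → ℝ)
    (h0 : ∀ v X, 0 ≤ w v X) (h1 : ∀ X ∈ 𝒯, ∑ v, w v X ≤ 1) (h2 : ∀ X ∈ 𝒯, ∃ v, 0 < w v X) :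
    ∃ ap : α → V, (∀ X ∈ 𝒯, 0 < w (ap X) X) ∧
      ∀ v, ∑ X ∈ 𝒯, w v X - 1 ≤ ∑ X ∈ 𝒯, ind (ap X = v) := by
  classical
  let k : V → ℕ := fun v => ⌊∑ X ∈ 𝒯, w v X⌋₊
  let t : (Σ v, Fin (k v)) → Finset α := fun i => 𝒯.filter fun X => 0 < w i.1 X
  have hall : ∀ s : Finset (Σ v, Fin (k v)), s.card ≤ (s.biUnion t).card := by
    intro s
    let W : Finset V := s.image fun i => i.1
    have e1 : s.card ≤ ∑ v ∈ W, k v := by
      have : s ⊆ W.sigma fun v => (univ : Finset (Fin (k v))) := by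
        intro i hi
        simp only [Finset.mem_sigma, Finset.mem_univ, and_true]
        exact Finset.mem_image_of_mem _ hi
      refine (Finset.card_le_card this).trans ?_
      simp [Finset.card_sigma]
    have e2 : ((∑ v ∈ W, k v : ℕ) : ℝ) ≤ ∑ v ∈ W, ∑ X ∈ 𝒯, w v X := by
      rw [Nat.cast_sum]
      exact Finset.sum_le_sum fun v _ =>
        Nat.floor_le (Finset.sum_nonneg fun X _ => h0 v X)
    have e3 : ∑ v ∈ W, ∑ X ∈ 𝒯, w v X ≤ ∑ X ∈ 𝒯, ind (X ∈ s.biUnion t) := by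
      rw [Finset.sum_comm]
      refine Finset.sum_le_sum fun X hX => ?_
      by_cases h : X ∈ s.biUnion t
      · rw [ind_pos h]
        exact (Finset.sum_le_sum_of_subset_of_nonneg (Finset.subset_univ W)
          fun v _ _ => h0 v X).trans (h1 X hX)
      · rw [ind_neg h]
        refine Finset.sum_nonpos fun v hv => ?_
        obtain ⟨i, hi, rfl⟩ := Finset.mem_image.1 hv
        by_contra hc
        exact h (Finset.mem_biUnion.2 ⟨i, hi, Finset.mem_filter.2 ⟨hX, not_le.1 hc⟩⟩)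
    have e4 : ∑ X ∈ 𝒯, ind (X ∈ s.biUnion t) ≤ ((s.biUnion t).card : ℝ) := by
      rw [sum_ind]
      exact_mod_cast Finset.card_le_card fun X hX => (Finset.mem_filter.1 hX).2
    have e5 : (s.card : ℝ) ≤ ((∑ v ∈ W, k v : ℕ) : ℝ) := by exact_mod_cast e1
    exact_mod_cast e5.trans (e2.trans (e3.trans e4))
  obtain ⟨f, hf, hft⟩ := (Finset.all_card_le_biUnion_card_iff_exists_injective t).1 hall
  have hex : ∀ X, ∃ v, (X ∈ 𝒯 → 0 < w v X) ∧ ∀ i, f i = X → v = i.1 := by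
    intro X
    by_cases h : ∃ i, f i = X
    · obtain ⟨i, rfl⟩ := h
      exact ⟨i.1, fun _ => (Finset.mem_filter.1 (hft i)).2, fun j hj => by rw [hf hj]⟩
    · by_cases hX : X ∈ 𝒯
      · obtain ⟨v, hv⟩ := h2 X hX
        exact ⟨v, fun _ => hv, fun i hi => absurd ⟨i, hi⟩ h⟩
      · exact ⟨Classical.arbitrary V, fun h' => absurd h' hX, fun i hi => absurd ⟨i, hi⟩ h⟩
  choose ap hap1 hap2 using hex
  refine ⟨ap, hap1, fun v => ?_⟩
  rw [sum_ind]
  have e1 : k v ≤ (𝒯.filter fun X => ap X = v).card := by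
    have := Finset.card_le_card_of_injOn (s := (univ : Finset (Fin (k v))))
      (t := 𝒯.filter fun X => ap X = v) (fun j => f ⟨v, j⟩)
      (fun j _ => Finset.mem_coe.2 (Finset.mem_filter.2
        ⟨(Finset.mem_filter.1 (hft ⟨v, j⟩)).1, hap2 _ ⟨v, j⟩ rfl⟩))
      (fun j _ j' _ h => by simpa using hf h)
    simpa using this
  have e2 : (k v : ℝ) ≤ (𝒯.filter fun X => ap X = v).card := by exact_mod_cast e1
  have e3 := Nat.lt_floor_add_one (∑ X ∈ 𝒯, w v X)
  simp only [k] at e2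
  linarith only [e2, e3]

variable {V : Type} {G : SimpleGraph V} {T : V → V → V → Prop}

/-- Critical triangles. -/
def Crit (G : SimpleGraph V) (T : V → V → V → Prop) (s : ℕ) (a b w : V) : Prop :=
  Tri G T (2 * s + 1) (2 * s + 1) (2 * s + 1) a b w

/-- Critical triangles in which the edge `ab` has the largest level. -/
def Forced (G : SimpleGraph V) (T : V → V → V → Prop) (s : ℕ) (a b w : V) : Prop :=
  ∃ k < s, Tri G T (2 * (k + 1) + 1) (2 * k + 1) (2 * k + 1) a b w ∧ ¬ F G T (2 * k + 1) a b w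

lemma Forced.crit {s : ℕ} {a b w : V} (h : Forced G T s a b w) : Crit G T s a b w := by
  obtain ⟨k, hk, h, _⟩ := h
  exact ⟨h.1, h.2.1, F_odd_mono hk h.2.2.1, F_odd_mono hk.le h.2.2.2.1,
    F_odd_mono hk.le h.2.2.2.2⟩

lemma Forced.s12 (hT : SymT T) {s : ℕ} {a b w : V} (h : Forced G T s a b w) :
    Forced G T s b a w := by
  obtain ⟨k, hk, h, h'⟩ := h
  exact ⟨k, hk, h.s12 hT, fun h2 => h' (h2.symm hT)⟩

lemma Forced.not23 {s : ℕ} {a b w : V} (h : Forced G T s a b w) : ¬ Forced G T s a w b := by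
  obtain ⟨k, _, h, h'⟩ := h
  rintro ⟨l, _, g, g'⟩
  rcases le_total k l with hkl | hkl
  · exact g' (F_odd_mono hkl h.2.2.2.1)
  · exact h' (F_odd_mono hkl g.2.2.2.1)

lemma free_of_not_forced {s k : ℕ} {a b w : V} (hc : Crit G T s a b w)
    (hf : ¬ Forced G T s a b w) (hk : k ≤ s) (hs : Sup G T k a b w) :
    F G T (2 * k + 1) a b w := by
  have : ∀ j, k + j ≤ s → F G T (2 * (k + j) + 1) a b w → F G T (2 * k + 1) a b w := by
    intro j
    induction j with
    | zero => exact fun _ h => h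
    | succ j ih =>
      intro hj h
      refine ih (by omega) ?_
      by_contra hn
      exact hf ⟨k + j, by omega, ⟨hc.1, hc.2.1, h, F_odd_mono (by omega) hs.2.1,
        F_odd_mono (by omega) hs.2.2⟩, hn⟩
  obtain ⟨j, rfl⟩ := Nat.exists_eq_add_of_le hk
  exact this j le_rfl hc.2.2.1

lemma ind_forced (s : ℕ) (a b w : V) : ind (Forced G T s a b w) =
    ∑ k ∈ range s, (ind (Tri G T (2 * (k + 1) + 1) (2 * k + 1) (2 * k + 1) a b w) -
      ind (Tri G T (2 * k + 1) (2 * k + 1) (2 * k + 1) a b w)) := by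
  have e : ∀ k, ind (Tri G T (2 * (k + 1) + 1) (2 * k + 1) (2 * k + 1) a b w) -
      ind (Tri G T (2 * k + 1) (2 * k + 1) (2 * k + 1) a b w) =
      ind (Tri G T (2 * (k + 1) + 1) (2 * k + 1) (2 * k + 1) a b w ∧
        ¬ F G T (2 * k + 1) a b w) := by
    intro k
    by_cases h1 : Tri G T (2 * (k + 1) + 1) (2 * k + 1) (2 * k + 1) a b w
    · by_cases h2 : F G T (2 * k + 1) a b w
      · rw [ind_pos h1, ind_pos (q := Tri _ _ _ _ _ _ _ _) ⟨h1.1, h1.2.1, h2, h1.2.2.2⟩,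
          ind_neg (fun h => h.2 h2)]; ring
      · rw [ind_pos h1, ind_neg (q := Tri _ _ _ _ _ _ _ _) (fun h => h2 h.2.2.1),
          ind_pos (q := _ ∧ _) ⟨h1, h2⟩]; ring
    · rw [ind_neg h1, ind_neg (q := Tri _ _ _ _ _ _ _ _)
        (fun h => h1 ⟨h.1, h.2.1, F_odd_mono (Nat.le_succ k) h.2.2.1, h.2.2.2⟩),
        ind_neg (fun h => h1 h.1)]; ring
  simp only [e]
  by_cases h : Forced G T s a b w
  · obtain ⟨k, hk, h1⟩ := h
    rw [ind_pos (q := Forced G T s a b w) ⟨k, hk, h1⟩, Finset.sum_eq_single k, ind_pos h1]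
    · intro l _ hl
      refine ind_neg fun h2 => ?_
      rcases lt_or_gt_of_ne hl with hl | hl
      · exact h1.2 (F_odd_mono hl h2.1.2.2.1)
      · exact h2.2 (F_odd_mono hl h1.1.2.2.1)
    · intro hk'; exact absurd (Finset.mem_range.2 hk) hk'
  · rw [ind_neg h, eq_comm]
    exact Finset.sum_eq_zero fun k hk => ind_neg fun h2 => h ⟨k, Finset.mem_range.1 hk, h2⟩

lemma Crit.ne {s : ℕ} {a b w : V} (h : Crit G T s a b w) : a ≠ b ∧ a ≠ w ∧ b ≠ w :=
  ⟨h.1.ne, h.2.1.1.ne, h.2.1.2.1.ne⟩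

lemma Crit.sup {s : ℕ} {a b w : V} (h : Crit G T s a b w) : Sup G T s a b w :=
  ⟨h.2.1, h.2.2.2.1, h.2.2.2.2⟩

variable [DecidableEq V]

lemma triple_cases {v a b u a' b' : V} (h : ({v, a, b} : Finset V) = {u, a', b'})
    (h1 : a' ≠ b') (h2 : a' ≠ u) (h3 : b' ≠ u) :
    (u = v ∧ a' = a ∧ b' = b) ∨ (u = v ∧ a' = b ∧ b' = a) ∨ (u = a ∧ a' = v ∧ b' = b) ∨
      (u = a ∧ a' = b ∧ b' = v) ∨ (u = b ∧ a' = v ∧ b' = a) ∨ (u = b ∧ a' = a ∧ b' = v) := by
  have e1 : u ∈ ({v, a, b} : Finset V) := by rw [h]; simp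
  have e2 : a' ∈ ({v, a, b} : Finset V) := by rw [h]; simp
  have e3 : b' ∈ ({v, a, b} : Finset V) := by rw [h]; simp
  simp only [Finset.mem_insert, Finset.mem_singleton] at e1 e2 e3
  rcases e1 with rfl | rfl | rfl <;> rcases e2 with rfl | rfl | rfl <;>
    rcases e3 with rfl | rfl | rfl <;> simp_all

lemma tr12 (v a b : V) : ({v, a, b} : Finset V) = {a, v, b} := Finset.insert_comm _ _ _
lemma tr23 (v a b : V) : ({v, a, b} : Finset V) = {v, b, a} := by rw [Finset.pair_comm]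

/-- Forced apex of a triangle. -/
def FA (G : SimpleGraph V) (T : V → V → V → Prop) (s : ℕ) (u : V) (X : Finset V) : Prop :=
  ∃ a b, X = {u, a, b} ∧ Forced G T s a b u

lemma FA_iff (hT : SymT T) {s : ℕ} {v a b u : V} :
    FA G T s u {v, a, b} ↔ (u = v ∧ Forced G T s a b v) ∨ (u = a ∧ Forced G T s v b a) ∨
      (u = b ∧ Forced G T s v a b) := by
  constructor
  · rintro ⟨a', b', h, hf⟩
    obtain ⟨n1, n2, n3⟩ := hf.crit.ne
    rcases triple_cases h n1 n2 n3 with ⟨rfl, rfl, rfl⟩ | ⟨rfl, rfl, rfl⟩ | ⟨rfl, rfl, rfl⟩ |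
      ⟨rfl, rfl, rfl⟩ | ⟨rfl, rfl, rfl⟩ | ⟨rfl, rfl, rfl⟩
    · exact Or.inl ⟨rfl, hf⟩
    · exact Or.inl ⟨rfl, hf.s12 hT⟩
    · exact Or.inr (Or.inl ⟨rfl, hf⟩)
    · exact Or.inr (Or.inl ⟨rfl, hf.s12 hT⟩)
    · exact Or.inr (Or.inr ⟨rfl, hf⟩)
    · exact Or.inr (Or.inr ⟨rfl, hf.s12 hT⟩)
  · rintro (⟨rfl, hf⟩ | ⟨rfl, hf⟩ | ⟨rfl, hf⟩)
    · exact ⟨a, b, rfl, hf⟩
    · exact ⟨v, b, tr12 _ _ _, hf⟩
    · exact ⟨v, a, by rw [tr23, tr12], hf⟩

lemma FA_unique (hT : SymT T) {s : ℕ} {X : Finset V} {u u' : V} (h : FA G T s u X)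
    (h' : FA G T s u' X) : u' = u := by
  obtain ⟨a, b, rfl, hf⟩ := h
  rcases (FA_iff hT).1 h' with ⟨h1, _⟩ | ⟨_, h2⟩ | ⟨_, h2⟩
  · exact h1
  · exact absurd (h2.s12 hT) (hf.s12 hT).not23
  · exact absurd (h2.s12 hT) hf.not23

/-- Fractional apex assignment. -/
noncomputable def wgt (G : SimpleGraph V) (T : V → V → V → Prop) (s : ℕ) (v : V)
    (X : Finset V) : ℝ :=
  ind (FA G T s v X) + ind (¬ ∃ u, FA G T s u X) * (ind (v ∈ X) / 3)

lemma wgt_nonneg (s : ℕ) (v : V) (X : Finset V) : 0 ≤ wgt G T s v X :=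
  add_nonneg (ind_nonneg _) (mul_nonneg (ind_nonneg _) (div_nonneg (ind_nonneg _) (by norm_num)))

lemma wgt_eq (hT : SymT T) {s : ℕ} {v a b : V} (h : Crit G T s a b v) :
    wgt G T s v {v, a, b} = ind (Forced G T s a b v) + (1 - ind (Forced G T s a b v) -
      ind (Forced G T s v b a) - ind (Forced G T s v a b)) / 3 := by
  obtain ⟨n1, n2, n3⟩ := h.ne
  unfold wgt
  have e1 : FA G T s v {v, a, b} ↔ Forced G T s a b v := by
    rw [FA_iff hT]; simp [n2.symm, n3.symm]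
  have e2 : (∃ u, FA G T s u {v, a, b}) ↔
      Forced G T s a b v ∨ Forced G T s v b a ∨ Forced G T s v a b := by
    simp only [FA_iff hT]
    constructor
    · rintro ⟨u, ⟨_, h⟩ | ⟨_, h⟩ | ⟨_, h⟩⟩ <;> simp [h]
    · rintro (h | h | h)
      · exact ⟨v, Or.inl ⟨rfl, h⟩⟩
      · exact ⟨a, Or.inr (Or.inl ⟨rfl, h⟩)⟩
      · exact ⟨b, Or.inr (Or.inr ⟨rfl, h⟩)⟩
  rw [e1, e2, ind_pos (q := v ∈ _) (by simp)]
  by_cases h1 : Forced G T s a b v
  · rw [ind_pos h1, ind_neg (q := Forced G T s v b a) (fun h2 => (h1.s12 hT).not23 (h2.s12 hT)),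
      ind_neg (q := Forced G T s v a b) (fun h2 => h1.not23 (h2.s12 hT)),
      ind_neg (q := ¬ _) (fun h2 => h2 (Or.inl h1))]; ring
  · by_cases h2 : Forced G T s v b a
    · rw [ind_neg h1, ind_pos h2, ind_neg (q := Forced G T s v a b) h2.not23,
        ind_neg (q := ¬ _) (fun h3 => h3 (Or.inr (Or.inl h2)))]; ring
    · by_cases h3 : Forced G T s v a b
      · rw [ind_neg h1, ind_neg h2, ind_pos h3,
          ind_neg (q := ¬ _) (fun h4 => h4 (Or.inr (Or.inr h3)))]; ring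
      · rw [ind_neg h1, ind_neg h2, ind_neg h3, ind_pos (q := ¬ _) (by tauto)]; ring

lemma wgt_pos_imp (hT : SymT T) {s : ℕ} {u : V} {X : Finset V} (h : 0 < wgt G T s u X) :
    u ∈ X ∧ ∀ u', FA G T s u' X → u' = u := by
  unfold wgt at h
  by_cases h1 : FA G T s u X
  · refine ⟨?_, fun u' h' => FA_unique hT h1 h'⟩
    obtain ⟨a, b, rfl, _⟩ := h1
    simp
  · rw [ind_neg h1] at h
    constructor
    · by_contra hc
      rw [ind_neg hc] at h; simp at h
    · intro u' h'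
      rw [ind_neg (q := ¬ _) (fun h2 => h2 ⟨u', h'⟩)] at h; simp at h

variable [Fintype V]

lemma wgt_sum (hT : SymT T) (s : ℕ) (v a b : V) : ∑ u, wgt G T s u {v, a, b} ≤ 1 := by
  classical
  unfold wgt
  by_cases h : ∃ u, FA G T s u {v, a, b}
  · obtain ⟨u0, hu0⟩ := h
    simp only [ind_neg (q := ¬ ∃ u, FA G T s u {v, a, b}) (fun h2 => h2 ⟨u0, hu0⟩), zero_mul,
      add_zero]
    rw [Finset.sum_eq_single u0, ind_pos hu0]
    · exact fun u _ hu => ind_neg fun h2 => hu (FA_unique hT hu0 h2)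
    · simp
  · have : ∀ u, ind (FA G T s u {v, a, b}) = 0 := fun u => ind_neg fun h2 => h ⟨u, h2⟩
    simp only [this, ind_pos h, zero_add, one_mul]
    rw [← Finset.sum_div, sum_ind]
    have e : (univ.filter fun u => u ∈ ({v, a, b} : Finset V)) = {v, a, b} := by ext; simp
    have e2 : (({v, a, b} : Finset V).card : ℝ) ≤ 3 := by exact_mod_cast Finset.card_le_three
    rw [e]; linarith only [e2]

open Classical in
/-- The set of critical triangles. -/
noncomputable def critSet (G : SimpleGraph V) (T : V → V → V → Prop) (s : ℕ) :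
    Finset (Finset V) := univ.filter fun X => ∃ w a b, X = {w, a, b} ∧ Crit G T s a b w

lemma mem_critSet {s : ℕ} {X : Finset V} :
    X ∈ critSet G T s ↔ ∃ w a b, X = {w, a, b} ∧ Crit G T s a b w := by
  unfold critSet; simp

lemma two_to_one (hT : SymT T) (s : ℕ) (v : V) (g : Finset V → ℝ) :
    ∑ x : V × V, ind (Crit G T s x.1 x.2 v) * g {v, x.1, x.2} =
      2 * ∑ X ∈ critSet G T s, ind (v ∈ X) * g X := by
  classical
  have e1 : ∀ x : V × V, ind (Crit G T s x.1 x.2 v) * g {v, x.1, x.2} =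
      ∑ X ∈ critSet G T s, ind (Crit G T s x.1 x.2 v ∧ X = {v, x.1, x.2}) * g X := by
    intro x
    by_cases h : Crit G T s x.1 x.2 v
    · rw [Finset.sum_eq_single {v, x.1, x.2}, ind_pos h, ind_pos (q := _ ∧ _) ⟨h, rfl⟩]
      · intro X _ hX; rw [ind_neg (fun h2 => hX h2.2), zero_mul]
      · intro hX; exact absurd (mem_critSet.2 ⟨v, x.1, x.2, rfl, h⟩) hX
    · rw [ind_neg h, zero_mul, eq_comm]
      exact Finset.sum_eq_zero fun X _ => by rw [ind_neg (fun h2 => h h2.1), zero_mul]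
  simp only [e1]
  rw [Finset.sum_comm, Finset.mul_sum]
  refine Finset.sum_congr rfl fun X hX => ?_
  rw [← Finset.sum_mul, ← mul_assoc]
  congr 1
  by_cases hv : v ∈ X
  · obtain ⟨a, b, rfl, hc⟩ : ∃ a b, X = {v, a, b} ∧ Crit G T s a b v := by
      obtain ⟨w, a, b, rfl, hc⟩ := mem_critSet.1 hX
      simp only [Finset.mem_insert, Finset.mem_singleton] at hv
      rcases hv with rfl | rfl | rfl
      · exact ⟨a, b, rfl, hc⟩
      · exact ⟨w, b, tr12 _ _ _, ((Tri.s12 hT hc).s23 hT).s12 hT⟩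
      · exact ⟨w, a, by rw [tr23, tr12], (Tri.s23 hT hc).s12 hT⟩
    rw [ind_pos hv, sum_ind]
    have : (univ.filter fun x : V × V => Crit G T s x.1 x.2 v ∧
        ({v, a, b} : Finset V) = {v, x.1, x.2}) = {(a, b), (b, a)} := by
      ext ⟨a', b'⟩
      simp only [Finset.mem_filter, Finset.mem_univ, true_and, Finset.mem_insert,
        Finset.mem_singleton, Prod.mk.injEq]
      constructor
      · rintro ⟨h1, h2⟩
        obtain ⟨n1, n2, n3⟩ := h1.ne
        obtain ⟨m1, m2, m3⟩ := hc.ne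
        rcases triple_cases h2 n1 n2 n3 with h | h | h | h | h | h
        · exact Or.inl h.2
        · exact Or.inr h.2
        · exact absurd h.1.symm m2
        · exact absurd h.1.symm m2
        · exact absurd h.1.symm m3
        · exact absurd h.1.symm m3
      · rintro (⟨rfl, rfl⟩ | ⟨rfl, rfl⟩)
        · exact ⟨hc, rfl⟩
        · exact ⟨Tri.s12 hT hc, tr23 _ _ _⟩
    rw [this, Finset.card_pair (by simp [hc.ne.1])]
    norm_num
  · rw [ind_neg hv, mul_zero]
    exact Finset.sum_eq_zero fun x _ => ind_neg fun h => hv (by rw [h.2]; simp)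

/-- The statistic bounding the degree of `v` in the triangle-free subgraph from below. -/
noncomputable def lowStat (G : SimpleGraph V) (T : V → V → V → Prop) (s : ℕ) (v : V) : ℝ :=
  stE G T univ (2 * s + 2) v +
    (5 / 3 * stT G T (2 * s + 1) (2 * s + 1) (2 * s + 1) v +
      (-1) * stT G T (2 * s + 2) (2 * s + 2) (2 * s + 2) v) +
    ∑ k ∈ range s, (1 / 3 * stT G T (2 * (k + 1) + 1) (2 * k + 1) (2 * k + 1) v +
      (-1 / 6) * stT G T (2 * k + 1) (2 * (k + 1) + 1) (2 * k + 1) v +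
      (-1 / 6) * stT G T (2 * k + 1) (2 * k + 1) (2 * (k + 1) + 1) v)

theorem lower_det (hT : SymT T) (hall : ∀ a b w, T a b w) (s : ℕ) :
    ∃ R ≤ G, TF R ∧ ∀ v, lowStat G T s v - 1 ≤ dg R v := by
  classical
  rcases isEmpty_or_nonempty V with hV | hV
  · exact ⟨⊥, bot_le, fun a => isEmptyElim a, fun v => isEmptyElim v⟩
  obtain ⟨ap, hap, hcount⟩ := hall_round (critSet G T s) (wgt G T s) (wgt_nonneg s)
    (fun X hX => by
      obtain ⟨w, a, b, rfl, _⟩ := mem_critSet.1 hX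
      exact wgt_sum hT s w a b)
    (fun X hX => by
      obtain ⟨w, a, b, rfl, hc⟩ := mem_critSet.1 hX
      by_cases h : ∃ u, FA G T s u {w, a, b}
      · obtain ⟨u, hu⟩ := h
        refine ⟨u, ?_⟩
        unfold wgt
        rw [ind_pos hu, ind_neg (q := ¬ _) (fun h2 => h2 ⟨u, hu⟩)]; norm_num
      · refine ⟨w, ?_⟩
        unfold wgt
        rw [ind_pos h, ind_pos (q := w ∈ _) (by simp)]
        linarith only [ind_nonneg (FA G T s w {w, a, b})])
  set U := 2 * s + 2 with hU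
  have hFs : ∀ a b, F G T U a b a → F G T U b a b := fun a b h u _ hl =>
    h.symm hT u (fun h => hl.2.1.ne h.symm) hl
  let R : SimpleGraph V :=
    { Adj := fun a b => G.Adj a b ∧ (¬ ∃ w, Tri G T U U U a b w ∧ ¬ Crit G T s a b w) ∧
        (F G T U a b a ∨ ∃ w, Crit G T s a b w ∧ ap {w, a, b} ≠ w)
      symm := ⟨fun a b h => ⟨h.1.symm,
        fun ⟨w, h1, h2⟩ => h.2.1 ⟨w, h1.s12 hT, fun h3 => h2 (Tri.s12 hT h3)⟩,
        h.2.2.elim (fun h1 => Or.inl (hFs a b h1))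
          fun ⟨w, h1, h2⟩ => Or.inr ⟨w, Tri.s12 hT h1, by rwa [tr23]⟩⟩⟩
      loopless := ⟨fun a h => h.1.ne rfl⟩ }
  have hR : ∀ a b, R.Adj a b ↔ G.Adj a b ∧ (¬ ∃ w, Tri G T U U U a b w ∧ ¬ Crit G T s a b w) ∧
      (F G T U a b a ∨ ∃ w, Crit G T s a b w ∧ ap {w, a, b} ≠ w) := fun _ _ => Iff.rfl
  have hsup : ∀ a b w k, R.Adj a b → k ≤ s → Sup G T k a b w →
      Crit G T s a b w ∧ ap {w, a, b} ≠ w := by
    intro a b w k hab hk hs
    rcases hab.2.2 with h | ⟨w', h1, h2⟩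
    · exact absurd h (not_F_iff.2 ⟨w, hs.1.1.ne.symm, hs.mono hk⟩)
    · have : w = w' := sup_unique h1.2.2.1 hs
      subst this
      exact ⟨h1, h2⟩
  refine ⟨R, fun a b h => h.1, ?_, ?_⟩
  · have desc : ∀ k ≤ s + 1, ∀ a b c, R.Adj a b → R.Adj a c → R.Adj b c →
        F G T (2 * k) a b c := by
      intro k
      induction k with
      | zero => intro _ _ _ _ _ _ _; trivial
      | succ k ih =>
        intro hk a b c hab hac hbc
        by_contra hn
        obtain ⟨w, hw, hs⟩ := not_F_iff.1 hn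
        obtain ⟨h1, h2⟩ := hsup a b w k hab (by omega) hs
        have hnf : ¬ Forced G T s a b w := fun hf =>
          h2 ((wgt_pos_imp hT (hap _ (mem_critSet.2 ⟨w, a, b, rfl, h1⟩))).2 w
            ⟨a, b, rfl, hf⟩).symm
        exact free_of_not_forced h1 hnf (by omega) hs c hw.symm ⟨hac.1, hbc.1, hall _ _ _⟩
          ⟨ih (by omega) a c b hac hab hbc.symm, ih (by omega) b c a hbc hab.symm hac.symm⟩
    intro a b c hab hac hbc
    have htri : Tri G T U U U a b c := ⟨hab.1, ⟨hac.1, hbc.1, hall _ _ _⟩,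
      desc (s + 1) le_rfl a b c hab hac hbc, desc (s + 1) le_rfl a c b hac hab hbc.symm,
      desc (s + 1) le_rfl b c a hbc hab.symm hac.symm⟩
    have hc : Crit G T s a b c := by
      by_contra hn
      exact hab.2.1 ⟨c, htri, hn⟩
    have hm := (wgt_pos_imp hT (hap _ (mem_critSet.2 ⟨c, a, b, rfl, hc⟩))).1
    simp only [Finset.mem_insert, Finset.mem_singleton] at hm
    rcases hm with hm | hm | hm
    · exact (hsup a b c s hab le_rfl hc.sup).2 hm
    · refine (hsup b c a s hbc le_rfl (Crit.sup ((Tri.s12 hT hc).s23 hT))).2 ?_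
      rwa [tr23, tr12]
    · refine (hsup a c b s hac le_rfl (Crit.sup (Tri.s23 hT hc))).2 ?_
      rwa [tr23, tr12, tr23]
  · intro v
    set N := stT G T (2 * s + 1) (2 * s + 1) (2 * s + 1) v with hN
    have hNs : N = ∑ x : V × V, ind (Crit G T s x.1 x.2 v) := rfl
    -- apex count
    have a1 := two_to_one (G := G) hT s v (fun X => ind (ap X = v))
    have a2 := two_to_one (G := G) hT s v (wgt G T s v)
    have a3 : ∑ X ∈ critSet G T s, ind (v ∈ X) * ind (ap X = v) =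
        ∑ X ∈ critSet G T s, ind (ap X = v) := by
      refine Finset.sum_congr rfl fun X hX => ?_
      by_cases h : ap X = v
      · rw [ind_pos (q := v ∈ X) (h ▸ (wgt_pos_imp hT (hap X hX)).1), one_mul]
      · rw [ind_neg h, mul_zero]
    have a4 : ∑ X ∈ critSet G T s, ind (v ∈ X) * wgt G T s v X ≤
        ∑ X ∈ critSet G T s, wgt G T s v X :=
      Finset.sum_le_sum fun X _ => mul_le_of_le_one_left (wgt_nonneg _ _ _) (ind_le_one _)
    have a5 : ∑ x : V × V, ind (Crit G T s x.1 x.2 v) * wgt G T s v {v, x.1, x.2} =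
        ∑ x : V × V, (ind (Forced G T s x.1 x.2 v) + (ind (Crit G T s x.1 x.2 v) -
          ind (Forced G T s x.1 x.2 v) - ind (Forced G T s v x.2 x.1) -
          ind (Forced G T s v x.1 x.2)) / 3) := by
      refine Finset.sum_congr rfl fun x _ => ?_
      by_cases h : Crit G T s x.1 x.2 v
      · rw [ind_pos h, one_mul, wgt_eq hT h]
      · rw [ind_neg h, ind_neg (q := Forced G T s x.1 x.2 v) (fun h2 => h h2.crit),
          ind_neg (q := Forced G T s v x.2 x.1)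
            (fun h2 => h (((Tri.s12 hT h2.crit).s23 hT).s12 hT)),
          ind_neg (q := Forced G T s v x.1 x.2) (fun h2 => h ((Tri.s12 hT h2.crit).s23 hT))]
        ring
    have f0 : ∑ x : V × V, ind (Forced G T s x.1 x.2 v) = ∑ k ∈ range s,
        (stT G T (2 * (k + 1) + 1) (2 * k + 1) (2 * k + 1) v -
          stT G T (2 * k + 1) (2 * k + 1) (2 * k + 1) v) := by
      simp only [ind_forced]
      rw [Finset.sum_comm]
      exact Finset.sum_congr rfl fun k _ => Finset.sum_sub_distrib _ _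
    have f1 : ∑ x : V × V, ind (Forced G T s v x.2 x.1) = ∑ k ∈ range s,
        (stT G T (2 * k + 1) (2 * k + 1) (2 * (k + 1) + 1) v -
          stT G T (2 * k + 1) (2 * k + 1) (2 * k + 1) v) := by
      simp only [ind_forced]
      rw [Finset.sum_comm]
      refine Finset.sum_congr rfl fun k _ => ?_
      rw [Finset.sum_sub_distrib]
      congr 1 <;> refine Finset.sum_congr rfl fun x _ => ind_congr ⟨fun h => ?_, fun h => ?_⟩
      · exact ((h.s12 hT).s23 hT).s12 hT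
      · exact ((h.s12 hT).s23 hT).s12 hT
      · exact ((h.s12 hT).s23 hT).s12 hT
      · exact ((h.s12 hT).s23 hT).s12 hT
    have f2 : ∑ x : V × V, ind (Forced G T s v x.1 x.2) = ∑ k ∈ range s,
        (stT G T (2 * k + 1) (2 * (k + 1) + 1) (2 * k + 1) v -
          stT G T (2 * k + 1) (2 * k + 1) (2 * k + 1) v) := by
      simp only [ind_forced]
      rw [Finset.sum_comm]
      refine Finset.sum_congr rfl fun k _ => ?_
      rw [Finset.sum_sub_distrib]
      congr 1 <;> refine Finset.sum_congr rfl fun x _ => ind_congr ⟨fun h => ?_, fun h => ?_⟩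
      · exact (h.s12 hT).s23 hT
      · exact (h.s23 hT).s12 hT
      · exact (h.s12 hT).s23 hT
      · exact (h.s23 hT).s12 hT
    -- apex symmetry
    have b1 : ∑ x : V × V, ind (Crit G T s x.1 x.2 v) * ind (ap {v, x.1, x.2} = x.1) =
        ∑ x : V × V, ind (Crit G T s x.1 x.2 v) * ind (ap {v, x.1, x.2} = x.2) := by
      rw [← Equiv.sum_comp (Equiv.prodComm V V)]
      refine Finset.sum_congr rfl fun x _ => ?_
      simp only [Equiv.prodComm_apply, Prod.fst_swap, Prod.snd_swap]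
      rw [tr23 v x.2 x.1]
      congr 1
      exact ind_congr ⟨fun h => Tri.s12 hT h, fun h => Tri.s12 hT h⟩
    have b2 : ∑ x : V × V, (ind (Crit G T s x.1 x.2 v) * ind (ap {v, x.1, x.2} = v) +
        ind (Crit G T s x.1 x.2 v) * ind (ap {v, x.1, x.2} = x.1) +
        ind (Crit G T s x.1 x.2 v) * ind (ap {v, x.1, x.2} = x.2)) ≤
        ∑ x : V × V, ind (Crit G T s x.1 x.2 v) := by
      refine Finset.sum_le_sum fun x _ => ?_
      by_cases h : Crit G T s x.1 x.2 v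
      · obtain ⟨n1, n2, n3⟩ := h.ne
        rw [ind_pos h]
        by_cases e1 : ap {v, x.1, x.2} = v
        · rw [ind_pos e1, ind_neg (q := _ = x.1) (fun e => n2 (e.symm.trans e1)),
            ind_neg (q := _ = x.2) (fun e => n3 (e.symm.trans e1))]; norm_num
        · by_cases e2 : ap {v, x.1, x.2} = x.1
          · rw [ind_neg e1, ind_pos e2,
              ind_neg (q := _ = x.2) (fun e => n1 (e2.symm.trans e))]; norm_num
          · rw [ind_neg e1, ind_neg e2]; linarith only [ind_le_one (ap {v, x.1, x.2} = x.2)]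
      · rw [ind_neg h]; norm_num
    -- degree
    have c1 : ∑ a, (ind (G.Adj v a ∧ F G T U v a v) +
        ∑ b, (ind (Crit G T s a b v) - ind (Crit G T s a b v) * ind (ap {v, a, b} = b)) -
        ∑ b, (ind (Tri G T U U U a b v) - ind (Crit G T s a b v))) ≤ dg R v := by
      refine Finset.sum_le_sum fun a _ => ?_
      have n3 : ∀ b, 0 ≤ ind (Tri G T U U U a b v) - ind (Crit G T s a b v) := fun b =>
        sub_nonneg.2 (ind_mono fun h => ⟨h.1, h.2.1, F_odd_even s (s + 1) h.2.2.1,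
          F_odd_even s (s + 1) h.2.2.2.1, F_odd_even s (s + 1) h.2.2.2.2⟩)
      have m1 : ind (G.Adj v a ∧ F G T U v a v) +
          ∑ b, (ind (Crit G T s a b v) - ind (Crit G T s a b v) * ind (ap {v, a, b} = b)) ≤
          ind (G.Adj v a ∧ (F G T U v a v ∨ ∃ w, Crit G T s v a w ∧ ap {w, v, a} ≠ w)) := by
        by_cases h : ∃ b, Crit G T s a b v ∧ ap {v, a, b} ≠ b
        · obtain ⟨b, h1, h2⟩ := h
          have h3 : Crit G T s v a b := (Tri.s23 hT h1).s12 hT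
          rw [Finset.sum_eq_single b, ind_pos h1, ind_neg h2,
            ind_neg (q := _ ∧ F G T U v a v)
              (fun h4 => not_F_iff.2 ⟨b, h3.ne.2.1.symm, h3.sup⟩ h4.2),
            ind_pos (q := _ ∧ _) ⟨h3.1, Or.inr ⟨b, h3, by rwa [tr12, tr23]⟩⟩]
          · norm_num
          · intro b' _ hb'
            rw [ind_neg (q := Crit G T s a b' v) fun h4 =>
              hb' (sup_unique h3.2.2.1 (Crit.sup ((Tri.s23 hT h4).s12 hT)))]
            ring
          · simp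
        · rw [Finset.sum_eq_zero, add_zero]
          · exact ind_mono fun h4 => ⟨h4.1, Or.inl h4.2⟩
          · intro b _
            by_cases h1 : Crit G T s a b v
            · rw [ind_pos h1, ind_pos (q := _ = b) (by_contra fun h2 => h ⟨b, h1, h2⟩)]; ring
            · rw [ind_neg h1]; ring
      by_cases hl : ∃ w, Tri G T U U U v a w ∧ ¬ Crit G T s v a w
      · obtain ⟨w, h1, h2⟩ := hl
        have := Finset.single_le_sum
          (f := fun b => ind (Tri G T U U U a b v) - ind (Crit G T s a b v))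
          (fun b _ => n3 b) (Finset.mem_univ w)
        simp only [ind_pos (q := Tri G T U U U a w v) ((h1.s12 hT).s23 hT),
          ind_neg (q := Crit G T s a w v) (fun h => h2 ((Tri.s23 hT h).s12 hT))] at this
        linarith only [m1, this, ind_nonneg (R.Adj v a), ind_le_one
          (G.Adj v a ∧ (F G T U v a v ∨ ∃ w, Crit G T s v a w ∧ ap {w, v, a} ≠ w))]
      · have := ind_mono (q := G.Adj v a ∧ (F G T U v a v ∨ ∃ w, Crit G T s v a w ∧
          ap {w, v, a} ≠ w)) (r := R.Adj v a) (fun h => ⟨h.1, hl, h.2⟩)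
        have n4 : 0 ≤ ∑ b, (ind (Tri G T U U U a b v) - ind (Crit G T s a b v)) :=
          Finset.sum_nonneg fun b _ => n3 b
        linarith only [m1, this, n4]
    have c2 : ∑ a, ∑ b, ind (Tri G T U U U a b v) = stT G T U U U v := by
      unfold stT; rw [Fintype.sum_prod_type]
    have c3 : ∑ a, ∑ b, ind (Crit G T s a b v) = N := by rw [hNs, Fintype.sum_prod_type]
    have c4 : ∑ a, ∑ b, ind (Crit G T s a b v) * ind (ap {v, a, b} = b) =
        ∑ x : V × V, ind (Crit G T s x.1 x.2 v) * ind (ap {v, x.1, x.2} = x.2) := by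
      rw [Fintype.sum_prod_type]
    have hc := hcount v
    simp only [Finset.sum_add_distrib, Finset.sum_sub_distrib, ← Finset.sum_div] at c1 b2 a5 f0 f1 f2
    rw [c2, c3, c4] at c1
    unfold lowStat stE
    simp only [Finset.sum_add_distrib, ← Finset.mul_sum]
    rw [← hNs] at a5 b2
    rw [← hN]
    linarith only [a1, a2, a3, a4, b1, hc, c1, b2, a5, f0, f1, f2]

end Pool.Agent.Work.MP_d4a230_co
end

-- merged part: Pool.Agent.Work.MP_d4a230_co.Main
section
namespace Pool.Agent.Work.MP_d4a230_co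

open Finset Filter Topology

section Analysis

lemma two_cycle {ν a b : ℝ} (h0 : 0 < ν) (h1 : ν ≤ Real.exp 1) (ha : a = ν * Real.exp (-b))
    (hb : b = ν * Real.exp (-a)) : a = b := by
  let g : ℝ → ℝ := fun t => t - ν * Real.exp (-(ν * Real.exp (-t)))
  have hd : ∀ t, HasDerivAt g
      (1 - ν * (Real.exp (-(ν * Real.exp (-t))) * (ν * Real.exp (-t)))) t := by
    intro t
    have := (hasDerivAt_id t).sub
      ((((hasDerivAt_neg t).exp.const_mul ν).neg.exp).const_mul ν)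
    exact this.congr_deriv (by simp)
  have hpos : ∀ t, t ≠ Real.log ν → 0 < deriv g t := by
    intro t ht
    rw [(hd t).deriv]
    set y := ν * Real.exp (-t) with hy
    have hy0 : 0 < y := by positivity
    have hy1 : y - 1 ≠ 0 := by
      intro h
      apply ht
      have : ν = Real.exp t := by
        have e : ν * Real.exp (-t) * Real.exp t = Real.exp t := by rw [← hy]; linear_combination (Real.exp t) * h
        rwa [mul_assoc, ← Real.exp_add, neg_add_cancel, Real.exp_zero, mul_one] at e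
      rw [this, Real.log_exp]
    have e1 := Real.add_one_lt_exp hy1
    have e2 : Real.exp 1 * Real.exp (-y) * Real.exp (y - 1) = 1 := by
      rw [← Real.exp_add, ← Real.exp_add, Real.exp_eq_one_iff]; ring
    have e3 : ν * (Real.exp (-y) * y) ≤ Real.exp 1 * (Real.exp (-y) * y) :=
      mul_le_mul_of_nonneg_right h1 (by positivity)
    have e4 : Real.exp 1 * Real.exp (-y) * y < Real.exp 1 * Real.exp (-y) * Real.exp (y - 1) :=
      mul_lt_mul_of_pos_left (by linarith) (by positivity)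
    linarith
  have hc : Continuous g := continuous_iff_continuousAt.2 fun t => (hd t).continuousAt
  have hm : StrictMono g := StrictMonoOn.Iic_union_Ici (a := Real.log ν)
    (strictMonoOn_of_deriv_pos (convex_Iic _) hc.continuousOn fun t ht =>
      hpos t (by rw [interior_Iic] at ht; exact ne_of_lt ht))
    (strictMonoOn_of_deriv_pos (convex_Ici _) hc.continuousOn fun t ht =>
      hpos t (by rw [interior_Ici] at ht; exact ne_of_gt ht))
  refine hm.injective ?_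
  show a - ν * Real.exp (-(ν * Real.exp (-a))) = b - ν * Real.exp (-(ν * Real.exp (-b)))
  have e1 : ν * Real.exp (-(ν * Real.exp (-a))) = a := by rw [← hb, ← ha]
  have e2 : ν * Real.exp (-(ν * Real.exp (-b))) = b := by rw [← ha, ← hb]
  rw [e1, e2, sub_self, sub_self]

lemma fix_unique {μ x y : ℝ} (hμ : 0 ≤ μ) (hx : x = Real.exp (-(μ * x ^ 2)))
    (hy : y = Real.exp (-(μ * y ^ 2))) : y = x := by
  have key : ∀ {x y : ℝ}, x = Real.exp (-(μ * x ^ 2)) → y = Real.exp (-(μ * y ^ 2)) → y ≤ x →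
      x ≤ y := by
    intro x y hx hy h
    have hy0 : 0 ≤ y := hy ▸ (Real.exp_pos _).le
    rw [hx, hy]
    exact Real.exp_le_exp.2 (neg_le_neg (mul_le_mul_of_nonneg_left
      (pow_le_pow_left₀ hy0 h 2) hμ))
  rcases le_total x y with h | h
  · exact le_antisymm (key hy hx h) h
  · exact le_antisymm h (key hx hy h)

lemma xs_lim {μ : ℝ} (h0 : 0 < μ) (h1 : μ ≤ Real.exp 1 / 2) :
    ∃ x, x = Real.exp (-(μ * x ^ 2)) ∧ Tendsto (fun s => xs μ (2 * s + 1)) atTop (𝓝 x) ∧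
      Tendsto (fun s => xs μ (2 * s + 2)) atTop (𝓝 x) := by
  have step : ∀ s t, xs μ s ≤ xs μ t → xs μ (t + 1) ≤ xs μ (s + 1) := fun s t h =>
    Real.exp_le_exp.2 (neg_le_neg (mul_le_mul_of_nonneg_left
      (pow_le_pow_left₀ (xs_pos μ s).le h 2) h0.le))
  have anti : Antitone fun s => xs μ (2 * s) := by
    refine antitone_nat_of_succ_le fun s => ?_
    induction s with
    | zero => exact xs_le_one h0.le _
    | succ s ih => exact step _ _ (step _ _ ih)
  have l0 := tendsto_atTop_ciInf anti ⟨0, by rintro _ ⟨s, rfl⟩; exact (xs_pos _ _).le⟩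
  set u := ⨅ s, xs μ (2 * s)
  have cont : Continuous fun x : ℝ => Real.exp (-(μ * x ^ 2)) := by fun_prop
  have l1 : Tendsto (fun s => xs μ (2 * s + 1)) atTop (𝓝 (Real.exp (-(μ * u ^ 2)))) :=
    (cont.tendsto u).comp l0
  set v := Real.exp (-(μ * u ^ 2)) with hv
  have l2 : Tendsto (fun s => xs μ (2 * s + 2)) atTop (𝓝 (Real.exp (-(μ * v ^ 2)))) :=
    (cont.tendsto v).comp l1
  have l3 : Tendsto (fun s => xs μ (2 * s + 2)) atTop (𝓝 u) := l0.comp (tendsto_add_atTop_nat 1)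
  have hu : u = Real.exp (-(μ * v ^ 2)) := tendsto_nhds_unique l3 l2
  have sq : ∀ w : ℝ, Real.exp (-(μ * w ^ 2)) ^ 2 = Real.exp (-(2 * μ * w ^ 2)) := fun w => by
    rw [← Real.exp_nat_mul]; congr 1; push_cast; ring
  have e := two_cycle (ν := 2 * μ) (a := 2 * μ * u ^ 2) (b := 2 * μ * v ^ 2) (by positivity)
    (by linarith) (by rw [← sq, ← hu]) (by rw [← sq])
  have huv : u = v := by
    have e2 : u ^ 2 = v ^ 2 := mul_left_cancel₀ (by positivity) e
    exact (pow_left_inj₀ (hu ▸ (Real.exp_pos _).le) (Real.exp_pos _).le two_ne_zero).1 e2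
  exact ⟨v, by rw [← hu, huv], l1, huv ▸ l3⟩

end Analysis

section Bridge

lemma Pr_gr_eq {n : ℕ} (p : ℝ) (G : SimpleGraph (Fin n)) :
    Pr p (fun ω => gr ω = G) =
      p ^ G.edgeSet.ncard * (1 - p) ^ (n.choose 2 - G.edgeSet.ncard) := by
  classical
  let M := (⊤ : SimpleGraph (Fin n)).edgeFinset \ G.edgeFinset
  have e1 : ∀ ω, ind (gr ω = G) = ind (G.edgeFinset ⊆ ω) * (0 : ℝ) ^ (ω ∩ M).card := by
    intro ω
    have : (0 : ℝ) ^ (ω ∩ M).card = ind (ω ∩ M = ∅) := by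
      by_cases h : ω ∩ M = ∅
      · rw [ind_pos h, h]; simp
      · rw [ind_neg h, zero_pow (by simpa using h)]
    rw [this, ← ind_and]
    refine ind_congr ⟨?_, ?_⟩
    · rintro rfl
      constructor
      · intro e
        induction e using Sym2.ind with
        | _ a b => intro he; exact (gr_adj.1 (by simpa using he)).1
      · rw [Finset.eq_empty_iff_forall_notMem]
        intro e
        induction e using Sym2.ind with
        | _ a b => simp +contextual [M, gr_adj]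
    · rintro ⟨h1, h2⟩
      ext a b
      rw [gr_adj]
      constructor
      · rintro ⟨h3, h4⟩
        by_contra hc
        exact Finset.notMem_empty s(a, b) (h2 ▸ Finset.mem_inter.2 ⟨h3, by simp [M, h4, hc]⟩)
      · exact fun h => ⟨h1 (by simpa using h), h.ne⟩
  unfold Pr
  rw [E_congr e1, plant]
  have e2 : ∀ ω : Finset (Sym2 (Fin n)), (0 : ℝ) ^ ((ω ∪ G.edgeFinset) ∩ M).card =
      (0 : ℝ) ^ (ω ∩ M).card := by
    intro ω
    rw [Finset.union_inter_distrib_right, Finset.inter_sdiff_self, Finset.union_empty]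
  have e3 : G.edgeSet.ncard = G.edgeFinset.card := Set.ncard_eq_toFinset_card' _
  rw [E_congr e2, mgf, Finset.card_sdiff_of_subset (SimpleGraph.edgeFinset_mono le_top),
    SimpleGraph.card_edgeFinset_top_eq_card_choose_two, Fintype.card_fin, e3]
  congr 2; ring

lemma bridge {n : ℕ} (p : unitInterval) (A : SimpleGraph (Fin n) → Prop) :
    (SimpleGraph.binomialRandom (Fin n) p).real {G | A G} = Pr (p : ℝ) (fun ω => A (gr ω)) := by
  classical
  have : MeasurableSingletonClass (SimpleGraph (Fin n)) := ⟨fun G => by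
    rw [← SimpleGraph.measurableEmbedding_edgeSet.measurableSet_image, Set.image_singleton]
    exact measurableSet_singleton _⟩
  have e1 : {G | A G} = ((univ.filter A : Finset (SimpleGraph (Fin n))) : Set _) := by
    ext G; simp
  have e2 : ∀ ω, ind (A (gr ω)) = ∑ G ∈ univ.filter A, ind (gr ω = G) := by
    intro ω
    by_cases h : A (gr ω)
    · rw [ind_pos h, Finset.sum_eq_single_of_mem (gr ω) (by simpa using h), ind_pos rfl]
      exact fun G _ hG => ind_neg hG.symm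
    · rw [ind_neg h, eq_comm]
      exact Finset.sum_eq_zero fun G hG => ind_neg fun e => h (e ▸ (Finset.mem_filter.1 hG).2)
  rw [e1, ← MeasureTheory.sum_measureReal_singleton]
  unfold Pr
  rw [E_congr e2, E_sum]
  refine Finset.sum_congr rfl fun G _ => ?_
  have := Pr_gr_eq (p : ℝ) G
  unfold Pr at this
  rw [this, MeasureTheory.measureReal_def, SimpleGraph.binomialRandom_singleton]
  simp

lemma free_iff {V : Type} (G : SimpleGraph V) : (⊤ : SimpleGraph (Fin 3)).Free G ↔ TF G := by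
  classical
  rw [← SimpleGraph.cliqueFree_iff_top_free, Fintype.card_fin]
  constructor
  · exact fun h a b c h1 h2 h3 => h _ (SimpleGraph.is3Clique_triple_iff.2 ⟨h1, h2, h3⟩)
  · intro h s hs
    obtain ⟨a, b, c, h1, h2, h3, _⟩ := SimpleGraph.is3Clique_iff.1 hs
    exact h a b c h1 h2 h3

lemma ncard_eq_dg {V : Type} [Fintype V] (G : SimpleGraph V) (v : V) :
    ((G.neighborSet v).ncard : ℝ) = dg G v := by
  classical
  unfold dg
  rw [sum_ind, ← Set.ncard_coe_finset]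
  congr 2
  ext a; simp

lemma chrom_eq (p : ℕ → unitInterval) : chromThreshold (⊤ : SimpleGraph (Fin 3)) p =
    sInf {d : ℝ | 0 < d ∧ ∃ C : ℕ, Tendsto
      (fun n => Pr (p n : ℝ) (fun ω => Ev n (p n) d C (gr ω))) atTop (𝓝 1)} := by
  unfold chromThreshold Ev
  simp only [bridge, free_iff, ncard_eq_dg]

end Bridge

variable {p : ℕ → unitInterval} {lam : ℝ}

lemma chrom_le (h : Base (fun n => p n) lam) {Y} {μ : ℝ} (hμ : 0 ≤ μ)
    (hY : Conc (fun n => p n) Y μ)
    (hdet : ∀ n ω, ∀ G' ≤ gr ω, TF G' → ∑ v, dg G' v ≤ ∑ v, Y n v ω) :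
    chromThreshold (⊤ : SimpleGraph (Fin 3)) p ≤ μ := by
  rw [chrom_eq]
  exact le_of_forall_gt_imp_ge_of_dense fun d hd => csInf_le ⟨0, fun _ h => h.1.le⟩
    ⟨hμ.trans_lt hd, 0, upper_prob h hY hdet hd⟩

lemma Base.reg {p : ℕ → ℝ} (h : Base p lam) : Reg p (fun _ _ _ _ => True) id lam :=
  ⟨h.p0, h.p1, h.lim0, h.lim, fun n _ _ => by simp [ind_pos],
    fun _ => ⟨fun _ _ _ _ => trivial, fun _ _ _ _ => trivial⟩⟩

lemma univ_card_lim (ε : ℝ) (hε : 0 < ε) : ∀ᶠ n : ℕ in atTop, ∀ _v : Fin n,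
    |((univ : Finset (Fin n)).card : ℝ) - 1 * n| ≤ ε * n :=
  Filter.Eventually.of_forall fun n _ => by simp; positivity

lemma chrom_le_xs (h : Base (fun n => p n) lam) {T m μ} (hr : Reg (fun n => p n) T m μ) (s : ℕ) :
    chromThreshold (⊤ : SimpleGraph (Fin 3)) p ≤
      xs μ (2 * s + 2) + 2 / 3 * μ * xs μ (2 * s + 1) ^ 3 := by
  have c1 := (conc_E hr h.inf (fun _ _ => univ) univ_card_lim (2 * s + 2)).add h.p0 h.p1
    ((conc_T hr h.lim h.inf (2 * s + 1) (2 * s + 1) (2 * s + 1)).smul h.p0 (2 / 3))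
  have := hr.mu_nonneg
  have := xs_pos μ (2 * s + 1)
  have := xs_pos μ (2 * s + 2)
  exact (chrom_le h (by positivity) c1
    fun n ω G' h1 h2 => upper_det (hr.sym n) h1 h2 s).trans (le_of_eq (by ring))

lemma chrom_le_fix (h : Base (fun n => p n) lam) {T m μ} (hr : Reg (fun n => p n) T m μ)
    (h0 : 0 < μ) (h1 : μ ≤ Real.exp 1 / 2) {x : ℝ} (hx : x = Real.exp (-(μ * x ^ 2))) :
    chromThreshold (⊤ : SimpleGraph (Fin 3)) p ≤ x + 2 / 3 * μ * x ^ 3 := by
  obtain ⟨y, hy, l1, l2⟩ := xs_lim h0 h1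
  rw [fix_unique h0.le hx hy] at l1 l2
  exact ge_of_tendsto' (l2.add ((l1.pow 3).const_mul (2 / 3 * μ))) (chrom_le_xs h hr)

lemma le_chrom (h : Base (fun n => p n) lam) {X} {μ : ℝ} (hX : Conc (fun n => p n) X μ)
    (hdet : ∀ n ω, ∃ R ≤ gr ω, TF R ∧ ∀ v, X n v ω - 1 ≤ dg R v) :
    min μ 1 ≤ chromThreshold (⊤ : SimpleGraph (Fin 3)) p := by
  rw [chrom_eq]
  refine le_csInf ⟨2, two_pos, 0, upper_prob h (μ := 1 * xs lam 0)
    (conc_E h.reg h.inf (fun _ _ => univ) univ_card_lim 0) (fun n ω G' h1 _ => ?_)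
    (by simp [xs])⟩ ?_
  · exact Finset.sum_le_sum fun v _ => Finset.sum_le_sum fun a _ =>
      ind_mono fun h => ⟨h1 h, trivial⟩
  · rintro d ⟨_, C, hC⟩
    by_contra hc
    obtain ⟨h1, h2⟩ := lt_min_iff.1 (not_le.1 hc)
    obtain ⟨n, e1, e2⟩ := ((lower_prob h hX hdet h1 h2 C).and
      (hC.eventually (lt_mem_nhds (show (7 : ℝ) / 10 < 1 by norm_num)))).exists
    exact absurd e1 (not_le.2 e2)

theorem exact_value (h : Base (fun n => p n) lam) (h1 : lam ≤ Real.exp 1 / 2) {x : ℝ}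
    (hx : x = Real.exp (-(lam * x ^ 2))) :
    chromThreshold (⊤ : SimpleGraph (Fin 3)) p = x + 2 / 3 * lam * x ^ 3 := by
  refine le_antisymm (chrom_le_fix h h.reg h.pos h1 hx) ?_
  obtain ⟨y, hy, l1, l2⟩ := xs_lim h.pos h1
  rw [fix_unique h.pos.le hx hy] at l1 l2
  have key : ∀ s, min (xs lam (2 * s + 2) + (5 / 3 * lam * xs lam (2 * s + 1) ^ 3 -
      lam * xs lam (2 * s + 2) ^ 3)) 1 ≤ chromThreshold (⊤ : SimpleGraph (Fin 3)) p := by
    intro s
    have cT := conc_T h.reg h.lim h.inf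
    have c1 := ((conc_E h.reg h.inf (fun _ _ => univ) univ_card_lim (2 * s + 2)).add h.p0 h.p1
      (((cT (2 * s + 1) (2 * s + 1) (2 * s + 1)).smul h.p0 (5 / 3)).add h.p0 h.p1
        ((cT (2 * s + 2) (2 * s + 2) (2 * s + 2)).smul h.p0 (-1)))).add h.p0 h.p1
      (Conc.sum h.p0 h.p1 s fun k =>
        (((cT (2 * (k + 1) + 1) (2 * k + 1) (2 * k + 1)).smul h.p0 (1 / 3)).add h.p0 h.p1
          ((cT (2 * k + 1) (2 * (k + 1) + 1) (2 * k + 1)).smul h.p0 (-1 / 6))).add h.p0 h.p1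
          ((cT (2 * k + 1) (2 * k + 1) (2 * (k + 1) + 1)).smul h.p0 (-1 / 6)))
    refine le_trans (le_of_eq ?_) (le_chrom h c1 fun n ω =>
      lower_det (G := gr ω) (h.reg.sym n) (fun _ _ _ => trivial) s)
    rw [Finset.sum_eq_zero fun k _ => by ring]
    congr 1; ring
  have l3 := (l2.add (((l1.pow 3).const_mul (5 / 3 * lam)).sub
    ((l2.pow 3).const_mul lam))).min (tendsto_const_nhds (x := (1 : ℝ)))
  refine le_trans (le_min (le_of_eq (by ring)) ?_) (le_of_tendsto' l3 key)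
  have hx0 : 0 < x := hx ▸ Real.exp_pos _
  have e1 := Real.add_one_le_exp (lam * x ^ 2)
  have e2 : x * Real.exp (lam * x ^ 2) = 1 := by
    rw [mul_comm]; nth_rewrite 2 [hx]; rw [← Real.exp_add]; simp
  have e3 := mul_le_mul_of_nonneg_left e1 hx0.le
  have e4 : 0 ≤ lam * x ^ 3 := by have := h.pos; positivity
  linarith only [e2, e3, e4]

theorem upper_large (h : Base (fun n => p n) lam) (h1 : Real.exp 1 / 2 ≤ lam) :
    chromThreshold (⊤ : SimpleGraph (Fin 3)) p ≤ 4 / 3 * Real.exp (-(1 / 2)) := by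
  have hl := h.pos
  set θ := Real.exp 1 / 2 / lam with hθ
  have hθ0 : 0 ≤ θ := by positivity
  have hθ1 : θ ≤ 1 := (div_le_one hl).2 h1
  have hr : Reg (fun n => p n) (fun n a b w => (a + b + w).val < ⌊θ * n⌋₊) (fun n => ⌊θ * n⌋₊)
      (Real.exp 1 / 2) := by
    refine ⟨h.p0, h.p1, h.lim0, ?_, ?_, ?_⟩
    · have l1 := ((tendsto_nat_floor_mul_div_atTop hθ0).comp
        (tendsto_natCast_atTop_atTop (R := ℝ))).mul h.lim
      rw [show θ * lam = Real.exp 1 / 2 by rw [hθ]; field_simp] at l1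
      refine l1.congr' ?_
      filter_upwards [eventually_gt_atTop 0] with n hn
      have : (n : ℝ) ≠ 0 := by positivity
      simp only [Function.comp]
      field_simp
    · intro n a b
      cases n with
      | zero => exact a.elim0
      | succ n =>
        refine (Equiv.sum_comp (Equiv.addLeft (a + b))
          (fun w : Fin (n + 1) => ind (w.val < ⌊θ * (n + 1 : ℕ)⌋₊))).trans ?_
        rw [sum_ind, Fin.card_filter_val_lt, min_eq_right]
        exact Nat.floor_le_of_le (mul_le_of_le_one_left (Nat.cast_nonneg _) hθ1)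
    · intro n
      cases n with
      | zero => exact ⟨fun a => a.elim0, fun a => a.elim0⟩
      | succ n =>
        exact ⟨fun a b w h => by rwa [add_comm b a], fun a b w h => by rwa [add_right_comm]⟩
  have hx : Real.exp (-(1 / 2)) = Real.exp (-(Real.exp 1 / 2 * Real.exp (-(1 / 2)) ^ 2)) := by
    rw [← Real.exp_nat_mul, div_mul_eq_mul_div, ← Real.exp_add]; norm_num
  refine (chrom_le_fix h hr (by positivity) le_rfl hx).trans (le_of_eq ?_)
  have : Real.exp 1 * Real.exp (-(1 / 2)) ^ 2 = 1 := by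
    rw [← Real.exp_nat_mul, ← Real.exp_add]; norm_num
  linear_combination (Real.exp (-(1 / 2)) / 3) * this

theorem lower_bip (h : Base (fun n => p n) lam) :
    (1 + Real.exp (-lam)) / 2 ≤ chromThreshold (⊤ : SimpleGraph (Fin 3)) p := by
  classical
  have half : ∀ (W : ∀ n, Fin n → Finset (Fin n)),
      (∀ n v, n ≤ 2 * (W n v).card + 1 ∧ 2 * (W n v).card ≤ n + 1) → ∀ ε : ℝ, 0 < ε →
      ∀ᶠ n : ℕ in atTop, ∀ v, |((W n v).card : ℝ) - 1 / 2 * n| ≤ ε * n := by
    intro W hW ε hε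
    filter_upwards [(tendsto_natCast_atTop_atTop (R := ℝ)).eventually
      (eventually_ge_atTop (1 / ε))] with n hn v
    have e1 : (n : ℝ) ≤ 2 * (W n v).card + 1 := by exact_mod_cast (hW n v).1
    have e2 : 2 * ((W n v).card : ℝ) ≤ n + 1 := by exact_mod_cast (hW n v).2
    rw [div_le_iff₀ hε] at hn
    rw [abs_le]; constructor <;> linarith only [hn, e1, e2]
  let L : ∀ n, Finset (Fin n) := fun n => univ.filter fun a => a.val < n / 2
  have hL : ∀ n, (L n).card = n / 2 := fun n => by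
    simp only [L, Fin.card_filter_val_lt]; omega
  have hLc : ∀ n, (L n)ᶜ.card = n - n / 2 := fun n => by
    rw [Finset.card_compl, Fintype.card_fin, hL]
  let W : ∀ n, Fin n → Finset (Fin n) := fun n v => if v ∈ L n then L n else (L n)ᶜ
  have c1 := (conc_E h.reg h.inf (fun n v => (W n v)ᶜ) (half _ fun n v => by
    simp only [W]; split_ifs
    · rw [hLc]; omega
    · rw [compl_compl, hL]; omega) 0).add h.p0 h.p1
    (conc_E h.reg h.inf W (half _ fun n v => by
      simp only [W]; split_ifs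
      · rw [hL]; omega
      · rw [hLc]; omega) 1)
  refine le_trans (le_min (le_of_eq (by simp [xs]; ring)) ?_) (le_chrom h c1 fun n ω => ?_)
  · have := Real.exp_le_one_iff.2 (neg_nonpos.2 h.pos.le)
    linarith only [this]
  · set G := gr ω
    let R : SimpleGraph (Fin n) :=
      { Adj := fun a b => G.Adj a b ∧ ((a ∈ L n ↔ b ∈ L n) → ∀ w, G.Adj a w → ¬ G.Adj b w)
        symm := ⟨fun a b h => ⟨h.1.symm, fun h' w h1 h2 => h.2 h'.symm w h2 h1⟩⟩
        loopless := ⟨fun a h => h.1.ne rfl⟩ }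
    refine ⟨R, fun a b h => h.1, fun a b c h1 h2 h3 => ?_, fun v => ?_⟩
    · by_cases e1 : a ∈ L n ↔ b ∈ L n
      · exact h1.2 e1 c h2.1 h3.1
      · by_cases e2 : a ∈ L n ↔ c ∈ L n
        · exact h2.2 e2 b h1.1 h3.1.symm
        · exact h3.2 (by tauto) a h1.1.symm h2.1.symm
    · unfold dg stE
      rw [← Finset.sum_compl_add_sum (W n v)]
      refine (sub_le_self _ zero_le_one).trans (add_le_add
        (Finset.sum_le_sum fun a ha => ind_mono fun h => ⟨h.1, fun h' => ?_⟩)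
        (Finset.sum_le_sum fun a _ => ind_mono fun h => ⟨h.1, fun _ w h1 h2 => ?_⟩))
      · exfalso
        by_cases hv : v ∈ L n <;> simp [W, hv] at ha h' <;> exact absurd ha (by simp [h'])
      · exact h.2 w h1.ne.symm ⟨h1, h2, trivial⟩ ⟨trivial, trivial⟩

end Pool.Agent.Work.MP_d4a230_co
end

-- merged part: Pool.Agent.Work.MP_d4a230_co.HMain
section
namespace Pool.Agent.Work.MP_d4a230_co

open Finset Filter Topology

section Analysis

lemma hfix_unique {μ x y : ℝ} {j : ℕ} (hμ : 0 ≤ μ) (hx : x = Real.exp (-(μ * x ^ j)))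
    (hy : y = Real.exp (-(μ * y ^ j))) : y = x := by
  have key : ∀ {x y : ℝ}, x = Real.exp (-(μ * x ^ j)) → y = Real.exp (-(μ * y ^ j)) → y ≤ x →
      x ≤ y := by
    intro x y hx hy h
    have hy0 : 0 ≤ y := hy ▸ (Real.exp_pos _).le
    rw [hx, hy]
    exact Real.exp_le_exp.2 (neg_le_neg (mul_le_mul_of_nonneg_left
      (pow_le_pow_left₀ hy0 h j) hμ))
  rcases le_total x y with h | h
  · exact le_antisymm (key hy hx h) h
  · exact le_antisymm h (key hx hy h)

lemma hxs_lim {μ : ℝ} {k : ℕ} (hk : 2 ≤ k) (h0 : 0 < μ) (h1 : ((k : ℝ) - 1) * μ ≤ Real.exp 1) :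
    ∃ x, x = Real.exp (-(μ * x ^ (k - 1))) ∧ Tendsto (fun s => hxs μ k (2 * s + 1)) atTop (𝓝 x) ∧
      Tendsto (fun s => hxs μ k (2 * s + 2)) atTop (𝓝 x) := by
  have step : ∀ s t, hxs μ k s ≤ hxs μ k t → hxs μ k (t + 1) ≤ hxs μ k (s + 1) := fun s t h =>
    Real.exp_le_exp.2 (neg_le_neg (mul_le_mul_of_nonneg_left
      (pow_le_pow_left₀ (hxs_pos μ k s).le h _) h0.le))
  have anti : Antitone fun s => hxs μ k (2 * s) := by
    refine antitone_nat_of_succ_le fun s => ?_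
    induction s with
    | zero => exact hxs_le_one h0.le _ _
    | succ s ih => exact step _ _ (step _ _ ih)
  have l0 := tendsto_atTop_ciInf anti ⟨0, by rintro _ ⟨s, rfl⟩; exact (hxs_pos _ _ _).le⟩
  set u := ⨅ s, hxs μ k (2 * s)
  have cont : Continuous fun x : ℝ => Real.exp (-(μ * x ^ (k - 1))) := by fun_prop
  have l1 : Tendsto (fun s => hxs μ k (2 * s + 1)) atTop (𝓝 (Real.exp (-(μ * u ^ (k - 1))))) :=
    (cont.tendsto u).comp l0
  set v := Real.exp (-(μ * u ^ (k - 1))) with hv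
  have l2 : Tendsto (fun s => hxs μ k (2 * s + 2)) atTop (𝓝 (Real.exp (-(μ * v ^ (k - 1))))) :=
    (cont.tendsto v).comp l1
  have l3 : Tendsto (fun s => hxs μ k (2 * s + 2)) atTop (𝓝 u) := l0.comp (tendsto_add_atTop_nat 1)
  have hu : u = Real.exp (-(μ * v ^ (k - 1))) := tendsto_nhds_unique l3 l2
  have hk' : (0 : ℝ) < (k : ℝ) - 1 := by
    have : (2 : ℝ) ≤ k := by exact_mod_cast hk
    linarith
  have sq : ∀ w : ℝ, Real.exp (-(μ * w ^ (k - 1))) ^ (k - 1) =
      Real.exp (-((k - 1) * μ * w ^ (k - 1))) := fun w => by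
    rw [← Real.exp_nat_mul, Nat.cast_sub (by omega)]; congr 1; push_cast; ring
  have e := two_cycle (ν := (k - 1) * μ) (a := (k - 1) * μ * u ^ (k - 1))
    (b := (k - 1) * μ * v ^ (k - 1)) (by positivity) h1 (by rw [← sq, ← hu]) (by rw [← sq])
  have huv : u = v := by
    have e2 : u ^ (k - 1) = v ^ (k - 1) := mul_left_cancel₀ (by positivity) e
    exact (pow_left_inj₀ (hu ▸ (Real.exp_pos _).le) (Real.exp_pos _).le (by omega)).1 e2
  exact ⟨v, by rw [← hu, huv], l1, huv ▸ l3⟩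

end Analysis

section Thinning

variable {ι : Type} [Fintype ι] [DecidableEq ι]

lemma E_plant_pow (p z : ℝ) {A M : Finset ι} (h : Disjoint A M) :
    E p (fun ω => ind (A ⊆ ω) * z ^ (ω ∩ M).card) = p ^ A.card * (1 + p * (z - 1)) ^ M.card := by
  rw [plant, ← mgf]
  congr 1
  exact E_congr fun ω => by
    rw [Finset.union_inter_distrib_right, Finset.disjoint_iff_inter_eq_empty.1 h,
      Finset.union_empty]

omit [Fintype ι] in
lemma ind_inter_eq (A ω ξ : Finset ι) :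
    ind (ω ∩ ξ = A) = ind (A ⊆ ω) * (ind (A ⊆ ξ) * (0 : ℝ) ^ (ξ ∩ (ω \ A)).card) := by
  have : (0 : ℝ) ^ (ξ ∩ (ω \ A)).card = ind (ξ ∩ (ω \ A) = ∅) := by
    by_cases h : ξ ∩ (ω \ A) = ∅
    · rw [ind_pos h, h]; simp
    · rw [ind_neg h, zero_pow (by simpa using h)]
  rw [this, ← ind_and, ← ind_and]
  refine ind_congr ?_
  simp only [Finset.ext_iff, Finset.subset_iff, Finset.mem_inter, Finset.mem_sdiff,
    Finset.notMem_empty, iff_false]
  constructor
  · intro h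
    exact ⟨fun x hx => ((h x).2 hx).1, fun x hx => ((h x).2 hx).2,
      fun x hx => hx.2.2 ((h x).1 ⟨hx.2.1, hx.1⟩)⟩
  · rintro ⟨h1, h2, h3⟩ x
    exact ⟨fun hx => by_contra fun hc => h3 x ⟨hx.2, hx.1, hc⟩, fun hx => ⟨h1 hx, h2 hx⟩⟩

lemma thin (p θ : ℝ) (g : Finset ι → ℝ) :
    E p (fun ω => E θ (fun ξ => g (ω ∩ ξ))) = E (p * θ) g := by
  have e0 : ∀ B : Finset ι, g B = ∑ A, g A * ind (B = A) := fun B => by
    rw [Finset.sum_eq_single B (fun A _ h => by rw [ind_neg h.symm, mul_zero]) (by simp),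
      ind_pos rfl, mul_one]
  rw [E_congr fun ω => (E_congr fun ξ => e0 (ω ∩ ξ)).trans (E_sum _ _), E_sum, E_congr e0, E_sum]
  refine Finset.sum_congr rfl fun A _ => ?_
  rw [E_congr fun ω => E_const_mul _ _, E_const_mul, E_const_mul]
  congr 1
  have e1 : ∀ ω : Finset ι, E θ (fun ξ => ind (ω ∩ ξ = A)) =
      θ ^ A.card * (ind (A ⊆ ω) * (1 - θ) ^ (ω ∩ Aᶜ).card) := fun ω => by
    rw [E_congr fun ξ => ind_inter_eq A ω ξ, E_const_mul,
      E_plant_pow _ _ Finset.disjoint_sdiff, ← Finset.sdiff_eq_inter_compl]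
    ring
  have e2 : ∀ ω : Finset ι, ind (ω = A) = ind (A ⊆ ω) * (0 : ℝ) ^ (ω ∩ Aᶜ).card := fun ω => by
    have := ind_inter_eq A univ ω
    rwa [Finset.univ_inter, ind_pos (Finset.subset_univ A), one_mul,
      ← Finset.compl_eq_univ_sdiff] at this
  rw [E_congr e1, E_congr e2, E_const_mul, E_plant_pow _ _ disjoint_compl_right,
    E_plant_pow _ _ disjoint_compl_right, mul_pow]
  ring

end Thinning

variable {W : Type} [Fintype W] [DecidableEq W] {H : SimpleGraph W} [DecidableRel H.Adj]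

lemma hchrom_eq (p : ℕ → unitInterval) : chromThreshold H p = sInf {d : ℝ | 0 < d ∧ ∃ C : ℕ,
    Tendsto (fun n => Pr (p n : ℝ) (HEv (copies H (Fin n)) (d * p n * n) C)) atTop (𝓝 1)} := by
  unfold chromThreshold HEv
  simp only [bridge, ncard_eq_dg, sub_iff, free_gr, dg_gr]

lemma turan_eq (p : ℕ → unitInterval) : turanThreshold H p = sInf {d : ℝ | 0 < d ∧
    Tendsto (fun n => Pr (p n : ℝ) (HEv (copies H (Fin n)) (d * p n * n) 0)) atTop (𝓝 1)} := by
  unfold turanThreshold HEv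
  congr 1
  ext d
  refine and_congr_right fun _ => tendsto_congr' ?_
  filter_upwards [eventually_gt_atTop 0] with n hn
  have : Nonempty (Fin n) := ⟨⟨0, hn⟩⟩
  simp only [bridge, ncard_eq_dg, not_exists, not_and, sub_iff, free_gr, dg_gr,
    SimpleGraph.colorable_zero_iff, not_isEmpty_of_nonempty, imp_false]

variable {p : ℕ → unitInterval} {h k K0 : ℕ} {μ Λ : ℝ}

omit [DecidableEq W] in
lemma turan_mem (R : HReg (fun n => p n) (fun n => copies H (Fin n)) h k K0 μ Λ) {d : ℝ}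
    (hd : 1 < d) :
    Tendsto (fun n => Pr (p n : ℝ) (HEv (copies H (Fin n)) (d * p n * n) 0)) atTop (𝓝 1) :=
  hupper_prob R.p0 R.p1 R.inf (hconc_E R (fun _ _ => univ) univ_card_lim 0)
    (fun n ω ω' h1 _ => Finset.sum_le_sum fun v _ => Finset.sum_le_sum fun a _ =>
      ind_mono fun h => ⟨h1 h, trivial⟩) (by simpa [hxs] using hd)

theorem chrom_eq_turan (R : HReg (fun n => p n) (fun n => copies H (Fin n)) h k K0 μ Λ) :
    chromThreshold H p = turanThreshold H p := by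
  rw [hchrom_eq, turan_eq]
  refine le_antisymm (csInf_le_csInf ⟨0, fun _ h => h.1.le⟩ ⟨2, two_pos, turan_mem R one_lt_two⟩
    fun d hd => ⟨hd.1, 0, hd.2⟩) (le_csInf ⟨2, two_pos, 0, turan_mem R one_lt_two⟩ ?_)
  rintro d ⟨hd, C, hC⟩
  refine le_of_forall_gt_imp_ge_of_dense fun ν hν => csInf_le ⟨0, fun _ h => h.1.le⟩
    ⟨hd.trans hν, ?_⟩
  by_cases hd1 : 1 ≤ d
  · exact turan_mem R (hd1.trans_lt hν)
  have hd1 := not_le.1 hd1
  set ε := min (ν - d) (1 - d) / 5 with hε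
  have hε0 : 0 < ε := by have := lt_min (sub_pos.2 hν) (sub_pos.2 hd1); positivity
  refine Metric.tendsto_nhds.2 fun β hβ => ?_
  obtain ⟨η, hη, h1⟩ := hlower_core R (ν := ν) (d := d) (b := β / 32) hε0
    (by have := min_le_left (ν - d) (1 - d); linarith only [hε, this])
    (by have := min_le_right (ν - d) (1 - d); linarith) (by positivity) C
  filter_upwards [h1, hC.eventually (lt_mem_nhds (show 1 - β / 4 < 1 by linarith)),
    R.inf.eventually (eventually_gt_atTop 0)] with n h1 h2 hy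
  have e1 := Pr_not (p := p n) (HEv (copies H (Fin n)) (d * p n * n) C)
  have e2 := Pr_not (p := p n) (HEv (copies H (Fin n)) (ν * p n * n) 0)
  have e3 := (Pr_or_le (R.p0 n) (R.p1 n) _ _).trans (add_le_add h1 e1.le)
  have e4 := (Pr_mono (R.p0 n) (R.p1 n) (A := fun ω => ¬ HEv (copies H (Fin n)) (ν * p n * n) 0 ω)
    fun ω hω => (em (HEv (copies H (Fin n)) (d * p n * n) C ω)).imp_left fun h => ⟨h, by
      unfold HEv at hω
      simp only [not_forall] at hω
      obtain ⟨ω', g1, g2, g3, -⟩ := hω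
      refine ⟨ω', g1, g2, fun _ => ν * (p n * n), fun _ => 0, ?_, fun v => ?_, ?_⟩
      · rw [Finset.sum_eq_zero fun _ _ => zero_pow two_ne_zero]
        exact mul_nonneg (Nat.cast_nonneg _) (Finset.sum_nonneg fun _ _ => ind_nonneg _)
      · rw [sub_zero, ← mul_assoc]; exact g3 v
      · rw [Finset.sum_eq_zero fun _ _ => ind_neg (by simpa using mul_pos hε0 hy)]
        positivity⟩).trans e3
  rw [Real.dist_eq, abs_lt]
  constructor <;> linarith only [hβ, h2, e2, e4, R, Pr_le_one (R.p0 n) (R.p1 n) (HEv (copies H (Fin n)) (ν * p n * n) 0)]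

theorem turan_mono {p' : ℕ → unitInterval} {μ' Λ' : ℝ}
    (R' : HReg (fun n => p' n) (fun n => copies H (Fin n)) h k K0 μ' Λ')
    (hle : ∀ᶠ n in atTop, (p' n : ℝ) ≤ p n) : turanThreshold H p ≤ turanThreshold H p' := by
  rw [turan_eq, turan_eq]
  refine le_csInf ⟨2, two_pos, turan_mem R' one_lt_two⟩ ?_
  rintro d' ⟨hd', hC⟩
  refine le_of_forall_gt_imp_ge_of_dense fun d hd => csInf_le ⟨0, fun _ h => h.1.le⟩
    ⟨hd'.trans hd, ?_⟩
  have hdd := sub_pos.2 hd
  set u := (d - d') / (2 * d') with hu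
  have hu0 : 0 < u := by positivity
  have hγ : 0 < u * (d / (1 + u) - d') := by
    refine mul_pos hu0 (sub_pos.2 ((lt_div_iff₀ (by positivity)).2 ?_))
    rw [hu]; field_simp; linarith
  refine Metric.tendsto_nhds.2 fun β hβ => ?_
  filter_upwards [hle, hC.eventually (lt_mem_nhds (show 1 - β / 4 < 1 by linarith only [hβ])),
    (R'.decay hγ 0).eventually (ge_mem_nhds one_half_pos),
    R'.inf.eventually (eventually_gt_atTop 0)] with n h1 h2 h3 hy
  have hp' : (0 : ℝ) < p' n := pos_of_mul_pos_left hy (Nat.cast_nonneg n) |> fun h => h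
  have hp : (0 : ℝ) < p n := hp'.trans_le h1
  have hn : 0 < n := by exact_mod_cast pos_of_mul_pos_right hy hp'.le
  have : Nonempty (Fin n) := ⟨⟨0, hn⟩⟩
  set θ : ℝ := p' n / p n with hθ
  have θ0 : 0 ≤ θ := by positivity
  have θ1 : θ ≤ 1 := (div_le_one hp).2 h1
  have θ2 : p n * θ = p' n := by rw [hθ]; field_simp
  have e1 := thin (p n) θ fun ω => ind (¬ HEv (copies H (Fin n)) (d' * p' n * n) 0 ω)
  have e2 := Pr_not (p := p' n) (HEv (copies H (Fin n)) (d' * p' n * n) 0)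
  have e3 := Pr_not (p := p n) (HEv (copies H (Fin n)) (d * p n * n) 0)
  rw [θ2] at e1
  have e4 : 1 / 2 * Pr (p n : ℝ) (fun ω => ¬ HEv (copies H (Fin n)) (d * p n * n) 0 ω) ≤
      Pr (p' n : ℝ) (fun ω => ¬ HEv (copies H (Fin n)) (d' * p' n * n) 0 ω) := by
    refine le_trans ?_ e1.le
    unfold Pr
    rw [← E_const_mul]
    refine E_mono hp.le (p n).2.2 fun ω => ?_
    by_cases hω : HEv (copies H (Fin n)) (d * p n * n) 0 ω
    · rw [ind_neg (not_not.2 hω), mul_zero]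
      exact E_nonneg θ0 θ1 fun _ => ind_nonneg _
    rw [ind_pos hω, mul_one]
    unfold HEv at hω
    simp only [not_forall] at hω
    obtain ⟨ω', g1, g2, g3, -⟩ := hω
    let M : Fin n → Finset (Sym2 (Fin n)) := fun v => ω' ∩ (univ.erase v).image fun a => s(v, a)
    have f0 : ∀ (ω1 : Finset (Sym2 (Fin n))) v,
        dgE ω1 v = ((ω1 ∩ (univ.erase v).image fun a => s(v, a)).card : ℝ) := fun ω1 v =>
      (dg_gr ω1 v).symm.trans (nb_eq ω1 univ v)
    have f1 : Pr θ (fun ξ => ∃ v ∈ (univ : Finset (Fin n)),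
        ((ξ ∩ M v).card : ℝ) ≤ d' * p' n * n) ≤ 1 / 2 := by
      refine (Pr_exists_le θ0 θ1 _ _).trans (le_trans (Finset.sum_le_card_nsmul _ _ _ fun v _ =>
        (chernoff_low θ0 θ1 (M v) _ hu0.le).trans (Real.exp_le_exp.2 ?_))
        ((nsmul_eq_mul _ _).le.trans (by simpa using h3)))
      have f2 := mul_le_mul_of_nonneg_left ((g3 v).trans_eq (f0 ω' v))
        (show 0 ≤ u / (1 + u) * θ by positivity)
      have f3 : u / (1 + u) * θ * (d * p n * n) = u * (d / (1 + u)) * (p' n * n) := by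
        rw [← θ2]; ring
      linarith only [f2, f3]
    have f2 := Pr_not (p := θ) fun ξ => ∃ v ∈ (univ : Finset (Fin n)),
      ((ξ ∩ M v).card : ℝ) ≤ d' * p' n * n
    refine le_trans (by linarith only [f1]) (f2.ge.trans (Pr_mono θ0 θ1 fun ξ hξ hE => ?_))
    refine not_isEmpty_of_nonempty _ (SimpleGraph.colorable_zero_iff.1 (hE (ξ ∩ ω') ?_
      (fun T hT h => g2 T hT (h.trans Finset.inter_subset_right)) fun v => ?_))
    · rw [Finset.inter_comm]; exact Finset.inter_subset_inter_right g1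
    · rw [f0, Finset.inter_assoc]
      exact (not_le.1 fun h => hξ ⟨v, mem_univ v, h⟩).le
  rw [Real.dist_eq, abs_lt]
  constructor <;> linarith only [hβ, h2, e2, e3, e4, hp, Pr_le_one hp.le (p n).2.2 (HEv (copies H (Fin n)) (d * p n * n) 0)]

lemma le_hchrom (R : HReg (fun n => p n) (fun n => copies H (Fin n)) h k K0 μ Λ) {X} {ν : ℝ}
    (hX : Conc (fun n => p n) X ν)
    (hdet : ∀ n ω, ∃ R ⊆ ω, (∀ T ∈ copies H (Fin n), ¬ T ⊆ R) ∧ ∃ dev : Fin n → ℝ,
      ∑ v, dev v ^ 2 ≤ h * ∑ T ∈ copies H (Fin n), ind (T ⊆ ω) ∧ ∀ v, X n v ω - dev v ≤ dgE R v) :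
    min ν 1 ≤ chromThreshold H p := by
  rw [hchrom_eq]
  refine le_csInf ⟨2, two_pos, 0, turan_mem R one_lt_two⟩ ?_
  rintro d ⟨_, C, hC⟩
  by_contra hc
  obtain ⟨h1, h2⟩ := lt_min_iff.1 (not_le.1 hc)
  obtain ⟨n, e1, e2⟩ := ((hlower_prob R hX hdet h1 h2 C).and
    (hC.eventually (lt_mem_nhds (show (1 : ℝ) / 2 < 1 by norm_num)))).exists
  exact absurd e1 (not_le.2 e2)

theorem hexact (R : HReg (fun n => p n) (fun n => copies H (Fin n)) h k K0 μ Λ) (h0 : 0 < μ)
    (h1 : ((k : ℝ) - 1) * μ ≤ Real.exp 1) {x : ℝ} (hx : x = Real.exp (-(μ * x ^ (k - 1)))) :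
    chromThreshold H p = x + ((k : ℝ) - 1) / k * μ * x ^ k := by
  have h3 := (R.sys 0).h3
  have hk := (R.sys 0).hk
  have hk0 : (3 : ℝ) ≤ k := by exact_mod_cast h3.trans hk
  have hk1 : (0 : ℝ) < (k : ℝ) - 1 := by linarith only [hk0]
  have hk2 : (0 : ℝ) < k := by linarith
  obtain ⟨y, hy, l1, l2⟩ := hxs_lim (by omega) h0 h1
  rw [hfix_unique h0.le hx hy] at l1 l2
  have pw : ∀ z : ℝ, z * z ^ (k - 1) = z ^ k := fun z => by
    rw [← pow_succ']; congr 1; omega
  have cE := hconc_E R (fun _ _ => univ) univ_card_lim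
  have cT := hconc_T R
  refine le_antisymm (ge_of_tendsto' (l2.add ((l1.pow k).const_mul (((k : ℝ) - 1) / k * μ)))
    fun s => ?_) ?_
  · rw [hchrom_eq]
    have := hxs_pos μ k (2 * s + 1)
    have := hxs_pos μ k (2 * s + 2)
    refine le_of_forall_gt_imp_ge_of_dense fun d hd => csInf_le ⟨0, fun _ h => h.1.le⟩
      ⟨lt_trans (by positivity) hd, 0, hupper_prob R.p0 R.p1 R.inf
        ((cE (2 * s + 2)).add R.p0 R.p1 ((cT true (2 * s + 1) (2 * s + 1)).smul R.p0
          (((k : ℝ) - 1) / k))) (fun n ω ω' h1 h2 => (R.sys n).upper h1 h2 s)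
        (lt_of_eq_of_lt ?_ hd)⟩
    rw [pw, cond_true]; ring
  have key : ∀ s, min (hxs μ k (2 * s + 2) + ((2 - 1 / k) * μ * hxs μ k (2 * s + 1) ^ k -
      μ * hxs μ k (2 * s + 2) ^ k)) 1 ≤ chromThreshold H p := by
    intro s
    have c1 := ((cE (2 * s + 2)).add R.p0 R.p1
      (((cT true (2 * s + 1) (2 * s + 1)).smul R.p0 (2 - 1 / k)).add R.p0 R.p1
        ((cT true (2 * s + 2) (2 * s + 2)).smul R.p0 (-1)))).add R.p0 R.p1
      (Conc.sum R.p0 R.p1 s fun j =>
        ((((cT true (2 * j + 1) (2 * (j + 1) + 1)).smul R.p0 (-1)).add R.p0 R.p1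
          (cT true (2 * j + 1) (2 * j + 1))).add R.p0 R.p1
          ((cT false (2 * j + 1) (2 * (j + 1) + 1)).smul R.p0 (1 / k))).add R.p0 R.p1
          ((cT false (2 * j + 1) (2 * j + 1)).smul R.p0 (-1 / k)))
    refine le_trans (le_of_eq ?_) (le_hchrom R c1 fun n ω => (R.sys n).lower ω s)
    rw [Finset.sum_eq_zero fun j _ => by simp only [cond_true, cond_false]; field_simp; ring,
      pw, pw, cond_true]
    congr 1; ring
  have l3 := (l2.add (((l1.pow k).const_mul ((2 - 1 / k) * μ)).sub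
    ((l2.pow k).const_mul μ))).min (tendsto_const_nhds (x := (1 : ℝ)))
  refine le_trans (le_min (le_of_eq (by field_simp; ring)) ?_) (le_of_tendsto' l3 key)
  have hx0 : 0 < x := hx ▸ Real.exp_pos _
  have e1 := Real.add_one_le_exp (μ * x ^ (k - 1))
  have e2 : x * Real.exp (μ * x ^ (k - 1)) = 1 := by
    rw [mul_comm]; nth_rewrite 2 [hx]; rw [← Real.exp_add]; simp
  have e3 := mul_le_mul_of_nonneg_left e1 hx0.le
  have e4 : ((k : ℝ) - 1) / k * (μ * x ^ k) ≤ μ * x ^ k :=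
    mul_le_of_le_one_left (by positivity) ((div_le_one hk2).2 (by linarith only []))
  rw [← pw] at e4 ⊢
  linarith only [e2, e3, e4]

theorem lower_partite (R : HReg (fun n => p n) (fun n => copies H (Fin n)) h k K0 μ Λ) {r : ℕ}
    (hr : 0 < r) (hH : ¬ H.Colorable r) :
    1 - 1 / r + 1 / r * Real.exp (-μ) ≤ chromThreshold H p := by
  classical
  have hr' : (1 : ℝ) ≤ r := by exact_mod_cast hr
  let Wp : ∀ n, Fin n → Finset (Fin n) := fun n v => univ.filter fun a => a.val ≡ v.val [MOD r]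
  have hW : ∀ n v, |((Wp n v).card : ℝ) - 1 / r * n| ≤ 1 := by
    intro n v
    have e1 : (Wp n v).card = n / r + if v.val % r < n % r then 1 else 0 := by
      rw [← Nat.count_modEq_card n hr, Nat.count_eq_card_filter_range, ← Nat.Iio_eq_range,
        ← Fin.map_valEmbedding_univ, Finset.filter_map, Finset.card_map]
      rfl
    have e2 : (n : ℝ) = r * ((n / r : ℕ) : ℝ) + (n % r : ℕ) := by
      exact_mod_cast (Nat.div_add_mod n r).symm
    have e3 : ((n % r : ℕ) : ℝ) ≤ r := by exact_mod_cast (Nat.mod_lt n hr).le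
    have e4 : 1 / (r : ℝ) * n = ((n / r : ℕ) : ℝ) + (n % r : ℕ) / r := by
      nth_rewrite 1 [e2]; field_simp
    have e5 : ((n % r : ℕ) : ℝ) / r ≤ 1 := (div_le_one (by linarith only [hr'])).2 e3
    have e6 : 0 ≤ ((n % r : ℕ) : ℝ) / r := by positivity
    rw [e1, e4, abs_le]
    split_ifs <;> push_cast <;> constructor <;> linarith only [e5, e6]
  have big : ∀ ε : ℝ, 0 < ε → ∀ᶠ n : ℕ in atTop, 1 ≤ ε * n := fun ε hε =>
    ((tendsto_natCast_atTop_atTop (R := ℝ)).const_mul_atTop hε).eventually (eventually_ge_atTop 1)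
  have c1 := (hconc_E R (fun n v => (Wp n v)ᶜ) (β := 1 - 1 / r) (fun ε hε => by
    filter_upwards [big ε hε] with n hn v
    rw [Finset.card_compl, Fintype.card_fin,
      Nat.cast_sub (by simpa using Finset.card_le_univ (Wp n v))]
    refine le_trans (le_of_eq ?_) ((hW n v).trans hn)
    rw [← abs_neg]; congr 1; ring) 0).add R.p0 R.p1
    (hconc_E R Wp (β := 1 / r) (fun ε hε => by
      filter_upwards [big ε hε] with n hn v using (hW n v).trans hn) 1)
  refine le_trans (le_min (le_of_eq (by simp [hxs])) ?_) (le_hchrom R c1 fun n ω => ?_)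
  · have := mul_le_mul_of_nonneg_left (Real.exp_le_one_iff.2 (neg_nonpos.2 R.mu0))
      (show 0 ≤ 1 / (r : ℝ) by positivity)
    linarith only [this]
  refine ⟨ω.filter fun e => (∃ a b : Fin n, e = s(a, b) ∧ ¬ a.val ≡ b.val [MOD r]) ∨
    ∀ T ∈ copies H (Fin n), e ∈ T → ¬ T ⊆ ω, Finset.filter_subset _ _, fun T hT hs => ?_,
    fun _ => 0, ?_, fun v => ?_⟩
  · obtain ⟨f, -, rfl⟩ := Finset.mem_image.1 hT
    refine hH ⟨SimpleGraph.Coloring.mk (fun w => ⟨(f w).val % r, Nat.mod_lt _ hr⟩) fun {a b} hab h => ?_⟩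
    have h' : (f a).val ≡ (f b).val [MOD r] := congrArg Fin.val h
    rcases (Finset.mem_filter.1 (hs (mem_img.2 hab))).2 with ⟨x, y, e1, e2⟩ | e1
    · rcases Sym2.eq_iff.1 e1 with ⟨rfl, rfl⟩ | ⟨rfl, rfl⟩
      · exact e2 h'
      · exact e2 h'.symm
    · exact e1 _ hT (mem_img.2 hab) (hs.trans (Finset.filter_subset _ _))
  · rw [Finset.sum_eq_zero fun _ _ => zero_pow two_ne_zero]
    exact mul_nonneg (Nat.cast_nonneg _) (Finset.sum_nonneg fun _ _ => ind_nonneg _)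
  · have hv : v ∈ Wp n v := Finset.mem_filter.2 ⟨mem_univ v, rfl⟩
    have e1 : univ.erase v = (Wp n v)ᶜ.erase v ∪ (Wp n v).erase v := by
      rw [← Finset.erase_union_distrib, Finset.union_comm, Finset.union_compl]
    unfold dgE hstE
    rw [sub_zero, e1, Finset.sum_union (Finset.disjoint_left.2 fun a h1 h2 =>
      Finset.mem_compl.1 (Finset.mem_of_mem_erase h1) (Finset.mem_of_mem_erase h2))]
    refine add_le_add (Finset.sum_le_sum fun a ha => ind_mono fun h => Finset.mem_filter.2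
      ⟨h.1, Or.inl ⟨v, a, rfl, fun h' => ?_⟩⟩) (Finset.sum_le_sum fun a _ => ind_mono fun h =>
      Finset.mem_filter.2 ⟨h.1, Or.inr fun T hT e1 e2 =>
        h.2 T hT (Finset.ne_empty_of_mem e1) e1 e2 fun _ _ _ => trivial⟩)
    exact Finset.mem_compl.1 (Finset.mem_of_mem_erase ha) (Finset.mem_filter.2 ⟨mem_univ a, h'.symm⟩)

end Pool.Agent.Work.MP_d4a230_co
end
end
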