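import Pool.Agent.Work.MP_d4a230_co.HDefs

namespace Pool.Agent.Work.MP_d4a230_co

/-- The average, over all maps `χ` from the vertices of `H` to `r` colours, of
`x ^ (number of edges with two colours) * y ^ (number of edges with one colour)`. -/
noncomputable def potts {W : Type} (H : SimpleGraph W) (r : ℕ) (x y : ℝ) : ℝ :=
  (∑ᶠ χ : W → Fin r, x ^ {e ∈ H.edgeSet | ¬ (e.map χ).IsDiag}.ncard *
    y ^ {e ∈ H.edgeSet | (e.map χ).IsDiag}.ncard) / (r : ℝ) ^ Nat.card W

/-- The function `(1 - 1/r) (x - x log x) + (1/r) (y - y log y) - (L / e(H)) potts H r x y`,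
where `L = copyRate H c`. -/
noncomputable def bethe {W : Type} (H : SimpleGraph W) (r : ℕ) (c x y : ℝ) : ℝ :=
  (1 - 1 / (r : ℝ)) * (x - x * Real.log x) + 1 / (r : ℝ) * (y - y * Real.log y) -
    copyRate H c / (H.edgeSet.ncard : ℝ) * potts H r x y

end Pool.Agent.Work.MP_d4a230_co
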