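import Pool.Agent.Work.MP_d4a230_co.HMain
import Pool.Agent.Work.MP_d4a230_co.KDefs

-- merged part: Pool.Agent.Work.MP_d4a230_co.KBase
section
/-!
Common definitions for the range of large `c`.
-/

namespace Pool.Agent.Work.MP_d4a230_co

open Finset Filter Topology

section Whp

/-- An event holding with probability tending to one. -/
def Whp (p : ℕ → ℝ) (A : ∀ n, Finset (Sym2 (Fin n)) → Prop) : Prop :=
  Tendsto (fun n => Pr (p n) (A n)) atTop (𝓝 1)

variable {p : ℕ → ℝ} {A B : ∀ n, Finset (Sym2 (Fin n)) → Prop}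

lemma whp_iff (p0 : ∀ n, 0 ≤ p n) (p1 : ∀ n, p n ≤ 1) :
    Whp p A ↔ ∀ ε : ℝ, 0 < ε → ∀ᶠ n in atTop, Pr (p n) (fun ω => ¬ A n ω) ≤ ε := by
  unfold Whp
  rw [Metric.tendsto_nhds]
  constructor
  · intro h ε hε
    filter_upwards [h ε hε] with n hn
    rw [Real.dist_eq, abs_lt] at hn
    rw [Pr_not]
    linarith [hn.1]
  · intro h ε hε
    filter_upwards [h (ε / 2) (half_pos hε)] with n hn
    rw [Pr_not] at hn
    rw [Real.dist_eq, abs_lt]
    constructor <;> linarith [Pr_le_one (p0 n) (p1 n) (A n)]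

lemma whp_of_le (p0 : ∀ n, 0 ≤ p n) (p1 : ∀ n, p n ≤ 1) {f : ℕ → ℝ} (hf : Tendsto f atTop (𝓝 0))
    (h : ∀ᶠ n in atTop, Pr (p n) (fun ω => ¬ A n ω) ≤ f n) : Whp p A :=
  (whp_iff p0 p1).2 fun ε hε => by
    filter_upwards [h, hf.eventually (ge_mem_nhds hε)] with n h1 h2 using h1.trans h2

lemma Whp.mono (p0 : ∀ n, 0 ≤ p n) (p1 : ∀ n, p n ≤ 1) (h : Whp p A)
    (hAB : ∀ᶠ n in atTop, ∀ ω, A n ω → B n ω) : Whp p B :=
  (whp_iff p0 p1).2 fun ε hε => by
    filter_upwards [(whp_iff p0 p1).1 h ε hε, hAB] with n h1 h2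
    exact (Pr_mono (p0 n) (p1 n) fun ω h3 h4 => h3 (h2 ω h4)).trans h1

lemma Whp.and (p0 : ∀ n, 0 ≤ p n) (p1 : ∀ n, p n ≤ 1) (h : Whp p A) (h' : Whp p B) :
    Whp p fun n ω => A n ω ∧ B n ω :=
  (whp_iff p0 p1).2 fun ε hε => by
    filter_upwards [(whp_iff p0 p1).1 h _ (half_pos hε), (whp_iff p0 p1).1 h' _ (half_pos hε)]
      with n h1 h2
    refine (Pr_mono (p0 n) (p1 n) fun ω h3 => not_and_or.1 h3).trans
      ((Pr_or_le (p0 n) (p1 n) _ _).trans ?_)
    linarith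

end Whp

variable {V : Type}

/-- A pair of distinct vertices of the same colour. -/
def Ins {κ : Type} (π : V → κ) (e : Sym2 V) : Prop := ¬ e.IsDiag ∧ (e.map π).IsDiag

/-- The number of pairs of `ω` inside a colour class. -/
noncomputable def inE {κ : Type} (π : V → κ) (ω : Finset (Sym2 V)) : ℝ := ∑ e ∈ ω, ind (Ins π e)

/-- The pairs of distinct vertices. -/
def offd (V : Type) [Fintype V] [DecidableEq V] : Finset (Sym2 V) :=
  univ.filter fun e => ¬ e.IsDiag

/-- The pairs of distinct vertices containing `u`. -/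
def star [Fintype V] [DecidableEq V] (u : V) : Finset (Sym2 V) :=
  (univ.erase u).image fun a => s(u, a)

/-- A colour class. -/
def part [Fintype V] {r : ℕ} (π : V → Fin r) (i : Fin r) : Finset V := univ.filter fun v => π v = i

/-- All colour classes have relative size within `σ` of `1 / r`. -/
def Bal [Fintype V] {r : ℕ} (π : V → Fin r) (σ : ℝ) : Prop :=
  ∀ i, |((part π i).card : ℝ) - Fintype.card V / r| ≤ σ * Fintype.card V

/-- The constant bounding the number of copies on a given vertex set. -/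
def kz (W : Type) [Fintype W] : ℕ := 2 ^ (Fintype.card W + 1).choose 2

/-- The regime `n ^ (v(H) - 2) p ^ (e(H) - 1) → Λ` for the copies of `H`. -/
abbrev GReg {W : Type} [Fintype W] [DecidableEq W] (H : SimpleGraph W) [DecidableRel H.Adj]
    (p : ℕ → ℝ) (μ Λ : ℝ) : Prop :=
  HReg p (fun n => copies H (Fin n)) (Fintype.card W) H.edgeFinset.card (kz W) μ Λ

section Abstract

variable {ι : Type} [DecidableEq ι]

/-- Number of present members of `𝒞` containing `e`. -/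
noncomputable def cop (𝒞 : Finset (Finset ι)) (ω : Finset ι) (e : ι) : ℝ :=
  ∑ T ∈ 𝒞, ind (e ∈ T ∧ T ⊆ ω)

/-- All elements of `T` other than `e` are not inside elements. -/
def OneIn (ins : ι → Prop) (e : ι) (T : Finset ι) : Prop := ∀ g ∈ T, g ≠ e → ¬ ins g

/-- The mean number of members through `e` without another inside element. -/
noncomputable def lam (𝒞 : Finset (Finset ι)) (ins : ι → Prop) (q : ℝ) (e : ι) : ℝ :=
  q * ∑ T ∈ 𝒞, ind (e ∈ T ∧ OneIn ins e T)

end Abstract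

end Pool.Agent.Work.MP_d4a230_co
end

-- merged part: Pool.Agent.Work.MP_d4a230_co.KEP
section
/-!
Expectation under a finite product of finite probability vectors.
-/

namespace Pool.Agent.Work.MP_d4a230_co

open Finset

variable {α B : Type} [Fintype α] [DecidableEq α] [Fintype B]

/-- Expectation of `F` when the coordinates are independent with laws `w i`. -/
noncomputable def EP (w : α → B → ℝ) (F : (α → B) → ℝ) : ℝ :=
  ∑ c : α → B, (∏ i, w i (c i)) * F c

/-- A family of probability vectors. -/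
def IsW {α B : Type} [Fintype B] (w : α → B → ℝ) : Prop :=
  (∀ i b, 0 ≤ w i b) ∧ ∀ i, ∑ b, w i b = 1

variable {w : α → B → ℝ} {F G : (α → B) → ℝ}

lemma EP_congr (h : ∀ c, F c = G c) : EP w F = EP w G := by
  rw [funext h]

lemma EP_add (F G : (α → B) → ℝ) : EP w (fun c => F c + G c) = EP w F + EP w G := by
  simp only [EP, mul_add, Finset.sum_add_distrib]

lemma EP_sub (F G : (α → B) → ℝ) : EP w (fun c => F c - G c) = EP w F - EP w G := by
  simp only [EP, mul_sub, Finset.sum_sub_distrib]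

lemma EP_const_mul (a : ℝ) (F : (α → B) → ℝ) : EP w (fun c => a * F c) = a * EP w F := by
  simp only [EP, Finset.mul_sum, mul_left_comm a]

lemma EP_sum {κ : Type} (s : Finset κ) (F : κ → (α → B) → ℝ) :
    EP w (fun c => ∑ j ∈ s, F j c) = ∑ j ∈ s, EP w (F j) := by
  simp only [EP, Finset.mul_sum]
  exact Finset.sum_comm

lemma EP_prod (f : α → B → ℝ) : EP w (fun c => ∏ i, f i (c i)) = ∏ i, ∑ b, w i b * f i b := by
  simp only [EP, ← Finset.prod_mul_distrib]
  rw [Finset.prod_univ_sum, Fintype.piFinset_univ]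

lemma IsW.EP_prod_sub (hw : IsW w) (s : Finset α) (f : α → B → ℝ) :
    EP w (fun c => ∏ i ∈ s, f i (c i)) = ∏ i ∈ s, ∑ b, w i b * f i b := by
  have := EP_prod (w := w) fun i b => if i ∈ s then f i b else 1
  simp only [Finset.prod_ite_mem, Finset.univ_inter] at this
  rw [this, ← Finset.prod_subset (Finset.subset_univ s) fun i _ hi => by simp [hi, hw.2 i]]
  exact Finset.prod_congr rfl fun i hi => by simp [hi]

lemma IsW.EP_const (hw : IsW w) (a : ℝ) : EP w (fun _ => a) = a := by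
  have := hw.EP_prod_sub ∅ fun _ _ => 0
  simp only [Finset.prod_empty] at this
  rw [EP_congr (G := fun _ => a * 1) fun _ => (mul_one a).symm, EP_const_mul, this, mul_one]

lemma IsW.EP_single (hw : IsW w) (i : α) (f : B → ℝ) :
    EP w (fun c => f (c i)) = ∑ b, w i b * f b := by
  simpa using hw.EP_prod_sub {i} fun _ => f

lemma IsW.EP_mono_ae (hw : IsW w) (h : ∀ c, (∀ i, w i (c i) ≠ 0) → F c ≤ G c) :
    EP w F ≤ EP w G := by
  refine Finset.sum_le_sum fun c _ => ?_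
  by_cases hc : ∀ i, w i (c i) ≠ 0
  · exact mul_le_mul_of_nonneg_left (h c hc) (Finset.prod_nonneg fun i _ => hw.1 _ _)
  · push Not at hc
    obtain ⟨i, hi⟩ := hc
    rw [Finset.prod_eq_zero (Finset.mem_univ i) hi, zero_mul, zero_mul]

lemma IsW.EP_mono (hw : IsW w) (h : ∀ c, F c ≤ G c) : EP w F ≤ EP w G :=
  hw.EP_mono_ae fun c _ => h c

lemma IsW.EP_nonneg (hw : IsW w) (h : ∀ c, 0 ≤ F c) : 0 ≤ EP w F :=
  (hw.EP_const 0).symm.le.trans (hw.EP_mono h)

lemma IsW.abs_EP_le (hw : IsW w) (F : (α → B) → ℝ) : |EP w F| ≤ EP w fun c => |F c| := by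
  refine abs_le.2 ⟨?_, hw.EP_mono fun c => le_abs_self _⟩
  have := hw.EP_mono (F := fun c => (-1) * |F c|) (G := F) fun c => by linarith [neg_abs_le (F c)]
  rw [EP_const_mul] at this
  linarith

/-- Independence of one coordinate from a function not depending on it. -/
lemma IsW.EP_indep (hw : IsW w) (i : α) (f : B → ℝ)
    (hG : ∀ c b, G (Function.update c i b) = G c) :
    EP w (fun c => f (c i) * G c) = (∑ b, w i b * f b) * EP w G := by
  have key : ∀ f : B → ℝ, EP w (fun c => f (c i) * G c) = ∑ b, ∑ d : {j // j ≠ i} → B,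
      w i b * f b * ((∏ j : {j // j ≠ i}, w j (d j)) *
        G ((Equiv.funSplitAt i B).symm (b, d))) := by
    intro f
    unfold EP
    rw [← (Equiv.funSplitAt i B).symm.sum_comp, Fintype.sum_prod_type]
    refine Finset.sum_congr rfl fun b _ => Finset.sum_congr rfl fun d _ => ?_
    rw [← Finset.mul_prod_erase _ _ (Finset.mem_univ i),
      Finset.prod_subtype (p := fun j => j ≠ i) (F := inferInstance) (univ.erase i) (by simp)]
    have e1 : (Equiv.funSplitAt i B).symm (b, d) i = b := by simp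
    have e2 : ∀ j : {j // j ≠ i}, (Equiv.funSplitAt i B).symm (b, d) j = d j := fun j => by
      simp [j.2]
    simp only [e1, e2]
    ring
  rcases isEmpty_or_nonempty B with hB | ⟨⟨b0⟩⟩
  · have := hw.2 i
    simp at this
  have e : ∀ b d, G ((Equiv.funSplitAt i B).symm (b, d)) =
      G ((Equiv.funSplitAt i B).symm (b0, d)) := fun b d => by
    rw [← hG _ b0]
    congr 1
    ext j
    by_cases hj : j = i
    · subst hj; simp
    · simp [hj]
  have k1 := key fun _ => 1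
  simp only [one_mul, mul_one, e, ← Finset.mul_sum, ← Finset.sum_mul, hw.2 i] at k1
  rw [key, k1]
  simp only [e, ← Finset.mul_sum, ← Finset.sum_mul]

end Pool.Agent.Work.MP_d4a230_co
end

-- merged part: Pool.Agent.Work.MP_d4a230_co.KRule
section
/-!
Message passing rules with a finite alphabet, and their ideal laws.
-/

namespace Pool.Agent.Work.MP_d4a230_co

open Finset

/-- A message passing rule with alphabet `A`. -/
structure Rule (ι A : Type) where
  init : ι → A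
  upd : ℕ → ι → (Finset ι → Option (ι → A)) → A

variable {ι A : Type} [DecidableEq ι] [Inhabited A]

/-- The labels on the elements of `T` other than `e`. -/
def lab (e : ι) (T : Finset ι) (m : ι → A) : ι → A :=
  fun g => if g ∈ T ∧ g ≠ e then m g else default

/-- The labelled present members through `e` other than `X`. -/
def cfgOf (𝒞 : Finset (Finset ι)) (ω : Finset ι) (e : ι) (X : Finset ι)
    (m : ι → Finset ι → A) : Finset ι → Option (ι → A) :=
  fun T => if T ∈ 𝒞 ∧ T ≠ X ∧ e ∈ T ∧ T ⊆ ω then some (lab e T fun g => m g T) else none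

/-- The messages of a rule. -/
def Msg (ρ : Rule ι A) (𝒞 : Finset (Finset ι)) (ω : Finset ι) : ℕ → ι → Finset ι → A
  | 0, e, _ => ρ.init e
  | t + 1, e, X => ρ.upd t e (cfgOf 𝒞 ω e X (Msg ρ 𝒞 ω t))

lemma cfgOf_eq_some {𝒞 : Finset (Finset ι)} {ω : Finset ι} {e : ι} {X T : Finset ι}
    {m : ι → Finset ι → A} {l : ι → A} : cfgOf 𝒞 ω e X m T = some l ↔
      (T ∈ 𝒞 ∧ T ≠ X ∧ e ∈ T ∧ T ⊆ ω) ∧ l = lab e T fun g => m g T := by
  unfold cfgOf
  split_ifs with h
  · simp [h, eq_comm]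
  · simp [h]

lemma cfgOf_ne_none {𝒞 : Finset (Finset ι)} {ω : Finset ι} {e : ι} {X T : Finset ι}
    {m : ι → Finset ι → A} : cfgOf 𝒞 ω e X m T ≠ none ↔ T ∈ 𝒞 ∧ T ≠ X ∧ e ∈ T ∧ T ⊆ ω := by
  unfold cfgOf
  split_ifs with h <;> simp [h]

variable [Fintype ι] [Fintype A]

/-- The law of the label vector of `T`: independent labels with laws `w g` on `T` minus `e`. -/
noncomputable def lw (w : ι → A → ℝ) (e : ι) (T : Finset ι) (l : ι → A) : ℝ :=
  ∏ g, if g ∈ T ∧ g ≠ e then w g (l g) else ind (l g = default)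

/-- The ideal law of the state of the member `T` seen from `e`. -/
noncomputable def cw (𝒞 : Finset (Finset ι)) (q : ℝ) (w : ι → A → ℝ) (e : ι) (T : Finset ι) :
    Option (ι → A) → ℝ
  | none => 1 - q * ind (T ∈ 𝒞 ∧ e ∈ T)
  | some l => q * ind (T ∈ 𝒞 ∧ e ∈ T) * lw w e T l

/-- The ideal law of the messages. -/
noncomputable def law (ρ : Rule ι A) (𝒞 : Finset (Finset ι)) (q : ℝ) : ℕ → ι → A → ℝ
  | 0, e, a => ind (ρ.init e = a)
  | t + 1, e, a => EP (cw 𝒞 q (law ρ 𝒞 q t) e) fun c => ind (ρ.upd t e c = a)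

variable {𝒞 : Finset (Finset ι)} {q : ℝ} {w : ι → A → ℝ}

omit [Inhabited A] [DecidableEq ι] [Fintype ι] in
lemma sum_ind_val (a : A) (f : A → ℝ) : ∑ b, ind (a = b) * f b = f a := by
  rw [Finset.sum_eq_single_of_mem a (Finset.mem_univ _), ind_pos rfl, one_mul]
  exact fun b _ hb => by rw [ind_neg (Ne.symm hb), zero_mul]

/-- Expectation of a product of functions of the labels. -/
lemma lw_sum_prod (e : ι) (T : Finset ι) (f : ι → A → ℝ) :
    ∑ l : ι → A, lw w e T l * ∏ g ∈ T.erase e, f g (l g) =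
      ∏ g ∈ T.erase e, ∑ a, w g a * f g a := by
  have h1 := EP_prod (w := fun g a => if g ∈ T ∧ g ≠ e then w g a else ind (a = default))
    (fun g a => if g ∈ T.erase e then f g a else 1)
  unfold EP at h1
  simp only [Finset.prod_ite_mem, Finset.univ_inter] at h1
  unfold lw
  rw [h1, ← Finset.prod_subset (Finset.subset_univ (T.erase e))]
  · refine Finset.prod_congr rfl fun g hg => ?_
    have := Finset.mem_erase.1 hg
    simp only [this.1, this.2, hg, ne_eq, not_false_eq_true, and_self, if_true]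
  · intro g _ hg
    have : ¬ (g ∈ T ∧ g ≠ e) := fun h => hg (Finset.mem_erase.2 ⟨h.2, h.1⟩)
    simp only [this, hg, if_false]
    refine Eq.trans ?_ (sum_ind_val (default : A) fun _ => 1)
    exact Finset.sum_congr rfl fun a _ => by rw [ind_congr eq_comm]

lemma lw_nonneg (hw : IsW w) (e : ι) (T : Finset ι) (l : ι → A) : 0 ≤ lw w e T l :=
  Finset.prod_nonneg fun g _ => by
    split_ifs
    exacts [hw.1 _ _, ind_nonneg _]

lemma lw_sum (hw : IsW w) (e : ι) (T : Finset ι) : ∑ l : ι → A, lw w e T l = 1 := by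
  have := lw_sum_prod (w := w) e T fun _ _ => 1
  simpa [hw.2] using this

/-- The label vectors of `T` form a product space. -/
lemma lw_isW (hw : IsW w) (e : ι) (T : Finset ι) :
    IsW fun g a => if g ∈ T ∧ g ≠ e then w g a else ind (a = default) := by
  refine ⟨fun g a => ?_, fun g => ?_⟩
  · dsimp only
    split_ifs
    exacts [hw.1 _ _, ind_nonneg _]
  · by_cases h : g ∈ T ∧ g ≠ e
    · simp only [h, ne_eq, not_false_eq_true, and_self, if_true]; exact hw.2 g
    · simp only [h, if_false]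
      refine Eq.trans ?_ (sum_ind_val (default : A) fun _ => 1)
      exact Finset.sum_congr rfl fun a _ => by rw [ind_congr eq_comm, mul_one]

lemma cw_sum (e : ι) (T : Finset ι) (f : Option (ι → A) → ℝ) :
    ∑ o, cw 𝒞 q w e T o * f o = (1 - q * ind (T ∈ 𝒞 ∧ e ∈ T)) * f none +
      q * ind (T ∈ 𝒞 ∧ e ∈ T) * ∑ l, lw w e T l * f (some l) := by
  rw [Fintype.sum_option, Finset.mul_sum]
  simp only [cw, mul_assoc]

lemma cw_isW (h0 : 0 ≤ q) (h1 : q ≤ 1) (hw : IsW w) (e : ι) : IsW (cw 𝒞 q w e) := by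
  refine ⟨fun T o => ?_, fun T => ?_⟩
  · cases o with
    | none =>
      have := mul_le_of_le_one_right h0 (ind_le_one (T ∈ 𝒞 ∧ e ∈ T))
      simp only [cw]; linarith
    | some l => exact mul_nonneg (mul_nonneg h0 (ind_nonneg _)) (lw_nonneg hw _ _ _)
  · have := cw_sum (𝒞 := 𝒞) (q := q) (w := w) e T fun _ => 1
    simp only [mul_one, lw_sum hw] at this
    rw [this]; ring

lemma law_succ_sum (ρ : Rule ι A) (t : ℕ) (e : ι) (f : A → ℝ) :
    ∑ a, law ρ 𝒞 q (t + 1) e a * f a =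
      EP (cw 𝒞 q (law ρ 𝒞 q t) e) fun c => f (ρ.upd t e c) := by
  simp only [law]
  rw [← EP_congr fun c => sum_ind_val (ρ.upd t e c) f, EP_sum]
  exact Finset.sum_congr rfl fun a _ => by
    rw [mul_comm, ← EP_const_mul]; exact EP_congr fun c => mul_comm _ _

lemma law_zero_sum (ρ : Rule ι A) (e : ι) (f : A → ℝ) :
    ∑ a, law ρ 𝒞 q 0 e a * f a = f (ρ.init e) := sum_ind_val _ f

lemma law_isW (ρ : Rule ι A) (h0 : 0 ≤ q) (h1 : q ≤ 1) (t : ℕ) : IsW (law ρ 𝒞 q t) := by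
  induction t with
  | zero =>
    exact ⟨fun _ _ => ind_nonneg _, fun e => by simpa using law_zero_sum ρ e fun _ => 1⟩
  | succ t ih =>
    have := cw_isW (𝒞 := 𝒞) h0 h1 ih
    refine ⟨fun e a => (this e).EP_nonneg fun _ => ind_nonneg _, fun e => ?_⟩
    have h := law_succ_sum (𝒞 := 𝒞) (q := q) ρ t e fun _ => 1
    simpa [(this e).EP_const] using h

end Pool.Agent.Work.MP_d4a230_co
end

-- merged part: Pool.Agent.Work.MP_d4a230_co.KCoreD
section
/-!
Definitions: the core, its cavity version, suspect elements, belief propagation started from the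
cut, the statistics of the reduced set, and the analytic quantities attached to a cut.
-/

namespace Pool.Agent.Work.MP_d4a230_co

open Finset

variable {ι : Type} [DecidableEq ι]

/-- The core of depth `j`. -/
def Core (𝒞 : Finset (Finset ι)) (ins : ι → Prop) (K : ι → ℝ) (D1 : ℝ) (ω : Finset ι) :
    ℕ → ι → Prop
  | 0, _ => True
  | j + 1, e => (ins e → K e ≤ ∑ T ∈ 𝒞, ind (e ∈ T ∧ T ⊆ ω ∧
        ∀ g ∈ T, g ≠ e → ¬ ins g ∧ Core 𝒞 ins K D1 ω j g)) ∧
      (¬ ins e → cop 𝒞 ω e ≤ D1 ∧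
        ∀ T ∈ 𝒞, e ∈ T → T ⊆ ω → ∃ g ∈ T, ins g ∧ Core 𝒞 ins K D1 ω j g)

open Classical in
/-- The set `ω` without the inside elements of the core of depth `s`. -/
noncomputable def red (𝒞 : Finset (Finset ι)) (ins : ι → Prop) (K : ι → ℝ) (D1 : ℝ) (s : ℕ)
    (ω : Finset ι) : Finset ι := ω.filter fun e => ¬ (ins e ∧ Core 𝒞 ins K D1 ω s e)

/-- The cavity core of depth `j`. -/
def Kap (𝒞 : Finset (Finset ι)) (ins : ι → Prop) (K : ι → ℝ) (D1 : ℝ) (ω : Finset ι) :
    ℕ → ι → Finset ι → Prop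
  | 0, _, _ => True
  | j + 1, e, X => (ins e → K e ≤ ∑ T ∈ 𝒞, ind ((T ≠ X ∧ e ∈ T ∧ T ⊆ ω) ∧
        ∀ g ∈ T, g ≠ e → ¬ ins g ∧ Kap 𝒞 ins K D1 ω j g T)) ∧
      (¬ ins e → ∑ T ∈ 𝒞, ind (T ≠ X ∧ e ∈ T ∧ T ⊆ ω) + 1 ≤ D1 ∧
        ∀ T ∈ 𝒞, T ≠ X → e ∈ T → T ⊆ ω → ∃ g ∈ T, g ≠ e ∧ ins g ∧ Kap 𝒞 ins K D1 ω j g T)

/-- Suspect messages. -/
def Sus (𝒞 : Finset (Finset ι)) (ins : ι → Prop) (K : ι → ℝ) (D1 : ℝ) (s : ℕ) (ω : Finset ι) :
    ℕ → ι → Finset ι → Prop
  | 0, e, _ => ¬ ins e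
  | j + 1, e, X => ¬ (ins e ∧ Kap 𝒞 ins K D1 ω (j + 1) e X) ∧
      (j < s ∨ ∃ T ∈ 𝒞, T ≠ X ∧ e ∈ T ∧ T ⊆ ω ∧
        (∀ g ∈ T, g ≠ e → ¬ (ins g ∧ Kap 𝒞 ins K D1 ω j g T)) ∧
        ∃ g ∈ T, g ≠ e ∧ Sus 𝒞 ins K D1 s ω j g T)

/-- Belief propagation started from the cut. -/
def BP (𝒞 : Finset (Finset ι)) (ins : ι → Prop) (ω : Finset ι) : ℕ → ι → Finset ι → Prop
  | 0, e, _ => ¬ ins e
  | t + 1, e, X => ∀ T ∈ 𝒞, T ≠ X → e ∈ T → T ⊆ ω → ¬ ∀ g ∈ T, g ≠ e → BP 𝒞 ins ω t g T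

/-- The rule of belief propagation. -/
def bpRule (ins : ι → Prop) : Rule ι Prop where
  init e := ¬ ins e
  upd _ e c := ∀ T l, c T = some l → ¬ ∀ g ∈ T, g ≠ e → l g

/-- The update of the cavity core. -/
def kapUpd (𝒞 : Finset (Finset ι)) (ins : ι → Prop) (K : ι → ℝ) (D1 : ℝ) (e : ι)
    (c : Finset ι → Option (ι → Prop × Prop)) : Prop :=
  (ins e → K e ≤ ∑ T ∈ 𝒞, ind (∃ l, c T = some l ∧ ∀ g ∈ T, g ≠ e → ¬ ins g ∧ (l g).1)) ∧
    (¬ ins e → ∑ T ∈ 𝒞, ind (c T ≠ none) + 1 ≤ D1 ∧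
      ∀ T l, c T = some l → ∃ g ∈ T, g ≠ e ∧ ins g ∧ (l g).1)

/-- The rule of the cavity core and the suspect messages. -/
def coreRule (𝒞 : Finset (Finset ι)) (ins : ι → Prop) (K : ι → ℝ) (D1 : ℝ) (s : ℕ) :
    Rule ι (Prop × Prop) where
  init e := (True, ¬ ins e)
  upd j e c := (kapUpd 𝒞 ins K D1 e c, ¬ (ins e ∧ kapUpd 𝒞 ins K D1 e c) ∧
    (j < s ∨ ∃ T l, c T = some l ∧ (∀ g ∈ T, g ≠ e → ¬ (ins g ∧ (l g).1)) ∧
      ∃ g ∈ T, g ≠ e ∧ (l g).2))

/-- Number of free elements at depth `i`. -/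
noncomputable def freeN (𝒞 : Finset (Finset ι)) (𝓔 : Finset ι) (i : ℕ) (ω : Finset ι) : ℝ :=
  ∑ e ∈ 𝓔, ind (e ∈ ω ∧ HF 𝒞 ω i e ∅)

/-- Number of saturated members at depth `i`. -/
noncomputable def satN (𝒞 : Finset (Finset ι)) (i : ℕ) (ω : Finset ι) : ℝ :=
  ∑ T ∈ 𝒞, ind (HAll 𝒞 ω i T)

/-- The fractional indicator of the elements kept by the cover. -/
noncomputable def psi (𝒞 : Finset (Finset ι)) (t : ℕ) (ω : Finset ι) (e : ι) : ℝ :=
  ind (e ∈ ω ∧ HF 𝒞 ω (2 * t + 2) e ∅) +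
    ∑ T ∈ 𝒞, ind (e ∈ T) * (ind (HAll 𝒞 ω (2 * t + 1) T) * (1 - hwgt 𝒞 ω t T e)) -
    ∑ T ∈ 𝒞, ind (e ∈ T) * (ind (HAll 𝒞 ω (2 * t + 2) T) - ind (HAll 𝒞 ω (2 * t + 1) T))

/-- A present member through `e` whose other elements are light and not inside, meeting `Z`. -/
def GoodT (𝒞 : Finset (Finset ι)) (ins : ι → Prop) (D1 : ℝ) (ω Z : Finset ι) (e : ι)
    (T : Finset ι) : Prop :=
  e ∈ T ∧ T ⊆ ω ∧ (∀ g ∈ T, g ≠ e → ¬ ins g ∧ cop 𝒞 ω g ≤ D1) ∧ ∃ f ∈ T, f ∈ Z

/-- Kept inside elements `J` all of whose many good members are destroyed by `Z`. -/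
def JZ (𝒞 : Finset (Finset ι)) (ins : ι → Prop) (K : ι → ℝ) (D1 : ℝ) (ω ω' J Z : Finset ι) :
    Prop :=
  J ⊆ ω' ∧ (∀ e ∈ J, ins e) ∧ Z ⊆ ω ∧ Disjoint Z ω' ∧ (∀ f ∈ Z, ¬ ins f) ∧
    ∀ e ∈ J, K e ≤ ∑ T ∈ 𝒞, ind (GoodT 𝒞 ins D1 ω Z e T)

/-- The standing assumptions on a weighted hypergraph with a cut. -/
structure Big (𝒞 : Finset (Finset ι)) (𝓔 : Finset ι) (ins : ι → Prop) (q : ℝ) (k : ℕ)
    (M l : ℝ) : Prop where
  card : ∀ T ∈ 𝒞, T.card = k
  sub : ∀ T ∈ 𝒞, T ⊆ 𝓔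
  hit : ∀ T ∈ 𝒞, ∃ g ∈ T, ins g
  q0 : 0 ≤ q
  q1 : q ≤ 1
  k2 : 2 ≤ k
  M1 : 1 ≤ M
  up : ∀ e, q * ∑ T ∈ 𝒞, ind (e ∈ T) ≤ M
  low : ∀ e, ins e → l ≤ lam 𝒞 ins q e

/-- The mean number of members through `e` weighted by `z`. -/
noncomputable def rate (𝒞 : Finset (Finset ι)) (q : ℝ) (z : ι → ℝ) (e : ι) : ℝ :=
  q * ∑ T ∈ 𝒞, ind (e ∈ T) * ∏ g ∈ T.erase e, z g

/-- Iterates of the mean field recursion started from the cut. -/
noncomputable def zz (𝒞 : Finset (Finset ι)) (ins : ι → Prop) (q : ℝ) : ℕ → ι → ℝ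
  | 0, e => ind (¬ ins e)
  | j + 1, e => Real.exp (- rate 𝒞 q (zz 𝒞 ins q j) e)

/-- The function `w - w log w`. -/
noncomputable def hh (w : ℝ) : ℝ := w - w * Real.log w

/-- The total weight of the members. -/
noncomputable def tot (𝒞 : Finset (Finset ι)) (q : ℝ) (z : ι → ℝ) : ℝ :=
  q * ∑ T ∈ 𝒞, ∏ g ∈ T, z g

/-- The finite Bethe functional. -/
noncomputable def PhiN (𝒞 : Finset (Finset ι)) (𝓔 : Finset ι) (q : ℝ) (z : ι → ℝ) : ℝ :=
  ∑ e ∈ 𝓔, hh (z e) - tot 𝒞 q z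

/-- The box of admissible vectors. -/
def Box (𝓔 : Finset ι) (ins : ι → Prop) (k : ℕ) (ε : ℝ) (z : ι → ℝ) : Prop :=
  ∀ e ∈ 𝓔, 0 ≤ z e ∧ z e ≤ 1 ∧ (ins e → z e ≤ ε) ∧ (¬ ins e → 1 - 1 / (2 * (k : ℝ)) ≤ z e)

/-- The value in the upper bound. -/
noncomputable def valZ (𝒞 : Finset (Finset ι)) (𝓔 : Finset ι) (ins : ι → Prop) (q : ℝ) (k j : ℕ) :
    ℝ := ∑ e ∈ 𝓔, zz 𝒞 ins q (j + 1) e + ((k : ℝ) - 1) * tot 𝒞 q (zz 𝒞 ins q j)

/-- The value in the lower bound. -/
noncomputable def lowZ (𝒞 : Finset (Finset ι)) (𝓔 : Finset ι) (ins : ι → Prop) (q : ℝ) (k j : ℕ) :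
    ℝ := ∑ e ∈ 𝓔, zz 𝒞 ins q (j + 1) e + (2 * (k : ℝ) - 1) * tot 𝒞 q (zz 𝒞 ins q j) -
      k * tot 𝒞 q (zz 𝒞 ins q (j + 1))

end Pool.Agent.Work.MP_d4a230_co
end

-- merged part: Pool.Agent.Work.MP_d4a230_co.KFix
section
/-!
The two-variable Bethe function and its maximiser.
-/

namespace Pool.Agent.Work.MP_d4a230_co

open Finset

variable {W : Type} [Fintype W] [DecidableEq W] {H : SimpleGraph W} [DecidableRel H.Adj] {r : ℕ}

/-- The value `y` on pairs with one colour and `x` on pairs with two colours. -/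
def pw {V κ : Type} [DecidableEq κ] (π : V → κ) (x y : ℝ) (e : Sym2 V) : ℝ :=
  if (e.map π).IsDiag then y else x

/-- Product form of the Potts average. -/
noncomputable def psiF (H : SimpleGraph W) [DecidableRel H.Adj] (r : ℕ) (x y : ℝ) : ℝ :=
  (∑ χ : W → Fin r, ∏ e ∈ H.edgeFinset, pw χ x y e) / (r : ℝ) ^ Fintype.card W

/-- The derivative of the Potts average in `y`. -/
noncomputable def rin (H : SimpleGraph W) [DecidableRel H.Adj] (r : ℕ) (x y : ℝ) : ℝ :=
  (∑ χ : W → Fin r, ∑ e ∈ H.edgeFinset, ind (e.map χ).IsDiag *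
    ∏ g ∈ H.edgeFinset.erase e, pw χ x y g) / (r : ℝ) ^ Fintype.card W

/-- The derivative of the Potts average in `x`. -/
noncomputable def rcr (H : SimpleGraph W) [DecidableRel H.Adj] (r : ℕ) (x y : ℝ) : ℝ :=
  (∑ χ : W → Fin r, ∑ e ∈ H.edgeFinset, ind (¬ (e.map χ).IsDiag) *
    ∏ g ∈ H.edgeFinset.erase e, pw χ x y g) / (r : ℝ) ^ Fintype.card W

/-- The Bethe function with parameter `a = L / e(H)`. -/
noncomputable def phiF (H : SimpleGraph W) [DecidableRel H.Adj] (r : ℕ) (a x y : ℝ) : ℝ :=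
  (1 - 1 / (r : ℝ)) * hh x + 1 / (r : ℝ) * hh y - a * psiF H r x y

/-- A maximiser of the Bethe function on the unit square. -/
def IsOpt (H : SimpleGraph W) [DecidableRel H.Adj] (r : ℕ) (a x y : ℝ) : Prop :=
  (0 ≤ x ∧ x ≤ 1) ∧ (0 ≤ y ∧ y ≤ 1) ∧
    ∀ x' y', 0 ≤ x' ∧ x' ≤ 1 → 0 ≤ y' ∧ y' ≤ 1 → phiF H r a x' y' ≤ phiF H r a x y

/-- `H` is not `r`-colourable, and becomes so after deleting an edge. -/
structure ECrit (H : SimpleGraph W) (r : ℕ) : Prop where
  no : ¬ H.Colorable r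
  yes : ∃ e ∈ H.edgeSet, (H.deleteEdges {e}).Colorable r

lemma potts_eq (x y : ℝ) : potts H r x y = psiF H r x y := by
  classical
  unfold potts psiF
  rw [finsum_eq_sum_of_fintype, Nat.card_eq_fintype_card]
  congr 1
  refine Finset.sum_congr rfl fun χ _ => ?_
  have e : ∀ q : Sym2 W → Prop, {e ∈ H.edgeSet | q e}.ncard = (H.edgeFinset.filter q).card := by
    intro q
    rw [← Set.ncard_coe_finset]
    congr 1
    ext e
    simp
  unfold pw
  rw [Finset.prod_ite, Finset.prod_const, Finset.prod_const, mul_comm, e, e]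
  congr!

lemma bethe_eq (c x y : ℝ) :
    bethe H r c x y = phiF H r (copyRate H c / H.edgeFinset.card) x y := by
  unfold bethe phiF hh
  rw [potts_eq, ncard_edge]

lemma exists_opt (H : SimpleGraph W) [DecidableRel H.Adj] (r : ℕ) (a : ℝ) :
    ∃ x y, IsOpt H r a x y := by
  have hc : Continuous hh := continuous_id.sub Real.continuous_mul_log
  have h1 : Continuous fun z : ℝ × ℝ => phiF H r a z.1 z.2 := by
    unfold phiF psiF pw
    refine ((continuous_const.mul (hc.comp continuous_fst)).add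
      (continuous_const.mul (hc.comp continuous_snd))).sub (continuous_const.mul
        ((continuous_finsetSum _ fun χ _ => continuous_finsetProd _ fun e _ => ?_).div_const _))
    split_ifs
    exacts [continuous_snd, continuous_fst]
  obtain ⟨z, hz, h⟩ := ((isCompact_Icc (a := (0 : ℝ)) (b := 1)).prod
    (isCompact_Icc (a := (0 : ℝ)) (b := 1))).exists_isMaxOn
    ⟨(0, 0), ⟨le_rfl, zero_le_one⟩, le_rfl, zero_le_one⟩ h1.continuousOn
  exact ⟨z.1, z.2, hz.1, hz.2, fun x' y' hx hy => h (show (x', y') ∈ _ from ⟨hx, hy⟩)⟩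

lemma ECrit.mono (C : ECrit H r) (χ : W → Fin r) : ∃ e ∈ H.edgeFinset, (e.map χ).IsDiag := by
  by_contra h
  refine C.no ⟨SimpleGraph.Coloring.mk χ fun {a b} hab he => h ⟨s(a, b), by simpa using hab, ?_⟩⟩
  simpa using he

lemma ECrit.one (C : ECrit H r) : ∃ (χ : W → Fin r) (a b : W), H.Adj a b ∧ χ a = χ b ∧
    ∀ g ∈ H.edgeFinset, g ≠ s(a, b) → ¬ (g.map χ).IsDiag := by
  obtain ⟨e, he, ⟨χ⟩⟩ := C.yes
  have key : ∀ g ∈ H.edgeFinset, g ≠ e → ¬ (g.map χ).IsDiag := by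
    intro g hg hne
    induction g using Sym2.ind with
    | _ a b =>
      have : (H.deleteEdges {e}).Adj a b := by
        rw [SimpleGraph.deleteEdges_adj]
        exact ⟨by simpa using hg, by simpa using hne⟩
      simpa using χ.valid this
  obtain ⟨g, hg, hd⟩ := C.mono χ
  obtain rfl : g = e := by_contra fun h => key g hg h hd
  induction g using Sym2.ind with
  | _ a b => exact ⟨χ, a, b, by simpa using hg, by simpa using hd, key⟩

lemma ECrit.two_le (C : ECrit H r) (hk : 2 ≤ H.edgeFinset.card) : 2 ≤ r := by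
  obtain ⟨χ, a, b, -, -, h⟩ := C.one
  obtain ⟨g, hg, hne⟩ := Finset.exists_mem_ne (s := H.edgeFinset) hk s(a, b)
  have := h g hg hne
  induction g using Sym2.ind with
  | _ u v =>
    have h1 : χ u ≠ χ v := by simpa using this
    have := (χ u).2
    have := (χ v).2
    have h2 : (χ u).val ≠ (χ v).val := fun h => h1 (Fin.ext h)
    omega

lemma ECrit.colorable (C : ECrit H r) : H.Colorable (r + 1) := by
  classical
  have : Fintype H.edgeSet := Fintype.ofFinite _
  obtain ⟨e, he, ⟨χ⟩⟩ := C.yes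
  induction e using Sym2.ind with
  | _ a b =>
    refine ⟨SimpleGraph.Coloring.mk (fun v => if v = a then Fin.last r else (χ v).castSucc)
      fun {u v} huv => ?_⟩
    by_cases h1 : u = a <;> by_cases h2 : v = a
    · exact absurd (h1.trans h2.symm) huv.ne
    · simp only [h1, h2, if_true, if_false]
      exact (Fin.castSucc_lt_last _).ne'
    · simp only [h1, h2, if_true, if_false]
      exact (Fin.castSucc_lt_last _).ne
    · simp only [h1, h2, if_false]
      refine fun h => χ.valid (v := u) (w := v) ?_ (Fin.castSucc_injective _ h)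
      rw [SimpleGraph.deleteEdges_adj]
      refine ⟨huv, fun h3 => ?_⟩
      have h4 : a ∈ s(u, v) := by rw [Set.mem_singleton_iff.1 h3]; simp
      rcases Sym2.mem_iff.1 h4 with h5 | h5
      exacts [h1 h5.symm, h2 h5.symm]

lemma IsOpt.ge (C : ECrit H r) {a x y : ℝ} (h : IsOpt H r a x y) :
    1 - 1 / (r : ℝ) ≤ phiF H r a x y := by
  refine le_trans (le_of_eq ?_) (h.2.2 1 0 ⟨zero_le_one, le_rfl⟩ ⟨le_rfl, zero_le_one⟩)
  unfold phiF psiF hh
  rw [Finset.sum_eq_zero fun χ _ => ?_]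
  · simp
  · obtain ⟨e, he, hd⟩ := C.mono χ
    exact Finset.prod_eq_zero he (if_pos hd)

lemma phiF_le (hr : 0 < r) {a x y : ℝ} (ha : 0 ≤ a) (hx : 0 ≤ x ∧ x ≤ 1) (hy : 0 ≤ y ∧ y ≤ 1) :
    phiF H r a x y ≤ 1 := by
  have h1 : ∀ w : ℝ, 0 ≤ w → hh w ≤ 1 := by
    intro w hw
    rcases hw.eq_or_lt with rfl | hw
    · simp [hh]
    · have := Real.one_sub_inv_le_log_of_pos hw
      have h2 := mul_le_mul_of_nonneg_left this hw.le
      rw [mul_sub, mul_inv_cancel₀ hw.ne'] at h2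
      unfold hh
      linarith
  have h2 : 0 ≤ psiF H r x y := div_nonneg (Finset.sum_nonneg fun χ _ =>
    Finset.prod_nonneg fun e _ => by unfold pw; split_ifs; exacts [hy.1, hx.1]) (by positivity)
  have h3 : 1 / (r : ℝ) ≤ 1 := by
    rw [div_le_one (by exact_mod_cast hr)]; exact_mod_cast hr
  have h4 : 0 ≤ 1 / (r : ℝ) := by positivity
  unfold phiF
  nlinarith [mul_nonneg ha h2, mul_le_mul_of_nonneg_left (h1 x hx.1) (sub_nonneg.2 h3),
    mul_le_mul_of_nonneg_left (h1 y hy.1) h4]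

end Pool.Agent.Work.MP_d4a230_co
end

-- merged part: Pool.Agent.Work.MP_d4a230_co.KCount0
section
/-!
Tools for counting copies: sums over copies, embeddings, maps and colourings.
-/

namespace Pool.Agent.Work.MP_d4a230_co

open Finset

variable {W : Type} [Fintype W] [DecidableEq W] {H : SimpleGraph W} [DecidableRel H.Adj] {r : ℕ}
  {V : Type} [Fintype V] [DecidableEq V]

/-- The order of the automorphism group. -/
noncomputable def aut {W : Type} (H : SimpleGraph W) : ℝ := Nat.card (H ≃g H)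

omit [DecidableEq W] [DecidableRel H.Adj] in
lemma one_le_aut : 1 ≤ aut H := by
  have : Finite (H ≃g H) := Finite.of_injective _ RelIso.toEquiv_injective
  have : Nonempty (H ≃g H) := ⟨SimpleGraph.Iso.refl⟩
  unfold aut
  exact_mod_cast Nat.card_pos

lemma HBal.sum_copies (B : HBal H) (F : Finset (Sym2 V) → ℝ) :
    aut H * ∑ T ∈ copies H V, F T = ∑ f : W ↪ V, F (img H f) := by
  rw [← Finset.sum_fiberwise_of_maps_to (s := univ) (t := copies H V) (g := img H)
    (fun f hf => Finset.mem_image_of_mem _ hf), Finset.mul_sum]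
  refine Finset.sum_congr rfl fun T hT => ?_
  obtain ⟨f0, -, rfl⟩ := Finset.mem_image.1 hT
  rw [Finset.sum_congr rfl (g := fun _ => F (img H f0)) fun f hf => by
    rw [(Finset.mem_filter.1 hf).2], Finset.sum_const, B.fiber f0, nsmul_eq_mul, aut]

lemma sum_rooted {u v : V} (huv : u ≠ v) (G : (W ↪ V) → ℝ) :
    ∑ f : W ↪ V, ind (s(u, v) ∈ img H f) * G f =
      ∑ a, ∑ b, ind (H.Adj a b) * ∑ f : W ↪ V, ind (f a = u ∧ f b = v) * G f := by
  simp only [Finset.mul_sum, ← mul_assoc]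
  simp only [Finset.sum_comm (s := (univ : Finset W)) (t := (univ : Finset (W ↪ V))),
    ← Finset.sum_mul]
  refine Finset.sum_congr rfl fun f _ => congrArg (· * G f) ?_
  by_cases h : ∃ a b, f a = u ∧ f b = v
  · obtain ⟨a, b, rfl, rfl⟩ := h
    rw [Finset.sum_eq_single a, Finset.sum_eq_single b, ind_pos (And.intro rfl rfl), mul_one,
      ind_congr mem_img]
    · exact fun b' _ hb => mul_eq_zero_of_right _ (ind_neg fun h => hb (f.injective h.2))
    · simp
    · exact fun a' _ ha => Finset.sum_eq_zero fun b' _ =>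
        mul_eq_zero_of_right _ (ind_neg fun h => ha (f.injective h.1))
    · simp
  · refine (ind_neg fun h' => ?_).trans (Finset.sum_eq_zero fun a _ => Finset.sum_eq_zero
      fun b _ => mul_eq_zero_of_right _ (ind_neg fun h' => h ⟨a, b, h'⟩)).symm
    obtain ⟨g, -, hg⟩ := Finset.mem_image.1 h'
    induction g using Sym2.ind with
    | h a b =>
      rcases Sym2.eq_iff.1 hg with h1 | h1
      exacts [h ⟨a, b, h1⟩, h ⟨b, a, h1.symm⟩]

lemma prod_img (f : W ↪ V) (F : Sym2 V → ℝ) :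
    ∏ g ∈ img H f, F g = ∏ g ∈ H.edgeFinset, F (g.map f) := by
  exact Finset.prod_image (Sym2.map.injective f.injective).injOn

lemma prod_img_erase (f : W ↪ V) (a b : W) (F : Sym2 V → ℝ) :
    ∏ g ∈ (img H f).erase s(f a, f b), F g = ∏ g ∈ H.edgeFinset.erase s(a, b), F (g.map f) := by
  rw [img, ← Sym2.map_mk, ← Finset.image_erase (Sym2.map.injective f.injective),
    Finset.prod_image (Sym2.map.injective f.injective).injOn]

lemma pw_map {κ : Type} [DecidableEq κ] (π : V → κ) (f : W → V) (x y : ℝ) (g : Sym2 W) :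
    pw π x y (g.map f) = pw (π ∘ f) x y g := by
  unfold pw
  rw [Sym2.map_map]

omit [DecidableEq V] in
lemma KCount0_emb (G : (W → V) → ℝ) :
    ∑ f : W ↪ V, G f = ∑ f : W → V, ind (Function.Injective f) * G f := by
  classical
  refine Fintype.sum_of_injective (fun f : W ↪ V => (f : W → V)) DFunLike.coe_injective _ _
    (fun f hf => ?_) fun f => ?_
  · rw [ind_neg fun h => hf ⟨⟨f, h⟩, rfl⟩, zero_mul]
  · rw [ind_pos f.injective, one_mul]

omit [DecidableEq V] in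
lemma KCount0_card (S : Finset W) {k : ℕ} (hS : S.card = k) {Q : (W → V) → Prop}
    (hQ : ∀ f g, Q f → Q g → (∀ x ∉ S, f x = g x) → f = g) :
    ∑ f : W → V, ind (Q f) ≤ (Fintype.card V : ℝ) ^ (Fintype.card W - k) := by
  classical
  rw [sum_ind, ← hS, ← Finset.card_compl, ← Fintype.card_coe Sᶜ, ← Nat.cast_pow, ← Fintype.card_fun,
    Nat.cast_le, ← Finset.card_univ]
  exact Finset.card_le_card_of_injOn (fun f x => f x.1) (fun _ _ => mem_univ _)
    fun f hf g hg h => hQ f g (Finset.mem_filter.1 hf).2 (Finset.mem_filter.1 hg).2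
      fun x hx => congrFun h ⟨x, Finset.mem_compl.2 hx⟩

lemma KCount0_ge (Q : (W → V) → Prop) (G : (W → V) → ℝ) (h1 : ∀ f, G f ≤ 1) {K : ℝ} (hK : 0 ≤ K)
    (h : ∀ w w', w ≠ w' → ∑ f : W → V, ind (Q f ∧ f w = f w') ≤ K) :
    ∑ f : W → V, ind (Q f) * G f
      ≤ ∑ f : W ↪ V, ind (Q f) * G f + (Fintype.card W : ℝ) ^ 2 * K := by
  rw [KCount0_emb fun f => ind (Q f) * G f]
  calc _ ≤ ∑ f : W → V, (ind (Function.Injective f) * (ind (Q f) * G f) +
        ∑ p : W × W, ind (p.1 ≠ p.2) * ind (Q f ∧ f p.1 = f p.2)) := by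
        refine Finset.sum_le_sum fun f _ => ?_
        have h0 : ∀ p ∈ (univ : Finset (W × W)), 0 ≤ ind (p.1 ≠ p.2) * ind (Q f ∧ f p.1 = f p.2) :=
          fun p _ => mul_nonneg (ind_nonneg _) (ind_nonneg _)
        by_cases hf : Function.Injective f
        · rw [ind_pos hf, one_mul]
          exact le_add_of_nonneg_right (Finset.sum_nonneg h0)
        · rw [ind_neg hf, zero_mul, zero_add]
          obtain ⟨w, w', h2, h3⟩ := Function.not_injective_iff.1 hf
          refine le_trans ?_ (Finset.single_le_sum h0 (mem_univ (w, w')))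
          rw [ind_pos h3, one_mul, ind_and, ind_pos h2]
          exact mul_le_mul_of_nonneg_left (h1 f) (ind_nonneg _)
    _ ≤ _ := by
        rw [Finset.sum_add_distrib, Finset.sum_comm]
        refine add_le_add le_rfl ((Finset.sum_le_card_nsmul _ _ K fun p _ => ?_).trans_eq ?_)
        · rw [← Finset.mul_sum]
          by_cases hp : p.1 ≠ p.2
          · rw [ind_pos hp, one_mul]
            exact h _ _ hp
          · rwa [ind_neg hp, zero_mul]
        · rw [Finset.card_univ, Fintype.card_prod, nsmul_eq_mul, Nat.cast_mul, sq]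

lemma sum_emb_le (G : (W → V) → ℝ) (h0 : ∀ f, 0 ≤ G f) : ∑ f : W ↪ V, G f ≤ ∑ f : W → V, G f := by
  rw [KCount0_emb]
  exact Finset.sum_le_sum fun f _ => mul_le_of_le_one_left (h0 f) (ind_le_one _)

lemma sum_emb_ge (G : (W → V) → ℝ) (h1 : ∀ f, G f ≤ 1) :
    ∑ f : W → V, G f ≤ ∑ f : W ↪ V, G f +
      (Fintype.card W : ℝ) ^ 2 * (Fintype.card V : ℝ) ^ (Fintype.card W - 1) := by
  simpa only [ind_pos trivial, one_mul] using KCount0_ge (fun _ => True) G h1 (by positivity)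
    fun w w' hw => KCount0_card {w} (card_singleton w) fun f g hf hg h => funext fun x => by
      rcases eq_or_ne x w with rfl | hx
      · rw [hf.2, hg.2, h w' (by simpa using hw.symm)]
      · exact h x (by simpa using hx)

lemma sum_emb_ge_rooted {a b : W} {u v : V} (huv : u ≠ v) (G : (W → V) → ℝ) (h1 : ∀ f, G f ≤ 1) :
    ∑ f : W → V, ind (f a = u ∧ f b = v) * G f ≤ ∑ f : W ↪ V, ind (f a = u ∧ f b = v) * G f +
      (Fintype.card W : ℝ) ^ 2 * (Fintype.card V : ℝ) ^ (Fintype.card W - 3) := by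
  have key : ∀ w w', w ≠ w' → a ≠ b → w ≠ a → w ≠ b →
      ∑ f : W → V, ind ((f a = u ∧ f b = v) ∧ f w = f w')
        ≤ (Fintype.card V : ℝ) ^ (Fintype.card W - 3) := fun w w' hw hab ha hb =>
    KCount0_card {w, a, b} (card_eq_three.2 ⟨w, a, b, ha, hb, hab, rfl⟩) fun f g hf hg h => by
      have h' : ∀ x, x ≠ w → f x = g x := fun x hx => by
        rcases eq_or_ne x a with rfl | h1
        · rw [hf.1.1, hg.1.1]
        rcases eq_or_ne x b with rfl | h2
        · rw [hf.1.2, hg.1.2]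
        exact h x (by simp [hx, h1, h2])
      funext x
      rcases eq_or_ne x w with rfl | hx
      · rw [hf.2, hg.2, h' w' hw.symm]
      · exact h' x hx
  refine KCount0_ge (fun f => f a = u ∧ f b = v) G h1 (by positivity) fun w w' hw => ?_
  by_cases h : a ≠ b ∧ w ≠ a ∧ w ≠ b
  · exact key w w' hw h.1 h.2.1 h.2.2
  by_cases h' : a ≠ b ∧ w' ≠ a ∧ w' ≠ b
  · exact (Finset.sum_le_sum fun f _ => ind_mono fun h => ⟨h.1, h.2.symm⟩).trans
      (key w' w hw.symm h'.1 h'.2.1 h'.2.2)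
  refine (Finset.sum_eq_zero fun f _ => ind_neg fun hf => huv ?_).trans_le (by positivity)
  rw [← hf.1.1, ← hf.1.2]
  have h2 := hf.2
  grind

end Pool.Agent.Work.MP_d4a230_co
end
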