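import Pool.Agent.Work.MP_d4a230_co.KCount0

-- merged part: Pool.Agent.Work.MP_d4a230_co.KBP2
section
-- merged part: Pool.Agent.Work.MP_d4a230_co.KCount1
section
/-!
Tools for counting: sums over colourings.
-/

namespace Pool.Agent.Work.MP_d4a230_co

open Finset

variable {W : Type} [Fintype W] [DecidableEq W] {H : SimpleGraph W} [DecidableRel H.Adj] {r : ℕ}
  {V : Type} [Fintype V] [DecidableEq V]

lemma KCount1_val {A : Type} [Fintype A] (a : A) (f : A → ℝ) :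
    ∑ b, ind (a = b) * f b = f a := by
  rw [Finset.sum_eq_single_of_mem a (Finset.mem_univ _), ind_pos rfl, one_mul]
  exact fun b _ hb => by rw [ind_neg (Ne.symm hb), zero_mul]

lemma sum_maps (π : V → Fin r) (S : W → Finset V) (g : (W → Fin r) → ℝ) :
    ∑ f : W → V, ind (∀ w, f w ∈ S w) * g (π ∘ f) =
      ∑ χ : W → Fin r, g χ * ∏ w, ((S w ∩ part π (χ w)).card : ℝ) := by
  have e1 : ∀ f : W → V, ind (∀ w, f w ∈ S w) * g (π ∘ f) =
      ∑ χ : W → Fin r, g χ * ind (f ∈ Fintype.piFinset fun w => S w ∩ part π (χ w)) := by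
    intro f
    rw [← KCount1_val (π ∘ f) g, Finset.mul_sum]
    refine Finset.sum_congr rfl fun χ _ => ?_
    rw [← mul_assoc, ← ind_and, mul_comm]
    congr 1
    refine ind_congr ?_
    simp only [Fintype.mem_piFinset, Finset.mem_inter, part, Finset.mem_filter, Finset.mem_univ,
      true_and, funext_iff, Function.comp_apply, forall_and]
  simp only [e1]
  rw [Finset.sum_comm]
  refine Finset.sum_congr rfl fun χ _ => ?_
  rw [← Finset.mul_sum, sum_ind, Finset.filter_mem_eq_inter, Finset.univ_inter,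
    Fintype.card_piFinset, Nat.cast_prod]

lemma sum_maps_rooted (π : V → Fin r) {a b : W} (hab : a ≠ b) (u v : V) (S : W → Finset V)
    (g : (W → Fin r) → ℝ) :
    ∑ f : W → V, ind (f a = u ∧ f b = v) *
        (ind (∀ w ∈ (univ.erase a).erase b, f w ∈ S w) * g (π ∘ f)) =
      ∑ χ : W → Fin r, ind (χ a = π u ∧ χ b = π v) *
        (g χ * ∏ w ∈ (univ.erase a).erase b, ((S w ∩ part π (χ w)).card : ℝ)) := by
  let S' : W → Finset V := Function.update (Function.update S a {u}) b {v}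
  have ha : S' a = {u} := by simp [S', Function.update_of_ne hab]
  have hb : S' b = {v} := by simp [S']
  have hw : ∀ w ∈ (univ.erase a).erase b, S' w = S w := by
    intro w hw
    simp only [Finset.mem_erase] at hw
    simp [S', Function.update_of_ne hw.1, Function.update_of_ne hw.2.1]
  have hb' : b ∈ univ.erase a := Finset.mem_erase.mpr ⟨hab.symm, Finset.mem_univ _⟩
  have hc : ∀ (x : V) (i : Fin r), ((({x} : Finset V) ∩ part π i).card : ℝ) = ind (i = π x) := by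
    intro x i
    by_cases h : i = π x
    · rw [ind_pos h, Finset.singleton_inter_of_mem (by simp [part, h])]; simp
    · rw [ind_neg h, Finset.singleton_inter_of_notMem (by simpa [part] using Ne.symm h)]; simp
  have h := sum_maps π S' g
  refine Eq.trans (Finset.sum_congr rfl fun f _ => ?_)
    (h.trans (Finset.sum_congr rfl fun χ _ => ?_))
  · rw [← mul_assoc, ← ind_and]
    congr 1
    refine ind_congr ⟨fun h w => ?_, fun h => ⟨⟨?_, ?_⟩, fun w hw' => ?_⟩⟩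
    · by_cases h1 : w = a
      · rw [h1, ha, h.1.1]; exact Finset.mem_singleton_self _
      · by_cases h2 : w = b
        · rw [h2, hb, h.1.2]; exact Finset.mem_singleton_self _
        · have h3 : w ∈ (univ.erase a).erase b := by simp [h1, h2]
          rw [hw w h3]
          exact h.2 w h3
    · simpa [ha] using h a
    · simpa [hb] using h b
    · rw [← hw w hw']; exact h w
  · rw [← Finset.mul_prod_erase univ _ (Finset.mem_univ a), ← Finset.mul_prod_erase _ _ hb', ha, hb,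
      hc, hc, ind_and, Finset.prod_congr rfl fun w hw' => by rw [hw w hw']]
    ring

/-- Functions of a colouring invariant under the permutations of the colours. -/
def ColInv (g : (W → Fin r) → ℝ) : Prop := ∀ (τ : Equiv.Perm (Fin r)) χ, g (τ ∘ χ) = g χ

lemma KCount1_perm {g : (W → Fin r) → ℝ} (h : ColInv g) (τ : Equiv.Perm (Fin r))
    (a b : W) (i j : Fin r) : ∑ χ, ind (χ a = τ i ∧ χ b = τ j) * g χ =
      ∑ χ, ind (χ a = i ∧ χ b = j) * g χ := by
  rw [← Equiv.sum_comp (Equiv.arrowCongr (Equiv.refl W) τ)]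
  refine Finset.sum_congr rfl fun χ _ => ?_
  have e : (Equiv.arrowCongr (Equiv.refl W) τ) χ = τ ∘ χ := rfl
  rw [e, h]
  simp only [Function.comp_apply, EmbeddingLike.apply_eq_iff_eq]

lemma KCount1_same {g : (W → Fin r) → ℝ} (h : ColInv g) (a b : W) (i : Fin r) :
    r * ∑ χ, ind (χ a = i ∧ χ b = i) * g χ = ∑ χ, ind (χ a = χ b) * g χ := by
  have e1 : ∀ χ : W → Fin r, ind (χ a = χ b) * g χ = ∑ j, ind (χ a = j ∧ χ b = j) * g χ := by
    intro χ
    rw [← Finset.sum_mul]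
    congr 1
    simp only [ind_and]
    rw [KCount1_val (χ a) fun j => ind (χ b = j)]
    exact ind_congr eq_comm
  simp only [e1]
  rw [Finset.sum_comm]
  have e2 : ∀ j, ∑ χ, ind (χ a = j ∧ χ b = j) * g χ = ∑ χ, ind (χ a = i ∧ χ b = i) * g χ := by
    intro j
    have := KCount1_perm h (Equiv.swap i j) a b i i
    rwa [Equiv.swap_apply_left] at this
  simp only [e2]
  rw [Finset.sum_const, Finset.card_univ, Fintype.card_fin, nsmul_eq_mul]

lemma ColInv.one {g : (W → Fin r) → ℝ} (h : ColInv g) (a : W) (i : Fin r) :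
    r * ∑ χ, ind (χ a = i) * g χ = ∑ χ, g χ := by
  have := KCount1_same h a a i
  simpa only [and_self, ind_pos, one_mul] using this

lemma ColInv.same {g : (W → Fin r) → ℝ} (h : ColInv g) (a b : W) (i : Fin r) :
    r * ∑ χ, ind (χ a = i ∧ χ b = i) * g χ = ∑ χ, ind (χ a = χ b) * g χ :=
  KCount1_same h a b i

lemma ColInv.diff {g : (W → Fin r) → ℝ} (h : ColInv g) (a b : W) {i j : Fin r} (hij : i ≠ j) :
    r * ((r : ℝ) - 1) * ∑ χ, ind (χ a = i ∧ χ b = j) * g χ = ∑ χ, ind (χ a ≠ χ b) * g χ := by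
  have e1 : ∀ χ : W → Fin r, ind (χ a ≠ χ b) * g χ =
      ∑ k, ∑ l ∈ univ.erase k, ind (χ a = k ∧ χ b = l) * g χ := by
    intro χ
    simp only [← Finset.sum_mul]
    congr 1
    simp only [ind_and, ← Finset.mul_sum]
    rw [KCount1_val (χ a) fun k => ∑ l ∈ univ.erase k, ind (χ b = l)]
    by_cases hc : χ a = χ b
    · rw [ind_neg (not_not.mpr hc), eq_comm]
      refine Finset.sum_eq_zero fun l hl => ind_neg fun hl' => ?_
      exact (Finset.mem_erase.mp hl).1 (hl'.symm.trans hc.symm)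
    · rw [ind_pos hc, Finset.sum_eq_single_of_mem (χ b)
        (Finset.mem_erase.mpr ⟨Ne.symm hc, Finset.mem_univ _⟩), ind_pos rfl]
      exact fun l _ hl => ind_neg (Ne.symm hl)
  simp only [e1]
  rw [Finset.sum_comm]
  have e2 : ∀ k, ∑ χ, ∑ l ∈ univ.erase k, ind (χ a = k ∧ χ b = l) * g χ =
      ((r : ℝ) - 1) * ∑ χ, ind (χ a = i ∧ χ b = j) * g χ := by
    intro k
    rw [Finset.sum_comm]
    have e3 : ∀ l ∈ univ.erase k, ∑ χ, ind (χ a = k ∧ χ b = l) * g χ =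
        ∑ χ, ind (χ a = i ∧ χ b = j) * g χ := by
      intro l hl
      have hl' : l ≠ k := (Finset.mem_erase.mp hl).1
      have h1 : Equiv.swap i k j ≠ k := by
        intro h'
        exact hij ((Equiv.swap i k).injective ((Equiv.swap_apply_left i k).trans h'.symm))
      have := KCount1_perm h (Equiv.swap (Equiv.swap i k j) l * Equiv.swap i k) a b i j
      rwa [Equiv.Perm.mul_apply, Equiv.Perm.mul_apply, Equiv.swap_apply_left,
        Equiv.swap_apply_left, Equiv.swap_apply_of_ne_of_ne h1.symm hl'.symm] at this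
    rw [Finset.sum_congr rfl e3, Finset.sum_const, Finset.card_erase_of_mem (Finset.mem_univ _),
      Finset.card_univ, Fintype.card_fin, nsmul_eq_mul, Nat.cast_pred k.pos]
  simp only [e2]
  rw [Finset.sum_const, Finset.card_univ, Fintype.card_fin, nsmul_eq_mul, mul_assoc]

lemma colInv_pw (s : Finset (Sym2 W)) (x y : ℝ) :
    ColInv fun χ : W → Fin r => ∏ g ∈ s, pw χ x y g := by
  intro τ χ
  refine Finset.prod_congr rfl fun e _ => ?_
  induction e using Sym2.ind with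
  | h a b => simp [pw]

lemma sum_edges (F : Sym2 W → ℝ) :
    ∑ a, ∑ b, ind (H.Adj a b) * F s(a, b) = 2 * ∑ e ∈ H.edgeFinset, F e := by
  have h := handshake (V := W) fun e => ind (e ∈ H.edgeFinset) * F e
  have e1 : ∑ e ∈ univ.filter (fun e : Sym2 W => ¬ e.IsDiag), ind (e ∈ H.edgeFinset) * F e =
      ∑ e ∈ H.edgeFinset, F e := by
    rw [← Finset.sum_subset (s₁ := H.edgeFinset)]
    · exact Finset.sum_congr rfl fun e he => by rw [ind_pos he, one_mul]
    · intro e he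
      exact Finset.mem_filter.mpr ⟨Finset.mem_univ _,
        H.not_isDiag_of_mem_edgeSet (SimpleGraph.mem_edgeFinset.mp he)⟩
    · intro e _ he
      rw [ind_neg he, zero_mul]
  rw [← e1, ← h]
  refine Finset.sum_congr rfl fun a _ => ?_
  rw [← Finset.add_sum_erase univ _ (Finset.mem_univ a), ind_neg H.irrefl, zero_mul, zero_add]
  refine Finset.sum_congr rfl fun b _ => ?_
  congr 1
  exact ind_congr (by simp)

lemma sum_part (π : V → Fin r) : ∑ i, ((part π i).card : ℝ) = Fintype.card V := by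
  have h := Finset.card_eq_sum_card_fiberwise (f := π) (s := univ) (t := univ)
    (fun _ _ => Finset.mem_univ _)
  rw [← Finset.card_univ, h, Nat.cast_sum]
  rfl

lemma card_offd : 2 * ((offd V).card : ℝ) = (Fintype.card V : ℝ) ^ 2 - Fintype.card V := by
  have h := handshake (V := V) fun _ => (1 : ℝ)
  have e1 : ∀ v : V, ∑ a ∈ univ.erase v, (1 : ℝ) = (Fintype.card V : ℝ) - 1 := by
    intro v
    have := Finset.add_sum_erase univ (fun _ : V => (1 : ℝ)) (Finset.mem_univ v)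
    simp only [Finset.sum_const, Finset.card_univ, nsmul_eq_mul, mul_one] at this ⊢
    linarith
  simp only [e1] at h
  simp only [Finset.sum_const, Finset.card_univ, nsmul_eq_mul, mul_one] at h
  unfold offd
  rw [← h]
  ring

lemma count_ins (π : V → Fin r) : 2 * ∑ e ∈ offd V, ind (Ins π e) =
    ∑ i, ((part π i).card : ℝ) ^ 2 - Fintype.card V := by
  have h := handshake (V := V) fun e => ind (Ins π e)
  have e1 : ∀ v : V, ∑ a ∈ univ.erase v, ind (Ins π s(v, a)) =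
      ((part π (π v)).card : ℝ) - 1 := by
    intro v
    have h1 := Finset.add_sum_erase univ (fun a : V => ind (π a = π v)) (Finset.mem_univ v)
    rw [ind_pos rfl, sum_ind univ] at h1
    have h2 : ∑ a ∈ univ.erase v, ind (Ins π s(v, a)) = ∑ a ∈ univ.erase v, ind (π a = π v) := by
      refine Finset.sum_congr rfl fun a ha => ind_congr ?_
      have ha' : v ≠ a := (Finset.mem_erase.mp ha).1.symm
      simp only [Ins, Sym2.map_mk, Sym2.mk_isDiag_iff, ha', not_false_eq_true, true_and]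
      exact eq_comm
    rw [h2]
    unfold part
    linarith
  have e2 : ∑ v, ((part π (π v)).card : ℝ) = ∑ i, ((part π i).card : ℝ) ^ 2 := by
    rw [← Finset.sum_fiberwise univ π]
    refine Finset.sum_congr rfl fun i _ => ?_
    rw [Finset.sum_congr rfl (g := fun _ => ((part π i).card : ℝ))
      fun v hv => by rw [(Finset.mem_filter.mp hv).2], Finset.sum_const, nsmul_eq_mul, sq]
    rfl
  simp only [e1] at h
  unfold offd
  rw [← h, Finset.sum_sub_distrib, e2]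
  simp

lemma Bal.mono {π : V → Fin r} {σ σ' : ℝ} (h : Bal π σ) (hσ : σ ≤ σ') : Bal π σ' :=
  fun i => (h i).trans (mul_le_mul_of_nonneg_right hσ (Nat.cast_nonneg _))

end Pool.Agent.Work.MP_d4a230_co
end

-- merged part: Pool.Agent.Work.MP_d4a230_co.KBP
section
/-!
The mean field recursion: contraction on the box.
-/

namespace Pool.Agent.Work.MP_d4a230_co

open Finset

variable {ι : Type} [DecidableEq ι] {𝒞 : Finset (Finset ι)} {𝓔 : Finset ι}
  {ins : ι → Prop} {q M l ε : ℝ} {k : ℕ}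

lemma KBP_mul_sub {a b Z W : ℝ} (hb : 0 ≤ b) (hZ0 : 0 ≤ Z) (hZ1 : Z ≤ 1) :
    |a * Z - b * W| ≤ |a - b| + b * |Z - W| := by
  have h : a * Z - b * W = (a - b) * Z + b * (Z - W) := by ring
  rw [h]
  refine (abs_add_le _ _).trans ?_
  rw [abs_mul, abs_mul, abs_of_nonneg hZ0, abs_of_nonneg hb]
  have := mul_le_of_le_one_right (abs_nonneg (a - b)) hZ1
  linarith

lemma abs_prod_sub_le {s : Finset ι} {z w : ι → ℝ} (hz : ∀ g ∈ s, 0 ≤ z g ∧ z g ≤ 1)
    (hw : ∀ g ∈ s, 0 ≤ w g ∧ w g ≤ 1) :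
    |∏ g ∈ s, z g - ∏ g ∈ s, w g| ≤ ∑ g ∈ s, |z g - w g| := by
  induction s using Finset.induction_on with
  | empty => simp
  | insert a s ha ih =>
    rw [prod_insert ha, prod_insert ha, sum_insert ha]
    have hz' : ∀ g ∈ s, 0 ≤ z g ∧ z g ≤ 1 := fun g hg => hz g (mem_insert_of_mem hg)
    have hw' : ∀ g ∈ s, 0 ≤ w g ∧ w g ≤ 1 := fun g hg => hw g (mem_insert_of_mem hg)
    have hwa := hw a (mem_insert_self _ _)
    refine (KBP_mul_sub hwa.1 (prod_nonneg fun g hg => (hz' g hg).1)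
      (prod_le_one (fun g hg => (hz' g hg).1) fun g hg => (hz' g hg).2)).trans ?_
    have h1 := mul_le_of_le_one_left (abs_nonneg (∏ g ∈ s, z g - ∏ g ∈ s, w g)) hwa.2
    linarith [ih hz' hw']

lemma KBP_prod_sub {s : Finset ι} {z w : ι → ℝ} (hz : ∀ g ∈ s, 0 ≤ z g ∧ z g ≤ 1)
    (hw : ∀ g ∈ s, 0 ≤ w g ∧ w g ≤ 1) {d : ℝ} (hd0 : 0 ≤ d) (hd : ∀ g ∈ s, |z g - w g| ≤ d)
    (hs : s.card ≤ k) : |∏ g ∈ s, z g - ∏ g ∈ s, w g| ≤ k * d := by
  refine (abs_prod_sub_le hz hw).trans ((sum_le_card_nsmul _ _ _ hd).trans ?_)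
  rw [nsmul_eq_mul]
  exact mul_le_mul_of_nonneg_right (by exact_mod_cast hs) hd0

lemma KBP_sum_le (B : Big 𝒞 𝓔 ins q k M l) (e : ι) (f : Finset ι → ℝ) {c : ℝ} (hc : 0 ≤ c)
    (h : ∀ T ∈ 𝒞, e ∈ T → f T ≤ c) : q * ∑ T ∈ 𝒞, ind (e ∈ T) * f T ≤ M * c := by
  have h1 : ∑ T ∈ 𝒞, ind (e ∈ T) * f T ≤ (∑ T ∈ 𝒞, ind (e ∈ T)) * c := by
    rw [sum_mul]
    refine sum_le_sum fun T hT => ?_
    by_cases he : e ∈ T
    · rw [ind_pos he, one_mul, one_mul]
      exact h T hT he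
    · rw [ind_neg he, zero_mul, zero_mul]
  refine (mul_le_mul_of_nonneg_left h1 B.q0).trans ?_
  rw [← mul_assoc]
  exact mul_le_mul_of_nonneg_right (B.up e) hc

lemma KBP_rate_sub (B : Big 𝒞 𝓔 ins q k M l) (z w : ι → ℝ) (e : ι) {c : ℝ} (hc : 0 ≤ c)
    (h : ∀ T ∈ 𝒞, e ∈ T → |∏ g ∈ T.erase e, z g - ∏ g ∈ T.erase e, w g| ≤ c) :
    |rate 𝒞 q z e - rate 𝒞 q w e| ≤ M * c := by
  refine le_trans ?_ (KBP_sum_le B e _ hc h)
  unfold rate
  rw [← mul_sub, ← sum_sub_distrib, abs_mul, abs_of_nonneg B.q0]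
  refine mul_le_mul_of_nonneg_left ((abs_sum_le_sum_abs _ _).trans (le_of_eq ?_)) B.q0
  refine sum_congr rfl fun T _ => ?_
  rw [← mul_sub, abs_mul, abs_of_nonneg (ind_nonneg _)]

lemma Big.rate_mem (B : Big 𝒞 𝓔 ins q k M l) {z : ι → ℝ} (hz : ∀ g ∈ 𝓔, 0 ≤ z g ∧ z g ≤ 1)
    (e : ι) : 0 ≤ rate 𝒞 q z e ∧ rate 𝒞 q z e ≤ M := by
  constructor
  · exact mul_nonneg B.q0 (sum_nonneg fun T hT => mul_nonneg (ind_nonneg _)
      (prod_nonneg fun g hg => (hz g (B.sub T hT (mem_of_mem_erase hg))).1))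
  · have := KBP_sum_le B e (fun T => ∏ g ∈ T.erase e, z g) zero_le_one fun T hT _ =>
      prod_le_one (fun g hg => (hz g (B.sub T hT (mem_of_mem_erase hg))).1)
        fun g hg => (hz g (B.sub T hT (mem_of_mem_erase hg))).2
    rwa [mul_one] at this

lemma Big.sum_rate (B : Big 𝒞 𝓔 ins q k M l) (z : ι → ℝ) :
    ∑ e ∈ 𝓔, z e * rate 𝒞 q z e = k * tot 𝒞 q z := by
  unfold rate tot
  simp only [mul_sum]
  rw [sum_comm]
  refine sum_congr rfl fun T hT => ?_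
  rw [← sum_subset (B.sub T hT) (fun e _ he => by rw [ind_neg he]; simp),
    sum_congr rfl (g := fun _ => q * ∏ g ∈ T, z g) (fun e he => by
      rw [ind_pos he, ← mul_prod_erase T z he]
      ring), sum_const, B.card T hT, nsmul_eq_mul]

lemma KBP_count (B : Big 𝒞 𝓔 ins q k M l) : k * (q * 𝒞.card) ≤ 𝓔.card * M := by
  have h := B.sum_rate fun _ => 1
  have h1 : tot 𝒞 q (fun _ => 1) = q * 𝒞.card := by simp [tot]
  rw [h1] at h
  rw [← h, ← nsmul_eq_mul]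
  refine sum_le_card_nsmul _ _ _ fun e _ => ?_
  rw [one_mul]
  exact (B.rate_mem (fun _ _ => ⟨zero_le_one, le_rfl⟩) e).2

lemma Big.tot_sub (B : Big 𝒞 𝓔 ins q k M l) {z w : ι → ℝ} (hz : ∀ g ∈ 𝓔, 0 ≤ z g ∧ z g ≤ 1)
    (hw : ∀ g ∈ 𝓔, 0 ≤ w g ∧ w g ≤ 1) {d : ℝ} (hd : ∀ g ∈ 𝓔, |z g - w g| ≤ d) :
    |tot 𝒞 q z - tot 𝒞 q w| ≤ 𝓔.card * (M * d) := by
  rcases 𝓔.eq_empty_or_nonempty with h | ⟨e, he⟩
  · have h1 : 𝒞 = ∅ := by
      refine eq_empty_of_forall_notMem fun T hT => ?_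
      obtain ⟨g, hg, -⟩ := B.hit T hT
      have := B.sub T hT hg
      rw [h] at this
      exact notMem_empty _ this
    simp [tot, h, h1]
  · have hd0 : 0 ≤ d := (abs_nonneg _).trans (hd e he)
    unfold tot
    rw [← mul_sub, ← sum_sub_distrib, abs_mul, abs_of_nonneg B.q0]
    have h1 : |∑ T ∈ 𝒞, (∏ g ∈ T, z g - ∏ g ∈ T, w g)| ≤ 𝒞.card * (k * d) := by
      rw [← nsmul_eq_mul]
      refine (abs_sum_le_sum_abs _ _).trans (sum_le_card_nsmul _ _ _ fun T hT => ?_)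
      exact KBP_prod_sub (fun g hg => hz g (B.sub T hT hg)) (fun g hg => hw g (B.sub T hT hg)) hd0
        (fun g hg => hd g (B.sub T hT hg)) (B.card T hT).le
    refine (mul_le_mul_of_nonneg_left h1 B.q0).trans ?_
    have := mul_le_mul_of_nonneg_right (KBP_count B) hd0
    linarith

lemma Big.count_le (B : Big 𝒞 𝓔 ins q k M l) : k * (q * 𝒞.card) ≤ 𝓔.card * M :=
  KBP_count B

omit [DecidableEq ι] in
lemma KBP_num (B : Big 𝒞 𝓔 ins q k M l) (e1 : Real.exp (-(l / 2)) ≤ ε)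
    (e2 : 64 * (k : ℝ) ^ 2 * M ^ 2 * ε ≤ 1) :
    0 < ε ∧ (2 : ℝ) ≤ k ∧ 2 ≤ k * M ∧ 128 * (k * M * ε) ≤ 1 := by
  have h0 : 0 < ε := (Real.exp_pos _).trans_le e1
  have hk : (2 : ℝ) ≤ k := by exact_mod_cast B.k2
  have hM := B.M1
  have h1 : (2 : ℝ) ≤ k * M := by nlinarith only [hk, hM]
  refine ⟨h0, hk, h1, ?_⟩
  have h2 : 0 ≤ (k * M - 2) * (k * M * ε) := mul_nonneg (by linarith) (by positivity)
  nlinarith only [e2, h2]

lemma KBP_inside (B : Big 𝒞 𝓔 ins q k M l) {e : ι} (he : ¬ ins e) {T : Finset ι} (hT : T ∈ 𝒞) :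
    ∃ g ∈ T.erase e, ins g := by
  obtain ⟨g, hg, hi⟩ := B.hit T hT
  refine ⟨g, mem_erase.mpr ⟨?_, hg⟩, hi⟩
  rintro rfl
  exact he hi

omit [DecidableEq ι] in
lemma KBP_box {z : ι → ℝ} (hz : Box 𝓔 ins k ε z) : ∀ g ∈ 𝓔, 0 ≤ z g ∧ z g ≤ 1 :=
  fun g hg => ⟨(hz g hg).1, (hz g hg).2.1⟩

lemma Big.box_step (B : Big 𝒞 𝓔 ins q k M l) (e1 : Real.exp (-(l / 2)) ≤ ε)
    (e2 : 64 * (k : ℝ) ^ 2 * M ^ 2 * ε ≤ 1) {z : ι → ℝ} (hz : Box 𝓔 ins k ε z) :
    Box 𝓔 ins k ε fun e => Real.exp (- rate 𝒞 q z e) := by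
  obtain ⟨h0, hk, hkM, hε⟩ := KBP_num B e1 e2
  have hz' := KBP_box hz
  intro e he
  have hr := B.rate_mem hz' e
  refine ⟨(Real.exp_pos _).le, Real.exp_le_one_iff.mpr (by linarith [hr.1]), fun hi => ?_,
    fun hi => ?_⟩
  · refine le_trans (Real.exp_le_exp.mpr ?_) e1
    have h1 : lam 𝒞 ins q e / 2 ≤ rate 𝒞 q z e := by
      unfold lam rate
      rw [mul_div_assoc, sum_div]
      refine mul_le_mul_of_nonneg_left (sum_le_sum fun T hT => ?_) B.q0
      have hs : ∀ g ∈ T.erase e, 0 ≤ z g ∧ z g ≤ 1 :=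
        fun g hg => hz' g (B.sub T hT (mem_of_mem_erase hg))
      by_cases h : e ∈ T ∧ OneIn ins e T
      · rw [ind_pos h, ind_pos h.1, one_mul]
        have h2 := KBP_prod_sub (k := k) (w := fun _ => 1) hs (fun _ _ => ⟨zero_le_one, le_rfl⟩)
          (d := 1 / (2 * (k : ℝ))) (by positivity) (fun g hg => by
            have h3 := (hz g (B.sub T hT (mem_of_mem_erase hg))).2.2.2
              (h.2 g (mem_of_mem_erase hg) (ne_of_mem_erase hg))
            rw [abs_sub_comm, abs_of_nonneg (by linarith [(hs g hg).2])]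
            linarith) (card_erase_le.trans (B.card T hT).le)
        have h4 : (k : ℝ) * (1 / (2 * (k : ℝ))) = 1 / 2 := by field_simp
        rw [h4, prod_const_one] at h2
        linarith only [h2, (abs_le.mp h2).1]
      · rw [ind_neg h, zero_div]
        exact mul_nonneg (ind_nonneg _) (prod_nonneg fun g hg => (hs g hg).1)
    linarith [B.low e hi]
  · have h1 : rate 𝒞 q z e ≤ M * ε := by
      refine KBP_sum_le B e (fun T => ∏ g ∈ T.erase e, z g) h0.le fun T hT _ => ?_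
      obtain ⟨g, hg, hgi⟩ := KBP_inside B hi hT
      have hs : ∀ g ∈ T.erase e, 0 ≤ z g ∧ z g ≤ 1 :=
        fun g hg => hz' g (B.sub T hT (mem_of_mem_erase hg))
      rw [← mul_prod_erase _ z hg]
      refine (mul_le_of_le_one_right (hs g hg).1 (prod_le_one
        (fun g hg => (hs g (mem_of_mem_erase hg)).1)
        fun g hg => (hs g (mem_of_mem_erase hg)).2)).trans ?_
      exact (hz g (B.sub T hT (mem_of_mem_erase hg))).2.2.1 hgi
    have h2 : M * ε ≤ 1 / (2 * (k : ℝ)) := by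
      rw [le_div_iff₀ (by positivity)]
      have : 0 ≤ k * M * ε := by positivity
      linarith
    linarith [Real.add_one_le_exp (- rate 𝒞 q z e)]

lemma Big.zz_box (B : Big 𝒞 𝓔 ins q k M l) (e1 : Real.exp (-(l / 2)) ≤ ε)
    (e2 : 64 * (k : ℝ) ^ 2 * M ^ 2 * ε ≤ 1) (j : ℕ) : Box 𝓔 ins k ε (zz 𝒞 ins q j) := by
  induction j with
  | zero =>
    obtain ⟨h0, hk, -, -⟩ := KBP_num B e1 e2
    intro e _
    refine ⟨ind_nonneg _, ind_le_one _, fun hi => ?_, fun hi => ?_⟩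
    · rw [zz, ind_neg (not_not.mpr hi)]
      exact h0.le
    · rw [zz, ind_pos hi]
      have : 0 ≤ 1 / (2 * (k : ℝ)) := by positivity
      linarith
  | succ j ih => exact B.box_step e1 e2 ih

lemma KBP_exp {a b c : ℝ} (ha : Real.exp (-a) ≤ c) (hb : Real.exp (-b) ≤ c) :
    |Real.exp (-a) - Real.exp (-b)| ≤ c * |a - b| := by
  wlog h : a ≤ b generalizing a b
  · rw [abs_sub_comm, abs_sub_comm a]
    exact this hb ha (le_of_not_ge h)
  have h1 : Real.exp (-b) ≤ Real.exp (-a) := Real.exp_le_exp.mpr (by linarith)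
  rw [abs_of_nonneg (by linarith), abs_sub_comm, abs_of_nonneg (by linarith)]
  have h2 : Real.exp (-b) = Real.exp (-a) * Real.exp (-(b - a)) := by
    rw [← Real.exp_add]
    congr 1
    ring
  have h3 := mul_le_mul_of_nonneg_left (Real.add_one_le_exp (-(b - a))) (Real.exp_pos (-a)).le
  have h4 := mul_le_mul_of_nonneg_right ha (sub_nonneg.mpr h)
  linarith

/-- Contraction in the weighted norm. -/
lemma Big.contract (B : Big 𝒞 𝓔 ins q k M l) (e1 : Real.exp (-(l / 2)) ≤ ε)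
    (e2 : 64 * (k : ℝ) ^ 2 * M ^ 2 * ε ≤ 1) {z w : ι → ℝ} (hz : Box 𝓔 ins k ε z)
    (hw : Box 𝓔 ins k ε w) {N : ℝ} (h1 : ∀ e ∈ 𝓔, |z e - w e| ≤ N)
    (h2 : ∀ e ∈ 𝓔, ins e → 4 * k * M * |z e - w e| ≤ N) :
    ∀ e ∈ 𝓔, |Real.exp (- rate 𝒞 q z e) - Real.exp (- rate 𝒞 q w e)| ≤ N / 2 ∧
      (ins e → 4 * k * M * |Real.exp (- rate 𝒞 q z e) - Real.exp (- rate 𝒞 q w e)| ≤ N / 2) := by
  obtain ⟨h0, hk, hkM, hε⟩ := KBP_num B e1 e2
  have hz' := KBP_box hz
  have hw' := KBP_box hw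
  have hM := B.M1
  intro e he
  have hN : 0 ≤ N := (abs_nonneg _).trans (h1 e he)
  have bz := B.box_step e1 e2 hz e he
  have bw := B.box_step e1 e2 hw e he
  by_cases hi : ins e
  · have h3 : |rate 𝒞 q z e - rate 𝒞 q w e| ≤ M * (k * N) :=
      KBP_rate_sub B z w e (by positivity) fun T hT _ =>
        KBP_prod_sub (fun g hg => hz' g (B.sub T hT (mem_of_mem_erase hg)))
          (fun g hg => hw' g (B.sub T hT (mem_of_mem_erase hg))) hN
          (fun g hg => h1 g (B.sub T hT (mem_of_mem_erase hg)))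
          (card_erase_le.trans (B.card T hT).le)
    have h4 := (KBP_exp (bz.2.2.1 hi) (bw.2.2.1 hi)).trans (mul_le_mul_of_nonneg_left h3 h0.le)
    have h5 := mul_le_mul_of_nonneg_right hε hN
    have h6 := mul_le_mul_of_nonneg_right e2 hN
    have h7 := mul_le_mul_of_nonneg_left h4 (show 0 ≤ 4 * k * M by positivity)
    exact ⟨by linarith, fun _ => by linarith only [hN, h6, h7]⟩
  · refine ⟨?_, fun h => absurd h hi⟩
    have h3 : |rate 𝒞 q z e - rate 𝒞 q w e| ≤ M * (N / (4 * k * M) + ε * (k * N)) := by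
      refine KBP_rate_sub B z w e (by positivity) fun T hT _ => ?_
      obtain ⟨g, hg, hgi⟩ := KBP_inside B hi hT
      have hs : ∀ g' ∈ (T.erase e).erase g, g' ∈ 𝓔 :=
        fun g' hg' => B.sub T hT (mem_of_mem_erase (mem_of_mem_erase hg'))
      have hgE : g ∈ 𝓔 := B.sub T hT (mem_of_mem_erase hg)
      rw [← mul_prod_erase _ z hg, ← mul_prod_erase _ w hg]
      refine (KBP_mul_sub (hw' g hgE).1 (prod_nonneg fun g' hg' => (hz' g' (hs g' hg')).1)
        (prod_le_one (fun g' hg' => (hz' g' (hs g' hg')).1)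
          fun g' hg' => (hz' g' (hs g' hg')).2)).trans (add_le_add ?_ ?_)
      · rw [le_div_iff₀ (by positivity), mul_comm]
        exact h2 g hgE hgi
      · exact mul_le_mul ((hw g hgE).2.2.1 hgi)
          (KBP_prod_sub (fun g' hg' => hz' g' (hs g' hg')) (fun g' hg' => hw' g' (hs g' hg')) hN
            (fun g' hg' => h1 g' (hs g' hg'))
            (card_erase_le.trans (card_erase_le.trans (B.card T hT).le))) (abs_nonneg _) h0.le
    have h4 := KBP_exp bz.2.1 bw.2.1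
    have h5 := mul_le_mul_of_nonneg_right hε hN
    have h6 : M * (N / (4 * k * M)) ≤ N / 8 := by
      rw [show M * (N / (4 * k * M)) = N / (4 * k) by field_simp]
      gcongr
      linarith
    linarith only [hN, h3, h4, h5, h6]

omit [DecidableEq ι] in
lemma KBP_one {z w : ι → ℝ} (hz : Box 𝓔 ins k ε z) (hw : Box 𝓔 ins k ε w) {e : ι} (he : e ∈ 𝓔) :
    |z e - w e| ≤ 1 :=
  abs_le.mpr ⟨by linarith [(hz e he).1, (hw e he).2.1], by linarith [(hz e he).2.1, (hw e he).1]⟩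

theorem Big.zz_diff (B : Big 𝒞 𝓔 ins q k M l) (e1 : Real.exp (-(l / 2)) ≤ ε)
    (e2 : 64 * (k : ℝ) ^ 2 * M ^ 2 * ε ≤ 1) (j : ℕ) :
    ∀ e ∈ 𝓔, |zz 𝒞 ins q (j + 1) e - zz 𝒞 ins q j e| ≤ 4 * k * M / 2 ^ j := by
  obtain ⟨-, -, hkM, -⟩ := KBP_num B e1 e2
  have key : ∀ e ∈ 𝓔, |zz 𝒞 ins q (j + 1) e - zz 𝒞 ins q j e| ≤ 4 * k * M / 2 ^ j ∧
      (ins e → 4 * k * M * |zz 𝒞 ins q (j + 1) e - zz 𝒞 ins q j e| ≤ 4 * k * M / 2 ^ j) := by
    induction j with
    | zero =>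
      intro e he
      have h := KBP_one (B.zz_box e1 e2 (0 + 1)) (B.zz_box e1 e2 0) he
      rw [pow_zero, div_one]
      exact ⟨by linarith, fun _ => mul_le_of_le_one_right (by linarith) h⟩
    | succ j ih =>
      have h := B.contract e1 e2 (B.zz_box e1 e2 (j + 1)) (B.zz_box e1 e2 j)
        (fun e he => (ih e he).1) fun e he => (ih e he).2
      rw [div_div, ← pow_succ] at h
      exact h
  exact fun e he => (key e he).1

theorem Big.zz_near (B : Big 𝒞 𝓔 ins q k M l) (e1 : Real.exp (-(l / 2)) ≤ ε)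
    (e2 : 64 * (k : ℝ) ^ 2 * M ^ 2 * ε ≤ 1) {a : ι → ℝ} (ha : Box 𝓔 ins k ε a) {ρ : ℝ}
    (hρ : ∀ e ∈ 𝓔, |Real.exp (- rate 𝒞 q a e) - a e| ≤ ρ) (j : ℕ) :
    ∀ e ∈ 𝓔, |zz 𝒞 ins q j e - a e| ≤ 4 * k * M / 2 ^ j + 8 * k * M * ρ := by
  obtain ⟨-, -, hkM, -⟩ := KBP_num B e1 e2
  have key : ∀ e ∈ 𝓔, |zz 𝒞 ins q j e - a e| ≤ 4 * k * M / 2 ^ j + 8 * k * M * ρ ∧
      (ins e → 4 * k * M * |zz 𝒞 ins q j e - a e| ≤ 4 * k * M / 2 ^ j + 8 * k * M * ρ) := by
    induction j with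
    | zero =>
      intro e he
      have h := KBP_one (B.zz_box e1 e2 0) ha he
      have h0 : 0 ≤ ρ := (abs_nonneg _).trans (hρ e he)
      have h1 : 0 ≤ k * M * ρ := mul_nonneg (by linarith) h0
      have h2 := mul_le_of_le_one_right (show 0 ≤ 4 * k * M by linarith) h
      rw [pow_zero, div_one]
      exact ⟨by linarith, fun _ => by linarith⟩
    | succ j ih =>
      intro e he
      have h := B.contract e1 e2 (B.zz_box e1 e2 j) ha
        (fun e he => (ih e he).1) (fun e he => (ih e he).2) e he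
      rw [add_div, div_div, ← pow_succ] at h
      have h0 : 0 ≤ ρ := (abs_nonneg _).trans (hρ e he)
      have h1 : 2 * ρ ≤ k * M * ρ := mul_le_mul_of_nonneg_right hkM h0
      have h2 : |zz 𝒞 ins q (j + 1) e - a e| ≤
          |Real.exp (- rate 𝒞 q (zz 𝒞 ins q j) e) - Real.exp (- rate 𝒞 q a e)| + ρ :=
        (abs_sub_le _ _ _).trans (add_le_add le_rfl (hρ e he))
      have h3 := mul_le_mul_of_nonneg_left h2 (show 0 ≤ 4 * k * M by linarith)
      exact ⟨by linarith only [h, h0, h1, h2, h.1], fun hi => by linarith only [h3, h, h.2 hi]⟩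
  exact fun e he => (key e he).1

end Pool.Agent.Work.MP_d4a230_co
end

-- merged part: Pool.Agent.Work.MP_d4a230_co.KPhi
section
/-!
Strong concavity of the finite Bethe functional on the box.
-/

namespace Pool.Agent.Work.MP_d4a230_co

open Finset

lemma hh_le_tangent {z a m : ℝ} (z0 : 0 ≤ z) (zm : z ≤ m) (a0 : 0 < a) (am : a ≤ m) :
    hh z ≤ hh a - Real.log a * (z - a) - (z - a) ^ 2 / (4 * m) := by
  have m0 : 0 < m := lt_of_lt_of_le a0 am
  have key : (Real.sqrt z - Real.sqrt a) ^ 2 ≤ z * Real.log z - z * Real.log a - z + a := by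
    rcases z0.eq_or_lt with h | h
    · subst h
      simp [Real.sq_sqrt a0.le]
    · have s0 : 0 < Real.sqrt z := Real.sqrt_pos.2 h
      have t0 : 0 < Real.sqrt a := Real.sqrt_pos.2 a0
      have hs : Real.sqrt z ^ 2 = z := Real.sq_sqrt h.le
      have ht : Real.sqrt a ^ 2 = a := Real.sq_sqrt a0.le
      have l1 : Real.log z = 2 * Real.log (Real.sqrt z) := by
        rw [Real.log_sqrt h.le]; ring
      have l2 : Real.log a = 2 * Real.log (Real.sqrt a) := by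
        rw [Real.log_sqrt a0.le]; ring
      have l3 := Real.log_le_sub_one_of_pos (div_pos t0 s0)
      rw [Real.log_div t0.ne' s0.ne'] at l3
      have l4 : z * (Real.sqrt a / Real.sqrt z) = Real.sqrt z * Real.sqrt a := by
        field_simp
        nlinarith only [hs]
      have l5 := mul_le_mul_of_nonneg_left l3 h.le
      rw [l1, l2]
      nlinarith only [hs, ht, l4, l5]
  have hs : Real.sqrt z ^ 2 = z := Real.sq_sqrt z0
  have ht : Real.sqrt a ^ 2 = a := Real.sq_sqrt a0.le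
  have k2 : (z - a) ^ 2 ≤ (Real.sqrt z - Real.sqrt a) ^ 2 * (4 * m) := by
    have e : (z - a) ^ 2 = (Real.sqrt z - Real.sqrt a) ^ 2 * (Real.sqrt z + Real.sqrt a) ^ 2 := by
      have : z - a = (Real.sqrt z - Real.sqrt a) * (Real.sqrt z + Real.sqrt a) := by
        nlinarith only [hs, ht]
      rw [this]; ring
    rw [e]
    refine mul_le_mul_of_nonneg_left ?_ (sq_nonneg _)
    nlinarith only [zm, am, hs, ht, sq_nonneg (Real.sqrt z - Real.sqrt a)]
  have k3 : (z - a) ^ 2 / (4 * m) ≤ (Real.sqrt z - Real.sqrt a) ^ 2 := by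
    rw [div_le_iff₀ (by positivity)]; exact k2
  unfold hh
  nlinarith only [key, k3]

lemma hh_le {a w : ℝ} (a0 : 0 ≤ a) (w0 : 0 < w) : hh a ≤ w - a * Real.log w := by
  unfold hh
  rcases a0.eq_or_lt with h | h
  · subst h
    simpa using w0.le
  · have l3 := Real.log_le_sub_one_of_pos (div_pos w0 h)
    rw [Real.log_div w0.ne' h.ne'] at l3
    have l5 := mul_le_mul_of_nonneg_left l3 h.le
    have l4 : a * (w / a) = w := by field_simp
    nlinarith only [l5, l4]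

variable {ι : Type} [DecidableEq ι] {𝒞 : Finset (Finset ι)} {𝓔 : Finset ι}
  {ins : ι → Prop} {q M l ε : ℝ} {k : ℕ}

private lemma KPhi_split (z a : ι → ℝ) {s : Finset ι} {g : ι} (hg : g ∉ s) :
    ∏ f ∈ insert g s, z f - ∏ f ∈ insert g s, a f -
      ∑ h ∈ insert g s, (z h - a h) * ∏ f ∈ (insert g s).erase h, a f =
      (z g - a g) * (∏ f ∈ s, z f - ∏ f ∈ s, a f) +
        a g * (∏ f ∈ s, z f - ∏ f ∈ s, a f - ∑ h ∈ s, (z h - a h) * ∏ f ∈ s.erase h, a f) := by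
  rw [prod_insert hg, prod_insert hg, sum_insert hg, erase_insert hg]
  have e : ∑ h ∈ s, (z h - a h) * ∏ f ∈ (insert g s).erase h, a f =
      a g * ∑ h ∈ s, (z h - a h) * ∏ f ∈ s.erase h, a f := by
    rw [mul_sum]
    refine sum_congr rfl fun h hh => ?_
    have ne : g ≠ h := fun e => hg (e ▸ hh)
    rw [erase_insert_of_ne ne, prod_insert fun x => hg (mem_of_mem_erase x)]
    ring
  rw [e]
  ring

private lemma KPhi_swap (hs : ∀ T ∈ 𝒞, T ⊆ 𝓔) (F : Finset ι → ι → ℝ) :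
    ∑ T ∈ 𝒞, ∑ g ∈ T, F T g = ∑ e ∈ 𝓔, ∑ T ∈ 𝒞, ind (e ∈ T) * F T e := by
  rw [sum_comm]
  refine sum_congr rfl fun T hT => ?_
  rw [← sum_subset (hs T hT)]
  · exact sum_congr rfl fun g hg => by rw [ind_pos hg, one_mul]
  · exact fun g _ hg => by rw [ind_neg hg, zero_mul]

private lemma KPhi_fin {m x y L r d G C c : ℝ} (m0 : 0 < m)
    (t : x ≤ y - L * d - d ^ 2 / (4 * m)) (hG : |L + r| ≤ G) (hc : C * c ≤ 1 / (8 * m)) :
    x - y - d * r + C * (c * d ^ 2) ≤ 2 * m * G ^ 2 := by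
  have h1 : C * (c * d ^ 2) ≤ d ^ 2 / (8 * m) := by
    have := mul_le_mul_of_nonneg_right hc (sq_nonneg d)
    calc C * (c * d ^ 2) = C * c * d ^ 2 := by ring
      _ ≤ 1 / (8 * m) * d ^ 2 := this
      _ = d ^ 2 / (8 * m) := by ring
  have h2 : - ((L + r) * d) ≤ G * |d| := by
    refine (neg_le_abs _).trans ?_
    rw [abs_mul]
    exact mul_le_mul_of_nonneg_right hG (abs_nonneg _)
  have h3 : G * |d| ≤ d ^ 2 / (8 * m) + 2 * m * G ^ 2 := by
    rw [← sq_abs d]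
    have e : |d| ^ 2 / (8 * m) + 2 * m * G ^ 2 - G * |d| = 2 * m * (G - |d| / (4 * m)) ^ 2 := by
      field_simp
      ring
    have : 0 ≤ 2 * m * (G - |d| / (4 * m)) ^ 2 := by positivity
    linarith only [e, this]
  have h4 : d ^ 2 / (4 * m) = d ^ 2 / (8 * m) + d ^ 2 / (8 * m) := by
    field_simp
    ring
  nlinarith only [t, h1, h2, h3, h4]

lemma prod_second {s : Finset ι} {z a : ι → ℝ} (hz : ∀ g ∈ s, 0 ≤ z g ∧ z g ≤ 1)
    (ha : ∀ g ∈ s, 0 ≤ a g ∧ a g ≤ 1) :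
    |∏ g ∈ s, z g - ∏ g ∈ s, a g - ∑ g ∈ s, (z g - a g) * ∏ f ∈ s.erase g, a f| ≤
      (∑ g ∈ s, |z g - a g|) ^ 2 := by
  induction s using Finset.induction_on with
  | empty => simp
  | insert g s hg ih =>
    have hz' : ∀ f ∈ s, 0 ≤ z f ∧ z f ≤ 1 := fun f hf => hz f (mem_insert_of_mem hf)
    have ha' : ∀ f ∈ s, 0 ≤ a f ∧ a f ≤ 1 := fun f hf => ha f (mem_insert_of_mem hf)
    have i1 := ih hz' ha'
    have i2 := abs_prod_sub_le hz' ha'
    rw [KPhi_split z a hg, sum_insert hg]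
    have hag := ha g (mem_insert_self _ _)
    have S0 : 0 ≤ ∑ f ∈ s, |z f - a f| := sum_nonneg fun _ _ => abs_nonneg _
    refine (abs_add_le _ _).trans ?_
    rw [abs_mul, abs_mul, abs_of_nonneg hag.1]
    have j1 := mul_le_mul_of_nonneg_left i2 (abs_nonneg (z g - a g))
    have j2 := mul_le_mul hag.2 i1 (abs_nonneg _) zero_le_one
    nlinarith only [j1, j2, S0, abs_nonneg (z g - a g), mul_nonneg (abs_nonneg (z g - a g)) S0,
      sq_nonneg (|z g - a g|)]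

lemma prod_second' {s : Finset ι} {z a : ι → ℝ} (hz : ∀ g ∈ s, 0 ≤ z g ∧ z g ≤ 1)
    (ha : ∀ g ∈ s, 0 ≤ a g ∧ a g ≤ 1) {g0 : ι} (h0 : g0 ∈ s) (hε : a g0 ≤ ε) :
    |∏ g ∈ s, z g - ∏ g ∈ s, a g - ∑ g ∈ s, (z g - a g) * ∏ f ∈ s.erase g, a f| ≤
      ε * (∑ g ∈ s, |z g - a g|) ^ 2 + |z g0 - a g0| * ∑ g ∈ s, |z g - a g| := by
  obtain ⟨t, ht, rfl⟩ : ∃ t, g0 ∉ t ∧ s = insert g0 t :=
    ⟨s.erase g0, notMem_erase _ _, (insert_erase h0).symm⟩
  have hz' : ∀ f ∈ t, 0 ≤ z f ∧ z f ≤ 1 := fun f hf => hz f (mem_insert_of_mem hf)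
  have ha' : ∀ f ∈ t, 0 ≤ a f ∧ a f ≤ 1 := fun f hf => ha f (mem_insert_of_mem hf)
  have i1 := prod_second hz' ha'
  have i2 := abs_prod_sub_le hz' ha'
  rw [KPhi_split z a ht, sum_insert ht]
  have hag := ha g0 (mem_insert_self _ _)
  have e0 : 0 ≤ ε := hag.1.trans hε
  have S0 : 0 ≤ ∑ f ∈ t, |z f - a f| := sum_nonneg fun _ _ => abs_nonneg _
  refine (abs_add_le _ _).trans ?_
  rw [abs_mul, abs_mul, abs_of_nonneg hag.1]
  have j1 := mul_le_mul_of_nonneg_left i2 (abs_nonneg (z g0 - a g0))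
  have j2 := mul_le_mul hε i1 (abs_nonneg _) e0
  have d0 := abs_nonneg (z g0 - a g0)
  have j3 : (∑ f ∈ t, |z f - a f|) ^ 2 ≤ (|z g0 - a g0| + ∑ f ∈ t, |z f - a f|) ^ 2 := by
    nlinarith only [d0, S0, mul_nonneg d0 S0, sq_nonneg (|z g0 - a g0|)]
  have j4 := mul_le_mul_of_nonneg_left j3 e0
  nlinarith only [j1, j2, j4, mul_nonneg d0 d0]

theorem Big.phi_conc (B : Big 𝒞 𝓔 ins q k M l) (e0 : 0 ≤ ε)
    (e2 : 64 * (k : ℝ) ^ 2 * M ^ 2 * ε ≤ 1)
    {z a : ι → ℝ} (hz : Box 𝓔 ins k ε z) (ha : Box 𝓔 ins k ε a) (ha0 : ∀ e ∈ 𝓔, 0 < a e)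
    {g1 g2 : ℝ} (h1 : ∀ e ∈ 𝓔, ins e → |Real.log (a e) + rate 𝒞 q a e| ≤ g1)
    (h2 : ∀ e ∈ 𝓔, ¬ ins e → |Real.log (a e) + rate 𝒞 q a e| ≤ g2) :
    PhiN 𝒞 𝓔 q z ≤ PhiN 𝒞 𝓔 q a + 𝓔.card * (2 * ε * g1 ^ 2 + 2 * g2 ^ 2) := by
  classical
  have k2 : (2 : ℝ) ≤ k := by exact_mod_cast B.k2
  have M1 := B.M1
  have M0 : 0 < M := by linarith
  have q0 := B.q0
  set c : ι → ℝ := fun g => ε * k + 1 / (16 * M) + ind (ins g) * (4 * M * k) with hc
  have c0 : ∀ g, 0 ≤ c g := fun g => by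
    have := ind_nonneg (ins g)
    simp only [hc]; positivity
  have hT : ∀ T ∈ 𝒞, ∑ g ∈ T, (z g - a g) * ∏ f ∈ T.erase g, a f -
      ∑ g ∈ T, c g * (z g - a g) ^ 2 ≤ ∏ g ∈ T, z g - ∏ g ∈ T, a g := by
    intro T hT
    obtain ⟨g0, h0, i0⟩ := B.hit T hT
    have hs := B.sub T hT
    have p := prod_second' (s := T) (z := z) (a := a) (ε := ε)
      (fun g hg => ⟨(hz g (hs hg)).1, (hz g (hs hg)).2.1⟩)
      (fun g hg => ⟨(ha g (hs hg)).1, (ha g (hs hg)).2.1⟩) h0 ((ha g0 (hs h0)).2.2.1 i0)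
    have p1 : (∑ g ∈ T, |z g - a g|) ^ 2 ≤ k * ∑ g ∈ T, (z g - a g) ^ 2 := by
      have := sq_sum_le_card_mul_sum_sq (s := T) (f := fun g => |z g - a g|)
      rw [B.card T hT] at this
      simpa [sq_abs] using this
    have p2 : |z g0 - a g0| * ∑ g ∈ T, |z g - a g| ≤
        4 * M * k * (z g0 - a g0) ^ 2 + ∑ g ∈ T, 1 / (16 * M) * (z g - a g) ^ 2 := by
      rw [mul_sum]
      have e : 4 * M * k * (z g0 - a g0) ^ 2 = ∑ g ∈ T, 4 * M * (z g0 - a g0) ^ 2 := by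
        rw [sum_const, B.card T hT, nsmul_eq_mul]; ring
      rw [e, ← sum_add_distrib]
      refine sum_le_sum fun g _ => ?_
      rw [← sq_abs (z g0 - a g0), ← sq_abs (z g - a g)]
      have e2 : 4 * M * |z g0 - a g0| ^ 2 + 1 / (16 * M) * |z g - a g| ^ 2 -
          |z g0 - a g0| * |z g - a g| = 4 * M * (|z g0 - a g0| - |z g - a g| / (8 * M)) ^ 2 := by
        field_simp
        ring
      have : 0 ≤ 4 * M * (|z g0 - a g0| - |z g - a g| / (8 * M)) ^ 2 := by positivity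
      linarith only [e2, this]
    have p3 : 4 * M * k * (z g0 - a g0) ^ 2 ≤
        ∑ g ∈ T, ind (ins g) * (4 * M * k) * (z g - a g) ^ 2 := by
      have := single_le_sum (f := fun g => ind (ins g) * (4 * M * k) * (z g - a g) ^ 2)
        (fun g _ => by have := ind_nonneg (ins g); positivity) h0
      simpa [ind_pos i0] using this
    have p4 : ∑ g ∈ T, c g * (z g - a g) ^ 2 = ε * (k * ∑ g ∈ T, (z g - a g) ^ 2) +
        ∑ g ∈ T, 1 / (16 * M) * (z g - a g) ^ 2 +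
        ∑ g ∈ T, ind (ins g) * (4 * M * k) * (z g - a g) ^ 2 := by
      rw [mul_sum, mul_sum, ← sum_add_distrib, ← sum_add_distrib]
      refine sum_congr rfl fun g _ => ?_
      simp only [hc]; ring
    have p5 := mul_le_mul_of_nonneg_left p1 e0
    have p6 := (abs_le.1 p).1
    linarith only [p2, p3, p4, p5, p6]
  have hlin : q * ∑ T ∈ 𝒞, ∑ g ∈ T, (z g - a g) * ∏ f ∈ T.erase g, a f =
      ∑ e ∈ 𝓔, (z e - a e) * rate 𝒞 q a e := by
    rw [KPhi_swap B.sub, mul_sum]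
    refine sum_congr rfl fun e _ => ?_
    unfold rate
    rw [mul_left_comm, mul_sum, mul_sum, mul_sum]
    refine sum_congr rfl fun T _ => ?_
    ring
  have hquad : q * ∑ T ∈ 𝒞, ∑ g ∈ T, c g * (z g - a g) ^ 2 ≤
      ∑ e ∈ 𝓔, M * (c e * (z e - a e) ^ 2) := by
    rw [KPhi_swap B.sub, mul_sum]
    refine sum_le_sum fun e _ => ?_
    rw [← sum_mul, ← mul_assoc]
    exact mul_le_mul_of_nonneg_right (B.up e) (mul_nonneg (c0 e) (sq_nonneg _))
  have htot : ∑ e ∈ 𝓔, (z e - a e) * rate 𝒞 q a e - ∑ e ∈ 𝓔, M * (c e * (z e - a e) ^ 2) ≤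
      tot 𝒞 q z - tot 𝒞 q a := by
    have := mul_le_mul_of_nonneg_left (sum_le_sum hT) q0
    rw [sum_sub_distrib, sum_sub_distrib, mul_sub, mul_sub, hlin] at this
    unfold tot
    linarith
  have kM : 2 ≤ k * M := by nlinarith only [k2, M1]
  have ekM : ε * k * M ≤ 1 / 128 := by
    have : 0 ≤ ε * k * M := by positivity
    nlinarith only [e2, kM, this]
  have hpt : ∀ e ∈ 𝓔, hh (z e) - hh (a e) - (z e - a e) * rate 𝒞 q a e +
      M * (c e * (z e - a e) ^ 2) ≤ 2 * ε * g1 ^ 2 + 2 * g2 ^ 2 := by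
    intro e he
    have hM : M * (1 / (16 * M)) = 1 / 16 := by field_simp
    by_cases hi : ins e
    · have a1 := (ha e he).2.2.1 hi
      have ep : 0 < ε := lt_of_lt_of_le (ha0 e he) a1
      have t := hh_le_tangent (hz e he).1 ((hz e he).2.2.1 hi) (ha0 e he) a1
      have hce : M * c e ≤ 1 / (8 * ε) := by
        simp only [hc, ind_pos hi]
        rw [le_div_iff₀ (by positivity)]
        have e256 : ε ≤ 1 / 256 := by nlinarith only [ekM, e0, kM]
        have e3 : 4 * k * M ^ 2 * ε ≤ 1 / 32 := by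
          have : 0 ≤ k * M ^ 2 * ε := by positivity
          nlinarith only [e2, k2, this]
        have e4 : ε * k * M * ε ≤ 1 / 128 * (1 / 256) :=
          mul_le_mul ekM e256 e0 (by norm_num)
        have e5 : M * (ε * k + 1 / (16 * M) + 1 * (4 * M * k)) * (8 * ε) =
            8 * (ε * k * M * ε) + 8 * (M * (1 / (16 * M))) * ε + 8 * (4 * k * M ^ 2 * ε) := by
          ring
        rw [e5, hM]
        linarith only [ep, e256, e3, e4]
      have := KPhi_fin ep t (h1 e he hi) hce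
      nlinarith only [this, sq_nonneg g2]
    · have t := hh_le_tangent (hz e he).1 (hz e he).2.1 (ha0 e he) (ha e he).2.1
      have hce : M * c e ≤ 1 / (8 * 1) := by
        simp only [hc, ind_neg hi]
        have e5 : M * (ε * k + 1 / (16 * M) + 0 * (4 * M * k)) =
            ε * k * M + M * (1 / (16 * M)) := by ring
        rw [e5, hM]
        linarith only [ekM]
      have := KPhi_fin one_pos t (h2 e he hi) hce
      nlinarith only [this, e0, mul_nonneg e0 (sq_nonneg g1)]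
  have hsum := sum_le_sum hpt
  rw [sum_const, nsmul_eq_mul, sum_add_distrib, sum_sub_distrib, sum_sub_distrib] at hsum
  unfold PhiN
  linarith only [htot, hsum]

theorem Big.val_up (B : Big 𝒞 𝓔 ins q k M l) (e1 : Real.exp (-(l / 2)) ≤ ε)
    (e2 : 64 * (k : ℝ) ^ 2 * M ^ 2 * ε ≤ 1) {a : ι → ℝ} (ha : Box 𝓔 ins k ε a)
    (ha0 : ∀ e ∈ 𝓔, 0 < a e) {g1 g2 : ℝ}
    (h1 : ∀ e ∈ 𝓔, ins e → |Real.log (a e) + rate 𝒞 q a e| ≤ g1)
    (h2 : ∀ e ∈ 𝓔, ¬ ins e → |Real.log (a e) + rate 𝒞 q a e| ≤ g2) (j : ℕ) :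
    valZ 𝒞 𝓔 ins q k j ≤ PhiN 𝒞 𝓔 q a + 𝓔.card * (2 * ε * g1 ^ 2 + 2 * g2 ^ 2) +
      𝓔.card * (2 * M * (4 * k * M / 2 ^ j)) := by
  have e0 : 0 ≤ ε := (Real.exp_pos _).le.trans e1
  have k2 : (2 : ℝ) ≤ k := by exact_mod_cast B.k2
  have M1 := B.M1
  have b0 := B.zz_box e1 e2 j
  have b1 := B.zz_box e1 e2 (j + 1)
  have u0 : ∀ g ∈ 𝓔, 0 ≤ zz 𝒞 ins q j g ∧ zz 𝒞 ins q j g ≤ 1 :=
    fun g hg => ⟨(b0 g hg).1, (b0 g hg).2.1⟩
  have u1 : ∀ g ∈ 𝓔, 0 ≤ zz 𝒞 ins q (j + 1) g ∧ zz 𝒞 ins q (j + 1) g ≤ 1 :=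
    fun g hg => ⟨(b1 g hg).1, (b1 g hg).2.1⟩
  have pc := B.phi_conc e0 e2 b1 ha ha0 h1 h2
  have dz := B.zz_diff e1 e2 j
  have ts := B.tot_sub u1 u0 dz
  have sr := B.sum_rate (zz 𝒞 ins q j)
  have hpt : ∀ e ∈ 𝓔, zz 𝒞 ins q (j + 1) e + zz 𝒞 ins q j e * rate 𝒞 q (zz 𝒞 ins q j) e ≤
      hh (zz 𝒞 ins q (j + 1) e) + M * (4 * k * M / 2 ^ j) := by
    intro e he
    have lg : Real.log (zz 𝒞 ins q (j + 1) e) = - rate 𝒞 q (zz 𝒞 ins q j) e := by
      simp only [zz, Real.log_exp]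
    have rm := B.rate_mem u0 e
    have d := (abs_le.1 (dz e he)).1
    have D0 : 0 ≤ 4 * k * M / 2 ^ j := by positivity
    unfold hh
    rw [lg]
    have m1 : (zz 𝒞 ins q j e - zz 𝒞 ins q (j + 1) e) * rate 𝒞 q (zz 𝒞 ins q j) e ≤
        (4 * k * M / 2 ^ j) * rate 𝒞 q (zz 𝒞 ins q j) e :=
      mul_le_mul_of_nonneg_right (by linarith only [d]) rm.1
    have m2 := mul_le_mul_of_nonneg_left rm.2 D0
    nlinarith only [m1, m2]
  have hsum := sum_le_sum hpt
  rw [sum_add_distrib, sum_add_distrib, sum_const, nsmul_eq_mul, sr] at hsum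
  have t1 := (abs_le.1 ts).2
  unfold valZ
  unfold PhiN at pc ⊢
  nlinarith only [pc, hsum, t1]

theorem Big.val_low (B : Big 𝒞 𝓔 ins q k M l) (e1 : Real.exp (-(l / 2)) ≤ ε)
    (e2 : 64 * (k : ℝ) ^ 2 * M ^ 2 * ε ≤ 1) {a : ι → ℝ} (ha : Box 𝓔 ins k ε a) {ρ : ℝ}
    (hρ : ∀ e ∈ 𝓔, |Real.exp (- rate 𝒞 q a e) - a e| ≤ ρ) (j : ℕ) :
    PhiN 𝒞 𝓔 q a - 𝓔.card * (2 * k * M * (4 * k * M / 2 ^ j + 8 * k * M * ρ)) ≤
      lowZ 𝒞 𝓔 ins q k j := by
  have k2 : (2 : ℝ) ≤ k := by exact_mod_cast B.k2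
  have M1 := B.M1
  have b0 := B.zz_box e1 e2 j
  have b1 := B.zz_box e1 e2 (j + 1)
  have u0 : ∀ g ∈ 𝓔, 0 ≤ zz 𝒞 ins q j g ∧ zz 𝒞 ins q j g ≤ 1 :=
    fun g hg => ⟨(b0 g hg).1, (b0 g hg).2.1⟩
  have u1 : ∀ g ∈ 𝓔, 0 ≤ zz 𝒞 ins q (j + 1) g ∧ zz 𝒞 ins q (j + 1) g ≤ 1 :=
    fun g hg => ⟨(b1 g hg).1, (b1 g hg).2.1⟩
  have ua : ∀ g ∈ 𝓔, 0 ≤ a g ∧ a g ≤ 1 := fun g hg => ⟨(ha g hg).1, (ha g hg).2.1⟩
  rcases 𝓔.eq_empty_or_nonempty with hE | ⟨e0, he0⟩
  · subst hE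
    have hC : 𝒞 = ∅ := by
      refine eq_empty_of_forall_notMem fun T hT => ?_
      obtain ⟨g, hg, -⟩ := B.hit T hT
      simpa using B.sub T hT hg
    subst hC
    simp [PhiN, lowZ, tot]
  have r0 : 0 ≤ ρ := (abs_nonneg _).trans (hρ e0 he0)
  have dz := B.zz_diff e1 e2 j
  have dn := B.zz_near e1 e2 ha hρ j
  have ts := B.tot_sub u1 u0 dz
  have tn := B.tot_sub u0 ua dn
  have sr := B.sum_rate (zz 𝒞 ins q j)
  have D0 : 0 ≤ 4 * k * M / 2 ^ j := by positivity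
  have R0 : 0 ≤ 8 * k * M * ρ := by positivity
  generalize 4 * k * M / 2 ^ j = D at *
  generalize 8 * k * M * ρ = R at *
  have hpt : ∀ e ∈ 𝓔, hh (a e) ≤ zz 𝒞 ins q (j + 1) e +
      zz 𝒞 ins q j e * rate 𝒞 q (zz 𝒞 ins q j) e + M * (D + R) := by
    intro e he
    have lg : Real.log (zz 𝒞 ins q (j + 1) e) = - rate 𝒞 q (zz 𝒞 ins q j) e := by
      simp only [zz, Real.log_exp]
    have pos : 0 < zz 𝒞 ins q (j + 1) e := by
      simp only [zz]; exact Real.exp_pos _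
    have h := hh_le (ua e he).1 pos
    rw [lg] at h
    have rm := B.rate_mem u0 e
    have d := (abs_le.1 (dn e he)).1
    have m1 : (a e - zz 𝒞 ins q j e) * rate 𝒞 q (zz 𝒞 ins q j) e ≤
        (D + R) * rate 𝒞 q (zz 𝒞 ins q j) e :=
      mul_le_mul_of_nonneg_right (by linarith) rm.1
    have m2 := mul_le_mul_of_nonneg_left rm.2 (add_nonneg D0 R0)
    nlinarith only [h, m1, m2]
  have hsum := sum_le_sum hpt
  rw [sum_add_distrib, sum_add_distrib, sum_const, nsmul_eq_mul, sr] at hsum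
  have t1 := (abs_le.1 ts).2
  have t2 := (abs_le.1 tn).2
  have t3 := mul_le_mul_of_nonneg_left t1 (by linarith : (0 : ℝ) ≤ k)
  have N0 : (0 : ℝ) ≤ 𝓔.card := Nat.cast_nonneg _
  have X0 : 0 ≤ (𝓔.card : ℝ) * (M * D) := by positivity
  have Y0 : 0 ≤ (𝓔.card : ℝ) * (M * R) := by positivity
  have f1 : (𝓔.card : ℝ) * (M * (D + R)) = 𝓔.card * (M * D) + 𝓔.card * (M * R) := by ring
  have f2 : (𝓔.card : ℝ) * (2 * k * M * (D + R)) =
      2 * k * (𝓔.card * (M * D)) + 2 * k * (𝓔.card * (M * R)) := by ring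
  rw [f1] at hsum t2
  unfold lowZ PhiN
  rw [f2]
  generalize (𝓔.card : ℝ) * (M * D) = X at *
  generalize (𝓔.card : ℝ) * (M * R) = Y at *
  nlinarith only [t3, Y0, hsum, t2, k2, X0, mul_nonneg (by linarith : (0 : ℝ) ≤ k - 2) X0,
    mul_nonneg (by linarith : (0 : ℝ) ≤ k - 2) Y0]

end Pool.Agent.Work.MP_d4a230_co
end

-- merged part: Pool.Agent.Work.MP_d4a230_co.KCount2
section
/-!
Weighted counts of copies for a nearly balanced colouring.
-/

namespace Pool.Agent.Work.MP_d4a230_co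

open Finset

variable {W : Type} [Fintype W] [DecidableEq W] {H : SimpleGraph W} [DecidableRel H.Adj] {r : ℕ}

lemma KCount2_pw {V κ : Type} [DecidableEq κ] (π : V → κ) {x y : ℝ} (hx : 0 ≤ x ∧ x ≤ 1)
    (hy : 0 ≤ y ∧ y ≤ 1) (e : Sym2 V) : 0 ≤ pw π x y e ∧ pw π x y e ≤ 1 := by
  unfold pw
  split_ifs
  exacts [hy, hx]

lemma KCount2_prod {V κ : Type} [DecidableEq κ] (π : V → κ) {x y : ℝ} (hx : 0 ≤ x ∧ x ≤ 1)
    (hy : 0 ≤ y ∧ y ≤ 1) (s : Finset (Sym2 V)) :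
    0 ≤ ∏ g ∈ s, pw π x y g ∧ ∏ g ∈ s, pw π x y g ≤ 1 :=
  ⟨prod_nonneg fun g _ => (KCount2_pw π hx hy g).1,
    prod_le_one (fun g _ => (KCount2_pw π hx hy g).1) fun g _ => (KCount2_pw π hx hy g).2⟩

lemma KCount2_parts {n : ℕ} (hn : 0 < n) (hr : 0 < r) {π : Fin n → Fin r} {σ : ℝ} (hσ : 0 ≤ σ)
    (hB : Bal π σ) (s : Finset W) (χ : W → Fin r) :
    |∏ w ∈ s, ((part π (χ w)).card : ℝ) - (n : ℝ) ^ s.card / (r : ℝ) ^ s.card| ≤
      (n : ℝ) ^ s.card * (Fintype.card W * σ) := by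
  have n0 : (0 : ℝ) < n := by exact_mod_cast hn
  have r1 : (1 : ℝ) ≤ r := by exact_mod_cast hr
  have h1 := abs_prod_sub_le (s := s) (z := fun w => ((part π (χ w)).card : ℝ) / n)
    (w := fun _ => 1 / (r : ℝ)) (fun w _ => ⟨by positivity, (div_le_one n0).2 (by
      have := card_le_univ (part π (χ w))
      rw [Fintype.card_fin] at this
      exact_mod_cast this)⟩) fun _ _ => ⟨by positivity, (div_le_one (by linarith)).2 r1⟩
  have h2 : ∑ w ∈ s, |((part π (χ w)).card : ℝ) / n - 1 / r| ≤ Fintype.card W * σ := by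
    refine (sum_le_card_nsmul _ _ σ fun w _ => ?_).trans ?_
    · have h3 := hB (χ w)
      rw [Fintype.card_fin] at h3
      rw [show ((part π (χ w)).card : ℝ) / n - 1 / r = (((part π (χ w)).card : ℝ) - n / r) / n by
        field_simp, abs_div, abs_of_pos n0, div_le_iff₀ n0]
      exact h3
    · rw [nsmul_eq_mul]
      exact mul_le_mul_of_nonneg_right (by exact_mod_cast card_le_univ s) hσ
  have h3 : ∏ w ∈ s, ((part π (χ w)).card : ℝ) - (n : ℝ) ^ s.card / (r : ℝ) ^ s.card =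
      (n : ℝ) ^ s.card * (∏ w ∈ s, ((part π (χ w)).card : ℝ) / n - ∏ _w ∈ s, 1 / (r : ℝ)) := by
    rw [prod_div_distrib, prod_const, prod_const, one_div_pow]
    field_simp
  rw [h3, abs_mul, abs_of_pos (pow_pos n0 _)]
  exact mul_le_mul_of_nonneg_left (h1.trans h2) (by positivity)

lemma KCount2_pair {n : ℕ} (hn : 0 < n) (hr : 0 < r) {π : Fin n → Fin r} {σ : ℝ} (hσ : 0 ≤ σ)
    (hB : Bal π σ) {a b : W} (hab : a ≠ b) {u v : Fin n} (huv : u ≠ v) (g : (W → Fin r) → ℝ)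
    (hg : ∀ χ, 0 ≤ g χ ∧ g χ ≤ 1) {z : ℝ} (z0 : 0 ≤ z)
    (hz : ∀ χ, χ a = π u → χ b = π v → g χ ≤ z) :
    |∑ f : W ↪ Fin n, ind (f a = u ∧ f b = v) * g (π ∘ f) - (n : ℝ) ^ (Fintype.card W - 2) /
      (r : ℝ) ^ (Fintype.card W - 2) * ∑ χ, ind (χ a = π u ∧ χ b = π v) * g χ| ≤
      (Fintype.card W : ℝ) ^ 2 * (n : ℝ) ^ (Fintype.card W - 3) +
        (r : ℝ) ^ Fintype.card W * (z * ((n : ℝ) ^ (Fintype.card W - 2) * (Fintype.card W * σ))) := by
  have h1 := sum_emb_le (W := W) (V := Fin n) (fun f => ind (f a = u ∧ f b = v) * g (π ∘ f))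
    fun f => mul_nonneg (ind_nonneg _) (hg _).1
  have h2 := sum_emb_ge_rooted (a := a) (b := b) huv (fun f => g (π ∘ f)) fun f => (hg _).2
  have h3 := sum_maps_rooted π hab u v (fun _ => univ) g
  simp only [mem_univ, implies_true, ind_pos, one_mul, univ_inter] at h3
  have hc : ((univ.erase a).erase b).card = Fintype.card W - 2 := by
    rw [card_erase_of_mem (mem_erase.2 ⟨hab.symm, mem_univ b⟩), card_erase_of_mem (mem_univ a),
      card_univ]
    rfl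
  have h4 : |∑ f : W → Fin n, ind (f a = u ∧ f b = v) * g (π ∘ f) -
      (n : ℝ) ^ (Fintype.card W - 2) / (r : ℝ) ^ (Fintype.card W - 2) *
        ∑ χ, ind (χ a = π u ∧ χ b = π v) * g χ| ≤
      (r : ℝ) ^ Fintype.card W * (z * ((n : ℝ) ^ (Fintype.card W - 2) * (Fintype.card W * σ))) := by
    rw [h3, mul_sum, ← sum_sub_distrib]
    refine (abs_sum_le_sum_abs _ _).trans ((sum_le_card_nsmul _ _
      (z * ((n : ℝ) ^ (Fintype.card W - 2) * (Fintype.card W * σ))) fun χ _ => ?_).trans ?_)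
    · have h5 := KCount2_parts hn hr hσ hB ((univ.erase a).erase b) χ
      rw [hc] at h5
      by_cases h6 : χ a = π u ∧ χ b = π v
      · rw [ind_pos h6, one_mul, one_mul, mul_comm _ (g χ), ← mul_sub, abs_mul,
          abs_of_nonneg (hg χ).1]
        exact mul_le_mul (hz χ h6.1 h6.2) h5 (abs_nonneg _) z0
      · rw [ind_neg h6, zero_mul, zero_mul, mul_zero, sub_zero, abs_zero]
        positivity
    · rw [nsmul_eq_mul, card_univ, Fintype.card_fun, Fintype.card_fin, Nat.cast_pow]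
  rw [Fintype.card_fin] at h2
  have h5 : 0 ≤ (Fintype.card W : ℝ) ^ 2 * (n : ℝ) ^ (Fintype.card W - 3) := by positivity
  rw [abs_le] at h4 ⊢
  constructor <;> linarith only [h2, h4, h1, h4.1, h4.2]

lemma KCount2_all (B : HBal H) {n : ℕ} (hn : 0 < n) (hr : 0 < r) {π : Fin n → Fin r} {σ x y : ℝ}
    (hσ : 0 ≤ σ) (hB : Bal π σ) (hx : 0 ≤ x ∧ x ≤ 1) (hy : 0 ≤ y ∧ y ≤ 1) {u v : Fin n}
    (huv : u ≠ v) {z : ℝ} (z0 : 0 ≤ z) (hz : ∀ a b (χ : W → Fin r), χ a = π u → χ b = π v →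
      ∏ g ∈ H.edgeFinset.erase s(a, b), pw χ x y g ≤ z) :
    |aut H * ∑ T ∈ copies H (Fin n), ind (s(u, v) ∈ T) * ∏ g ∈ T.erase s(u, v), pw π x y g -
      (n : ℝ) ^ (Fintype.card W - 2) / (r : ℝ) ^ (Fintype.card W - 2) *
        ∑ a, ∑ b, ind (H.Adj a b) * ∑ χ : W → Fin r, ind (χ a = π u ∧ χ b = π v) *
          ∏ g ∈ H.edgeFinset.erase s(a, b), pw χ x y g| ≤
      (Fintype.card W : ℝ) ^ 2 * ((Fintype.card W : ℝ) ^ 2 +
        (r : ℝ) ^ Fintype.card W * Fintype.card W) * (n : ℝ) ^ (Fintype.card W - 2) *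
          (z * σ + 1 / n) := by
  have n0 : (0 : ℝ) < n := by exact_mod_cast hn
  rw [B.sum_copies, sum_rooted huv, mul_sum, ← sum_sub_distrib]
  have h1 : ∀ a b : W, |ind (H.Adj a b) * ∑ f : W ↪ Fin n, ind (f a = u ∧ f b = v) *
      ∏ g ∈ (img H f).erase s(u, v), pw π x y g -
      (n : ℝ) ^ (Fintype.card W - 2) / (r : ℝ) ^ (Fintype.card W - 2) *
        (ind (H.Adj a b) * ∑ χ : W → Fin r, ind (χ a = π u ∧ χ b = π v) *
          ∏ g ∈ H.edgeFinset.erase s(a, b), pw χ x y g)| ≤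
      ((Fintype.card W : ℝ) ^ 2 + (r : ℝ) ^ Fintype.card W * Fintype.card W) *
        (n : ℝ) ^ (Fintype.card W - 2) * (z * σ + 1 / n) := fun a b => by
    by_cases hab : H.Adj a b
    · have h2 := KCount2_pair hn hr hσ hB hab.ne huv
        (fun χ => ∏ g ∈ H.edgeFinset.erase s(a, b), pw χ x y g)
        (fun χ => KCount2_prod χ hx hy _) z0 (hz a b)
      have h3 : ∑ f : W ↪ Fin n, ind (f a = u ∧ f b = v) *
          ∏ g ∈ (img H f).erase s(u, v), pw π x y g = ∑ f : W ↪ Fin n, ind (f a = u ∧ f b = v) *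
            ∏ g ∈ H.edgeFinset.erase s(a, b), pw (π ∘ f) x y g := by
        refine sum_congr rfl fun f _ => ?_
        by_cases h4 : f a = u ∧ f b = v
        · rw [← h4.1, ← h4.2, prod_img_erase]
          simp only [pw_map]
        · rw [ind_neg h4, zero_mul, zero_mul]
      rw [ind_pos hab, one_mul, one_mul, h3]
      refine h2.trans ?_
      have h4 : (n : ℝ) ^ (Fintype.card W - 3) = (n : ℝ) ^ (Fintype.card W - 2) * (1 / n) := by
        have := B.h3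
        rw [show Fintype.card W - 2 = Fintype.card W - 3 + 1 by omega, pow_succ]
        field_simp
      have h5 : 0 ≤ (Fintype.card W : ℝ) ^ 2 * (n : ℝ) ^ (Fintype.card W - 2) * (z * σ) := by
        positivity
      have h6 : 0 ≤ (r : ℝ) ^ Fintype.card W * Fintype.card W * (n : ℝ) ^ (Fintype.card W - 2) *
          (1 / n) := by positivity
      rw [h4]
      linarith only [h5, h6]
    · rw [ind_neg hab, zero_mul, zero_mul, mul_zero, sub_zero, abs_zero]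
      positivity
  refine (abs_sum_le_sum_abs _ _).trans ((sum_le_card_nsmul _ _ (Fintype.card W *
    (((Fintype.card W : ℝ) ^ 2 + (r : ℝ) ^ Fintype.card W * Fintype.card W) *
      (n : ℝ) ^ (Fintype.card W - 2) * (z * σ + 1 / n))) fun a _ => ?_).trans (le_of_eq ?_))
  · rw [mul_sum, ← sum_sub_distrib]
    refine (abs_sum_le_sum_abs _ _).trans ((sum_le_card_nsmul _ _ _ fun b _ => h1 a b).trans ?_)
    rw [nsmul_eq_mul, card_univ]
  · rw [nsmul_eq_mul, card_univ]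
    ring

theorem count_rate (B : HBal H) (C : ECrit H r) : ∃ c : ℝ, 0 ≤ c ∧ ∀ (n : ℕ), 0 < n →
    ∀ (π : Fin n → Fin r) (σ x y : ℝ), 0 ≤ σ → Bal π σ → 0 ≤ x ∧ x ≤ 1 → 0 ≤ y ∧ y ≤ 1 →
    ∀ e : Sym2 (Fin n), ¬ e.IsDiag →
      (Ins π e → |aut H * ∑ T ∈ copies H (Fin n), ind (e ∈ T) * ∏ g ∈ T.erase e, pw π x y g -
        (n : ℝ) ^ (Fintype.card W - 2) * (2 * r * rin H r x y)| ≤
        c * (n : ℝ) ^ (Fintype.card W - 2) * (σ + 1 / n)) ∧
      (¬ Ins π e → |aut H * ∑ T ∈ copies H (Fin n), ind (e ∈ T) * ∏ g ∈ T.erase e, pw π x y g -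
        (n : ℝ) ^ (Fintype.card W - 2) * (2 * (r / ((r : ℝ) - 1)) * rcr H r x y)| ≤
        c * (n : ℝ) ^ (Fintype.card W - 2) * (y * σ + 1 / n)) := by
  have h3 := B.h3
  have hr : 2 ≤ r := C.two_le (by have := B.hk; omega)
  have r2 : (2 : ℝ) ≤ r := by exact_mod_cast hr
  have hp : (r : ℝ) ^ Fintype.card W = (r : ℝ) ^ (Fintype.card W - 2) * r ^ 2 := by
    rw [← pow_add, Nat.sub_add_cancel (by omega)]
  refine ⟨(Fintype.card W : ℝ) ^ 2 * ((Fintype.card W : ℝ) ^ 2 +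
    (r : ℝ) ^ Fintype.card W * Fintype.card W), by positivity,
    fun n hn π σ x y hσ hB hx hy e he => ?_⟩
  induction e using Sym2.ind with
  | h u v =>
  have huv : u ≠ v := fun h => he (Sym2.mk_isDiag_iff.2 h)
  constructor
  · intro hi
    have h1 : π u = π v := Sym2.mk_isDiag_iff.1 hi.2
    have h2 := KCount2_all B hn (by omega) hσ hB hx hy huv zero_le_one
      fun a b χ _ _ => (KCount2_prod χ hx hy _).2
    have h4 : r * ∑ a, ∑ b, ind (H.Adj a b) * ∑ χ : W → Fin r, ind (χ a = π u ∧ χ b = π v) *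
        ∏ g ∈ H.edgeFinset.erase s(a, b), pw χ x y g =
        2 * (rin H r x y * (r : ℝ) ^ Fintype.card W) := by
      rw [rin, div_mul_cancel₀ _ (by positivity), sum_comm (s := univ) (t := H.edgeFinset),
        ← sum_edges, mul_sum]
      refine sum_congr rfl fun a _ => ?_
      rw [mul_sum]
      refine sum_congr rfl fun b _ => ?_
      rw [mul_left_comm, ← h1, (colInv_pw _ x y).same a b (π u)]
      simp only [Sym2.map_mk, Sym2.mk_isDiag_iff]
    rw [one_mul] at h2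
    convert h2 using 3
    rw [eq_div_of_mul_eq (by positivity) ((mul_comm _ _).trans h4), hp]
    field_simp
  · intro hi
    have h1 : π u ≠ π v := fun h => hi ⟨he, Sym2.mk_isDiag_iff.2 h⟩
    have h2 := KCount2_all (H := H) B hn (by omega) hσ hB hx hy huv hy.1 fun a b χ ha hb => by
      obtain ⟨e', h5, h6⟩ := C.mono χ
      have h7 : e' ∈ H.edgeFinset.erase s(a, b) := by
        refine mem_erase.2 ⟨?_, h5⟩
        rintro rfl
        exact h1 (ha.symm.trans ((Sym2.mk_isDiag_iff.1 h6).trans hb))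
      rw [← mul_prod_erase _ _ h7, show pw χ x y e' = y from if_pos h6]
      exact mul_le_of_le_one_right hy.1 (KCount2_prod χ hx hy _).2
    have h4 : r * ((r : ℝ) - 1) * ∑ a, ∑ b, ind (H.Adj a b) *
        ∑ χ : W → Fin r, ind (χ a = π u ∧ χ b = π v) *
          ∏ g ∈ H.edgeFinset.erase s(a, b), pw χ x y g =
        2 * (rcr H r x y * (r : ℝ) ^ Fintype.card W) := by
      rw [rcr, div_mul_cancel₀ _ (by positivity), sum_comm (s := univ) (t := H.edgeFinset),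
        ← sum_edges, mul_sum]
      refine sum_congr rfl fun a _ => ?_
      rw [mul_sum]
      refine sum_congr rfl fun b _ => ?_
      rw [mul_left_comm, (colInv_pw _ x y).diff a b h1]
      simp only [Sym2.map_mk, Sym2.mk_isDiag_iff, ne_eq]
    have r1 : 0 < (r : ℝ) - 1 := by linarith only [r2]
    convert h2 using 3
    rw [eq_div_of_mul_eq (by positivity) ((mul_comm _ _).trans h4), hp]
    field_simp

end Pool.Agent.Work.MP_d4a230_co
end

-- merged part: Pool.Agent.Work.MP_d4a230_co.KCount3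
section
/-!
Lower and upper bounds for the numbers of copies through edges and pairs of edges.
-/

namespace Pool.Agent.Work.MP_d4a230_co

open Finset Filter Topology

section Sys

variable {V : Type} [Fintype V] [DecidableEq V] {𝒞 : Finset (Finset (Sym2 V))} {h k K0 : ℕ}

/-- The number of neighbours of `u` in `S`. -/
noncomputable def dto (ω : Finset (Sym2 V)) (u : V) (S : Finset V) : ℝ :=
  ∑ a ∈ S.erase u, ind (s(u, a) ∈ ω)

/-- The pairs of `T` not containing `u`. -/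
def outS (u : V) (T : Finset (Sym2 V)) : Finset (Sym2 V) := T.filter fun g => u ∉ g

/-- Two pairs without a common vertex. -/
def Far (e f : Sym2 V) : Prop := ∀ x ∈ e, x ∉ f

lemma mem_star {u : V} {e : Sym2 V} : e ∈ star u ↔ u ∈ e ∧ ¬ e.IsDiag := by
  unfold star
  rw [Finset.mem_image]
  constructor
  · rintro ⟨a, ha, rfl⟩
    exact ⟨Sym2.mem_mk_left u a, fun h => (Finset.mem_erase.1 ha).1 (Sym2.mk_isDiag_iff.1 h).symm⟩
  · rintro ⟨h1, h2⟩
    obtain ⟨a, rfl⟩ := Sym2.mem_iff_exists.1 h1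
    exact ⟨a, Finset.mem_erase.2 ⟨fun h => h2 (Sym2.mk_isDiag_iff.2 h.symm), mem_univ a⟩, rfl⟩

lemma card_star (u : V) : (star u).card ≤ Fintype.card V :=
  Finset.card_image_le.trans (Finset.card_le_univ _)

lemma KCount3_cnt (S : Sys 𝒞 h k K0) (q : Finset (Sym2 V) → Prop) (U : Finset V)
    (hq : ∀ T ∈ 𝒞, q T → U ⊆ vs T) :
    ∑ T ∈ 𝒞, ind (q T) ≤ K0 * (Fintype.card V : ℝ) ^ (h - U.card) := by
  have e1 : ∑ T ∈ 𝒞, ind (q T) ≤ ∑ T ∈ 𝒞, ind (U ⊆ vs T) :=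
    Finset.sum_le_sum fun T hT => ind_mono (hq T hT)
  rw [sum_ind 𝒞 fun T => U ⊆ vs T] at e1
  refine e1.trans ?_
  exact_mod_cast S.count0 U

omit [Fintype V] [DecidableEq V] in
lemma KCount3_zero (q : Finset (Sym2 V) → Prop) (hq : ∀ T ∈ 𝒞, ¬ q T) :
    ∑ T ∈ 𝒞, ind (q T) = 0 :=
  Finset.sum_eq_zero fun T hT => ind_neg (hq T hT)

omit [Fintype V] in
lemma KCount3_sub {T : Finset (Sym2 V)} {e : Sym2 V} (he : e ∈ T) : e.toFinset ⊆ vs T :=
  fun _ hx => mem_vs.2 ⟨e, he, Sym2.mem_toFinset.1 hx⟩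

lemma Sys.through (S : Sys 𝒞 h k K0) (e : Sym2 V) :
    ∑ T ∈ 𝒞, ind (e ∈ T) ≤ K0 * (Fintype.card V : ℝ) ^ (h - 2) := by
  by_cases he : e.IsDiag
  · rw [KCount3_zero _ fun T hT h1 => S.nd T hT e h1 he]
    positivity
  · have := KCount3_cnt S (fun T => e ∈ T) e.toFinset fun T _ h1 => KCount3_sub h1
    rwa [Sym2.card_toFinset_of_not_isDiag _ he] at this

lemma Sys.card_le (S : Sys 𝒞 h k K0) : (𝒞.card : ℝ) ≤ K0 * (Fintype.card V : ℝ) ^ h := by
  have := S.count0 ∅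
  rw [Finset.filter_true_of_mem fun T _ => Finset.empty_subset _, Finset.card_empty,
    Nat.sub_zero] at this
  exact_mod_cast this

lemma Sys.pair_adj (S : Sys 𝒞 h k K0) {e f : Sym2 V} (hef : e ≠ f) :
    (∑ T ∈ 𝒞, ind (e ∈ T ∧ f ∈ T)) * Fintype.card V ≤ K0 * (Fintype.card V : ℝ) ^ (h - 2) := by
  by_cases he : e.IsDiag
  · rw [KCount3_zero _ fun T hT h1 => S.nd T hT e h1.1 he, zero_mul]
    positivity
  by_cases hf : f.IsDiag
  · rw [KCount3_zero _ fun T hT h1 => S.nd T hT f h1.2 hf, zero_mul]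
    positivity
  obtain ⟨x, x1, x2⟩ : ∃ x ∈ e, x ∉ f := by
    by_contra hc
    push Not at hc
    exact hef (sym2_eq_of_subset he hc)
  have c1 : (insert x f.toFinset).card = 3 := by
    rw [Finset.card_insert_of_notMem fun h => x2 (Sym2.mem_toFinset.1 h),
      Sym2.card_toFinset_of_not_isDiag _ hf]
  have e1 := KCount3_cnt S (fun T => e ∈ T ∧ f ∈ T) (insert x f.toFinset) fun T _ h1 =>
    Finset.insert_subset (mem_vs.2 ⟨e, h1.1, x1⟩) (KCount3_sub h1.2)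
  have e2 : (Fintype.card V : ℝ) ^ (h - 2) = (Fintype.card V : ℝ) ^ (h - 3) * Fintype.card V := by
    rw [← pow_succ]
    congr 1
    have := S.h3
    omega
  rw [c1] at e1
  rw [e2, ← mul_assoc]
  exact mul_le_mul_of_nonneg_right e1 (Nat.cast_nonneg _)

lemma Sys.pair_far (S : Sys 𝒞 h k K0) {e f : Sym2 V} (hef : Far e f) :
    (∑ T ∈ 𝒞, ind (e ∈ T ∧ f ∈ T)) * (Fintype.card V : ℝ) ^ 2 ≤
      K0 * (Fintype.card V : ℝ) ^ (h - 2) := by
  by_cases he : e.IsDiag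
  · rw [KCount3_zero _ fun T hT h1 => S.nd T hT e h1.1 he, zero_mul]
    positivity
  by_cases hf : f.IsDiag
  · rw [KCount3_zero _ fun T hT h1 => S.nd T hT f h1.2 hf, zero_mul]
    positivity
  have c1 : (e.toFinset ∪ f.toFinset).card = 4 := by
    rw [Finset.card_union_of_disjoint (Finset.disjoint_left.2 fun x h1 h2 =>
      hef x (Sym2.mem_toFinset.1 h1) (Sym2.mem_toFinset.1 h2)),
      Sym2.card_toFinset_of_not_isDiag _ he, Sym2.card_toFinset_of_not_isDiag _ hf]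
  have hs : ∀ T ∈ 𝒞, e ∈ T ∧ f ∈ T → e.toFinset ∪ f.toFinset ⊆ vs T := fun T _ h1 =>
    Finset.union_subset (KCount3_sub h1.1) (KCount3_sub h1.2)
  by_cases h4 : 4 ≤ h
  · have e1 := KCount3_cnt S (fun T => e ∈ T ∧ f ∈ T) _ hs
    have e2 : (Fintype.card V : ℝ) ^ (h - 2) =
        (Fintype.card V : ℝ) ^ (h - 4) * (Fintype.card V : ℝ) ^ 2 := by
      rw [← pow_add]
      congr 1
      omega
    rw [c1] at e1
    rw [e2, ← mul_assoc]
    exact mul_le_mul_of_nonneg_right e1 (by positivity)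
  · rw [KCount3_zero _ fun T hT h1 => h4 ?_, zero_mul]
    · positivity
    · have := Finset.card_le_card (hs T hT h1)
      rwa [c1, S.cvs T hT] at this

end Sys

variable {W : Type} [Fintype W] [DecidableEq W] {H : SimpleGraph W} [DecidableRel H.Adj] {r : ℕ}

lemma ECrit.hit (C : ECrit H r) {V : Type} [Fintype V] [DecidableEq V] (π : V → Fin r) :
    ∀ T ∈ copies H V, ∃ g ∈ T, Ins π g := by
  intro T hT
  obtain ⟨f, -, rfl⟩ := Finset.mem_image.1 hT
  obtain ⟨e, he, h1⟩ := C.mono (π ∘ f)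
  have h2 : e.map f ∈ img H f := Finset.mem_image_of_mem _ he
  exact ⟨e.map f, h2, img_nd h2, by rwa [Sym2.map_map]⟩

lemma KCount3_pw {V κ : Type} [DecidableEq κ] (π : V → κ) (g : Sym2 V) :
    0 ≤ pw π 1 0 g ∧ pw π 1 0 g ≤ 1 := by
  unfold pw
  split_ifs <;> norm_num

lemma KCount3_prod {V κ : Type} [DecidableEq V] [DecidableEq κ] (π : V → κ) (e : Sym2 V)
    (T : Finset (Sym2 V)) :
    ind (e ∈ T) * ∏ g ∈ T.erase e, pw π 1 0 g ≤ ind (e ∈ T ∧ OneIn (Ins π) e T) := by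
  rw [ind_and]
  refine mul_le_mul_of_nonneg_left ?_ (ind_nonneg _)
  by_cases h1 : OneIn (Ins π) e T
  · rw [ind_pos h1]
    exact Finset.prod_le_one (fun g _ => (KCount3_pw π g).1) fun g _ => (KCount3_pw π g).2
  · rw [ind_neg h1]
    unfold OneIn at h1
    push Not at h1
    obtain ⟨g, g1, g2, g3⟩ := h1
    refine le_of_eq (Finset.prod_eq_zero (Finset.mem_erase.2 ⟨g2, g1⟩) ?_)
    unfold pw
    rw [if_pos g3.2]

lemma KCount3_rin (C : ECrit H r) : 0 < 2 * (r : ℝ) * rin H r 1 0 := by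
  obtain ⟨χ, a, b, h1, h2, h3⟩ := C.one
  have hr : (0 : ℝ) < r := by exact_mod_cast (χ a).pos
  have h0 : ∀ (χ : W → Fin r) (e : Sym2 W), 0 ≤ ind (e.map χ).IsDiag *
      ∏ g ∈ H.edgeFinset.erase e, pw χ 1 0 g := fun χ e =>
    mul_nonneg (ind_nonneg _) (Finset.prod_nonneg fun g _ => (KCount3_pw χ g).1)
  refine mul_pos (by positivity) (div_pos ?_ (by positivity))
  refine Finset.sum_pos' (fun χ _ => Finset.sum_nonneg fun e _ => h0 χ e) ⟨χ, mem_univ χ, ?_⟩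
  refine Finset.sum_pos' (fun e _ => h0 χ e) ⟨s(a, b), by simpa using h1, ?_⟩
  rw [ind_pos (by simpa using h2), one_mul]
  refine Finset.prod_pos fun g hg => ?_
  unfold pw
  rw [if_neg (h3 g (Finset.mem_erase.1 hg).2 (Finset.mem_erase.1 hg).1)]
  exact one_pos

theorem count_big (B : HBal H) (C : ECrit H r) : ∃ c σ : ℝ, 0 < c ∧ 0 < σ ∧ ∀ᶠ n : ℕ in atTop,
    ∀ π : Fin n → Fin r, Bal π σ → ∀ e, Ins π e →
      c * (n : ℝ) ^ (Fintype.card W - 2) ≤
        ∑ T ∈ copies H (Fin n), ind (e ∈ T ∧ OneIn (Ins π) e T) := by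
  obtain ⟨c, hc, h1⟩ := count_rate B C
  have hρ := KCount3_rin C
  set ρ := 2 * (r : ℝ) * rin H r 1 0
  have hA : 0 < aut H := one_pos.trans_le one_le_aut
  have hσ : 0 < ρ / (4 * (c + 1)) := by positivity
  refine ⟨ρ / (2 * aut H), ρ / (4 * (c + 1)), by positivity, hσ, ?_⟩
  filter_upwards [eventually_gt_atTop 0,
    tendsto_one_div_atTop_nhds_zero_nat.eventually (ge_mem_nhds hσ)] with n hn h2 π hπ e he
  have h3 := (abs_le.1 ((h1 n hn π _ 1 0 hσ.le hπ ⟨zero_le_one, le_rfl⟩ ⟨le_rfl, zero_le_one⟩ e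
    he.1).1 he)).1
  have h4 : ∑ T ∈ copies H (Fin n), ind (e ∈ T) * ∏ g ∈ T.erase e, pw π 1 0 g ≤
      ∑ T ∈ copies H (Fin n), ind (e ∈ T ∧ OneIn (Ins π) e T) :=
    Finset.sum_le_sum fun T _ => KCount3_prod π e T
  have h5 := mul_le_mul_of_nonneg_left h4 hA.le
  have hN : (0 : ℝ) ≤ (n : ℝ) ^ (Fintype.card W - 2) := by positivity
  have h6 : c * (ρ / (4 * (c + 1)) + 1 / n) ≤ ρ / 2 := by
    have e1 : (c + 1) * (ρ / (4 * (c + 1))) = ρ / 4 := by field_simp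
    nlinarith only [hσ, e1, h2, hc, mul_le_mul_of_nonneg_left h2 hc]
  have h7 := mul_le_mul_of_nonneg_left h6 hN
  rw [div_mul_eq_mul_div, div_le_iff₀ (by positivity)]
  nlinarith only [h3, h5, h7]

/-- The standing assumptions hold for nearly balanced colourings. -/
theorem big_of (B : HBal H) (C : ECrit H r) : ∃ c σ : ℝ, 0 < c ∧ 0 < σ ∧
    ∀ (p : ℕ → ℝ) (μ Λ : ℝ), GReg H p μ Λ → ∀ᶠ n : ℕ in atTop, ∀ π : Fin n → Fin r, Bal π σ →
      Big (copies H (Fin n)) (offd (Fin n)) (Ins π) (p n ^ (H.edgeFinset.card - 1))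
        H.edgeFinset.card (kz W * (Λ + 1)) (c * Λ) := by
  obtain ⟨c, σ, hc, hσ, h1⟩ := count_big B C
  refine ⟨c / 2, σ, half_pos hc, hσ, fun p μ Λ R => ?_⟩
  have hΛ := R.pos
  filter_upwards [h1, R.bd, R.lim.eventually (le_mem_nhds (half_lt_self hΛ))] with n h2 h3 h4 π hπ
  have S := R.sys n
  have q0 : 0 ≤ p n ^ (H.edgeFinset.card - 1) := pow_nonneg (R.p0 n) _
  have hk : (1 : ℝ) ≤ kz W := by
    unfold kz
    exact_mod_cast Nat.one_le_two_pow
  refine ⟨S.card, fun T hT e he => Finset.mem_filter.2 ⟨mem_univ e, S.nd T hT e he⟩, C.hit π, q0,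
    pow_le_one₀ (R.p0 n) (R.p1 n), by have := S.h3; have := S.hk; omega, by nlinarith only [hk, hΛ],
    fun e => ?_, fun e he => ?_⟩
  · have e1 := mul_le_mul_of_nonneg_left (S.through e) q0
    rw [Fintype.card_fin] at e1
    have e2 := mul_le_mul_of_nonneg_left h3 (zero_le_one.trans hk)
    linarith
  · unfold lam
    have e1 := mul_le_mul_of_nonneg_left (h2 π hπ e he) q0
    have e2 := mul_le_mul_of_nonneg_left h4 hc.le
    linarith only [e1, e2]

end Pool.Agent.Work.MP_d4a230_co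
end

-- merged part: Pool.Agent.Work.MP_d4a230_co.KBP2
section
/-!
The ideal law of belief propagation.
-/

namespace Pool.Agent.Work.MP_d4a230_co

open Finset

variable {ι : Type} [DecidableEq ι] {𝒞 : Finset (Finset ι)} {𝓔 : Finset ι}
  {ins : ι → Prop} {q M l ε : ℝ} {k : ℕ}

lemma KBP2_zz_mem (B : Big 𝒞 𝓔 ins q k M l) (j : ℕ) (e : ι) :
    0 ≤ zz 𝒞 ins q j e ∧ zz 𝒞 ins q j e ≤ 1 := by
  induction j generalizing e with
  | zero => exact ⟨ind_nonneg _, ind_le_one _⟩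
  | succ j ih =>
    exact ⟨(Real.exp_pos _).le, Real.exp_le_one_iff.2 (neg_nonpos.2
      (B.rate_mem (fun g _ => ih g) e).1)⟩

lemma KBP2_ind_forall {α : Type} (s : Finset α) (P : α → Prop) :
    ind (∀ a ∈ s, P a) = ∏ a ∈ s, ind (P a) := by
  by_cases h : ∀ a ∈ s, P a
  · rw [ind_pos h, Finset.prod_eq_one fun a ha => ind_pos (h a ha)]
  · rw [ind_neg h]
    push Not at h
    obtain ⟨a, ha, hn⟩ := h
    exact (Finset.prod_eq_zero ha (ind_neg hn)).symm

lemma KBP2_sum_prop (w : Prop → ℝ) : ∑ a, w a * ind a = w True := by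
  rw [Finset.sum_eq_single_of_mem True (Finset.mem_univ _), ind_pos trivial, mul_one]
  exact fun a _ ha => by rw [ind_neg fun h => ha (eq_true h), mul_zero]

lemma KBP2_law [Fintype ι] (hq0 : 0 ≤ q) (hq1 : q ≤ 1) (j : ℕ) (e : ι) :
    law (bpRule ins) 𝒞 q (j + 1) e True =
      ∏ T ∈ 𝒞, (1 - q * ind (e ∈ T) * ∏ g ∈ T.erase e, law (bpRule ins) 𝒞 q j g True) := by
  have e1 : ∀ c : Finset ι → Option (ι → Prop), ind ((bpRule ins).upd j e c = True) =
      ∏ T, (1 - (c T).elim 0 fun l => ∏ g ∈ T.erase e, ind (l g)) := by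
    intro c
    rw [ind_congr (r := ∀ T ∈ univ, ∀ l, c T = some l → ¬ ∀ g ∈ T, g ≠ e → l g)
      (by simp [bpRule]), KBP2_ind_forall]
    refine Finset.prod_congr rfl fun T _ => ?_
    cases c T with
    | none => simp [ind_pos]
    | some l =>
      rw [Option.elim_some, ← KBP2_ind_forall, ← ind_not]
      refine ind_congr ?_
      simp only [Option.some.injEq, forall_eq', Finset.mem_erase, and_imp]
      exact not_congr ⟨fun h g h1 h2 => h g h2 h1, fun h g h1 h2 => h g h2 h1⟩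
  have hw := law_isW (𝒞 := 𝒞) (bpRule ins) hq0 hq1 j
  show EP _ _ = _
  rw [EP_congr e1]
  refine (EP_prod (fun (T : Finset ι) (o : Option (ι → Prop)) =>
    (1 : ℝ) - o.elim 0 fun l => ∏ g ∈ T.erase e, ind (l g))).trans ?_
  rw [← Finset.prod_subset (Finset.subset_univ 𝒞)]
  · refine Finset.prod_congr rfl fun T hT => ?_
    rw [cw_sum]
    simp only [Option.elim_none, Option.elim_some, mul_sub, Finset.sum_sub_distrib, mul_one,
      lw_sum hw, lw_sum_prod e T fun _ a => ind a, KBP2_sum_prop, hT, true_and]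
    ring
  · intro T _ hT
    rw [cw_sum, ind_neg fun h => hT h.1]
    simp

/-- The ideal law of belief propagation follows the mean field recursion. -/
theorem Big.law_bp [Fintype ι] (B : Big 𝒞 𝓔 ins q k M l) (j : ℕ) (e : ι) :
    |law (bpRule ins) 𝒞 q j e True - zz 𝒞 ins q j e| ≤ (k * M + 1) ^ j * (q * M) := by
  have hM : 0 ≤ M := by linarith [B.M1]
  have hqM := mul_nonneg B.q0 hM
  induction j generalizing e with
  | zero =>
    have : law (bpRule ins) 𝒞 q 0 e True = zz 𝒞 ins q 0 e := ind_congr (by simp [bpRule])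
    rw [this, sub_self, abs_zero]
    positivity
  | succ j ih =>
    have hw := law_isW (𝒞 := 𝒞) (bpRule ins) B.q0 B.q1 j
    have l1 : ∀ g, 0 ≤ law (bpRule ins) 𝒞 q j g True ∧ law (bpRule ins) 𝒞 q j g True ≤ 1 :=
      fun g => ⟨hw.1 _ _, (Finset.single_le_sum (fun a _ => hw.1 g a)
        (Finset.mem_univ True)).trans (hw.2 g).le⟩
    have hb : ∀ z : ι → ℝ, (∀ g, 0 ≤ z g ∧ z g ≤ 1) → ∀ T : Finset ι,
        0 ≤ q * ind (e ∈ T) * ∏ g ∈ T.erase e, z g ∧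
          q * ind (e ∈ T) * ∏ g ∈ T.erase e, z g ≤ q * ind (e ∈ T) := fun z hz T =>
      ⟨mul_nonneg (mul_nonneg B.q0 (ind_nonneg _)) (Finset.prod_nonneg fun g _ => (hz g).1),
        mul_le_of_le_one_right (mul_nonneg B.q0 (ind_nonneg _))
          (Finset.prod_le_one (fun g _ => (hz g).1) fun g _ => (hz g).2)⟩
    have hq : ∀ T : Finset ι, q * ind (e ∈ T) ≤ q := fun T =>
      mul_le_of_le_one_right B.q0 (ind_le_one _)
    have e2 : zz 𝒞 ins q (j + 1) e = ∏ T ∈ 𝒞,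
        Real.exp (-(q * ind (e ∈ T) * ∏ g ∈ T.erase e, zz 𝒞 ins q j g)) := by
      rw [← Real.exp_sum, Finset.sum_neg_distrib]
      simp only [zz, rate, Finset.mul_sum, mul_assoc]
    classical
    rw [KBP2_law B.q0 B.q1, e2]
    refine (abs_prod_sub_le (fun T _ => ?_) fun T _ => ?_).trans ?_
    · have := hb _ l1 T
      constructor <;> linarith [hq T, B.q1]
    · exact ⟨(Real.exp_pos _).le, Real.exp_le_one_iff.2 (neg_nonpos.2 (hb _ (KBP2_zz_mem B j) T).1)⟩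
    have hx : 0 ≤ (k * M + 1) ^ j * (q * M) := by positivity
    have h1 : ∀ T ∈ 𝒞, |1 - q * ind (e ∈ T) * ∏ g ∈ T.erase e, law (bpRule ins) 𝒞 q j g True -
        Real.exp (-(q * ind (e ∈ T) * ∏ g ∈ T.erase e, zz 𝒞 ins q j g))| ≤
        q * ind (e ∈ T) * (k * ((k * M + 1) ^ j * (q * M)) + q) := by
      intro T hT
      have a0 := mul_nonneg B.q0 (ind_nonneg (e ∈ T))
      have a1 := (abs_prod_sub_le (s := T.erase e) (fun g _ => l1 g)
        fun g _ => KBP2_zz_mem B j g).trans (Finset.sum_le_card_nsmul _ _ _ fun g _ => ih g)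
      have a2 : ((T.erase e).card : ℝ) ≤ k := by
        exact_mod_cast Finset.card_erase_le.trans (B.card T hT).le
      rw [nsmul_eq_mul] at a1
      obtain ⟨a3, a4⟩ := abs_le.1 (a1.trans (mul_le_mul_of_nonneg_right a2 hx))
      obtain ⟨a5, a6⟩ := hb _ (KBP2_zz_mem B j) T
      have a7 := Real.abs_exp_sub_one_sub_id_le
        (x := -(q * ind (e ∈ T) * ∏ g ∈ T.erase e, zz 𝒞 ins q j g))
        (by rw [abs_neg, abs_of_nonneg a5]; linarith [hq T, B.q1])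
      have a8 : (-(q * ind (e ∈ T) * ∏ g ∈ T.erase e, zz 𝒞 ins q j g)) ^ 2 ≤
          q * ind (e ∈ T) * q := by
        rw [neg_sq, sq]
        exact mul_le_mul a6 (a6.trans (hq T)) a5 a0
      obtain ⟨a9, a10⟩ := abs_le.1 (a7.trans a8)
      rw [abs_le]
      constructor <;> nlinarith only [a10, a4, a0, a9, a3, mul_le_mul_of_nonneg_left a3 a0, mul_le_mul_of_nonneg_left a4 a0]
    refine (Finset.sum_le_sum h1).trans ?_
    rw [← Finset.sum_mul, ← Finset.mul_sum]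
    refine (mul_le_mul_of_nonneg_right (B.up e) (by have := B.q0; positivity)).trans ?_
    have h2 : 1 ≤ (k * M + 1) ^ j := one_le_pow₀ (by nlinarith [Nat.cast_nonneg (α := ℝ) k])
    rw [pow_succ]
    nlinarith only [h2, hqM, mul_le_mul_of_nonneg_right h2 hqM]

end Pool.Agent.Work.MP_d4a230_co
end
end

-- merged part: Pool.Agent.Work.MP_d4a230_co.KVal
section
-- merged part: Pool.Agent.Work.MP_d4a230_co.KCount2b
section
/-!
The weighted number of all copies for a nearly balanced colouring.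
-/

namespace Pool.Agent.Work.MP_d4a230_co

open Finset

variable {W : Type} [Fintype W] [DecidableEq W] {H : SimpleGraph W} [DecidableRel H.Adj] {r : ℕ}

omit [Fintype W] [DecidableEq W] in
lemma KCount2b_pw {x y : ℝ} (hx : 0 ≤ x ∧ x ≤ 1) (hy : 0 ≤ y ∧ y ≤ 1) (χ : W → Fin r)
    (g : Sym2 W) : 0 ≤ pw χ x y g ∧ pw χ x y g ≤ 1 := by
  unfold pw
  split_ifs
  · exact hy
  · exact hx

lemma KCount2b_w (C : ECrit H r) {x y : ℝ} (hx : 0 ≤ x ∧ x ≤ 1) (hy : 0 ≤ y ∧ y ≤ 1)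
    (χ : W → Fin r) :
    0 ≤ ∏ g ∈ H.edgeFinset, pw χ x y g ∧ ∏ g ∈ H.edgeFinset, pw χ x y g ≤ y := by
  refine ⟨prod_nonneg fun g _ => (KCount2b_pw hx hy χ g).1, ?_⟩
  obtain ⟨e, he, hd⟩ := C.mono χ
  rw [← mul_prod_erase _ _ he]
  have h1 : pw χ x y e = y := by
    unfold pw
    rw [if_pos hd]
  rw [h1]
  exact mul_le_of_le_one_right hy.1
    (prod_le_one (fun g _ => (KCount2b_pw hx hy χ g).1) fun g _ => (KCount2b_pw hx hy χ g).2)

lemma KCount2b_first {w : (W → Fin r) → ℝ} (hw : ColInv w) (hr : 0 < r) (d : Fin r → ℝ)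
    (hd : ∑ i, d i = 0) (v : W) : ∑ χ : W → Fin r, w χ * d (χ v) = 0 := by
  have hr' : (r : ℝ) ≠ 0 := by exact_mod_cast hr.ne'
  have h1 : ∀ χ : W → Fin r, w χ * d (χ v) = ∑ i, d i * (ind (χ v = i) * w χ) := by
    intro χ
    rw [sum_eq_single (χ v)]
    · rw [ind_pos rfl]
      ring
    · intro i _ hi
      rw [ind_neg (Ne.symm hi)]
      ring
    · intro h
      exact absurd (mem_univ _) h
  have h2 : ∀ i, ∑ χ : W → Fin r, ind (χ v = i) * w χ = (∑ χ, w χ) / r := by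
    clear * - r W v w hw hr'
    intro i
    rw [← hw.one v i]
    field_simp
  rw [sum_congr rfl fun χ _ => h1 χ, sum_comm]
  simp only [← mul_sum, h2]
  rw [← sum_mul, hd, zero_mul]

lemma KCount2b_second {w : (W → Fin r) → ℝ} (hw : ColInv w) (hr : 0 < r) {y σ : ℝ}
    (hw0 : ∀ χ, 0 ≤ w χ ∧ w χ ≤ y) (z : Fin r → ℝ) (hz : ∀ i, 0 ≤ z i ∧ z i ≤ 1)
    (hs : ∑ i, z i = 1) (hσ : ∀ i, |z i - 1 / r| ≤ σ) :
    |∑ χ : W → Fin r, w χ * ∏ v, z (χ v) - (∑ χ, w χ) / (r : ℝ) ^ Fintype.card W| ≤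
      (r : ℝ) ^ Fintype.card W * (y * (Fintype.card W * σ) ^ 2) := by
  have hr1 : (1 : ℝ) ≤ r := by exact_mod_cast hr
  have hr0 : (0 : ℝ) < r := by linarith only [hr1]
  have ha : 0 ≤ 1 / (r : ℝ) ∧ 1 / (r : ℝ) ≤ 1 :=
    ⟨by positivity, by rw [div_le_one hr0]; exact hr1⟩
  have hd : ∑ i : Fin r, (z i - 1 / (r : ℝ)) = 0 := by
    rw [sum_sub_distrib, hs, sum_const, card_univ, Fintype.card_fin, nsmul_eq_mul]
    field_simp
    ring
  have h0 : ∑ χ : W → Fin r, w χ *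
      ∑ v, (z (χ v) - 1 / (r : ℝ)) * ∏ _f ∈ (univ : Finset W).erase v, 1 / (r : ℝ) = 0 := by
    simp only [mul_sum]
    rw [sum_comm]
    refine sum_eq_zero fun v _ => ?_
    have := KCount2b_first hw hr (fun i => z i - 1 / (r : ℝ)) hd v
    simp only [← mul_assoc]
    rw [← sum_mul, this, zero_mul]
  have h1 : ∑ χ : W → Fin r, w χ * ∏ v, z (χ v) - (∑ χ, w χ) / (r : ℝ) ^ Fintype.card W =
      ∑ χ : W → Fin r, w χ * (∏ v, z (χ v) - ∏ _v : W, 1 / (r : ℝ) -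
        ∑ v, (z (χ v) - 1 / (r : ℝ)) * ∏ _f ∈ (univ : Finset W).erase v, 1 / (r : ℝ)) := by
    simp only [mul_sub, sum_sub_distrib, h0]
    rw [sub_zero, prod_const, card_univ, ← sum_mul, one_div, inv_pow, div_eq_mul_inv]
  rw [h1]
  refine (abs_sum_le_sum_abs _ _).trans ?_
  have h2 : ∀ χ : W → Fin r, |w χ * (∏ v, z (χ v) - ∏ _v : W, 1 / (r : ℝ) -
      ∑ v, (z (χ v) - 1 / (r : ℝ)) * ∏ _f ∈ (univ : Finset W).erase v, 1 / (r : ℝ))| ≤
      y * (Fintype.card W * σ) ^ 2 := by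
    intro χ
    rw [abs_mul, abs_of_nonneg (hw0 χ).1]
    have h3 := prod_second (s := (univ : Finset W)) (z := fun v => z (χ v))
      (a := fun _ => 1 / (r : ℝ)) (fun v _ => hz _) fun _ _ => ha
    have h4 : ∑ v : W, |z (χ v) - 1 / (r : ℝ)| ≤ Fintype.card W * σ := by
      refine (sum_le_sum fun v _ => hσ (χ v)).trans ?_
      rw [sum_const, card_univ, nsmul_eq_mul]
    have h5 : 0 ≤ ∑ v : W, |z (χ v) - 1 / (r : ℝ)| := sum_nonneg fun _ _ => abs_nonneg _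
    exact mul_le_mul (hw0 χ).2 (h3.trans (pow_le_pow_left₀ h5 h4 2)) (abs_nonneg _)
      ((hw0 χ).1.trans (hw0 χ).2)
  refine (sum_le_sum fun χ _ => h2 χ).trans ?_
  rw [sum_const, card_univ, Fintype.card_fun, Fintype.card_fin, nsmul_eq_mul, Nat.cast_pow]

lemma KCount2b_maps {n : ℕ} (hn : 0 < n) (π : Fin n → Fin r) (w : (W → Fin r) → ℝ) :
    ∑ f : W → Fin n, w (π ∘ f) = (n : ℝ) ^ Fintype.card W *
      ∑ χ : W → Fin r, w χ * ∏ v, ((part π (χ v)).card : ℝ) / n := by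
  have hN : (n : ℝ) ^ Fintype.card W ≠ 0 := pow_ne_zero _ (by exact_mod_cast hn.ne')
  have h := sum_maps π (fun _ : W => (univ : Finset (Fin n))) w
  have h' : ∑ f : W → Fin n, w (π ∘ f) = ∑ f : W → Fin n,
      ind (∀ v, f v ∈ (fun _ : W => (univ : Finset (Fin n))) v) * w (π ∘ f) :=
    sum_congr rfl fun f _ => by rw [ind_pos fun v => mem_univ _, one_mul]
  rw [h', h, mul_sum]
  refine sum_congr rfl fun χ _ => ?_
  simp only [univ_inter]
  rw [prod_div_distrib, prod_const, card_univ, mul_left_comm, mul_div_cancel₀ _ hN]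

theorem count_total (B : HBal H) (C : ECrit H r) : ∃ c : ℝ, 0 ≤ c ∧ ∀ (n : ℕ), 0 < n →
    ∀ (π : Fin n → Fin r) (σ x y : ℝ), Bal π σ → 0 ≤ x ∧ x ≤ 1 → 0 ≤ y ∧ y ≤ 1 →
      |aut H * ∑ T ∈ copies H (Fin n), ∏ g ∈ T, pw π x y g -
        (n : ℝ) ^ Fintype.card W * psiF H r x y| ≤
        c * (n : ℝ) ^ Fintype.card W * (y * σ ^ 2 + 1 / n) := by
  have h3 := B.h3
  have hr : 0 < r := lt_of_lt_of_le two_pos (C.two_le (by have := B.hk; omega))
  refine ⟨(Fintype.card W : ℝ) ^ 2 * (r : ℝ) ^ Fintype.card W, by positivity, ?_⟩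
  intro n hn π σ x y hb hx hy
  have hN : (0 : ℝ) < n := by exact_mod_cast hn
  have hrp : (1 : ℝ) ≤ (r : ℝ) ^ Fintype.card W := one_le_pow₀ (by exact_mod_cast hr)
  set w : (W → Fin r) → ℝ := fun χ => ∏ g ∈ H.edgeFinset, pw χ x y g with hw
  have hw0 : ∀ χ, 0 ≤ w χ ∧ w χ ≤ y := fun χ => KCount2b_w C hx hy χ
  have hA : aut H * ∑ T ∈ copies H (Fin n), ∏ g ∈ T, pw π x y g =
      ∑ f : W ↪ Fin n, w (π ∘ f) := by
    rw [B.sum_copies fun T => ∏ g ∈ T, pw π x y g]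
    refine sum_congr rfl fun f _ => ?_
    rw [prod_img]
    exact prod_congr rfl fun g _ => pw_map π f x y g
  have hle := sum_emb_le (W := W) (V := Fin n) (fun f => w (π ∘ f)) fun f => (hw0 _).1
  have hge := sum_emb_ge (W := W) (V := Fin n) (fun f => w (π ∘ f)) fun f => (hw0 _).2.trans hy.2
  rw [Fintype.card_fin] at hge
  set z : Fin r → ℝ := fun i => ((part π i).card : ℝ) / n with hz
  have hsum : ∑ i, ((part π i).card : ℝ) = n := by
    rw [sum_part, Fintype.card_fin]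
  have hz0 : ∀ i, 0 ≤ z i ∧ z i ≤ 1 := by
    clear * - r z n π hn hN hsum
    intro i
    refine ⟨by positivity, ?_⟩
    rw [div_le_one hN, ← hsum]
    exact single_le_sum (f := fun i => ((part π i).card : ℝ)) (fun _ _ => Nat.cast_nonneg _)
      (mem_univ i)
  have hz1 : ∑ i, z i = 1 := by
    rw [← sum_div, hsum, div_self hN.ne']
  have hzσ : ∀ i, |z i - 1 / r| ≤ σ := by
    intro i
    have h := hb i
    rw [Fintype.card_fin] at h
    have h' : z i - 1 / r = (((part π i).card : ℝ) - n / r) / n := by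
      simp only [hz]
      field_simp
    rw [h', abs_div, abs_of_pos hN, div_le_iff₀ hN]
    exact h
  have hM : ∑ f : W → Fin n, w (π ∘ f) =
      (n : ℝ) ^ Fintype.card W * ∑ χ : W → Fin r, w χ * ∏ v, z (χ v) := by
    exact KCount2b_maps hn π w
  have h2 := KCount2b_second (colInv_pw H.edgeFinset x y) hr hw0 z hz0 hz1 hzσ
  have hP : (0 : ℝ) < (n : ℝ) ^ Fintype.card W := by positivity
  have hpow : (n : ℝ) ^ (Fintype.card W - 1) = (n : ℝ) ^ Fintype.card W * (1 / n) := by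
    obtain ⟨k, hk⟩ : ∃ k, Fintype.card W = k + 1 := ⟨Fintype.card W - 1, by omega⟩
    rw [hk, Nat.add_sub_cancel, pow_succ]
    field_simp
  have h4 : |∑ f : W → Fin n, w (π ∘ f) - (n : ℝ) ^ Fintype.card W * psiF H r x y| ≤
      (n : ℝ) ^ Fintype.card W *
        ((r : ℝ) ^ Fintype.card W * (y * (Fintype.card W * σ) ^ 2)) := by
    rw [hM, ← mul_sub, abs_mul, abs_of_pos hP]
    exact mul_le_mul_of_nonneg_left h2 hP.le
  rw [hA]
  rw [hpow] at hge
  have h5 : (Fintype.card W : ℝ) ^ 2 * ((n : ℝ) ^ Fintype.card W * (1 / n)) ≤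
      (Fintype.card W : ℝ) ^ 2 * ((n : ℝ) ^ Fintype.card W * (1 / n)) *
        (r : ℝ) ^ Fintype.card W :=
    le_mul_of_one_le_right (by positivity) hrp
  have h6 : (Fintype.card W : ℝ) ^ 2 * (r : ℝ) ^ Fintype.card W * (n : ℝ) ^ Fintype.card W *
      (y * σ ^ 2 + 1 / n) = (n : ℝ) ^ Fintype.card W *
        ((r : ℝ) ^ Fintype.card W * (y * (Fintype.card W * σ) ^ 2)) +
      (Fintype.card W : ℝ) ^ 2 * ((n : ℝ) ^ Fintype.card W * (1 / n)) *
        (r : ℝ) ^ Fintype.card W := by ring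
  have h7 : 0 ≤ (Fintype.card W : ℝ) ^ 2 * ((n : ℝ) ^ Fintype.card W * (1 / n)) := by positivity
  rw [h6]
  rw [abs_le] at h4 ⊢
  constructor <;> linarith only [hge, h4, h5, hle, h4.1, h4.2]

end Pool.Agent.Work.MP_d4a230_co
end

-- merged part: Pool.Agent.Work.MP_d4a230_co.KFix2
section
/-!
First order conditions at a maximiser.
-/

namespace Pool.Agent.Work.MP_d4a230_co

open Finset

variable {W : Type} [Fintype W] [DecidableEq W] {H : SimpleGraph W} [DecidableRel H.Adj] {r : ℕ}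

open Filter Topology in
lemma KFix2_one {α x : ℝ} (hα : 0 < α) {g g' : ℝ → ℝ} (hg : ∀ t, HasDerivAt g (g' t) t)
    (hx : 0 ≤ x ∧ x ≤ 1) (h0 : 0 ≤ g' x)
    (h : ∀ t, 0 ≤ t ∧ t ≤ 1 → α * hh t - g t ≤ α * hh x - g x) :
    0 < x ∧ α * Real.log x = -g' x := by
  have x0 : 0 < x := by
    refine hx.1.lt_of_ne fun h1 => ?_
    subst h1
    have l1 := ((hg 0).tendsto_slope_zero_right).eventually (gt_mem_nhds (lt_add_one _))
    have l2 := Real.tendsto_log_nhdsGT_zero.eventually (eventually_le_atBot (-((g' 0 + 1) / α)))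
    have l3 : ∀ᶠ t in 𝓝[>] (0 : ℝ), t ∈ Set.Ioo (0 : ℝ) 1 := Ioo_mem_nhdsGT one_pos
    obtain ⟨t, t1, t2, t3, t4⟩ := (l1.and (l2.and l3)).exists
    have e1 := h t ⟨t3.le, t4.le⟩
    rw [zero_add, smul_eq_mul, inv_mul_lt_iff₀ t3] at t1
    rw [le_neg, div_le_iff₀ hα] at t2
    have e2 := mul_le_mul_of_nonneg_left t2 t3.le
    have e3 := mul_pos hα t3
    unfold hh at e1
    simp only [Real.log_zero, mul_zero, sub_zero] at e1
    linarith
  have d1 : HasDerivAt (fun t => α * hh t - g t) (-(α * Real.log x) - g' x) x := by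
    have := (((hasDerivAt_id x).sub (Real.hasDerivAt_mul_log x0.ne')).const_mul α).sub (hg x)
    exact this.congr_deriv (by ring)
  refine ⟨x0, ?_⟩
  rcases hx.2.lt_or_eq with h1 | h1
  · have : IsLocalMax (fun t => α * hh t - g t) x := by
      filter_upwards [Icc_mem_nhds x0 h1] with t ht using h t ht
    linarith [this.hasDerivAt_eq_zero d1]
  · subst h1
    rw [Real.log_one, mul_zero] at d1 ⊢
    refine le_antisymm (not_lt.1 fun hc => ?_) (by linarith)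
    have l1 := (hasDerivAt_iff_tendsto_slope_left_right.1 d1).1.eventually
      (gt_mem_nhds (show -0 - g' 1 < 0 by linarith))
    have l3 : ∀ᶠ t in 𝓝[<] (1 : ℝ), t ∈ Set.Ioo (0 : ℝ) 1 := Ioo_mem_nhdsLT one_pos
    obtain ⟨t, t1, t3, t4⟩ := (l1.and l3).exists
    rw [slope_def_field, div_neg_iff] at t1
    have e1 := h t ⟨t3.le, t4.le⟩
    rcases t1 with t1 | t1
    · linarith [t1.1]
    · linarith [t1.2]

omit [Fintype W] [DecidableEq W] in
lemma KFix2_pw {x y : ℝ} (hx : 0 ≤ x) (hy : 0 ≤ y) (χ : W → Fin r) (e : Sym2 W) :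
    0 ≤ pw χ x y e := by
  unfold pw
  split_ifs <;> assumption

lemma KFix2_dx (y x : ℝ) : HasDerivAt (fun t => psiF H r t y) (rcr H r x y) x := by
  refine (HasDerivAt.fun_sum fun χ _ => ?_).div_const _
  refine (HasDerivAt.fun_finsetProd (f' := fun e => ind (¬ (e.map χ).IsDiag))
    fun e _ => ?_).congr_deriv (Finset.sum_congr rfl fun e _ => by rw [smul_eq_mul, mul_comm])
  unfold pw
  by_cases h : (e.map χ).IsDiag
  · simpa [h, ind_neg] using hasDerivAt_const x y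
  · simpa [h, ind_pos] using hasDerivAt_id' x

lemma KFix2_dy (x y : ℝ) : HasDerivAt (fun t => psiF H r x t) (rin H r x y) y := by
  refine (HasDerivAt.fun_sum fun χ _ => ?_).div_const _
  refine (HasDerivAt.fun_finsetProd (f' := fun e => ind (e.map χ).IsDiag)
    fun e _ => ?_).congr_deriv (Finset.sum_congr rfl fun e _ => by rw [smul_eq_mul, mul_comm])
  unfold pw
  by_cases h : (e.map χ).IsDiag
  · simpa [h, ind_pos] using hasDerivAt_id' y
  · simpa [h, ind_neg] using hasDerivAt_const y x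

/-- The first order conditions at a maximiser. -/
theorem IsOpt.fix (hr : 2 ≤ r) {a x y : ℝ} (ha : 0 ≤ a) (h : IsOpt H r a x y) :
    0 < x ∧ 0 < y ∧ Real.log x = -(a * (r / ((r : ℝ) - 1)) * rcr H r x y) ∧
      Real.log y = -(a * r * rin H r x y) := by
  obtain ⟨hx, hy, h⟩ := h
  have r2 : (2 : ℝ) ≤ r := by exact_mod_cast hr
  have r0 : (0 : ℝ) < r := by linarith
  have r1 : (0 : ℝ) < r - 1 := by linarith
  have e0 : 1 - 1 / (r : ℝ) = (r - 1) / r := by field_simp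
  have nn : ∀ q : (W → Fin r) → Sym2 W → Prop, 0 ≤ (∑ χ : W → Fin r, ∑ e ∈ H.edgeFinset,
      ind (q χ e) * ∏ g ∈ H.edgeFinset.erase e, pw χ x y g) / (r : ℝ) ^ Fintype.card W := fun q =>
    div_nonneg (Finset.sum_nonneg fun χ _ => Finset.sum_nonneg fun e _ => mul_nonneg (ind_nonneg _)
      (Finset.prod_nonneg fun g _ => KFix2_pw hx.1 hy.1 χ g)) (by positivity)
  obtain ⟨x0, x1⟩ := KFix2_one (α := 1 - 1 / (r : ℝ)) (by rw [e0]; positivity)
    (fun t => (KFix2_dx (H := H) (r := r) y t).const_mul a) hx (mul_nonneg ha (nn _)) fun t ht => by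
      have := h t y ht hy
      unfold phiF at this
      linarith only [this]
  obtain ⟨y0, y1⟩ := KFix2_one (α := 1 / (r : ℝ)) (by positivity)
    (fun t => (KFix2_dy (H := H) (r := r) x t).const_mul a) hy (mul_nonneg ha (nn _)) fun t ht => by
      have := h x t hx ht
      unfold phiF at this
      linarith only [this]
  refine ⟨x0, y0, ?_, ?_⟩
  · rw [e0] at x1
    calc Real.log x = r / ((r : ℝ) - 1) * ((r - 1) / r * Real.log x) := by field_simp
      _ = _ := by rw [x1]; ring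
  · calc Real.log y = r * (1 / (r : ℝ) * Real.log y) := by field_simp
      _ = _ := by rw [y1]; ring

end Pool.Agent.Work.MP_d4a230_co
end

-- merged part: Pool.Agent.Work.MP_d4a230_co.KVal1
section
/-!
The values of the mean field recursion compared with the maximum of the Bethe function.
-/

namespace Pool.Agent.Work.MP_d4a230_co

open Finset Filter Topology

variable {W : Type} [Fintype W] [DecidableEq W] {H : SimpleGraph W} [DecidableRel H.Adj] {r : ℕ}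

lemma KVal1_gap {A S N R K q Λ η t t' c : ℝ} (hA : 1 ≤ A) (h : |A * S - N * R| ≤ c * N * t)
    (R0 : 0 ≤ R) (RK : R ≤ K) (q0 : 0 ≤ q) (hL : |N * q - Λ| ≤ η) (η1 : η ≤ 1)
    (tt : t ≤ t') (ηt : η ≤ t') (N0 : 0 ≤ N) (Λ0 : 0 ≤ Λ) (c0 : 0 ≤ c) :
    |-(Λ / A * R) + q * S| ≤ (c + K) * (Λ + 1) * t' := by
  have A0 : 0 < A := by linarith
  have η0 : 0 ≤ η := (abs_nonneg _).trans hL
  have t0 : 0 ≤ t' := η0.trans ηt
  have K0 : 0 ≤ K := R0.trans RK
  have e : -(Λ / A * R) + q * S = (q * (A * S - N * R) + (N * q - Λ) * R) / A := by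
    field_simp
    ring
  have h1 : |q * (A * S - N * R)| ≤ c * (Λ + 1) * t' := by
    clear * - q A S N R c Λ t' q0 η η1 hL t h tt c0 N0 t0
    rw [abs_mul, abs_of_nonneg q0]
    have h2 : N * q ≤ Λ + 1 := by linarith [(abs_le.1 hL).2]
    calc q * |A * S - N * R| ≤ q * (c * N * t) := mul_le_mul_of_nonneg_left h q0
      _ = c * (N * q) * t := by ring
      _ ≤ c * (N * q) * t' := mul_le_mul_of_nonneg_left tt (by positivity)
      _ ≤ c * (Λ + 1) * t' := by gcongr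
  have h2 : |(N * q - Λ) * R| ≤ K * (Λ + 1) * t' := by
    clear * - N q Λ R K t' R0 η hL ηt RK t0 Λ0 K0
    rw [abs_mul, abs_of_nonneg R0]
    calc |N * q - Λ| * R ≤ t' * K := mul_le_mul (hL.trans ηt) RK R0 t0
      _ = K * 1 * t' := by ring
      _ ≤ K * (Λ + 1) * t' := by gcongr; linarith
  rw [e, abs_div, abs_of_pos A0]
  refine (div_le_self (abs_nonneg _) hA).trans ((abs_add_le _ _).trans ?_)
  linarith

lemma KVal1_exp {s t : ℝ} (hs : s ≤ 0) (ht : t ≤ 0) : |Real.exp s - Real.exp t| ≤ |s - t| := by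
  have key : ∀ a b : ℝ, a ≤ 0 → b ≤ a → Real.exp a - Real.exp b ≤ a - b := by
    intro a b ha hb
    have h1 : Real.exp b = Real.exp a * Real.exp (b - a) := by
      rw [← Real.exp_add]; congr 1; ring
    have h2 := Real.add_one_le_exp (b - a)
    have h3 : Real.exp a ≤ 1 := Real.exp_le_one_iff.2 ha
    have h4 := Real.exp_pos a
    rw [h1]
    nlinarith only [hb, h3, h2, h4]
  rcases le_total s t with h | h
  · rw [abs_sub_comm, abs_sub_comm s, abs_of_nonneg (sub_nonneg.2 (Real.exp_le_exp.2 h)),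
      abs_of_nonneg (sub_nonneg.2 h)]
    exact key t s ht h
  · rw [abs_of_nonneg (sub_nonneg.2 (Real.exp_le_exp.2 h)), abs_of_nonneg (sub_nonneg.2 h)]
    exact key s t hs h

lemma KVal1_pw {V κ : Type} [DecidableEq κ] (π : V → κ) {x y : ℝ} (hx : 0 ≤ x ∧ x ≤ 1)
    (hy : 0 ≤ y ∧ y ≤ 1) (e : Sym2 V) : 0 ≤ pw π x y e ∧ pw π x y e ≤ 1 := by
  unfold pw
  split_ifs
  · exact hy
  · exact hx

lemma KVal1_prod {V κ : Type} [DecidableEq κ] (π : V → κ) {x y : ℝ} (hx : 0 ≤ x ∧ x ≤ 1)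
    (hy : 0 ≤ y ∧ y ≤ 1) (s : Finset (Sym2 V)) :
    0 ≤ ∏ e ∈ s, pw π x y e ∧ ∏ e ∈ s, pw π x y e ≤ 1 :=
  ⟨prod_nonneg fun e _ => (KVal1_pw π hx hy e).1,
    prod_le_one (fun e _ => (KVal1_pw π hx hy e).1) fun e _ => (KVal1_pw π hx hy e).2⟩

lemma KVal1_avg (hr : 0 < r) {f : (W → Fin r) → ℝ} {K : ℝ} (h : ∀ χ, 0 ≤ f χ ∧ f χ ≤ K) :
    0 ≤ (∑ χ, f χ) / (r : ℝ) ^ Fintype.card W ∧ (∑ χ, f χ) / (r : ℝ) ^ Fintype.card W ≤ K := by
  have r0 : (0 : ℝ) < r := by exact_mod_cast hr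
  refine ⟨div_nonneg (sum_nonneg fun χ _ => (h χ).1) (by positivity), ?_⟩
  rw [div_le_iff₀ (by positivity)]
  refine (sum_le_sum fun χ _ => (h χ).2).trans ?_
  simp [mul_comm]

lemma KVal1_psi (hr : 0 < r) {x y : ℝ} (hx : 0 ≤ x ∧ x ≤ 1) (hy : 0 ≤ y ∧ y ≤ 1) :
    0 ≤ psiF H r x y ∧ psiF H r x y ≤ 1 :=
  KVal1_avg hr fun χ => KVal1_prod χ hx hy _

lemma KVal1_sum {x y : ℝ} (hx : 0 ≤ x ∧ x ≤ 1) (hy : 0 ≤ y ∧ y ≤ 1) (χ : W → Fin r)
    (P : Sym2 W → Prop) :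
    0 ≤ ∑ e ∈ H.edgeFinset, ind (P e) * ∏ g ∈ H.edgeFinset.erase e, pw χ x y g ∧
    ∑ e ∈ H.edgeFinset, ind (P e) * ∏ g ∈ H.edgeFinset.erase e, pw χ x y g ≤
      H.edgeFinset.card := by
  refine ⟨sum_nonneg fun e _ => mul_nonneg (ind_nonneg _) (KVal1_prod χ hx hy _).1, ?_⟩
  refine (sum_le_sum (g := fun _ => (1 : ℝ)) fun e _ => ?_).trans (by simp)
  exact mul_le_one₀ (ind_le_one _) (KVal1_prod χ hx hy _).1 (KVal1_prod χ hx hy _).2

lemma KVal1_rin (hr : 0 < r) {x y : ℝ} (hx : 0 ≤ x ∧ x ≤ 1) (hy : 0 ≤ y ∧ y ≤ 1) :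
    0 ≤ rin H r x y ∧ rin H r x y ≤ H.edgeFinset.card :=
  KVal1_avg hr fun χ => KVal1_sum hx hy χ _

lemma KVal1_rcr (hr : 0 < r) {x y : ℝ} (hx : 0 ≤ x ∧ x ≤ 1) (hy : 0 ≤ y ∧ y ≤ 1) :
    0 ≤ rcr H r x y ∧ rcr H r x y ≤ H.edgeFinset.card :=
  KVal1_avg hr fun χ => KVal1_sum hx hy χ _

lemma KVal1_sigma {n : ℕ} (hn : 0 < n) (hr : 0 < r) (π : Fin n → Fin r) :
    ∃ σ : ℝ, 0 ≤ σ ∧ Bal π σ ∧
      ∑ i, ((part π i).card : ℝ) ^ 2 = (n : ℝ) ^ 2 * (1 / r + σ ^ 2) := by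
  have n0 : (0 : ℝ) < n := by exact_mod_cast hn
  have r0 : (0 : ℝ) < r := by exact_mod_cast hr
  refine ⟨√(∑ i, (((part π i).card : ℝ) / n - 1 / r) ^ 2), Real.sqrt_nonneg _, fun i => ?_, ?_⟩
  · rw [Fintype.card_fin]
    have h1 : |((part π i).card : ℝ) / n - 1 / r| ≤
        √(∑ i, (((part π i).card : ℝ) / n - 1 / r) ^ 2) :=
      Real.abs_le_sqrt (single_le_sum (f := fun i => (((part π i).card : ℝ) / n - 1 / r) ^ 2)
        (fun i _ => sq_nonneg _) (mem_univ i))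
    have h2 : ((part π i).card : ℝ) - n / r = (((part π i).card : ℝ) / n - 1 / r) * n := by
      field_simp
    rw [h2, abs_mul, abs_of_pos n0]
    exact mul_le_mul_of_nonneg_right h1 n0.le
  · rw [Real.sq_sqrt (sum_nonneg fun i _ => sq_nonneg _)]
    have h1 : ∀ i, (((part π i).card : ℝ) / n - 1 / r) ^ 2 =
        ((part π i).card : ℝ) ^ 2 / n ^ 2 - 2 / (n * r) * ((part π i).card : ℝ) + 1 / r ^ 2 := by
      intro i
      field_simp
      ring
    simp only [h1, sum_add_distrib, sum_sub_distrib, ← mul_sum, ← sum_div, sum_part,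
      Fintype.card_fin, sum_const, card_univ, nsmul_eq_mul]
    field_simp
    ring

lemma KVal1_bal0 {n : ℕ} (hr : 0 < r) {π : Fin n → Fin r} (h : Bal π 0) :
    ∑ i, ((part π i).card : ℝ) ^ 2 = (n : ℝ) ^ 2 * (1 / r + 0 ^ 2) := by
  have r0 : (0 : ℝ) < r := by exact_mod_cast hr
  have h1 : ∀ i, ((part π i).card : ℝ) = n / r := by
    intro i
    have := h i
    rw [zero_mul, abs_nonpos_iff, Fintype.card_fin] at this
    linarith only [this]
  simp only [h1, sum_const, card_univ, Fintype.card_fin, nsmul_eq_mul]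
  field_simp
  ring

lemma KVal1_ins {V κ : Type} [Fintype V] [DecidableEq V] [DecidableEq κ] (π : V → κ) (x y : ℝ)
    {e : Sym2 V} (he : e ∈ offd V) :
    (Ins π e → pw π x y e = y) ∧ (¬ Ins π e → pw π x y e = x) := by
  have h : ¬ e.IsDiag := (mem_filter.1 he).2
  refine ⟨fun hi => if_pos hi.2, fun hi => if_neg fun hd => hi ⟨h, hd⟩⟩

lemma KVal1_hh {n : ℕ} (π : Fin n → Fin r) (x y : ℝ) {σ : ℝ}
    (h : ∑ i, ((part π i).card : ℝ) ^ 2 = (n : ℝ) ^ 2 * (1 / r + σ ^ 2)) :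
    ∑ e ∈ offd (Fin n), hh (pw π x y e) = (n : ℝ) ^ 2 / 2 *
      ((1 - 1 / (r : ℝ)) * hh x + 1 / (r : ℝ) * hh y - σ ^ 2 * (hh x - hh y)) - n / 2 * hh y := by
  have h1 : ∀ e ∈ offd (Fin n), hh (pw π x y e) = hh x - (hh x - hh y) * ind (Ins π e) := by
    intro e he
    by_cases hi : Ins π e
    · rw [(KVal1_ins π x y he).1 hi, ind_pos hi]; ring
    · rw [(KVal1_ins π x y he).2 hi, ind_neg hi]; ring
  have h2 := card_offd (V := Fin n)
  have h3 := count_ins π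
  rw [h, Fintype.card_fin] at h3
  rw [Fintype.card_fin] at h2
  rw [sum_congr rfl h1, sum_sub_distrib, ← mul_sum, sum_const, nsmul_eq_mul]
  have h4 : ((offd (Fin n)).card : ℝ) = ((n : ℝ) ^ 2 - n) / 2 := by linarith only [h2]
  have h5 : ∑ e ∈ offd (Fin n), ind (Ins π e) = ((n : ℝ) ^ 2 * (1 / r + σ ^ 2) - n) / 2 := by
    linarith only [h3]
  rw [h4, h5]
  ring

/-- The estimates at the two-valued vector. -/
lemma KVal1_est (B : HBal H) (C : ECrit H r) : ∃ c2 c3 : ℝ, 0 ≤ c2 ∧ 0 ≤ c3 ∧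
    ∀ (n : ℕ) (π : Fin n → Fin r) (q Λ η x y σ : ℝ), 0 < n → 1 / (n : ℝ) ≤ η → η ≤ 1 → 0 ≤ Λ →
      |(n : ℝ) ^ (Fintype.card W - 2) * q - Λ| ≤ η → 0 ≤ q → IsOpt H r (2 * Λ / aut H) x y →
      0 ≤ σ → Bal π σ →
      (∀ e ∈ offd (Fin n), Ins π e → |Real.log (pw π x y e) +
        rate (copies H (Fin n)) q (pw π x y) e| ≤ c3 * (Λ + 1) * (σ + η)) ∧
      (∀ e ∈ offd (Fin n), ¬ Ins π e → |Real.log (pw π x y e) +
        rate (copies H (Fin n)) q (pw π x y) e| ≤ c3 * (Λ + 1) * (y * σ + η)) ∧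
      |tot (copies H (Fin n)) q (pw π x y) - (n : ℝ) ^ 2 / 2 * (2 * Λ / aut H * psiF H r x y)| ≤
        (n : ℝ) ^ 2 / 2 * (c2 * (Λ + 1) * (y * σ ^ 2 + η)) := by
  obtain ⟨c1, c10, h1⟩ := count_rate B C
  obtain ⟨c2, c20, h2⟩ := count_total B C
  have hr : 2 ≤ r := C.two_le (by have := B.h3; have := B.hk; omega)
  have r2 : (2 : ℝ) ≤ r := by exact_mod_cast hr
  have hr0 : 0 < r := by omega
  refine ⟨2 * (c2 + 1), c1 + 2 * r * H.edgeFinset.card, by positivity, by positivity, ?_⟩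
  intro n π q Λ η x y σ hn hη η1 Λ0 hL q0 O σ0 hB
  have n0 : (0 : ℝ) < n := by exact_mod_cast hn
  have A1 : 1 ≤ aut H := one_le_aut
  obtain ⟨-, -, fx, fy⟩ := O.fix hr (by positivity)
  have N0 : (0 : ℝ) ≤ (n : ℝ) ^ (Fintype.card W - 2) := by positivity
  have k0 : (0 : ℝ) ≤ H.edgeFinset.card := Nat.cast_nonneg _
  refine ⟨fun e he hi => ?_, fun e he hi => ?_, ?_⟩
  · have h3 := (h1 n hn π σ x y σ0 hB O.1 O.2.1 e (mem_filter.1 he).2).1 hi
    have h4 := KVal1_rin (H := H) hr0 O.1 O.2.1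
    have h5 := KVal1_gap (K := 2 * r * H.edgeFinset.card) (t' := σ + η) A1 h3
      (by have := h4.1; positivity) (by have := h4.2; gcongr) q0 hL η1 (by linarith only [hη])
      (by linarith only [σ0]) N0 Λ0 c10
    rw [(KVal1_ins π x y he).1 hi, fy]
    convert h5 using 2
    unfold rate
    ring
  · have h3 := (h1 n hn π σ x y σ0 hB O.1 O.2.1 e (mem_filter.1 he).2).2 hi
    have h4 := KVal1_rcr (H := H) hr0 O.1 O.2.1
    have h6 : (r : ℝ) / ((r : ℝ) - 1) ≤ r := div_le_self (by linarith only [r2]) (by linarith only [r2])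
    have h7 : (0 : ℝ) ≤ (r : ℝ) / ((r : ℝ) - 1) := div_nonneg (by linarith only [r2]) (by linarith only [r2])
    have h8 : 0 ≤ y * σ := mul_nonneg O.2.1.1 σ0
    have h5 := KVal1_gap (K := 2 * r * H.edgeFinset.card) (t' := y * σ + η) A1 h3
      (by have := h4.1; positivity) (by have := h4.2; have := h4.1; gcongr) q0 hL η1
      (by linarith only [hη]) (by linarith only [h8]) N0 Λ0 c10
    rw [(KVal1_ins π x y he).2 hi, fx]
    convert h5 using 2
    unfold rate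
    ring
  · have h3 := h2 n hn π σ x y hB O.1 O.2.1
    have h4 := KVal1_psi (H := H) hr0 O.1 O.2.1
    have hp : (n : ℝ) ^ Fintype.card W = (n : ℝ) ^ (Fintype.card W - 2) * (n : ℝ) ^ 2 := by
      rw [← pow_add]
      congr 1
      have := B.h3
      omega
    have n2 : (0 : ℝ) < (n : ℝ) ^ 2 := by positivity
    have h3' : |aut H * ((∑ T ∈ copies H (Fin n), ∏ g ∈ T, pw π x y g) / (n : ℝ) ^ 2) -
        (n : ℝ) ^ (Fintype.card W - 2) * psiF H r x y| ≤
        c2 * (n : ℝ) ^ (Fintype.card W - 2) * (y * σ ^ 2 + 1 / n) := by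
      clear * - n W H r π x y c2 σ n2 hn hp h3
      refine le_of_mul_le_mul_right ?_ n2
      rw [← abs_of_pos n2, ← abs_mul, abs_of_pos n2]
      rw [hp] at h3
      refine le_of_eq_of_le (congrArg abs ?_) (h3.trans_eq ?_)
      · field_simp
      · ring
    have h8 : 0 ≤ y * σ ^ 2 := mul_nonneg O.2.1.1 (sq_nonneg _)
    have h5 := KVal1_gap (K := 1) (t' := y * σ ^ 2 + η) A1 h3' h4.1 h4.2 q0 hL η1
      (by linarith only [hη]) (by linarith only [h8]) N0 Λ0 c20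
    have h6 := mul_le_mul_of_nonneg_left h5 n2.le
    rw [← abs_of_pos n2, ← abs_mul, abs_of_pos n2] at h6
    refine le_of_eq_of_le (congrArg abs ?_) (h6.trans_eq ?_)
    · unfold tot
      field_simp
      ring
    · ring

lemma KVal1_up {c c2 c3 D ε η y σ d : ℝ} (c20 : 0 ≤ c2) (hc : 2 * c2 + 16 * c3 ^ 2 ≤ c)
    (D1 : 1 ≤ D) (ε1 : ε ≤ 1) (η0 : 0 ≤ η) (η1 : η ≤ 1) (y0 : 0 ≤ y) (yε : y ≤ ε)
    (hd : 1 / 2 ≤ d) (hε : c * D ^ 2 * ε ≤ 1) :
    -(σ ^ 2 * d) + c2 * D * (y * σ ^ 2 + η) + (2 * ε * (c3 * D * (σ + η)) ^ 2 +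
      2 * (c3 * D * (y * σ + η)) ^ 2) ≤ c * D ^ 2 * η := by
  have ε0 : 0 ≤ ε := y0.trans yε
  have D0 : 0 ≤ D := by linarith only [D1]
  have DD : D ≤ D ^ 2 := by nlinarith only [D1]
  have ηη : η ^ 2 ≤ η := by nlinarith only [η0, η1]
  have h1 : (σ + η) ^ 2 ≤ 2 * σ ^ 2 + 2 * η := by nlinarith only [ηη, sq_nonneg (σ - η)]
  have h2 : (y * σ + η) ^ 2 ≤ 2 * (ε * σ ^ 2) + 2 * η := by
    clear * - y ε yε y0 ε1 σ η ηη
    have h3 : y ^ 2 ≤ ε := by nlinarith only [yε, ε1, y0]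
    have h4 : y ^ 2 * σ ^ 2 ≤ ε * σ ^ 2 := by gcongr
    nlinarith only [ηη, h4, sq_nonneg (y * σ - η)]
  have h3 : 2 * ε * (c3 * D * (σ + η)) ^ 2 ≤
      4 * (c3 ^ 2 * D ^ 2 * ε * σ ^ 2) + 4 * (c3 ^ 2 * D ^ 2 * η) := by
    clear * - ε c3 D σ η h1 ε0 D1 ε1 η0
    calc 2 * ε * (c3 * D * (σ + η)) ^ 2 = 2 * ε * (c3 ^ 2 * D ^ 2) * (σ + η) ^ 2 := by ring
      _ ≤ 2 * ε * (c3 ^ 2 * D ^ 2) * (2 * σ ^ 2 + 2 * η) := by gcongr
      _ = 4 * (c3 ^ 2 * D ^ 2 * ε * σ ^ 2) + 4 * (c3 ^ 2 * D ^ 2 * η) * ε := by ring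
      _ ≤ 4 * (c3 ^ 2 * D ^ 2 * ε * σ ^ 2) + 4 * (c3 ^ 2 * D ^ 2 * η) * 1 := by gcongr
      _ = _ := by ring
  have h4 : 2 * (c3 * D * (y * σ + η)) ^ 2 ≤
      4 * (c3 ^ 2 * D ^ 2 * ε * σ ^ 2) + 4 * (c3 ^ 2 * D ^ 2 * η) := by
    clear * - c3 D y σ η ε h2 D1
    calc 2 * (c3 * D * (y * σ + η)) ^ 2 = 2 * (c3 ^ 2 * D ^ 2) * (y * σ + η) ^ 2 := by ring
      _ ≤ 2 * (c3 ^ 2 * D ^ 2) * (2 * (ε * σ ^ 2) + 2 * η) := by gcongr
      _ = _ := by ring
  have h5 : c2 * D * (y * σ ^ 2 + η) ≤ c2 * D ^ 2 * ε * σ ^ 2 + c2 * D ^ 2 * η := by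
    clear * - c2 D y σ η ε DD c20 yε y0 η0 D1
    calc c2 * D * (y * σ ^ 2 + η) ≤ c2 * D ^ 2 * (ε * σ ^ 2 + η) := by gcongr
      _ = _ := by ring
  have h6 : (2 * c2 + 16 * c3 ^ 2) * D ^ 2 * ε * σ ^ 2 ≤ 1 * σ ^ 2 := by
    refine mul_le_mul_of_nonneg_right (le_trans ?_ hε) (sq_nonneg _)
    gcongr
  have h7 : (2 * c2 + 16 * c3 ^ 2) * D ^ 2 * η ≤ c * D ^ 2 * η := by gcongr
  have h8 : σ ^ 2 * (1 / 2) ≤ σ ^ 2 * d := by gcongr
  have h9 : 0 ≤ c2 * D ^ 2 * η := by positivity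
  have h10 : 0 ≤ c3 ^ 2 * D ^ 2 * η := by positivity
  clear * - σ d c2 D y η ε c3 c h3 h4 h5 h6 h7 h8 h9 h10
  nlinarith only [h3, h4, h5, h6, h7, h8, h9, h10]

/-- The finite statement: `η` bounds `1 / n` and the distance of `n ^ (h - 2) q` to `Λ`. -/
theorem val_fin (B : HBal H) (C : ECrit H r) : ∃ c : ℝ, 0 ≤ c ∧
    ∀ (n : ℕ) (π : Fin n → Fin r) (q M l Λ ε η x y : ℝ), 0 < n → 1 / (n : ℝ) ≤ η → η ≤ 1 → 0 ≤ Λ →
      |(n : ℝ) ^ (Fintype.card W - 2) * q - Λ| ≤ η →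
      Big (copies H (Fin n)) (offd (Fin n)) (Ins π) q H.edgeFinset.card M l →
      Real.exp (-(l / 2)) ≤ ε → 64 * (H.edgeFinset.card : ℝ) ^ 2 * M ^ 2 * ε ≤ 1 →
      c * (Λ + 1) ^ 2 * ε ≤ 1 → IsOpt H r (2 * Λ / aut H) x y → y ≤ ε →
      1 - 1 / (2 * (H.edgeFinset.card : ℝ)) ≤ x → 1 / 2 ≤ hh x - hh y → ∀ j : ℕ,
      valZ (copies H (Fin n)) (offd (Fin n)) (Ins π) q H.edgeFinset.card j ≤
        (phiF H r (2 * Λ / aut H) x y + c * (Λ + 1) ^ 2 * η +
          2 * M * (4 * H.edgeFinset.card * M / 2 ^ j)) * ((n : ℝ) ^ 2 / 2) ∧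
      (Bal π 0 → (phiF H r (2 * Λ / aut H) x y - c * (Λ + 1) * (1 + M ^ 2) * η -
          2 * H.edgeFinset.card * M * (4 * H.edgeFinset.card * M / 2 ^ j)) * ((n : ℝ) ^ 2 / 2) ≤
        lowZ (copies H (Fin n)) (offd (Fin n)) (Ins π) q H.edgeFinset.card j) := by
  obtain ⟨c2, c3, c20, c30, h⟩ := KVal1_est B C
  have hr : 2 ≤ r := C.two_le (by have := B.h3; have := B.hk; omega)
  have hr0 : 0 < r := by omega
  refine ⟨2 * c2 + 16 * c3 ^ 2 + 16 * (H.edgeFinset.card : ℝ) ^ 2 * c3 + 1, by positivity, ?_⟩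
  intro n π q M l Λ ε η x y hn hη η1 Λ0 hL G e1 e2 e3 O yε hx hd j
  have n0 : (0 : ℝ) < n := by exact_mod_cast hn
  have A1 : 1 ≤ aut H := one_le_aut
  obtain ⟨x0, y0, -, -⟩ := O.fix hr (by positivity)
  have η0 : 0 ≤ η := (abs_nonneg _).trans hL
  have k2 : (2 : ℝ) ≤ H.edgeFinset.card := by exact_mod_cast G.k2
  have M1 := G.M1
  have ε0 : 0 ≤ ε := y0.le.trans yε
  have ε1 : ε ≤ 1 := by
    clear * - W H M k2 M1 ε e2 y0 yε
    have h1 : (1 : ℝ) ≤ 64 * (H.edgeFinset.card : ℝ) ^ 2 * M ^ 2 := by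
      have : (1 : ℝ) ≤ (H.edgeFinset.card : ℝ) ^ 2 := by nlinarith only [k2]
      have : (1 : ℝ) ≤ M ^ 2 := by nlinarith only [M1]
      nlinarith
    nlinarith only [e2, yε, h1, y0]
  have hbox : Box (offd (Fin n)) (Ins π) H.edgeFinset.card ε (pw π x y) := by
    intro e he
    refine ⟨(KVal1_pw π O.1 O.2.1 e).1, (KVal1_pw π O.1 O.2.1 e).2, fun hi => ?_, fun hi => ?_⟩
    · rw [(KVal1_ins π x y he).1 hi]; exact yε
    · rw [(KVal1_ins π x y he).2 hi]; exact hx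
  have hpos : ∀ e ∈ offd (Fin n), 0 < pw π x y e := by
    intro e _
    unfold pw
    split_ifs
    · exact y0
    · exact x0
  have hE : ((offd (Fin n)).card : ℝ) ≤ (n : ℝ) ^ 2 / 2 := by
    have := card_offd (V := Fin n)
    rw [Fintype.card_fin] at this
    linarith only [n0, this]
  have hy0 : 0 ≤ hh y := by
    have := Real.log_nonpos y0.le O.2.1.2
    unfold hh
    nlinarith only [y0, this]
  have hy1 : hh y ≤ 1 := by simpa using hh_le y0.le one_pos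
  have n2 : (0 : ℝ) ≤ (n : ℝ) ^ 2 / 2 := by positivity
  constructor
  · obtain ⟨σ, σ0, hB, hs⟩ := KVal1_sigma hn hr0 π
    obtain ⟨g1, g2, g3⟩ := h n π q Λ η x y σ hn hη η1 Λ0 hL G.q0 O σ0 hB
    have h1 := G.val_up e1 e2 hbox hpos g1 g2 j
    have h2 := KVal1_up (c3 := c3) (D := Λ + 1) (η := η) (σ := σ) c20
      (show 2 * c2 + 16 * c3 ^ 2 ≤ 2 * c2 + 16 * c3 ^ 2 +
        16 * (H.edgeFinset.card : ℝ) ^ 2 * c3 + 1 by
          clear * - W H c3 k2 c30 c2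
          have : 0 ≤ 16 * (H.edgeFinset.card : ℝ) ^ 2 * c3 := by positivity
          linarith only [this])
      (by linarith only [Λ0]) ε1 η0 η1 y0.le yε hd e3
    have h3 := mul_le_mul_of_nonneg_left h2 n2
    have h4 := mul_le_mul_of_nonneg_right hE (show 0 ≤ 2 * ε * (c3 * (Λ + 1) * (σ + η)) ^ 2 +
      2 * (c3 * (Λ + 1) * (y * σ + η)) ^ 2 by clear * - ε c3 Λ σ η y ε0; positivity)
    have h5 := mul_le_mul_of_nonneg_right hE
      (show 0 ≤ 2 * M * (4 * H.edgeFinset.card * M / 2 ^ j) by clear * - M W H j M1 k2; positivity)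
    have h6 : 0 ≤ (n : ℝ) / 2 * hh y := by positivity
    have h7 := (abs_le.1 g3).1
    unfold PhiN at h1
    rw [KVal1_hh π x y hs] at h1
    unfold phiF
    clear * - n W H r π q j x y Λ c2 c3 η M σ ε h1 h3 h4 h5 h6 h7
    linarith only [h1, h3, h4, h5, h6, h7]
  · intro hB
    obtain ⟨g1, g2, g3⟩ := h n π q Λ η x y 0 hn hη η1 Λ0 hL G.q0 O le_rfl hB
    have hρ : ∀ e ∈ offd (Fin n), |Real.exp (- rate (copies H (Fin n)) q (pw π x y) e) -
        pw π x y e| ≤ c3 * (Λ + 1) * η := by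
      intro e he
      have h1 : 0 ≤ rate (copies H (Fin n)) q (pw π x y) e :=
        mul_nonneg G.q0 (sum_nonneg fun T _ =>
          mul_nonneg (ind_nonneg _) (KVal1_prod π O.1 O.2.1 _).1)
      have h2 := KVal1_exp (neg_nonpos.2 h1)
        (Real.log_nonpos (hpos e he).le (KVal1_pw π O.1 O.2.1 e).2)
      rw [Real.exp_log (hpos e he)] at h2
      refine h2.trans ?_
      rw [← neg_add', abs_neg, add_comm]
      by_cases hi : Ins π e
      · simpa using g1 e he hi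
      · simpa using g2 e he hi
    have h1 := G.val_low e1 e2 hbox hρ j
    have h4 := mul_le_mul_of_nonneg_right hE (show 0 ≤ 2 * H.edgeFinset.card * M *
      (4 * H.edgeFinset.card * M / 2 ^ j + 8 * H.edgeFinset.card * M * (c3 * (Λ + 1) * η)) by
        clear * - W H M j c3 Λ η k2 M1 c30 Λ0 η0
        positivity)
    have h5 : (n : ℝ) / 2 * hh y ≤ (n : ℝ) ^ 2 / 2 * η := by
      clear * - n y hy1 hn η hη
      have h6 : (n : ℝ) / 2 * hh y ≤ (n : ℝ) / 2 * 1 := by gcongr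
      have h7 : (n : ℝ) ^ 2 / 2 * (1 / n) ≤ (n : ℝ) ^ 2 / 2 * η := by gcongr
      have h8 : (n : ℝ) ^ 2 / 2 * (1 / n) = (n : ℝ) / 2 * 1 := by field_simp
      linarith only [h6, h7, h8]
    have h6 : η + c2 * (Λ + 1) * η +
        16 * (H.edgeFinset.card : ℝ) ^ 2 * c3 * (Λ + 1) * M ^ 2 * η ≤
        (2 * c2 + 16 * c3 ^ 2 + 16 * (H.edgeFinset.card : ℝ) ^ 2 * c3 + 1) * (Λ + 1) *
          (1 + M ^ 2) * η := by
      clear * - c2 Λ η c20 Λ0 η0 M M1 c3 W H k2 c30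
      have a1 : 0 ≤ c2 * (Λ + 1) * η := by positivity
      have a2 : 0 ≤ c2 * (Λ + 1) * M ^ 2 * η := by positivity
      have a3 : 0 ≤ c3 ^ 2 * (Λ + 1) * (1 + M ^ 2) * η := by positivity
      have a4 : 0 ≤ (H.edgeFinset.card : ℝ) ^ 2 * c3 * (Λ + 1) * η := by positivity
      have a5 : 0 ≤ Λ * η := by positivity
      have a6 : 0 ≤ (Λ + 1) * M ^ 2 * η := by positivity
      linarith only [a1, a2, a3, a4, a5, a6]
    have h3 := mul_le_mul_of_nonneg_left h6 n2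
    have h7 := (abs_le.1 g3).2
    unfold PhiN at h1
    rw [KVal1_hh π x y (KVal1_bal0 hr0 hB)] at h1
    unfold phiF
    clear * - r x y Λ W H c2 c3 M η j n π q h1 h4 h5 h3 h7
    linarith only [h1, h4, h5, h3, h7]

end Pool.Agent.Work.MP_d4a230_co
end

-- merged part: Pool.Agent.Work.MP_d4a230_co.KFix3
section
/-!
The maximiser for a large parameter.
-/

namespace Pool.Agent.Work.MP_d4a230_co

open Finset

variable {W : Type} [Fintype W] [DecidableEq W] {H : SimpleGraph W} [DecidableRel H.Adj] {r : ℕ}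

lemma KFix3_hh {w B : ℝ} (hw : 0 < w) (hB : 0 < B) : hh w ≤ w * Real.log B + 1 / B := by
  have e1 := Real.log_le_sub_one_of_pos (show 0 < 1 / (B * w) by positivity)
  rw [one_div, Real.log_inv, Real.log_mul hB.ne' hw.ne'] at e1
  have e2 := mul_le_mul_of_nonneg_left e1 hw.le
  have e3 : w * ((B * w)⁻¹ - 1) = 1 / B - w := by field_simp
  unfold hh
  linarith only [e2, e3]

omit [Fintype W] [DecidableEq W] in
lemma KFix3_pw {x y : ℝ} (hx : x ≤ 1) (hy : y ≤ 1) (χ : W → Fin r) (e : Sym2 W) :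
    pw χ x y e ≤ 1 := by
  unfold pw
  split_ifs <;> assumption

open Filter Topology in
/-- For large `a` the maximiser is exponentially close to `(1, 0)`. -/
theorem opt_small (C : ECrit H r) (hk : 2 ≤ H.edgeFinset.card) : ∃ c2 : ℝ, 0 < c2 ∧ ∃ a0 : ℝ,
    ∀ a, a0 ≤ a → ∀ x y, IsOpt H r a x y → y ≤ Real.exp (-(c2 * a)) ∧
      1 - 1 / (2 * (H.edgeFinset.card : ℝ)) ≤ x ∧ 1 / 2 ≤ hh x - hh y := by
  have hr := C.two_le hk
  have r2 : (2 : ℝ) ≤ r := by exact_mod_cast hr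
  set k := H.edgeFinset.card with hk'
  have k2 : (2 : ℝ) ≤ k := by exact_mod_cast hk
  set ρ : ℝ := (r : ℝ) ^ Fintype.card W with hρ
  have ρ0 : 0 < ρ := by positivity
  set c : ℝ := (1 / 2) ^ (k - 1) / ρ with hc
  have c0 : 0 < c := by positivity
  have l1 := ((Real.tendsto_pow_mul_exp_neg_atTop_nhds_zero 1).comp
    (tendsto_id.const_mul_atTop c0)).eventually (ge_mem_nhds (show 0 < c / (4 * k ^ 2) by positivity))
  obtain ⟨a0, ha0⟩ := eventually_atTop.1 (l1.and (eventually_gt_atTop (ρ * 100 ^ k)))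
  refine ⟨c, c0, a0, fun a ha x y h => ?_⟩
  obtain ⟨a1, a2⟩ := ha0 a ha
  have a0' : 0 < a := lt_trans (by positivity) a2
  obtain ⟨x0, y0, x1, y1⟩ := h.fix hr a0'.le
  have e0 := h.ge C
  obtain ⟨hx, hy, -⟩ := h
  have p0 := KFix2_pw (W := W) (r := r) hx.1 hy.1
  have p1 := KFix3_pw (W := W) (r := r) hx.2 hy.2
  have e1 : y ^ k / ρ ≤ psiF H r x y := by
    refine div_le_div_of_nonneg_right (le_trans (le_of_eq ?_) (Finset.single_le_sum
      (fun χ _ => Finset.prod_nonneg fun e _ => p0 χ e)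
      (Finset.mem_univ fun _ => ⟨0, by omega⟩))) ρ0.le
    rw [hk', ← Finset.prod_const]
    refine Finset.prod_congr rfl fun e _ => (if_pos ?_).symm
    induction e using Sym2.ind with
    | _ u v => simp
  have hx1 : hh x ≤ 1 := by simpa using KFix3_hh x0 one_pos
  have hy1 : hh y ≤ 1 := by simpa using KFix3_hh y0 one_pos
  have i0 : 0 < 1 / (r : ℝ) := by positivity
  have i1 : 1 / (r : ℝ) ≤ 1 / 2 := one_div_le_one_div_of_le two_pos r2
  unfold phiF at e0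
  have e2 := mul_le_mul_of_nonneg_left e1 a0'.le
  have e3 : 0 ≤ a * (y ^ k / ρ) := by positivity
  have e4 : a * (y ^ k / ρ) ≤ 1 := by clear * - a y k ρ r x W H e0 hx1 i1 e2 i0 hy1; nlinarith only [e0, hx1, i1, e2, hy1, i0]
  have e5 : y ≤ 1 / 100 := by
    refine le_of_pow_le_pow_left₀ (n := k) (by omega) (by norm_num) ?_
    rw [← mul_div_assoc, div_le_one ρ0] at e4
    rw [one_div, inv_pow, ← one_div, le_div_iff₀ (by positivity)]
    refine le_of_mul_le_mul_left ?_ ρ0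
    have := mul_le_mul_of_nonneg_right a2.le (pow_nonneg hy.1 k)
    linarith only [e4, this]
  have l2 := Real.log_two_lt_d9
  have e6 : hh y ≤ 1 / 10 := by
    clear * - y y0 e5 l2
    have b1 := KFix3_hh y0 (B := 2 ^ 4) (by norm_num)
    rw [Real.log_pow] at b1
    push_cast at b1
    nlinarith only [e5, b1, y0, l2]
  have e7 : 1 / 2 ≤ x := by
    clear * - x x0 y y0 e5 l2 r a W H k ρ e0 i1 e2 e3 hx1 i0 e6 hx
    by_contra hc'
    have b1 := KFix3_hh x0 two_pos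
    have b2 : hh x ≤ 17 / 20 := by nlinarith only [hc', b1, x0, y0, e5, l2]
    nlinarith only [e0, i1, e2, e3, hc', b1, x0, l2, y0, e5, hx, hx1, i0, e6]
  have e8 : c ≤ rin H r x y := by
    clear * - W r H c x y C p0 k ρ hk' e7 ρ0
    obtain ⟨χ, u, v, b1, b2, b3⟩ := C.one
    have b4 : s(u, v) ∈ H.edgeFinset := by simpa using b1
    have nn : ∀ χ : W → Fin r, ∀ e, 0 ≤ ind (Sym2.map χ e).IsDiag *
        ∏ g ∈ H.edgeFinset.erase e, pw χ x y g := fun χ e =>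
      mul_nonneg (ind_nonneg _) (Finset.prod_nonneg fun g _ => p0 χ g)
    refine div_le_div_of_nonneg_right (le_trans ?_ ((Finset.single_le_sum (fun e _ => nn χ e)
      b4).trans (Finset.single_le_sum (fun χ _ => Finset.sum_nonneg fun e _ => nn χ e)
      (Finset.mem_univ χ)))) ρ0.le
    rw [ind_pos (by simpa using b2), one_mul, hk', ← Finset.card_erase_of_mem b4,
      ← Finset.prod_const]
    exact Finset.prod_le_prod (fun _ _ => by norm_num) fun g hg => e7.trans (if_neg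
      (b3 g (Finset.mem_of_mem_erase hg) (Finset.ne_of_mem_erase hg))).ge
  have e9 : y ≤ Real.exp (-(c * a)) := by
    clear * - y c a y0 r W H x y1 r2 e8 c0 k ρ a0' e5
    rw [← Real.exp_log y0, Real.exp_le_exp, y1, neg_le_neg_iff]
    have := mul_le_mul (show (1 : ℝ) ≤ r by linarith only [r2, y0, e5]) e8 c0.le (by linarith only [r2, y0, e5])
    nlinarith only [a0', this]
  have e10 : rcr H r x y ≤ k * y := by
    unfold rcr
    rw [div_le_iff₀ ρ0]
    refine (Finset.sum_le_card_nsmul _ _ (k * y) fun χ _ => ?_).trans (le_of_eq ?_)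
    · rw [← nsmul_eq_mul]
      refine Finset.sum_le_card_nsmul _ _ _ fun e _ => ?_
      by_cases he : (e.map χ).IsDiag
      · rw [ind_neg (not_not.2 he), zero_mul]
        exact hy.1
      · obtain ⟨g, g1, g2⟩ := C.mono χ
        rw [ind_pos he, one_mul, ← Finset.mul_prod_erase _ _
          (Finset.mem_erase.2 ⟨fun h : g = e => he (h ▸ g2), g1⟩), show pw χ x y g = y from if_pos g2]
        exact mul_le_of_le_one_right hy.1 (Finset.prod_le_one (fun g _ => p0 χ g) fun g _ => p1 χ g)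
    · rw [Finset.card_univ, Fintype.card_fun, Fintype.card_fin, nsmul_eq_mul, Nat.cast_pow, mul_comm]
  have e11 : 1 - 1 / (2 * (k : ℝ)) ≤ x := by
    clear * - x r r2 a W H y k e10 a0' hk y0 c e9 ρ hr a1 c0 x1 x0 e5
    have b1 := Real.add_one_le_exp (Real.log x)
    rw [Real.exp_log x0, x1] at b1
    have b2 : r / ((r : ℝ) - 1) ≤ 2 := by rw [div_le_iff₀ (by linarith only [r2, y0, e5])]; linarith only [r2]
    have b3 : a * (r / ((r : ℝ) - 1)) * rcr H r x y ≤ a * 2 * (k * y) := by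
      refine (mul_le_mul_of_nonneg_left e10 (mul_nonneg a0'.le
        (div_nonneg (by linarith only [r2, y0, e5]) (by linarith only [r2, y0, e5])))).trans ?_
      gcongr
    have b4 : a * y ≤ 1 / (4 * k ^ 2) := by
      refine le_of_mul_le_mul_left ?_ c0
      simp only [Function.comp, id, pow_one] at a1
      rw [mul_one_div, ← mul_assoc]
      exact (mul_le_mul_of_nonneg_left e9 (by positivity)).trans a1
    have b5 := mul_le_mul_of_nonneg_left b4 (show (0 : ℝ) ≤ 2 * k by positivity)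
    have b6 : 2 * (k : ℝ) * (1 / (4 * k ^ 2)) = 1 / (2 * k) := by field_simp; norm_num
    linarith only [b1, b3, b5, b6]
  refine ⟨e9, e11, ?_⟩
  have b1 : 1 / (2 * (k : ℝ)) ≤ 1 / 4 := one_div_le_one_div_of_le (by norm_num) (by linarith only [k2])
  have b2 := mul_nonpos_of_nonneg_of_nonpos hx.1 (Real.log_nonpos hx.1 hx.2)
  have b3 : hh x = x - x * Real.log x := rfl
  linarith only [y0, e5, e6, e11, b1, b2, b3]

end Pool.Agent.Work.MP_d4a230_co
end

-- merged part: Pool.Agent.Work.MP_d4a230_co.KVal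
section
/-!
Asymptotic form of the comparison of values.
-/

namespace Pool.Agent.Work.MP_d4a230_co

open Finset Filter Topology

variable {W : Type} [Fintype W] [DecidableEq W] {H : SimpleGraph W} [DecidableRel H.Adj] {r : ℕ}

theorem val_bounds (B : HBal H) (C : ECrit H r) {c : ℝ} (hc : 0 < c) : ∃ Λ0 : ℝ,
    ∀ (p : ℕ → ℝ) (μ Λ : ℝ), GReg H p μ Λ → Λ0 ≤ Λ → ∀ x y, IsOpt H r (2 * Λ / aut H) x y →
      ∀ ζ : ℝ, 0 < ζ → ∀ᶠ j : ℕ in atTop, ∀ᶠ n : ℕ in atTop, ∀ π : Fin n → Fin r,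
      Big (copies H (Fin n)) (offd (Fin n)) (Ins π) (p n ^ (H.edgeFinset.card - 1))
        H.edgeFinset.card (kz W * (Λ + 1)) (c * Λ) →
      valZ (copies H (Fin n)) (offd (Fin n)) (Ins π) (p n ^ (H.edgeFinset.card - 1))
        H.edgeFinset.card j ≤ (phiF H r (2 * Λ / aut H) x y + ζ) * ((n : ℝ) ^ 2 / 2) ∧
      (Bal π 0 → (phiF H r (2 * Λ / aut H) x y - ζ) * ((n : ℝ) ^ 2 / 2) ≤
        lowZ (copies H (Fin n)) (offd (Fin n)) (Ins π) (p n ^ (H.edgeFinset.card - 1))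
          H.edgeFinset.card j) := by
  have hk3 : 3 ≤ H.edgeFinset.card := B.h3.trans B.hk
  obtain ⟨c1, hc1, hfin⟩ := val_fin B C
  obtain ⟨c2, hc2, a0, hopt⟩ := opt_small C (by omega)
  have ha := one_le_aut (H := H)
  set k := H.edgeFinset.card with hk
  set c3 := min (c / 2) (2 * c2 / aut H) with hc3
  have hc30 : 0 < c3 := lt_min (by linarith only [hc]) (by positivity)
  have hlim : ∀ A : ℝ, ∀ᶠ Λ : ℝ in atTop, A * (Λ + 1) ^ 2 * Real.exp (-(c3 * Λ)) ≤ 1 := by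
    clear * - c3 hc30
    intro A
    have h1 := (Real.tendsto_pow_mul_exp_neg_atTop_nhds_zero 2).comp
      ((tendsto_atTop_add_const_right atTop 1 tendsto_id).const_mul_atTop hc30)
    have h2 := h1.const_mul (A * Real.exp c3 / c3 ^ 2)
    rw [mul_zero] at h2
    filter_upwards [h2.eventually (ge_mem_nhds one_pos)] with Λ h3
    refine le_trans (le_of_eq ?_) h3
    simp only [Function.comp, id]
    rw [show -(c3 * Λ) = c3 + -(c3 * (Λ + 1)) by ring, Real.exp_add]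
    field_simp
  obtain ⟨Λ0, h0⟩ := eventually_atTop.1 ((hlim c1).and ((hlim (64 * (k : ℝ) ^ 2 * (kz W) ^ 2)).and
    (eventually_ge_atTop (a0 * aut H / 2))))
  refine ⟨Λ0, fun p μ Λ R hΛ x y hxy ζ hζ => ?_⟩
  obtain ⟨l1, l2, l3⟩ := h0 Λ hΛ
  have hΛ0 := R.pos
  obtain ⟨o1, o2, o3⟩ := hopt _ ((le_div_iff₀ (by linarith only [ha])).2 (by linarith only [l3])) x y hxy
  set M := (kz W : ℝ) * (Λ + 1) with hM
  have t1 : ∀ A : ℝ, ∀ᶠ j : ℕ in atTop, A * (4 * k * M / 2 ^ j) ≤ ζ / 2 := by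
    intro A
    have h1 : Tendsto (fun j : ℕ => A * (4 * k * M / 2 ^ j)) atTop (𝓝 (A * 0)) :=
      (tendsto_const_nhds.div_atTop (tendsto_pow_atTop_atTop_of_one_lt one_lt_two)).const_mul A
    rw [mul_zero] at h1
    exact h1.eventually (ge_mem_nhds (half_pos hζ))
  obtain ⟨η, η0, η1, η2, η3⟩ : ∃ η : ℝ, 0 < η ∧ η ≤ 1 ∧ c1 * (Λ + 1) ^ 2 * η ≤ ζ / 2 ∧
      c1 * (Λ + 1) * (1 + M ^ 2) * η ≤ ζ / 2 := by
    have f : ∀ A : ℝ, ∀ᶠ η in 𝓝[>] (0 : ℝ), A * η ≤ ζ / 2 := fun A => by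
      have : Tendsto (fun η : ℝ => A * η) (𝓝 0) (𝓝 (A * 0)) := tendsto_id.const_mul A
      rw [mul_zero] at this
      exact (this.eventually (ge_mem_nhds (half_pos hζ))).filter_mono nhdsWithin_le_nhds
    have g : ∀ᶠ η in 𝓝[>] (0 : ℝ), η ≤ 1 :=
      (eventually_le_nhds one_pos).filter_mono nhdsWithin_le_nhds
    exact (eventually_mem_nhdsWithin.and (g.and ((f _).and (f _)))).exists
  filter_upwards [t1 (2 * M), t1 (2 * k * M)] with j j1 j2
  filter_upwards [Metric.tendsto_nhds.1 R.lim η η0,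
    tendsto_one_div_atTop_nhds_zero_nat.eventually (ge_mem_nhds η0), eventually_gt_atTop 0]
    with n n1 n2 n3 π hB
  rw [Real.dist_eq] at n1
  obtain ⟨v1, v2⟩ := hfin n π _ M _ Λ (Real.exp (-(c3 * Λ))) η x y n3 n2 η1 hΛ0.le n1.le hB
    (Real.exp_le_exp.2 (by nlinarith only [hΛ0, min_le_left (c / 2) (2 * c2 / aut H)]))
    (le_trans (le_of_eq (by rw [hM]; ring)) l2) l1 hxy
    (o1.trans (Real.exp_le_exp.2 (by
      have := mul_le_mul_of_nonneg_right (min_le_right (c / 2) (2 * c2 / aut H)) hΛ0.le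
      have e : 2 * c2 / aut H * Λ = c2 * (2 * Λ / aut H) := by ring
      linarith only [this, e]))) o2 o3 j
  have hn : 0 ≤ (n : ℝ) ^ 2 / 2 := by positivity
  exact ⟨v1.trans (mul_le_mul_of_nonneg_right (by linarith only [η2, j1]) hn), fun hπ =>
    (mul_le_mul_of_nonneg_right (by linarith only [η3, j2]) hn).trans (v2 hπ)⟩

end Pool.Agent.Work.MP_d4a230_co
end
end
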