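import Pool.Agent.Work.MP_d4a230_co.KCount0
import Pool.Agent.Work.MP_d4a230_co.KVal
import Pool.Agent.Work.MP_d4a230_co.HMain

-- merged part: Pool.Agent.Work.MP_d4a230_co.KJZ
section
-- merged part: Pool.Agent.Work.MP_d4a230_co.KXP3
section
-- merged part: Pool.Agent.Work.MP_d4a230_co.KXP0
section
/-!
The expansion lemma: two small sets of present elements are joined by few light members.
-/

namespace Pool.Agent.Work.MP_d4a230_co

open Finset

variable {ι : Type} [DecidableEq ι]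

/-- A family of present members, pairwise sharing at most one element, each containing related
elements `e ∈ S` and `f ∈ S'`, and all of whose elements other than `e` are light. -/
def XFam (𝒞 : Finset (Finset ι)) (D1 : ℝ) (rel : ι → ι → Prop) (ω S S' : Finset ι)
    (𝓕 : Finset (Finset ι)) : Prop :=
  𝓕 ⊆ 𝒞 ∧ (∀ T ∈ 𝓕, T ⊆ ω ∧ ∃ e ∈ S, e ∈ T ∧ (∃ f ∈ S', f ∈ T ∧ rel e f) ∧
    ∀ g ∈ T, g ≠ e → cop 𝒞 ω g ≤ D1) ∧ ∀ T ∈ 𝓕, ∀ T' ∈ 𝓕, T ≠ T' → (T ∩ T').card ≤ 1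

/-- The remainder of a member with two designated elements. -/
def remd (x : Finset ι × ι × ι) : Finset ι := (x.1.erase x.2.1).erase x.2.2

open Classical in
/-- The members with designated elements in `S` and `S'` and remainder outside. -/
noncomputable def xItems (𝒞 : Finset (Finset ι)) (rel : ι → ι → Prop) (S S' : Finset ι) :
    Finset (Finset ι × ι × ι) :=
  (𝒞 ×ˢ S ×ˢ S').filter fun x => x.2.1 ∈ x.1 ∧ x.2.2 ∈ x.1 ∧ rel x.2.1 x.2.2 ∧
    Disjoint (S ∪ S') (remd x)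

variable [Fintype ι] {𝒞 : Finset (Finset ι)} {D1 : ℝ} {rel : ι → ι → Prop} {k : ℕ}

lemma exists_ge_E {ρ : ℝ} (h0 : 0 ≤ ρ) (h1 : ρ ≤ 1) (f : Finset ι → ℝ) : ∃ ξ, E ρ f ≤ f ξ := by
  obtain ⟨ξ, -, hξ⟩ := Finset.exists_max_image univ f ⟨∅, Finset.mem_univ _⟩
  exact ⟨ξ, (E_mono h0 h1 fun ω => hξ ω (Finset.mem_univ _)).trans_eq (E_const _)⟩

/-- The two designated elements. -/
def KXP0_pr (x : Finset ι × ι × ι) : Finset ι := {x.2.1, x.2.2}

omit [Fintype ι] in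
lemma KXP0_items {ω S S' : Finset ι} {𝓕 : Finset (Finset ι)} (hF : XFam 𝒞 D1 rel ω S S' 𝓕) :
    ∃ 𝓘 : Finset (Finset ι × ι × ι), 𝓘.card = 𝓕.card ∧
      (∀ x ∈ 𝓘, x.1 ∈ 𝓕 ∧ x.2.1 ∈ S ∧ x.2.1 ∈ x.1 ∧ x.2.2 ∈ S' ∧ x.2.2 ∈ x.1 ∧ rel x.2.1 x.2.2 ∧
        ∀ g ∈ x.1, g ≠ x.2.1 → cop 𝒞 ω g ≤ D1) ∧ ∀ x ∈ 𝓘, ∀ y ∈ 𝓘, x.1 = y.1 → x = y := by
  choose e he1 he2 hf hl using fun T : 𝓕 => (hF.2.1 T T.2).2
  choose f hf1 hf2 hf3 using hf
  refine ⟨univ.image fun T : 𝓕 => (T.1, e T, f T), ?_, ?_, ?_⟩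
  · rw [Finset.card_image_of_injective _ fun T T' h => Subtype.ext (congrArg Prod.fst h),
      Finset.card_univ, Fintype.card_coe]
  · intro x hx
    obtain ⟨T, -, rfl⟩ := Finset.mem_image.1 hx
    exact ⟨T.2, he1 T, he2 T, hf1 T, hf2 T, hf3 T, hl T⟩
  · intro x hx y hy h
    obtain ⟨T, -, rfl⟩ := Finset.mem_image.1 hx
    obtain ⟨T', -, rfl⟩ := Finset.mem_image.1 hy
    obtain rfl : T = T' := Subtype.ext h
    rfl

omit [Fintype ι] in
lemma KXP0_card (S ξ : Finset ι) : ((S ∩ ξ).card : ℝ) = ∑ e ∈ S, ind ({e} ⊆ ξ) := by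
  rw [sum_ind, ← Finset.filter_mem_eq_inter]
  simp only [Finset.singleton_subset_iff]

lemma KXP0_E1 (ρ : ℝ) (S : Finset ι) : E ρ (fun ξ => ((S ∩ ξ).card : ℝ)) = ρ * S.card := by
  simp only [KXP0_card]
  rw [E_sum]
  refine (Finset.sum_congr rfl fun e _ => Pr_subset (p := ρ) {e}).trans ?_
  simp [mul_comm]

lemma KXP0_E2 (ρ : ℝ) {S S' : Finset ι} (hS : Disjoint S S') :
    E ρ (fun ξ => ((S ∩ ξ).card : ℝ) * (S' ∩ ξ).card) = ρ ^ 2 * (S.card * S'.card) := by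
  have h1 : ∀ ξ : Finset ι, ((S ∩ ξ).card : ℝ) * (S' ∩ ξ).card =
      ∑ e ∈ S, ∑ f ∈ S', ind ({e, f} ⊆ ξ) := fun ξ => by
    rw [KXP0_card, KXP0_card, Finset.sum_mul_sum]
    refine Finset.sum_congr rfl fun e _ => Finset.sum_congr rfl fun f _ => ?_
    rw [← ind_and]
    exact ind_congr (by simp [Finset.insert_subset_iff])
  have h2 : ∀ e ∈ S, E ρ (fun ξ => ∑ f ∈ S', ind ({e, f} ⊆ ξ)) = ρ ^ 2 * S'.card := fun e he => by
    rw [E_sum]
    refine (Finset.sum_congr rfl fun f hf => (Pr_subset (p := ρ) {e, f}).trans (congrArg (ρ ^ ·)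
      (Finset.card_pair fun h => Finset.disjoint_left.1 hS he (h ▸ hf)))).trans ?_
    simp [mul_comm]
  rw [E_congr h1, E_sum, Finset.sum_congr rfl h2, Finset.sum_const, nsmul_eq_mul]
  ring

omit [Fintype ι] in
lemma KXP0_ind {κ : Type} (Q R ξ : Finset ι) (P : Finset κ) (q : κ → Finset ι) :
    ind (Q ⊆ ξ) - ∑ g ∈ R, ind (insert g Q ⊆ ξ) - ∑ y ∈ P, ind (Q ∪ q y ⊆ ξ) ≤
      ind (Q ⊆ ξ ∧ (∀ g ∈ R, g ∉ ξ) ∧ ∀ y ∈ P, ¬ q y ⊆ ξ) := by
  have h1 := ind_exists_le R fun g => insert g Q ⊆ ξ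
  have h2 := ind_exists_le P fun y => Q ∪ q y ⊆ ξ
  have h3 : ind (Q ⊆ ξ) ≤ ind ((Q ⊆ ξ ∧ (∀ g ∈ R, g ∉ ξ) ∧ ∀ y ∈ P, ¬ q y ⊆ ξ) ∨
      (∃ g ∈ R, insert g Q ⊆ ξ) ∨ ∃ y ∈ P, Q ∪ q y ⊆ ξ) := by
    refine ind_mono fun h => ?_
    by_contra hc
    rw [not_or, not_or] at hc
    exact hc.1 ⟨h, fun g hg hξ => hc.2.1 ⟨g, hg, Finset.insert_subset hξ h⟩,
      fun y hy hξ => hc.2.2 ⟨y, hy, Finset.union_subset h hξ⟩⟩
  have h4 := h3.trans ((ind_or_le _ _).trans (add_le_add le_rfl (ind_or_le _ _)))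
  linarith

/-- Random sparsification. -/
theorem sparsify (hk : ∀ T ∈ 𝒞, T.card = k) {ω S S' : Finset ι} {𝓕 : Finset (Finset ι)}
    (hS : Disjoint S S') (hF : XFam 𝒞 D1 rel ω S S' 𝓕) {ρ A B : ℝ} (h0 : 0 ≤ ρ)
    (h1 : 4 * (k * ρ) ≤ 1) (h2 : 4 * (k * D1 * ρ ^ 2) ≤ 1) (h3 : ρ ≤ 1) :
    ∃ S0 ⊆ S, ∃ S0' ⊆ S', ∃ M ⊆ xItems 𝒞 rel S0 S0', PD remd M ∧ (∀ x ∈ M, remd x ⊆ ω) ∧
      ρ ^ 2 * 𝓕.card / 2 - A * (ρ * (S.card + S'.card)) - B * (ρ ^ 2 * (S.card * S'.card)) +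
        A * (S0.card + S0'.card) + B * (S0.card * S0'.card) ≤ M.card := by
  classical
  obtain ⟨𝓘, hc, hI, hinj⟩ := KXP0_items hF
  let Pa : Finset ι × ι × ι → Finset (Finset ι × ι × ι) := fun x =>
    𝓘.filter fun y => x ≠ y ∧ ¬ Disjoint (remd x) (remd y)
  let sv : Finset ι → Finset ι × ι × ι → Prop := fun ξ x =>
    KXP0_pr x ⊆ ξ ∧ (∀ g ∈ remd x, g ∉ ξ) ∧ ∀ y ∈ Pa x, ¬ KXP0_pr y ⊆ ξ
  have hmem : ∀ x : Finset ι × ι × ι, ∀ g ∈ remd x, g ∈ x.1 ∧ g ≠ x.2.1 ∧ g ≠ x.2.2 :=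
    fun x g hg => by
      simp only [remd, Finset.mem_erase] at hg
      exact ⟨hg.2.2, hg.2.1, hg.1⟩
  have hpr : ∀ x ∈ 𝓘, (KXP0_pr x).card = 2 := fun x hx =>
    Finset.card_pair fun h => Finset.disjoint_left.1 hS (hI x hx).2.1 (h ▸ (hI x hx).2.2.2.1)
  have hsv : ∀ x ∈ 𝓘, ρ ^ 2 / 2 ≤ E ρ fun ξ => ind (sv ξ x) := fun x hx => by
    obtain ⟨x1, x2, x3, x4, x5, -, x7⟩ := hI x hx
    have hR : ((remd x).card : ℝ) ≤ k := by
      rw [← hk _ (hF.1 x1)]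
      exact_mod_cast Finset.card_le_card fun g hg => (hmem x g hg).1
    have hD : 0 ≤ D1 := le_trans (Finset.sum_nonneg fun _ _ => ind_nonneg _)
      (x7 _ x5 fun h => Finset.disjoint_left.1 hS x2 (h ▸ x4))
    have hP : ((Pa x).card : ℝ) ≤ k * D1 := by
      calc ((Pa x).card : ℝ) = ∑ _y ∈ Pa x, 1 := by simp
        _ ≤ ∑ y ∈ Pa x, ∑ g ∈ remd x, ind (g ∈ y.1 ∧ y.1 ⊆ ω) := by
          refine Finset.sum_le_sum fun y hy => ?_
          obtain ⟨hy1, -, hy2⟩ := Finset.mem_filter.1 hy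
          obtain ⟨g, hg1, hg2⟩ := Finset.not_disjoint_iff.1 hy2
          exact (ind_pos ⟨g, hg1, (hmem y g hg2).1, (hF.2.1 _ (hI y hy1).1).1⟩).ge.trans
            (ind_exists_le (remd x) fun g => g ∈ y.1 ∧ y.1 ⊆ ω)
        _ ≤ ∑ _g ∈ remd x, D1 := by
          rw [Finset.sum_comm]
          refine Finset.sum_le_sum fun g hg => le_trans ?_ (x7 g (hmem x g hg).1 (hmem x g hg).2.1)
          rw [← Finset.sum_image (g := Prod.fst) (f := fun T => ind (g ∈ T ∧ T ⊆ ω))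
            fun y hy z hz => hinj y (Finset.mem_filter.1 hy).1 z (Finset.mem_filter.1 hz).1]
          refine Finset.sum_le_sum_of_subset_of_nonneg (fun T hT => ?_) fun _ _ _ => ind_nonneg _
          obtain ⟨y, hy, rfl⟩ := Finset.mem_image.1 hT
          exact hF.1 (hI y (Finset.mem_filter.1 hy).1).1
        _ ≤ k * D1 := by
          rw [Finset.sum_const, nsmul_eq_mul]
          exact mul_le_mul_of_nonneg_right hR hD
    have e1 : ∀ g ∈ remd x, E ρ (fun ξ => ind (insert g (KXP0_pr x) ⊆ ξ)) = ρ ^ 3 := fun g hg => by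
      refine (Pr_subset _).trans ?_
      rw [Finset.card_insert_of_notMem, hpr x hx]
      simp [KXP0_pr, (hmem x g hg).2.1, (hmem x g hg).2.2]
    have e2 : ∀ y ∈ Pa x, E ρ (fun ξ => ind (KXP0_pr x ∪ KXP0_pr y ⊆ ξ)) = ρ ^ 4 := fun y hy => by
      refine (Pr_subset _).trans ?_
      obtain ⟨hy1, hy2, hy3⟩ := Finset.mem_filter.1 hy
      obtain ⟨g, hg1, hg2⟩ := Finset.not_disjoint_iff.1 hy3
      obtain ⟨y1, -, y3, -, y5, -⟩ := hI y hy1
      have h5 := Finset.card_le_one.1 (hF.2.2 _ x1 _ y1 fun h => hy2 (hinj x hx y hy1 h)) g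
        (Finset.mem_inter.2 ⟨(hmem x g hg1).1, (hmem y g hg2).1⟩)
      rw [Finset.card_union_of_disjoint, hpr x hx, hpr y hy1]
      refine Finset.disjoint_left.2 fun a ha ha' => ?_
      have h6 : a ∈ x.1 := by
        rcases Finset.mem_insert.1 ha with h | h
        · exact h ▸ x3
        · exact Finset.mem_singleton.1 h ▸ x5
      rcases Finset.mem_insert.1 ha' with h | h
      · exact (hmem y g hg2).2.1 (h5 _ (Finset.mem_inter.2 ⟨h ▸ h6, y3⟩))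
      · exact (hmem y g hg2).2.2 (h5 _ (Finset.mem_inter.2 ⟨Finset.mem_singleton.1 h ▸ h6, y5⟩))
    have e0 : E ρ (fun ξ => ind (KXP0_pr x ⊆ ξ)) = ρ ^ 2 := (Pr_subset _).trans (by rw [hpr x hx])
    refine le_trans ?_ (E_mono h0 h3 fun ξ => KXP0_ind (KXP0_pr x) (remd x) ξ (Pa x) KXP0_pr)
    rw [E_sub, E_sub, E_sum, E_sum, e0, Finset.sum_congr rfl e1, Finset.sum_congr rfl e2,
      Finset.sum_const, Finset.sum_const, nsmul_eq_mul, nsmul_eq_mul]
    have b1 := mul_le_mul_of_nonneg_right hR (pow_nonneg h0 3)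
    have b2 := mul_le_mul_of_nonneg_right hP (pow_nonneg h0 4)
    have b3 := mul_le_mul_of_nonneg_right h1 (pow_nonneg h0 2)
    have b4 := mul_le_mul_of_nonneg_right h2 (pow_nonneg h0 2)
    linarith only [b1, b2, b3, b4]
  obtain ⟨ξ, hξ⟩ := exists_ge_E h0 h3 fun ξ => ∑ x ∈ 𝓘, ind (sv ξ x) -
    A * (((S ∩ ξ).card : ℝ) + (S' ∩ ξ).card) - B * (((S ∩ ξ).card : ℝ) * (S' ∩ ξ).card)
  rw [E_sub, E_sub, E_const_mul, E_const_mul, E_add, KXP0_E1, KXP0_E1, KXP0_E2 ρ hS, E_sum,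
    sum_ind] at hξ
  have hsum := Finset.sum_le_sum hsv
  rw [Finset.sum_const, nsmul_eq_mul, hc] at hsum
  refine ⟨S ∩ ξ, Finset.inter_subset_left, S' ∩ ξ, Finset.inter_subset_left, 𝓘.filter (sv ξ),
    fun x hx => ?_, fun x hx y hy hxy => ?_, fun x hx g hg => ?_, by linarith only [hξ, hsum]⟩
  · obtain ⟨hx, s1, s2, -⟩ := Finset.mem_filter.1 hx
    obtain ⟨x1, x2, x3, x4, x5, x6, -⟩ := hI x hx
    refine Finset.mem_filter.2 ⟨Finset.mem_product.2 ⟨hF.1 x1, Finset.mem_product.2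
      ⟨Finset.mem_inter.2 ⟨x2, s1 (by simp [KXP0_pr])⟩,
        Finset.mem_inter.2 ⟨x4, s1 (by simp [KXP0_pr])⟩⟩⟩, x3, x5, x6,
      Finset.disjoint_right.2 fun g hg hg' => s2 g hg ?_⟩
    rcases Finset.mem_union.1 hg' with h | h <;> exact (Finset.mem_inter.1 h).2
  · by_contra hd
    exact (Finset.mem_filter.1 hx).2.2.2 y
      (Finset.mem_filter.2 ⟨(Finset.mem_filter.1 hy).1, hxy, hd⟩) (Finset.mem_filter.1 hy).2.1
  · exact (hF.2.1 _ (hI x (Finset.mem_filter.1 hx).1).1).1 (hmem x g hg).1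

end Pool.Agent.Work.MP_d4a230_co
end

-- merged part: Pool.Agent.Work.MP_d4a230_co.KXP1
section
/-!
The expansion lemma at one scale.
-/

namespace Pool.Agent.Work.MP_d4a230_co

open Finset

variable {ι : Type} [DecidableEq ι] [Fintype ι] {𝒞 : Finset (Finset ι)} {D1 : ℝ}
  {rel : ι → ι → Prop} {k : ℕ}

omit [Fintype ι] in
private lemma KXP1_weight (hk : ∀ T ∈ 𝒞, T.card = k) {p : ℝ} (p0 : 0 ≤ p) {U : Finset ι}
    {w0 : ℝ} (hw0 : 0 ≤ w0)
    (hw : ∀ e ∈ U, ∀ f ∈ U, e ≠ f → rel e f → (∑ T ∈ 𝒞, ind (e ∈ T ∧ f ∈ T)) * p ^ (k - 2) ≤ w0)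
    {S S' : Finset ι} (hS : S ⊆ U) (hS' : S' ⊆ U) (hd : Disjoint S S') :
    ∑ x ∈ xItems 𝒞 rel S S', p ^ (remd x).card ≤ (S.card : ℝ) * S'.card * w0 := by
  classical
  have h1 : ∑ x ∈ xItems 𝒞 rel S S', p ^ (remd x).card ≤
      ∑ x ∈ 𝒞 ×ˢ S ×ˢ S', ind (rel x.2.1 x.2.2) * (ind (x.2.1 ∈ x.1 ∧ x.2.2 ∈ x.1) *
        p ^ (k - 2)) := by
    refine le_trans (le_of_eq (Finset.sum_congr rfl fun x hx => ?_))
      (Finset.sum_le_sum_of_subset_of_nonneg (s := xItems 𝒞 rel S S') (Finset.filter_subset _ _)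
        fun x _ _ => mul_nonneg (ind_nonneg _) (mul_nonneg (ind_nonneg _) (pow_nonneg p0 _)))
    obtain ⟨x1, x2, x3, x4, -⟩ := Finset.mem_filter.1 hx
    obtain ⟨x5, x6⟩ := Finset.mem_product.1 x1
    obtain ⟨x7, x8⟩ := Finset.mem_product.1 x6
    have hne : x.2.2 ≠ x.2.1 := fun h => Finset.disjoint_left.1 hd x7 (h ▸ x8)
    rw [ind_pos x4, ind_pos ⟨x2, x3⟩, one_mul, one_mul, remd,
      Finset.card_erase_of_mem (Finset.mem_erase.2 ⟨hne, x3⟩), Finset.card_erase_of_mem x2,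
      hk _ x5, Nat.sub_sub]
  refine h1.trans ?_
  rw [Finset.sum_product_right, ← Nat.cast_mul, ← Finset.card_product, ← nsmul_eq_mul]
  refine Finset.sum_le_card_nsmul _ _ _ fun y hy => ?_
  obtain ⟨y1, y2⟩ := Finset.mem_product.1 hy
  dsimp only
  rw [← Finset.mul_sum, ← Finset.sum_mul]
  by_cases hr : rel y.1 y.2
  · rw [ind_pos hr, one_mul]
    exact hw _ (hS y1) _ (hS' y2) (fun h => Finset.disjoint_left.1 hd y1 (h ▸ y2)) hr
  · rw [ind_neg hr, zero_mul]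
    exact hw0

omit [Fintype ι] [DecidableEq ι] in
private lemma KXP1_sum {y : ℝ} (hy : 0 ≤ y) (U : Finset ι) :
    ∑ S ∈ U.powerset, y ^ S.card ≤ Real.exp (U.card * y) := by
  have h := Finset.prod_one_add (f := fun _ : ι => y) U
  simp only [Finset.prod_const] at h
  rw [← h, Real.exp_nat_mul]
  exact pow_le_pow_left₀ (by positivity) (by linarith [Real.add_one_le_exp y]) _

theorem xp_fin (hk : ∀ T ∈ 𝒞, T.card = k) {p : ℝ} (p0 : 0 ≤ p) (p1 : p ≤ 1) (U : Finset ι)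
    {w0 ρ a b m t : ℝ} (hw0 : 0 ≤ w0)
    (hw : ∀ e ∈ U, ∀ f ∈ U, e ≠ f → rel e f → (∑ T ∈ 𝒞, ind (e ∈ T ∧ f ∈ T)) * p ^ (k - 2) ≤ w0)
    (h0 : 0 ≤ ρ) (h1 : 4 * (k * ρ) ≤ 1) (h2 : 4 * (k * D1 * ρ ^ 2) ≤ 1) (h3 : ρ ≤ 1)
    (ha : 0 < a) (hb : 0 < b) (hm : 0 ≤ m) (ht : 0 ≤ t)
    (hB : Real.exp t * w0 ≤ t * (m / (8 * (a * b)))) :
    Pr p (fun ω => ∃ S ⊆ ω ∩ U, ∃ S' ⊆ ω ∩ U, Disjoint S S' ∧ (S.card : ℝ) ≤ a ∧
      (S'.card : ℝ) ≤ b ∧ ∃ 𝓕, XFam 𝒞 D1 rel ω S S' 𝓕 ∧ m ≤ 𝓕.card) ≤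
      Real.exp (2 * (p * U.card) * Real.exp (-(t * (ρ * m / (8 * (a + b))))) -
        t * (ρ ^ 2 * m / 4)) := by
  classical
  set A := ρ * m / (8 * (a + b)) with hA
  set B := m / (8 * (a * b)) with hB'
  have hA0 : 0 ≤ A := by positivity
  have hB0 : 0 ≤ B := by positivity
  have eA : A * (a + b) = ρ * m / 8 := by rw [hA]; field_simp
  have eB : B * (a * b) = m / 8 := by rw [hB']; field_simp
  set y := p * Real.exp (-(t * A)) with hy
  have hy0 : 0 ≤ y := by positivity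
  refine (Pr_mono p0 p1 (B := fun ω => ∃ z ∈ U.powerset ×ˢ U.powerset, Disjoint z.1 z.2 ∧
    ∃ M ∈ (xItems 𝒞 rel z.1 z.2).powerset, PD remd M ∧
      ρ ^ 2 * m / 4 + A * (z.1.card + z.2.card) + B * (z.1.card * z.2.card) ≤ M.card ∧
      z.1 ∪ z.2 ⊆ ω ∧ ∀ x ∈ M, remd x ⊆ ω) ?_).trans ?_
  · rintro ω ⟨S, hS, S', hS', hd, sa, sb, 𝓕, hF, hmF⟩
    obtain ⟨S0, s0, S0', s0', M, m1, m2, m3, m4⟩ :=
      sparsify (A := A) (B := B) hk hd hF h0 h1 h2 h3
    refine ⟨(S0, S0'), Finset.mem_product.2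
      ⟨Finset.mem_powerset.2 (s0.trans (hS.trans Finset.inter_subset_right)),
        Finset.mem_powerset.2 (s0'.trans (hS'.trans Finset.inter_subset_right))⟩,
      hd.mono s0 s0', M, Finset.mem_powerset.2 m1, m2, le_trans ?_ m4,
      Finset.union_subset (s0.trans (hS.trans Finset.inter_subset_left))
        (s0'.trans (hS'.trans Finset.inter_subset_left)), m3⟩
    have b1 : A * (ρ * (S.card + S'.card)) ≤ ρ ^ 2 * m / 8 := by
      calc A * (ρ * (S.card + S'.card)) ≤ A * (ρ * (a + b)) := by gcongr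
        _ = ρ * (A * (a + b)) := by ring
        _ = ρ ^ 2 * m / 8 := by rw [eA]; ring
    have b2 : B * (ρ ^ 2 * (S.card * S'.card)) ≤ ρ ^ 2 * m / 8 := by
      calc B * (ρ ^ 2 * (S.card * S'.card)) ≤ B * (ρ ^ 2 * (a * b)) := by gcongr
        _ = ρ ^ 2 * (B * (a * b)) := by ring
        _ = ρ ^ 2 * m / 8 := by rw [eB]; ring
    have b3 : ρ ^ 2 * m ≤ ρ ^ 2 * 𝓕.card := mul_le_mul_of_nonneg_left hmF (sq_nonneg _)
    dsimp only
    linarith only [b1, b2, b3]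
  refine (Pr_exists_le p0 p1 _ _).trans (le_trans (Finset.sum_le_sum (g := fun z =>
    y ^ z.1.card * y ^ z.2.card * Real.exp (-(t * (ρ ^ 2 * m / 4)))) fun z hz => ?_) ?_)
  · obtain ⟨z1, z2⟩ := Finset.mem_product.1 hz
    by_cases hd : Disjoint z.1 z.2
    · refine (Pr_mono p0 p1 fun ω h => h.2).trans ((disj_tail p0 p1 _ remd (z.1 ∪ z.2)
        (fun x hx => (Finset.mem_filter.1 hx).2.2.2.2) ht (KXP1_weight hk p0 hw0 hw
          (Finset.mem_powerset.1 z1) (Finset.mem_powerset.1 z2) hd)).trans ?_)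
      rw [Finset.card_union_of_disjoint hd, ← pow_add, hy, mul_pow, mul_assoc (p ^ _),
        ← Real.exp_nat_mul, ← Real.exp_add]
      refine mul_le_mul_of_nonneg_left (Real.exp_le_exp.2 ?_) (pow_nonneg p0 _)
      have b1 := mul_le_mul_of_nonneg_left hB
        (show (0 : ℝ) ≤ (z.1.card : ℝ) * z.2.card by (clear * -; positivity))
      push_cast
      linarith only [b1]
    · refine le_trans (Pr_mono p0 p1 (B := fun _ => False) fun ω h => hd h.1) ?_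
      rw [Pr_false]
      positivity
  · rw [← Finset.sum_mul, Finset.sum_product' (f := fun S S' : Finset ι => y ^ S.card * y ^ S'.card),
      ← Finset.sum_mul_sum, sub_eq_add_neg, Real.exp_add]
    refine mul_le_mul_of_nonneg_right ?_ (Real.exp_pos _).le
    have b1 := KXP1_sum hy0 U
    refine (mul_le_mul b1 b1 (Finset.sum_nonneg fun _ _ => pow_nonneg hy0 _)
      (Real.exp_pos _).le).trans (le_of_eq ?_)
    rw [← Real.exp_add, hy]
    congr 1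
    ring

end Pool.Agent.Work.MP_d4a230_co
end

-- merged part: Pool.Agent.Work.MP_d4a230_co.KXP2
section
/-!
The expansion lemma at all scales.
-/

namespace Pool.Agent.Work.MP_d4a230_co

open Finset Filter Topology

section Fin

variable {ι : Type} [DecidableEq ι]

/-- The expansion property of `ω` on the universe `U` of scale `N`. -/
def XP (𝒞 : Finset (Finset ι)) (D1 : ℝ) (rel : ι → ι → Prop) (U : Finset ι) (N η g ζ : ℝ)
    (ω : Finset ι) : Prop :=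
  ∀ S ⊆ ω ∩ U, ∀ S' ⊆ ω ∩ U, Disjoint S S' → (S.card : ℝ) ≤ 2 * N → (S'.card : ℝ) ≤ 2 * N →
    min (S.card : ℝ) S'.card ≤ η * N → ∀ 𝓕, XFam 𝒞 D1 rel ω S S' 𝓕 →
      (𝓕.card : ℝ) ≤ g * (max (S.card : ℝ) S'.card + ζ * N)

private lemma KXP2_num (k : ℕ) {K γ c0 Q Λ : ℝ} (hK : 1 ≤ K) (hγ : 0 < γ)
    (hc0 : c0 = 1 / (32 * ((k : ℝ) + 1) ^ 2 * K)) (hΛ : 1 ≤ Λ)
    (hΛ2 : 256 * Q ^ 2 / (γ ^ 2 * c0) ≤ Λ) : ∃ ρ : ℝ, 0 < ρ ∧ 4 * (k * ρ) ≤ 1 ∧
      4 * (k * (3 * (K * (Λ + 1)) + 1) * ρ ^ 2) ≤ 1 ∧ ρ ≤ 1 ∧ c0 ≤ ρ ^ 2 * Λ ∧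
      Q ≤ ρ * γ * Λ / 16 := by
  have hk : (0 : ℝ) ≤ k := Nat.cast_nonneg k
  have hM : 1 ≤ K * (Λ + 1) := by nlinarith only [hK, hΛ]
  have hM2 : K * (Λ + 1) ≤ 2 * K * Λ := by nlinarith only [hΛ, hK]
  set M := K * (Λ + 1) with hMdef
  have hr : 1 ≤ Real.sqrt M := Real.one_le_sqrt.2 hM
  have hr2 : Real.sqrt M ^ 2 = M := Real.sq_sqrt (by linarith only [hK, hM2])
  set r := Real.sqrt M
  have hρ : 0 < 1 / (4 * ((k : ℝ) + 1) * r) := by positivity
  have hsq : (1 / (4 * ((k : ℝ) + 1) * r)) ^ 2 = 1 / (16 * ((k : ℝ) + 1) ^ 2 * M) := by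
    rw [← hr2]
    field_simp
    norm_num
  have hc : c0 ≤ (1 / (4 * ((k : ℝ) + 1) * r)) ^ 2 * Λ := by
    rw [hsq, hc0, div_mul_eq_mul_div, div_le_div_iff₀ (by positivity) (by positivity)]
    nlinarith only [hM2, mul_le_mul_of_nonneg_left hM2 (show 0 ≤ 16 * ((k : ℝ) + 1) ^ 2 by positivity)]
  have hc0p : 0 < c0 := by rw [hc0]; positivity
  refine ⟨_, hρ, ?_, ?_, ?_, hc, ?_⟩
  · rw [mul_one_div, ← mul_div_assoc, div_le_one (by positivity)]
    nlinarith only [hr]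
  · rw [hsq, mul_one_div, ← mul_div_assoc, div_le_one (by positivity)]
    nlinarith only [hK, hM2, hk, hM, mul_nonneg hk (sub_nonneg.2 hM), mul_nonneg (sq_nonneg (k : ℝ)) (sub_nonneg.2 hM),
      sq_nonneg (k : ℝ)]
  · rw [div_le_one (by positivity)]
    nlinarith only [hr]
  · refine le_of_sq_le_sq ?_ (by positivity)
    rw [div_le_iff₀ (by positivity)] at hΛ2
    have := mul_le_mul_of_nonneg_left hc (show 0 ≤ Λ * γ ^ 2 by positivity)
    nlinarith only [hΛ2, this]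

private lemma KXP2_one [Fintype ι] {𝒞 : Finset (Finset ι)} {D1 : ℝ} {rel : ι → ι → Prop} {k : ℕ}
    (hk : ∀ T ∈ 𝒞, T.card = k) {p : ℝ} (p0 : 0 ≤ p) (p1 : p ≤ 1) (U : Finset ι)
    {K γ Λ N ρ c0 θ θ' a b : ℝ} (hK : 1 ≤ K) (hγ : 0 < γ) (hΛ : 1 ≤ Λ) (hN : 0 < N)
    (hU : p * U.card ≤ N)
    (hw : ∀ e ∈ U, ∀ f ∈ U, e ≠ f → rel e f →
      (∑ T ∈ 𝒞, ind (e ∈ T ∧ f ∈ T)) * p ^ (k - 2) * N ≤ K * (Λ + 1))
    (h0 : 0 < ρ) (h1 : 4 * (k * ρ) ≤ 1) (h2 : 4 * (k * D1 * ρ ^ 2) ≤ 1) (h3 : ρ ≤ 1)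
    (hc0 : 0 < c0) (hc : c0 ≤ ρ ^ 2 * Λ) (hQ : 256 * K / (c0 * γ ^ 2) + 1 ≤ ρ * γ * Λ / 16)
    (hθ' : 0 < θ') (hθ : θ' ≤ θ) (hη : θ' ≤ γ / (48 * K)) (ha : 0 < a) (hb : 0 < b)
    (hab : a * b = θ * θ' * N ^ 2) (hab' : a + b ≤ 2 * θ * N) :
    Pr p (fun ω => ∃ S ⊆ ω ∩ U, ∃ S' ⊆ ω ∩ U, Disjoint S S' ∧ (S.card : ℝ) ≤ a ∧
      (S'.card : ℝ) ≤ b ∧ ∃ 𝓕, XFam 𝒞 D1 rel ω S S' 𝓕 ∧ γ * Λ * θ * N ≤ 𝓕.card) ≤
      Real.exp (-(c0 * γ * θ / 8 * N)) := by
  have hθ0 : 0 < θ := hθ'.trans_le hθ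
  have hK0 : 0 < K := by linarith only [hK]
  have hΛ0 : 0 < Λ := by linarith
  have hX : 3 ≤ γ / (16 * K * θ') := by
    rw [le_div_iff₀ (by positivity)] at hη ⊢
    linarith
  have hX0 : 0 < γ / (16 * K * θ') := by linarith only [hX]
  obtain ⟨t, het⟩ : ∃ t, Real.exp t = γ / (16 * K * θ') := ⟨_, Real.exp_log hX0⟩
  have ht : 1 ≤ t := by
    rw [← Real.exp_le_exp, het]
    exact (Real.exp_one_lt_d9.le.trans (by norm_num)).trans hX
  have hm : 0 < γ * Λ * θ * N := by positivity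
  refine (xp_fin hk p0 p1 U (w0 := K * (Λ + 1) / N) (t := t) (by positivity)
    (fun e he f hf hef hr => (le_div_iff₀ hN).2 (hw e he f hf hef hr)) h0.le h1 h2 h3 ha hb hm.le
    (by linarith only [ht]) ?_).trans (Real.exp_le_exp.2 ?_)
  · refine le_trans ?_ (le_mul_of_one_le_left (by positivity) ht)
    have e : γ * Λ * θ * N / (8 * (a * b)) = γ / (16 * K * θ') * (2 * K * Λ / N) := by
      rw [hab]
      field_simp
      norm_num
    rw [het, e]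
    refine mul_le_mul_of_nonneg_left (div_le_div_of_nonneg_right ?_ hN.le) hX0.le
    nlinarith only [hΛ, hK]
  · set A := ρ * (γ * Λ * θ * N) / (8 * (a + b)) with hA
    have hQ0 : 0 < 256 * K / (c0 * γ ^ 2) := by positivity
    have hA1 : ρ * γ * Λ / 16 ≤ A := by
      rw [hA, div_le_div_iff₀ (by norm_num) (by positivity)]
      nlinarith only [hab', h0, hγ, hΛ, mul_le_mul_of_nonneg_left hab' (show 0 ≤ ρ * γ * Λ by positivity)]
    have hE : γ / (16 * K * θ') * (256 * K / (c0 * γ ^ 2)) ≤ Real.exp (t * A) := by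
      have e1 : t + (A - 1) ≤ t * A := by nlinarith only [hQ, ht, hQ0, hA1]
      refine le_trans ?_ (Real.exp_le_exp.2 e1)
      rw [Real.exp_add, het]
      refine mul_le_mul_of_nonneg_left ?_ hX0.le
      linarith only [hQ, hA1, Real.add_one_le_exp (A - 1)]
    have hE2 : Real.exp (-(t * A)) ≤ c0 * γ * θ' / 16 := by
      rw [Real.exp_neg]
      refine (inv_anti₀ (by positivity) hE).trans (le_of_eq ?_)
      field_simp
      norm_num
    have b1 : 2 * (p * U.card) * Real.exp (-(t * A)) ≤ 2 * N * (c0 * γ * θ / 16) := by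
      refine mul_le_mul (by linarith only [hU]) (hE2.trans ?_) (Real.exp_pos _).le (by positivity)
      gcongr
    have b2 : c0 * (γ * θ * N) / 4 ≤ t * (ρ ^ 2 * (γ * Λ * θ * N) / 4) := by
      refine le_trans ?_ (le_mul_of_one_le_left (by positivity) ht)
      nlinarith only [hc, hγ, hθ0, hN, mul_le_mul_of_nonneg_right hc (show 0 ≤ γ * θ * N by positivity)]
    nlinarith only [b1, b2]

/-- All scales at once. The constants `η` and `Λ0` depend only on `k`, `K` and `γ`. -/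
theorem xp_scales (k : ℕ) {K γ : ℝ} (hK : 1 ≤ K) (hγ : 0 < γ) : ∃ η : ℝ, 0 < η ∧ ∃ Λ0 : ℝ,
    ∀ Λ, Λ0 ≤ Λ → ∀ ζ : ℝ, 0 < ζ → ∃ c C : ℝ, 0 < c ∧
      ∀ (ι : Type) [DecidableEq ι] [Fintype ι] (𝒞 : Finset (Finset ι)) (rel : ι → ι → Prop)
        (U : Finset ι) (p N : ℝ), (∀ T ∈ 𝒞, T.card = k) → 0 ≤ p → p ≤ 1 → 0 < N →
        p * U.card ≤ N →
        (∀ e ∈ U, ∀ f ∈ U, e ≠ f → rel e f →
          (∑ T ∈ 𝒞, ind (e ∈ T ∧ f ∈ T)) * p ^ (k - 2) * N ≤ K * (Λ + 1)) →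
        Pr p (fun ω => ¬ XP 𝒞 (3 * (K * (Λ + 1)) + 1) rel U N η (γ * Λ) ζ ω) ≤
          C * Real.exp (-(c * N)) := by
  have hK0 : 0 < K := by linarith
  obtain ⟨c0, hc0⟩ : ∃ c0 : ℝ, c0 = 1 / (32 * ((k : ℝ) + 1) ^ 2 * K) := ⟨_, rfl⟩
  have hc0p : 0 < c0 := by rw [hc0]; positivity
  obtain ⟨η, hη⟩ : ∃ η : ℝ, η = γ / (48 * K) := ⟨_, rfl⟩
  have hη0 : 0 < η := by rw [hη]; positivity
  refine ⟨η, hη0, max 1 (256 * (256 * K / (c0 * γ ^ 2) + 1) ^ 2 / (γ ^ 2 * c0)),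
    fun Λ hΛ ζ hζ => ?_⟩
  have hΛ1 : 1 ≤ Λ := (le_max_left _ _).trans hΛ
  obtain ⟨ρ, h0, h1, h2, h3, hc, hQ⟩ := KXP2_num k hK hγ hc0 hΛ1 ((le_max_right _ _).trans hΛ)
  refine ⟨c0 * γ * ζ / 8, 2 * ((⌊2 / ζ⌋₊ + 1 : ℕ) : ℝ), by positivity,
    fun ι _ _ 𝒞 rel U p N hk p0 p1 hN hU hw => ?_⟩
  set B : ℝ → ℝ → ℝ → Finset ι → Prop := fun θ a b ω => ∃ S ⊆ ω ∩ U, ∃ S' ⊆ ω ∩ U,
    Disjoint S S' ∧ (S.card : ℝ) ≤ a ∧ (S'.card : ℝ) ≤ b ∧
      ∃ 𝓕, XFam 𝒞 (3 * (K * (Λ + 1)) + 1) rel ω S S' 𝓕 ∧ γ * Λ * θ * N ≤ 𝓕.card with hB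
  have hone : ∀ θ : ℝ, ζ ≤ θ → Pr p (fun ω => B θ (θ * N) (min θ η * N) ω ∨
      B θ (min θ η * N) (θ * N) ω) ≤ 2 * Real.exp (-(c0 * γ * ζ / 8 * N)) := by
    intro θ hθ
    have hθ0 : 0 < θ := hζ.trans_le hθ
    have hm : 0 < min θ η := lt_min hθ0 hη0
    have hm2 : min θ η * N ≤ θ * N := mul_le_mul_of_nonneg_right (min_le_left _ _) hN.le
    have hE : Real.exp (-(c0 * γ * θ / 8 * N)) ≤ Real.exp (-(c0 * γ * ζ / 8 * N)) := by
      gcongr
    have a1 := KXP2_one hk p0 p1 U hK hγ hΛ1 hN hU hw h0 h1 h2 h3 hc0p hc hQ hm (min_le_left _ _)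
      (hη ▸ min_le_right _ _) (a := θ * N) (b := min θ η * N) (by positivity) (by positivity)
      (by ring) (by linarith only [hm2])
    have a2 := KXP2_one hk p0 p1 U hK hγ hΛ1 hN hU hw h0 h1 h2 h3 hc0p hc hQ hm (min_le_left _ _)
      (hη ▸ min_le_right _ _) (a := min θ η * N) (b := θ * N) (by positivity) (by positivity)
      (by ring) (by linarith only [hm2])
    refine (Pr_or_le p0 p1 _ _).trans ?_
    linarith only [hE, a1, a2]
  refine (Pr_mono p0 p1 (B := fun ω => ∃ i ∈ range (⌊2 / ζ⌋₊ + 1),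
    B ((i + 1) * ζ) ((i + 1) * ζ * N) (min ((i + 1) * ζ) η * N) ω ∨
      B ((i + 1) * ζ) (min ((i + 1) * ζ) η * N) ((i + 1) * ζ * N) ω) fun ω hω => ?_).trans ?_
  · unfold XP at hω
    push Not at hω
    obtain ⟨S, hS, S', hS', hd, c1, c2, c3, 𝓕, hF, hlt⟩ := hω
    set x : ℝ := max (S.card : ℝ) S'.card with hx
    have hx0 : 0 ≤ x := le_max_of_le_left (Nat.cast_nonneg _)
    have hζN : 0 < ζ * N := by positivity
    have hx2 : x / (ζ * N) ≤ 2 / ζ := by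
      rw [div_le_div_iff₀ hζN hζ]
      nlinarith only [c1, c2, hζ, mul_le_mul_of_nonneg_right (max_le c1 c2) hζ.le]
    have l1 := Nat.floor_le (div_nonneg hx0 hζN.le)
    have l2 := (Nat.lt_floor_add_one (x / (ζ * N))).le
    refine ⟨⌊x / (ζ * N)⌋₊, mem_range.2 (Nat.lt_succ_of_le (Nat.floor_le_floor hx2)), ?_⟩
    set i : ℝ := (⌊x / (ζ * N)⌋₊ : ℝ)
    rw [le_div_iff₀ hζN] at l1
    rw [div_le_iff₀ hζN, ← mul_assoc] at l2
    have hbig : γ * Λ * ((i + 1) * ζ) * N ≤ 𝓕.card := by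
      refine le_trans ?_ hlt.le
      rw [mul_assoc (γ * Λ)]
      exact mul_le_mul_of_nonneg_left (by linarith only [l1]) (by positivity)
    have s1 : (S.card : ℝ) ≤ (i + 1) * ζ * N := (le_max_left _ _).trans l2
    have s2 : (S'.card : ℝ) ≤ (i + 1) * ζ * N := (le_max_right _ _).trans l2
    rw [min_mul_of_nonneg _ _ hN.le]
    rcases min_le_iff.1 c3 with h | h
    · exact Or.inr ⟨S, hS, S', hS', hd, le_min s1 h, s2, 𝓕, hF, hbig⟩
    · exact Or.inl ⟨S, hS, S', hS', hd, s1, le_min s2 h, 𝓕, hF, hbig⟩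
  · refine (Pr_exists_le p0 p1 _ _).trans ?_
    refine (sum_le_card_nsmul _ _ _ fun (i : ℕ) _ => hone ((i + 1) * ζ)
      (le_mul_of_one_le_left hζ.le (by linarith only [Nat.cast_nonneg (α := ℝ) i]))).trans
        (le_of_eq ?_)
    rw [card_range, nsmul_eq_mul]
    ring

end Fin

end Pool.Agent.Work.MP_d4a230_co
end

-- merged part: Pool.Agent.Work.MP_d4a230_co.KXP3
section
/-!
The expansion property holds with high probability.
-/

namespace Pool.Agent.Work.MP_d4a230_co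

open Finset Filter Topology

theorem xp_whp (h k K0 : ℕ) (hK : 1 ≤ K0) {γ : ℝ} (hγ : 0 < γ) : ∃ η : ℝ, 0 < η ∧ ∃ Λ0 : ℝ,
    ∀ (p : ℕ → ℝ) (𝒞 : ∀ n, Finset (Finset (Sym2 (Fin n)))) (μ Λ : ℝ), HReg p 𝒞 h k K0 μ Λ →
      Λ0 ≤ Λ → ∀ ζ : ℝ, 0 < ζ → Whp p fun n ω =>
        (∀ u, XP (𝒞 n) (3 * (K0 * (Λ + 1)) + 1) (fun _ _ => True) (star u) (p n * n) η (γ * Λ) ζ ω) ∧
        XP (𝒞 n) (3 * (K0 * (Λ + 1)) + 1) Far (offd (Fin n)) (p n * (n : ℝ) ^ 2) η (γ * Λ) ζ ω := by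
  obtain ⟨η, hη, Λ0, h1⟩ := xp_scales k (K := K0) (by exact_mod_cast hK) hγ
  refine ⟨η, hη, Λ0, fun p 𝒞 μ Λ R hΛ ζ hζ => ?_⟩
  obtain ⟨c, C, hc, h2⟩ := h1 Λ hΛ ζ hζ
  have hk : ∀ n, p n ^ (k - 2) * p n = p n ^ (k - 1) := fun n => by
    have := (R.sys 0).h3
    have := (R.sys 0).hk
    rw [← pow_succ]; congr 1; omega
  have hd := (R.decay hc 0).const_mul |C|
  rw [mul_zero] at hd
  have hb : ∀ n : ℕ, (n : ℝ) ^ (h - 2) * p n ^ (k - 1) ≤ Λ + 1 → ∀ x : ℝ,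
      x ≤ K0 * (Fintype.card (Fin n) : ℝ) ^ (h - 2) → x * p n ^ (k - 1) ≤ K0 * (Λ + 1) := by
    intro n b1 x hx
    rw [Fintype.card_fin] at hx
    refine (mul_le_mul_of_nonneg_right hx (pow_nonneg (R.p0 n) _)).trans ?_
    rw [mul_assoc]
    exact mul_le_mul_of_nonneg_left b1 (Nat.cast_nonneg _)
  refine Whp.and R.p0 R.p1 (whp_of_le R.p0 R.p1 hd ?_) (whp_of_le R.p0 R.p1 hd ?_)
  · filter_upwards [R.bd, R.inf.eventually_gt_atTop 0] with n b1 hD
    refine (Pr_mono (R.p0 n) (R.p1 n) (B := fun ω => ∃ u ∈ (univ : Finset (Fin n)), ¬ XP (𝒞 n)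
      (3 * (K0 * (Λ + 1)) + 1) (fun _ _ => True) (star u) (p n * n) η (γ * Λ) ζ ω)
      fun ω hω => by simpa using hω).trans ((Pr_exists_le (R.p0 n) (R.p1 n) _ _).trans
        ((Finset.sum_le_card_nsmul _ _ (|C| * Real.exp (-(c * (p n * n)))) fun u _ => ?_).trans
          (le_of_eq ?_)))
    · refine (h2 _ (𝒞 n) _ (star u) (p n) _ (R.sys n).card (R.p0 n) (R.p1 n) hD ?_ ?_).trans
        (mul_le_mul_of_nonneg_right (le_abs_self C) (Real.exp_pos _).le)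
      · refine mul_le_mul_of_nonneg_left ?_ (R.p0 n)
        exact_mod_cast (card_star u).trans (Fintype.card_fin n).le
      · intro e _ f _ hef _
        refine le_trans (le_of_eq ?_) (hb n b1 _ ((R.sys n).pair_adj hef))
        rw [Fintype.card_fin, ← hk]; ring
    · rw [Finset.card_univ, Fintype.card_fin, nsmul_eq_mul, zero_sub]; ring
  · filter_upwards [R.bd, R.inf.eventually_gt_atTop 0, eventually_ge_atTop 1] with n b1 hD hn
    have hn' : (1 : ℝ) ≤ n := by exact_mod_cast hn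
    have hN : p n * n ≤ p n * (n : ℝ) ^ 2 := by nlinarith only [hD, hn']
    refine (h2 _ (𝒞 n) _ (offd (Fin n)) (p n) _ (R.sys n).card (R.p0 n) (R.p1 n) (hD.trans_le hN)
      ?_ ?_).trans ?_
    · refine mul_le_mul_of_nonneg_left ?_ (R.p0 n)
      have := card_offd (V := Fin n)
      rw [Fintype.card_fin] at this
      nlinarith only [hn', this]
    · intro e _ f _ _ hef
      refine le_trans (le_of_eq ?_) (hb n b1 _ ((R.sys n).pair_far hef))
      rw [Fintype.card_fin, ← hk]; ring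
    · refine mul_le_mul (le_abs_self C) ?_ (Real.exp_pos _).le (abs_nonneg C)
      refine le_trans (Real.exp_le_exp.2 ?_) (le_mul_of_one_le_left (Real.exp_pos _).le hn')
      nlinarith only [hc, hN]

end Pool.Agent.Work.MP_d4a230_co
end
end

-- merged part: Pool.Agent.Work.MP_d4a230_co.KJZ
section
-- merged part: Pool.Agent.Work.MP_d4a230_co.KCount4
section
/-!
The copies through an inside edge at `u` that use a deleted edge at `u`.
-/

namespace Pool.Agent.Work.MP_d4a230_co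

open Finset Filter Topology

/-- A member through `e` without another inside pair, whose pairs at `u` lie in `N`, not all in
`N'`. -/
def BadT {V : Type} [DecidableEq V] (𝒞 : Finset (Finset (Sym2 V))) (ins : Sym2 V → Prop) (u : V)
    (N N' : Finset (Sym2 V)) (e : Sym2 V) (T : Finset (Sym2 V)) : Prop :=
  T ∈ 𝒞 ∧ e ∈ T ∧ OneIn ins e T ∧ (∀ g ∈ T, u ∈ g → g ∈ N) ∧ ∃ f ∈ T, u ∈ f ∧ f ≠ e ∧ f ∉ N'

/-- The vertex `u` is typical in `N` and keeps a third of its neighbours in the other classes. -/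
def Typ {n r : ℕ} (π : Fin n → Fin r) (ξ D : ℝ) (N N' : Finset (Sym2 (Fin n))) (u : Fin n) :
    Prop :=
  (∀ j, dto N u (part π j) ≤ (1 / r + ξ) * D) ∧
    ∀ j, j ≠ π u → 1 / (3 * (r : ℝ)) * D ≤ dto N' u (part π j)

variable {W : Type} [Fintype W] [DecidableEq W] {H : SimpleGraph W} [DecidableRel H.Adj] {r : ℕ}

section Aux

variable {V : Type} [Fintype V] [DecidableEq V]

/-- The weight of a colouring: no monochromatic edge other than `ab`. -/
def KCount4_wt (H : SimpleGraph W) [DecidableRel H.Adj] (a b : W) (χ : W → Fin r) : ℝ :=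
  ∏ g ∈ H.edgeFinset.erase s(a, b), pw χ 1 0 g

/-- The allowed images of a vertex. -/
def KCount4_S (H : SimpleGraph W) [DecidableRel H.Adj] (a : W) (u : V) (N : Finset (Sym2 V))
    (w : W) : Finset V :=
  if H.Adj a w then (univ.erase u).filter (fun x => s(u, x) ∈ N) else univ

lemma KCount4_wt_nonneg (a b : W) (χ : W → Fin r) : 0 ≤ KCount4_wt H a b χ :=
  Finset.prod_nonneg fun g _ => by unfold pw; split_ifs <;> norm_num

lemma KCount4_wt_le (a b : W) (χ : W → Fin r) : KCount4_wt H a b χ ≤ 1 :=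
  Finset.prod_le_one (fun g _ => by unfold pw; split_ifs <;> norm_num)
    fun g _ => by unfold pw; split_ifs <;> norm_num

lemma KCount4_wt_ne {a b w : W} {χ : W → Fin r} (h : KCount4_wt H a b χ ≠ 0) (haw : H.Adj a w)
    (hwb : w ≠ b) : χ w ≠ χ a := by
  intro hc
  apply h
  refine Finset.prod_eq_zero (i := s(a, w)) ?_ ?_
  · refine Finset.mem_erase.2 ⟨fun h' => hwb (Sym2.congr_right.1 h'), ?_⟩
    simpa using haw
  · unfold pw
    rw [if_pos]
    simp [hc]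

omit [Fintype V] in
lemma KCount4_wt_eq (π : V → Fin r) (f : W ↪ V) (a b : W) :
    KCount4_wt H a b (π ∘ f) = ind (OneIn (Ins π) s(f a, f b) (img H f)) := by
  by_cases h : OneIn (Ins π) s(f a, f b) (img H f)
  · rw [ind_pos h]
    refine Finset.prod_eq_one fun g hg => ?_
    obtain ⟨h1, h2⟩ := Finset.mem_erase.1 hg
    have h3 : g.map f ∈ img H f := Finset.mem_image_of_mem _ h2
    have h4 : g.map f ≠ s(f a, f b) := fun h' =>
      h1 (Sym2.map.injective f.injective (by rw [h', Sym2.map_mk]))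
    have h5 := h _ h3 h4
    unfold pw
    rw [if_neg]
    intro h6
    exact h5 ⟨img_nd h3, by rwa [Sym2.map_map]⟩
  · rw [ind_neg h]
    unfold OneIn at h
    push Not at h
    obtain ⟨g', hg', h1, h2⟩ := h
    obtain ⟨g, hg, rfl⟩ := Finset.mem_image.1 hg'
    refine Finset.prod_eq_zero (i := g) (Finset.mem_erase.2 ⟨?_, hg⟩) ?_
    · rintro rfl
      exact h1 (by rw [Sym2.map_mk])
    · unfold pw
      rw [if_pos]
      have := h2.2
      rwa [Sym2.map_map] at this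

omit [Fintype W] [DecidableEq W] in
lemma KCount4_card_S (π : V → Fin r) (a w : W) (u : V) (N : Finset (Sym2 V)) (j : Fin r) :
    ((KCount4_S H a u N w ∩ part π j).card : ℝ) =
      if H.Adj a w then dto N u (part π j) else ((part π j).card : ℝ) := by
  unfold KCount4_S
  split_ifs with h
  · unfold dto
    rw [sum_ind]
    congr 2
    ext x
    simp only [Finset.mem_inter, Finset.mem_filter, Finset.mem_erase, Finset.mem_univ]
    tauto
  · rw [Finset.univ_inter]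

omit [Fintype V] in
lemma KCount4_dto_nonneg (N : Finset (Sym2 V)) (u : V) (S : Finset V) : 0 ≤ dto N u S :=
  Finset.sum_nonneg fun _ _ => ind_nonneg _

lemma KCount4_deg {a b : W} (hab : H.Adj a b) :
    (H.edgeFinset.filter fun g => a ∉ g).card +
      (((univ.erase a).erase b).filter fun w => H.Adj a w).card = H.edgeFinset.card - 1 := by
  have h1 : (H.edgeFinset.filter fun g => a ∈ g).card = H.degree a := by
    rw [← SimpleGraph.incidenceFinset_eq_filter, SimpleGraph.card_incidenceFinset_eq_degree]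
  have h2 := Finset.card_filter_add_card_filter_not (s := H.edgeFinset) (fun g => a ∈ g)
  have h3 : (((univ.erase a).erase b).filter fun w => H.Adj a w) = (H.neighborFinset a).erase b := by
    ext w
    simp only [Finset.mem_filter, Finset.mem_erase, Finset.mem_univ, SimpleGraph.mem_neighborFinset]
    constructor
    · rintro ⟨⟨h, -⟩, h'⟩; exact ⟨h, h'⟩
    · rintro ⟨h, h'⟩; exact ⟨⟨h, h'.ne', trivial⟩, h'⟩
  have h4 : b ∈ H.neighborFinset a := by simpa using hab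
  have h5 := Finset.card_erase_add_one h4
  rw [SimpleGraph.card_neighborFinset_eq_degree] at h5
  rw [h3]
  omega

omit [Fintype V] in
lemma KCount4_out (f : W ↪ V) (a : W) :
    (outS (f a) (img H f)).card = (H.edgeFinset.filter fun g => a ∉ g).card := by
  have : outS (f a) (img H f) = (H.edgeFinset.filter fun g => a ∉ g).image (Sym2.map f) := by
    unfold outS img
    rw [Finset.filter_image]
    congr 1
    refine Finset.filter_congr fun g _ => not_congr ?_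
    rw [Sym2.mem_map]
    constructor
    · rintro ⟨x, hx, h⟩
      rwa [← f.injective h]
    · intro h
      exact ⟨a, h, rfl⟩
  rw [this, Finset.card_image_of_injective _ (Sym2.map.injective f.injective)]

omit [Fintype W] [DecidableEq W] in
lemma KCount4_S_mono (a w : W) (u : V) {N N' : Finset (Sym2 V)} (h : N' ⊆ N) :
    KCount4_S H a u N' w ⊆ KCount4_S H a u N w := by
  unfold KCount4_S
  split_ifs
  · intro x hx
    rw [Finset.mem_filter] at hx ⊢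
    exact ⟨hx.1, h hx.2⟩
  · exact Finset.Subset.refl _

lemma KCount4_point (π : V → Fin r) (f : W ↪ V) (a b : W) (N N' : Finset (Sym2 V)) (hN : N' ⊆ N) :
    ind (BadT (copies H V) (Ins π) (f a) N N' s(f a, f b) (img H f)) ≤
      ind (∀ w ∈ (univ.erase a).erase b, f w ∈ KCount4_S H a (f a) N w) *
          KCount4_wt H a b (π ∘ f) -
        ind (∀ w ∈ (univ.erase a).erase b, f w ∈ KCount4_S H a (f a) N' w) *
          KCount4_wt H a b (π ∘ f) := by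
  by_cases h : BadT (copies H V) (Ins π) (f a) N N' s(f a, f b) (img H f)
  · obtain ⟨-, -, h1, h2, g', hg', h3, h4, h5⟩ := id h
    rw [ind_pos h, KCount4_wt_eq, ind_pos h1, ind_pos, ind_neg]
    · norm_num
    · intro hall
      obtain ⟨g, hg, rfl⟩ := Finset.mem_image.1 hg'
      obtain ⟨x, hx, hxa⟩ := Sym2.mem_map.1 h3
      have hxa' := f.injective hxa
      subst hxa'
      obtain ⟨w, rfl⟩ := Sym2.mem_iff_exists.1 hx
      have hadj : H.Adj x w := by simpa using hg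
      have hwb : w ≠ b := by
        rintro rfl
        exact h4 (by rw [Sym2.map_mk])
      have h6 := hall w (Finset.mem_erase.2 ⟨hwb, Finset.mem_erase.2 ⟨hadj.ne', Finset.mem_univ _⟩⟩)
      unfold KCount4_S at h6
      rw [if_pos hadj, Finset.mem_filter] at h6
      exact h5 (by rw [Sym2.map_mk]; exact h6.2)
    · intro w _
      unfold KCount4_S
      split_ifs with hadj
      · refine Finset.mem_filter.2 ⟨Finset.mem_erase.2 ⟨fun h' => hadj.ne' (f.injective h'),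
          Finset.mem_univ _⟩, h2 _ (mem_img.2 hadj) (Sym2.mem_mk_left _ _)⟩
      · exact Finset.mem_univ _
  · rw [ind_neg h, ← sub_mul]
    refine mul_nonneg (sub_nonneg.2 (ind_mono fun h' w hw => KCount4_S_mono a w _ hN (h' w hw)))
      (KCount4_wt_nonneg _ _ _)

lemma KCount4_prod {n : ℕ} (π : Fin n → Fin r) {ξ κ p : ℝ} (hp : 0 ≤ p) (hB : Bal π ξ)
    (hξ : 0 ≤ 1 / (r : ℝ) - ξ) (hκ : 0 ≤ 1 - 2 * κ)
    (hd : ∀ d ≤ Fintype.card W,
      (1 / (r : ℝ) + ξ) ^ d - (1 / (3 * (r : ℝ))) ^ d ≤ (1 - 2 * κ) * (1 / (r : ℝ) - ξ) ^ d)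
    {u : Fin n} {N N' : Finset (Sym2 (Fin n))} (hT : Typ π ξ (p * n) N N' u) {a b : W}
    {χ : W → Fin r} (ha : χ a = π u) (hw : KCount4_wt H a b χ ≠ 0) :
    ∏ w ∈ (univ.erase a).erase b, ((KCount4_S H a u N w ∩ part π (χ w)).card : ℝ) -
      ∏ w ∈ (univ.erase a).erase b, ((KCount4_S H a u N' w ∩ part π (χ w)).card : ℝ) ≤
      (1 - 2 * κ) * p ^ (((univ.erase a).erase b).filter fun w => H.Adj a w).card *
        ∏ w ∈ (univ.erase a).erase b, (((univ : Finset (Fin n)) ∩ part π (χ w)).card : ℝ) := by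
  simp only [KCount4_card_S, Finset.univ_inter]
  rw [Finset.prod_ite, Finset.prod_ite,
    ← Finset.prod_filter_mul_prod_filter_not ((univ.erase a).erase b) (fun w => H.Adj a w)]
  obtain ⟨Nb, hNb⟩ : ∃ Nb, Nb = ((univ.erase a).erase b).filter fun w => H.Adj a w := ⟨_, rfl⟩
  rw [← hNb]
  obtain ⟨P, hP⟩ : ∃ P, P = ∏ w ∈ ((univ.erase a).erase b).filter (fun w => ¬ H.Adj a w),
    ((part π (χ w)).card : ℝ) := ⟨_, rfl⟩
  rw [← hP]
  have hP0 : 0 ≤ P := by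
    rw [hP]; exact Finset.prod_nonneg fun _ _ => Nat.cast_nonneg _
  have hn : (0 : ℝ) ≤ n := Nat.cast_nonneg _
  have h1 : ∏ w ∈ Nb, dto N u (part π (χ w)) ≤ ((1 / (r : ℝ) + ξ) * (p * n)) ^ Nb.card := by
    rw [← Finset.prod_const]
    exact Finset.prod_le_prod (fun _ _ => KCount4_dto_nonneg _ _ _) fun w _ => hT.1 _
  have h2 : (1 / (3 * (r : ℝ)) * (p * n)) ^ Nb.card ≤ ∏ w ∈ Nb, dto N' u (part π (χ w)) := by
    rw [← Finset.prod_const]
    refine Finset.prod_le_prod (fun _ _ => by positivity) fun w hw' => hT.2 _ ?_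
    rw [hNb, Finset.mem_filter, Finset.mem_erase] at hw'
    rw [← ha]
    exact KCount4_wt_ne hw hw'.2 hw'.1.1
  have h3 : ((1 / (r : ℝ) - ξ) * n) ^ Nb.card ≤ ∏ w ∈ Nb, ((part π (χ w)).card : ℝ) := by
    rw [← Finset.prod_const]
    refine Finset.prod_le_prod (fun _ _ => mul_nonneg hξ hn) fun w _ => ?_
    have := (abs_le.1 (hB (χ w))).1
    rw [Fintype.card_fin] at this
    have e : (1 / (r : ℝ) - ξ) * n = n / r - ξ * n := by ring
    rw [e]
    linarith only [this]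
  have h4 := hd Nb.card (Finset.card_le_univ _)
  have h5 : (0 : ℝ) ≤ (p * n) ^ Nb.card := by positivity
  have h6 : ∏ w ∈ Nb, dto N u (part π (χ w)) - ∏ w ∈ Nb, dto N' u (part π (χ w)) ≤
      (1 - 2 * κ) * p ^ Nb.card * ∏ w ∈ Nb, ((part π (χ w)).card : ℝ) := by
    calc _ ≤ ((1 / (r : ℝ) + ξ) * (p * n)) ^ Nb.card - (1 / (3 * (r : ℝ)) * (p * n)) ^ Nb.card := by
          linarith only [h1, h2]
      _ = ((1 / (r : ℝ) + ξ) ^ Nb.card - (1 / (3 * (r : ℝ))) ^ Nb.card) * (p * n) ^ Nb.card := by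
          rw [mul_pow, mul_pow (1 / (3 * (r : ℝ)))]; ring
      _ ≤ ((1 - 2 * κ) * (1 / (r : ℝ) - ξ) ^ Nb.card) * (p * n) ^ Nb.card :=
          mul_le_mul_of_nonneg_right h4 h5
      _ = (1 - 2 * κ) * p ^ Nb.card * ((1 / (r : ℝ) - ξ) * n) ^ Nb.card := by
          rw [mul_pow, mul_pow]; ring
      _ ≤ _ := mul_le_mul_of_nonneg_left h3 (mul_nonneg hκ (pow_nonneg hp _))
  have h7 := mul_le_mul_of_nonneg_right h6 hP0
  calc _ = (∏ w ∈ Nb, dto N u (part π (χ w)) - ∏ w ∈ Nb, dto N' u (part π (χ w))) * P := by ring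
    _ ≤ _ := h7
    _ = _ := by ring

lemma KCount4_root {n : ℕ} (π : Fin n → Fin r) {ξ κ p : ℝ} (hp : 0 ≤ p) (hB : Bal π ξ)
    (hξ : 0 ≤ 1 / (r : ℝ) - ξ) (hκ : 0 ≤ 1 - 2 * κ)
    (hd : ∀ d ≤ Fintype.card W,
      (1 / (r : ℝ) + ξ) ^ d - (1 / (3 * (r : ℝ))) ^ d ≤ (1 - 2 * κ) * (1 / (r : ℝ) - ξ) ^ d)
    {u v : Fin n} (huv : u ≠ v) {N N' : Finset (Sym2 (Fin n))} (hN : N' ⊆ N)
    (hT : Typ π ξ (p * n) N N' u) {a b : W} (hab : H.Adj a b) :
    ∑ f : W ↪ Fin n, ind (f a = u ∧ f b = v) *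
        (ind (BadT (copies H (Fin n)) (Ins π) u N N' s(u, v) (img H f)) *
          p ^ (outS u (img H f)).card) ≤
      (1 - 2 * κ) * p ^ (H.edgeFinset.card - 1) *
        (∑ f : W ↪ Fin n, ind (f a = u ∧ f b = v) * ind (OneIn (Ins π) s(u, v) (img H f)) +
          (Fintype.card W : ℝ) ^ 2 * (n : ℝ) ^ (Fintype.card W - 3)) := by
  obtain ⟨m, hm⟩ : ∃ m, m = (H.edgeFinset.filter fun g => a ∉ g).card := ⟨_, rfl⟩
  obtain ⟨d, hdd⟩ : ∃ d, d = (((univ.erase a).erase b).filter fun w => H.Adj a w).card := ⟨_, rfl⟩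
  have hmd : m + d = H.edgeFinset.card - 1 := by rw [hm, hdd]; exact KCount4_deg hab
  have hpm : 0 ≤ p ^ m := pow_nonneg hp _
  obtain ⟨G, hG⟩ : ∃ G : (W → Fin n) → ℝ, G = fun f => ind (f a = u ∧ f b = v) *
      (ind (∀ w ∈ (univ.erase a).erase b, f w ∈ KCount4_S H a u N w) * KCount4_wt H a b (π ∘ f)) -
      ind (f a = u ∧ f b = v) *
      (ind (∀ w ∈ (univ.erase a).erase b, f w ∈ KCount4_S H a u N' w) *
        KCount4_wt H a b (π ∘ f)) := ⟨_, rfl⟩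
  have G0 : ∀ f, 0 ≤ G f := fun f => by
    rw [hG]
    beta_reduce
    rw [← mul_sub, ← sub_mul]
    exact mul_nonneg (ind_nonneg _) (mul_nonneg (sub_nonneg.2
      (ind_mono fun h' w hw => KCount4_S_mono a w _ hN (h' w hw))) (KCount4_wt_nonneg _ _ _))
  have s1 : ∑ f : W ↪ Fin n, ind (f a = u ∧ f b = v) *
        (ind (BadT (copies H (Fin n)) (Ins π) u N N' s(u, v) (img H f)) *
          p ^ (outS u (img H f)).card) ≤ p ^ m * ∑ f : W ↪ Fin n, G f := by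
    rw [Finset.mul_sum]
    refine Finset.sum_le_sum fun f _ => ?_
    by_cases h : f a = u ∧ f b = v
    · obtain ⟨rfl, rfl⟩ := id h
      rw [hG]
      beta_reduce
      rw [ind_pos h, one_mul, one_mul, one_mul, KCount4_out, ← hm, mul_comm]
      exact mul_le_mul_of_nonneg_left (KCount4_point π f a b N N' hN) hpm
    · rw [ind_neg h, zero_mul]
      exact mul_nonneg hpm (G0 f)
  have s2 := sum_emb_le G G0
  have s3 : ∑ f : W → Fin n, G f ≤ (1 - 2 * κ) * p ^ d * ∑ f : W → Fin n, ind (f a = u ∧ f b = v) *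
      (ind (∀ w ∈ (univ.erase a).erase b, f w ∈ (univ : Finset (Fin n))) *
        KCount4_wt H a b (π ∘ f)) := by
    rw [hG, Finset.sum_sub_distrib, sum_maps_rooted π hab.ne, sum_maps_rooted π hab.ne,
      sum_maps_rooted π hab.ne u v (fun _ => univ), ← Finset.sum_sub_distrib, Finset.mul_sum]
    refine Finset.sum_le_sum fun χ _ => ?_
    by_cases h : χ a = π u ∧ χ b = π v
    · rw [ind_pos h, one_mul, one_mul, one_mul, ← mul_sub]
      by_cases hw : KCount4_wt H a b χ = 0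
      · rw [hw]; simp
      · have := mul_le_mul_of_nonneg_left (KCount4_prod π hp hB hξ hκ hd hT h.1 hw)
          (KCount4_wt_nonneg (H := H) a b χ)
        rw [← hdd] at this
        refine this.trans (le_of_eq ?_)
        ring
    · rw [ind_neg h]; simp
  have s4 := sum_emb_ge_rooted (a := a) (b := b) huv
    (fun f : W → Fin n => ind (∀ w ∈ (univ.erase a).erase b, f w ∈ (univ : Finset (Fin n))) *
        KCount4_wt H a b (π ∘ f))
    (fun f => mul_le_one₀ (ind_le_one _) (KCount4_wt_nonneg _ _ _) (KCount4_wt_le _ _ _))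
  rw [Fintype.card_fin] at s4
  have s5 : ∑ f : W ↪ Fin n, ind (f a = u ∧ f b = v) *
      (ind (∀ w ∈ (univ.erase a).erase b, f w ∈ (univ : Finset (Fin n))) *
        KCount4_wt H a b (π ∘ f)) =
      ∑ f : W ↪ Fin n, ind (f a = u ∧ f b = v) * ind (OneIn (Ins π) s(u, v) (img H f)) := by
    refine Finset.sum_congr rfl fun f _ => ?_
    by_cases h : f a = u ∧ f b = v
    · obtain ⟨rfl, rfl⟩ := id h
      rw [ind_pos (fun w _ => Finset.mem_univ (f w)), one_mul, KCount4_wt_eq]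
    · rw [ind_neg h, zero_mul, zero_mul]
  rw [s5] at s4
  have h0 : 0 ≤ (1 - 2 * κ) * p ^ d := mul_nonneg hκ (pow_nonneg hp _)
  refine s1.trans ((mul_le_mul_of_nonneg_left
    (s2.trans (s3.trans (mul_le_mul_of_nonneg_left s4 h0))) hpm).trans (le_of_eq ?_))
  rw [← hmd, pow_add]
  ring

lemma KCount4_small (h : ℕ) {r : ℕ} (hr : 0 < r) {σ : ℝ} (hσ : 0 < σ) : ∃ ξ : ℝ, 0 < ξ ∧ ξ ≤ σ ∧
    0 ≤ 1 / (r : ℝ) - ξ ∧ ∀ d ≤ h, (1 / (r : ℝ) + ξ) ^ d - (1 / (3 * (r : ℝ))) ^ d ≤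
      (1 - 2 * ((1 / 3) ^ h / 4)) * (1 / (r : ℝ) - ξ) ^ d := by
  have hr' : (0 : ℝ) < 1 / (r : ℝ) := by positivity
  have e1 : ∀ᶠ ξ in 𝓝 (0 : ℝ), ∀ d ∈ Finset.range (h + 1),
      (1 / (r : ℝ) + ξ) ^ d - (1 / (3 * (r : ℝ))) ^ d <
        (1 - 2 * ((1 / 3) ^ h / 4)) * (1 / (r : ℝ) - ξ) ^ d := by
    rw [Filter.eventually_all_finset]
    intro d hd
    have hd' : d ≤ h := Nat.lt_succ_iff.1 (Finset.mem_range.1 hd)
    refine ContinuousAt.eventually_lt (by fun_prop) (by fun_prop) ?_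
    have e : 1 / (3 * (r : ℝ)) = 1 / 3 * (1 / (r : ℝ)) := by ring
    have h1 : ((1 : ℝ) / 3) ^ h ≤ (1 / 3) ^ d := pow_le_pow_of_le_one (by norm_num) (by norm_num) hd'
    have h2 : (0 : ℝ) < (1 / 3) ^ h := by positivity
    have h3 : (0 : ℝ) < (1 / (r : ℝ)) ^ d := pow_pos hr' _
    rw [e, mul_pow, add_zero, sub_zero]
    nlinarith only [h1, h3, h2]
  have e2 : ∀ᶠ ξ in 𝓝 (0 : ℝ), ξ < σ := eventually_lt_nhds hσ
  have e3 : ∀ᶠ ξ in 𝓝 (0 : ℝ), ξ < 1 / (r : ℝ) := eventually_lt_nhds hr'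
  obtain ⟨ξ, ⟨h1, h2, h3⟩, h4⟩ := (((e1.and (e2.and e3)).filter_mono
    (nhdsWithin_le_nhds (s := Set.Ioi (0 : ℝ)))).and self_mem_nhdsWithin).exists
  exact ⟨ξ, h4, h2.le, sub_nonneg.2 h3.le,
    fun d hd => (h1 d (Finset.mem_range.2 (Nat.lt_succ_iff.2 hd))).le⟩

end Aux

theorem count_bad (B : HBal H) (C : ECrit H r) : ∃ κ ξ : ℝ, 0 < κ ∧ κ ≤ 1 ∧ 0 < ξ ∧
    ∀ᶠ n : ℕ in atTop, ∀ π : Fin n → Fin r, Bal π ξ → ∀ p : ℝ, 0 ≤ p →
      ∀ (u : Fin n) (e : Sym2 (Fin n)) (N N' : Finset (Sym2 (Fin n))), u ∈ e → Ins π e → N' ⊆ N →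
      Typ π ξ (p * n) N N' u →
      ∑ T ∈ copies H (Fin n), ind (BadT (copies H (Fin n)) (Ins π) u N N' e T) *
        p ^ (outS u T).card ≤
        (1 - κ) * lam (copies H (Fin n)) (Ins π) (p ^ (H.edgeFinset.card - 1)) e := by
  obtain ⟨c, σ, hc, hσ, hbig⟩ := count_big B C
  have hr : 0 < r := by
    have := C.two_le (by have := B.h3; have := B.hk; omega)
    omega
  obtain ⟨ξ, hξ0, hξσ, hξr, hd⟩ := KCount4_small (Fintype.card W) hr hσ
  obtain ⟨κ, hκ⟩ : ∃ κ : ℝ, κ = (1 / 3) ^ Fintype.card W / 4 := ⟨_, rfl⟩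
  rw [← hκ] at hd
  have hκ0 : 0 < κ := by rw [hκ]; positivity
  have hκ1 : κ ≤ 1 / 4 := by
    have : ((1 : ℝ) / 3) ^ Fintype.card W ≤ 1 := pow_le_one₀ (by norm_num) (by norm_num)
    rw [hκ]; linarith only [this]
  refine ⟨κ, ξ, hκ0, by linarith, hξ0, ?_⟩
  have hlarge : ∀ᶠ n : ℕ in atTop, (Fintype.card W : ℝ) ^ 4 / (κ * c) ≤ n :=
    tendsto_natCast_atTop_atTop.eventually_ge_atTop _
  filter_upwards [hbig, hlarge] with n hn hl π hB p hp u e N N' hue hI hN hT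
  obtain ⟨v, rfl⟩ := Sym2.mem_iff_exists.1 hue
  have huv : u ≠ v := fun h => hI.1 (by rw [h]; simp)
  have hM := hn π (hB.mono hξσ) _ hI
  obtain ⟨M, hMd⟩ : ∃ M, M = ∑ T ∈ copies H (Fin n),
    ind (s(u, v) ∈ T ∧ OneIn (Ins π) s(u, v) T) := ⟨_, rfl⟩
  unfold lam
  rw [← hMd] at hM ⊢
  obtain ⟨q, hq⟩ : ∃ q, q = p ^ (H.edgeFinset.card - 1) := ⟨_, rfl⟩
  have hq0 : 0 ≤ q := by rw [hq]; positivity
  obtain ⟨R, hR⟩ : ∃ R : ℝ, R = (Fintype.card W : ℝ) ^ 2 * (n : ℝ) ^ (Fintype.card W - 3) := ⟨_, rfl⟩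
  have hR0 : 0 ≤ R := by rw [hR]; (clear * -; positivity)
  have ha := one_le_aut (H := H)
  have e1 : aut H * M = ∑ a, ∑ b, ind (H.Adj a b) * ∑ f : W ↪ Fin n, ind (f a = u ∧ f b = v) *
      ind (OneIn (Ins π) s(u, v) (img H f)) := by
    rw [hMd, B.sum_copies, ← sum_rooted huv]
    exact Finset.sum_congr rfl fun f _ => ind_and _ _
  have e2 : aut H * ∑ T ∈ copies H (Fin n), ind (BadT (copies H (Fin n)) (Ins π) u N N' s(u, v) T) *
        p ^ (outS u T).card = ∑ a, ∑ b, ind (H.Adj a b) * ∑ f : W ↪ Fin n,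
          ind (f a = u ∧ f b = v) * (ind (BadT (copies H (Fin n)) (Ins π) u N N' s(u, v) (img H f)) *
            p ^ (outS u (img H f)).card) := by
    rw [B.sum_copies, ← sum_rooted huv]
    refine Finset.sum_congr rfl fun f _ => ?_
    by_cases h : s(u, v) ∈ img H f
    · rw [ind_pos h, one_mul]
    · rw [ind_neg h, zero_mul, ind_neg fun h' => h h'.2.1, zero_mul]
  have hk2 : 0 ≤ 1 - 2 * κ := by linarith only [hκ0, hκ1]
  have e3 : aut H * ∑ T ∈ copies H (Fin n), ind (BadT (copies H (Fin n)) (Ins π) u N N' s(u, v) T) *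
        p ^ (outS u T).card ≤ (1 - 2 * κ) * q * (aut H * M + (Fintype.card W : ℝ) ^ 2 * R) := by
    have e4 : (Fintype.card W : ℝ) ^ 2 * R = ∑ _a : W, ∑ _b : W, R := by
      simp only [Finset.sum_const, Finset.card_univ, nsmul_eq_mul]; ring
    rw [e2, e1, e4, ← Finset.sum_add_distrib, Finset.mul_sum]
    refine Finset.sum_le_sum fun a _ => ?_
    rw [← Finset.sum_add_distrib, Finset.mul_sum]
    refine Finset.sum_le_sum fun b _ => ?_
    by_cases hab : H.Adj a b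
    · rw [ind_pos hab, one_mul, one_mul, hq, hR]
      exact KCount4_root π hp hB hξr hk2 hd huv hN hT hab
    · rw [ind_neg hab, zero_mul, zero_mul, zero_add]
      positivity
  have e5 : (Fintype.card W : ℝ) ^ 2 * R ≤ κ * M := by
    have h1 : (n : ℝ) ^ (Fintype.card W - 2) = (n : ℝ) ^ (Fintype.card W - 3) * n := by
      rw [← pow_succ]; congr 1; have := B.h3; omega
    have h2 : (Fintype.card W : ℝ) ^ 4 ≤ n * (κ * c) := (div_le_iff₀ (by positivity)).1 hl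
    have h3 : (0 : ℝ) ≤ (n : ℝ) ^ (Fintype.card W - 3) := by positivity
    rw [h1] at hM
    calc _ = (Fintype.card W : ℝ) ^ 4 * (n : ℝ) ^ (Fintype.card W - 3) := by rw [hR]; ring
      _ ≤ n * (κ * c) * (n : ℝ) ^ (Fintype.card W - 3) := mul_le_mul_of_nonneg_right h2 h3
      _ = κ * (c * ((n : ℝ) ^ (Fintype.card W - 3) * n)) := by ring
      _ ≤ κ * M := mul_le_mul_of_nonneg_left hM hκ0.le
  have hM0 : 0 ≤ M := by rw [hMd]; exact Finset.sum_nonneg fun _ _ => ind_nonneg _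
  rw [← hq]
  refine le_of_mul_le_mul_left (e3.trans ?_) (lt_of_lt_of_le one_pos ha)
  have e6 : κ * M ≤ κ * (aut H * M) :=
    mul_le_mul_of_nonneg_left (le_mul_of_one_le_left hM0 ha) hκ0.le
  have e7 : 0 ≤ q * (aut H * M) := mul_nonneg hq0 (mul_nonneg (by linarith only [hκ0, hκ1, ha]) hM0)
  calc (1 - 2 * κ) * q * (aut H * M + (Fintype.card W : ℝ) ^ 2 * R)
      ≤ (1 - 2 * κ) * q * (aut H * M + κ * (aut H * M)) :=
        mul_le_mul_of_nonneg_left (by linarith only [e5, e6]) (mul_nonneg hk2 hq0)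
    _ = ((1 - 2 * κ) * (1 + κ)) * (q * (aut H * M)) := by ring
    _ ≤ (1 - κ) * (q * (aut H * M)) := mul_le_mul_of_nonneg_right (by nlinarith only [hκ0]) e7
    _ = _ := by ring

end Pool.Agent.Work.MP_d4a230_co
end

-- merged part: Pool.Agent.Work.MP_d4a230_co.KJZ0
section
/-!
The structure of a maximum cut.
-/

namespace Pool.Agent.Work.MP_d4a230_co

open Finset

variable {n r : ℕ} {ω ω' : Finset (Sym2 (Fin n))}

lemma KJZ0_dto (ω : Finset (Sym2 (Fin n))) (u : Fin n) (S : Finset (Fin n)) :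
    dto ω u S = ∑ a ∈ univ.erase u, ind (a ∈ S) * ind (s(u, a) ∈ ω) := by
  unfold dto
  rw [← Finset.sum_subset (Finset.erase_subset_erase u (Finset.subset_univ S))]
  · exact Finset.sum_congr rfl fun a ha => by
      rw [ind_pos (Finset.mem_of_mem_erase ha), one_mul]
  · intro a ha ha'
    rw [ind_neg fun h => ha' (Finset.mem_erase.2 ⟨(Finset.mem_erase.1 ha).1, h⟩), zero_mul]

lemma KJZ0_mem {π : Fin n → Fin r} {a : Fin n} {j : Fin r} : a ∈ part π j ↔ π a = j := by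
  simp [part]

lemma KJZ0_ins {π : Fin n → Fin r} {u a : Fin n} (h : a ≠ u) :
    Ins π s(u, a) ↔ a ∈ part π (π u) := by
  rw [KJZ0_mem]
  simp [Ins, h.symm, eq_comm]

lemma KJZ0_mono (hω : ω' ⊆ ω) (u : Fin n) (S : Finset (Fin n)) : dto ω' u S ≤ dto ω u S :=
  Finset.sum_le_sum fun _ _ => ind_mono fun h => hω h

lemma KJZ0_compl (ω : Finset (Sym2 (Fin n))) (u : Fin n) (S : Finset (Fin n)) :
    dgE ω u = dto ω u S + dto ω u Sᶜ := by
  rw [KJZ0_dto, KJZ0_dto, ← Finset.sum_add_distrib]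
  refine Finset.sum_congr rfl fun a _ => ?_
  rw [ind_congr Finset.mem_compl, ind_not]
  ring

lemma KJZ0_split (ω : Finset (Sym2 (Fin n))) (π : Fin n → Fin r) (u : Fin n) :
    inE π ω = ∑ g ∈ ω, ind (u ∉ g ∧ Ins π g) + dto ω u (part π (π u)) := by
  have h1 := star_sum (T := ω.filter fun e => ¬ e.IsDiag) (fun e he => (Finset.mem_filter.1 he).2)
    (fun g => ind (Ins π g)) u
  have h2 : dto ω u (part π (π u)) = ∑ g ∈ ω, ind (u ∈ g) * ind (Ins π g) := by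
    rw [← Finset.sum_subset (Finset.filter_subset (fun e : Sym2 (Fin n) => ¬ e.IsDiag) ω), ← h1,
      KJZ0_dto]
    · refine Finset.sum_congr rfl fun a ha => ?_
      have hne := (Finset.mem_erase.1 ha).1
      rw [ind_congr (KJZ0_ins hne), mul_comm]
      congr 1
      exact ind_congr (by simp [hne.symm])
    · intro g hg hg'
      rw [ind_neg (q := Ins π g) fun h => hg' (Finset.mem_filter.2 ⟨hg, h.1⟩), mul_zero]
  rw [h2, ← Finset.sum_add_distrib]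
  refine Finset.sum_congr rfl fun g _ => ?_
  rw [ind_and, ind_not]
  ring

lemma KJZ0_fiber (π : Fin n → Fin r) (f : Fin n → ℝ) :
    ∑ i, ∑ u ∈ part π i, f u = ∑ u, f u :=
  Finset.sum_fiberwise univ π f

lemma exists_maxcut (ω : Finset (Sym2 (Fin n))) (π0 : Fin n → Fin r) :
    ∃ π : Fin n → Fin r, inE π ω ≤ inE π0 ω ∧
      ∀ u j, dto ω u (part π (π u)) ≤ dto ω u (part π j) := by
  obtain ⟨π, -, hπ⟩ := Finset.exists_min_image univ (fun π : Fin n → Fin r => inE π ω)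
    ⟨π0, Finset.mem_univ _⟩
  refine ⟨π, hπ π0 (Finset.mem_univ _), fun u j => ?_⟩
  have h := hπ (Function.update π u j) (Finset.mem_univ _)
  rw [KJZ0_split ω π u, KJZ0_split ω (Function.update π u j) u] at h
  have h1 : ∑ g ∈ ω, ind (u ∉ g ∧ Ins (Function.update π u j) g) =
      ∑ g ∈ ω, ind (u ∉ g ∧ Ins π g) := by
    refine Finset.sum_congr rfl fun g _ => ind_congr (and_congr_right fun hu => ?_)
    have : g.map (Function.update π u j) = g.map π :=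
      Sym2.map_congr fun x hx => Function.update_of_ne (fun h : x = u => hu (h ▸ hx)) _ _
    unfold Ins
    rw [this]
  have h2 : dto ω u (part (Function.update π u j) (Function.update π u j u)) =
      dto ω u (part π j) := by
    rw [KJZ0_dto, KJZ0_dto]
    refine Finset.sum_congr rfl fun a ha => ?_
    congr 1
    refine ind_congr ?_
    rw [KJZ0_mem, KJZ0_mem, Function.update_self,
      Function.update_of_ne (Finset.mem_erase.1 ha).1]
  rw [h1, h2] at h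
  linarith

lemma sum_dto (ω : Finset (Sym2 (Fin n))) (π : Fin n → Fin r) (u : Fin n) :
    ∑ j, dto ω u (part π j) = dgE ω u := by
  simp only [KJZ0_dto]
  rw [Finset.sum_comm]
  refine Finset.sum_congr rfl fun a _ => ?_
  rw [Finset.sum_eq_single (π a), ind_pos (KJZ0_mem.2 rfl), one_mul]
  · intro j _ hj
    rw [ind_neg fun h => hj (KJZ0_mem.1 h).symm, zero_mul]
  · intro h
    exact absurd (Finset.mem_univ _) h

lemma sum_dto_own (ω : Finset (Sym2 (Fin n))) (π : Fin n → Fin r) :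
    ∑ u, dto ω u (part π (π u)) = 2 * inE π ω := by
  have h := handshake (V := Fin n) fun e => ind (e ∈ ω ∧ Ins π e)
  have h1 : ∑ e ∈ univ.filter (fun e : Sym2 (Fin n) => ¬ e.IsDiag), ind (e ∈ ω ∧ Ins π e) =
      inE π ω := by
    classical
    unfold inE
    rw [sum_ind, sum_ind]
    congr 2
    ext e
    simp only [Finset.mem_filter, Finset.mem_univ, true_and]
    exact ⟨fun h => h.2, fun h => ⟨h.2.1, h⟩⟩
  rw [← h1, ← h]
  refine Finset.sum_congr rfl fun u _ => ?_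
  rw [KJZ0_dto]
  refine Finset.sum_congr rfl fun a ha => ?_
  rw [ind_and, ind_congr (KJZ0_ins (Finset.mem_erase.1 ha).1), mul_comm]

theorem cut_struct (hr : 0 < r) {p δ ε σ ξ ζ : ℝ} (hp : 0 < p) (hω : ω' ⊆ ω)
    (heml : ∀ X Y : Finset (Fin n),
      ∑ v ∈ X, dto ω v Y ≤ p * (X.card * Y.card) + ζ * (p * (n : ℝ) ^ 2))
    (hdeg : ∀ v, (1 - 1 / (r : ℝ) - δ) * (p * n) ≤ dgE ω' v) {π0 : Fin n → Fin r}
    (h0 : inE π0 ω' ≤ ε * (p * (n : ℝ) ^ 2)) (hσ0 : 0 ≤ σ) (hξ : 0 < ξ)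
    (h1 : δ + 2 * ε + r * ζ ≤ σ ^ 2) (h2 : σ ≤ ξ / 2) (h3 : δ + r * ξ ≤ 1 / (3 * (r : ℝ))) :
    ∃ π : Fin n → Fin r, inE π ω' ≤ ε * (p * (n : ℝ) ^ 2) ∧ Bal π σ ∧
      ∑ u, ind (¬ Typ π ξ (p * n) ω ω' u) ≤ 2 * r * ζ / ξ * n := by
  obtain ⟨π, hπ0, hπ⟩ := exists_maxcut ω' π0
  have hin := hπ0.trans h0
  have hr0 : (0 : ℝ) < r := by exact_mod_cast hr
  have hn0 : (0 : ℝ) ≤ n := Nat.cast_nonneg n
  have hsum : ∑ i, ((part π i).card : ℝ) = n := by
    have := KJZ0_fiber π fun _ => 1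
    simpa using this
  have hbal : Bal π σ := by
    have a1 : (1 - 1 / (r : ℝ) - δ) * (p * n) * n ≤ ∑ u, dgE ω' u := by
      have := Finset.card_nsmul_le_sum univ _ _ fun v _ => hdeg v
      rw [Finset.card_univ, Fintype.card_fin, nsmul_eq_mul] at this
      linarith only [this]
    have a2 : ∑ u, dgE ω' u = 2 * inE π ω' + ∑ i, ∑ u ∈ part π i, dto ω' u (part π i)ᶜ := by
      have : ∑ i, ∑ u ∈ part π i, dto ω' u (part π i)ᶜ = ∑ u, dto ω' u (part π (π u))ᶜ := by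
        rw [← KJZ0_fiber π]
        exact Finset.sum_congr rfl fun i _ => Finset.sum_congr rfl fun u hu => by
          rw [KJZ0_mem.1 hu]
      rw [this, ← sum_dto_own, ← Finset.sum_add_distrib]
      exact Finset.sum_congr rfl fun u _ => KJZ0_compl _ _ _
    have a3 : ∑ i, ∑ u ∈ part π i, dto ω' u (part π i)ᶜ ≤
        ∑ i : Fin r, (p * (n * ((part π i).card : ℝ)) - p * ((part π i).card : ℝ) ^ 2 +
          ζ * (p * (n : ℝ) ^ 2)) := by
      refine Finset.sum_le_sum fun i _ => ?_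
      refine (Finset.sum_le_sum fun u _ => KJZ0_mono hω u _).trans ((heml _ _).trans (le_of_eq ?_))
      rw [Finset.card_compl, Nat.cast_sub (Finset.card_le_univ _), Fintype.card_fin]
      ring
    rw [Finset.sum_add_distrib, Finset.sum_sub_distrib, ← Finset.mul_sum, ← Finset.mul_sum,
      ← Finset.mul_sum, hsum, Finset.sum_const, Finset.card_univ, Fintype.card_fin,
      nsmul_eq_mul] at a3
    have a4 : ∑ i, (((part π i).card : ℝ) - n / r) ^ 2 =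
        ∑ i, ((part π i).card : ℝ) ^ 2 - 1 / r * n ^ 2 := by
      simp only [sub_sq, Finset.sum_add_distrib, Finset.sum_sub_distrib, ← Finset.sum_mul,
        ← Finset.mul_sum, hsum, Finset.sum_const, Finset.card_univ, Fintype.card_fin,
        nsmul_eq_mul]
      field_simp
      ring
    have a5 : p * ∑ i, (((part π i).card : ℝ) - n / r) ^ 2 ≤ p * (σ * n) ^ 2 := by
      have b1 := mul_le_mul_of_nonneg_right h1 (by positivity : 0 ≤ p * (n : ℝ) ^ 2)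
      rw [a4]
      nlinarith only [h0, hπ0, a1, a2, a3, b1]
    have a6 := le_of_mul_le_mul_left a5 hp
    intro i
    rw [Fintype.card_fin]
    refine abs_le_of_sq_le_sq' ?_ (by positivity) |> abs_le.2
    exact (Finset.single_le_sum (f := fun i => (((part π i).card : ℝ) - n / r) ^ 2)
      (fun _ _ => sq_nonneg _) (Finset.mem_univ i)).trans a6
  refine ⟨π, hin, hbal, ?_⟩
  rcases Nat.eq_zero_or_pos n with rfl | hn
  · simp
  have hn1 : (0 : ℝ) < n := by exact_mod_cast hn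
  have hX : ∀ j, ∑ u, ind ((1 / r + ξ) * (p * n) < dto ω u (part π j)) ≤ 2 * ζ / ξ * n := by
    intro j
    rw [sum_ind]
    set X := univ.filter fun u => (1 / r + ξ) * (p * n) < dto ω u (part π j) with hX
    have b1 := Finset.card_nsmul_le_sum X (fun u => dto ω u (part π j)) ((1 / r + ξ) * (p * n))
      fun u hu => (Finset.mem_filter.1 hu).2.le
    rw [nsmul_eq_mul] at b1
    have b2 := heml X (part π j)
    have b3 := (abs_le.1 (hbal j)).2
    rw [Fintype.card_fin] at b3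
    have b4 : ((part π j).card : ℝ) ≤ (1 / r + ξ / 2) * n := by
      have := mul_le_mul_of_nonneg_right h2 hn0
      have e : (n : ℝ) / r = 1 / r * n := by ring
      linarith only [b3, this, e]
    have b5 := mul_le_mul_of_nonneg_left b4 (by positivity : 0 ≤ p * (X.card : ℝ))
    have b6 : p * n * (X.card * ξ) ≤ p * n * (2 * ζ * n) := by nlinarith only [b1, b2, b5]
    have b7 := le_of_mul_le_mul_left b6 (by positivity)
    rw [div_mul_eq_mul_div, le_div_iff₀ hξ]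
    exact b7
  have hT : ∀ u, ind (¬ Typ π ξ (p * n) ω ω' u) ≤
      ∑ j, ind ((1 / r + ξ) * (p * n) < dto ω u (part π j)) := by
    intro u
    refine le_trans (ind_mono fun h => ?_) (ind_exists_le univ _)
    by_contra hc
    push Not at hc
    have hc' : ∀ j, dto ω u (part π j) ≤ (1 / r + ξ) * (p * n) := fun j => hc j (Finset.mem_univ _)
    refine h ⟨hc', fun j hj => ?_⟩
    have c1 := sum_dto ω' π u
    rw [← Finset.add_sum_erase _ _ (Finset.mem_univ (π u)),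
      ← Finset.add_sum_erase _ _ (Finset.mem_erase.2 ⟨hj, Finset.mem_univ j⟩)] at c1
    have c2 := Finset.sum_le_card_nsmul ((univ.erase (π u)).erase j)
      (fun i => dto ω' u (part π i)) _ fun i _ => (KJZ0_mono hω u _).trans (hc' i)
    have c3 : (((univ.erase (π u)).erase j).card : ℝ) = r - 2 := by
      have d1 := Finset.card_erase_add_one (Finset.mem_erase.2 ⟨hj, Finset.mem_univ j⟩)
      have d2 := Finset.card_erase_add_one (Finset.mem_univ (π u))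
      rw [Finset.card_univ, Fintype.card_fin] at d2
      have d3 : ((univ.erase (π u)).erase j).card + 2 = r := by omega
      have d4 : (((univ.erase (π u)).erase j).card : ℝ) + 2 = r := by exact_mod_cast d3
      linarith only [d4]
    rw [nsmul_eq_mul, c3] at c2
    have c4 := hπ u j
    have c5 := hdeg u
    have c6 : (0 : ℝ) < p * n := by positivity
    have c7 := mul_le_mul_of_nonneg_right h3 c6.le
    have c8 : (r : ℝ) * (1 / r) = 1 := by field_simp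
    have c9 : 1 / (3 * (r : ℝ)) = 1 / r / 3 := by field_simp
    have c10 : 0 ≤ ξ * (p * n) := by positivity
    rw [c9] at c7 ⊢
    have c11 : ((r : ℝ) - 2) * ((1 / r + ξ) * (p * n)) =
        (1 - 2 * (1 / r) + r * ξ - 2 * ξ) * (p * n) := by
      linear_combination (p * n) * c8
    rw [c11] at c2
    nlinarith only [c1, c2, c4, c5, c7, c10]
  refine (Finset.sum_le_sum fun u _ => hT u).trans ?_
  rw [Finset.sum_comm]
  refine (Finset.sum_le_card_nsmul _ _ _ fun j _ => hX j).trans (le_of_eq ?_)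
  rw [Finset.card_univ, Fintype.card_fin, nsmul_eq_mul]
  ring

end Pool.Agent.Work.MP_d4a230_co
end

-- merged part: Pool.Agent.Work.MP_d4a230_co.KBL
section
/-!
Copies at bad vertices: revealing the stars of a set of vertices.
-/

namespace Pool.Agent.Work.MP_d4a230_co

open Finset Filter Topology

/-- Sharp form of the tail bound for families of disjoint present sets. -/
lemma sharp_tail {ι κ : Type} [Fintype ι] [DecidableEq ι] [DecidableEq κ] {p : ℝ} (h0 : 0 ≤ p)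
    (h1 : p ≤ 1) (𝓐 : Finset κ) (Q : κ → Finset ι) {z j w : ℝ} (hz : 0 ≤ z)
    (hw : ∑ T ∈ 𝓐, p ^ (Q T).card ≤ w) :
    Pr p (fun ω => ∃ M ⊆ 𝓐, PD Q M ∧ j ≤ M.card ∧ ∀ T ∈ M, Q T ⊆ ω) ≤
      Real.exp (z * w - j * Real.log (1 + z)) := by
  classical
  have e1 : ∑ M ∈ 𝓐.powerset, ∏ T ∈ M, (z * p ^ (Q T).card) ≤ Real.exp (z * w) := by
    rw [← Finset.prod_one_add]
    refine (Finset.prod_le_prod (fun T _ => by positivity)
      (g := fun T => Real.exp (z * p ^ (Q T).card)) fun T _ => ?_).trans ?_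
    · linarith [Real.add_one_le_exp (z * p ^ (Q T).card)]
    · rw [← Real.exp_sum, ← Finset.mul_sum]
      exact Real.exp_le_exp.2 (mul_le_mul_of_nonneg_left hw hz)
  have hl : 0 ≤ Real.log (1 + z) := Real.log_nonneg (by linarith)
  have hf : ∀ ω : Finset ι, 0 ≤ ∑ M ∈ 𝓐.powerset.filter (PD Q),
      z ^ M.card * ind (M.biUnion Q ⊆ ω) := fun ω =>
    Finset.sum_nonneg fun M _ => mul_nonneg (by positivity) (ind_nonneg _)
  refine le_trans (Pr_mono h0 h1 ?_)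
    ((markov h0 h1 hf (Real.exp_pos (j * Real.log (1 + z)))).trans ?_)
  · rintro ω ⟨M, m1, m2, m3, m4⟩
    calc Real.exp (j * Real.log (1 + z)) ≤ Real.exp (M.card * Real.log (1 + z)) :=
          Real.exp_le_exp.2 (mul_le_mul_of_nonneg_right m3 hl)
      _ = ∑ M' ∈ M.powerset, z ^ M'.card := by
          rw [Real.exp_nat_mul, Real.exp_log (by linarith)]
          have := Finset.prod_one_add (f := fun _ : κ => z) M
          simpa only [Finset.prod_const] using this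
      _ = ∑ M' ∈ M.powerset, z ^ M'.card * ind (M'.biUnion Q ⊆ ω) :=
          Finset.sum_congr rfl fun M' hM' => by
            rw [ind_pos (Finset.biUnion_subset.2 fun T hT =>
              m4 T (Finset.mem_powerset.1 hM' hT)), mul_one]
      _ ≤ _ := Finset.sum_le_sum_of_subset_of_nonneg (fun M' hM' => by
            have h := Finset.mem_powerset.1 hM'
            exact Finset.mem_filter.2 ⟨Finset.mem_powerset.2 (h.trans m1),
              fun T hT T' hT' => m2 T (h hT) T' (h hT')⟩)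
          fun M' _ _ => mul_nonneg (by positivity) (ind_nonneg _)
  · rw [Real.exp_sub]
    refine div_le_div_of_nonneg_right (le_trans ?_ e1) (Real.exp_pos _).le
    rw [E_sum]
    refine le_trans (le_of_eq (Finset.sum_congr rfl fun M hM => ?_))
      (Finset.sum_le_sum_of_subset_of_nonneg (Finset.filter_subset (PD Q) _)
        fun M _ _ => Finset.prod_nonneg fun _ _ => by positivity)
    rw [E_const_mul]
    have := Pr_subset (p := p) (M.biUnion Q)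
    unfold Pr at this
    rw [this, Finset.card_biUnion (Finset.mem_filter.1 hM).2, Finset.prod_mul_distrib,
      Finset.prod_const, Finset.prod_pow_eq_pow_sum]

/-- Conditioning on the trace on a set of coordinates. -/
lemma Pr_le_of_trace {ι : Type} [Fintype ι] [DecidableEq ι] {p : ℝ} (h0 : 0 ≤ p) (h1 : p ≤ 1)
    (U : Finset ι) (A : Finset ι → Finset ι → Prop) {b : ℝ}
    (hA : ∀ ω0 ⊆ U, Pr p (fun ω => A ω0 (ω \ U)) ≤ b) :
    Pr p (fun ω => A (ω ∩ U) (ω \ U)) ≤ b := by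
  have key : ∀ (f : Finset ι → ℝ) (ω : Finset ι),
      ∑ ω0 ∈ U.powerset, ind (ω ∩ U = ω0) * f ω0 = f (ω ∩ U) := fun f ω => by
    rw [Finset.sum_eq_single_of_mem (ω ∩ U) (Finset.mem_powerset.2 Finset.inter_subset_right)
      fun ω0 _ h => by rw [ind_neg fun h' => h h'.symm, zero_mul], ind_pos rfl, one_mul]
  unfold Pr
  rw [E_congr fun ω => (key (fun ω0 => ind (A ω0 (ω \ U))) ω).symm, E_sum]
  have h2 : b = ∑ ω0 ∈ U.powerset, E p (fun ω => ind (ω ∩ U = ω0)) * b := by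
    rw [← Finset.sum_mul, ← E_sum, E_congr (g := fun _ => 1) fun ω => by
      simpa using key (fun _ => 1) ω, E_const, one_mul]
  rw [h2]
  refine Finset.sum_le_sum fun ω0 h => ?_
  have h3 := Pool.Agent.Work.MP_07f1b5_pr.Ex_indep (fun _ => p) U (fun ω => ind (ω ∩ U = ω0))
    (fun ω => ind (A ω0 (ω \ U))) (fun ω ω' h => by simp only [h]) fun ω ω' h => by simp only [h]
  unfold E
  rw [h3]
  exact mul_le_mul_of_nonneg_left (hA ω0 (Finset.mem_powerset.1 h))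
    (E_nonneg h0 h1 fun _ => ind_nonneg _)

/-- The property of `ω` bounding disjoint families of bad copies at the vertices of `X`. -/
def BL {n r : ℕ} (𝒞 : Finset (Finset (Sym2 (Fin n)))) (q κ ξ C D : ℝ)
    (ω : Finset (Sym2 (Fin n))) : Prop :=
  ∀ π : Fin n → Fin r, Bal π ξ → ∀ X : Finset (Fin n), ∀ J ⊆ ω, ∀ ω' ⊆ ω, (∀ e ∈ J, Ins π e) →
    (∀ u ∈ X, Typ π ξ D ω ω' u ∧ dgE ω u ≤ 2 * D) →
    ∀ M : Finset (Fin n × Finset (Sym2 (Fin n))), PD (fun x => outS x.1 x.2) M →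
    (∀ x ∈ M, x.1 ∈ X ∧ x.2 ⊆ ω ∧ (∀ v ∈ vs x.2, v ∈ X → v = x.1) ∧
      ∃ e ∈ J, x.1 ∈ e ∧ BadT 𝒞 (Ins π) x.1 ω ω' e x.2) →
    (M.card : ℝ) ≤ (1 - κ / 2) * ∑ u ∈ X, ∑ e ∈ J, ind (u ∈ e) * lam 𝒞 (Ins π) q e +
      C * (D * X.card + n)

section aux

variable {n r : ℕ} (𝒞 : Finset (Finset (Sym2 (Fin n)))) (π : Fin n → Fin r) (X : Finset (Fin n))

/-- The total mean. -/
noncomputable def KBL_Lam (q : ℝ) (J : Finset (Sym2 (Fin n))) : ℝ :=
  ∑ u ∈ X, ∑ e ∈ J, ind (u ∈ e) * lam 𝒞 (Ins π) q e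

open Classical in
/-- The items. -/
noncomputable def KBL_items (N N' J : Finset (Sym2 (Fin n))) :
    Finset (Fin n × Finset (Sym2 (Fin n))) :=
  (X ×ˢ 𝒞).filter fun x => ∃ e ∈ J, x.1 ∈ e ∧ BadT 𝒞 (Ins π) x.1 N N' e x.2

/-- The event for a fixed colouring and a fixed set of vertices. -/
def KBL_F (q κ ξ C D : ℝ) (ω0 ω1 : Finset (Sym2 (Fin n))) : Prop :=
  ∃ J ∈ ω0.powerset, ∃ N' ∈ ω0.powerset, (ω0.card : ℝ) ≤ 2 * D * X.card ∧ (∀ e ∈ J, Ins π e) ∧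
    (∀ u ∈ X, Typ π ξ D ω0 N' u) ∧ ∃ M ⊆ KBL_items 𝒞 π X ω0 N' J,
      PD (fun x => outS x.1 x.2) M ∧
      (1 - κ / 2) * KBL_Lam 𝒞 π X q J + C * (D * X.card + n) ≤ M.card ∧
      ∀ x ∈ M, outS x.1 x.2 ⊆ ω1

lemma KBL_lam_nonneg {q : ℝ} (hq : 0 ≤ q) (e : Sym2 (Fin n)) : 0 ≤ lam 𝒞 (Ins π) q e :=
  mul_nonneg hq (Finset.sum_nonneg fun _ _ => ind_nonneg _)

lemma KBL_Lam_mono {q : ℝ} (hq : 0 ≤ q) {J J' : Finset (Sym2 (Fin n))} (h : J ⊆ J') :
    KBL_Lam 𝒞 π X q J ≤ KBL_Lam 𝒞 π X q J' :=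
  Finset.sum_le_sum fun _ _ => Finset.sum_le_sum_of_subset_of_nonneg h fun e _ _ =>
    mul_nonneg (ind_nonneg _) (KBL_lam_nonneg 𝒞 π hq e)

lemma KBL_Lam_nonneg {q : ℝ} (hq : 0 ≤ q) (J : Finset (Sym2 (Fin n))) : 0 ≤ KBL_Lam 𝒞 π X q J :=
  Finset.sum_nonneg fun _ _ => Finset.sum_nonneg fun e _ =>
    mul_nonneg (ind_nonneg _) (KBL_lam_nonneg 𝒞 π hq e)

variable {X}

lemma KBL_mem_U {u : Fin n} (hu : u ∈ X) {g : Sym2 (Fin n)} (hg : ¬ g.IsDiag) (h : u ∈ g) :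
    g ∈ X.biUnion star := by
  obtain ⟨a, rfl⟩ := Sym2.mem_iff_exists.1 h
  refine Finset.mem_biUnion.2 ⟨u, hu, Finset.mem_image.2 ⟨a, ?_, rfl⟩⟩
  exact Finset.mem_erase.2 ⟨fun h => hg (by simp [h]), Finset.mem_univ _⟩

lemma KBL_dto {u : Fin n} (hu : u ∈ X) (ω : Finset (Sym2 (Fin n))) (S : Finset (Fin n)) :
    dto (ω ∩ X.biUnion star) u S = dto ω u S :=
  Finset.sum_congr rfl fun a ha => ind_congr ⟨fun h => (Finset.mem_inter.1 h).1, fun h =>
    Finset.mem_inter.2 ⟨h, KBL_mem_U hu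
      (by simpa using (Finset.mem_erase.1 ha).1.symm) (by simp)⟩⟩

lemma KBL_card (X : Finset (Fin n)) (ω : Finset (Sym2 (Fin n))) :
    ((ω ∩ X.biUnion star).card : ℝ) ≤ ∑ u ∈ X, dgE ω u := by
  have h1 : ω ∩ X.biUnion star ⊆ X.biUnion fun u =>
      ((univ.erase u).filter fun a => s(u, a) ∈ ω).image fun a => s(u, a) := by
    intro g hg
    obtain ⟨g1, g2⟩ := Finset.mem_inter.1 hg
    obtain ⟨u, hu, g3⟩ := Finset.mem_biUnion.1 g2
    obtain ⟨a, ha, rfl⟩ := Finset.mem_image.1 g3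
    exact Finset.mem_biUnion.2 ⟨u, hu, Finset.mem_image.2 ⟨a, Finset.mem_filter.2 ⟨ha, g1⟩, rfl⟩⟩
  have h2 := (Finset.card_le_card h1).trans
    (Finset.card_biUnion_le.trans (Finset.sum_le_sum fun u _ => Finset.card_image_le))
  unfold dgE
  simp only [sum_ind]
  exact_mod_cast h2

lemma KBL_of_not {q κ ξ C D : ℝ} (hq : 0 ≤ q) (k1 : κ ≤ 1) (hnd : ∀ T ∈ 𝒞, ∀ e ∈ T, ¬ e.IsDiag)
    {ω : Finset (Sym2 (Fin n))} (h : ¬ BL (r := r) 𝒞 q κ ξ C D ω) :
    ∃ π ∈ (univ : Finset (Fin n → Fin r)), ∃ X ∈ (univ : Finset (Finset (Fin n))), Bal π ξ ∧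
      KBL_F 𝒞 π X q κ ξ C D (ω ∩ X.biUnion star) (ω \ X.biUnion star) := by
  classical
  unfold BL at h
  push Not at h
  obtain ⟨π, hπ, X, J, hJ, ω', hω', hI, hT, M, m1, m2, m3⟩ := h
  refine ⟨π, Finset.mem_univ _, X, Finset.mem_univ _, hπ, J ∩ X.biUnion star,
    Finset.mem_powerset.2 (Finset.inter_subset_inter_right hJ), ω' ∩ X.biUnion star,
    Finset.mem_powerset.2 (Finset.inter_subset_inter_right hω'), ?_,
    fun e he => hI e (Finset.mem_inter.1 he).1, fun u hu => ?_, M, fun x hx => ?_, m1, ?_,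
    fun x hx g hg => ?_⟩
  · refine (KBL_card X ω).trans ((Finset.sum_le_card_nsmul _ _ _ fun u hu => (hT u hu).2).trans ?_)
    rw [nsmul_eq_mul, mul_comm]
  · exact ⟨fun j => by rw [KBL_dto hu]; exact (hT u hu).1.1 j,
      fun j hj => by rw [KBL_dto hu]; exact (hT u hu).1.2 j hj⟩
  · obtain ⟨x1, -, -, e, e1, e2, b1, b2, b3, b4, f, f1, f2, f3, f4⟩ := m2 x hx
    exact Finset.mem_filter.2 ⟨Finset.mem_product.2 ⟨x1, b1⟩, e,
      Finset.mem_inter.2 ⟨e1, KBL_mem_U x1 (hI e e1).1 e2⟩, e2, b1, b2, b3,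
      fun g g1 g2 => Finset.mem_inter.2 ⟨b4 g g1 g2, KBL_mem_U x1 (hnd _ b1 g g1) g2⟩,
      f, f1, f2, f3, fun h => f4 (Finset.mem_inter.1 h).1⟩
  · refine le_trans ?_ m3.le
    have := mul_le_mul_of_nonneg_left
      (KBL_Lam_mono 𝒞 π X hq (Finset.inter_subset_left (s₁ := J) (s₂ := X.biUnion star)))
      (show 0 ≤ 1 - κ / 2 by linarith only [k1])
    unfold KBL_Lam at this ⊢
    linarith only [this]
  · obtain ⟨-, x2, x3, -⟩ := m2 x hx
    obtain ⟨g1, g2⟩ := Finset.mem_filter.1 hg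
    refine Finset.mem_sdiff.2 ⟨x2 g1, fun h => g2 ?_⟩
    obtain ⟨v, hv, g3⟩ := Finset.mem_biUnion.1 h
    obtain ⟨a, -, rfl⟩ := Finset.mem_image.1 g3
    rw [← x3 v (mem_vs.2 ⟨_, g1, by simp⟩) hv]
    simp

lemma KBL_weight {p q κ : ℝ} (p0 : 0 ≤ p) {N N' J : Finset (Sym2 (Fin n))}
    (h : ∀ u ∈ X, ∀ e ∈ J, u ∈ e → ∑ T ∈ 𝒞, ind (BadT 𝒞 (Ins π) u N N' e T) * p ^ (outS u T).card ≤
      (1 - κ) * lam 𝒞 (Ins π) q e) :
    ∑ x ∈ KBL_items 𝒞 π X N N' J, p ^ (outS x.1 x.2).card ≤ (1 - κ) * KBL_Lam 𝒞 π X q J := by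
  classical
  unfold KBL_items KBL_Lam
  rw [Finset.sum_filter, Finset.sum_product, Finset.mul_sum]
  refine Finset.sum_le_sum fun u hu => ?_
  refine le_trans (Finset.sum_le_sum (g := fun T => ∑ e ∈ J,
    ind (u ∈ e) * (ind (BadT 𝒞 (Ins π) u N N' e T) * p ^ (outS u T).card)) fun T _ => ?_) ?_
  · have h0 : ∀ e ∈ J, 0 ≤ ind (u ∈ e) * (ind (BadT 𝒞 (Ins π) u N N' e T) * p ^ (outS u T).card) :=
      fun e _ => mul_nonneg (ind_nonneg _) (mul_nonneg (ind_nonneg _) (by positivity))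
    split_ifs with hc
    · obtain ⟨e, e1, e2, e3⟩ := hc
      refine le_trans (le_of_eq ?_) (Finset.single_le_sum h0 e1)
      rw [ind_pos e2, ind_pos e3, one_mul, one_mul]
    · exact Finset.sum_nonneg h0
  · rw [Finset.sum_comm, Finset.mul_sum]
    refine Finset.sum_le_sum fun e he => ?_
    rw [← Finset.mul_sum, mul_left_comm]
    by_cases hue : u ∈ e
    · exact mul_le_mul_of_nonneg_left (h u hu e he hue) (ind_nonneg _)
    · rw [ind_neg hue, zero_mul, zero_mul]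

lemma KBL_exp {κ Λ m : ℝ} (k0 : 0 < κ) (k1 : κ ≤ 1) (hΛ : 0 ≤ Λ) (hm : 0 ≤ m) (r : ℕ) :
    κ / 4 * ((1 - κ) * Λ) - ((1 - κ / 2) * Λ + 16 * (r + 3) / κ * m) * Real.log (1 + κ / 4) ≤
      -(3 * (r + 3) * m) := by
  have h1 : κ / 4 * (1 - κ / 4) ≤ Real.log (1 + κ / 4) := by
    refine le_trans ?_ (Real.one_sub_inv_le_log_of_pos (by positivity))
    rw [le_sub_iff_add_le, ← le_sub_iff_add_le', inv_eq_one_div, div_le_iff₀ (by positivity)]
    nlinarith only [k0, mul_pos k0 (mul_pos k0 k0)]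
  have h2 : 0 ≤ (1 - κ / 2) * Λ + 16 * (r + 3) / κ * m :=
    add_nonneg (mul_nonneg (by linarith) hΛ) (by positivity)
  have h3 := mul_le_mul_of_nonneg_left h1 h2
  have h4 : 16 * ((r : ℝ) + 3) / κ * m * (κ / 4 * (1 - κ / 4)) = 4 * (r + 3) * m * (1 - κ / 4) := by
    field_simp; ring
  have h5 : 0 ≤ ((r : ℝ) + 3) * m := by positivity
  rw [add_mul, h4] at h3
  nlinarith only [h3, k0, hΛ, h5, k1, mul_nonneg (mul_pos k0 k0).le hΛ, mul_nonneg (mul_pos k0 (mul_pos k0 k0)).le hΛ,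
    mul_nonneg h5 (sub_nonneg.2 k1)]

lemma KBL_two_pow (a : ℕ) : (2 : ℝ) ^ a ≤ Real.exp a := by
  rw [← mul_one (a : ℝ), Real.exp_nat_mul]
  exact pow_le_pow_left₀ (by norm_num) (by linarith [Real.add_one_le_exp 1]) _

end aux

theorem bl_fin {n r k : ℕ} (𝒞 : Finset (Finset (Sym2 (Fin n)))) {p κ ξ : ℝ} (p0 : 0 ≤ p)
    (p1 : p ≤ 1) (k0 : 0 < κ) (k1 : κ ≤ 1) (hnd : ∀ T ∈ 𝒞, ∀ e ∈ T, ¬ e.IsDiag)
    (hbad : ∀ π : Fin n → Fin r, Bal π ξ →
      ∀ (u : Fin n) (e : Sym2 (Fin n)) (N N' : Finset (Sym2 (Fin n))), u ∈ e → Ins π e → N' ⊆ N →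
      Typ π ξ (p * n) N N' u → ∑ T ∈ 𝒞, ind (BadT 𝒞 (Ins π) u N N' e T) * p ^ (outS u T).card ≤
        (1 - κ) * lam 𝒞 (Ins π) (p ^ (k - 1)) e) :
    Pr p (fun ω => ¬ BL (r := r) 𝒞 (p ^ (k - 1)) κ ξ (16 * (r + 3) / κ) (p * n) ω) ≤
      Real.exp (-n) := by
  classical
  have hq : 0 ≤ p ^ (k - 1) := by positivity
  have key : ∀ (π : Fin n → Fin r) (X : Finset (Fin n)), Pr p (fun ω => Bal π ξ ∧
      KBL_F 𝒞 π X (p ^ (k - 1)) κ ξ (16 * (r + 3) / κ) (p * n) (ω ∩ X.biUnion star)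
        (ω \ X.biUnion star)) ≤ Real.exp (-(3 * (r + 3) * n)) := by
    intro π X
    refine Pr_le_of_trace p0 p1 (X.biUnion star) (fun ω0 ω1 => Bal π ξ ∧
      KBL_F 𝒞 π X (p ^ (k - 1)) κ ξ (16 * (r + 3) / κ) (p * n) ω0 ω1) fun ω0 _ => ?_
    by_cases hc : Bal π ξ ∧ (ω0.card : ℝ) ≤ 2 * (p * n) * X.card
    swap
    · refine le_trans (Pr_mono p0 p1 (B := fun _ => False) ?_) (by rw [Pr_false]; positivity)
      rintro ω ⟨h1, J, -, N', -, h2, -⟩
      exact hc ⟨h1, h2⟩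
    refine (Pr_mono p0 p1 fun ω h => h.2).trans ((Pr_exists_le p0 p1 _ _).trans
      ((Finset.sum_le_card_nsmul _ _ (2 ^ ω0.card *
        Real.exp (-(3 * (r + 3) * (p * n * X.card + n)))) fun J _ => ?_).trans ?_))
    · refine (Pr_exists_le p0 p1 _ _).trans ((Finset.sum_le_card_nsmul _ _
        (Real.exp (-(3 * (r + 3) * (p * n * X.card + n)))) fun N' hN' => ?_).trans
        (by rw [Finset.card_powerset, nsmul_eq_mul]; push_cast; exact le_rfl))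
      by_cases hd : (∀ e ∈ J, Ins π e) ∧ ∀ u ∈ X, Typ π ξ (p * n) ω0 N' u
      swap
      · refine le_trans (Pr_mono p0 p1 (B := fun _ => False) ?_) (by rw [Pr_false]; positivity)
        rintro ω ⟨-, h1, h2, -⟩
        exact hd ⟨h1, h2⟩
      refine le_trans (Pr_mono p0 p1 ?_) ((sharp_tail p0 p1 (KBL_items 𝒞 π X ω0 N' J)
        (fun x => outS x.1 x.2) (z := κ / 4) (j := (1 - κ / 2) * KBL_Lam 𝒞 π X (p ^ (k - 1)) J +
          16 * (r + 3) / κ * (p * n * X.card + n)) (by positivity)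
        (KBL_weight 𝒞 π p0 fun u hu e he hue => hbad π hc.1 u e ω0 N' hue (hd.1 e he)
          (Finset.mem_powerset.1 hN') (hd.2 u hu))).trans (Real.exp_le_exp.2
          (KBL_exp k0 k1 (KBL_Lam_nonneg 𝒞 π X hq J) (by positivity) r)))
      rintro ω ⟨-, -, -, M, m1, m2, m3, m4⟩
      exact ⟨M, m1, m2, m3, fun x hx => (m4 x hx).trans Finset.sdiff_subset⟩
    · rw [Finset.card_powerset, nsmul_eq_mul, ← mul_assoc]
      push_cast
      refine (mul_le_mul_of_nonneg_right (mul_le_mul (KBL_two_pow _) (KBL_two_pow _)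
        (by positivity) (by positivity)) (by positivity)).trans ?_
      rw [← Real.exp_add, ← Real.exp_add]
      refine Real.exp_le_exp.2 ?_
      have h1 : 0 ≤ p * n * X.card := by positivity
      nlinarith only [hc, h1, hc.2, mul_nonneg (Nat.cast_nonneg (α := ℝ) r) h1]
  refine (Pr_mono p0 p1 fun ω h => KBL_of_not 𝒞 hq k1 hnd h).trans
    ((Pr_exists_le p0 p1 _ _).trans ((Finset.sum_le_card_nsmul _ _
      (2 ^ n * Real.exp (-(3 * (r + 3) * n))) fun π _ => ?_).trans ?_))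
  · refine (Pr_exists_le p0 p1 _ _).trans ((Finset.sum_le_card_nsmul _ _ _
      fun X _ => key π X).trans (le_of_eq ?_))
    simp
  · have h1 : (r : ℝ) ^ n ≤ Real.exp (n * r) := by
      rw [Real.exp_nat_mul]
      exact pow_le_pow_left₀ (by positivity) (by linarith [Real.add_one_le_exp (r : ℝ)]) _
    rw [Finset.card_univ, Fintype.card_fun, Fintype.card_fin, Fintype.card_fin, nsmul_eq_mul,
      ← mul_assoc]
    push_cast
    refine (mul_le_mul_of_nonneg_right (mul_le_mul h1 (KBL_two_pow _)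
      (by positivity) (by positivity)) (by positivity)).trans ?_
    rw [← Real.exp_add, ← Real.exp_add]
    refine Real.exp_le_exp.2 ?_
    nlinarith only [mul_nonneg (Nat.cast_nonneg (α := ℝ) r) (Nat.cast_nonneg (α := ℝ) n),
      Nat.cast_nonneg (α := ℝ) n]

variable {W : Type} [Fintype W] [DecidableEq W] {H : SimpleGraph W} [DecidableRel H.Adj] {r : ℕ}

theorem bl_whp (B : HBal H) (C : ECrit H r) : ∃ κ ξ c : ℝ, 0 < κ ∧ κ ≤ 1 ∧ 0 < ξ ∧ 0 ≤ c ∧
    ∀ (p : ℕ → ℝ) (μ Λ : ℝ), GReg H p μ Λ → Whp p fun n ω =>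
      BL (r := r) (copies H (Fin n)) (p n ^ (H.edgeFinset.card - 1)) κ ξ c (p n * n) ω := by
  obtain ⟨κ, ξ, k0, k1, x0, h⟩ := count_bad B C
  refine ⟨κ, ξ, 16 * (r + 3) / κ, k0, k1, x0, by positivity, fun p μ Λ R => ?_⟩
  refine whp_of_le R.p0 R.p1 (f := fun n => Real.exp (-n))
    (Real.tendsto_exp_neg_atTop_nhds_zero.comp tendsto_natCast_atTop_atTop) ?_
  filter_upwards [h] with n hn
  exact bl_fin _ (R.p0 n) (R.p1 n) k0 k1 (R.sys n).nd fun π hπ => hn π hπ (p n) (R.p0 n)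

end Pool.Agent.Work.MP_d4a230_co
end

-- merged part: Pool.Agent.Work.MP_d4a230_co.KEML
section
/-!
Elementary events of high probability: degrees, edges between sets, overlapping copies.
-/

namespace Pool.Agent.Work.MP_d4a230_co

open Finset Filter Topology

lemma KEML_mgf {ι : Type} [Fintype ι] [DecidableEq ι] {p : ℝ} (a : ι → ℝ) (t : ℝ)
    (M : Finset ι) : E p (fun ω => Real.exp (t * ∑ e ∈ M, a e * ind (e ∈ ω))) =
      ∏ e ∈ M, (1 + p * (Real.exp (t * a e) - 1)) := by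
  induction M using Finset.induction_on with
  | empty => simp [E_const]
  | insert e M he ih =>
    have h1 : ∀ ω : Finset ι, Real.exp (t * ∑ g ∈ insert e M, a g * ind (g ∈ ω)) =
        Real.exp (t * ∑ g ∈ M, a g * ind (g ∈ ω)) + (Real.exp (t * a e) - 1) *
          (ind (e ∈ ω) * Real.exp (t * ∑ g ∈ M, a g * ind (g ∈ ω))) := by
      intro ω
      rw [Finset.sum_insert he, mul_add, Real.exp_add]
      by_cases h : e ∈ ω
      · rw [ind_pos h, mul_one]; ring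
      · rw [ind_neg h]; simp
    rw [E_congr h1, E_add, E_const_mul, plant1]
    have h2 : ∀ ω : Finset ι, Real.exp (t * ∑ g ∈ M, a g * ind (g ∈ insert e ω)) =
        Real.exp (t * ∑ g ∈ M, a g * ind (g ∈ ω)) := by
      intro ω
      congr 2
      refine Finset.sum_congr rfl fun g hg => ?_
      have : g ≠ e := fun h => he (h ▸ hg)
      rw [ind_congr (q := g ∈ insert e ω) (r := g ∈ ω) (by simp [this])]
    rw [E_congr h2, ih, Finset.prod_insert he]; ring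

/-- Upper tail for a weighted sum with weights in `[0, 2]`. -/
lemma chernoff_wt {ι : Type} [Fintype ι] [DecidableEq ι] {p : ℝ} (h0 : 0 ≤ p) (h1 : p ≤ 1)
    (a : ι → ℝ) (a0 : ∀ e, 0 ≤ a e) (a2 : ∀ e, a e ≤ 2) {t x : ℝ} (t0 : 0 ≤ t) (t1 : t ≤ 1 / 2) :
    Pr p (fun ω => p * ∑ e, a e + x ≤ ∑ e, a e * ind (e ∈ ω)) ≤
      Real.exp (2 * t ^ 2 * (p * ∑ e, a e) - t * x) := by
  have hm := markov h0 h1 (f := fun ω => Real.exp (t * ∑ e, a e * ind (e ∈ ω)))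
    (fun ω => (Real.exp_pos _).le) (Real.exp_pos (t * (p * ∑ e, a e + x)))
  refine le_trans (Pr_mono h0 h1 fun ω h => ?_) (hm.trans ?_)
  · exact Real.exp_le_exp.2 (mul_le_mul_of_nonneg_left h t0)
  · rw [KEML_mgf, div_le_iff₀ (Real.exp_pos _), ← Real.exp_add]
    have h3 : ∏ e, (1 + p * (Real.exp (t * a e) - 1)) ≤
        ∏ e, Real.exp ((t + 2 * t ^ 2) * (p * a e)) := by
      refine Finset.prod_le_prod (fun e _ => ?_) fun e _ => ?_
      · have : 0 ≤ Real.exp (t * a e) - 1 :=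
          sub_nonneg.2 (Real.one_le_exp (mul_nonneg t0 (a0 e)))
        positivity
      · have s0 : 0 ≤ t * a e := mul_nonneg t0 (a0 e)
        have s1 : t * a e ≤ 1 := by nlinarith only [t1, t0, a0 e, a2 e]
        have s2 := (abs_le.1 (Real.abs_exp_sub_one_sub_id_le
          (x := t * a e) (by rw [abs_of_nonneg s0]; exact s1))).2
        have s3 : (t * a e) ^ 2 ≤ 2 * t ^ 2 * a e := by
          have : a e * a e ≤ 2 * a e := mul_le_mul_of_nonneg_right (a2 e) (a0 e)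
          nlinarith only [this, sq_nonneg t]
        have s4 : p * (Real.exp (t * a e) - 1) ≤ p * (t * a e + 2 * t ^ 2 * a e) :=
          mul_le_mul_of_nonneg_left (by linarith) h0
        have s5 := Real.add_one_le_exp ((t + 2 * t ^ 2) * (p * a e))
        nlinarith only [s4, s5]
    refine h3.trans (le_of_eq ?_)
    rw [← Real.exp_sum, ← Finset.mul_sum, ← Finset.mul_sum]
    congr 1
    ring

section Wt

variable {V : Type} [Fintype V] [DecidableEq V]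

/-- The multiplicity of a pair between two sets. -/
noncomputable def KEML_wt (X Y : Finset V) (e : Sym2 V) : ℝ :=
  ∑ v ∈ X, ∑ y ∈ Y.erase v, ind (e = s(v, y))

omit [Fintype V] in
lemma KEML_wt_nonneg (X Y : Finset V) (e : Sym2 V) : 0 ≤ KEML_wt X Y e :=
  Finset.sum_nonneg fun _ _ => Finset.sum_nonneg fun _ _ => ind_nonneg _

omit [Fintype V] in
lemma KEML_one (X : Finset V) (u : V) : ∑ v ∈ X, ind (v = u) ≤ 1 := by
  rw [sum_ind]
  have : (X.filter fun v => v = u).card ≤ 1 := Finset.card_le_one.2 fun a ha b hb =>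
    (Finset.mem_filter.1 ha).2.trans (Finset.mem_filter.1 hb).2.symm
  exact_mod_cast this

omit [Fintype V] in
lemma KEML_wt_le (X Y : Finset V) (e : Sym2 V) : KEML_wt X Y e ≤ 2 := by
  induction e using Sym2.ind with
  | h u w =>
    have aux : ∀ u w : V, ∑ v ∈ X, ∑ y ∈ Y.erase v, ind (v = u ∧ y = w) ≤ 1 := by
      intro u w
      refine le_trans (Finset.sum_le_sum fun v _ => ?_) (KEML_one X u)
      simp only [ind_and]
      rw [← Finset.mul_sum]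
      exact mul_le_of_le_one_right (ind_nonneg _) (KEML_one _ w)
    calc KEML_wt X Y s(u, w)
        ≤ ∑ v ∈ X, ∑ y ∈ Y.erase v, (ind (v = u ∧ y = w) + ind (v = w ∧ y = u)) := by
          refine Finset.sum_le_sum fun v _ => Finset.sum_le_sum fun y _ => ?_
          refine le_trans (ind_mono fun h => ?_) (ind_or_le _ _)
          rcases Sym2.eq_iff.1 h with h | h
          · exact Or.inl ⟨h.1.symm, h.2.symm⟩
          · exact Or.inr ⟨h.2.symm, h.1.symm⟩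
      _ ≤ 2 := by
          simp only [Finset.sum_add_distrib]
          linarith [aux u w, aux w u]

omit [DecidableEq V] in
lemma KEML_sum_eq (e0 : Sym2 V) (f : Sym2 V → ℝ) : ∑ e, ind (e = e0) * f e = f e0 := by
  rw [Finset.sum_eq_single e0 (fun b _ hb => by rw [ind_neg hb, zero_mul]) (by simp),
    ind_pos rfl, one_mul]

lemma KEML_wt_mul (X Y : Finset V) (f : Sym2 V → ℝ) :
    ∑ e, KEML_wt X Y e * f e = ∑ v ∈ X, ∑ y ∈ Y.erase v, f s(v, y) := by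
  unfold KEML_wt
  simp only [Finset.sum_mul]
  rw [Finset.sum_comm]
  refine Finset.sum_congr rfl fun v _ => ?_
  rw [Finset.sum_comm]
  exact Finset.sum_congr rfl fun y _ => KEML_sum_eq _ f

lemma KEML_wt_sum (X Y : Finset V) : ∑ e, KEML_wt X Y e ≤ X.card * Y.card := by
  have := KEML_wt_mul X Y fun _ => 1
  simp only [mul_one, Finset.sum_const, nsmul_eq_mul] at this
  rw [this]
  refine (Finset.sum_le_card_nsmul _ _ (Y.card : ℝ) fun v _ => ?_).trans (by rw [nsmul_eq_mul])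
  exact_mod_cast Finset.card_erase_le

lemma KEML_tail {p : ℝ} (h0 : 0 ≤ p) (h1 : p ≤ 1) (X Y : Finset V) {t x : ℝ} (t0 : 0 ≤ t)
    (t1 : t ≤ 1 / 2) :
    Pr p (fun ω => ¬ ∑ v ∈ X, dto ω v Y ≤ p * (X.card * Y.card) + x) ≤
      Real.exp (2 * t ^ 2 * (p * (X.card * Y.card)) - t * x) := by
  have hs := mul_le_mul_of_nonneg_left (KEML_wt_sum X Y) h0
  refine le_trans (Pr_mono h0 h1 fun ω h => ?_)
    ((chernoff_wt h0 h1 (KEML_wt X Y) (KEML_wt_nonneg X Y) (KEML_wt_le X Y) (x := x) t0 t1).trans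
      (Real.exp_le_exp.2 ?_))
  · rw [KEML_wt_mul X Y fun e => ind (e ∈ ω)]
    have : p * (X.card * Y.card) + x < ∑ v ∈ X, ∑ y ∈ Y.erase v, ind (s(v, y) ∈ ω) := not_le.1 h
    linarith only [hs, this]
  · have : 0 ≤ 2 * t ^ 2 := by positivity
    nlinarith only [hs]

omit [Fintype V] [DecidableEq V] in
lemma KEML_star_inj (v : V) : Function.Injective fun a : V => s(v, a) := fun _ _ h =>
  Sym2.congr_right.1 h

lemma KEML_card_star (v : V) : ((star v).card : ℝ) = Fintype.card V - 1 := by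
  unfold star
  rw [Finset.card_image_of_injective _ (KEML_star_inj v),
    Finset.card_erase_of_mem (Finset.mem_univ v), Finset.card_univ,
    Nat.cast_sub (Fintype.card_pos_iff.2 ⟨v⟩), Nat.cast_one]

lemma KEML_dgE (ω : Finset (Sym2 V)) (v : V) : dgE ω v = ((ω ∩ star v).card : ℝ) := by
  unfold dgE star
  rw [sum_ind, ← Finset.card_image_of_injective _ (KEML_star_inj v)]
  congr 2
  ext e
  simp only [Finset.mem_image, Finset.mem_filter, Finset.mem_inter]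
  constructor
  · rintro ⟨a, ⟨h1, h2⟩, rfl⟩
    exact ⟨h2, a, h1, rfl⟩
  · rintro ⟨h2, a, h1, rfl⟩
    exact ⟨a, ⟨h1, h2⟩, rfl⟩

lemma KEML_union {ι κ : Type} [Fintype ι] [DecidableEq ι] [Fintype κ] {p : ℝ} (h0 : 0 ≤ p)
    (h1 : p ≤ 1) (A : κ → Finset ι → Prop) {b : ℝ} (h : ∀ x, Pr p (fun ω => ¬ A x ω) ≤ b) :
    Pr p (fun ω => ¬ ∀ x, A x ω) ≤ Fintype.card κ * b := by
  refine le_trans (Pr_mono h0 h1 fun ω h => ?_)
    ((Pr_exists_le h0 h1 Finset.univ fun x ω => ¬ A x ω).trans ?_)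
  · obtain ⟨x, hx⟩ := not_forall.1 h
    exact ⟨x, Finset.mem_univ x, hx⟩
  · refine (Finset.sum_le_card_nsmul _ _ b fun x _ => h x).trans (le_of_eq ?_)
    rw [nsmul_eq_mul, Finset.card_univ]

end Wt

/-- A copy sharing at least three vertices with another present copy. -/
def Ovl {V : Type} [DecidableEq V] (𝒞 : Finset (Finset (Sym2 V))) (ω T : Finset (Sym2 V)) : Prop :=
  ∃ T' ∈ 𝒞, T' ≠ T ∧ T' ⊆ ω ∧ 3 ≤ (vs T ∩ vs T').card

variable {p : ℕ → ℝ} {𝒞 : ∀ n, Finset (Finset (Sym2 (Fin n)))} {h k K0 : ℕ} {μ Λ : ℝ}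

theorem eml_whp (R : HReg p 𝒞 h k K0 μ Λ) {ζ : ℝ} (hζ : 0 < ζ) :
    Whp p fun n ω => ∀ X Y : Finset (Fin n),
      ∑ v ∈ X, dto ω v Y ≤ p n * (X.card * Y.card) + ζ * (p n * (n : ℝ) ^ 2) := by
  set t : ℝ := min (1 / 2) (ζ / 4) with ht
  have t0 : 0 < t := lt_min (by norm_num) (by positivity)
  have t1 : t ≤ 1 / 2 := min_le_left _ _
  have t2 : t ≤ ζ / 4 := min_le_right _ _
  refine whp_of_le R.p0 R.p1 (f := fun n : ℕ => Real.exp (-(n : ℝ)))
    (Real.tendsto_exp_neg_atTop_nhds_zero.comp (tendsto_natCast_atTop_atTop (R := ℝ))) ?_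
  filter_upwards [(R.inf.const_mul_atTop (r := t * ζ / 2) (by positivity)).eventually
    (eventually_ge_atTop 3)] with n hn
  have hp := R.p0 n
  have key := KEML_union hp (R.p1 n) (fun (Z : Finset (Fin n) × Finset (Fin n)) ω =>
    ∑ v ∈ Z.1, dto ω v Z.2 ≤ p n * (Z.1.card * Z.2.card) + ζ * (p n * (n : ℝ) ^ 2))
    (b := Real.exp (-(3 * (n : ℝ)))) (fun Z => by
      refine (KEML_tail hp (R.p1 n) Z.1 Z.2 t0.le t1).trans (Real.exp_le_exp.2 ?_)
      have c1 : (Z.1.card : ℝ) ≤ n := by exact_mod_cast card_finset_fin_le Z.1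
      have c2 : (Z.2.card : ℝ) ≤ n := by exact_mod_cast card_finset_fin_le Z.2
      have c3 : (Z.1.card : ℝ) * Z.2.card ≤ (n : ℝ) ^ 2 := by
        rw [sq]; exact mul_le_mul c1 c2 (Nat.cast_nonneg _) (Nat.cast_nonneg _)
      have c4 : 2 * t ^ 2 * (p n * (Z.1.card * Z.2.card)) ≤
          (t * ζ / 2) * (p n * (n : ℝ) ^ 2) :=
        mul_le_mul (by nlinarith only [t0, t2]) (mul_le_mul_of_nonneg_left c3 hp) (by positivity)
          (by positivity)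
      have c5 : 3 * (n : ℝ) ≤ t * ζ / 2 * (p n * n) * n :=
        mul_le_mul_of_nonneg_right hn (Nat.cast_nonneg _)
      nlinarith only [c4, c5])
  refine le_trans (le_trans (Pr_mono hp (R.p1 n) fun ω h => ?_) key) ?_
  · exact fun h' => h fun X Y => h' (X, Y)
  rw [Fintype.card_prod, Fintype.card_finset, Fintype.card_fin]
  have e2 : (2 : ℝ) ^ n ≤ Real.exp n := by
    rw [← mul_one (n : ℝ), Real.exp_nat_mul]
    exact pow_le_pow_left₀ (by norm_num) (by linarith [Real.add_one_le_exp 1]) _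
  calc ((2 ^ n * 2 ^ n : ℕ) : ℝ) * Real.exp (-(3 * (n : ℝ)))
      ≤ Real.exp n * Real.exp n * Real.exp (-(3 * (n : ℝ))) := by
        push_cast
        exact mul_le_mul_of_nonneg_right (mul_le_mul e2 e2 (by positivity) (by positivity))
          (Real.exp_pos _).le
    _ = Real.exp (-(n : ℝ)) := by
        rw [← Real.exp_add, ← Real.exp_add]
        congr 1
        ring

theorem deg_whp (R : HReg p 𝒞 h k K0 μ Λ) :
    Whp p fun n ω => ∀ v, dgE ω v ≤ 2 * (p n * n) := by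
  refine whp_of_le R.p0 R.p1 (R.decay (γ := 1 / 8) (by norm_num) 0)
    (Filter.Eventually.of_forall fun n => ?_)
  have hp := R.p0 n
  refine (KEML_union hp (R.p1 n) (fun (v : Fin n) ω => dgE ω v ≤ 2 * (p n * n))
    (b := Real.exp (0 - 1 / 8 * (p n * n))) fun v => ?_).trans (by rw [Fintype.card_fin])
  have key := KEML_tail hp (R.p1 n) {v} Finset.univ (t := 1 / 4) (x := p n * n) (by norm_num)
    (by norm_num)
  simp only [Finset.sum_singleton, Finset.card_singleton, Finset.card_univ, Fintype.card_fin,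
    Nat.cast_one, one_mul] at key
  refine le_trans (le_trans (Pr_mono hp (R.p1 n) fun ω h => ?_) key) (le_of_eq ?_)
  · refine fun h' => h ?_
    change dgE ω v ≤ _ at h'
    linarith
  · congr 1
    ring

theorem deg_low_whp (R : HReg p 𝒞 h k K0 μ Λ) {ζ : ℝ} (hζ : 0 < ζ) :
    Whp p fun n ω => ∀ v, (1 - ζ) * (p n * n) ≤ dgE ω v := by
  refine whp_of_le R.p0 R.p1 (R.decay (γ := ζ ^ 2 / 4) (by positivity) 1)
    (Filter.Eventually.of_forall fun n => ?_)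
  have hp := R.p0 n
  have hp1 := R.p1 n
  refine (KEML_union hp hp1 (fun (v : Fin n) ω => (1 - ζ) * (p n * n) ≤ dgE ω v)
    (b := Real.exp (1 - ζ ^ 2 / 4 * (p n * n))) fun v => ?_).trans (by rw [Fintype.card_fin])
  have key := chernoff_low hp hp1 (star v) ((1 - ζ) * (p n * n)) (u := ζ / 2) (by positivity)
  refine le_trans (Pr_mono hp hp1 fun ω h => ?_) (key.trans (Real.exp_le_exp.2 ?_))
  · rw [← KEML_dgE]
    exact (not_le.1 h).le
  · rw [KEML_card_star, Fintype.card_fin]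
    have u1 : ζ / 2 / (1 + ζ / 2) ≤ 1 := by
      rw [div_le_one (by positivity)]; linarith only []
    have u2 : ζ / 2 - ζ ^ 2 / 4 ≤ ζ / 2 / (1 + ζ / 2) := by
      rw [le_div_iff₀ (by positivity)]
      nlinarith only [hζ, pow_pos hζ 3]
    have u0 : 0 ≤ ζ / 2 / (1 + ζ / 2) := by positivity
    have u3 : ζ / 2 / (1 + ζ / 2) * p n ≤ 1 := mul_le_one₀ u1 hp hp1
    have u4 := mul_le_mul_of_nonneg_right u2 (mul_nonneg hp (Nat.cast_nonneg n))
    nlinarith only [u3, u4]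

theorem ovl_whp (R : HReg p 𝒞 h k K0 μ Λ) {ζ : ℝ} (hζ : 0 < ζ) :
    Whp p fun n ω => ∑ T ∈ 𝒞 n, ind (T ⊆ ω ∧ Ovl (𝒞 n) ω T) ≤ ζ * (p n * (n : ℝ) ^ 2) := by
  refine (whp_iff R.p0 R.p1).2 fun ε hε => ?_
  have hΛ := R.pos
  set L : ℝ := K0 * (Λ + 1) + 1 with hL
  have L0 : 0 < L := by positivity
  filter_upwards [R.bad k (β := ε * ζ / L) (by positivity), R.bd,
    R.inf.eventually (eventually_gt_atTop 0), eventually_gt_atTop 0] with n hb hd hi hn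
  have hp := R.p0 n
  have hp1 := R.p1 n
  have S := R.sys n
  have hn' : (0 : ℝ) < n := by exact_mod_cast hn
  have hpos : 0 < p n * (n : ℝ) ^ 2 := by
    rw [sq, ← mul_assoc]; exact mul_pos hi hn'
  have hT : ∀ T ∈ 𝒞 n, E (p n) (fun ω => ind (T ⊆ ω ∧ Ovl (𝒞 n) ω T)) ≤
      p n ^ k * (ε * ζ / L) := by
    intro T hT
    rw [E_congr fun ω => ind_and _ _, plant, S.card T hT]
    refine mul_le_mul_of_nonneg_left ?_ (by positivity)
    refine le_trans ?_ (hb T (S.card T hT).le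
      ((𝒞 n).filter fun T' => T' ≠ T ∧ 3 ≤ (vs T ∩ vs T').card) fun T' hT' => ?_)
    · refine le_trans (Pr_mono hp hp1 (A := fun ω => Ovl (𝒞 n) (ω ∪ T) T) fun ω h => ?_)
        ((Pr_exists_le hp hp1 ((𝒞 n).filter fun T' => T' ≠ T ∧ 3 ≤ (vs T ∩ vs T').card)
          fun T' ω => T' ⊆ ω ∪ T).trans (le_of_eq ?_))
      · obtain ⟨T', h1, h2, h3, h4⟩ := h
        exact ⟨T', Finset.mem_filter.2 ⟨h1, h2, h4⟩, h3⟩
      · refine Finset.sum_congr rfl fun T' _ => ?_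
        have := plant' (p := p n) T' T fun _ => 1
        simp only [mul_one, E_const] at this
        exact this
    · obtain ⟨h1, h2, h3⟩ := Finset.mem_filter.1 hT'
      refine ⟨h1, by rwa [Finset.inter_comm], fun h => h2 ?_⟩
      exact Finset.eq_of_subset_of_card_le h (by rw [S.card T hT, S.card T' h1])
  have hm := markov hp hp1 (f := fun ω => ∑ T ∈ 𝒞 n, ind (T ⊆ ω ∧ Ovl (𝒞 n) ω T))
    (fun ω => Finset.sum_nonneg fun _ _ => ind_nonneg _) (mul_pos hζ hpos)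
  refine le_trans (Pr_mono hp hp1 fun ω h => (not_le.1 h).le) (hm.trans ?_)
  rw [div_le_iff₀ (mul_pos hζ hpos), E_sum]
  refine (Finset.sum_le_card_nsmul _ _ _ hT).trans ?_
  rw [nsmul_eq_mul]
  have c1 := S.card_le
  rw [Fintype.card_fin] at c1
  have h3 := S.h3
  have hk := S.hk
  have e1 : (n : ℝ) ^ h * p n ^ k = (n : ℝ) ^ (h - 2) * p n ^ (k - 1) * (p n * (n : ℝ) ^ 2) := by
    obtain ⟨h', rfl⟩ : ∃ h', h = h' + 2 := ⟨h - 2, by omega⟩
    obtain ⟨k', rfl⟩ : ∃ k', k = k' + 1 := ⟨k - 1, by omega⟩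
    simp only [Nat.add_sub_cancel]
    ring
  have c2 : ((𝒞 n).card : ℝ) * p n ^ k ≤ L * (p n * (n : ℝ) ^ 2) := by
    refine (mul_le_mul_of_nonneg_right c1 (by positivity)).trans ?_
    rw [mul_assoc, e1, ← mul_assoc]
    refine mul_le_mul_of_nonneg_right ?_ hpos.le
    have := mul_le_mul_of_nonneg_left hd (Nat.cast_nonneg (α := ℝ) K0)
    linarith only [this]
  calc ((𝒞 n).card : ℝ) * (p n ^ k * (ε * ζ / L)) = (𝒞 n).card * p n ^ k * (ε * ζ / L) := by ring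
    _ ≤ L * (p n * (n : ℝ) ^ 2) * (ε * ζ / L) := mul_le_mul_of_nonneg_right c2 (by positivity)
    _ = ε * (ζ * (p n * (n : ℝ) ^ 2)) := by field_simp

end Pool.Agent.Work.MP_d4a230_co
end

-- merged part: Pool.Agent.Work.MP_d4a230_co.KJZ1
section
/-!
Averaging over a random set of bad vertices, and the structure of a maximum cut.
-/

namespace Pool.Agent.Work.MP_d4a230_co

open Finset

variable {n r h k K0 : ℕ} {𝒞 : Finset (Finset (Sym2 (Fin n)))} {ω ω' J : Finset (Sym2 (Fin n))}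

/-- The vertices in conflict with a pointed copy. -/
def KJZ1_cf (𝒞 : Finset (Finset (Sym2 (Fin n)))) (ω : Finset (Sym2 (Fin n)))
    (x : Fin n × Finset (Sym2 (Fin n))) : Finset (Fin n) :=
  ((outS x.1 x.2).biUnion fun g => (𝒞.filter fun T => g ∈ T ∧ T ⊆ ω).biUnion vs).erase x.1

lemma KJZ1_mem {x : Fin n × Finset (Sym2 (Fin n))} {g : Sym2 (Fin n)} (hg : g ∈ outS x.1 x.2)
    {T : Finset (Sym2 (Fin n))} (hT : T ∈ 𝒞) (hgT : g ∈ T) (hω : T ⊆ ω) {v : Fin n}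
    (hv : v ∈ vs T) (hne : v ≠ x.1) : v ∈ KJZ1_cf 𝒞 ω x :=
  mem_erase.2 ⟨hne, mem_biUnion.2 ⟨g, hg, mem_biUnion.2 ⟨T, mem_filter.2 ⟨hT, hgT, hω⟩, hv⟩⟩⟩

lemma KJZ1_card (S : Sys 𝒞 h k K0) {D1 : ℝ} (hD1 : 0 ≤ D1) {x : Fin n × Finset (Sym2 (Fin n))}
    (hT : x.2 ∈ 𝒞) (hc : ∀ g ∈ outS x.1 x.2, cop 𝒞 ω g ≤ D1) :
    ((KJZ1_cf 𝒞 ω x).card : ℝ) ≤ h * k * D1 := by
  have h1 : ∀ g ∈ outS x.1 x.2,
      (((𝒞.filter fun T => g ∈ T ∧ T ⊆ ω).biUnion vs).card : ℝ) ≤ h * D1 := by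
    intro g hg
    have h2 : ((𝒞.filter fun T => g ∈ T ∧ T ⊆ ω).biUnion vs).card ≤
        (𝒞.filter fun T => g ∈ T ∧ T ⊆ ω).card * h :=
      card_biUnion_le_card_mul _ _ _ fun T hT' => (S.cvs T (mem_filter.1 hT').1).le
    have h3 := hc g hg
    rw [cop, sum_ind] at h3
    calc (((𝒞.filter fun T => g ∈ T ∧ T ⊆ ω).biUnion vs).card : ℝ)
        ≤ ((𝒞.filter fun T => g ∈ T ∧ T ⊆ ω).card : ℝ) * h := by exact_mod_cast h2
      _ ≤ D1 * h := mul_le_mul_of_nonneg_right h3 (Nat.cast_nonneg _)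
      _ = h * D1 := mul_comm _ _
  have h4 : ((outS x.1 x.2).card : ℝ) ≤ k := by
    have := card_filter_le x.2 (fun g => x.1 ∉ g)
    rw [S.card _ hT] at this
    exact_mod_cast this
  calc ((KJZ1_cf 𝒞 ω x).card : ℝ)
      ≤ ∑ g ∈ outS x.1 x.2, (((𝒞.filter fun T => g ∈ T ∧ T ⊆ ω).biUnion vs).card : ℝ) := by
        exact_mod_cast card_erase_le.trans card_biUnion_le
    _ ≤ (outS x.1 x.2).card * (h * D1) := by
        rw [← nsmul_eq_mul]; exact sum_le_card_nsmul _ _ _ h1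
    _ ≤ k * (h * D1) := mul_le_mul_of_nonneg_right h4 (by positivity)
    _ = h * k * D1 := by ring

lemma KJZ1_ind (u : Fin n) (R ζ : Finset (Fin n)) :
    ind ({u} ⊆ ζ) - ∑ w ∈ R, ind (insert w {u} ⊆ ζ) ≤ ind (u ∈ ζ ∧ ∀ w ∈ R, w ∉ ζ) := by
  have := KXP0_ind {u} R ζ (∅ : Finset Unit) (fun _ => ∅)
  rw [sum_empty, sub_zero] at this
  exact this.trans (ind_mono fun hh => ⟨singleton_subset_iff.1 hh.1, hh.2.1⟩)

lemma KJZ1_E {ρ : ℝ} (r0 : 0 ≤ ρ) (r1 : ρ ≤ 1) (u : Fin n) (R : Finset (Fin n)) (hu : u ∉ R) :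
    ρ - R.card * ρ ^ 2 ≤ E ρ (fun ζ => ind (u ∈ ζ ∧ ∀ w ∈ R, w ∉ ζ)) := by
  refine le_trans (le_of_eq ?_) (E_mono r0 r1 (KJZ1_ind u R))
  rw [E_sub, E_sum]
  have h1 : E ρ (fun ζ : Finset (Fin n) => ind ({u} ⊆ ζ)) = ρ := by
    exact (Pr_subset (p := ρ) ({u} : Finset (Fin n))).trans (by simp)
  have h2 : ∀ w ∈ R, E ρ (fun ζ : Finset (Fin n) => ind (insert w {u} ⊆ ζ)) = ρ ^ 2 := by
    intro w hw
    exact (Pr_subset (p := ρ) (insert w {u})).trans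
      (congrArg (ρ ^ ·) (card_pair fun hwu : w = u => hu (hwu ▸ hw)))
  rw [h1, sum_congr rfl h2, sum_const, nsmul_eq_mul]

lemma KJZ1_Esum {ρ : ℝ} (X : Finset (Fin n)) (a : Fin n → ℝ) :
    E ρ (fun ζ => ∑ u ∈ X ∩ ζ, a u) = ρ * ∑ u ∈ X, a u := by
  have h1 : ∀ ζ : Finset (Fin n), ∑ u ∈ X ∩ ζ, a u = ∑ u ∈ X, a u * ind ({u} ⊆ ζ) := by
    intro ζ
    rw [← filter_mem_eq_inter, sum_filter]
    refine sum_congr rfl fun u _ => ?_
    split_ifs with hu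
    · rw [ind_pos (singleton_subset_iff.2 hu), mul_one]
    · rw [ind_neg (fun hh => hu (singleton_subset_iff.1 hh)), mul_zero]
  rw [E_congr h1, E_sum, mul_sum]
  refine sum_congr rfl fun u _ => ?_
  rw [E_const_mul, mul_comm]
  congr 1
  exact (Pr_subset (p := ρ) ({u} : Finset (Fin n))).trans (by simp)

theorem bl_avg (S : Sys 𝒞 h k K0) {q κ ξ C D D1 ρ : ℝ} (hBL : BL (r := r) 𝒞 q κ ξ C D ω)
    {π : Fin n → Fin r} (hπ : Bal π ξ) (X : Finset (Fin n)) (hJ : J ⊆ ω) (hω : ω' ⊆ ω)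
    (hin : ∀ e ∈ J, Ins π e) (hX : ∀ u ∈ X, Typ π ξ D ω ω' u ∧ dgE ω u ≤ 2 * D)
    (𝓟 : Finset (Fin n × Finset (Sym2 (Fin n))))
    (h𝓟 : ∀ x ∈ 𝓟, x.1 ∈ X ∧ x.2 ⊆ ω ∧ ¬ Ovl 𝒞 ω x.2 ∧ ∃ e ∈ J, x.1 ∈ e ∧
      BadT 𝒞 (Ins π) x.1 ω ω' e x.2 ∧ ∀ g ∈ x.2, g ≠ e → cop 𝒞 ω g ≤ D1)
    (q0 : 0 ≤ q) (k1 : κ ≤ 1) (C0 : 0 ≤ C) (D0 : 0 ≤ D) (hD1 : 0 ≤ D1) (r0 : 0 < ρ) (r1 : ρ ≤ 1)
    (hρ : 8 * (h * k * D1 * ρ) ≤ κ) :
    (𝓟.card : ℝ) ≤ (1 - κ / 4) * ∑ u ∈ X, ∑ e ∈ J, ind (u ∈ e) * lam 𝒞 (Ins π) q e +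
      2 * C * (D * X.card) + 2 * C * n / ρ := by
  classical
  set Λ := ∑ u ∈ X, ∑ e ∈ J, ind (u ∈ e) * lam 𝒞 (Ins π) q e with hΛ
  have hΛ0 : 0 ≤ Λ := sum_nonneg fun u _ => sum_nonneg fun e _ =>
    mul_nonneg (ind_nonneg _) (mul_nonneg q0 (sum_nonneg fun _ _ => ind_nonneg _))
  have hC : ∀ x ∈ 𝓟, x.2 ∈ 𝒞 := fun x hx => by
    obtain ⟨-, -, -, e, -, -, hb, -⟩ := h𝓟 x hx
    exact hb.1
  have hu : ∀ x ∈ 𝓟, x.1 ∈ vs x.2 := fun x hx => by
    obtain ⟨-, -, -, e, -, he, hb, -⟩ := h𝓟 x hx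
    exact mem_vs.2 ⟨e, hb.2.1, he⟩
  have hcf : ∀ x ∈ 𝓟, ((KJZ1_cf 𝒞 ω x).card : ℝ) ≤ h * k * D1 := fun x hx => by
    obtain ⟨-, -, -, e, -, he, -, hc⟩ := h𝓟 x hx
    refine KJZ1_card S hD1 (hC x hx) fun g hg => hc g (mem_filter.1 hg).1 ?_
    rintro rfl
    exact (mem_filter.1 hg).2 he
  have key : ∀ ζ : Finset (Fin n),
      ∑ x ∈ 𝓟, ind (x.1 ∈ ζ ∧ ∀ w ∈ KJZ1_cf 𝒞 ω x, w ∉ ζ) ≤
        (1 - κ / 2) * ∑ u ∈ X ∩ ζ, ∑ e ∈ J, ind (u ∈ e) * lam 𝒞 (Ins π) q e +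
          (C * D * ((X ∩ ζ).card : ℝ) + C * n) := by
    intro ζ
    rw [sum_ind]
    refine (hBL π hπ (X ∩ ζ) J hJ ω' hω hin (fun u hu => hX u (mem_inter.1 hu).1) _ ?_ ?_).trans
      (le_of_eq (by ring))
    · intro x hx y hy hxy
      obtain ⟨x1, x2, x3⟩ := mem_filter.1 hx
      obtain ⟨y1, y2, -⟩ := mem_filter.1 hy
      rw [disjoint_left]
      intro g g1 g2
      have hyω := (h𝓟 y y1).2.1
      have e1 : y.1 = x.1 := by
        by_contra hne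
        exact x3 _ (KJZ1_mem g1 (hC y y1) (mem_filter.1 g2).1 hyω (hu y y1) hne) y2
      refine (h𝓟 x x1).2.2.1 ⟨y.2, hC y y1, fun e2 => hxy (Prod.ext e1 e2).symm, hyω, ?_⟩
      exact three_le_inter (S.nd _ (hC x x1) g (mem_filter.1 g1).1) (mem_filter.1 g1).1
        (mem_filter.1 g2).1 (hu x x1) (e1 ▸ hu y y1) (mem_filter.1 g1).2
    · intro x hx
      obtain ⟨x1, x2, x3⟩ := mem_filter.1 hx
      obtain ⟨a1, a2, -, e, a3, a4, a5, -⟩ := h𝓟 x x1
      refine ⟨mem_inter.2 ⟨a1, x2⟩, a2, fun v hv hvX => ?_, e, a3, a4, a5⟩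
      by_contra hne
      obtain ⟨g, g1, g2⟩ := S.exists_avoid (hC x x1) x.1
      exact x3 v (KJZ1_mem (mem_filter.2 ⟨g1, g2⟩) (hC x x1) g1 a2 hv hne) (mem_inter.1 hvX).2
  have h1 := E_mono r0.le r1 key
  rw [E_sum, E_add, E_add, E_const_mul, E_const_mul, E_const, KXP0_E1, KJZ1_Esum, ← hΛ] at h1
  have h2 : (𝓟.card : ℝ) * (ρ * (1 - κ / 8)) ≤
      ∑ x ∈ 𝓟, E ρ fun ζ => ind (x.1 ∈ ζ ∧ ∀ w ∈ KJZ1_cf 𝒞 ω x, w ∉ ζ) := by
    rw [← nsmul_eq_mul]
    refine card_nsmul_le_sum _ _ _ fun x hx => ?_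
    refine le_trans ?_ (KJZ1_E r0.le r1 x.1 _ (notMem_erase _ _))
    have h3 : ((KJZ1_cf 𝒞 ω x).card : ℝ) * ρ ≤ κ / 8 := by
      have := mul_le_mul_of_nonneg_right (hcf x hx) r0.le
      linarith only [hρ, this]
    nlinarith only [r0, h3]
  have k0 : 0 ≤ κ := le_trans (by positivity) hρ
  have h4 : (𝓟.card : ℝ) * (1 - κ / 8) ≤ (1 - κ / 2) * Λ + C * (D * X.card) + C * n / ρ := by
    refine le_of_mul_le_mul_left ?_ r0
    have : ρ * ((1 - κ / 2) * Λ + C * (D * X.card) + C * n / ρ) =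
        (1 - κ / 2) * (ρ * Λ) + (C * D * (ρ * X.card) + C * n) := by
      field_simp
      ring
    rw [this]
    linarith only [h1, h2]
  have n1 : 0 ≤ C * (D * X.card) := by positivity
  have n2 : 0 ≤ C * n / ρ := by positivity
  have h5 : 2 * C * n / ρ = 2 * (C * n / ρ) := by ring
  refine le_of_mul_le_mul_right (h4.trans ?_) (by linarith only [k1] : 0 < 1 - κ / 8)
  rw [h5]
  have n3 : 0 ≤ κ * Λ := mul_nonneg k0 hΛ0
  have n4 : 0 ≤ κ * (κ * Λ) := mul_nonneg k0 n3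
  have n5 : 0 ≤ (1 - κ) * (C * (D * X.card)) := mul_nonneg (by linarith only [k1]) n1
  have n6 : 0 ≤ (1 - κ) * (C * n / ρ) := mul_nonneg (by linarith only [k1]) n2
  nlinarith only [n1, n2, n3, n4, n5, n6]

end Pool.Agent.Work.MP_d4a230_co
end

-- merged part: Pool.Agent.Work.MP_d4a230_co.KJZ2
section
/-!
The deterministic count: kept inside edges of the core cost at least as many cross edges.
-/

namespace Pool.Agent.Work.MP_d4a230_co

open Finset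

variable {n r h k K0 : ℕ} {𝒞 : Finset (Finset (Sym2 (Fin n)))} {ω ω' J Z : Finset (Sym2 (Fin n))}

section Aux

variable {V : Type} [Fintype V] [DecidableEq V]

lemma KJZ2_star_card {A B : Finset (Sym2 V)} (hA : A ⊆ B) (u : V) :
    ((A ∩ star u).card : ℝ) ≤ dgE B u := by
  classical
  unfold dgE
  rw [sum_ind]
  have h : A ∩ star u ⊆ ((univ.erase u).filter fun a => s(u, a) ∈ B).image fun a => s(u, a) := by
    intro e he
    obtain ⟨h1, h2⟩ := Finset.mem_inter.1 he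
    obtain ⟨a, ha, rfl⟩ := Finset.mem_image.1 h2
    exact Finset.mem_image.2 ⟨a, Finset.mem_filter.2 ⟨ha, hA h1⟩, rfl⟩
  exact_mod_cast (Finset.card_le_card h).trans Finset.card_image_le

lemma KJZ2_inter_card (A : Finset (Sym2 V)) (u : V) :
    ((A ∩ star u).card : ℝ) = ∑ e ∈ A, ind (e ∈ star u) := by
  rw [sum_ind, Finset.filter_mem_eq_inter]

lemma KJZ2_sum_star (A : Finset (Sym2 V)) :
    ∑ u, ((A ∩ star u).card : ℝ) ≤ 2 * A.card := by
  simp only [KJZ2_inter_card]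
  rw [Finset.sum_comm]
  have h : ∀ e ∈ A, ∑ u, ind (e ∈ star u) ≤ 2 := by
    intro e _
    calc ∑ u, ind (e ∈ star u) ≤ ∑ u, ind (u ∈ e) :=
          Finset.sum_le_sum fun u _ => ind_mono fun h => (mem_star.1 h).1
      _ = (e.toFinset.card : ℝ) := by
          rw [sum_ind]
          congr 2
          ext x
          simp
      _ ≤ 2 := by
          rw [Sym2.card_toFinset]
          split_ifs <;> norm_num
  calc _ ≤ ∑ _e ∈ A, (2 : ℝ) := Finset.sum_le_sum h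
    _ = _ := by rw [Finset.sum_const, nsmul_eq_mul, mul_comm]

omit [Fintype V] in
lemma KJZ2_inter {𝒟 : Finset (Finset (Sym2 V))} (hnd : ∀ T ∈ 𝒟, ∀ e ∈ T, ¬ e.IsDiag)
    {B T T' : Finset (Sym2 V)} (hT : T ∈ 𝒟) (hT' : T' ∈ 𝒟) (hs : T' ⊆ B) (hne : T ≠ T')
    (ho : ¬ Ovl 𝒟 B T) : (T ∩ T').card ≤ 1 := by
  refine Finset.card_le_one.2 fun e he f hf => ?_
  by_contra hef
  obtain ⟨e1, e2⟩ := Finset.mem_inter.1 he
  obtain ⟨f1, f2⟩ := Finset.mem_inter.1 hf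
  have h1 : ∃ x ∈ e, x ∉ f := by
    by_contra hc
    exact hef (sym2_eq_of_subset (hnd T hT e e1) fun x hx => by
      by_contra hx'
      exact hc ⟨x, hx, hx'⟩)
  obtain ⟨x, hx, hx'⟩ := h1
  refine ho ⟨T', hT', hne.symm, hs, ?_⟩
  have h2 : insert x f.toFinset ⊆ vs T ∩ vs T' := by
    intro y hy
    rcases Finset.mem_insert.1 hy with rfl | hy
    · exact Finset.mem_inter.2 ⟨mem_vs.2 ⟨e, e1, hx⟩, mem_vs.2 ⟨e, e2, hx⟩⟩
    · have := Sym2.mem_toFinset.1 hy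
      exact Finset.mem_inter.2 ⟨mem_vs.2 ⟨f, f1, this⟩, mem_vs.2 ⟨f, f2, this⟩⟩
  have h3 := Finset.card_le_card h2
  rwa [Finset.card_insert_of_notMem (fun h => hx' (Sym2.mem_toFinset.1 h)),
    Sym2.card_toFinset_of_not_isDiag _ (hnd T hT f f1)] at h3

lemma KJZ2_atyp {A B : Finset (Sym2 V)} (hA : A ⊆ B) (hnd : ∀ e ∈ A, ¬ e.IsDiag) (Ty : V → Prop)
    [DecidablePred fun e : Sym2 V => ∀ u ∈ e, Ty u] {d : ℝ} (hd : ∀ u, dgE B u ≤ d) :
    (A.card : ℝ) ≤ (A.filter fun e => ∀ u ∈ e, Ty u).card + d * ∑ u, ind (¬ Ty u) := by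
  have h1 : ∀ e ∈ A, (1 : ℝ) ≤ ind (∀ u ∈ e, Ty u) + ∑ u, ind (¬ Ty u) * ind (e ∈ star u) := by
    intro e he
    have h0 : ∀ u ∈ (univ : Finset V), 0 ≤ ind (¬ Ty u) * ind (e ∈ star u) := fun u _ =>
      mul_nonneg (ind_nonneg _) (ind_nonneg _)
    by_cases h : ∀ u ∈ e, Ty u
    · rw [ind_pos h]
      linarith [Finset.sum_nonneg h0]
    · rw [ind_neg h, zero_add]
      have h' : ∃ u ∈ e, ¬ Ty u := by
        by_contra hc
        exact h fun u hu => by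
          by_contra hu'
          exact hc ⟨u, hu, hu'⟩
      obtain ⟨u, hu, hu'⟩ := h'
      refine le_trans ?_ (Finset.single_le_sum h0 (Finset.mem_univ u))
      rw [ind_pos hu', ind_pos (mem_star.2 ⟨hu, hnd e he⟩), mul_one]
  calc (A.card : ℝ) = ∑ _e ∈ A, (1 : ℝ) := by simp
    _ ≤ _ := Finset.sum_le_sum h1
    _ = (A.filter fun e => ∀ u ∈ e, Ty u).card +
        ∑ u, ind (¬ Ty u) * ((A ∩ star u).card : ℝ) := by
      rw [Finset.sum_add_distrib, sum_ind, Finset.sum_comm]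
      simp only [KJZ2_inter_card, Finset.mul_sum]
    _ ≤ _ := by
      rw [Finset.mul_sum]
      refine add_le_add le_rfl (Finset.sum_le_sum fun u _ => ?_)
      rw [mul_comm]
      exact mul_le_mul_of_nonneg_right ((KJZ2_star_card hA u).trans (hd u)) (ind_nonneg _)

open Classical in
/-- The good members through an element of `A` whose destroying element is related to it. -/
noncomputable def KJZ2_G (𝒟 : Finset (Finset (Sym2 V))) (ins : Sym2 V → Prop) (D1 : ℝ)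
    (B Y A : Finset (Sym2 V)) (R : Sym2 V → Sym2 V → Prop) : Finset (Finset (Sym2 V)) :=
  𝒟.filter fun T => ¬ Ovl 𝒟 B T ∧ ∃ e ∈ A, GoodT 𝒟 ins D1 B Y e T ∧ ∃ f ∈ T, f ∈ Y ∧ R e f

variable {𝒟 : Finset (Finset (Sym2 V))} {ins : Sym2 V → Prop} {D1 : ℝ} {B Y A : Finset (Sym2 V)}

omit [Fintype V] in
lemma KJZ2_mem {R : Sym2 V → Sym2 V → Prop} {T : Finset (Sym2 V)} :
    T ∈ KJZ2_G 𝒟 ins D1 B Y A R ↔ T ∈ 𝒟 ∧ ¬ Ovl 𝒟 B T ∧
      ∃ e ∈ A, GoodT 𝒟 ins D1 B Y e T ∧ ∃ f ∈ T, f ∈ Y ∧ R e f := by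
  unfold KJZ2_G
  simp only [Finset.mem_filter]

omit [Fintype V] in
lemma KJZ2_xfam (hnd : ∀ T ∈ 𝒟, ∀ e ∈ T, ¬ e.IsDiag) {R rel : Sym2 V → Sym2 V → Prop}
    {S S' : Finset (Sym2 V)}
    (hR : ∀ e ∈ A, ∀ f ∈ Y, ¬ e.IsDiag → ¬ f.IsDiag → R e f → e ∈ S ∧ f ∈ S' ∧ rel e f) :
    XFam 𝒟 D1 rel B S S' (KJZ2_G 𝒟 ins D1 B Y A R) := by
  refine ⟨fun T hT => (KJZ2_mem.1 hT).1, fun T hT => ?_, fun T hT T' hT' hne => ?_⟩
  · obtain ⟨h1, -, e, he, hg, f, hf, hfY, hr⟩ := KJZ2_mem.1 hT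
    obtain ⟨a1, a2, a3⟩ := hR e he f hfY (hnd T h1 e hg.1) (hnd T h1 f hf) hr
    exact ⟨hg.2.1, e, a1, hg.1, ⟨f, a2, hf, a3⟩, fun g h2 h3 => (hg.2.2.1 g h2 h3).2⟩
  · obtain ⟨h1, h2, -⟩ := KJZ2_mem.1 hT
    obtain ⟨h3, -, e, -, hg, -⟩ := KJZ2_mem.1 hT'
    exact KJZ2_inter hnd h1 h3 hg.2.1 hne h2

lemma KJZ2_good (hA : ∀ e ∈ A, ins e) :
    ∑ e ∈ A, ∑ T ∈ 𝒟, ind (GoodT 𝒟 ins D1 B Y e T) ≤
      (KJZ2_G 𝒟 ins D1 B Y A Far).card +
        ∑ u, ((KJZ2_G 𝒟 ins D1 B Y A fun e f => u ∈ e ∧ u ∈ f).card : ℝ) +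
        ∑ T ∈ 𝒟, ind (T ⊆ B ∧ Ovl 𝒟 B T) := by
  classical
  have hc : ∀ R : Sym2 V → Sym2 V → Prop, ((KJZ2_G 𝒟 ins D1 B Y A R).card : ℝ) =
      ∑ T ∈ 𝒟, ind (T ∈ KJZ2_G 𝒟 ins D1 B Y A R) := by
    intro R
    rw [sum_ind, Finset.filter_mem_eq_inter,
      Finset.inter_eq_right.2 fun T hT => (KJZ2_mem.1 hT).1]
  simp only [hc]
  rw [Finset.sum_comm, Finset.sum_comm (s := univ), ← Finset.sum_add_distrib,
    ← Finset.sum_add_distrib]
  refine Finset.sum_le_sum fun T hT => ?_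
  have h0 : ∀ u ∈ (univ : Finset V),
      0 ≤ ind (T ∈ KJZ2_G 𝒟 ins D1 B Y A fun e f => u ∈ e ∧ u ∈ f) := fun u _ => ind_nonneg _
  have h1 := Finset.sum_nonneg h0
  have h2 := ind_nonneg (T ∈ KJZ2_G 𝒟 ins D1 B Y A Far)
  have h3 := ind_nonneg (T ⊆ B ∧ Ovl 𝒟 B T)
  by_cases h : ∃ e ∈ A, GoodT 𝒟 ins D1 B Y e T
  · obtain ⟨e, he, hg⟩ := h
    rw [Finset.sum_eq_single_of_mem e he fun e' he' hne =>
      ind_neg fun hg' => (hg.2.2.1 e' hg'.1 hne).1 (hA e' he'), ind_pos hg]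
    by_cases ho : Ovl 𝒟 B T
    · rw [ind_pos (q := T ⊆ B ∧ Ovl 𝒟 B T) ⟨hg.2.1, ho⟩]
      linarith
    · obtain ⟨f, hf, hfY⟩ := hg.2.2.2
      by_cases hfar : Far e f
      · rw [ind_pos (KJZ2_mem.2 ⟨hT, ho, e, he, hg, f, hf, hfY, hfar⟩)]
        linarith
      · have h' : ∃ u ∈ e, u ∈ f := by
          by_contra hc
          exact hfar fun u hu hu' => hc ⟨u, hu, hu'⟩
        obtain ⟨u, hu, hu'⟩ := h'
        have h4 := Finset.single_le_sum h0 (Finset.mem_univ u)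
        rw [ind_pos (KJZ2_mem.2 ⟨hT, ho, e, he, hg, f, hf, hfY, hu, hu'⟩)] at h4
        linarith
  · rw [Finset.sum_eq_zero fun e he => ind_neg fun hg => h ⟨e, he, hg⟩]
    linarith

lemma KJZ2_lam (hA : A ⊆ B) (hnd : ∀ e ∈ A, ¬ e.IsDiag) (X : Finset V) (w : Sym2 V → ℝ) {M : ℝ}
    (w0 : ∀ e, 0 ≤ w e) (wM : ∀ e, w e ≤ M) :
    ∑ u ∈ X, ∑ e ∈ A, ind (u ∈ e) * w e ≤ ∑ e ∈ A, w e + M * ∑ v ∈ X, dto B v X := by
  have M0 : ∀ e ∈ A, 0 ≤ M := fun e _ => (w0 e).trans (wM e)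
  have h1 : ∀ e ∈ A, ∑ u ∈ X, ind (u ∈ e) * w e ≤
      w e + M * ∑ u ∈ X, ind (u ∈ e) * ind (∀ x ∈ e, x ∈ X) := by
    intro e he
    by_cases h : ∀ x ∈ e, x ∈ X
    · rw [ind_pos h, Finset.mul_sum]
      have : ∑ u ∈ X, ind (u ∈ e) * w e ≤ ∑ u ∈ X, M * (ind (u ∈ e) * 1) :=
        Finset.sum_le_sum fun u _ => by
          have := mul_le_mul_of_nonneg_left (wM e) (ind_nonneg (u ∈ e))
          linarith
      linarith [w0 e]
    · rw [ind_neg h]
      simp only [mul_zero, Finset.sum_const_zero, add_zero]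
      rw [← Finset.sum_mul, sum_ind]
      refine mul_le_of_le_one_left (w0 e) ?_
      have : (X.filter fun u => u ∈ e).card ≤ 1 := by
        refine Finset.card_le_one.2 fun a ha b hb => ?_
        by_contra hab
        obtain ⟨a1, a2⟩ := Finset.mem_filter.1 ha
        obtain ⟨b1, b2⟩ := Finset.mem_filter.1 hb
        refine h fun x hx => ?_
        rw [(Sym2.mem_and_mem_iff hab).1 ⟨a2, b2⟩] at hx
        rcases Sym2.mem_iff.1 hx with rfl | rfl
        exacts [a1, b1]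
      exact_mod_cast this
  have h2 : ∑ e ∈ A, ∑ u ∈ X, ind (u ∈ e) * ind (∀ x ∈ e, x ∈ X) ≤ ∑ v ∈ X, dto B v X := by
    rw [Finset.sum_comm]
    refine Finset.sum_le_sum fun u _ => ?_
    rw [← star_sum hnd (fun e => ind (∀ x ∈ e, x ∈ X)) u]
    unfold dto
    calc _ ≤ ∑ a ∈ univ.erase u, ind (a ∈ X) * ind (s(u, a) ∈ B) := by
          refine Finset.sum_le_sum fun a _ => ?_
          rw [← ind_and, ← ind_and]
          exact ind_mono fun h => ⟨h.2 a (Sym2.mem_mk_right u a), hA h.1⟩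
      _ = _ := by
          symm
          refine Finset.sum_subset_zero_on_sdiff (Finset.erase_subset_erase _ (Finset.subset_univ _))
            (fun a ha => ?_) fun a ha => ?_
          · obtain ⟨a1, a2⟩ := Finset.mem_sdiff.1 ha
            rw [ind_neg fun h => a2 (Finset.mem_erase.2 ⟨(Finset.mem_erase.1 a1).1, h⟩), zero_mul]
          · rw [ind_pos (Finset.mem_erase.1 ha).2, one_mul]
  rcases A.eq_empty_or_nonempty with rfl | ⟨e0, he0⟩
  · simp only [Finset.sum_empty, Finset.sum_const_zero, zero_add]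
    rcases X.eq_empty_or_nonempty with rfl | ⟨x, -⟩
    · simp
    · exact mul_nonneg ((w0 s(x, x)).trans (wM _)) (Finset.sum_nonneg fun v _ =>
        Finset.sum_nonneg fun a _ => ind_nonneg _)
  rw [Finset.sum_comm]
  refine (Finset.sum_le_sum h1).trans ?_
  rw [Finset.sum_add_distrib, ← Finset.mul_sum]
  exact add_le_add le_rfl (mul_le_mul_of_nonneg_left h2 (M0 e0 he0))

end Aux

/-- The final arithmetic. -/
lemma KJZ2_num {j b L Lb P a1 a2 x t M l κ C η g γ ε N D p c : ℝ} (hN : 0 < N)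
    (hD : p * N = D ^ 2) (j0 : 0 ≤ j) (b0 : 0 ≤ b) (D0 : 0 ≤ D) (hj : j ≤ ε * N)
    (hb : b * (η * D) ≤ 2 * j) (hL : l * j ≤ L) (L0 : 0 ≤ L) (M0 : 0 ≤ M) (C0 : 0 ≤ C)
    (η0 : 0 < η) (k0 : 0 ≤ κ) (k1 : κ ≤ 1) (hγ : γ ≤ κ / 8) (h1 : 16 ≤ κ * l) (x0 : 0 ≤ x)
    (h2 : 5 * g + 4 * M * ε / η ^ 2 + 4 * C / η ≤ κ * l / 16)
    (e1 : (1 - γ) * L ≤ a1 + (a2 + P) + t) (e2 : a1 ≤ g * (j + t)) (e3 : a2 ≤ g * (4 * j + t))
    (e4 : P ≤ (1 - κ / 4) * Lb + 2 * C * (D * b) + c) (e5 : Lb ≤ L + M * x)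
    (e6 : x ≤ p * (b * b) + t) : j ≤ (1 + 2 * g + M) * t + c := by
  have f1 : D * b ≤ 2 * j / η := by
    rw [le_div_iff₀ η0]
    linarith only [hb]
  have f2 : p * (b * b) ≤ 4 * ε * j / η ^ 2 := by
    rw [le_div_iff₀ (by positivity)]
    refine le_of_mul_le_mul_right ?_ hN
    have g1 : (b * (η * D)) ^ 2 ≤ (2 * j) ^ 2 := pow_le_pow_left₀ (by positivity) hb 2
    have g2 : j * j ≤ j * (ε * N) := mul_le_mul_of_nonneg_left hj j0
    calc p * (b * b) * η ^ 2 * N = (b * b) * η ^ 2 * (p * N) := by ring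
      _ = (b * (η * D)) ^ 2 := by rw [hD]; ring
      _ ≤ _ := by nlinarith only [g1, g2]
  have f3 : (1 - κ / 4) * Lb ≤ (1 - κ / 4) * L + M * x := by
    have g1 := mul_le_mul_of_nonneg_left e5 (by linarith only [k1] : 0 ≤ 1 - κ / 4)
    have g2 : 0 ≤ κ / 4 * (M * x) := by positivity
    linarith only [g1, g2]
  have f4 : M * x ≤ M * (4 * ε * j / η ^ 2 + t) := mul_le_mul_of_nonneg_left (by linarith only [e6, f2]) M0
  have f5 : 2 * C * (D * b) ≤ 2 * C * (2 * j / η) := mul_le_mul_of_nonneg_left f1 (by linarith only [C0])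
  have f6 := mul_le_mul_of_nonneg_right h2 j0
  have f7 := mul_le_mul_of_nonneg_right hγ L0
  have f8 := mul_le_mul_of_nonneg_left hL k0
  have f9 := mul_le_mul_of_nonneg_right h1 j0
  have f10 : (5 * g + 4 * M * ε / η ^ 2 + 4 * C / η) * j =
      5 * g * j + M * (4 * ε * j / η ^ 2) + 2 * C * (2 * j / η) := by ring
  nlinarith only [e1, e2, e3, e4, f3, f4, f5, f6, f7, f8, f9, f10]

theorem jz_det (S : Sys 𝒞 h k K0) {p q M l κ ξ C D1 ρ η g γ ε ζ : ℝ} {π : Fin n → Fin r}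
    (hp : 0 < p) (q0 : 0 ≤ q) (hω : ω' ⊆ ω) (hπ : Bal π ξ)
    (hl : ∀ e, Ins π e → l ≤ lam 𝒞 (Ins π) q e) (hM : ∀ e, lam 𝒞 (Ins π) q e ≤ M) (M0 : 0 ≤ M)
    (hdeg : ∀ v, dgE ω v ≤ 2 * (p * n))
    (heml : ∀ X Y : Finset (Fin n),
      ∑ v ∈ X, dto ω v Y ≤ p * (X.card * Y.card) + ζ * (p * (n : ℝ) ^ 2))
    (hov : ∑ T ∈ 𝒞, ind (T ⊆ ω ∧ Ovl 𝒞 ω T) ≤ ζ * (p * (n : ℝ) ^ 2))
    (hx1 : ∀ u, XP 𝒞 D1 (fun _ _ => True) (star u) (p * n) η g ζ ω)
    (hx2 : XP 𝒞 D1 Far (offd (Fin n)) (p * (n : ℝ) ^ 2) η g ζ ω)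
    (hBL : BL (r := r) 𝒞 q κ ξ C (p * n) ω)
    (hty : ∑ u, ind (¬ Typ π ξ (p * n) ω ω' u) ≤ ζ * n)
    (hin : inE π ω' ≤ ε * (p * (n : ℝ) ^ 2))
    (k1 : κ ≤ 1) (C0 : 0 ≤ C) (hD1 : 0 ≤ D1) (r0 : 0 < ρ) (r1 : ρ ≤ 1)
    (hρ : 8 * (h * k * D1 * ρ) ≤ κ) (η0 : 0 < η) (ε0 : 0 ≤ ε) (ε1 : ε ≤ 1) (ε2 : ε ≤ η)
    (g0 : 0 ≤ g) (ζ0 : 0 ≤ ζ) (hγ : γ ≤ κ / 8) (hκ : 0 ≤ κ) (h1 : 16 ≤ κ * l)
    (h2 : 5 * g + 4 * M * ε / η ^ 2 + 4 * C / η ≤ κ * l / 16)
    (hJZ : JZ 𝒞 (Ins π) (fun e => (1 - γ) * lam 𝒞 (Ins π) q e) D1 ω ω' J Z) :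
    (J.card : ℝ) ≤ Z.card + (3 + 2 * g + M) * ζ * (p * (n : ℝ) ^ 2) + 2 * C * n / ρ := by
  classical
  obtain ⟨hJ, hJi, hZ, hZd, hZi, hK⟩ := hJZ
  have D0 : 0 ≤ p * n := by positivity
  have N0 : 0 ≤ p * (n : ℝ) ^ 2 := by positivity
  have t0 : 0 ≤ ζ * (p * (n : ℝ) ^ 2) := mul_nonneg ζ0 N0
  have c0 : 0 ≤ 2 * C * n / ρ := by positivity
  obtain ⟨J1, hJ1⟩ : ∃ J1, J1 = J.filter fun e => ∀ u ∈ e, Typ π ξ (p * n) ω ω' u := ⟨_, rfl⟩
  have s1 : J1 ⊆ J := hJ1 ▸ Finset.filter_subset _ _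
  have s2 : J1 ⊆ ω := s1.trans (hJ.trans hω)
  have i1 : ∀ e ∈ J1, Ins π e := fun e he => hJi e (s1 he)
  have ty : ∀ e ∈ J1, ∀ u ∈ e, Typ π ξ (p * n) ω ω' u := fun e he =>
    (Finset.mem_filter.1 (hJ1 ▸ he)).2
  have a1 : (J.card : ℝ) ≤ J1.card + 2 * (ζ * (p * (n : ℝ) ^ 2)) := by
    have h3 := KJZ2_atyp (hJ.trans hω) (fun e he => (hJi e he).1) (Typ π ξ (p * n) ω ω') hdeg
    rw [← hJ1] at h3
    have h4 := mul_le_mul_of_nonneg_left hty (by linarith only [D0] : 0 ≤ 2 * (p * n))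
    linarith only [h3, h4]
  have z1 : ((Z ∩ offd (Fin n)).card : ℝ) ≤ Z.card := by
    exact_mod_cast Finset.card_le_card Finset.inter_subset_left
  have z0 : (0 : ℝ) ≤ (Z ∩ offd (Fin n)).card := Nat.cast_nonneg _
  have gM : 0 ≤ (2 * g + M) * (ζ * (p * (n : ℝ) ^ 2)) := by positivity
  rcases le_or_gt (J1.card : ℝ) (Z ∩ offd (Fin n)).card with hzj | hzj
  · linarith only [t0, c0, a1, z1, gM, hzj]
  have hj : (J1.card : ℝ) ≤ ε * (p * (n : ℝ) ^ 2) := by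
    refine le_trans ?_ hin
    unfold inE
    rw [sum_ind]
    exact_mod_cast Finset.card_le_card fun e he => Finset.mem_filter.2 ⟨hJ (s1 he), i1 e he⟩
  have hN : 0 < p * (n : ℝ) ^ 2 := by
    rcases N0.lt_or_eq with h | h
    · exact h
    · rw [← h, mul_zero] at hj
      linarith only [hzj, hj]
  have hε1 := mul_le_mul_of_nonneg_right ε1 N0
  have hε2 := mul_le_mul_of_nonneg_right ε2 N0
  have dj : Disjoint J1 Z := (hZd.mono_right (s1.trans hJ)).symm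
  have w0 : ∀ e, 0 ≤ lam 𝒞 (Ins π) q e := fun e =>
    mul_nonneg q0 (Finset.sum_nonneg fun _ _ => ind_nonneg _)
  have e1 := ((Finset.mul_sum J1 (lam 𝒞 (Ins π) q) (1 - γ)).trans_le
    (Finset.sum_le_sum fun e he => hK e (s1 he))).trans (KJZ2_good i1)
  have e2 : ((KJZ2_G 𝒞 (Ins π) D1 ω Z J1 Far).card : ℝ) ≤
      g * (J1.card + ζ * (p * (n : ℝ) ^ 2)) := by
    have := hx2 J1
      (fun e he => Finset.mem_inter.2 ⟨s2 he, Finset.mem_filter.2 ⟨Finset.mem_univ _, (i1 e he).1⟩⟩)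
      (Z ∩ offd (Fin n)) (Finset.inter_subset_inter hZ le_rfl)
      (dj.mono_right Finset.inter_subset_left) (by linarith only [hj, hN, hε1]) (by linarith only [hzj, hj, hN, hε1])
      ((min_le_left _ _).trans (by linarith only [hj, hε2])) _
      (KJZ2_xfam (ins := Ins π) (Y := Z) (A := J1) (R := Far) S.nd fun e he f hf _ h2 h3 =>
        ⟨he, Finset.mem_inter.2 ⟨hf, Finset.mem_filter.2 ⟨Finset.mem_univ _, h2⟩⟩, h3⟩)
    rwa [max_eq_left hzj.le] at this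
  obtain ⟨X, hX⟩ : ∃ X : Finset (Fin n), X = univ.filter fun u => η * (p * n) <
      min ((J1 ∩ star u).card : ℝ) (Z ∩ offd (Fin n) ∩ star u).card := ⟨_, rfl⟩
  have mX : ∀ u, u ∈ X ↔ η * (p * n) <
      min ((J1 ∩ star u).card : ℝ) (Z ∩ offd (Fin n) ∩ star u).card := fun u => by
    rw [hX, Finset.mem_filter]
    exact and_iff_right (Finset.mem_univ _)
  have e3 : ∑ u ∈ Xᶜ, ((KJZ2_G 𝒞 (Ins π) D1 ω Z J1 fun e f => u ∈ e ∧ u ∈ f).card : ℝ) ≤
      g * (4 * J1.card + ζ * (p * (n : ℝ) ^ 2)) := by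
    have b1 : ∀ u ∈ Xᶜ, ((KJZ2_G 𝒞 (Ins π) D1 ω Z J1 fun e f => u ∈ e ∧ u ∈ f).card : ℝ) ≤
        g * ((J1 ∩ star u).card + (Z ∩ offd (Fin n) ∩ star u).card + ζ * (p * n)) := by
      intro u hu
      have := hx1 u (J1 ∩ star u) (Finset.inter_subset_inter s2 le_rfl)
        (Z ∩ offd (Fin n) ∩ star u)
        (Finset.inter_subset_inter (Finset.inter_subset_left.trans hZ) le_rfl)
        (dj.mono Finset.inter_subset_left (Finset.inter_subset_left.trans Finset.inter_subset_left))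
        ((KJZ2_star_card s2 u).trans (hdeg u))
        ((KJZ2_star_card (Finset.inter_subset_left.trans hZ) u).trans (hdeg u))
        (not_lt.1 fun h => Finset.mem_compl.1 hu ((mX u).2 h)) _
        (KJZ2_xfam (ins := Ins π) (Y := Z) (A := J1) (R := fun e f => u ∈ e ∧ u ∈ f) S.nd
          fun e he f hf h1 h2 h3 => ⟨Finset.mem_inter.2 ⟨he, mem_star.2 ⟨h3.1, h1⟩⟩,
            Finset.mem_inter.2 ⟨Finset.mem_inter.2 ⟨hf,
              Finset.mem_filter.2 ⟨Finset.mem_univ _, h2⟩⟩, mem_star.2 ⟨h3.2, h2⟩⟩, trivial⟩)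
      refine this.trans (mul_le_mul_of_nonneg_left (add_le_add ?_ le_rfl) g0)
      exact max_le_add_of_nonneg (Nat.cast_nonneg _) (Nat.cast_nonneg _)
    refine (Finset.sum_le_sum b1).trans ((Finset.sum_le_sum_of_subset_of_nonneg
      (Finset.subset_univ _) fun u _ _ => by (clear * - g0 hp ζ0; positivity)).trans ?_)
    rw [← Finset.mul_sum, Finset.sum_add_distrib, Finset.sum_add_distrib, Finset.sum_const,
      Finset.card_univ, Fintype.card_fin, nsmul_eq_mul]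
    refine mul_le_mul_of_nonneg_left ?_ g0
    have b2 := KJZ2_sum_star J1
    have b3 := KJZ2_sum_star (Z ∩ offd (Fin n))
    linarith only [hzj, b2, b3]
  have hb : (X.card : ℝ) * (η * (p * n)) ≤ 2 * J1.card := by
    calc (X.card : ℝ) * (η * (p * n)) = ∑ _u ∈ X, η * (p * n) := by
          rw [Finset.sum_const, nsmul_eq_mul]
      _ ≤ ∑ u ∈ X, ((J1 ∩ star u).card : ℝ) :=
          Finset.sum_le_sum fun u hu => ((mX u).1 hu).le.trans (min_le_left _ _)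
      _ ≤ ∑ u, ((J1 ∩ star u).card : ℝ) := Finset.sum_le_sum_of_subset_of_nonneg
          (Finset.subset_univ _) fun u _ _ => Nat.cast_nonneg _
      _ ≤ _ := KJZ2_sum_star J1
  have tX : ∀ u ∈ X, Typ π ξ (p * n) ω ω' u ∧ dgE ω u ≤ 2 * (p * n) := by
    intro u hu
    refine ⟨?_, hdeg u⟩
    have b1 : (0 : ℝ) < (J1 ∩ star u).card :=
      ((mul_nonneg η0.le D0).trans_lt ((mX u).1 hu)).trans_le (min_le_left _ _)
    obtain ⟨e, he⟩ := Finset.card_pos.1 (by exact_mod_cast b1 : 0 < (J1 ∩ star u).card)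
    exact ty e (Finset.mem_inter.1 he).1 u (mem_star.1 (Finset.mem_inter.1 he).2).1
  have e4 := bl_avg S hBL hπ X s2 hω i1 tX
    ((X.sigma fun u => KJZ2_G 𝒞 (Ins π) D1 ω Z J1 fun e f => u ∈ e ∧ u ∈ f).map
      (Equiv.sigmaEquivProd _ _).toEmbedding) (fun x hx => by
        obtain ⟨⟨u, T⟩, hy, rfl⟩ := Finset.mem_map.1 hx
        obtain ⟨hu, hT⟩ := Finset.mem_sigma.1 hy
        obtain ⟨b1, b2, e, he, hg, f, hf, hfZ, hue, huf⟩ := KJZ2_mem.1 hT
        exact ⟨hu, hg.2.1, b2, e, he, hue,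
          ⟨b1, hg.1, fun g b3 b4 => (hg.2.2.1 g b3 b4).1, fun g b3 _ => hg.2.1 b3, f, hf, huf,
            fun b3 => hZi f hfZ (b3 ▸ i1 e he), Finset.disjoint_left.1 hZd hfZ⟩,
          fun g b3 b4 => (hg.2.2.1 g b3 b4).2⟩) q0 k1 C0 D0 hD1 r0 r1 hρ
  rw [Finset.card_map, Finset.card_sigma, Nat.cast_sum] at e4
  rw [← Finset.sum_compl_add_sum X] at e1
  have hL : l * J1.card ≤ ∑ e ∈ J1, lam 𝒞 (Ins π) q e := by
    calc l * J1.card = ∑ _e ∈ J1, l := by rw [Finset.sum_const, nsmul_eq_mul, mul_comm]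
      _ ≤ _ := Finset.sum_le_sum fun e he => hl e (i1 e he)
  have key := KJZ2_num hN (by ring : p * (p * (n : ℝ) ^ 2) = (p * n) ^ 2) (Nat.cast_nonneg _)
    (Nat.cast_nonneg _) D0 hj hb hL (Finset.sum_nonneg fun e _ => w0 e) M0 C0 η0 hκ k1 hγ h1
    (Finset.sum_nonneg fun v _ => Finset.sum_nonneg fun a _ => ind_nonneg _) h2
    (e1.trans (add_le_add le_rfl hov)) e2 e3 e4
    (KJZ2_lam s2 (fun e he => (i1 e he).1) X _ w0 hM) (heml X X)
  linarith only [a1, key]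

end Pool.Agent.Work.MP_d4a230_co
end

-- merged part: Pool.Agent.Work.MP_d4a230_co.KJZ
section
/-!
With high probability kept inside edges of the core do not pay.
-/

namespace Pool.Agent.Work.MP_d4a230_co

open Finset Filter Topology

variable {W : Type} [Fintype W] [DecidableEq W] {H : SimpleGraph W} [DecidableRel H.Adj] {r : ℕ}

lemma KJZ_typ {n : ℕ} {π : Fin n → Fin r} {ξ ξ' D : ℝ} (hξ : ξ ≤ ξ') (hD : 0 ≤ D)
    {N N' : Finset (Sym2 (Fin n))} {u : Fin n} (h : Typ π ξ D N N' u) : Typ π ξ' D N N' u :=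
  ⟨fun j => (h.1 j).trans (mul_le_mul_of_nonneg_right (by linarith) hD), h.2⟩

lemma KJZ_lam {ι : Type} [DecidableEq ι] {𝒞 : Finset (Finset ι)} {𝓔 : Finset ι} {ins : ι → Prop}
    {q M l : ℝ} {k : ℕ} (G : Big 𝒞 𝓔 ins q k M l) (e : ι) : lam 𝒞 ins q e ≤ M :=
  le_trans (mul_le_mul_of_nonneg_left (Finset.sum_le_sum fun _ _ => ind_mono fun h => h.1) G.q0)
    (G.up e)

lemma KJZ_h2 {κ c η K C ε Λ : ℝ} (κ0 : 0 < κ) (c0 : 0 < c) (η0 : 0 < η) (K1 : 1 ≤ K)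
    (ε0 : 0 ≤ ε) (hε : ε ≤ κ * c * η ^ 2 / (400 * K)) (Λ1 : 1 ≤ Λ)
    (hΛ : 192 * C / (η * κ * c) ≤ Λ) :
    5 * (κ * c / 240 * Λ) + 4 * (K * (Λ + 1)) * ε / η ^ 2 + 4 * C / η ≤ κ * (c * Λ) / 16 := by
  have K0 : 0 < K := by linarith
  have a1 : 4 * C / η ≤ κ * (c * Λ) / 48 := by
    rw [div_le_iff₀ (by positivity)] at hΛ
    rw [div_le_iff₀ η0]
    linarith
  have a2 : 4 * (K * (Λ + 1)) * ε / η ^ 2 ≤ κ * (c * Λ) / 48 := by
    rw [le_div_iff₀ (by positivity)] at hε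
    rw [div_le_iff₀ (by positivity)]
    have b1 : 4 * (K * (Λ + 1)) * ε ≤ 8 * Λ * (ε * K) := by
      have := mul_le_mul_of_nonneg_left Λ1 (mul_nonneg ε0 K0.le)
      linarith
    have b2 := mul_le_mul_of_nonneg_left hε (by linarith : (0 : ℝ) ≤ Λ)
    have b3 : 0 ≤ Λ * (κ * c * η ^ 2) := by positivity
    linarith only [b1, b2, b3]
  linarith only [a1, a2]

theorem jz (B : HBal H) (C : ECrit H r) {σ : ℝ} (hσ : 0 < σ) : ∃ γ ε δ Λ0 : ℝ,
    0 < γ ∧ γ ≤ 1 / 2 ∧ 0 < ε ∧ 0 < δ ∧ ∀ (p : ℕ → ℝ) (μ Λ : ℝ), GReg H p μ Λ → Λ0 ≤ Λ →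
      ∀ ζ : ℝ, 0 < ζ → Whp p fun n ω => ∀ ω' ⊆ ω,
        (∀ v, (1 - 1 / (r : ℝ) - δ) * (p n * n) ≤ dgE ω' v) →
        (∃ π0 : Fin n → Fin r, inE π0 ω' ≤ ε * (p n * (n : ℝ) ^ 2)) →
        ∃ π : Fin n → Fin r, Bal π σ ∧ ∀ J Z, JZ (copies H (Fin n)) (Ins π)
          (fun e => (1 - γ) * lam (copies H (Fin n)) (Ins π) (p n ^ (H.edgeFinset.card - 1)) e)
          (3 * (kz W * (Λ + 1)) + 1) ω ω' J Z →
          (J.card : ℝ) ≤ Z.card + ζ * (p n * (n : ℝ) ^ 2) := by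
  obtain ⟨κ, ξ0, Cc, κ0, κ1, hξ0, C0, hbl⟩ := bl_whp B C
  obtain ⟨c, σb, c0, hσb, hbig⟩ := big_of B C
  have h3 := B.h3
  have hk := B.hk
  have hr : 2 ≤ r := C.two_le (by omega)
  have hr' : (2 : ℝ) ≤ r := by exact_mod_cast hr
  have r0 : (0 : ℝ) < r := by linarith only [hr']
  have hK : 1 ≤ kz W := Nat.one_le_two_pow
  have hK' : (1 : ℝ) ≤ kz W := by exact_mod_cast hK
  obtain ⟨η, η0, Λ1, hxp⟩ := xp_whp (Fintype.card W) H.edgeFinset.card (kz W) hK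
    (γ := κ * c / 240) (by positivity)
  obtain ⟨ξ, ξp, ξa, ξb⟩ : ∃ ξ : ℝ, 0 < ξ ∧ ξ ≤ ξ0 ∧ ξ ≤ 1 / (6 * (r : ℝ) ^ 2) :=
    ⟨min ξ0 (1 / (6 * (r : ℝ) ^ 2)), lt_min hξ0 (by positivity), min_le_left _ _, min_le_right _ _⟩
  obtain ⟨s, sp, sa, sb, sc⟩ : ∃ s : ℝ, 0 < s ∧ s ≤ σ ∧ s ≤ σb ∧ s ≤ ξ / 2 :=
    ⟨min σ (min σb (ξ / 2)), lt_min hσ (lt_min hσb (half_pos ξp)), min_le_left _ _,
      (min_le_right _ _).trans (min_le_left _ _), (min_le_right _ _).trans (min_le_right _ _)⟩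
  obtain ⟨δ, δp, δa, δb⟩ : ∃ δ : ℝ, 0 < δ ∧ δ ≤ s ^ 2 / 4 ∧ δ ≤ 1 / (6 * (r : ℝ)) :=
    ⟨min (s ^ 2 / 4) (1 / (6 * (r : ℝ))), lt_min (by positivity) (by positivity), min_le_left _ _,
      min_le_right _ _⟩
  obtain ⟨ε, εp, εa, εb, εc, εd⟩ : ∃ ε : ℝ, 0 < ε ∧ ε ≤ s ^ 2 / 8 ∧ ε ≤ η ∧ ε ≤ 1 ∧
      ε ≤ κ * c * η ^ 2 / (400 * kz W) :=
    ⟨min (min (s ^ 2 / 8) η) (min 1 (κ * c * η ^ 2 / (400 * kz W))),
      lt_min (lt_min (by positivity) η0) (lt_min one_pos (by positivity)),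
      (min_le_left _ _).trans (min_le_left _ _), (min_le_left _ _).trans (min_le_right _ _),
      (min_le_right _ _).trans (min_le_left _ _), (min_le_right _ _).trans (min_le_right _ _)⟩
  refine ⟨κ / 8, ε, δ, max (max Λ1 1) (max (16 / (κ * c)) (192 * Cc / (η * κ * c))),
    by positivity, by linarith only [κ1], εp, δp, fun p μ Λ R hΛ ζ hζ => ?_⟩
  have L1 : Λ1 ≤ Λ := (le_max_left _ _).trans ((le_max_left _ _).trans hΛ)
  have L2 : 1 ≤ Λ := (le_max_right _ _).trans ((le_max_left _ _).trans hΛ)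
  have L3 : 16 / (κ * c) ≤ Λ := (le_max_left _ _).trans ((le_max_right _ _).trans hΛ)
  have L4 : 192 * Cc / (η * κ * c) ≤ Λ := (le_max_right _ _).trans ((le_max_right _ _).trans hΛ)
  have Λ0 : 0 < Λ := by linarith only [L2]
  obtain ⟨A, hA⟩ : ∃ A : ℝ, A = 3 + 2 * (κ * c / 240 * Λ) + kz W * (Λ + 1) := ⟨_, rfl⟩
  have A0 : 0 < A := by rw [hA]; positivity
  obtain ⟨z1, z1p, z1a⟩ : ∃ z1 : ℝ, 0 < z1 ∧ A * z1 = ζ / 2 :=
    ⟨ζ / 2 / A, by positivity, by field_simp⟩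
  obtain ⟨z2, z2p, z2a, z2b⟩ : ∃ z2 : ℝ, 0 < z2 ∧ r * z2 ≤ s ^ 2 / 2 ∧ 2 * r * z2 / ξ ≤ z1 := by
    refine ⟨min (s ^ 2 / 2 / r) (z1 * ξ / (2 * r)), lt_min (by positivity) (by positivity), ?_, ?_⟩
    · rw [mul_comm, ← le_div_iff₀ r0]
      exact min_le_left _ _
    · rw [div_le_iff₀ ξp, mul_comm, ← le_div_iff₀ (by positivity)]
      exact min_le_right _ _
  have D1 : (1 : ℝ) ≤ 3 * (kz W * (Λ + 1)) + 1 := by
    have : (0 : ℝ) ≤ kz W * (Λ + 1) := by positivity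
    linarith only [this]
  have P1 : (1 : ℝ) ≤ (Fintype.card W : ℝ) * H.edgeFinset.card * (3 * (kz W * (Λ + 1)) + 1) := by
    have a1 : (1 : ℝ) ≤ Fintype.card W := by exact_mod_cast (by omega : 1 ≤ Fintype.card W)
    have a2 : (1 : ℝ) ≤ H.edgeFinset.card := by exact_mod_cast (by omega : 1 ≤ H.edgeFinset.card)
    exact one_le_mul_of_one_le_of_one_le (one_le_mul_of_one_le_of_one_le a1 a2) D1
  obtain ⟨ρ, ρ0, ρ1, ρa⟩ : ∃ ρ : ℝ, 0 < ρ ∧ ρ ≤ 1 ∧
      8 * ((Fintype.card W : ℝ) * H.edgeFinset.card * (3 * (kz W * (Λ + 1)) + 1) * ρ) ≤ κ := by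
    obtain ⟨P, hP⟩ : ∃ P : ℝ,
      P = (Fintype.card W : ℝ) * H.edgeFinset.card * (3 * (kz W * (Λ + 1)) + 1) := ⟨_, rfl⟩
    rw [← hP] at P1 ⊢
    have P0 : 0 < P := by linarith only [P1]
    refine ⟨κ / (8 * P), by positivity, ?_, le_of_eq (by field_simp)⟩
    rw [div_le_one (by positivity)]
    linarith only [κ1, P1]
  have p0 := R.p0
  have p1 := R.p1
  have hw := Whp.and p0 p1 (Whp.and p0 p1 (Whp.and p0 p1 (deg_whp R) (eml_whp R z1p))
    (Whp.and p0 p1 (eml_whp R z2p) (ovl_whp R z1p)))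
    (Whp.and p0 p1 (hxp p _ μ Λ R L1 z1 z1p) (hbl p μ Λ R))
  refine hw.mono p0 p1 ?_
  filter_upwards [hbig p μ Λ R, R.inf.eventually (eventually_ge_atTop 1),
    R.inf.eventually (eventually_ge_atTop (4 * Cc / (ρ * ζ)))] with n hG hn1 hn2
  rintro ω ⟨⟨⟨w1, w2⟩, w3, w4⟩, ⟨w5, w6⟩, w7⟩ ω' hω hdeg ⟨π0, hπ0⟩
  have hp : 0 < p n := by
    rcases (p0 n).eq_or_lt with h | h
    · rw [← h, zero_mul] at hn1
      linarith only [hn1]
    · exact h
  have hrξ : δ + r * ξ ≤ 1 / (3 * (r : ℝ)) := by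
    have a1 : r * ξ ≤ 1 / (6 * (r : ℝ)) := by
      refine (mul_le_mul_of_nonneg_left ξb r0.le).trans (le_of_eq ?_)
      field_simp
    have a2 : 1 / (3 * (r : ℝ)) = 1 / (6 * (r : ℝ)) + 1 / (6 * (r : ℝ)) := by
      field_simp
      norm_num
    linarith only [δb, a1, a2]
  obtain ⟨π, q1, q2, q3⟩ := cut_struct (by omega) hp hω w3 hdeg hπ0 sp.le ξp (by linarith only [δa, εa, z2a]) sc hrξ
  refine ⟨π, q2.mono sa, fun J Z hJZ => ?_⟩
  have G := hG π (q2.mono sb)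
  have hty : ∑ u, ind (¬ Typ π ξ0 (p n * n) ω ω' u) ≤ z1 * n :=
    ((Finset.sum_le_sum fun u _ => ind_mono fun h h' =>
      h (KJZ_typ ξa (by linarith only [hn1]) h')).trans q3).trans
      (mul_le_mul_of_nonneg_right z2b (Nat.cast_nonneg n))
  have key := jz_det (R.sys n) hp G.q0 hω (q2.mono (by linarith only [ξa, sp, sc] : s ≤ ξ0)) G.low (KJZ_lam G)
    (by linarith only [D1, G.M1]) w1 w2 w4 w5 w6 w7 hty q1 κ1 C0 (by linarith only [D1]) ρ0 ρ1 ρa η0 εp.le εc εb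
    (by positivity) z1p.le le_rfl κ0.le
    (by rw [div_le_iff₀ (by positivity)] at L3; linarith only [L3])
    (KJZ_h2 κ0 c0 η0 hK' εp.le εd L2 L4) hJZ
  rw [← hA, z1a] at key
  have last : 2 * Cc * n / ρ ≤ ζ / 2 * (p n * (n : ℝ) ^ 2) := by
    rw [div_le_iff₀ (by positivity)] at hn2
    rw [div_le_iff₀ ρ0]
    have := mul_le_mul_of_nonneg_right hn2 (Nat.cast_nonneg (α := ℝ) n)
    linarith only [this]
  linarith only [key, last]

end Pool.Agent.Work.MP_d4a230_co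
end
end
end

-- merged part: Pool.Agent.Work.MP_d4a230_co.KSym
section
-- merged part: Pool.Agent.Work.MP_d4a230_co.KMob
section
/-!
Moebius expansion of a function of an incomplete labelling.
-/

namespace Pool.Agent.Work.MP_d4a230_co

open Finset

variable {α L : Type} [Fintype α] [DecidableEq α]

/-- The support of an incomplete labelling. -/
def supp (c : α → Option L) : Finset α := univ.filter fun a => (c a).isSome

/-- Restriction of an incomplete labelling. -/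
def restr (U : Finset α) (c : α → Option L) : α → Option L := fun a => if a ∈ U then c a else none

/-- The labelling `c` extends `c'`. -/
def Below (c' c : α → Option L) : Prop := ∀ a, c' a ≠ none → c a = c' a

/-- The Moebius transform. -/
noncomputable def mob (F : (α → Option L) → ℝ) (c : α → Option L) : ℝ :=
  ∑ U ∈ (supp c).powerset, (-1 : ℝ) ^ ((supp c).card - U.card) * F (restr U c)

omit [DecidableEq α] in
lemma mem_supp {c : α → Option L} {a : α} : a ∈ supp c ↔ c a ≠ none := by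
  simp [supp, Option.isSome_iff_ne_none]

lemma KMob_supp_restr {c : α → Option L} {W : Finset α} (h : W ⊆ supp c) :
    supp (restr W c) = W := by
  ext a
  rw [mem_supp]
  unfold restr
  by_cases ha : a ∈ W
  · rw [if_pos ha]
    exact ⟨fun _ => ha, fun _ => mem_supp.1 (h ha)⟩
  · rw [if_neg ha]
    simp [ha]

omit [Fintype α] in
lemma KMob_restr_restr (c : α → Option L) {U W : Finset α} (h : U ⊆ W) :
    restr U (restr W c) = restr U c := by
  funext a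
  unfold restr
  by_cases ha : a ∈ U
  · rw [if_pos ha, if_pos ha, if_pos (h ha)]
  · rw [if_neg ha, if_neg ha]

lemma KMob_restr_supp (c : α → Option L) : restr (supp c) c = c := by
  funext a
  unfold restr
  by_cases ha : a ∈ supp c
  · rw [if_pos ha]
  · rw [if_neg ha]
    rw [mem_supp, not_not] at ha
    exact ha.symm

omit [Fintype α] in
lemma KMob_inv (S : Finset α) (f : Finset α → ℝ) :
    ∑ W ∈ S.powerset, ∑ U ∈ W.powerset, (-1 : ℝ) ^ (W.card - U.card) * f U = f S := by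
  induction S using Finset.induction_on generalizing f with
  | empty => simp
  | insert a S ha ih =>
    rw [Finset.sum_powerset_insert ha, ← Finset.sum_add_distrib, ← ih fun U => f (insert a U)]
    refine Finset.sum_congr rfl fun W hW => ?_
    have haW : a ∉ W := fun h => ha (Finset.mem_powerset.1 hW h)
    rw [Finset.sum_powerset_insert haW, ← Finset.sum_add_distrib, ← Finset.sum_add_distrib]
    refine Finset.sum_congr rfl fun U hU => ?_
    have hUW := Finset.mem_powerset.1 hU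
    have haU : a ∉ U := fun h => haW (hUW h)
    rw [Finset.card_insert_of_notMem haW, Finset.card_insert_of_notMem haU,
      Nat.add_sub_add_right, Nat.sub_add_comm (Finset.card_le_card hUW), pow_succ]
    ring

lemma KMob_ind_forall {κ : Type} (s : Finset κ) (q : κ → Prop) :
    ind (∀ a ∈ s, q a) = ∏ a ∈ s, ind (q a) := by
  by_cases h : ∀ a ∈ s, q a
  · rw [ind_pos h, Finset.prod_eq_one fun a ha => ind_pos (h a ha)]
  · rw [ind_neg h]
    push Not at h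
    obtain ⟨a, ha, hq⟩ := h
    exact (Finset.prod_eq_zero ha (ind_neg hq)).symm

lemma KMob_sum_single {B : Type} [Fintype B] (v : B → ℝ) (b0 : B) :
    ∑ b, v b * ind (b = b0) = v b0 := by
  rw [Finset.sum_eq_single b0, ind_pos rfl, mul_one]
  · intro b _ hb
    rw [ind_neg hb, mul_zero]
  · intro h
    exact absurd (Finset.mem_univ _) h

omit [Fintype α] in
lemma KMob_count (S : Finset α) {J : ℕ} (hJ : J + 1 ≤ S.card) :
    (S.powerset.filter fun W => W.card ≤ J).card ≤ (S.powersetCard (J + 1)).card * 2 ^ (J + 1) := by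
  have h1 : (S.powerset.filter fun W => W.card ≤ J) ⊆
      (S.powersetCard (J + 1)).biUnion Finset.powerset := by
    intro W hW
    rw [Finset.mem_filter, Finset.mem_powerset] at hW
    obtain ⟨T, h1, h2, h3⟩ := Finset.exists_subsuperset_card_eq hW.1 (Nat.le_succ_of_le hW.2) hJ
    exact Finset.mem_biUnion.2 ⟨T, Finset.mem_powersetCard.2 ⟨h2, h3⟩, Finset.mem_powerset.2 h1⟩
  refine (Finset.card_le_card h1).trans (Finset.card_biUnion_le.trans (le_of_eq ?_))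
  rw [Finset.sum_congr rfl fun T hT => by
    rw [Finset.card_powerset, (Finset.mem_powersetCard.1 hT).2], Finset.sum_const, smul_eq_mul]

lemma abs_mob_le {F : (α → Option L) → ℝ} (hF : ∀ c, |F c| ≤ 1) (c : α → Option L) :
    |mob F c| ≤ 2 ^ (supp c).card := by
  unfold mob
  refine (Finset.abs_sum_le_sum_abs _ _).trans ?_
  have h : ∀ U ∈ (supp c).powerset,
      |(-1 : ℝ) ^ ((supp c).card - U.card) * F (restr U c)| ≤ 1 := fun U _ => by
    rw [abs_mul, abs_pow, abs_neg, abs_one, one_pow, one_mul]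
    exact hF _
  refine (Finset.sum_le_card_nsmul _ _ 1 h).trans (le_of_eq ?_)
  rw [Finset.card_powerset]
  simp

variable [Fintype L]

/-- The labellings below `c` with support `W`: exactly one if `W` is in the support of `c`. -/
lemma sum_below (c : α → Option L) (W : Finset α) (g : (α → Option L) → ℝ) :
    ∑ c' : α → Option L, ind (supp c' = W) * (ind (Below c' c) * g c') =
      ind (W ⊆ supp c) * g (restr W c) := by
  rw [Finset.sum_eq_single (restr W c)]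
  · by_cases h : W ⊆ supp c
    · have hb : Below (restr W c) c := by
        intro a ha
        unfold restr at ha ⊢
        by_cases haW : a ∈ W
        · rw [if_pos haW]
        · rw [if_neg haW] at ha
          exact absurd rfl ha
      rw [ind_pos h, ind_pos (KMob_supp_restr h), ind_pos hb, one_mul]
    · rw [ind_neg h, zero_mul, ind_neg, zero_mul]
      intro h1
      apply h
      intro a ha
      have h2 := ha
      rw [← h1, mem_supp] at h2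
      unfold restr at h2
      rw [if_pos ha] at h2
      exact mem_supp.2 h2
  · intro c' _ hc'
    by_cases h1 : supp c' = W
    · rw [ind_neg (q := Below c' c), zero_mul, mul_zero]
      intro h2
      apply hc'
      funext a
      unfold restr
      by_cases ha : a ∈ W
      · rw [if_pos ha]
        exact (h2 a (mem_supp.1 (h1 ▸ ha))).symm
      · rw [if_neg ha]
        rw [← h1, mem_supp, not_not] at ha
        exact ha
    · rw [ind_neg h1, zero_mul]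
  · intro h
    exact absurd (Finset.mem_univ _) h

lemma KMob_group (P : Finset α → Prop) (c : α → Option L) (g : (α → Option L) → ℝ) :
    ∑ c' : α → Option L, ind (P (supp c')) * (ind (Below c' c) * g c') =
      ∑ W : Finset α, ind (P W) * (ind (W ⊆ supp c) * g (restr W c)) := by
  simp only [← sum_below, Finset.mul_sum]
  rw [Finset.sum_comm]
  refine Finset.sum_congr rfl fun c' _ => ?_
  rw [Finset.sum_eq_single (supp c'), ind_pos rfl, one_mul]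
  · intro W _ hW
    rw [ind_neg (Ne.symm hW), zero_mul, mul_zero]
  · intro h
    exact absurd (Finset.mem_univ _) h

lemma KMob_group' (P : Finset α → Prop) (c : α → Option L) (g : (α → Option L) → ℝ) :
    ∑ c' : α → Option L, ind (P (supp c')) * (ind (Below c' c) * g c') =
      ∑ W ∈ (supp c).powerset, ind (P W) * g (restr W c) := by
  rw [KMob_group, ← Finset.sum_subset (Finset.subset_univ (supp c).powerset)]
  · refine Finset.sum_congr rfl fun W hW => ?_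
    rw [ind_pos (Finset.mem_powerset.1 hW), one_mul]
  · intro W _ hW
    rw [ind_neg fun h => hW (Finset.mem_powerset.2 h), zero_mul, mul_zero]

/-- Truncated Moebius inversion. -/
lemma mob_trunc {F : (α → Option L) → ℝ} (hF : ∀ c, |F c| ≤ 1) (J : ℕ) (c : α → Option L) :
    |F c - ∑ c' : α → Option L, ind ((supp c').card ≤ J) * (ind (Below c' c) * mob F c')| ≤
      4 ^ (J + 1) * ∑ W ∈ univ.powersetCard (J + 1), ind (W ⊆ supp c) := by
  rw [KMob_group' (fun W => W.card ≤ J)]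
  have hR : ∑ W ∈ univ.powersetCard (J + 1), ind (W ⊆ supp c) =
      (((supp c).powersetCard (J + 1)).card : ℝ) := by
    rw [sum_ind]
    congr 2
    ext W
    simp [Finset.mem_powersetCard, and_comm]
  rw [hR]
  rcases le_or_gt (supp c).card J with h | h
  · have e : ∑ W ∈ (supp c).powerset, ind (W.card ≤ J) * mob F (restr W c) = F c := by
      conv_rhs => rw [← KMob_restr_supp c, ← KMob_inv (supp c) fun U => F (restr U c)]
      refine Finset.sum_congr rfl fun W hW => ?_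
      have hW' := Finset.mem_powerset.1 hW
      rw [ind_pos ((Finset.card_le_card hW').trans h), one_mul, mob, KMob_supp_restr hW']
      refine Finset.sum_congr rfl fun U hU => ?_
      rw [KMob_restr_restr c (Finset.mem_powerset.1 hU)]
    rw [e, sub_self, abs_zero]
    positivity
  · have h1 : |∑ W ∈ (supp c).powerset, ind (W.card ≤ J) * mob F (restr W c)| ≤
        2 ^ J * ∑ W ∈ (supp c).powerset, ind (W.card ≤ J) := by
      rw [Finset.mul_sum]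
      refine (Finset.abs_sum_le_sum_abs _ _).trans (Finset.sum_le_sum fun W hW => ?_)
      by_cases hc : W.card ≤ J
      · rw [ind_pos hc, one_mul, mul_one]
        refine (abs_mob_le hF _).trans ?_
        rw [KMob_supp_restr (Finset.mem_powerset.1 hW)]
        exact pow_le_pow_right₀ one_le_two hc
      · rw [ind_neg hc, zero_mul, mul_zero, abs_zero]
    rw [sum_ind] at h1
    have h2 : ((((supp c).powerset.filter fun W => W.card ≤ J).card : ℕ) : ℝ) ≤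
        (((supp c).powersetCard (J + 1)).card : ℝ) * 2 ^ (J + 1) := by
      exact_mod_cast KMob_count (supp c) h
    have h3 : (1 : ℝ) ≤ (((supp c).powersetCard (J + 1)).card : ℝ) := by
      rw [Finset.card_powersetCard]
      exact_mod_cast Nat.choose_pos h
    have h4 : (4 : ℝ) ^ (J + 1) = 4 * (2 ^ J * 2 ^ J) := by
      rw [← mul_pow, pow_succ]
      norm_num [mul_comm]
    have h5 : (1 : ℝ) ≤ 2 ^ J := one_le_pow₀ one_le_two
    have h6 := mul_le_mul_of_nonneg_left h2 (by positivity : (0 : ℝ) ≤ 2 ^ J)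
    have h7 : (1 : ℝ) ≤ 2 ^ J * 2 ^ J * (((supp c).powersetCard (J + 1)).card : ℝ) :=
      one_le_mul_of_one_le_of_one_le (one_le_mul_of_one_le_of_one_le h5 h5) h3
    refine (abs_sub _ _).trans ?_
    rw [h4]
    rw [pow_succ] at h6
    linarith only [h1, h6, h7, hF, hF c]

lemma IsW.EP_below {w : α → Option L → ℝ} (hw : IsW w) (c' : α → Option L) :
    EP w (fun c => ind (Below c' c)) = ∏ a ∈ supp c', w a (c' a) := by
  have e : ∀ c : α → Option L, ind (Below c' c) = ∏ a ∈ supp c', ind (c a = c' a) := fun c => by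
    rw [← KMob_ind_forall]
    exact ind_congr (forall_congr' fun a => by rw [mem_supp])
  rw [EP_congr e, hw.EP_prod_sub (supp c') fun a b => ind (b = c' a)]
  exact Finset.prod_congr rfl fun a _ => KMob_sum_single _ _

lemma IsW.EP_supp {w : α → Option L → ℝ} (hw : IsW w) (W : Finset α) :
    EP w (fun c => ind (W ⊆ supp c)) = ∏ a ∈ W, (1 - w a none) := by
  have e : ∀ c : α → Option L, ind (W ⊆ supp c) = ∏ a ∈ W, ind (¬ c a = none) := fun c => by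
    rw [← KMob_ind_forall]
    exact ind_congr ⟨fun h a ha => mem_supp.1 (h ha), fun h a ha => mem_supp.2 (h a ha)⟩
  rw [EP_congr e, hw.EP_prod_sub W fun _ b => ind (¬ b = none)]
  refine Finset.prod_congr rfl fun a _ => ?_
  simp only [ind_not, mul_sub, mul_one, Finset.sum_sub_distrib, hw.2 a, KMob_sum_single]

/-- Comparison of a random labelling with the product law. `good W` marks the supports for which
the joint law of the labels is close to the product law. -/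
theorem mob_compare {ι : Type} [Fintype ι] [DecidableEq ι] {p : ℝ} (h0 : 0 ≤ p) (h1 : p ≤ 1)
    {w : α → Option L → ℝ} (hw : IsW w) {F : (α → Option L) → ℝ} (hF : ∀ c, |F c| ≤ 1)
    (cf : Finset ι → α → Option L) (G : Finset ι → ℝ) (hG : ∀ ω, |G ω| ≤ 1) {g : ℝ} (hg : |g| ≤ 1)
    (J : ℕ) (good : Finset α → Prop) {η1 η2 η3 : ℝ}
    (e1 : ∑ c' : α → Option L, ind ((supp c').card ≤ J ∧ good (supp c')) *
      |E p (fun ω => ind (Below c' (cf ω)) * G ω) - g * ∏ a ∈ supp c', w a (c' a)| ≤ η1)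
    (e2 : ∑ W : Finset α, ind (W.card ≤ J ∧ ¬ good W) *
      (Pr p (fun ω => W ⊆ supp (cf ω)) + ∏ a ∈ W, (1 - w a none)) ≤ η2)
    (e3 : ∑ W ∈ univ.powersetCard (J + 1),
      (Pr p (fun ω => W ⊆ supp (cf ω)) + ∏ a ∈ W, (1 - w a none)) ≤ η3) :
    |E p (fun ω => F (cf ω) * G ω) - g * EP w F| ≤ 2 ^ J * (η1 + η2) + 4 ^ (J + 1) * η3 := by
  set T : (α → Option L) → ℝ := fun c =>
    ∑ c' : α → Option L, ind ((supp c').card ≤ J) * (ind (Below c' c) * mob F c') with hT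
  set D : (α → Option L) → ℝ := fun c' =>
    E p (fun ω => ind (Below c' (cf ω)) * G ω) - g * ∏ a ∈ supp c', w a (c' a) with hD
  have a1 : |E p (fun ω => F (cf ω) * G ω) - E p (fun ω => T (cf ω) * G ω)| ≤
      4 ^ (J + 1) * ∑ W ∈ univ.powersetCard (J + 1), Pr p (fun ω => W ⊆ supp (cf ω)) := by
    rw [← E_sub]
    refine (abs_E_le h0 h1 _).trans ?_
    unfold Pr
    rw [← E_sum, ← E_const_mul]
    refine E_mono h0 h1 fun ω => ?_
    rw [← sub_mul, abs_mul]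
    exact (mul_le_of_le_one_right (abs_nonneg _) (hG ω)).trans (mob_trunc hF J _)
  have a2 : |g * EP w T - g * EP w F| ≤
      4 ^ (J + 1) * ∑ W ∈ univ.powersetCard (J + 1), ∏ a ∈ W, (1 - w a none) := by
    rw [← mul_sub, abs_mul, abs_sub_comm, ← EP_sub]
    refine (mul_le_of_le_one_left (abs_nonneg _) hg).trans ((hw.abs_EP_le _).trans ?_)
    simp only [← hw.EP_supp]
    rw [← EP_sum, ← EP_const_mul]
    exact hw.EP_mono fun c => mob_trunc hF J c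
  have a3 : E p (fun ω => T (cf ω) * G ω) - g * EP w T =
      ∑ c' : α → Option L, ind ((supp c').card ≤ J) * mob F c' * D c' := by
    have b1 : E p (fun ω => T (cf ω) * G ω) = ∑ c' : α → Option L,
        ind ((supp c').card ≤ J) * mob F c' * E p (fun ω => ind (Below c' (cf ω)) * G ω) := by
      simp only [← E_const_mul]
      rw [← E_sum]
      refine E_congr fun ω => ?_
      rw [hT, Finset.sum_mul]
      exact Finset.sum_congr rfl fun c' _ => by ring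
    have b2 : EP w T = ∑ c' : α → Option L,
        ind ((supp c').card ≤ J) * mob F c' * ∏ a ∈ supp c', w a (c' a) := by
      simp only [← hw.EP_below, ← EP_const_mul]
      rw [← EP_sum]
      refine EP_congr fun c => ?_
      exact Finset.sum_congr rfl fun c' _ => by ring
    rw [b1, b2, Finset.mul_sum, ← Finset.sum_sub_distrib]
    exact Finset.sum_congr rfl fun c' _ => by rw [hD]; ring
  have a4 : ∑ c' : α → Option L, ind ((supp c').card ≤ J ∧ ¬ good (supp c')) * |D c'| ≤ η2 := by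
    refine le_trans ?_ e2
    have b1 : ∑ c' : α → Option L, ind ((supp c').card ≤ J ∧ ¬ good (supp c')) *
        E p (fun ω => ind (Below c' (cf ω))) =
        ∑ W : Finset α, ind (W.card ≤ J ∧ ¬ good W) * Pr p (fun ω => W ⊆ supp (cf ω)) := by
      unfold Pr
      simp only [← E_const_mul]
      rw [← E_sum, ← E_sum]
      refine E_congr fun ω => ?_
      simpa only [mul_one] using KMob_group (fun W => W.card ≤ J ∧ ¬ good W) (cf ω) fun _ => 1
    have b2 : ∑ c' : α → Option L, ind ((supp c').card ≤ J ∧ ¬ good (supp c')) *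
        ∏ a ∈ supp c', w a (c' a) =
        ∑ W : Finset α, ind (W.card ≤ J ∧ ¬ good W) * ∏ a ∈ W, (1 - w a none) := by
      simp only [← hw.EP_below, ← hw.EP_supp, ← EP_const_mul]
      rw [← EP_sum, ← EP_sum]
      refine EP_congr fun c => ?_
      simpa only [mul_one] using KMob_group (fun W => W.card ≤ J ∧ ¬ good W) c fun _ => 1
    simp only [mul_add, Finset.sum_add_distrib]
    rw [← b1, ← b2, ← Finset.sum_add_distrib]
    refine Finset.sum_le_sum fun c' _ => ?_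
    rw [← mul_add]
    refine mul_le_mul_of_nonneg_left ((abs_sub _ _).trans (add_le_add ?_ ?_)) (ind_nonneg _)
    · refine (abs_E_le h0 h1 _).trans (E_mono h0 h1 fun ω => ?_)
      rw [abs_mul, abs_of_nonneg (ind_nonneg _)]
      exact mul_le_of_le_one_right (ind_nonneg _) (hG ω)
    · have hp : 0 ≤ ∏ a ∈ supp c', w a (c' a) := Finset.prod_nonneg fun a _ => hw.1 _ _
      rw [abs_mul, abs_of_nonneg hp]
      exact mul_le_of_le_one_left hp hg
  have a5 : |E p (fun ω => T (cf ω) * G ω) - g * EP w T| ≤ 2 ^ J * (η1 + η2) := by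
    rw [a3]
    refine le_trans ?_ (mul_le_mul_of_nonneg_left (add_le_add e1 a4) (by positivity))
    rw [← Finset.sum_add_distrib, Finset.mul_sum]
    refine (Finset.abs_sum_le_sum_abs _ _).trans (Finset.sum_le_sum fun c' _ => ?_)
    rw [ind_and, ind_and, ind_not]
    by_cases hc : (supp c').card ≤ J
    · rw [ind_pos hc, one_mul, abs_mul]
      have b1 : |mob F c'| ≤ 2 ^ J := (abs_mob_le hF _).trans (pow_le_pow_right₀ one_le_two hc)
      refine (mul_le_mul_of_nonneg_right b1 (abs_nonneg _)).trans (le_of_eq ?_)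
      rw [hD]
      ring
    · rw [ind_neg hc]
      simp
  have a6 := mul_le_mul_of_nonneg_left e3 (by positivity : (0 : ℝ) ≤ 4 ^ (J + 1))
  rw [Finset.sum_add_distrib, mul_add] at a6
  have a7 := abs_sub_le (E p (fun ω => F (cf ω) * G ω)) (E p (fun ω => T (cf ω) * G ω))
    (g * EP w F)
  have a8 := abs_sub_le (E p (fun ω => T (cf ω) * G ω)) (g * EP w T) (g * EP w F)
  linarith only [a1, a2, a5, a6, a7, a8]

end Pool.Agent.Work.MP_d4a230_co
end

-- merged part: Pool.Agent.Work.MP_d4a230_co.KNP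
section
/-!
Weight of the families of copies through an edge that are not families of petals.
-/

namespace Pool.Agent.Work.MP_d4a230_co

open Finset

variable {V : Type} [DecidableEq V] [Fintype V] {𝒞 : Finset (Finset (Sym2 V))} {h k K0 : ℕ} {p : ℝ}

lemma KNP_card_small {α : Type} [DecidableEq α] (X : Finset α) (J : ℕ) :
    (X.powerset.filter fun W => W.card ≤ J).card ≤ (1 + X.card) ^ J := by
  induction J with
  | zero =>
    rw [pow_zero]
    refine Finset.card_le_one.2 fun a ha b hb => ?_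
    have h1 := (Finset.mem_filter.1 ha).2
    have h2 := (Finset.mem_filter.1 hb).2
    rw [Nat.le_zero, Finset.card_eq_zero] at h1 h2
    rw [h1, h2]
  | succ J ih =>
    have h1 : (X.powerset.filter fun W => W.card ≤ J + 1) ⊆
        (X.powerset.filter fun W => W.card ≤ J) ∪ X.powersetCard (J + 1) := by
      intro W hW
      simp only [Finset.mem_filter, Finset.mem_powerset, Finset.mem_union,
        Finset.mem_powersetCard] at hW ⊢
      rcases hW.2.lt_or_eq with h | h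
      · exact Or.inl ⟨hW.1, by omega⟩
      · exact Or.inr ⟨hW.1, h⟩
    have h2 := (Finset.card_le_card h1).trans (Finset.card_union_le _ _)
    rw [Finset.card_powersetCard] at h2
    have h3 : X.card.choose (J + 1) ≤ (1 + X.card) ^ J * X.card :=
      (Nat.choose_le_pow _ _).trans (by
        rw [pow_succ]
        exact Nat.mul_le_mul_right _ (Nat.pow_le_pow_left (by omega) _))
    rw [pow_succ, mul_add, mul_one]
    omega

lemma KNP_small {α : Type} [Fintype α] [DecidableEq α] (X : Finset α) (J : ℕ) :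
    ∑ W : Finset α, ind (W ⊆ X ∧ W.card ≤ J) ≤ (1 + (X.card : ℝ)) ^ J := by
  rw [sum_ind]
  have : (univ.filter fun W : Finset α => W ⊆ X ∧ W.card ≤ J) =
      X.powerset.filter fun W => W.card ≤ J := by
    ext W
    simp
  rw [this]
  exact_mod_cast KNP_card_small X J

/-- Families of at most `J` copies through `e`, none inside `P`, that are not petals. -/
theorem Sys.nonpetal (S : Sys 𝒞 h k K0) (h0 : 0 ≤ p) (h1 : p ≤ 1) {P : Finset (Sym2 V)}
    {e : Sym2 V} (hnd : ¬ e.IsDiag) (heP : e ∈ P) (J : ℕ) {β Cm M : ℝ} (hβ0 : 0 ≤ β)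
    (hCm : 0 ≤ Cm)
    (hβ : ∀ P' : Finset (Sym2 V), P'.card ≤ P.card + k → ∀ 𝓑 : Finset (Finset (Sym2 V)),
      (∀ T ∈ 𝓑, T ∈ 𝒞 ∧ 3 ≤ (vs T ∩ vs P').card ∧ ¬ T ⊆ P') → ∑ T ∈ 𝓑, p ^ (T \ P').card ≤ β)
    (hm : ∀ P' : Finset (Sym2 V), e ∈ P' → P'.card ≤ P.card + 2 * k →
      E p (fun ω => (1 + cY 𝒞 e (ω ∪ P')) ^ J) ≤ Cm)
    (hM : ((𝒞.filter fun T => e ∈ T).card : ℝ) * p ^ (k - 1) ≤ M) :
    ∑ W : Finset (Finset (Sym2 V)), ind (W.card ≤ J ∧ (∀ T ∈ W, T ∈ 𝒞 ∧ e ∈ T ∧ ¬ T ⊆ P) ∧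
      ¬ Petals 𝒞 P e W) * p ^ (W.biUnion id \ P).card ≤ Cm * β * (1 + M) := by
  classical
  set q := p ^ (k - 1) with hq
  have hq0 : 0 ≤ q := pow_nonneg h0 _
  set Fr := 𝒞.filter fun T => e ∈ T ∧ ∀ x ∈ vs P, x ∈ vs T → x ∈ e with hFr0
  have hFr : ∀ T, T ∈ Fr ↔ T ∈ 𝒞 ∧ e ∈ T ∧ ∀ x ∈ vs P, x ∈ vs T → x ∈ e := fun T =>
    Finset.mem_filter
  let NF := 𝒞.filter fun T => e ∈ T ∧ ¬ T ⊆ P ∧ T ∉ Fr
  let Ov : Finset (Sym2 V) → Finset (Finset (Sym2 V)) := fun T =>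
    Fr.filter fun T' => T' ≠ T ∧ ∃ x ∈ vs T', x ∈ vs T ∧ x ∉ e
  have hNF : ∑ T ∈ NF, p ^ (T \ P).card ≤ β := by
    refine hβ P (by omega) NF fun T hT => ?_
    obtain ⟨t1, t2, t3, t4⟩ := Finset.mem_filter.1 hT
    refine ⟨t1, ?_, t3⟩
    by_contra hc
    exact t4 ((hFr T).2 ⟨t1, t2, fun x x1 x2 => by_contra fun x3 =>
      hc (three_le_inter hnd t2 heP x2 x1 x3)⟩)
  have hcardTP : ∀ T ∈ 𝒞, (T ∪ P).card ≤ P.card + k := fun T hT => by
    have := Finset.card_union_le T P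
    rw [S.card T hT] at this; omega
  have hOv : ∀ T ∈ Fr, ∑ T' ∈ Ov T, p ^ (T' \ (T ∪ P)).card ≤ β := by
    intro T hT
    obtain ⟨t1, t2, t3⟩ := (hFr T).1 hT
    refine hβ _ (hcardTP T t1) _ fun T' hT' => ?_
    obtain ⟨s1, s2, y, y1, y2, y3⟩ := Finset.mem_filter.1 hT'
    obtain ⟨s3, s4, _⟩ := (hFr T').1 s1
    exact ⟨s3, three_le_inter hnd s4 (Finset.mem_union_right _ heP) y1
      (vs_mono Finset.subset_union_left y2) y3,
      fun h => s2 (S.split t1 s3 t2 t3 (by rwa [Finset.union_comm]) y1 y2 y3)⟩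
  have hFrq : ∀ T ∈ Fr, p ^ (T \ P).card = q := by
    intro T hT
    obtain ⟨t1, t2, t3⟩ := (hFr T).1 hT
    have := Petals.card S heP (W := {T}) ⟨by simpa using ⟨t1, t2, t3⟩, by simp⟩
    simp only [Finset.singleton_biUnion, id, Finset.card_singleton, mul_one] at this
    rw [this]
  have hFM : (Fr.card : ℝ) * q ≤ M := by
    refine le_trans (mul_le_mul_of_nonneg_right ?_ hq0) hM
    exact_mod_cast Finset.card_le_card fun T hT =>
      Finset.mem_filter.2 ⟨((hFr T).1 hT).1, ((hFr T).1 hT).2.1⟩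
  let Z : Finset (Sym2 V) → ℝ := fun ω => (1 + cY 𝒞 e ω) ^ J
  have hZ0 : ∀ ω, 0 ≤ Z ω := fun ω => pow_nonneg (by linarith [cY_nonneg (𝒞 := 𝒞) e ω]) _
  let bad : Finset (Sym2 V) → ℝ := fun ω => ∑ T ∈ NF, ind (T ⊆ ω ∪ P) * Z (ω ∪ P) +
    ∑ T ∈ Fr, ∑ T' ∈ Ov T, ind (T ⊆ ω ∪ P) * (ind (T' ⊆ ω ∪ P) * Z (ω ∪ P))
  have hbad : E p bad ≤ Cm * β * (1 + Fr.card * q) := by
    simp only [bad]
    rw [E_add, E_sum, E_sum]
    have e1 : ∑ T ∈ NF, E p (fun ω => ind (T ⊆ ω ∪ P) * Z (ω ∪ P)) ≤ Cm * β := by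
      refine le_trans ?_ (mul_le_mul_of_nonneg_left hNF hCm)
      rw [Finset.mul_sum]
      refine Finset.sum_le_sum fun T hT => ?_
      rw [plant' T P Z, mul_comm]
      exact mul_le_mul_of_nonneg_right (hm _ (Finset.mem_union_right _ heP)
        ((hcardTP T (Finset.mem_filter.1 hT).1).trans (by omega))) (by positivity)
    have e2 : ∑ T ∈ Fr, E p (fun ω => ∑ T' ∈ Ov T,
        ind (T ⊆ ω ∪ P) * (ind (T' ⊆ ω ∪ P) * Z (ω ∪ P))) ≤ Fr.card * (q * (Cm * β)) := by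
      rw [← nsmul_eq_mul]
      refine Finset.sum_le_card_nsmul _ _ _ fun T hT => ?_
      rw [E_sum]
      refine le_trans ?_ (mul_le_mul_of_nonneg_left
        (mul_le_mul_of_nonneg_left (hOv T hT) hCm) hq0)
      rw [Finset.mul_sum, Finset.mul_sum]
      refine Finset.sum_le_sum fun T' hT' => ?_
      rw [plant' T P (fun ω => ind (T' ⊆ ω) * Z ω), hFrq T hT, plant' T' (T ∪ P) Z, mul_comm Cm]
      refine mul_le_mul_of_nonneg_left (mul_le_mul_of_nonneg_left (hm _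
        (Finset.mem_union_right _ (Finset.mem_union_right _ heP)) ?_) (by positivity)) hq0
      have f1 := Finset.card_union_le T' (T ∪ P)
      have f2 := hcardTP T ((hFr T).1 hT).1
      rw [S.card T' ((hFr T').1 (Finset.mem_filter.1 hT').1).1] at f1
      omega
    linarith only [e1, e2]
  let c : Finset (Finset (Sym2 V)) → Prop := fun W =>
    W.card ≤ J ∧ (∀ T ∈ W, T ∈ 𝒞 ∧ e ∈ T ∧ ¬ T ⊆ P) ∧ ¬ Petals 𝒞 P e W
  have hpt : ∀ ω, ∑ W : Finset (Finset (Sym2 V)), ind (c W) * ind (W.biUnion id ⊆ ω ∪ P) ≤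
      bad ω := by
    intro ω
    have n1 : 0 ≤ ∑ T ∈ NF, ind (T ⊆ ω ∪ P) * Z (ω ∪ P) :=
      Finset.sum_nonneg fun _ _ => mul_nonneg (ind_nonneg _) (hZ0 _)
    have n2' : ∀ T, 0 ≤ ∑ T' ∈ Ov T, ind (T ⊆ ω ∪ P) * (ind (T' ⊆ ω ∪ P) * Z (ω ∪ P)) :=
      fun T => Finset.sum_nonneg fun _ _ =>
        mul_nonneg (ind_nonneg _) (mul_nonneg (ind_nonneg _) (hZ0 _))
    have n2 := Finset.sum_nonneg fun T (_ : T ∈ Fr) => n2' T
    by_cases hg : (∃ T ∈ NF, T ⊆ ω ∪ P) ∨ ∃ T ∈ Fr, ∃ T' ∈ Ov T, T ⊆ ω ∪ P ∧ T' ⊆ ω ∪ P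
    · have f1 : Z (ω ∪ P) ≤ bad ω := by
        simp only [bad]
        rcases hg with ⟨T, hT, h⟩ | ⟨T, hT, T', hT', h, h'⟩
        · have := Finset.single_le_sum (f := fun T => ind (T ⊆ ω ∪ P) * Z (ω ∪ P))
            (fun _ _ => mul_nonneg (ind_nonneg _) (hZ0 _)) hT
          simp only [ind_pos h, one_mul] at this
          linarith only [n2, this]
        · have g1 := Finset.single_le_sum (fun T _ => n2' T) hT
          have g2 := Finset.single_le_sum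
            (f := fun T' => ind (T ⊆ ω ∪ P) * (ind (T' ⊆ ω ∪ P) * Z (ω ∪ P)))
            (fun _ _ => mul_nonneg (ind_nonneg _) (mul_nonneg (ind_nonneg _) (hZ0 _))) hT'
          simp only [ind_pos h'] at g2
          rw [ind_pos h, one_mul, one_mul] at g2
          rw [ind_pos h] at g1
          linarith
      refine le_trans ?_ f1
      have g := KNP_small ((𝒞.filter fun T => e ∈ T).filter fun T => T ⊆ ω ∪ P) J
      rw [← sum_ind] at g
      refine le_trans (Finset.sum_le_sum fun W _ => ?_) g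
      rw [← ind_and]
      exact ind_mono fun h => ⟨fun T hT => Finset.mem_filter.2 ⟨Finset.mem_filter.2
        ⟨(h.1.2.1 T hT).1, (h.1.2.1 T hT).2.1⟩, Finset.biUnion_subset.1 h.2 T hT⟩, h.1.1⟩
    · refine le_trans (le_of_eq (Finset.sum_eq_zero fun W _ => ?_)) (add_nonneg n1 n2)
      rw [← ind_and]
      refine ind_neg fun h => hg ?_
      have hs : ∀ T ∈ W, T ⊆ ω ∪ P := Finset.biUnion_subset.1 h.2
      by_contra hg
      push Not at hg
      have hF : ∀ T ∈ W, T ∈ Fr := fun T hT => by_contra fun hn =>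
        hg.1 T (Finset.mem_filter.2 ⟨(h.1.2.1 T hT).1, (h.1.2.1 T hT).2.1, (h.1.2.1 T hT).2.2, hn⟩)
          (hs T hT)
      exact h.1.2.2 ⟨fun T hT => (hFr T).1 (hF T hT), fun T hT T' hT' hne y y1 y2 =>
        by_contra fun y3 => hg.2 T (hF T hT) T'
          (Finset.mem_filter.2 ⟨hF T' hT', hne.symm, y, y2, y1, y3⟩) (hs T hT) (hs T' hT')⟩
  have hE : ∑ W : Finset (Finset (Sym2 V)), ind (c W) * p ^ (W.biUnion id \ P).card =
      E p (fun ω => ∑ W : Finset (Finset (Sym2 V)), ind (c W) * ind (W.biUnion id ⊆ ω ∪ P)) := by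
    rw [E_sum]
    refine Finset.sum_congr rfl fun W _ => ?_
    have := plant' (p := p) (W.biUnion id) P (fun _ => 1)
    simp only [E_const, mul_one] at this
    rw [E_const_mul, this]
  exact (le_of_eq hE).trans ((E_mono h0 h1 hpt).trans (hbad.trans
    (mul_le_mul_of_nonneg_left (by linarith) (mul_nonneg hCm hβ0))))

/-- The number of subsets of size at most `J` of a set of size `N` is at most `(1 + N) ^ J`. -/
lemma sum_small_subsets {α : Type} [Fintype α] [DecidableEq α] (X : Finset α) (J : ℕ) :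
    ∑ W : Finset α, ind (W ⊆ X ∧ W.card ≤ J) ≤ (1 + (X.card : ℝ)) ^ J := by
  exact KNP_small X J

/-- Weighted count of the subsets of size at most `J`. -/
lemma sum_subsets_pow {α : Type} [Fintype α] [DecidableEq α] (X : Finset α) {q M : ℝ}
    (hq : 0 ≤ q) (hM : X.card * q ≤ M) :
    ∑ W : Finset α, ind (W ⊆ X) * q ^ W.card ≤ Real.exp M := by
  have e1 : ∑ W : Finset α, ind (W ⊆ X) * q ^ W.card = ∑ W ∈ X.powerset, q ^ W.card := by
    rw [← Finset.sum_subset (Finset.subset_univ X.powerset)]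
    · exact Finset.sum_congr rfl fun W hW => by rw [ind_pos (Finset.mem_powerset.1 hW), one_mul]
    · intro W _ hW
      rw [ind_neg fun h => hW (Finset.mem_powerset.2 h), zero_mul]
  have e2 := Finset.prod_one_add (f := fun _ : α => q) X
  simp only [Finset.prod_const] at e2
  rw [e1, ← e2]
  refine le_trans ?_ (Real.exp_le_exp.2 hM)
  rw [Real.exp_nat_mul]
  exact pow_le_pow_left₀ (by linarith) (by linarith [Real.add_one_le_exp q]) _

/-- Weighted count of the subsets of size `j`. -/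
lemma sum_subsets_card {α : Type} [Fintype α] [DecidableEq α] (X : Finset α) (j : ℕ) {q M : ℝ}
    (hq : 0 ≤ q) (hM : X.card * q ≤ M) :
    ∑ W ∈ (univ : Finset α).powersetCard j, ind (W ⊆ X) * q ^ j ≤ M ^ j / j.factorial := by
  have e1 : ((univ : Finset α).powersetCard j).filter (fun W => W ⊆ X) = X.powersetCard j := by
    ext W
    simp [Finset.mem_powersetCard, and_comm]
  rw [← Finset.sum_mul, sum_ind, e1, Finset.card_powersetCard]
  have e2 : (X.card.choose j : ℝ) ≤ (X.card : ℝ) ^ j / j.factorial := Nat.choose_le_pow_div j X.card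
  calc (X.card.choose j : ℝ) * q ^ j ≤ (X.card : ℝ) ^ j / j.factorial * q ^ j :=
        mul_le_mul_of_nonneg_right e2 (pow_nonneg hq _)
    _ = (X.card * q) ^ j / j.factorial := by ring
    _ ≤ _ := div_le_div_of_nonneg_right (pow_le_pow_left₀ (by positivity) hM _) (by positivity)

end Pool.Agent.Work.MP_d4a230_co
end

-- merged part: Pool.Agent.Work.MP_d4a230_co.KStep
section
/-!
One step of the exploration for an arbitrary rule.
-/

namespace Pool.Agent.Work.MP_d4a230_co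

open Finset

variable {V A : Type} [DecidableEq V] [Fintype V] [Inhabited A] [Fintype A]
  {𝒞 : Finset (Finset (Sym2 V))} {h k K0 : ℕ} {p : ℝ}

/-- The messages of the items of `I` take the values `val`. -/
def Takes (ρ : Rule (Sym2 V) A) (𝒞 : Finset (Finset (Sym2 V))) (P : Finset (Sym2 V))
    (I : Finset (HItem V)) (val : HItem V → A) (ω : Finset (Sym2 V)) : Prop :=
  ∀ i ∈ I, Msg ρ 𝒞 (ω ∪ P) i.2.2 i.1 i.2.1 = val i

section Aux

variable {ι : Type} [DecidableEq ι] [Fintype ι] {𝒟 : Finset (Finset ι)}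

/-- Labels vanish outside of the member. -/
def KStep_prop (e : ι) (c : Finset ι → Option (ι → A)) : Prop :=
  ∀ T l, c T = some l → ∀ g, ¬ (g ∈ T ∧ g ≠ e) → l g = default

omit [Fintype A] in
lemma KStep_ideal (q : ℝ) (w : ι → A → ℝ) (e : ι) (W : Finset (Finset ι)) :
    ∏ a ∈ W, (1 - cw 𝒟 q w e a none) = ind (W ⊆ 𝒟.filter fun T => e ∈ T) * q ^ W.card := by
  simp only [cw, sub_sub_cancel]
  rw [Finset.prod_mul_distrib, Finset.prod_const, mul_comm]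
  congr 1
  by_cases hW : W ⊆ 𝒟.filter fun T => e ∈ T
  · rw [ind_pos hW]
    exact Finset.prod_eq_one fun T hT => ind_pos (Finset.mem_filter.1 (hW hT))
  · rw [ind_neg hW]
    obtain ⟨T, h1, h2⟩ := Finset.not_subset.1 hW
    exact Finset.prod_eq_zero h1 (ind_neg fun h => h2 (Finset.mem_filter.2 h))

omit [Fintype A] in
lemma KStep_real (h0 : 0 ≤ p) (h1 : p ≤ 1) (P : Finset ι) (e : ι) (X : Finset ι)
    (m : Finset ι → ι → Finset ι → A) (W : Finset (Finset ι)) :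
    Pr p (fun ω => W ⊆ supp (cfgOf 𝒟 (ω ∪ P) e X (m ω))) ≤
      ind (W ⊆ (𝒟.filter fun T => e ∈ T) ∧ X ∉ W) * p ^ (W.biUnion id \ P).card := by
  by_cases hW : W ⊆ (𝒟.filter fun T => e ∈ T) ∧ X ∉ W
  · rw [ind_pos hW, one_mul, ← Pr_subset]
    refine Pr_mono h0 h1 fun ω h g hg => ?_
    obtain ⟨g1, g2⟩ := Finset.mem_sdiff.1 hg
    obtain ⟨T, t1, t2⟩ := Finset.mem_biUnion.1 g1
    exact (Finset.mem_union.1 ((cfgOf_ne_none.1 (mem_supp.1 (h t1))).2.2.2 t2)).resolve_right g2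
  · rw [ind_neg hW, zero_mul, ← E_const (ι := ι) (p := p) 0]
    refine E_mono h0 h1 fun ω => le_of_eq (ind_neg fun h => hW ⟨fun T hT => ?_, fun hX => ?_⟩)
    · have := cfgOf_ne_none.1 (mem_supp.1 (h hT))
      exact Finset.mem_filter.2 ⟨this.1, this.2.2.1⟩
    · exact (cfgOf_ne_none.1 (mem_supp.1 (h hX))).2.1 rfl

lemma KStep_erase {α : Type} [Fintype α] [DecidableEq α] (C : Finset α) (X : α) {q : ℝ}
    (hq : 0 ≤ q) : ∑ W : Finset α, ind (W ⊆ C ∧ X ∈ W) * q ^ W.card ≤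
      q * ∑ W : Finset α, ind (W ⊆ C) * q ^ W.card := by
  rw [Finset.mul_sum, ← Finset.sum_subset (Finset.filter_subset (fun W => X ∈ W) univ)
    (fun W _ hW => by
      rw [ind_neg fun h => hW (Finset.mem_filter.2 ⟨Finset.mem_univ _, h.2⟩), zero_mul])]
  have hinj : Set.InjOn (fun W : Finset α => W.erase X)
      ((univ.filter fun W : Finset α => X ∈ W : Finset (Finset α)) : Set (Finset α)) := by
    intro W hW W' hW' h
    rw [← Finset.insert_erase (Finset.mem_filter.1 hW).2,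
      ← Finset.insert_erase (Finset.mem_filter.1 hW').2]
    exact congrArg _ h
  refine le_trans ?_ (Finset.sum_le_sum_of_subset_of_nonneg (Finset.subset_univ
    ((univ.filter fun W : Finset α => X ∈ W).image fun W => W.erase X))
    fun _ _ _ => mul_nonneg hq (mul_nonneg (ind_nonneg _) (pow_nonneg hq _)))
  rw [Finset.sum_image hinj]
  refine Finset.sum_le_sum fun W hW => ?_
  rw [← Finset.card_erase_add_one (Finset.mem_filter.1 hW).2, pow_succ', mul_left_comm]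
  refine mul_le_mul_of_nonneg_left (mul_le_mul_of_nonneg_right (ind_mono fun h => ?_)
    (pow_nonneg hq _)) hq
  exact (Finset.erase_subset _ _).trans h.1

lemma KStep_count (e : ι) (W : Finset (Finset ι)) (hW : ∀ T ∈ W, T.card = k) :
    ∑ c : Finset ι → Option (ι → A), ind (supp c = W ∧ KStep_prop e c) ≤
      (Fintype.card A : ℝ) ^ (k * W.card) := by
  classical
  rw [sum_ind]
  have h1 : (univ.filter fun c : Finset ι → Option (ι → A) => supp c = W ∧ KStep_prop e c) ⊆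
      Fintype.piFinset fun T => if T ∈ W then
        (Fintype.piFinset fun g => if g ∈ T then (univ : Finset A) else {default}).image some
        else {none} := by
    intro c hc
    obtain ⟨c1, c2⟩ := (Finset.mem_filter.1 hc).2
    refine Fintype.mem_piFinset.2 fun T => ?_
    split_ifs with hT
    · obtain ⟨l, hl⟩ := Option.ne_none_iff_exists'.1 (mem_supp.1 (c1 ▸ hT))
      refine Finset.mem_image.2 ⟨l, Fintype.mem_piFinset.2 fun g => ?_, hl.symm⟩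
      split_ifs with hg
      · exact Finset.mem_univ _
      · exact Finset.mem_singleton.2 (c2 T l hl g fun h => hg h.1)
    · exact Finset.mem_singleton.2 (by_contra fun h => hT (c1 ▸ mem_supp.2 h))
  have h2 := Finset.card_le_card h1
  rw [Fintype.card_piFinset] at h2
  have h3 : ∏ T : Finset ι, (if T ∈ W then
      (Fintype.piFinset fun g => if g ∈ T then (univ : Finset A) else {default}).image some
        else {none}).card ≤ ∏ T : Finset ι, if T ∈ W then Fintype.card A ^ k else 1 := by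
    refine Finset.prod_le_prod' fun T _ => ?_
    split_ifs with hT
    · refine Finset.card_image_le.trans (le_of_eq ?_)
      rw [Fintype.card_piFinset]
      simp only [apply_ite Finset.card, Finset.card_univ, Finset.card_singleton,
        Finset.prod_ite_mem, Finset.univ_inter, Finset.prod_const, hW T hT]
    · simp
  rw [Finset.prod_ite_mem, Finset.univ_inter, Finset.prod_const, ← pow_mul] at h3
  exact_mod_cast h2.trans h3

omit [Fintype A] in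
lemma KStep_lw (w : ι → A → ℝ) (e : ι) (T : Finset ι) (l : ι → A)
    (hl : ∀ g, ¬ (g ∈ T ∧ g ≠ e) → l g = default) :
    lw w e T l = ∏ g ∈ T.erase e, w g (l g) := by
  unfold lw
  rw [← Finset.prod_subset (Finset.subset_univ (T.erase e))]
  · refine Finset.prod_congr rfl fun g hg => ?_
    rw [if_pos ⟨(Finset.mem_erase.1 hg).2, (Finset.mem_erase.1 hg).1⟩]
  · intro g _ hg
    have : ¬ (g ∈ T ∧ g ≠ e) := fun h => hg (Finset.mem_erase.2 ⟨h.2, h.1⟩)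
    rw [if_neg this, ind_pos (hl g this)]

omit [Fintype A] in
lemma KStep_below {e : ι} {X σ : Finset ι} {m : ι → Finset ι → A} {c : Finset ι → Option (ι → A)}
    (hc : KStep_prop e c) (hW : ∀ T ∈ supp c, T ∈ 𝒟 ∧ e ∈ T) (hX : X ∉ supp c) :
    Below c (cfgOf 𝒟 σ e X m) ↔ (supp c).biUnion id ⊆ σ ∧
      ∀ T ∈ supp c, ∀ g ∈ T, g ≠ e → m g T = (c T).getD default g := by
  constructor
  · intro h
    refine ⟨Finset.biUnion_subset.2 fun T hT => ?_, fun T hT g g1 g2 => ?_⟩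
    · have := mem_supp.1 hT
      rw [← h T this] at this
      exact (cfgOf_ne_none.1 this).2.2.2
    · obtain ⟨l, hl⟩ := Option.ne_none_iff_exists'.1 (mem_supp.1 hT)
      have := h T (mem_supp.1 hT)
      rw [hl] at this ⊢
      rw [Option.getD_some, (cfgOf_eq_some.1 this).2, lab, if_pos ⟨g1, g2⟩]
  · rintro ⟨h1, h2⟩ T hT
    obtain ⟨l, hl⟩ := Option.ne_none_iff_exists'.1 hT
    have hT' := mem_supp.2 hT
    rw [hl]
    refine cfgOf_eq_some.2 ⟨⟨(hW T hT').1, fun h => hX (h ▸ hT'), (hW T hT').2,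
      Finset.biUnion_subset.1 h1 T hT'⟩, funext fun g => ?_⟩
    unfold lab
    split_ifs with hg
    · rw [show (fun g => m g T) g = m g T from rfl, h2 T hT' g hg.1 hg.2, hl, Option.getD_some]
    · exact hc T l hl g hg

end Aux

omit [Fintype V] in
lemma KStep_prod (e : Sym2 V) (t : ℕ) (W : Finset (Finset (Sym2 V))) (f : HItem V → ℝ) :
    ∏ i ∈ HIW e t W, f i = ∏ T ∈ W, ∏ g ∈ T.erase e, f (g, T, t) := by
  unfold HIW
  rw [Finset.prod_biUnion]
  · refine Finset.prod_congr rfl fun T _ => ?_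
    rw [Finset.prod_image (fun _ _ _ _ h => congrArg Prod.fst h)]
  · intro T _ T' _ hne
    refine Finset.disjoint_left.2 fun i i1 i2 => hne ?_
    obtain ⟨g, _, rfl⟩ := Finset.mem_image.1 i1
    obtain ⟨g', _, h'⟩ := Finset.mem_image.1 i2
    exact (congrArg (fun i : HItem V => i.2.1) h').symm

lemma KStep_one (S : Sys 𝒞 h k K0) (h0 : 0 ≤ p) (ρ : Rule (Sym2 V) A)
    {P : Finset (Sym2 V)} {I : Finset (HItem V)} (hV : HValid 𝒞 P I) {i0 : HItem V} (hi : i0 ∈ I)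
    (t : ℕ) (val : HItem V → A) {ε : ℝ} (c : Finset (Sym2 V) → Option (Sym2 V → A))
    (hW : Petals 𝒞 P i0.1 (supp c)) (hX : i0.2.1 ∉ supp c)
    (hIH : ∀ val' : HItem V → A,
      |Pr p (Takes ρ 𝒞 ((supp c).biUnion id ∪ P) (HIW i0.1 t (supp c) ∪ I.erase i0) val') -
        ∏ i ∈ HIW i0.1 t (supp c) ∪ I.erase i0, law ρ 𝒞 (p ^ (k - 1)) i.2.2 i.1 (val' i)| ≤ ε) :
    |E p (fun ω => ind (Below c (cfgOf 𝒞 (ω ∪ P) i0.1 i0.2.1 (Msg ρ 𝒞 (ω ∪ P) t))) *
        ind (Takes ρ 𝒞 P (I.erase i0) val ω)) -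
      (∏ i ∈ I.erase i0, law ρ 𝒞 (p ^ (k - 1)) i.2.2 i.1 (val i)) *
        ∏ a ∈ supp c, cw 𝒞 (p ^ (k - 1)) (law ρ 𝒞 (p ^ (k - 1)) t) i0.1 a (c a)| ≤
      ind (KStep_prop i0.1 c) * ((p ^ (k - 1)) ^ (supp c).card * ε) := by
  classical
  by_cases hc : KStep_prop i0.1 c
  swap
  · rw [ind_neg hc, zero_mul]
    unfold KStep_prop at hc
    push Not at hc
    obtain ⟨T, l, hl, g, g1, g2⟩ := hc
    have g3 : ¬ (g ∈ T ∧ g ≠ i0.1) := fun h => h.2 (g1 h.1)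
    have hT : c T ≠ none := by rw [hl]; simp
    have e1 : ∀ ω, ind (Below c (cfgOf 𝒞 (ω ∪ P) i0.1 i0.2.1 (Msg ρ 𝒞 (ω ∪ P) t))) *
        ind (Takes ρ 𝒞 P (I.erase i0) val ω) = 0 := by
      intro ω
      rw [ind_neg, zero_mul]
      intro hb
      have := hb T hT
      rw [hl] at this
      apply g2
      rw [(cfgOf_eq_some.1 this).2, lab, if_neg g3]
    rw [E_congr e1, E_const, Finset.prod_eq_zero (mem_supp.2 hT), mul_zero, sub_zero, abs_zero]
    rw [hl, cw, lw, Finset.prod_eq_zero (Finset.mem_univ g), mul_zero]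
    rw [if_neg g3, ind_neg g2]
  have hdis : ∀ i ∈ HIW i0.1 t (supp c), i ∉ I.erase i0 := by
    intro i h1 h2
    obtain ⟨T, hT, g, hg, hge, rfl⟩ := mem_HIW.1 h1
    exact hge (S.eq_of_fresh (hW.1 T hT).1 (hW.1 T hT).2.2 hg
      (hV.1 _ (Finset.mem_of_mem_erase h2)).2.1)
  let val' : HItem V → A := fun i =>
    if i ∈ HIW i0.1 t (supp c) then (c i.2.1).getD default i.1 else val i
  have v1 : ∀ T ∈ supp c, ∀ g ∈ T, g ≠ i0.1 → val' (g, T, t) = (c T).getD default g :=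
    fun T hT g g1 g2 => if_pos (mem_HIW.2 ⟨T, hT, g, g1, g2, rfl⟩)
  have v2 : ∀ i ∈ I.erase i0, val' i = val i := fun i h2 => if_neg fun h1 => hdis i h1 h2
  have e1 : ∀ ω, ind (Below c (cfgOf 𝒞 (ω ∪ P) i0.1 i0.2.1 (Msg ρ 𝒞 (ω ∪ P) t))) *
      ind (Takes ρ 𝒞 P (I.erase i0) val ω) = ind ((supp c).biUnion id ⊆ ω ∪ P) *
        ind (∀ i ∈ HIW i0.1 t (supp c) ∪ I.erase i0,
          Msg ρ 𝒞 (ω ∪ P) i.2.2 i.1 i.2.1 = val' i) := by
    intro ω
    rw [← ind_and, ← ind_and]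
    refine ind_congr ?_
    rw [KStep_below hc (fun T hT => ⟨(hW.1 T hT).1, (hW.1 T hT).2.1⟩) hX, and_assoc]
    refine and_congr_right fun _ => ⟨fun hh i hi' => ?_, fun hh => ⟨fun T hT g g1 g2 => ?_,
      fun i hi' => ?_⟩⟩
    · rcases Finset.mem_union.1 hi' with h1 | h1
      · obtain ⟨T, hT, g, hg, hge, rfl⟩ := mem_HIW.1 h1
        rw [v1 T hT g hg hge]
        exact hh.1 T hT g hg hge
      · rw [v2 i h1]
        exact hh.2 i h1
    · rw [← v1 T hT g g1 g2]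
      exact hh (g, T, t) (Finset.mem_union_left _ (mem_HIW.2 ⟨T, hT, g, g1, g2, rfl⟩))
    · rw [← v2 i hi']
      exact hh i (Finset.mem_union_right _ hi')
  have e2 : (∏ i ∈ I.erase i0, law ρ 𝒞 (p ^ (k - 1)) i.2.2 i.1 (val i)) *
      ∏ a ∈ supp c, cw 𝒞 (p ^ (k - 1)) (law ρ 𝒞 (p ^ (k - 1)) t) i0.1 a (c a) =
      (p ^ (k - 1)) ^ (supp c).card * ∏ i ∈ HIW i0.1 t (supp c) ∪ I.erase i0,
        law ρ 𝒞 (p ^ (k - 1)) i.2.2 i.1 (val' i) := by
    rw [Finset.prod_union (Finset.disjoint_left.2 hdis), KStep_prod, ← mul_assoc,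
      ← Finset.prod_const, ← Finset.prod_mul_distrib, mul_comm]
    congr 1
    · refine Finset.prod_congr rfl fun T hT => ?_
      obtain ⟨l, hl⟩ := Option.ne_none_iff_exists'.1 (mem_supp.1 hT)
      rw [hl, cw, ind_pos ⟨(hW.1 T hT).1, (hW.1 T hT).2.1⟩, mul_one,
        KStep_lw _ _ _ _ (hc T l hl)]
      congr 1
      refine Finset.prod_congr rfl fun g hg => ?_
      rw [v1 T hT g (Finset.mem_erase.1 hg).2 (Finset.mem_erase.1 hg).1, hl, Option.getD_some]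
    · exact Finset.prod_congr rfl fun i hi' => by rw [v2 i hi']
  rw [E_congr e1, plant' _ P (fun σ => ind (∀ i ∈ HIW i0.1 t (supp c) ∪ I.erase i0,
    Msg ρ 𝒞 σ i.2.2 i.1 i.2.1 = val' i)), e2, hW.card S (hV.1 i0 hi).2.1, pow_mul, ← mul_sub,
    abs_mul, abs_of_nonneg (by positivity), ind_pos hc, one_mul]
  exact mul_le_mul_of_nonneg_left (hIH val') (by positivity)

/-- One step of the exploration. -/
theorem rule_step (S : Sys 𝒞 h k K0) (h0 : 0 ≤ p) (h1 : p ≤ 1) (ρ : Rule (Sym2 V) A)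
    {P : Finset (Sym2 V)} {I : Finset (HItem V)} (hV : HValid 𝒞 P I) {i0 : HItem V} (hi : i0 ∈ I)
    {t : ℕ} (ht : i0.2.2 = t + 1) (val : HItem V → A) (J : ℕ) {ε b M : ℝ} (hε : 0 ≤ ε)
    (hM : ((𝒞.filter fun T => i0.1 ∈ T).card : ℝ) * p ^ (k - 1) ≤ M)
    (hb : ∑ W : Finset (Finset (Sym2 V)), ind (W.card ≤ J + 1 ∧
      (∀ T ∈ W, T ∈ 𝒞 ∧ i0.1 ∈ T ∧ ¬ T ⊆ P) ∧ ¬ Petals 𝒞 P i0.1 W) *
        p ^ (W.biUnion id \ P).card ≤ b)
    (hIH : ∀ W : Finset (Finset (Sym2 V)), W.card ≤ J → Petals 𝒞 P i0.1 W →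
      ∀ val' : HItem V → A,
      |Pr p (Takes ρ 𝒞 (W.biUnion id ∪ P) (HIW i0.1 t W ∪ I.erase i0) val') -
        ∏ i ∈ HIW i0.1 t W ∪ I.erase i0, law ρ 𝒞 (p ^ (k - 1)) i.2.2 i.1 (val' i)| ≤ ε) :
    |Pr p (Takes ρ 𝒞 P I val) - ∏ i ∈ I, law ρ 𝒞 (p ^ (k - 1)) i.2.2 i.1 (val i)| ≤
      2 ^ J * (ε * (Fintype.card A : ℝ) ^ (k * J) * Real.exp M + 2 * b +
        2 * p ^ (k - 1) * Real.exp M) + 4 ^ (J + 1) * (2 * (M ^ (J + 1) / (J + 1).factorial) + b) := by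
  classical
  have hq0 : 0 ≤ p ^ (k - 1) := pow_nonneg h0 _
  have hq1 : p ^ (k - 1) ≤ 1 := pow_le_one₀ h0 h1
  have hl := fun s => law_isW (𝒞 := 𝒞) ρ hq0 hq1 s
  have he := (hV.1 i0 hi).2.1
  set C := 𝒞.filter fun T => i0.1 ∈ T with hC
  have hQ : ∀ W : Finset (Finset (Sym2 V)), W ⊆ C → i0.2.1 ∉ W →
      ∀ T ∈ W, T ∈ 𝒞 ∧ i0.1 ∈ T ∧ ¬ T ⊆ P := by
    intro W w1 w2 T hT
    have := Finset.mem_filter.1 (w1 hT)
    exact ⟨this.1, this.2, fun h => w2 ((hV.1 i0 hi).2.2 T this.1 this.2 h ▸ hT)⟩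
  have hind : ∀ q : Prop, |ind q| ≤ 1 := fun q => by
    rw [abs_of_nonneg (ind_nonneg q)]; exact ind_le_one q
  have hexp := sum_subsets_pow C hq0 hM
  have key := mob_compare h0 h1 (cw_isW (𝒞 := 𝒞) hq0 hq1 (hl t) i0.1)
    (F := fun c => ind (ρ.upd t i0.1 c = val i0)) (fun _ => hind _)
    (fun ω => cfgOf 𝒞 (ω ∪ P) i0.1 i0.2.1 (Msg ρ 𝒞 (ω ∪ P) t))
    (fun ω => ind (Takes ρ 𝒞 P (I.erase i0) val ω)) (fun _ => hind _)
    (g := ∏ i ∈ I.erase i0, law ρ 𝒞 (p ^ (k - 1)) i.2.2 i.1 (val i)) (by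
      rw [abs_of_nonneg (Finset.prod_nonneg fun i _ => (hl _).1 _ _)]
      refine Finset.prod_le_one (fun i _ => (hl _).1 _ _) fun i _ => ?_
      rw [← (hl i.2.2).2 i.1]
      exact Finset.single_le_sum (fun a _ => (hl i.2.2).1 i.1 a) (Finset.mem_univ _))
    J (fun W => Petals 𝒞 P i0.1 W ∧ i0.2.1 ∉ W)
    (η1 := ε * (Fintype.card A : ℝ) ^ (k * J) * Real.exp M)
    (η2 := 2 * b + 2 * p ^ (k - 1) * Real.exp M)
    (η3 := 2 * (M ^ (J + 1) / (J + 1).factorial) + b) ?_ ?_ ?_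
  · rw [add_assoc (ε * _ * _)]
    convert key using 3
    · refine E_congr fun ω => ?_
      rw [← ind_and]
      refine ind_congr ⟨fun hh => ⟨?_, fun i hi' => hh i (Finset.mem_of_mem_erase hi')⟩,
        fun hh i hi' => ?_⟩
      · have := hh i0 hi
        rwa [ht] at this
      · by_cases h2 : i = i0
        · rw [h2, ht]
          exact hh.1
        · exact hh.2 i (Finset.mem_erase.2 ⟨h2, hi'⟩)
    · rw [← Finset.prod_erase_mul _ _ hi, ht]
      rfl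
  · have hA : (1 : ℝ) ≤ Fintype.card A := by exact_mod_cast Fintype.card_pos
    calc _ ≤ ∑ c : Finset (Sym2 V) → Option (Sym2 V → A), ∑ W : Finset (Finset (Sym2 V)),
          ind (supp c = W ∧ KStep_prop i0.1 c) *
            (ind (W ⊆ C ∧ W.card ≤ J) * ((p ^ (k - 1)) ^ W.card * ε)) := by
          refine Finset.sum_le_sum fun c _ => ?_
          rw [Finset.sum_eq_single (supp c) (fun W _ hW => by
            rw [ind_neg fun h => hW h.1.symm, zero_mul]) (by simp)]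
          by_cases hg : (supp c).card ≤ J ∧ Petals 𝒞 P i0.1 (supp c) ∧ i0.2.1 ∉ supp c
          · rw [ind_pos hg, one_mul, ind_pos (q := supp c ⊆ C ∧ _) ⟨fun T hT =>
              Finset.mem_filter.2 ⟨(hg.2.1.1 T hT).1, (hg.2.1.1 T hT).2.1⟩, hg.1⟩, one_mul,
              ind_congr (and_iff_right rfl)]
            exact KStep_one S h0 ρ hV hi t val c hg.2.1 hg.2.2 (hIH _ hg.1 hg.2.1)
          · rw [ind_neg hg, zero_mul]
            exact mul_nonneg (ind_nonneg _) (mul_nonneg (ind_nonneg _) (by positivity))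
      _ ≤ ∑ W : Finset (Finset (Sym2 V)), ε * (Fintype.card A : ℝ) ^ (k * J) *
            (ind (W ⊆ C) * (p ^ (k - 1)) ^ W.card) := by
          rw [Finset.sum_comm]
          refine Finset.sum_le_sum fun W _ => ?_
          rw [← Finset.sum_mul]
          by_cases hg : W ⊆ C ∧ W.card ≤ J
          · rw [ind_pos hg, ind_pos hg.1, one_mul, one_mul]
            have h2 := (KStep_count (A := A) i0.1 W fun T hT =>
              S.card T (Finset.mem_filter.1 (hg.1 hT)).1).trans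
              (pow_le_pow_right₀ hA (Nat.mul_le_mul_left k hg.2))
            exact (mul_le_mul_of_nonneg_right h2 (by positivity)).trans (le_of_eq (by ring))
          · rw [ind_neg hg, zero_mul, mul_zero]
            exact mul_nonneg (by positivity) (mul_nonneg (ind_nonneg _) (by positivity))
      _ ≤ _ := by
          rw [← Finset.mul_sum]
          exact mul_le_mul_of_nonneg_left hexp (by positivity)
  · have h2 := (KStep_erase C i0.2.1 hq0).trans (mul_le_mul_of_nonneg_left hexp hq0)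
    have h3 : 0 ≤ p ^ (k - 1) * Real.exp M := by positivity
    refine le_trans ?_ ((add_le_add (add_le_add hb hb) h2).trans (by linarith only [h3]))
    rw [← Finset.sum_add_distrib, ← Finset.sum_add_distrib]
    refine Finset.sum_le_sum fun W _ => ?_
    have n1 := fun q : Prop => mul_nonneg (ind_nonneg q) (pow_nonneg h0 (W.biUnion id \ P).card)
    have n2 := fun q : Prop => mul_nonneg (ind_nonneg q) (pow_nonneg hq0 W.card)
    by_cases hg : W.card ≤ J ∧ ¬ (Petals 𝒞 P i0.1 W ∧ i0.2.1 ∉ W)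
    swap
    · rw [ind_neg hg, zero_mul]
      exact add_nonneg (add_nonneg (n1 _) (n1 _)) (n2 _)
    rw [ind_pos hg, one_mul, KStep_ideal, add_assoc]
    refine add_le_add ((KStep_real h0 h1 P i0.1 i0.2.1 (fun ω => Msg ρ 𝒞 (ω ∪ P) t) W).trans
      (mul_le_mul_of_nonneg_right (ind_mono fun hh => ⟨by omega, hQ W hh.1 hh.2,
        fun h4 => hg.2 ⟨h4, hh.2⟩⟩) (pow_nonneg h0 _))) ?_
    by_cases w1 : W ⊆ C
    swap
    · rw [ind_neg w1, zero_mul]
      exact add_nonneg (n1 _) (n2 _)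
    by_cases w2 : i0.2.1 ∈ W
    · rw [ind_pos w1, ind_pos (q := W ⊆ C ∧ _) ⟨w1, w2⟩]
      exact le_add_of_nonneg_left (n1 _)
    · refine le_trans ?_ (le_add_of_nonneg_right (n2 _))
      rw [ind_pos w1, ind_pos ⟨by omega, hQ W w1 w2, fun h4 => hg.2 ⟨h4, w2⟩⟩, one_mul, one_mul,
        ← pow_mul]
      refine pow_le_pow_of_le_one h0 h1 ?_
      have h5 : W.biUnion id \ P ⊆ W.biUnion fun T => T.erase i0.1 := by
        intro g hg'
        obtain ⟨g1, g2⟩ := Finset.mem_sdiff.1 hg'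
        obtain ⟨T, t1, t2⟩ := Finset.mem_biUnion.1 g1
        exact Finset.mem_biUnion.2 ⟨T, t1, Finset.mem_erase.2 ⟨fun h => g2 (h ▸ he), t2⟩⟩
      refine (Finset.card_le_card h5).trans ((Finset.card_biUnion_le_card_mul _ _ (k - 1)
        fun T hT => ?_).trans (le_of_eq (mul_comm _ _)))
      have := Finset.mem_filter.1 (w1 hT)
      rw [Finset.card_erase_of_mem this.2, S.card T this.1]
  · have h2 := sum_subsets_card C (J + 1) hq0 hM
    have h3 := (Finset.sum_le_sum_of_subset_of_nonneg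
      (Finset.subset_univ (univ.powersetCard (J + 1))) fun W _ _ =>
        mul_nonneg (ind_nonneg _) (pow_nonneg h0 _)).trans hb
    refine le_trans ?_ ((add_le_add (add_le_add h2 h3) h2).trans (by linarith only []))
    rw [← Finset.sum_add_distrib, ← Finset.sum_add_distrib]
    refine Finset.sum_le_sum fun W hW => ?_
    have hc := (Finset.mem_powersetCard.1 hW).2
    rw [KStep_ideal, hc]
    refine add_le_add ((KStep_real h0 h1 P i0.1 i0.2.1 (fun ω => Msg ρ 𝒞 (ω ∪ P) t) W).trans ?_)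
      le_rfl
    have n1 := fun q : Prop => mul_nonneg (ind_nonneg q) (pow_nonneg h0 (W.biUnion id \ P).card)
    have n2 := fun q : Prop => mul_nonneg (ind_nonneg q) (pow_nonneg hq0 (J + 1))
    by_cases w1 : Petals 𝒞 P i0.1 W
    · refine le_trans ?_ (le_add_of_nonneg_right (n1 _))
      rw [w1.card S he, pow_mul, hc]
      exact mul_le_mul_of_nonneg_right (ind_mono fun hh => hh.1) (pow_nonneg hq0 _)
    · refine le_trans ?_ (le_add_of_nonneg_left (n2 _))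
      exact mul_le_mul_of_nonneg_right (ind_mono fun hh => ⟨le_rfl, hQ W hh.1 hh.2, w1⟩)
        (pow_nonneg h0 _)

end Pool.Agent.Work.MP_d4a230_co
end

-- merged part: Pool.Agent.Work.MP_d4a230_co.KLL
section
/-!
The local limit lemma for an arbitrary rule, uniformly in the rule.
-/

namespace Pool.Agent.Work.MP_d4a230_co

open Finset Filter Topology

variable {p : ℕ → ℝ} {𝒞 : ∀ n, Finset (Finset (Sym2 (Fin n)))} {h k K0 : ℕ} {μ Λ : ℝ}

/-- Statement of the local limit lemma with bounded depth and number of deepest items. -/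
def KLL_st (p : ℕ → ℝ) (𝒞 : ∀ n, Finset (Finset (Sym2 (Fin n)))) (k : ℕ) (A : Type) [Inhabited A]
    [Fintype A] (D m : ℕ) : Prop :=
  ∀ (M : ℕ) (ε : ℝ), 0 < ε → ∀ᶠ n in atTop, ∀ (ρ : Rule (Sym2 (Fin n)) A)
    (P : Finset (Sym2 (Fin n))) (I : Finset (HItem (Fin n))) (val : HItem (Fin n) → A),
    P.card ≤ M → HValid (𝒞 n) P I → (∀ i ∈ I, i.2.2 ≤ D) →
    (I.filter fun i => i.2.2 = D).card ≤ m →
    |Pr (p n) (Takes ρ (𝒞 n) P I val) -
      ∏ i ∈ I, law ρ (𝒞 n) (p n ^ (k - 1)) i.2.2 i.1 (val i)| ≤ ε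

lemma KLL_succ (R : HReg p 𝒞 h k K0 μ Λ) {A : Type} [Inhabited A] [Fintype A] {D m : ℕ}
    (ih : KLL_st p 𝒞 k A (D + 1) m) : KLL_st p 𝒞 k A (D + 1) (m + 1) := by
  intro M ε hε
  have hμ := R.mu0
  have hΛ := R.pos
  obtain ⟨J, hJ⟩ : ∃ J : ℕ, (4 * (μ + 1)) ^ (J + 1) / (J + 1).factorial ≤ ε / 8 := by
    have l1 := (FloorSemiring.tendsto_pow_div_factorial_atTop (4 * (μ + 1))).comp
      (tendsto_add_atTop_nat 1)
    exact (l1.eventually (ge_mem_nhds (show (0 : ℝ) < ε / 8 by positivity))).exists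
  have hA : (0 : ℝ) < Fintype.card A := by exact_mod_cast Fintype.card_pos
  set c : ℝ := 4 ^ (M + 2 * k + (J + 1) * k) * (K0 * (Λ + 3)) with hc
  have hc0 : 0 ≤ c := by positivity
  set ε' : ℝ := ε / 4 / (2 ^ J * ((Fintype.card A : ℝ) ^ (k * J) * Real.exp (μ + 1))) with hε'
  set β : ℝ := ε / 4 / ((2 ^ J * 2 + 4 ^ (J + 1)) * ((1 + c) ^ (J + 1) * (1 + (μ + 1)))) with hβ
  set δ : ℝ := ε / 4 / (2 ^ J * (2 * Real.exp (μ + 1))) with hδ
  have hβ0 : 0 < β := by positivity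
  have hε0 : 0 < ε' := by positivity
  filter_upwards [ih M ε hε, ih (J * k + M) ε' hε0, R.bad (M + k) hβ0,
    R.ext (M + 2 * k + (J + 1) * k), R.cnt 1 one_pos,
    R.qlim.eventually (ge_mem_nhds (show 0 < δ by positivity))]
    with n ih1 ih2 c1 c2 c3 c4 ρ P I val hP hV hD hm
  classical
  by_cases hm' : (I.filter fun i => i.2.2 = D + 1).card ≤ m
  · exact ih1 ρ P I val hP hV hD hm'
  obtain ⟨i0, hi0⟩ : (I.filter fun i => i.2.2 = D + 1).Nonempty := Finset.card_pos.1 (by omega)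
  obtain ⟨hi, ht⟩ := Finset.mem_filter.1 hi0
  have S := R.sys n
  obtain ⟨hnd, heP, -⟩ := hV.1 i0 hi
  have hM : (((𝒞 n).filter fun T => i0.1 ∈ T).card : ℝ) * p n ^ (k - 1) ≤ μ + 1 := by
    linarith only [c3, hnd, (abs_le.1 (c3 _ hnd)).2]
  have hb := S.nonpetal (R.p0 n) (R.p1 n) hnd heP (J + 1) (Cm := (1 + c) ^ (J + 1)) hβ0.le
    (by positivity) (fun P' hP' => c1 P' (by omega))
    (fun P' h1 h2 => moment_bound S (R.p0 n) hc0 (M := M + 2 * k + (J + 1) * k)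
      (fun P'' h3 h4 => c2 P'' h4 _ fun T hT => ⟨(Finset.mem_filter.1 hT).1,
        two_le_inter hnd (Finset.mem_filter.1 hT).2 h3⟩) (J + 1) P' h1 (by omega)) hM
  refine (rule_step S (R.p0 n) (R.p1 n) ρ hV hi ht val J hε0.le hM hb fun W hj w2 val' =>
    ih2 ρ _ _ val' ?_ (hvalid_step S hV hi D w2) ?_ ?_).trans ?_
  · refine (Finset.card_union_le _ _).trans (add_le_add ?_ hP)
    exact (Finset.card_biUnion_le_card_mul _ _ k fun T hT => (S.card T (w2.1 T hT).1).le).trans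
      (Nat.mul_le_mul_right _ hj)
  · intro i hi'
    rcases Finset.mem_union.1 hi' with hi' | hi'
    · obtain ⟨T, _, g, _, _, rfl⟩ := mem_HIW.1 hi'; exact Nat.le_succ D
    · exact hD i (Finset.mem_of_mem_erase hi')
  · have : ((HIW i0.1 D W ∪ I.erase i0).filter fun i => i.2.2 = D + 1) ⊆
        (I.filter fun i => i.2.2 = D + 1).erase i0 := by
      intro i hi'
      obtain ⟨h1, h2⟩ := Finset.mem_filter.1 hi'
      rcases Finset.mem_union.1 h1 with h1 | h1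
      · obtain ⟨T, _, g, _, _, rfl⟩ := mem_HIW.1 h1; simp at h2
      · exact Finset.mem_erase.2 ⟨(Finset.mem_erase.1 h1).1,
          Finset.mem_filter.2 ⟨Finset.mem_of_mem_erase h1, h2⟩⟩
    have e1 := Finset.card_le_card this
    rw [Finset.card_erase_of_mem hi0] at e1
    omega
  · have e1 : 2 ^ J * (ε' * (Fintype.card A : ℝ) ^ (k * J) * Real.exp (μ + 1)) = ε / 4 := by
      rw [hε']; field_simp
    have e2 : (2 ^ J * 2 + 4 ^ (J + 1)) * ((1 + c) ^ (J + 1) * β * (1 + (μ + 1))) = ε / 4 := by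
      rw [hβ]; field_simp
    have e3 : 2 ^ J * (2 * p n ^ (k - 1) * Real.exp (μ + 1)) ≤ ε / 4 := by
      rw [hδ, le_div_iff₀ (by positivity)] at c4
      linarith only [c4]
    have e4 : (4 : ℝ) ^ (J + 1) * (2 * ((μ + 1) ^ (J + 1) / (J + 1).factorial)) ≤ ε / 4 := by
      rw [mul_pow, mul_div_assoc] at hJ
      linarith only [hJ]
    linarith only [e1, e2, e3, e4]

theorem rule_limit (R : HReg p 𝒞 h k K0 μ Λ) (A : Type) [Inhabited A] [Fintype A] (D M : ℕ)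
    {ε : ℝ} (hε : 0 < ε) :
    ∀ᶠ n in atTop, ∀ (ρ : Rule (Sym2 (Fin n)) A) (P : Finset (Sym2 (Fin n)))
      (I : Finset (HItem (Fin n))) (val : HItem (Fin n) → A), P.card ≤ M → HValid (𝒞 n) P I →
      (∀ i ∈ I, i.2.2 ≤ D) →
      |Pr (p n) (Takes ρ (𝒞 n) P I val) -
        ∏ i ∈ I, law ρ (𝒞 n) (p n ^ (k - 1)) i.2.2 i.1 (val i)| ≤ ε := by
  have key : ∀ D m, KLL_st p 𝒞 k A D m := by
    intro D
    induction D with
    | zero =>
      intro m M ε hε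
      refine Filter.Eventually.of_forall fun n ρ P I val _ _ hD _ => ?_
      have e1 : Pr (p n) (Takes ρ (𝒞 n) P I val) = ind (∀ i ∈ I, ρ.init i.1 = val i) := by
        unfold Pr
        rw [E_congr (g := fun _ => ind (∀ i ∈ I, ρ.init i.1 = val i)), E_const]
        refine fun ω => ind_congr (forall₂_congr fun i hi => ?_)
        rw [Nat.le_zero.1 (hD i hi)]
        exact Iff.rfl
      have e2 : ∏ i ∈ I, law ρ (𝒞 n) (p n ^ (k - 1)) i.2.2 i.1 (val i) =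
          ind (∀ i ∈ I, ρ.init i.1 = val i) := by
        rw [Finset.prod_congr rfl (g := fun i => ind (ρ.init i.1 = val i)) fun i hi => by
          rw [Nat.le_zero.1 (hD i hi)]; rfl]
        by_cases h : ∀ i ∈ I, ρ.init i.1 = val i
        · rw [ind_pos h]
          exact Finset.prod_eq_one fun i hi => ind_pos (h i hi)
        · rw [ind_neg h]
          push Not at h
          obtain ⟨i, hi, h⟩ := h
          exact Finset.prod_eq_zero hi (ind_neg h)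
      rw [e1, e2, sub_self, abs_zero]; exact hε.le
    | succ D ih =>
      intro m
      induction m with
      | zero =>
        intro M ε hε
        filter_upwards [ih M M ε hε] with n hn ρ P I val hP hV hD hk
        refine hn ρ P I val hP hV (fun i hi => ?_)
          ((Finset.card_filter_le _ _).trans (hV.card_le.trans hP))
        have h1 := hD i hi
        have h2 : i.2.2 ≠ D + 1 := fun h3 => by
          have := Finset.card_pos.2
            ⟨i, (Finset.mem_filter (p := fun i => i.2.2 = D + 1)).2 ⟨hi, h3⟩⟩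
          omega
        omega
      | succ m ihk => exact KLL_succ R ihk
  filter_upwards [key D M M ε hε] with n hn ρ P I val hP hV hD
  exact hn ρ P I val hP hV hD ((Finset.card_filter_le _ _).trans (hV.card_le.trans hP))

end Pool.Agent.Work.MP_d4a230_co
end

-- merged part: Pool.Agent.Work.MP_d4a230_co.KCore
section
/-!
Deterministic properties of the core.
-/

namespace Pool.Agent.Work.MP_d4a230_co

open Finset

variable {ι : Type} [DecidableEq ι] {𝒞 : Finset (Finset ι)} {𝓔 : Finset ι} {ins : ι → Prop}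
  {K : ι → ℝ} {D1 : ℝ} {ω : Finset ι}

lemma mem_red {s : ℕ} {e : ι} :
    e ∈ red 𝒞 ins K D1 s ω ↔ e ∈ ω ∧ ¬ (ins e ∧ Core 𝒞 ins K D1 ω s e) := by
  unfold red; simp only [Finset.mem_filter]

lemma red_subset (s : ℕ) : red 𝒞 ins K D1 s ω ⊆ ω := fun _ h => (mem_red.1 h).1

omit [DecidableEq ι] in
lemma KCore_sum_eq_le (X : Finset ι) : ∑ T ∈ 𝒞, ind (T = X) ≤ 1 := by
  classical
  by_cases h : X ∈ 𝒞
  · rw [Finset.sum_eq_single_of_mem X h fun T _ hT => ind_neg hT, ind_pos rfl]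
  · rw [Finset.sum_eq_zero fun T hT => ind_neg fun hX : T = X => h (hX ▸ hT)]
    norm_num

lemma KCore_abs_ind (q r : Prop) : |ind q - ind r| ≤ 1 := by
  rw [abs_le]
  constructor <;> linarith [ind_nonneg q, ind_nonneg r, ind_le_one q, ind_le_one r]

lemma Core.anti {i j : ℕ} (hij : i ≤ j) {e : ι} (h : Core 𝒞 ins K D1 ω j e) :
    Core 𝒞 ins K D1 ω i e := by
  induction i generalizing j e with
  | zero => trivial
  | succ i ih =>
    obtain ⟨j, rfl⟩ : ∃ j', j = j' + 1 := ⟨j - 1, by omega⟩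
    have hij' : i ≤ j := by omega
    obtain ⟨h1, h2⟩ := h
    refine ⟨fun he => (h1 he).trans (Finset.sum_le_sum fun T _ => ind_mono fun hT => ?_),
      fun he => ⟨(h2 he).1, fun T hT heT hω => ?_⟩⟩
    · exact ⟨hT.1, hT.2.1, fun g hg hge => ⟨(hT.2.2 g hg hge).1, ih hij' (hT.2.2 g hg hge).2⟩⟩
    · obtain ⟨g, hg, hi, hc⟩ := (h2 he).2 T hT heT hω
      exact ⟨g, hg, hi, ih hij' hc⟩

lemma Kap.anti {i j : ℕ} (hij : i ≤ j) {e : ι} {X : Finset ι} (h : Kap 𝒞 ins K D1 ω j e X) :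
    Kap 𝒞 ins K D1 ω i e X := by
  induction i generalizing j e X with
  | zero => trivial
  | succ i ih =>
    obtain ⟨j, rfl⟩ : ∃ j', j = j' + 1 := ⟨j - 1, by omega⟩
    have hij' : i ≤ j := by omega
    obtain ⟨h1, h2⟩ := h
    refine ⟨fun he => (h1 he).trans (Finset.sum_le_sum fun T _ => ind_mono fun hT => ?_),
      fun he => ⟨(h2 he).1, fun T hT hX heT hω => ?_⟩⟩
    · exact ⟨hT.1, fun g hg hge => ⟨(hT.2 g hg hge).1, ih hij' (hT.2 g hg hge).2⟩⟩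
    · obtain ⟨g, hg, hge, hi, hc⟩ := (h2 he).2 T hT hX heT hω
      exact ⟨g, hg, hge, hi, ih hij' hc⟩

lemma Kap.core {j : ℕ} {e : ι} {X : Finset ι} (he : ins e) (h : Kap 𝒞 ins K D1 ω j e X) :
    Core 𝒞 ins K D1 ω j e := by
  induction j using Nat.strong_induction_on generalizing e X with
  | _ j ih =>
    rcases j with _ | j
    · trivial
    refine ⟨fun _ => (h.1 he).trans (Finset.sum_le_sum fun T _ => ind_mono fun hT => ?_),
      fun hn => absurd he hn⟩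
    refine ⟨hT.1.2.1, hT.1.2.2, fun g hg hge => ⟨(hT.2 g hg hge).1, ?_⟩⟩
    obtain ⟨hgn, hgK⟩ := hT.2 g hg hge
    rcases j with _ | j
    · trivial
    obtain ⟨k1, k2⟩ := hgK.2 hgn
    refine ⟨fun hi => absurd hi hgn, fun _ => ⟨?_, fun T' hT' hgT' hω => ?_⟩⟩
    · refine le_trans ?_ k1
      refine le_trans ?_ (add_le_add_right (KCore_sum_eq_le (𝒞 := 𝒞) T) _)
      rw [← Finset.sum_add_distrib]
      refine Finset.sum_le_sum fun T' _ => le_trans (ind_mono fun h' => ?_) (ind_or_le _ _)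
      by_cases hc : T' = T
      · exact Or.inr hc
      · exact Or.inl ⟨hc, h'⟩
    · by_cases hc : T' = T
      · exact ⟨e, hc ▸ hT.1.2.1, he, ih j (by omega) he (h.anti (by omega))⟩
      · obtain ⟨g', hg', -, hi, hk⟩ := k2 T' hT' hc hgT' hω
        exact ⟨g', hg', hi, ih j (by omega) hi hk⟩

lemma Core.bp (hK : ∀ e, ins e → 2 ≤ K e) {i : ℕ} {e : ι} (h : Core 𝒞 ins K D1 ω i e)
    (X : Finset ι) : BP 𝒞 ins ω i e X ↔ ¬ ins e := by
  induction i generalizing e X with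
  | zero => exact Iff.rfl
  | succ i ih =>
    constructor
    · intro hb he
      have h1 := (hK e he).trans (h.1 he)
      have h2 : ∑ T ∈ 𝒞, ind (e ∈ T ∧ T ⊆ ω ∧
          ∀ g ∈ T, g ≠ e → ¬ ins g ∧ Core 𝒞 ins K D1 ω i g) ≤ ∑ T ∈ 𝒞, ind (T = X) := by
        refine Finset.sum_le_sum fun T hT => ind_mono fun h' => ?_
        by_contra hX
        exact hb T hT hX h'.1 h'.2.1 fun g hg hge =>
          (ih (h'.2.2 g hg hge).2 T).2 (h'.2.2 g hg hge).1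
      linarith [KCore_sum_eq_le (𝒞 := 𝒞) X]
    · intro he T hT _ heT hω hall
      obtain ⟨g, hg, hi, hc⟩ := (h.2 he).2 T hT heT hω
      exact (ih hc T).1 (hall g hg fun hge => he (hge ▸ hi)) hi

/-- Outside the suspect messages the reduced set carries the messages of belief propagation. -/
theorem red_iff_bp (hK : ∀ e, ins e → 2 ≤ K e) {s i : ℕ} (hi : i ≤ s) {e : ι} (he : e ∈ ω)
    {X : Finset ι} (h : ¬ Sus 𝒞 ins K D1 s ω (s + i) e X) :
    (e ∈ red 𝒞 ins K D1 s ω ∧ HF 𝒞 (red 𝒞 ins K D1 s ω) i e X) ↔ BP 𝒞 ins ω i e X := by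
  induction i generalizing e X with
  | zero =>
    have hc : ins e ∧ Core 𝒞 ins K D1 ω s e := by
      rcases s with _ | s
      · exact ⟨not_not.1 h, trivial⟩
      · by_contra hn
        exact h ⟨fun hk => hn ⟨hk.1, hk.2.core hk.1⟩, Or.inl (Nat.lt_succ_self s)⟩
    exact iff_of_false (fun h' => (mem_red.1 h'.1).2 hc) fun h' => h' hc.1
  | succ i ih =>
    by_cases hc : ins e ∧ Core 𝒞 ins K D1 ω s e
    · exact iff_of_false (fun h' => (mem_red.1 h'.1).2 hc)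
        fun h' => ((hc.2.anti hi).bp hK X).1 h' hc.1
    have her : e ∈ red 𝒞 ins K D1 s ω := mem_red.2 ⟨he, hc⟩
    have hnk : ¬ (ins e ∧ Kap 𝒞 ins K D1 ω (s + i + 1) e X) := fun hk =>
      hc ⟨hk.1, (hk.2.core hk.1).anti (by omega)⟩
    have key : ∀ T ∈ 𝒞, T ≠ X → e ∈ T → T ⊆ ω →
        ((T ⊆ red 𝒞 ins K D1 s ω ∧ ∀ g ∈ T, g ≠ e → HF 𝒞 (red 𝒞 ins K D1 s ω) i g T) ↔
          ∀ g ∈ T, g ≠ e → BP 𝒞 ins ω i g T) := by
      intro T hT hX heT hω
      by_cases hk : ∀ g ∈ T, g ≠ e → ¬ (ins g ∧ Kap 𝒞 ins K D1 ω (s + i) g T)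
      · have hs : ∀ g ∈ T, g ≠ e → ¬ Sus 𝒞 ins K D1 s ω (s + i) g T := fun g hg hge hs =>
          h ⟨hnk, Or.inr ⟨T, hT, hX, heT, hω, hk, g, hg, hge, hs⟩⟩
        constructor
        · intro h' g hg hge
          exact (ih (by omega) (hω hg) (hs g hg hge)).1 ⟨h'.1 hg, h'.2 g hg hge⟩
        · intro h'
          refine ⟨fun g hg => ?_, fun g hg hge =>
            ((ih (by omega) (hω hg) (hs g hg hge)).2 (h' g hg hge)).2⟩
          by_cases hge : g = e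
          · exact hge ▸ her
          · exact ((ih (by omega) (hω hg) (hs g hg hge)).2 (h' g hg hge)).1
      · refine iff_of_false (fun h' => hk fun g hg _ hg' => ?_) fun h' => hk fun g hg hge hg' => ?_
        · exact (mem_red.1 (h'.1 hg)).2 ⟨hg'.1, (hg'.2.core hg'.1).anti (by omega)⟩
        · exact (((hg'.2.core hg'.1).anti (Nat.le_add_left i s)).bp hK T).1 (h' g hg hge) hg'.1
    constructor
    · intro h' T hT hX heT hω hall
      obtain ⟨k1, k2⟩ := (key T hT hX heT hω).2 hall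
      exact h'.2 T hT hX heT k1 k2
    · intro h'
      refine ⟨her, fun T hT hX heT hr hall => ?_⟩
      have hω : T ⊆ ω := hr.trans (red_subset s)
      exact h' T hT hX heT hω ((key T hT hX heT hω).1 ⟨hr, hall⟩)

lemma free_bp (hK : ∀ e, ins e → 2 ≤ K e) {s i : ℕ} (hi : i ≤ s) :
    |freeN 𝒞 𝓔 i (red 𝒞 ins K D1 s ω) - ∑ e ∈ 𝓔, ind (e ∈ ω ∧ BP 𝒞 ins ω i e ∅)| ≤
      ∑ e ∈ 𝓔, ind (e ∈ ω ∧ Sus 𝒞 ins K D1 s ω (s + i) e ∅) := by
  unfold freeN
  rw [← Finset.sum_sub_distrib]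
  refine (Finset.abs_sum_le_sum_abs _ _).trans (Finset.sum_le_sum fun e _ => ?_)
  by_cases h : e ∈ ω ∧ Sus 𝒞 ins K D1 s ω (s + i) e ∅
  · rw [ind_pos h]
    exact KCore_abs_ind _ _
  · rw [ind_neg h, ind_congr (r := e ∈ ω ∧ BP 𝒞 ins ω i e ∅), sub_self, abs_zero]
    constructor
    · intro h'
      have he := red_subset s h'.1
      exact ⟨he, (red_iff_bp hK hi he fun hs => h ⟨he, hs⟩).1 h'⟩
    · intro h'
      exact (red_iff_bp hK hi h'.1 fun hs => h ⟨h'.1, hs⟩).2 h'.2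

lemma sat_bp (hK : ∀ e, ins e → 2 ≤ K e) {s i : ℕ} (hi : i ≤ s) :
    |satN 𝒞 i (red 𝒞 ins K D1 s ω) - ∑ T ∈ 𝒞, ind (T ⊆ ω ∧ ∀ g ∈ T, BP 𝒞 ins ω i g T)| ≤
      ∑ T ∈ 𝒞, ∑ g ∈ T, ind (T ⊆ ω ∧ Sus 𝒞 ins K D1 s ω (s + i) g T) := by
  unfold satN
  rw [← Finset.sum_sub_distrib]
  refine (Finset.abs_sum_le_sum_abs _ _).trans (Finset.sum_le_sum fun T _ => ?_)
  refine le_trans ?_ (ind_exists_le T fun g => T ⊆ ω ∧ Sus 𝒞 ins K D1 s ω (s + i) g T)
  by_cases h : ∃ g ∈ T, T ⊆ ω ∧ Sus 𝒞 ins K D1 s ω (s + i) g T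
  · rw [ind_pos h]
    exact KCore_abs_ind _ _
  · rw [ind_neg h, ind_congr (r := T ⊆ ω ∧ ∀ g ∈ T, BP 𝒞 ins ω i g T), sub_self, abs_zero]
    constructor
    · intro h'
      have hω : T ⊆ ω := h'.1.trans (red_subset s)
      exact ⟨hω, fun g hg => (red_iff_bp hK hi (hω hg) fun hs => h ⟨g, hg, hω, hs⟩).1
        ⟨h'.1 hg, h'.2 g hg⟩⟩
    · intro h'
      have k := fun g (hg : g ∈ T) =>
        (red_iff_bp hK hi (h'.1 hg) fun hs => h ⟨g, hg, h'.1, hs⟩).2 (h'.2 g hg)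
      exact ⟨fun g hg => (k g hg).1, fun g hg => (k g hg).2⟩

end Pool.Agent.Work.MP_d4a230_co
end

-- merged part: Pool.Agent.Work.MP_d4a230_co.KCore2
section
/-!
The deterministic upper bound and the rules of the core.
-/

namespace Pool.Agent.Work.MP_d4a230_co

open Finset

variable {ι : Type} [DecidableEq ι] {𝒞 : Finset (Finset ι)} {𝓔 : Finset ι} {ins : ι → Prop}
  {K : ι → ℝ} {D1 : ℝ} {ω : Finset ι}

/-- The deterministic upper bound. -/
theorem core_upper {k : ℕ} (hk : ∀ T ∈ 𝒞, T.card = k) (hD : ∀ T ∈ 𝒞, T ⊆ 𝓔) {ω' : Finset ι}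
    (hle : ω' ⊆ ω) (hfree : ∀ T ∈ 𝒞, ¬ T ⊆ ω') (s t : ℕ) :
    ∃ J Z, JZ 𝒞 ins K D1 ω ω' J Z ∧ ∑ e ∈ 𝓔, ind (e ∈ ω') + Z.card ≤
      freeN 𝒞 𝓔 (2 * t + 2) (red 𝒞 ins K D1 s ω) +
        ((k : ℝ) - 1) * satN 𝒞 (2 * t + 1) (red 𝒞 ins K D1 s ω) + J.card +
        ∑ e ∈ 𝓔, ind (e ∈ ω ∧ Core 𝒞 ins K D1 ω s e ∧ ¬ Core 𝒞 ins K D1 ω (s + 2) e) := by
  classical
  set X : Finset ι := 𝓔.filter fun e => e ∈ ω ∧ ¬ ins e ∧ Core 𝒞 ins K D1 ω (s + 1) e with hX
  set J : Finset ι := ω'.filter fun e => ins e ∧ Core 𝒞 ins K D1 ω (s + 2) e with hJ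
  set W : Finset ι := (ω'.filter fun e => ¬ (ins e ∧ Core 𝒞 ins K D1 ω s e)) ∪ X with hW
  have mX : ∀ e, e ∈ X ↔ e ∈ 𝓔 ∧ e ∈ ω ∧ ¬ ins e ∧ Core 𝒞 ins K D1 ω (s + 1) e := fun e => by
    rw [hX, Finset.mem_filter]
  have mJ : ∀ e, e ∈ J ↔ e ∈ ω' ∧ ins e ∧ Core 𝒞 ins K D1 ω (s + 2) e := fun e => by
    rw [hJ, Finset.mem_filter]
  have mW : ∀ e, e ∈ W ↔ (e ∈ ω' ∧ ¬ (ins e ∧ Core 𝒞 ins K D1 ω s e)) ∨ e ∈ X := fun e => by
    rw [hW, Finset.mem_union, Finset.mem_filter]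
  have hWred : W ⊆ red 𝒞 ins K D1 s ω := by
    intro e he
    rcases (mW e).1 he with h | h
    · exact mem_red.2 ⟨hle h.1, h.2⟩
    · exact mem_red.2 ⟨((mX e).1 h).2.1, fun h' => ((mX e).1 h).2.2.1 h'.1⟩
  have hWfree : ∀ T ∈ 𝒞, ¬ T ⊆ W := by
    intro T hT hTW
    have hTω : T ⊆ ω := hTW.trans (hWred.trans (red_subset s))
    by_cases h : ∃ e ∈ T, e ∈ X
    · obtain ⟨e, he, heX⟩ := h
      obtain ⟨_, _, h2, h3⟩ := (mX e).1 heX
      obtain ⟨g, hg, h4⟩ := (h3.2 h2).2 T hT he hTω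
      exact (mem_red.1 (hWred (hTW hg))).2 h4
    · refine hfree T hT fun e he => ?_
      rcases (mW e).1 (hTW he) with h' | h'
      · exact h'.1
      · exact absurd ⟨e, he, h'⟩ h
  have hup := hupper_det hk 𝓔 hD hWred hWfree t
  refine ⟨J, X \ ω', ⟨Finset.filter_subset _ _, fun e he => ((mJ e).1 he).2.1,
    fun e he => ((mX e).1 (Finset.mem_sdiff.1 he).1).2.1, Finset.sdiff_disjoint,
    fun e he => ((mX e).1 (Finset.mem_sdiff.1 he).1).2.2.1, fun e he => ?_⟩, ?_⟩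
  · obtain ⟨h1, h2, h3⟩ := (mJ e).1 he
    refine (h3.1 h2).trans (Finset.sum_le_sum fun T hT => ind_mono fun h => ?_)
    obtain ⟨h4, h5, h6⟩ := h
    refine ⟨h4, h5, fun g hg hge => ⟨(h6 g hg hge).1, ((h6 g hg hge).2.2 (h6 g hg hge).1).1⟩, ?_⟩
    obtain ⟨f, hf, hf'⟩ := Finset.not_subset.1 (hfree T hT)
    have hfe : f ≠ e := fun h => hf' (h ▸ h1)
    exact ⟨f, hf, Finset.mem_sdiff.2 ⟨(mX f).2 ⟨hD T hT hf, h5 hf, (h6 f hf hfe).1,
      (h6 f hf hfe).2⟩, hf'⟩⟩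
  · have e1 : ((X \ ω').card : ℝ) = ∑ e ∈ 𝓔, ind (e ∈ X \ ω') := by
      rw [sum_ind]
      congr 2
      ext e
      rw [Finset.mem_filter]
      exact ⟨fun h => ⟨((mX e).1 (Finset.mem_sdiff.1 h).1).1, h⟩, fun h => h.2⟩
    have e2 : ∑ e ∈ 𝓔, ind (e ∈ J) ≤ (J.card : ℝ) := by
      rw [sum_ind]
      exact_mod_cast Finset.card_le_card fun e he => (Finset.mem_filter.1 he).2
    have e3 : ∑ e ∈ 𝓔, (ind (e ∈ ω') + ind (e ∈ X \ ω')) ≤
        ∑ e ∈ 𝓔, (ind (e ∈ W) + ind (e ∈ J) +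
          ind (e ∈ ω ∧ Core 𝒞 ins K D1 ω s e ∧ ¬ Core 𝒞 ins K D1 ω (s + 2) e)) := by
      refine Finset.sum_le_sum fun e _ => ?_
      have n1 := ind_nonneg (e ∈ W)
      have n2 := ind_nonneg (e ∈ J)
      have n3 := ind_nonneg (e ∈ ω ∧ Core 𝒞 ins K D1 ω s e ∧ ¬ Core 𝒞 ins K D1 ω (s + 2) e)
      by_cases he : e ∈ ω'
      · rw [ind_pos he, ind_neg (q := e ∈ X \ ω') (fun h => (Finset.mem_sdiff.1 h).2 he)]
        by_cases h1 : ins e ∧ Core 𝒞 ins K D1 ω s e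
        · by_cases h2 : Core 𝒞 ins K D1 ω (s + 2) e
          · rw [ind_pos ((mJ e).2 ⟨he, h1.1, h2⟩)]; linarith
          · rw [ind_pos (q := e ∈ ω ∧ _) ⟨hle he, h1.2, h2⟩]; linarith
        · rw [ind_pos ((mW e).2 (Or.inl ⟨he, h1⟩))]; linarith
      · rw [ind_neg he]
        have := ind_mono (q := e ∈ X \ ω') (r := e ∈ W)
          fun h => (mW e).2 (Or.inr (Finset.mem_sdiff.1 h).1)
        linarith
    simp only [Finset.sum_add_distrib] at e3
    unfold freeN satN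
    linarith

lemma core_pigeon (s0 S : ℕ) (hS : 0 < S) : ∃ s, s0 ≤ s ∧ s ≤ s0 + 2 * S ∧
    S * ∑ e ∈ 𝓔, ind (e ∈ ω ∧ Core 𝒞 ins K D1 ω s e ∧ ¬ Core 𝒞 ins K D1 ω (s + 2) e) ≤
      ∑ e ∈ 𝓔, ind (e ∈ ω) := by
  have hd : ∀ s, ∑ e ∈ 𝓔, ind (e ∈ ω ∧ Core 𝒞 ins K D1 ω s e ∧ ¬ Core 𝒞 ins K D1 ω (s + 2) e) =
      ∑ e ∈ 𝓔, ind (e ∈ ω ∧ Core 𝒞 ins K D1 ω s e) -
        ∑ e ∈ 𝓔, ind (e ∈ ω ∧ Core 𝒞 ins K D1 ω (s + 2) e) := by
    intro s
    rw [← Finset.sum_sub_distrib]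
    refine Finset.sum_congr rfl fun e _ => ?_
    by_cases h1 : e ∈ ω ∧ Core 𝒞 ins K D1 ω (s + 2) e
    · rw [ind_neg (fun h => h.2.2 h1.2), ind_pos h1,
        ind_pos (q := e ∈ ω ∧ _) ⟨h1.1, Core.anti (Nat.le_add_right s 2) h1.2⟩]
      ring
    · rw [ind_neg h1, sub_zero]
      exact ind_congr ⟨fun h => ⟨h.1, h.2.1⟩, fun h => ⟨h.1, h.2, fun h' => h1 ⟨h.1, h'⟩⟩⟩
  have htel : ∀ n, ∑ a ∈ range n, ∑ e ∈ 𝓔, ind (e ∈ ω ∧ Core 𝒞 ins K D1 ω (s0 + 2 * a) e ∧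
      ¬ Core 𝒞 ins K D1 ω (s0 + 2 * a + 2) e) = ∑ e ∈ 𝓔, ind (e ∈ ω ∧ Core 𝒞 ins K D1 ω s0 e) -
        ∑ e ∈ 𝓔, ind (e ∈ ω ∧ Core 𝒞 ins K D1 ω (s0 + 2 * n) e) := by
    intro n
    induction n with
    | zero => simp
    | succ n ih =>
      rw [Finset.sum_range_succ, ih, hd, show s0 + 2 * (n + 1) = s0 + 2 * n + 2 by ring]
      ring
  have hle : ∑ a ∈ range S, ∑ e ∈ 𝓔, ind (e ∈ ω ∧ Core 𝒞 ins K D1 ω (s0 + 2 * a) e ∧
      ¬ Core 𝒞 ins K D1 ω (s0 + 2 * a + 2) e) ≤ ∑ e ∈ 𝓔, ind (e ∈ ω) := by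
    rw [htel]
    have n1 : 0 ≤ ∑ e ∈ 𝓔, ind (e ∈ ω ∧ Core 𝒞 ins K D1 ω (s0 + 2 * S) e) :=
      Finset.sum_nonneg fun _ _ => ind_nonneg _
    have n2 : ∑ e ∈ 𝓔, ind (e ∈ ω ∧ Core 𝒞 ins K D1 ω s0 e) ≤ ∑ e ∈ 𝓔, ind (e ∈ ω) :=
      Finset.sum_le_sum fun _ _ => ind_mono fun h => h.1
    linarith
  obtain ⟨a, ha, h⟩ := Finset.exists_le_of_sum_le (s := range S)
    (f := fun a => (S : ℝ) * ∑ e ∈ 𝓔, ind (e ∈ ω ∧ Core 𝒞 ins K D1 ω (s0 + 2 * a) e ∧
      ¬ Core 𝒞 ins K D1 ω (s0 + 2 * a + 2) e)) (g := fun _ => ∑ e ∈ 𝓔, ind (e ∈ ω))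
    (Finset.nonempty_range_iff.2 hS.ne') (by
      rw [← Finset.mul_sum, Finset.sum_const, Finset.card_range, nsmul_eq_mul]
      exact mul_le_mul_of_nonneg_left hle (Nat.cast_nonneg _))
  have := Finset.mem_range.1 ha
  exact ⟨s0 + 2 * a, by omega, by omega, h⟩

lemma KCore2_lab {A : Type} [Inhabited A] {e g : ι} {T : Finset ι} (m : ι → A) (hg : g ∈ T)
    (hge : g ≠ e) : lab e T m g = m g := by
  unfold lab
  rw [if_pos ⟨hg, hge⟩]

lemma Msg_bp (t : ℕ) (e : ι) (X : Finset ι) : Msg (bpRule ins) 𝒞 ω t e X ↔ BP 𝒞 ins ω t e X := by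
  induction t generalizing e X with
  | zero => exact Iff.rfl
  | succ t ih =>
    change (∀ T l, cfgOf 𝒞 ω e X (Msg (bpRule ins) 𝒞 ω t) T = some l →
      ¬ ∀ g ∈ T, g ≠ e → l g) ↔ ∀ T ∈ 𝒞, T ≠ X → e ∈ T → T ⊆ ω →
        ¬ ∀ g ∈ T, g ≠ e → BP 𝒞 ins ω t g T
    constructor
    · intro h T h1 h2 h3 h4 h5
      refine h T _ (cfgOf_eq_some.2 ⟨⟨h1, h2, h3, h4⟩, rfl⟩) fun g hg hge => ?_
      rw [KCore2_lab _ hg hge]
      exact (ih g T).2 (h5 g hg hge)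
    · intro h T l hl h5
      obtain ⟨⟨h1, h2, h3, h4⟩, rfl⟩ := cfgOf_eq_some.1 hl
      refine h T h1 h2 h3 h4 fun g hg hge => ?_
      have := h5 g hg hge
      rw [KCore2_lab _ hg hge] at this
      exact (ih g T).1 this

lemma KCore2_kap {t : ℕ} {e : ι} {X : Finset ι} {m : ι → Finset ι → Prop × Prop}
    (hm : ∀ g T, (m g T).1 = Kap 𝒞 ins K D1 ω t g T) :
    kapUpd 𝒞 ins K D1 e (cfgOf 𝒞 ω e X m) ↔ Kap 𝒞 ins K D1 ω (t + 1) e X := by
  have e1 : ∑ T ∈ 𝒞, ind (∃ l, cfgOf 𝒞 ω e X m T = some l ∧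
      ∀ g ∈ T, g ≠ e → ¬ ins g ∧ (l g).1) = ∑ T ∈ 𝒞, ind ((T ≠ X ∧ e ∈ T ∧ T ⊆ ω) ∧
        ∀ g ∈ T, g ≠ e → ¬ ins g ∧ Kap 𝒞 ins K D1 ω t g T) := by
    refine Finset.sum_congr rfl fun T hT => ind_congr ⟨?_, ?_⟩
    · rintro ⟨l, hl, h⟩
      obtain ⟨⟨_, h2⟩, rfl⟩ := cfgOf_eq_some.1 hl
      refine ⟨h2, fun g hg hge => ?_⟩
      have := h g hg hge
      rwa [KCore2_lab _ hg hge, hm] at this
    · rintro ⟨h1, h⟩
      refine ⟨_, cfgOf_eq_some.2 ⟨⟨hT, h1⟩, rfl⟩, fun g hg hge => ?_⟩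
      rw [KCore2_lab _ hg hge, hm]
      exact h g hg hge
  have e2 : ∑ T ∈ 𝒞, ind (cfgOf 𝒞 ω e X m T ≠ none) =
      ∑ T ∈ 𝒞, ind (T ≠ X ∧ e ∈ T ∧ T ⊆ ω) :=
    Finset.sum_congr rfl fun T hT => ind_congr
      ⟨fun h => (cfgOf_ne_none.1 h).2, fun h => cfgOf_ne_none.2 ⟨hT, h⟩⟩
  have e3 : (∀ T l, cfgOf 𝒞 ω e X m T = some l → ∃ g ∈ T, g ≠ e ∧ ins g ∧ (l g).1) ↔
      ∀ T ∈ 𝒞, T ≠ X → e ∈ T → T ⊆ ω → ∃ g ∈ T, g ≠ e ∧ ins g ∧ Kap 𝒞 ins K D1 ω t g T := by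
    constructor
    · intro h T h1 h2 h3 h4
      obtain ⟨g, hg, hge, h5, h6⟩ := h T _ (cfgOf_eq_some.2 ⟨⟨h1, h2, h3, h4⟩, rfl⟩)
      rw [KCore2_lab _ hg hge, hm] at h6
      exact ⟨g, hg, hge, h5, h6⟩
    · intro h T l hl
      obtain ⟨⟨h1, h2, h3, h4⟩, rfl⟩ := cfgOf_eq_some.1 hl
      obtain ⟨g, hg, hge, h5, h6⟩ := h T h1 h2 h3 h4
      refine ⟨g, hg, hge, h5, ?_⟩
      rw [KCore2_lab _ hg hge, hm]
      exact h6
  unfold kapUpd
  rw [e1, e2, e3]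
  exact Iff.rfl

lemma Msg_core (s t : ℕ) (e : ι) (X : Finset ι) : Msg (coreRule 𝒞 ins K D1 s) 𝒞 ω t e X =
    (Kap 𝒞 ins K D1 ω t e X, Sus 𝒞 ins K D1 s ω t e X) := by
  induction t generalizing e X with
  | zero => rfl
  | succ t ih =>
    have hm : ∀ g T, (Msg (coreRule 𝒞 ins K D1 s) 𝒞 ω t g T).1 = Kap 𝒞 ins K D1 ω t g T :=
      fun g T => by rw [ih]
    have hm' : ∀ g T, (Msg (coreRule 𝒞 ins K D1 s) 𝒞 ω t g T).2 = Sus 𝒞 ins K D1 s ω t g T :=
      fun g T => by rw [ih]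
    have hk := KCore2_kap (e := e) (X := X) hm
    have e3 : (∃ T l, cfgOf 𝒞 ω e X (Msg (coreRule 𝒞 ins K D1 s) 𝒞 ω t) T = some l ∧
        (∀ g ∈ T, g ≠ e → ¬ (ins g ∧ (l g).1)) ∧ ∃ g ∈ T, g ≠ e ∧ (l g).2) ↔
        ∃ T ∈ 𝒞, T ≠ X ∧ e ∈ T ∧ T ⊆ ω ∧
          (∀ g ∈ T, g ≠ e → ¬ (ins g ∧ Kap 𝒞 ins K D1 ω t g T)) ∧
          ∃ g ∈ T, g ≠ e ∧ Sus 𝒞 ins K D1 s ω t g T := by
      constructor
      · rintro ⟨T, l, hl, h5, g, hg, hge, h6⟩
        obtain ⟨⟨h1, h2, h3, h4⟩, rfl⟩ := cfgOf_eq_some.1 hl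
        rw [KCore2_lab _ hg hge, hm'] at h6
        refine ⟨T, h1, h2, h3, h4, fun g' hg' hge' => ?_, g, hg, hge, h6⟩
        have := h5 g' hg' hge'
        rwa [KCore2_lab _ hg' hge', hm] at this
      · rintro ⟨T, h1, h2, h3, h4, h5, g, hg, hge, h6⟩
        refine ⟨T, _, cfgOf_eq_some.2 ⟨⟨h1, h2, h3, h4⟩, rfl⟩, fun g' hg' hge' => ?_,
          g, hg, hge, ?_⟩
        · rw [KCore2_lab _ hg' hge', hm]
          exact h5 g' hg' hge'
        · rw [KCore2_lab _ hg hge, hm']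
          exact h6
    refine Prod.ext (propext hk) (propext ?_)
    change (¬ (ins e ∧ kapUpd 𝒞 ins K D1 e (cfgOf 𝒞 ω e X (Msg (coreRule 𝒞 ins K D1 s) 𝒞 ω t))) ∧
      (t < s ∨ ∃ T l, cfgOf 𝒞 ω e X (Msg (coreRule 𝒞 ins K D1 s) 𝒞 ω t) T = some l ∧
        (∀ g ∈ T, g ≠ e → ¬ (ins g ∧ (l g).1)) ∧ ∃ g ∈ T, g ≠ e ∧ (l g).2)) ↔ _
    rw [hk, e3]
    exact Iff.rfl

end Pool.Agent.Work.MP_d4a230_co
end

-- merged part: Pool.Agent.Work.MP_d4a230_co.KIdeal1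
section
/-!
The ideal law of the cavity core and of the suspect messages.
-/

namespace Pool.Agent.Work.MP_d4a230_co

open Finset

section Tail

variable {α B : Type} [Fintype α] [DecidableEq α] [Fintype B] {w : α → B → ℝ}

private lemma KIdeal1_mgf (hw : IsW w) (s : Finset α) (A : α → B → Prop) {t κ : ℝ}
    (h : Real.exp t ≤ 1 + κ) :
    EP w (fun c => Real.exp (t * ∑ a ∈ s, ind (A a (c a)))) ≤
      Real.exp (κ * ∑ a ∈ s, ∑ b, w a b * ind (A a b)) := by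
  have h1 : ∀ c : α → B, Real.exp (t * ∑ a ∈ s, ind (A a (c a))) =
      ∏ a ∈ s, Real.exp (t * ind (A a (c a))) := fun c => by
    rw [Finset.mul_sum, Real.exp_sum]
  rw [EP_congr h1, hw.EP_prod_sub s fun a b => Real.exp (t * ind (A a b)), Finset.mul_sum,
    Real.exp_sum]
  refine Finset.prod_le_prod (fun a _ => Finset.sum_nonneg fun b _ =>
    mul_nonneg (hw.1 _ _) (Real.exp_pos _).le) fun a _ => ?_
  have h2 : ∑ b, w a b * Real.exp (t * ind (A a b)) ≤ ∑ b, w a b * (1 + κ * ind (A a b)) := by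
    refine Finset.sum_le_sum fun b _ => mul_le_mul_of_nonneg_left ?_ (hw.1 _ _)
    by_cases hb : A a b
    · rw [ind_pos hb, mul_one, mul_one]; exact h
    · rw [ind_neg hb]; simp
  have h3 : ∑ b, w a b * (1 + κ * ind (A a b)) = 1 + κ * ∑ b, w a b * ind (A a b) := by
    rw [Finset.mul_sum, ← hw.2 a, ← Finset.sum_add_distrib, hw.2 a]
    exact Finset.sum_congr rfl fun b _ => by ring
  linarith [Real.add_one_le_exp (κ * ∑ b, w a b * ind (A a b))]

/-- Upper tail of a sum of independent indicators. -/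
lemma IsW.tail_up (hw : IsW w) (s : Finset α) (A : α → B → Prop) {m x : ℝ}
    (hm : ∑ a ∈ s, ∑ b, w a b * ind (A a b) ≤ m) :
    EP w (fun c => ind (x ≤ ∑ a ∈ s, ind (A a (c a)))) ≤ Real.exp (2 * m - x) := by
  have h1 := KIdeal1_mgf hw s A (t := 1) (κ := 2) (by linarith only [Real.exp_one_lt_d9])
  have h2 : EP w (fun c => ind (x ≤ ∑ a ∈ s, ind (A a (c a)))) ≤
      EP w (fun c => Real.exp (-x) * Real.exp (1 * ∑ a ∈ s, ind (A a (c a)))) := by
    refine hw.EP_mono fun c => ?_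
    by_cases h : x ≤ ∑ a ∈ s, ind (A a (c a))
    · rw [ind_pos h, ← Real.exp_add]
      exact Real.one_le_exp (by linarith)
    · rw [ind_neg h]; positivity
  rw [EP_const_mul] at h2
  refine h2.trans ((mul_le_mul_of_nonneg_left h1 (Real.exp_pos _).le).trans ?_)
  rw [← Real.exp_add]
  exact Real.exp_le_exp.2 (by linarith)

/-- Lower tail of a sum of independent indicators. -/
lemma IsW.tail_low (hw : IsW w) (s : Finset α) (A : α → B → Prop) {m x u : ℝ} (hu : 0 ≤ u)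
    (hm : m ≤ ∑ a ∈ s, ∑ b, w a b * ind (A a b)) :
    EP w (fun c => ind (∑ a ∈ s, ind (A a (c a)) ≤ x)) ≤ Real.exp (u * x - u / (1 + u) * m) := by
  have h4 : Real.exp (-u) ≤ 1 + -(u / (1 + u)) := by
    have h5 : 1 + -(u / (1 + u)) = 1 / (1 + u) := by field_simp; ring
    rw [h5, Real.exp_neg, ← one_div]
    exact one_div_le_one_div_of_le (by linarith) (by linarith [Real.add_one_le_exp u])
  have h1 := KIdeal1_mgf hw s A h4
  have h2 : EP w (fun c => ind (∑ a ∈ s, ind (A a (c a)) ≤ x)) ≤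
      EP w (fun c => Real.exp (u * x) * Real.exp (-u * ∑ a ∈ s, ind (A a (c a)))) := by
    refine hw.EP_mono fun c => ?_
    by_cases h : ∑ a ∈ s, ind (A a (c a)) ≤ x
    · rw [ind_pos h, ← Real.exp_add]
      exact Real.one_le_exp (by linarith only [hu, h, mul_nonneg_of_nonpos_of_nonpos (Mathlib.Tactic.Linarith.sub_nonpos_of_le hu) (Mathlib.Tactic.Linarith.sub_nonpos_of_le h)])
    · rw [ind_neg h]; positivity
  rw [EP_const_mul] at h2
  refine h2.trans ((mul_le_mul_of_nonneg_left h1 (Real.exp_pos _).le).trans ?_)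
  rw [← Real.exp_add]
  refine Real.exp_le_exp.2 ?_
  have h6 : 0 ≤ u / (1 + u) := by positivity
  linarith only [hm, h6, mul_nonneg_of_nonpos_of_nonpos (Mathlib.Tactic.Linarith.sub_nonpos_of_le hm) (Mathlib.Tactic.Linarith.sub_nonpos_of_le h6)]

end Tail

variable {ι : Type} [DecidableEq ι] [Fintype ι] {𝒞 : Finset (Finset ι)} {𝓔 : Finset ι}
  {ins : ι → Prop} {q M l γ ε D1 : ℝ} {k : ℕ}

/-- The numerical assumptions on the parameters of the core. -/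
structure Par (k : ℕ) (M l γ ε D1 : ℝ) : Prop where
  g0 : 0 < γ
  g1 : γ ≤ 1 / 2
  d1 : 3 * M + 1 ≤ D1
  e1 : Real.exp (1 - γ ^ 2 * l / 16) ≤ ε
  e2 : Real.exp (-M) ≤ ε
  e3 : 64 * (k : ℝ) ^ 2 * M ^ 2 * ε ≤ γ

omit [DecidableEq ι] [Fintype ι] in
private lemma KIdeal1_eps (P : Par k M l γ ε D1) : 0 < ε := (Real.exp_pos _).trans_le P.e2

omit [DecidableEq ι] [Fintype ι] in
private lemma KIdeal1_small (B : Big 𝒞 𝓔 ins q k M l) (P : Par k M l γ ε D1) :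
    (k : ℝ) * ((1 + M) * ε) ≤ γ / 2 := by
  have h0 := KIdeal1_eps P
  have hk : (2 : ℝ) ≤ k := by exact_mod_cast B.k2
  have hM := B.M1
  have h1 : (1 : ℝ) ≤ k * M := by linarith only [hk, hM, mul_nonneg_of_nonpos_of_nonpos (Mathlib.Tactic.Linarith.sub_nonpos_of_le (Mathlib.Tactic.Linarith.natCast_nonneg ℝ k)) (Mathlib.Tactic.Linarith.sub_nonpos_of_le hM)]
  have h2 : (k : ℝ) * (1 + M) ≤ 2 * (k * M) := by nlinarith
  have h3 : 2 * ((k : ℝ) * M) ≤ 32 * (k : ℝ) ^ 2 * M ^ 2 := by linarith only [hk, h2, h1, mul_nonneg_of_nonpos_of_nonpos (Mathlib.Tactic.Linarith.sub_nonpos_of_le h1) (Mathlib.Tactic.Linarith.sub_nonpos_of_le h1)]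
  have h4 := mul_le_mul_of_nonneg_right (h2.trans h3) h0.le
  have h5 := P.e3
  linarith only [h4, h5]

private lemma KIdeal1_ind_prod {κ : Type} (s : Finset κ) (p : κ → Prop) :
    ind (∀ g ∈ s, p g) = ∏ g ∈ s, ind (p g) := by
  by_cases h : ∀ g ∈ s, p g
  · rw [ind_pos h, Finset.prod_congr rfl fun g hg => ind_pos (h g hg), Finset.prod_const_one]
  · rw [ind_neg h]
    push Not at h
    obtain ⟨g, hg, h⟩ := h
    rw [Finset.prod_eq_zero hg (ind_neg h)]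

private lemma KIdeal1_mean (B : Big 𝒞 𝓔 ins q k M l) (P : Par k M l γ ε D1)
    {w : ι → Prop × Prop → ℝ} (hw : IsW w)
    (h : ∀ g, ∑ a, w g a * ind (¬ a.1) ≤ ind (ins g) * ε + ind (¬ ins g) * ((1 + M) * ε))
    (e : ι) {T : Finset ι} (hT : T ∈ 𝒞) :
    q * ind (e ∈ T ∧ OneIn ins e T) * (1 - γ / 2) ≤
      ∑ o, cw 𝒞 q w e T o * ind (∃ l, o = some l ∧ ∀ g ∈ T, g ≠ e → ¬ ins g ∧ (l g).1) := by
  rw [cw_sum, ind_neg (q := ∃ l : ι → Prop × Prop, none = some l ∧ _) (by simp), mul_zero,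
    zero_add]
  have h1 : ∀ l' : ι → Prop × Prop,
      ind (∃ l : ι → Prop × Prop, some l' = some l ∧ ∀ g ∈ T, g ≠ e → ¬ ins g ∧ (l g).1) =
        ∏ g ∈ T.erase e, ind (¬ ins g ∧ (l' g).1) := fun l' => by
    rw [← KIdeal1_ind_prod]
    refine ind_congr ⟨?_, fun h => ⟨l', rfl, fun g hg he => h g (Finset.mem_erase.2 ⟨he, hg⟩)⟩⟩
    rintro ⟨l, hl, h⟩ g hg
    obtain rfl := Option.some.inj hl
    exact h g (Finset.mem_erase.1 hg).2 (Finset.mem_erase.1 hg).1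
  simp only [h1]
  rw [lw_sum_prod e T fun g (a : Prop × Prop) => ind (¬ ins g ∧ a.1)]
  by_cases hO : e ∈ T ∧ OneIn ins e T
  · rw [ind_pos hO, ind_pos ⟨hT, hO.1⟩]
    refine mul_le_mul_of_nonneg_left ?_ (by simpa using B.q0)
    have hs := KIdeal1_small B P
    have h0 := KIdeal1_eps P
    have hk : (2 : ℝ) ≤ k := by exact_mod_cast B.k2
    have hM := B.M1
    have hd : 0 ≤ (1 + M) * ε := by positivity
    have hd1 : (1 + M) * ε ≤ 1 := by (refine le_of_not_gt fun h_nl => ?_; linarith only [h_nl, hs, hk, P, P.g1, mul_nonneg_of_nonpos_of_nonpos (Mathlib.Tactic.Linarith.sub_nonpos_of_le (Mathlib.Tactic.Linarith.natCast_nonneg ℝ k)) (le_of_lt (Mathlib.Tactic.Linarith.sub_neg_of_lt h_nl))])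
    have h2 : ∏ _g ∈ T.erase e, (1 - (1 + M) * ε) ≤
        ∏ g ∈ T.erase e, ∑ a, w g a * ind (¬ ins g ∧ a.1) := by
      refine Finset.prod_le_prod (fun _ _ => by linarith) fun g hg => ?_
      have hg' := hO.2 g (Finset.mem_erase.1 hg).2 (Finset.mem_erase.1 hg).1
      have h3 := h g
      rw [ind_neg hg', ind_pos hg', zero_mul, zero_add, one_mul] at h3
      have h4 : ∑ a, w g a * ind (¬ ins g ∧ a.1) = 1 - ∑ a, w g a * ind (¬ a.1) := by
        rw [← hw.2 g, ← Finset.sum_sub_distrib]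
        refine Finset.sum_congr rfl fun a _ => ?_
        rw [ind_and, ind_pos hg', ind_not]; ring
      linarith
    refine le_trans ?_ h2
    rw [Finset.prod_const]
    have h5 := one_add_mul_le_pow (a := -((1 + M) * ε)) (by linarith) (T.erase e).card
    have h6 : ((T.erase e).card : ℝ) ≤ k := by
      rw [← B.card T hT]; exact_mod_cast Finset.card_erase_le
    have h7 := mul_le_mul_of_nonneg_right h6 hd
    rw [← sub_eq_add_neg] at h5
    linarith only [hs, h5, h7]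
  · rw [ind_neg hO, mul_zero, zero_mul]
    exact mul_nonneg (mul_nonneg B.q0 (ind_nonneg _)) (Finset.prod_nonneg fun g _ =>
      Finset.sum_nonneg fun a _ => mul_nonneg (hw.1 _ _) (ind_nonneg _))

private lemma KIdeal1_left (B : Big 𝒞 𝓔 ins q k M l) (P : Par k M l γ ε D1)
    {w : ι → Prop × Prop → ℝ} (hw : IsW w)
    (h : ∀ g, ∑ a, w g a * ind (¬ a.1) ≤ ind (ins g) * ε + ind (¬ ins g) * ((1 + M) * ε))
    {e : ι} (he : ins e) (T0 : Finset ι) :
    EP (cw 𝒞 q w e) (fun c => ind (∑ T ∈ 𝒞.erase T0, ind (∃ l, c T = some l ∧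
        ∀ g ∈ T, g ≠ e → ¬ ins g ∧ (l g).1) ≤ (1 - γ) * lam 𝒞 ins q e)) ≤ ε := by
  have hg0 := P.g0
  have hg1 := P.g1
  have hm : lam 𝒞 ins q e * (1 - γ / 2) - 1 ≤ ∑ T ∈ 𝒞.erase T0,
      ∑ o, cw 𝒞 q w e T o * ind (∃ l, o = some l ∧ ∀ g ∈ T, g ≠ e → ¬ ins g ∧ (l g).1) := by
    refine le_trans ?_ (Finset.sum_le_sum fun T hT =>
      KIdeal1_mean B P hw h e (Finset.mem_of_mem_erase hT))
    unfold lam
    rw [Finset.mul_sum, Finset.sum_mul]
    by_cases hT0 : T0 ∈ 𝒞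
    · rw [← Finset.add_sum_erase _ _ hT0]
      have h1 : q * ind (e ∈ T0 ∧ OneIn ins e T0) ≤ 1 :=
        mul_le_one₀ B.q1 (ind_nonneg _) (ind_le_one _)
      have h2 : 0 ≤ q * ind (e ∈ T0 ∧ OneIn ins e T0) := mul_nonneg B.q0 (ind_nonneg _)
      linarith only [h1, hg0, h2, mul_nonneg_of_nonpos_of_nonpos (le_of_lt (Mathlib.Tactic.Linarith.sub_neg_of_lt hg0)) (Mathlib.Tactic.Linarith.sub_nonpos_of_le h2)]
    · rw [Finset.erase_eq_of_notMem hT0]; linarith only [hg0, hg1]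
  have h1 := (cw_isW (𝒞 := 𝒞) B.q0 B.q1 hw e).tail_low (𝒞.erase T0)
    (fun T o => ∃ l, o = some l ∧ ∀ g ∈ T, g ≠ e → ¬ ins g ∧ (l g).1)
    (x := (1 - γ) * lam 𝒞 ins q e) (u := γ / 4) (by linarith only [hg0]) hm
  refine h1.trans (le_trans (Real.exp_le_exp.2 ?_) P.e1)
  have hl := B.low e he
  have hl0 : 0 ≤ lam 𝒞 ins q e := mul_nonneg B.q0 (Finset.sum_nonneg fun _ _ => ind_nonneg _)
  generalize lam 𝒞 ins q e = L at hl hl0
  have h2 : γ / 4 / (1 + γ / 4) ≤ 1 := by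
    rw [div_le_one (by linarith only [hg0, hg1])]; linarith only [hg0, hg1]
  have h3 : γ / 4 * (1 - γ) + γ ^ 2 / 16 ≤ γ / 4 / (1 + γ / 4) * (1 - γ / 2) := by
    rw [div_mul_eq_mul_div (γ / 4) (1 + γ / 4), le_div_iff₀ (by linarith only [hg0, hg1])]
    have : 0 ≤ γ ^ 3 := by positivity
    linarith only [this]
  have h4 := mul_le_mul_of_nonneg_right h3 hl0
  have h5 := mul_le_mul_of_nonneg_left hl (sq_nonneg γ)
  linarith only [h2, h4, h5]

private lemma KIdeal1_step (B : Big 𝒞 𝓔 ins q k M l) (P : Par k M l γ ε D1)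
    {w : ι → Prop × Prop → ℝ} (hw : IsW w)
    (h : ∀ g, ∑ a, w g a * ind (¬ a.1) ≤ ind (ins g) * ε + ind (¬ ins g) * ((1 + M) * ε))
    (e : ι) :
    EP (cw 𝒞 q w e) (fun c => ind (¬ kapUpd 𝒞 ins (fun e => (1 - γ) * lam 𝒞 ins q e) D1 e c)) ≤
      ind (ins e) * ε + ind (¬ ins e) * ((1 + M) * ε) := by
  have hc := cw_isW (𝒞 := 𝒞) B.q0 B.q1 hw e
  have h0 := KIdeal1_eps P
  by_cases he : ins e
  · rw [ind_pos he, ind_neg (not_not.2 he), one_mul, zero_mul, add_zero]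
    refine le_trans (hc.EP_mono fun c => ind_mono fun hn => ?_) (KIdeal1_left B P hw h he ∅)
    refine le_trans (Finset.sum_le_sum_of_subset_of_nonneg (Finset.erase_subset _ _)
      fun _ _ _ => ind_nonneg _) ?_
    by_contra hlt
    exact hn ⟨fun _ => (not_le.1 hlt).le, fun h => absurd he h⟩
  · rw [ind_neg he, ind_pos he, one_mul, zero_mul, zero_add]
    have h1 : EP (cw 𝒞 q w e)
        (fun c => ind (¬ kapUpd 𝒞 ins (fun e => (1 - γ) * lam 𝒞 ins q e) D1 e c)) ≤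
        EP (cw 𝒞 q w e) (fun c => ind (3 * M ≤ ∑ T ∈ 𝒞, ind (c T ≠ none)) +
          ∑ T ∈ 𝒞, ind (∃ l, c T = some l ∧ ∀ g ∈ T, g ≠ e → ins g → ¬ (l g).1)) := by
      refine hc.EP_mono_ae fun c hc0 => ?_
      refine le_trans (ind_mono (r := 3 * M ≤ ∑ T ∈ 𝒞, ind (c T ≠ none) ∨
        ∃ T ∈ 𝒞, ∃ l, c T = some l ∧ ∀ g ∈ T, g ≠ e → ins g → ¬ (l g).1) fun hn => ?_)
        ((ind_or_le _ _).trans (add_le_add le_rfl (ind_exists_le _ _)))
      by_contra hcon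
      push Not at hcon
      refine hn ⟨fun h => absurd h he, fun _ => ⟨by linarith [hcon.1, P.d1], fun T l hl => ?_⟩⟩
      have hT : T ∈ 𝒞 := by
        by_contra hT
        have := hc0 T
        rw [hl] at this
        simp only [cw] at this
        rw [ind_neg fun h => hT h.1] at this
        simp at this
      obtain ⟨g, hg, h1, h2, h3⟩ := hcon.2 T hT l hl
      exact ⟨g, hg, h1, h2, h3⟩
    rw [EP_add, EP_sum] at h1
    have hq : ∀ T ∈ 𝒞, q * ind (T ∈ 𝒞 ∧ e ∈ T) = q * ind (e ∈ T) := fun T hT => by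
      rw [ind_and, ind_pos hT, one_mul]
    have h2 := hc.tail_up 𝒞 (fun _ o => o ≠ none) (m := M) (x := 3 * M) (by
      refine le_trans (le_of_eq ?_) (B.up e)
      rw [Finset.mul_sum]
      refine Finset.sum_congr rfl fun T hT => ?_
      rw [cw_sum, ind_neg (q := (none : Option (ι → Prop × Prop)) ≠ none) (by simp), mul_zero,
        zero_add, hq T hT]
      have : ∀ l : ι → Prop × Prop, ind (some l ≠ none) = 1 := fun l => ind_pos (by simp)
      simp only [this, mul_one, lw_sum hw])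
    have h3 : ∑ T ∈ 𝒞, EP (cw 𝒞 q w e)
        (fun c => ind (∃ l, c T = some l ∧ ∀ g ∈ T, g ≠ e → ins g → ¬ (l g).1)) ≤
        ∑ T ∈ 𝒞, q * ind (e ∈ T) * ε := by
      refine Finset.sum_le_sum fun T hT => ?_
      rw [hc.EP_single T fun o => ind (∃ l, o = some l ∧ ∀ g ∈ T, g ≠ e → ins g → ¬ (l g).1),
        cw_sum, ind_neg (q := ∃ l : ι → Prop × Prop, none = some l ∧ _) (by simp), mul_zero,
        zero_add, hq T hT]
      refine mul_le_mul_of_nonneg_left ?_ (mul_nonneg B.q0 (ind_nonneg _))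
      obtain ⟨g0, hg0, hi⟩ := B.hit T hT
      have hne : g0 ≠ e := fun h => he (h ▸ hi)
      have h4 := (lw_isW hw e T).EP_single g0 fun a => ind (¬ a.1)
      simp only [hg0, hne, ne_eq, not_false_eq_true, and_self, if_true] at h4
      have h5 := h g0
      rw [ind_pos hi, ind_neg (not_not.2 hi), one_mul, zero_mul, add_zero] at h5
      refine le_trans ?_ (h4.le.trans h5)
      refine Finset.sum_le_sum fun l _ => mul_le_mul_of_nonneg_left (ind_mono ?_)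
        (lw_nonneg hw e T l)
      rintro ⟨l', hl, h6⟩
      obtain rfl := Option.some.inj hl
      exact h6 g0 hg0 hne hi
    rw [← Finset.sum_mul, ← Finset.mul_sum] at h3
    have h6 := mul_le_mul_of_nonneg_right (B.up e) h0.le
    have h7 : 2 * M - 3 * M = -M := by ring
    rw [h7] at h2
    linarith [P.e2]

/-- The cavity core fails rarely. -/
theorem kap_bound (B : Big 𝒞 𝓔 ins q k M l) (P : Par k M l γ ε D1) (s j : ℕ) (e : ι) :
    ∑ a, law (coreRule 𝒞 ins (fun e => (1 - γ) * lam 𝒞 ins q e) D1 s) 𝒞 q j e a * ind (¬ a.1) ≤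
      ind (ins e) * ε + ind (¬ ins e) * ((1 + M) * ε) := by
  induction j generalizing e with
  | zero =>
    rw [law_zero_sum _ e fun a : Prop × Prop => ind (¬ a.1), ind_neg (by simp [coreRule])]
    have h0 := KIdeal1_eps P
    have hM := B.M1
    exact add_nonneg (mul_nonneg (ind_nonneg _) h0.le)
      (mul_nonneg (ind_nonneg _) (by positivity))
  | succ j ih =>
    rw [law_succ_sum _ j e fun a : Prop × Prop => ind (¬ a.1)]
    exact KIdeal1_step B P (law_isW _ B.q0 B.q1 j) ih e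

/-- The lower tail used for inside elements, with one member left out. -/
theorem kap_left (B : Big 𝒞 𝓔 ins q k M l) (P : Par k M l γ ε D1) (s j : ℕ) {e : ι} (he : ins e)
    (T0 : Finset ι) :
    EP (cw 𝒞 q (law (coreRule 𝒞 ins (fun e => (1 - γ) * lam 𝒞 ins q e) D1 s) 𝒞 q j) e)
      (fun c => ind (∑ T ∈ 𝒞.erase T0, ind (∃ l, c T = some l ∧
        ∀ g ∈ T, g ≠ e → ¬ ins g ∧ (l g).1) ≤ (1 - γ) * lam 𝒞 ins q e)) ≤ ε :=
  KIdeal1_left B P (law_isW _ B.q0 B.q1 j) (kap_bound B P s j) he T0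

end Pool.Agent.Work.MP_d4a230_co
end

-- merged part: Pool.Agent.Work.MP_d4a230_co.KIdeal
section
/-!
The ideal law of the suspect messages.
-/

namespace Pool.Agent.Work.MP_d4a230_co

open Finset

variable {ι : Type} [DecidableEq ι] [Fintype ι] {𝒞 : Finset (Finset ι)} {𝓔 : Finset ι}
  {ins : ι → Prop} {q M l γ ε D1 : ℝ} {k : ℕ}

section Aux

variable {A : Type} [Inhabited A] [Fintype A] {w : ι → A → ℝ}

lemma KIdeal_single (hw : IsW w) {e g : ι} {T : Finset ι} (hg : g ∈ T) (hge : g ≠ e)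
    (f : A → ℝ) : ∑ c : ι → A, lw w e T c * f (c g) = ∑ a, w g a * f a := by
  have := (lw_isW hw e T).EP_single g f
  simp only [hg, hge, ne_eq, not_false_eq_true, and_self, if_true] at this
  exact this

lemma KIdeal_pair (hw : IsW w) {e g g' : ι} {T : Finset ι} (hg : g ∈ T) (hge : g ≠ e)
    (hg' : g' ∈ T) (hge' : g' ≠ e) (hne : g' ≠ g) (f f' : A → ℝ) :
    ∑ c : ι → A, lw w e T c * (f (c g) * f' (c g')) =
      (∑ a, w g a * f a) * ∑ a, w g' a * f' a := by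
  have := (lw_isW hw e T).EP_indep (G := fun c => f' (c g')) g f
    fun c b => by rw [Function.update_of_ne hne]
  rw [(lw_isW hw e T).EP_single g' f'] at this
  simp only [hg, hge, hg', hge', ne_eq, not_false_eq_true, and_self, if_true] at this
  exact this

lemma KIdeal_lw_mono (hw : IsW w) (e : ι) (T : Finset ι) {F G : (ι → A) → ℝ}
    (h : ∀ c, F c ≤ G c) : ∑ c, lw w e T c * F c ≤ ∑ c, lw w e T c * G c :=
  Finset.sum_le_sum fun c _ => mul_le_mul_of_nonneg_left (h c) (lw_nonneg hw e T c)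

lemma KIdeal_union (h0 : 0 ≤ q) (h1 : q ≤ 1) (hw : IsW w) (e : ι)
    (R : Finset ι → (ι → A) → Prop) (G : Finset ι → (Finset ι → Option (ι → A)) → ℝ)
    (hG : ∀ T c b, G T (Function.update c T b) = G T c) (hG0 : ∀ T c, 0 ≤ G T c) {η x : ℝ}
    (hη : ∀ T, EP (cw 𝒞 q w e) (G T) ≤ η) (hx : 0 ≤ x)
    (hR : ∀ T ∈ 𝒞, e ∈ T → ∑ c, lw w e T c * ind (R T c) ≤ x)
    (hM : q * ∑ T ∈ 𝒞, ind (e ∈ T) ≤ M) :
    EP (cw 𝒞 q w e) (fun c => ∑ T, ind (∃ m, c T = some m ∧ R T m) * G T c) ≤ M * (x * η) := by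
  have hc := cw_isW (𝒞 := 𝒞) h0 h1 hw e
  have hη0 : 0 ≤ η := (hc.EP_nonneg (hG0 ∅)).trans (hη ∅)
  rw [EP_sum]
  have key : ∀ T, EP (cw 𝒞 q w e) (fun c => ind (∃ m, c T = some m ∧ R T m) * G T c) ≤
      q * ind (T ∈ 𝒞 ∧ e ∈ T) * (x * η) := by
    intro T
    rw [hc.EP_indep T (fun o => ind (∃ m, o = some m ∧ R T m)) (hG T), cw_sum,
      ind_neg (q := ∃ m, none = some m ∧ R T m) (by simp), mul_zero, zero_add]
    have h2 : ∀ c : ι → A, ind (∃ m, some c = some m ∧ R T m) = ind (R T c) :=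
      fun c => ind_congr (by simp)
    simp only [h2]
    by_cases hT : T ∈ 𝒞 ∧ e ∈ T
    · rw [mul_assoc]
      exact mul_le_mul_of_nonneg_left
        (mul_le_mul (hR T hT.1 hT.2) (hη T) (hc.EP_nonneg (hG0 T)) hx)
        (mul_nonneg h0 (ind_nonneg _))
    · rw [ind_neg hT]; simp
  refine (Finset.sum_le_sum fun T _ => key T).trans ?_
  rw [← Finset.sum_mul, ← Finset.mul_sum]
  refine mul_le_mul_of_nonneg_right (le_trans (le_of_eq ?_) hM) (mul_nonneg hx hη0)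
  congr 1
  rw [← Finset.sum_subset (Finset.subset_univ 𝒞) fun T _ hT => ind_neg fun h => hT h.1]
  exact Finset.sum_congr rfl fun T hT => ind_congr (by simp [hT])

end Aux

lemma KIdeal_claim (B : Big 𝒞 𝓔 ins q k M l) (P : Par k M l γ ε D1) (s i : ℕ) (e : ι) :
    ∑ a, law (coreRule 𝒞 ins (fun e => (1 - γ) * lam 𝒞 ins q e) D1 s) 𝒞 q (s + i) e a * ind a.2 ≤
      4 * k * M / 2 ^ i ∧ (ins e →
    ∑ a, law (coreRule 𝒞 ins (fun e => (1 - γ) * lam 𝒞 ins q e) D1 s) 𝒞 q (s + i) e a * ind a.2 ≤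
      1 / 2 ^ i) := by
  have hk : (2 : ℝ) ≤ k := by exact_mod_cast B.k2
  have hM := B.M1
  have hε : 0 ≤ ε := (Real.exp_pos _).le.trans P.e2
  have hW : (1 : ℝ) ≤ 4 * k * M := by linarith only [hk, hM, mul_nonneg_of_nonpos_of_nonpos (Mathlib.Tactic.Linarith.sub_nonpos_of_le (Mathlib.Tactic.Linarith.natCast_nonneg ℝ k)) (Mathlib.Tactic.Linarith.sub_nonpos_of_le hM)]
  have he3 : 64 * (k : ℝ) ^ 2 * M ^ 2 * ε ≤ 1 / 2 := P.e3.trans P.g1
  induction i generalizing e with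
  | zero =>
    have hw := law_isW (𝒞 := 𝒞)
      (coreRule 𝒞 ins (fun e => (1 - γ) * lam 𝒞 ins q e) D1 s) B.q0 B.q1 (s + 0)
    have h1 : ∑ a, law (coreRule 𝒞 ins (fun e => (1 - γ) * lam 𝒞 ins q e) D1 s) 𝒞 q (s + 0) e a *
        ind a.2 ≤ 1 := by
      exact (Finset.sum_le_sum fun a _ =>
        mul_le_of_le_one_right (hw.1 e a) (ind_le_one _)).trans (hw.2 e).le
    rw [pow_zero, div_one, div_one]
    exact ⟨h1.trans hW, fun _ => h1⟩
  | succ i ih =>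
    have hw := law_isW (𝒞 := 𝒞)
      (coreRule 𝒞 ins (fun e => (1 - γ) * lam 𝒞 ins q e) D1 s) B.q0 B.q1 (s + i)
    have hkb := kap_bound B P s (s + i)
    have hkl := fun (he : ins e) => kap_left B P s (s + i) he
    rw [← add_assoc, law_succ_sum _ _ _ fun a : Prop × Prop => ind a.2]
    set w := law (coreRule 𝒞 ins (fun e => (1 - γ) * lam 𝒞 ins q e) D1 s) 𝒞 q (s + i) with hwd
    have hc := cw_isW (𝒞 := 𝒞) B.q0 B.q1 hw e
    have h2i : (0 : ℝ) < 2 ^ i := by positivity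
    have hcard : ∀ T ∈ 𝒞, ∀ S ⊆ T, ∀ y : ℝ, 0 ≤ y → ∑ _g ∈ S, y ≤ k * y := by
      intro T hT S hS y hy
      rw [Finset.sum_const, nsmul_eq_mul]
      refine mul_le_mul_of_nonneg_right ?_ hy
      exact_mod_cast (Finset.card_le_card hS).trans (B.card T hT).le
    by_cases he : ins e
    · suffices h : EP (cw 𝒞 q w e) (fun c => ind ((coreRule 𝒞 ins
          (fun e => (1 - γ) * lam 𝒞 ins q e) D1 s).upd (s + i) e c).2) ≤ 1 / 2 ^ (i + 1) from
        ⟨h.trans (div_le_div_of_nonneg_right hW (by positivity)), fun _ => h⟩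
      have hu := KIdeal_union (𝒞 := 𝒞) (M := M) B.q0 B.q1 hw e
        (fun T m => ∃ g ∈ T.erase e, (m g).2)
        (fun T0 c => ind (∑ T ∈ 𝒞.erase T0, ind (∃ l, c T = some l ∧
          ∀ g ∈ T, g ≠ e → ¬ ins g ∧ (l g).1) ≤ (1 - γ) * lam 𝒞 ins q e))
        (fun T0 c b => by
          congr 2
          exact Finset.sum_congr rfl fun T hT => by
            rw [Function.update_of_ne (Finset.ne_of_mem_erase hT)])
        (fun _ _ => ind_nonneg _) (hkl he) (x := k * (4 * k * M / 2 ^ i)) (by positivity)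
        (fun T hT _ => by
          refine (KIdeal_lw_mono hw e T fun c => ind_exists_le _ _).trans ?_
          simp only [Finset.mul_sum]
          rw [Finset.sum_comm]
          refine le_trans (Finset.sum_le_sum fun g hg => ?_)
            (hcard T hT _ (Finset.erase_subset e T) _ (by positivity))
          rw [KIdeal_single hw (Finset.mem_of_mem_erase hg) (Finset.ne_of_mem_erase hg)
            fun a => ind a.2]
          exact (ih g).1)
        (B.up e)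
      refine ((hc.EP_mono fun c => ?_).trans hu).trans ?_
      · by_cases hs : ((coreRule 𝒞 ins (fun e => (1 - γ) * lam 𝒞 ins q e) D1 s).upd
            (s + i) e c).2
        · obtain ⟨h1, h2⟩ := hs
          obtain ⟨T, m, hT, -, g, hg, hge, hm⟩ := h2.resolve_left (by omega)
          refine (ind_le_one _).trans (le_trans (le_of_eq ?_)
            (Finset.single_le_sum (f := fun T0 => ind (∃ m, c T0 = some m ∧
              ∃ g ∈ T0.erase e, (m g).2) * ind (∑ T ∈ 𝒞.erase T0, ind (∃ l, c T = some l ∧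
              ∀ g ∈ T, g ≠ e → ¬ ins g ∧ (l g).1) ≤ (1 - γ) * lam 𝒞 ins q e))
              (fun _ _ => mul_nonneg (ind_nonneg _) (ind_nonneg _)) (Finset.mem_univ T)))
          have h3 : ∑ T ∈ 𝒞, ind (∃ l, c T = some l ∧ ∀ g ∈ T, g ≠ e → ¬ ins g ∧ (l g).1) ≤
              (1 - γ) * lam 𝒞 ins q e := by
            by_contra h4
            exact h1 ⟨he, fun _ => (not_le.1 h4).le, fun h => absurd he h⟩
          rw [ind_pos ⟨m, hT, g, Finset.mem_erase.2 ⟨hge, hg⟩, hm⟩,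
            ind_pos ((Finset.sum_le_sum_of_subset_of_nonneg (Finset.erase_subset T 𝒞)
              fun _ _ _ => ind_nonneg _).trans h3), mul_one]
        · rw [ind_neg hs]
          exact Finset.sum_nonneg fun _ _ => mul_nonneg (ind_nonneg _) (ind_nonneg _)
      · have : M * (k * (4 * k * M / 2 ^ i) * ε) = (8 * (k : ℝ) ^ 2 * M ^ 2 * ε) / 2 ^ (i + 1) := by
          field_simp
          ring
        rw [this]
        exact div_le_div_of_nonneg_right (by linarith only [he3]) (by positivity)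
    · refine ⟨?_, fun h => absurd h he⟩
      have hu := KIdeal_union (𝒞 := 𝒞) (M := M) B.q0 B.q1 hw e
        (fun T m => (∀ g ∈ T, g ≠ e → ¬ (ins g ∧ (m g).1)) ∧ ∃ g ∈ T, g ≠ e ∧ (m g).2)
        (fun _ _ => 1) (fun _ _ _ => rfl) (fun _ _ => zero_le_one)
        (fun _ => (hc.EP_const 1).le) (x := 1 / 2 ^ i + k * (ε * (4 * k * M / 2 ^ i)))
        (by positivity)
        (fun T hT _ => by
          obtain ⟨g0, hg0, hi0⟩ := B.hit T hT
          have hg0e : g0 ≠ e := fun h => he (h ▸ hi0)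
          refine (KIdeal_lw_mono hw e T (G := fun c => ind (c g0).2 +
            ∑ g ∈ (T.erase e).erase g0, ind (¬ (c g0).1) * ind (c g).2) fun c => ?_).trans ?_
          · refine le_trans (ind_mono (r := (c g0).2 ∨
              ∃ g ∈ (T.erase e).erase g0, ¬ (c g0).1 ∧ (c g).2) ?_) ((ind_or_le _ _).trans ?_)
            · rintro ⟨h1, g, hg, hge, hm⟩
              by_cases hgg : g = g0
              · exact Or.inl (hgg ▸ hm)
              · exact Or.inr ⟨g, Finset.mem_erase.2 ⟨hgg, Finset.mem_erase.2 ⟨hge, hg⟩⟩,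
                  fun h => h1 g0 hg0 hg0e ⟨hi0, h⟩, hm⟩
            · refine add_le_add le_rfl ((ind_exists_le _ _).trans (le_of_eq ?_))
              exact Finset.sum_congr rfl fun g _ => ind_and _ _
          · simp only [mul_add, Finset.sum_add_distrib, Finset.mul_sum]
            refine add_le_add ?_ ?_
            · rw [KIdeal_single hw hg0 hg0e fun a => ind a.2]
              exact (ih g0).2 hi0
            · rw [Finset.sum_comm]
              refine le_trans (Finset.sum_le_sum fun g hg => ?_) (hcard T hT _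
                ((Finset.erase_subset _ _).trans (Finset.erase_subset e T)) _ (by positivity))
              have hg' := Finset.mem_erase.1 hg
              rw [KIdeal_pair hw hg0 hg0e (Finset.mem_of_mem_erase hg'.2)
                (Finset.ne_of_mem_erase hg'.2) hg'.1 (fun a => ind (¬ a.1)) fun a => ind a.2]
              have h5 := hkb g0
              rw [ind_pos hi0, ind_neg (not_not.2 hi0), one_mul, zero_mul, add_zero] at h5
              exact mul_le_mul h5 (ih g).1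
                (Finset.sum_nonneg fun a _ => mul_nonneg (hw.1 g a) (ind_nonneg _)) hε)
        (B.up e)
      refine ((hc.EP_mono fun c => ?_).trans hu).trans ?_
      · simp only [mul_one]
        refine le_trans (ind_mono ?_) (ind_exists_le Finset.univ _)
        rintro ⟨-, h2⟩
        obtain ⟨T, m, h3⟩ := h2.resolve_left (by omega)
        exact ⟨T, Finset.mem_univ T, m, h3⟩
      · have : M * ((1 / 2 ^ i + k * (ε * (4 * k * M / 2 ^ i))) * 1) =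
            (2 * M + 8 * (k : ℝ) ^ 2 * M ^ 2 * ε) / 2 ^ (i + 1) := by
          field_simp
          ring
        rw [this]
        exact div_le_div_of_nonneg_right (by (refine le_of_not_gt fun h_nl => ?_; linarith only [h_nl, hk, he3, hM, mul_nonneg_of_nonpos_of_nonpos (Mathlib.Tactic.Linarith.sub_nonpos_of_le (sq_nonneg ↑k)) (Mathlib.Tactic.Linarith.sub_nonpos_of_le hM), mul_nonneg_of_nonpos_of_nonpos (Mathlib.Tactic.Linarith.sub_nonpos_of_le (Mathlib.Tactic.Linarith.natCast_nonneg ℝ k)) (Mathlib.Tactic.Linarith.sub_nonpos_of_le hk), mul_nonneg_of_nonpos_of_nonpos (Mathlib.Tactic.Linarith.sub_nonpos_of_le (Mathlib.Tactic.Linarith.natCast_nonneg ℝ k)) (Mathlib.Tactic.Linarith.sub_nonpos_of_le he3), mul_nonneg_of_nonpos_of_nonpos (Mathlib.Tactic.Linarith.sub_nonpos_of_le (Mathlib.Tactic.Linarith.natCast_nonneg ℝ k)) (le_of_lt (Mathlib.Tactic.Linarith.sub_neg_of_lt h_nl)), mul_nonneg_of_nonpos_of_nonpos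 (Mathlib.Tactic.Linarith.sub_nonpos_of_le hk) (Mathlib.Tactic.Linarith.sub_nonpos_of_le hM)])) (by positivity)

/-- The suspect messages die out geometrically. -/
theorem sus_bound (B : Big 𝒞 𝓔 ins q k M l) (P : Par k M l γ ε D1) (s i : ℕ) (e : ι) :
    ∑ a, law (coreRule 𝒞 ins (fun e => (1 - γ) * lam 𝒞 ins q e) D1 s) 𝒞 q (s + i) e a * ind a.2 ≤
      4 * k * M / 2 ^ i := by
  exact (KIdeal_claim B P s i e).1

end Pool.Agent.Work.MP_d4a230_co
end

-- merged part: Pool.Agent.Work.MP_d4a230_co.KEV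
section
/-!
Expected numbers of free elements and saturated members of the reduced set.
-/

namespace Pool.Agent.Work.MP_d4a230_co

open Finset Filter Topology

variable {p : ℕ → ℝ} {𝒞 : ∀ n, Finset (Finset (Sym2 (Fin n)))} {h k K0 : ℕ} {μ Λ : ℝ}

section Aux

variable {V : Type} [DecidableEq V] [Fintype V] {𝒟 : Finset (Finset (Sym2 V))} {x q M l : ℝ}
  {ins : Sym2 V → Prop}

/-- The conclusion of the local limit lemma for one rule. -/
def KEV_LL {A : Type} [Inhabited A] [Fintype A] (ρ : Rule (Sym2 V) A)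
    (𝒟 : Finset (Finset (Sym2 V))) (x q : ℝ) (k D : ℕ) (η : ℝ) : Prop :=
  ∀ (P : Finset (Sym2 V)) (I : Finset (HItem V)) (val : HItem V → A), P.card ≤ k →
    HValid 𝒟 P I → (∀ i ∈ I, i.2.2 ≤ D) →
    |Pr x (Takes ρ 𝒟 P I val) - ∏ i ∈ I, law ρ 𝒟 q i.2.2 i.1 (val i)| ≤ η

/-- A planted set with a root. -/
def KEV_Root (𝒟 : Finset (Finset (Sym2 V))) (k : ℕ) (P : Finset (Sym2 V)) (e : Sym2 V)
    (X : Finset (Sym2 V)) : Prop :=
  P.card ≤ k ∧ ¬ e.IsDiag ∧ e ∈ P ∧ ∀ T ∈ 𝒟, e ∈ T → T ⊆ P → T = X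

lemma KEV_root1 (B : Big 𝒟 (offd V) ins q k M l) {e : Sym2 V} (he : e ∈ offd V) :
    KEV_Root 𝒟 k {e} e ∅ := by
  have h2 := B.k2
  refine ⟨by rw [card_singleton]; omega, (mem_filter.1 he).2, mem_singleton_self _,
    fun T hT _ h => ?_⟩
  have h3 := card_le_card h
  rw [card_singleton, B.card T hT] at h3
  omega

lemma KEV_rootT (B : Big 𝒟 (offd V) ins q k M l) {T : Finset (Sym2 V)} (hT : T ∈ 𝒟) {g : Sym2 V}
    (hg : g ∈ T) : KEV_Root 𝒟 k T g T :=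
  ⟨(B.card T hT).le, (mem_filter.1 (B.sub T hT hg)).2, hg, fun T' hT' _ h =>
    eq_of_subset_of_card_le h (by rw [B.card T hT, B.card T' hT'])⟩

lemma KEV_one {A : Type} [Inhabited A] [Fintype A] {ρ : Rule (Sym2 V) A} {D : ℕ} {η : ℝ}
    (L : KEV_LL ρ 𝒟 x q k D η) {P X : Finset (Sym2 V)} {e : Sym2 V} (hR : KEV_Root 𝒟 k P e X)
    {t : ℕ} (ht : t ≤ D) (a : A) :
    |Pr x (fun ω => Msg ρ 𝒟 (ω ∪ P) t e X = a) - law ρ 𝒟 q t e a| ≤ η := by
  have h1 := L P {(e, X, t)} (fun _ => a) hR.1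
    ⟨fun i hi => by rw [mem_singleton.1 hi]; exact hR.2,
      fun i hi j hj _ => by rw [mem_singleton.1 hi, mem_singleton.1 hj]⟩
    (fun i hi => by rw [mem_singleton.1 hi]; exact ht)
  have h2 : Takes ρ 𝒟 P {(e, X, t)} (fun _ => a) = fun ω => Msg ρ 𝒟 (ω ∪ P) t e X = a := by
    funext ω
    simp only [Takes, mem_singleton, forall_eq]
  rwa [prod_singleton, h2] at h1

lemma KEV_sus {γ ε D1 η : ℝ} (B : Big 𝒟 (offd V) ins q k M l) (Q : Par k M l γ ε D1) {s i D : ℕ}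
    (L : KEV_LL (coreRule 𝒟 ins (fun e => (1 - γ) * lam 𝒟 ins q e) D1 s) 𝒟 x q k D η)
    (hD : s + i ≤ D) {P X : Finset (Sym2 V)} {e : Sym2 V} (hR : KEV_Root 𝒟 k P e X) :
    E x (fun ω => ind (Sus 𝒟 ins (fun e => (1 - γ) * lam 𝒟 ins q e) D1 s (ω ∪ P) (s + i) e X)) ≤
      4 * k * M / 2 ^ i + 4 * η := by
  set ρ := coreRule 𝒟 ins (fun e => (1 - γ) * lam 𝒟 ins q e) D1 s with hρ
  have h1 : ∀ ω : Finset (Sym2 V),
      ind (Sus 𝒟 ins (fun e => (1 - γ) * lam 𝒟 ins q e) D1 s (ω ∪ P) (s + i) e X) =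
      ∑ a : Prop × Prop, ind a.2 * ind (Msg ρ 𝒟 (ω ∪ P) (s + i) e X = a) := fun ω => by
    simp only [mul_comm (ind _) (ind (_ = _))]
    rw [sum_ind_val (Msg ρ 𝒟 (ω ∪ P) (s + i) e X) fun a => ind a.2, hρ, Msg_core]
  have h2 := sus_bound B Q s i e
  have h3 : ∑ _a : Prop × Prop, η = 4 * η := by
    rw [sum_const, card_univ, Fintype.card_prod, Fintype.card_prop, nsmul_eq_mul]
    norm_num
  rw [E_congr h1, E_sum, ← h3]
  refine le_trans ?_ (add_le_add_left h2 _)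
  rw [← sum_add_distrib]
  refine sum_le_sum fun a _ => ?_
  have h4 := abs_le.1 (KEV_one L hR hD a)
  rw [E_const_mul]
  unfold Pr at h4
  by_cases ha : a.2
  · rw [ind_pos ha]
    linarith only [h4, h4.2]
  · rw [ind_neg ha]
    linarith only [h4, h4.1, h4.2]

omit [Fintype V] in
lemma KEV_zz {𝓔 : Finset (Sym2 V)} (B : Big 𝒟 𝓔 ins q k M l) (j : ℕ) (e : Sym2 V) :
    0 ≤ zz 𝒟 ins q j e ∧ zz 𝒟 ins q j e ≤ 1 := by
  induction j generalizing e with
  | zero => exact ⟨ind_nonneg _, ind_le_one _⟩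
  | succ j ih =>
    exact ⟨(Real.exp_pos _).le, Real.exp_le_one_iff.2
      (neg_nonpos.2 (B.rate_mem (fun g _ => ih g) e).1)⟩

lemma KEV_bp1 {η δ : ℝ} {i D : ℕ} (L : KEV_LL (bpRule ins) 𝒟 x q k D η) (hD : i ≤ D)
    (hδ : ∀ e, |law (bpRule ins) 𝒟 q i e True - zz 𝒟 ins q i e| ≤ δ) {P X : Finset (Sym2 V)}
    {e : Sym2 V} (hR : KEV_Root 𝒟 k P e X) :
    |E x (fun ω => ind (BP 𝒟 ins (ω ∪ P) i e X)) - zz 𝒟 ins q i e| ≤ η + δ := by
  have h1 := KEV_one L hR hD True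
  simp only [eq_iff_iff, iff_true, Msg_bp] at h1
  exact (abs_sub_le _ _ _).trans (add_le_add h1 (hδ e))

lemma KEV_bpT {η δ : ℝ} (B : Big 𝒟 (offd V) ins q k M l) {i D : ℕ}
    (L : KEV_LL (bpRule ins) 𝒟 x q k D η) (hD : i ≤ D)
    (hδ : ∀ e, |law (bpRule ins) 𝒟 q i e True - zz 𝒟 ins q i e| ≤ δ) {T : Finset (Sym2 V)}
    (hT : T ∈ 𝒟) : |E x (fun ω => ind (∀ g ∈ T, BP 𝒟 ins (ω ∪ T) i g T)) -
      ∏ g ∈ T, zz 𝒟 ins q i g| ≤ η + k * δ := by
  have h1 := L T (T.image fun g => (g, T, i)) (fun _ => True) (B.card T hT).le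
    ⟨fun a ha => by
      obtain ⟨g, hg, rfl⟩ := mem_image.1 ha
      exact (KEV_rootT B hT hg).2, fun a ha b hb hab => by
      obtain ⟨g, -, rfl⟩ := mem_image.1 ha
      obtain ⟨g', -, rfl⟩ := mem_image.1 hb
      exact Prod.ext hab rfl⟩
    (fun a ha => by
      obtain ⟨g, -, rfl⟩ := mem_image.1 ha
      exact hD)
  have h2 : Takes (bpRule ins) 𝒟 T (T.image fun g => (g, T, i)) (fun _ => True) =
      fun ω => ∀ g ∈ T, BP 𝒟 ins (ω ∪ T) i g T := by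
    funext ω
    simp only [Takes, forall_mem_image, eq_iff_iff, iff_true, Msg_bp]
  rw [h2, prod_image fun a _ b _ hab => (Prod.ext_iff.1 hab).1] at h1
  have hW := law_isW (𝒞 := 𝒟) (bpRule ins) B.q0 B.q1 i
  have h3 := abs_prod_sub_le (s := T) (z := fun g => law (bpRule ins) 𝒟 q i g True)
    (w := zz 𝒟 ins q i) (fun g _ => ⟨hW.1 _ _, (single_le_sum (fun a _ => hW.1 g a)
      (mem_univ True)).trans (hW.2 g).le⟩) fun g _ => KEV_zz B i g
  have h4 := sum_le_card_nsmul T _ δ fun g _ => hδ g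
  rw [B.card T hT, nsmul_eq_mul] at h4
  exact (abs_sub_le _ _ _).trans (add_le_add h1 (h3.trans h4))

/-- Comparison of an expectation with a sum of planted terms. -/
lemma KEV_cmp {ι κ : Type} [Fintype ι] [DecidableEq ι] (h0 : 0 ≤ x) (h1 : x ≤ 1) (s : Finset κ)
    {f : Finset ι → ℝ} {a b : κ → Finset ι → ℝ} {z : κ → ℝ} {c : ℝ}
    (hf : ∀ ω, |f ω - ∑ j ∈ s, a j ω| ≤ ∑ j ∈ s, b j ω)
    (hc : ∀ j ∈ s, E x (b j) + |E x (a j) - z j| ≤ c) :
    |E x f - ∑ j ∈ s, z j| ≤ s.card * c := by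
  have e1 := (abs_E_le h0 h1 _).trans (E_mono h0 h1 hf)
  rw [E_sub, E_sum, E_sum] at e1
  have e2 := abs_sum_le_sum_abs (fun j => E x (a j) - z j) s
  have e3 := sum_le_card_nsmul s _ c hc
  rw [sum_sub_distrib] at e2
  rw [sum_add_distrib, nsmul_eq_mul] at e3
  exact (abs_sub_le _ _ _).trans ((add_le_add e1 e2).trans e3)

lemma KEV_card (n : ℕ) : ((offd (Fin n)).card : ℝ) ≤ (n : ℝ) ^ 2 := by
  have h1 := (card_le_univ (offd (Fin n))).trans
    (Fintype.card_le_of_surjective _ (Sym2.mk_surjective (α := Fin n)))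
  rw [Fintype.card_prod, Fintype.card_fin, ← sq] at h1
  exact_mod_cast h1

end Aux

theorem ev_counts (R : HReg p 𝒞 h k K0 μ Λ) {M l γ ε D1 : ℝ} (P : Par k M l γ ε D1)
    (hl : 2 ≤ (1 - γ) * l) (S : ℕ) {ζ : ℝ} (hζ : 0 < ζ) :
    ∀ᶠ n : ℕ in atTop, ∀ ins : Sym2 (Fin n) → Prop,
      Big (𝒞 n) (offd (Fin n)) ins (p n ^ (k - 1)) k M l → ∀ s i : ℕ, i ≤ s → s ≤ S →
      |E (p n) (fun ω => freeN (𝒞 n) (offd (Fin n)) i
          (red (𝒞 n) ins (fun e => (1 - γ) * lam (𝒞 n) ins (p n ^ (k - 1)) e) D1 s ω)) -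
        p n * ∑ e ∈ offd (Fin n), zz (𝒞 n) ins (p n ^ (k - 1)) i e| ≤
        p n * (n : ℝ) ^ 2 * (4 * k * M / 2 ^ i + ζ) ∧
      |E (p n) (fun ω => satN (𝒞 n) i
          (red (𝒞 n) ins (fun e => (1 - γ) * lam (𝒞 n) ins (p n ^ (k - 1)) e) D1 s ω)) -
        p n * tot (𝒞 n) (p n ^ (k - 1)) (zz (𝒞 n) ins (p n ^ (k - 1)) i)| ≤
        p n * (n : ℝ) ^ 2 * (M * (4 * k * M / 2 ^ i + ζ)) := by
  have hη : 0 < ζ / 6 := by positivity
  have l1 := (R.qlim.mul_const M).const_mul ((k * M + 1) ^ S)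
  rw [zero_mul, mul_zero] at l1
  filter_upwards [rule_limit R Prop (2 * S) k hη, rule_limit R (Prop × Prop) (2 * S) k hη,
    l1.eventually (ge_mem_nhds hη)] with n L1 L2 hδ ins B s i hi hs
  have h0 := R.p0 n
  have h1 := R.p1 n
  have hq := B.q0
  have hM : 0 ≤ M := zero_le_one.trans B.M1
  have hk : (1 : ℝ) ≤ k := by exact_mod_cast one_le_two.trans B.k2
  have hpq : p n ^ k = p n * p n ^ (k - 1) := by
    rw [← pow_succ', Nat.sub_add_cancel (one_le_two.trans B.k2)]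
  have hK : ∀ e, ins e → 2 ≤ (1 - γ) * lam (𝒞 n) ins (p n ^ (k - 1)) e := fun e he =>
    hl.trans (mul_le_mul_of_nonneg_left (B.low e he) (by linarith only [P, P.g1]))
  have hlaw : ∀ e, |law (bpRule ins) (𝒞 n) (p n ^ (k - 1)) i e True -
      zz (𝒞 n) ins (p n ^ (k - 1)) i e| ≤ ζ / 6 := fun e =>
    (B.law_bp i e).trans ((mul_le_mul_of_nonneg_right (pow_le_pow_right₀
      (le_add_of_nonneg_left (by positivity)) (hi.trans hs)) (by positivity)).trans hδ)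
  have hN := KEV_card n
  have hC := B.count_le
  have hA : 0 ≤ 4 * k * M / 2 ^ i + ζ := by positivity
  have LA : KEV_LL (bpRule ins) (𝒞 n) (p n) (p n ^ (k - 1)) k (2 * S) (ζ / 6) := L1 _
  have LB : KEV_LL (coreRule (𝒞 n) ins (fun e => (1 - γ) * lam (𝒞 n) ins (p n ^ (k - 1)) e) D1 s)
    (𝒞 n) (p n) (p n ^ (k - 1)) k (2 * S) (ζ / 6) := L2 _
  clear L1 L2
  constructor
  · rw [mul_sum]
    refine (KEV_cmp h0 h1 _ (fun ω => free_bp hK hi) (c := p n * (4 * k * M / 2 ^ i + ζ))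
      fun e he => ?_).trans ?_
    · have r1 := KEV_root1 B he
      have e1 := KEV_sus B P LB (i := i) (by omega) r1
      have e2 := KEV_bp1 LA (by omega) hlaw r1
      simp only [← singleton_subset_iff (a := e), ind_and]
      rw [plant, plant, card_singleton, pow_one, ← mul_sub, abs_mul, abs_of_nonneg h0, ← mul_add]
      exact mul_le_mul_of_nonneg_left (by linarith only [e1, e2]) h0
    · rw [mul_comm (p n) (_ ^ 2), mul_assoc (_ ^ 2)]
      exact mul_le_mul_of_nonneg_right hN (mul_nonneg h0 hA)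
  · rw [tot, ← mul_assoc, ← hpq, mul_sum]
    refine (KEV_cmp h0 h1 _ (fun ω => sat_bp hK hi)
      (c := p n ^ k * (k * (4 * k * M / 2 ^ i + ζ))) fun T hT => ?_).trans ?_
    · have e1 := sum_le_card_nsmul T _ _ fun g hg =>
        KEV_sus B P LB (i := i) (by omega) (KEV_rootT B hT hg)
      have e2 := KEV_bpT B LA (by omega) hlaw hT
      rw [E_sum]
      simp only [ind_and, plant]
      rw [B.card T hT, nsmul_eq_mul] at *
      rw [← mul_sum, ← mul_sub, abs_mul, abs_of_nonneg (pow_nonneg h0 _), ← mul_add]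
      exact mul_le_mul_of_nonneg_left (by linarith only [e1, e2, hζ, hk, mul_nonneg_of_nonpos_of_nonpos (le_of_lt (Mathlib.Tactic.Linarith.sub_neg_of_lt hζ)) (Mathlib.Tactic.Linarith.sub_nonpos_of_le hk)]) (pow_nonneg h0 _)
    · calc _ = p n * (k * (p n ^ (k - 1) * (𝒞 n).card)) * (4 * k * M / 2 ^ i + ζ) := by
            rw [hpq]; ring
        _ ≤ p n * ((n : ℝ) ^ 2 * M) * (4 * k * M / 2 ^ i + ζ) :=
            mul_le_mul_of_nonneg_right (mul_le_mul_of_nonneg_left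
              (hC.trans (mul_le_mul_of_nonneg_right hN hM)) h0) hA
        _ = _ := by ring

/-- The numerical assumptions hold for large `Λ`. -/
lemma exists_par (k : ℕ) {K c γ : ℝ} (hK : 1 ≤ K) (hc : 0 < c) (g0 : 0 < γ) (g1 : γ ≤ 1 / 2) :
    ∃ Λ0 : ℝ, ∀ Λ, Λ0 ≤ Λ → 2 ≤ (1 - γ) * (c * Λ) ∧
      ∃ ε, Par k (K * (Λ + 1)) (c * Λ) γ ε (3 * (K * (Λ + 1)) + 1) := by
  obtain ⟨d, d0, d1, d2⟩ : ∃ d : ℝ, 0 < d ∧ d ≤ γ ^ 2 * c / 16 ∧ d ≤ 1 :=
    ⟨min (γ ^ 2 * c / 16) 1, lt_min (by positivity) one_pos, min_le_left _ _, min_le_right _ _⟩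
  have l1 := ((Real.tendsto_pow_mul_exp_neg_atTop_nhds_zero 2).comp
    ((tendsto_atTop_add_const_right _ 1 tendsto_id).const_mul_atTop d0)).const_mul
    (64 * (k : ℝ) ^ 2 * K ^ 2 * Real.exp (1 + d) / d ^ 2)
  rw [mul_zero] at l1
  obtain ⟨Λ0, h⟩ := eventually_atTop.1 ((l1.eventually (ge_mem_nhds g0)).and
    (eventually_ge_atTop (4 / c)))
  refine ⟨Λ0, fun Λ hΛ => ?_⟩
  obtain ⟨h1, h2⟩ := h Λ hΛ
  have h3 : 0 < Λ := lt_of_lt_of_le (by positivity) h2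
  rw [div_le_iff₀' hc] at h2
  refine ⟨by linarith only [g1, h2, mul_nonneg_of_nonpos_of_nonpos (Mathlib.Tactic.Linarith.sub_nonpos_of_le g1) (Mathlib.Tactic.Linarith.sub_nonpos_of_le h2)], Real.exp (1 - d * Λ), g0, g1, le_rfl, Real.exp_le_exp.2 (by (refine le_of_not_gt fun h_nl => ?_; linarith only [h_nl, d1, hc, h2, mul_pos_of_neg_of_neg (Mathlib.Tactic.Linarith.sub_neg_of_lt hc) (Mathlib.Tactic.Linarith.sub_neg_of_lt h_nl), mul_nonneg_of_nonpos_of_nonpos (Mathlib.Tactic.Linarith.sub_nonpos_of_le d1) (Mathlib.Tactic.Linarith.sub_nonpos_of_le h2)])),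
    Real.exp_le_exp.2 (by (refine le_of_not_gt fun h_nl => ?_; linarith only [h_nl, hK, d2, hc, h2, g0, g1, mul_nonneg_of_nonpos_of_nonpos (Mathlib.Tactic.Linarith.sub_nonpos_of_le hK) (le_of_lt (Mathlib.Tactic.Linarith.sub_neg_of_lt hc)), mul_nonneg_of_nonpos_of_nonpos (Mathlib.Tactic.Linarith.sub_nonpos_of_le hK) (Mathlib.Tactic.Linarith.sub_nonpos_of_le h2), mul_pos_of_neg_of_neg (Mathlib.Tactic.Linarith.sub_neg_of_lt hc) (Mathlib.Tactic.Linarith.sub_neg_of_lt g0), mul_nonneg_of_nonpos_of_nonpos (le_of_lt (Mathlib.Tactic.Linarith.sub_neg_of_lt hc)) (Mathlib.Tactic.Linarith.sub_nonpos_of_le g1), mul_pos_of_neg_of_neg (Mathlib.Tactic.Linarith.sub_neg_of_lt hc) (Mathlib.Tactic.Linarith.sub_neg_of_lt h_nl), mul_nonneg_of_nonpos_of_nonpos (Mathlib.Tactic.Linarith.sub_nonpos_of_le d2) (Mathlib.Tactic.Linarith.sub_nonpos_of_le h2)])), le_of_eq_of_le ?_ h1⟩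
  rw [show 1 - d * Λ = 1 + d + -(d * (Λ + 1)) by ring, Real.exp_add]
  simp only [Function.comp, id]
  field_simp

end Pool.Agent.Work.MP_d4a230_co
end

-- merged part: Pool.Agent.Work.MP_d4a230_co.KLoc
section
/-!
Locality of the statistics of the reduced set.
-/

namespace Pool.Agent.Work.MP_d4a230_co

open Finset

variable {ι : Type} [DecidableEq ι] {𝒞 : Finset (Finset ι)} {𝓔 : Finset ι} {ins : ι → Prop}
  {K : ι → ℝ} {D1 Δ : ℝ} {ω ω1 ω2 : Finset ι} {k : ℕ}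

/-- The ball around `e0` in the hypergraph of the members contained in `ω`. -/
def ball (𝒞 : Finset (Finset ι)) (ω : Finset ι) (e0 : ι) : ℕ → Finset ι
  | 0 => {e0}
  | j + 1 => ball 𝒞 ω e0 j ∪
      (𝒞.filter fun T => T ⊆ ω ∧ ∃ g ∈ T, g ∈ ball 𝒞 ω e0 j).biUnion id

/-- Two subsets of `ω` that agree outside `X`. -/
def Agree (ω ω1 ω2 X : Finset ι) : Prop := ω1 ⊆ ω ∧ ω2 ⊆ ω ∧ ∀ e ∉ X, e ∈ ω1 ↔ e ∈ ω2

lemma ball_mono (e0 : ι) {i j : ℕ} (hij : i ≤ j) : ball 𝒞 ω e0 i ⊆ ball 𝒞 ω e0 j := by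
  induction j, hij using Nat.le_induction with
  | base => exact Subset.rfl
  | succ j _ ih => exact ih.trans subset_union_left

lemma KLoc_meet (hΔ : ∀ g, cop 𝒞 ω g ≤ Δ) (B : Finset ι) :
    ∑ T ∈ 𝒞, ind (∃ g ∈ B, g ∈ T ∧ T ⊆ ω) ≤ B.card * Δ := by
  refine (sum_le_sum fun T _ => ind_exists_le B fun g => g ∈ T ∧ T ⊆ ω).trans ?_
  rw [sum_comm, ← nsmul_eq_mul]
  exact sum_le_card_nsmul _ _ _ fun g _ => hΔ g

lemma card_ball (hk : ∀ T ∈ 𝒞, T.card = k) (hΔ0 : 0 ≤ Δ) (hΔ : ∀ g, cop 𝒞 ω g ≤ Δ) (e0 : ι)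
    (j : ℕ) : ((ball 𝒞 ω e0 j).card : ℝ) ≤ (1 + k * Δ) ^ j := by
  induction j with
  | zero => simp [ball]
  | succ j ih =>
    have h1 : (ball 𝒞 ω e0 (j + 1)).card ≤ (ball 𝒞 ω e0 j).card +
        (𝒞.filter fun T => T ⊆ ω ∧ ∃ g ∈ T, g ∈ ball 𝒞 ω e0 j).card * k := by
      refine (card_union_le _ _).trans (Nat.add_le_add_left ?_ _)
      exact card_biUnion_le_card_mul _ _ _ fun T hT => (hk T (mem_filter.1 hT).1).le
    have h2 : ((𝒞.filter fun T => T ⊆ ω ∧ ∃ g ∈ T, g ∈ ball 𝒞 ω e0 j).card : ℝ) ≤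
        (ball 𝒞 ω e0 j).card * Δ := by
      rw [← sum_ind]
      refine le_trans (sum_le_sum fun T _ => ind_mono ?_) (KLoc_meet hΔ (ball 𝒞 ω e0 j))
      rintro ⟨h, g, hg, hb⟩
      exact ⟨g, hb, hg, h⟩
    have h3 : ((ball 𝒞 ω e0 (j + 1)).card : ℝ) ≤ (ball 𝒞 ω e0 j).card +
        (𝒞.filter fun T => T ⊆ ω ∧ ∃ g ∈ T, g ∈ ball 𝒞 ω e0 j).card * k := by exact_mod_cast h1
    have h4 := mul_le_mul_of_nonneg_right h2 (Nat.cast_nonneg (α := ℝ) k)
    have h5 : (0 : ℝ) ≤ 1 + k * Δ := by positivity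
    have h6 := mul_le_mul_of_nonneg_right ih h5
    rw [pow_succ]
    linarith only [h3, h4, h6]

lemma KLoc_miss {e0 e : ι} {b : ℕ} (he : e ∉ ball 𝒞 ω e0 (b + 1)) {T : Finset ι} (hT : T ∈ 𝒞)
    (heT : e ∈ T) (hs : T ⊆ ω) : ∀ g ∈ T, g ∉ ball 𝒞 ω e0 b := fun g hg hb =>
  he (mem_union_right _ (mem_biUnion.2 ⟨T, mem_filter.2 ⟨hT, hs, g, hg, hb⟩, heT⟩))

lemma KLoc_sub {X T : Finset ι} (h : Agree ω ω1 ω2 X) (hT : T ⊆ ω → ∀ g ∈ T, g ∉ X) :
    T ⊆ ω1 ↔ T ⊆ ω2 :=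
  ⟨fun hs g hg => (h.2.2 g (hT (hs.trans h.1) g hg)).1 (hs hg),
    fun hs g hg => (h.2.2 g (hT (hs.trans h.2.1) g hg)).2 (hs hg)⟩

lemma KLoc_sub' {e0 e : ι} {a j : ℕ} (h : Agree ω ω1 ω2 (ball 𝒞 ω e0 a))
    (he : e ∉ ball 𝒞 ω e0 (a + (j + 1))) {T : Finset ι} (hT : T ∈ 𝒞) (heT : e ∈ T) :
    T ⊆ ω1 ↔ T ⊆ ω2 :=
  KLoc_sub h fun hs g hg hb =>
    KLoc_miss (b := a + j) he hT heT hs g hg (ball_mono e0 (Nat.le_add_right a j) hb)

lemma Agree.core {e0 : ι} {a : ℕ} (h : Agree ω ω1 ω2 (ball 𝒞 ω e0 a)) (j : ℕ) {e : ι}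
    (he : e ∉ ball 𝒞 ω e0 (a + j)) : Core 𝒞 ins K D1 ω1 j e ↔ Core 𝒞 ins K D1 ω2 j e := by
  induction j generalizing e with
  | zero => exact Iff.rfl
  | succ j ih =>
    have k1 : ∀ T ∈ 𝒞, e ∈ T → (T ⊆ ω1 ↔ T ⊆ ω2) := fun T hT heT => KLoc_sub' h he hT heT
    have k2 : ∀ T ∈ 𝒞, e ∈ T → T ⊆ ω2 → ∀ g ∈ T,
        (Core 𝒞 ins K D1 ω1 j g ↔ Core 𝒞 ins K D1 ω2 j g) :=
      fun T hT heT hs g hg => ih (KLoc_miss he hT heT (hs.trans h.2.1) g hg)
    have e1 : ∑ T ∈ 𝒞, ind (e ∈ T ∧ T ⊆ ω1 ∧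
          ∀ g ∈ T, g ≠ e → ¬ ins g ∧ Core 𝒞 ins K D1 ω1 j g) =
        ∑ T ∈ 𝒞, ind (e ∈ T ∧ T ⊆ ω2 ∧
          ∀ g ∈ T, g ≠ e → ¬ ins g ∧ Core 𝒞 ins K D1 ω2 j g) := by
      refine sum_congr rfl fun T hT => ind_congr (and_congr_right fun heT => ?_)
      rw [k1 T hT heT]
      exact and_congr_right fun hs => forall₂_congr fun g hg => by rw [k2 T hT heT hs g hg]
    have e2 : cop 𝒞 ω1 e = cop 𝒞 ω2 e :=
      sum_congr rfl fun T hT => ind_congr (and_congr_right fun heT => k1 T hT heT)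
    have e3 : (∀ T ∈ 𝒞, e ∈ T → T ⊆ ω1 → ∃ g ∈ T, ins g ∧ Core 𝒞 ins K D1 ω1 j g) ↔
        ∀ T ∈ 𝒞, e ∈ T → T ⊆ ω2 → ∃ g ∈ T, ins g ∧ Core 𝒞 ins K D1 ω2 j g := by
      refine forall₃_congr fun T hT heT => ?_
      rw [k1 T hT heT]
      exact forall_congr' fun hs => exists_congr fun g => and_congr_right fun hg => by
        rw [k2 T hT heT hs g hg]
    simp only [Core]
    rw [e1, e2, e3]

lemma Agree.red {e0 : ι} {a : ℕ} (h : Agree ω ω1 ω2 (ball 𝒞 ω e0 a)) (s : ℕ) :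
    Agree ω (red 𝒞 ins K D1 s ω1) (red 𝒞 ins K D1 s ω2) (ball 𝒞 ω e0 (a + s)) := by
  refine ⟨(red_subset s).trans h.1, (red_subset s).trans h.2.1, fun e he => ?_⟩
  rw [mem_red, mem_red, h.core s he,
    h.2.2 e fun hb => he (ball_mono e0 (Nat.le_add_right a s) hb)]

lemma Agree.hf {e0 : ι} {a : ℕ} (h : Agree ω ω1 ω2 (ball 𝒞 ω e0 a)) (j : ℕ) {e : ι}
    (he : e ∉ ball 𝒞 ω e0 (a + j)) (X : Finset ι) : HF 𝒞 ω1 j e X ↔ HF 𝒞 ω2 j e X := by
  induction j generalizing e X with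
  | zero => exact Iff.rfl
  | succ j ih =>
    rw [HF_succ, HF_succ]
    refine forall₄_congr fun T hT _ heT => ?_
    rw [KLoc_sub' h he hT heT]
    refine forall_congr' fun hs => not_congr (forall₃_congr fun g hg _ => ?_)
    exact ih (KLoc_miss (b := a + j) he hT heT (hs.trans h.2.1) g hg) T

lemma KLoc_hall {e0 : ι} {a b i : ℕ} (h : Agree ω ω1 ω2 (ball 𝒞 ω e0 a)) {T : Finset ι}
    (hT : T ⊆ ω → ∀ g ∈ T, g ∉ ball 𝒞 ω e0 (a + b)) (hi : i ≤ b) :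
    HAll 𝒞 ω1 i T ↔ HAll 𝒞 ω2 i T := by
  unfold HAll
  rw [KLoc_sub h fun hs g hg hb => hT hs g hg (ball_mono e0 (Nat.le_add_right a b) hb)]
  refine and_congr_right fun hs => forall₂_congr fun g hg => h.hf i (fun hb => ?_) T
  exact hT (hs.trans h.2.1) g hg (ball_mono e0 (by omega) hb)

lemma KLoc_forced {e0 : ι} {a b t : ℕ} (h : Agree ω ω1 ω2 (ball 𝒞 ω e0 a)) {T : Finset ι}
    (hT : ∀ g ∈ T, g ∉ ball 𝒞 ω e0 (a + b)) (ht : 2 * t + 1 ≤ b) {e : ι} (he : e ∈ T) :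
    HForced 𝒞 ω1 t e T ↔ HForced 𝒞 ω2 t e T := by
  have k1 : ∀ i ≤ b, ∀ g ∈ T, (HF 𝒞 ω1 i g T ↔ HF 𝒞 ω2 i g T) :=
    fun i hi g hg => h.hf i (fun hb => hT g hg (ball_mono e0 (by omega) hb)) T
  refine exists_congr fun l => and_congr_right fun hl => ?_
  unfold HTri
  rw [KLoc_sub h fun _ g hg hb => hT g hg (ball_mono e0 (Nat.le_add_right a b) hb),
    k1 _ (by omega) e he, k1 (2 * l + 1) (by omega) e he,
    forall₃_congr fun g hg (_ : g ≠ e) => k1 (2 * l + 1) (by omega) g hg]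

lemma KLoc_hwgt {e0 : ι} {a b t : ℕ} (h : Agree ω ω1 ω2 (ball 𝒞 ω e0 a)) {T : Finset ι}
    (hT : ∀ g ∈ T, g ∉ ball 𝒞 ω e0 (a + b)) (ht : 2 * t + 1 ≤ b) {e : ι} (he : e ∈ T) :
    hwgt 𝒞 ω1 t T e = hwgt 𝒞 ω2 t T e := by
  unfold hwgt
  rw [KLoc_forced h hT ht he, sum_congr rfl fun g hg => ind_congr (KLoc_forced h hT ht hg)]

lemma Agree.psi {e0 : ι} {a : ℕ} (h : Agree ω ω1 ω2 (ball 𝒞 ω e0 a)) (t : ℕ) {e : ι}
    (he : e ∉ ball 𝒞 ω e0 (a + (2 * t + 3))) : psi 𝒞 t ω1 e = psi 𝒞 t ω2 e := by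
  have hb : ∀ T ∈ 𝒞, e ∈ T → T ⊆ ω → ∀ g ∈ T, g ∉ ball 𝒞 ω e0 (a + (2 * t + 2)) :=
    fun T hT heT hs => KLoc_miss (b := a + (2 * t + 2)) he hT heT hs
  have e1 : (e ∈ ω1 ∧ HF 𝒞 ω1 (2 * t + 2) e ∅) ↔ (e ∈ ω2 ∧ HF 𝒞 ω2 (2 * t + 2) e ∅) := by
    rw [h.2.2 e fun hh => he (ball_mono e0 (by omega) hh),
      h.hf (2 * t + 2) (fun hh => he (ball_mono e0 (by omega) hh))]
  unfold MP_d4a230_co.psi
  rw [ind_congr e1]
  congr 1
  · congr 1
    refine sum_congr rfl fun T hT => ?_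
    by_cases heT : e ∈ T
    · rw [KLoc_hall h (hb T hT heT) (by omega : 2 * t + 1 ≤ 2 * t + 2)]
      by_cases hA : HAll 𝒞 ω2 (2 * t + 1) T
      · rw [KLoc_hwgt h (hb T hT heT (hA.1.trans h.2.1)) (by omega) heT]
      · simp [ind_neg hA]
    · simp [ind_neg heT]
  · refine sum_congr rfl fun T hT => ?_
    by_cases heT : e ∈ T
    · rw [KLoc_hall h (hb T hT heT) (by omega : 2 * t + 1 ≤ 2 * t + 2),
        KLoc_hall h (hb T hT heT) le_rfl]
    · simp [ind_neg heT]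

lemma abs_psi_le (hne : ∀ T ∈ 𝒞, T.Nonempty) (hΔ : ∀ g, cop 𝒞 ω g ≤ Δ) (h1 : ω1 ⊆ ω) (t : ℕ)
    (e : ι) : |psi 𝒞 t ω1 e| ≤ 1 + 2 * Δ := by
  have k1 : ∀ i T, 0 ≤ ind (e ∈ T) * ind (HAll 𝒞 ω1 i T) ∧
      ind (e ∈ T) * ind (HAll 𝒞 ω1 i T) ≤ ind (e ∈ T ∧ T ⊆ ω) := by
    intro i T
    rw [← ind_and]
    exact ⟨ind_nonneg _, ind_mono fun hh => ⟨hh.1, hh.2.1.trans h1⟩⟩
  have k2 : ∀ T ∈ 𝒞, 0 ≤ ind (e ∈ T) * (ind (HAll 𝒞 ω1 (2 * t + 1) T) * (1 - hwgt 𝒞 ω1 t T e)) ∧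
      ind (e ∈ T) * (ind (HAll 𝒞 ω1 (2 * t + 1) T) * (1 - hwgt 𝒞 ω1 t T e)) ≤
        ind (e ∈ T ∧ T ⊆ ω) := by
    intro T hT
    by_cases heT : e ∈ T
    · have w0 := hwgt_nonneg (𝒞 := 𝒞) (ω := ω1) t T e
      have w1 : hwgt 𝒞 ω1 t T e ≤ 1 := by
        rw [← hwgt_sum (𝒞 := 𝒞) (ω := ω1) t (hne T hT)]
        exact single_le_sum (fun g _ => hwgt_nonneg t T g) heT
      obtain ⟨a1, a2⟩ := k1 (2 * t + 1) T
      rw [← mul_assoc]
      exact ⟨mul_nonneg a1 (by linarith), by linarith only [a2, w0, a1, mul_nonneg_of_nonpos_of_nonpos (Mathlib.Tactic.Linarith.sub_nonpos_of_le w0) (Mathlib.Tactic.Linarith.sub_nonpos_of_le a1)]⟩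
    · rw [ind_neg heT, zero_mul]
      exact ⟨le_rfl, ind_nonneg _⟩
  have b1 := sum_nonneg fun T hT => (k2 T hT).1
  have b2 := (sum_le_sum fun T hT => (k2 T hT).2).trans (hΔ e)
  have c1 : ∑ T ∈ 𝒞, ind (e ∈ T) * (ind (HAll 𝒞 ω1 (2 * t + 2) T) -
      ind (HAll 𝒞 ω1 (2 * t + 1) T)) ≤ Δ := by
    refine le_trans (sum_le_sum fun T _ => ?_) (hΔ e)
    rw [mul_sub]
    linarith [(k1 (2 * t + 2) T).2, (k1 (2 * t + 1) T).1]
  have c2 : -Δ ≤ ∑ T ∈ 𝒞, ind (e ∈ T) * (ind (HAll 𝒞 ω1 (2 * t + 2) T) -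
      ind (HAll 𝒞 ω1 (2 * t + 1) T)) := by
    rw [neg_le, ← sum_neg_distrib]
    refine le_trans (sum_le_sum fun T _ => ?_) (hΔ e)
    rw [mul_sub]
    linarith [(k1 (2 * t + 2) T).1, (k1 (2 * t + 1) T).2]
  have a1 := ind_nonneg (e ∈ ω1 ∧ HF 𝒞 ω1 (2 * t + 2) e ∅)
  have a2 := ind_le_one (e ∈ ω1 ∧ HF 𝒞 ω1 (2 * t + 2) e ∅)
  unfold psi
  rw [abs_le]
  constructor <;> linarith only [b1, b2, c1, a1, c2, a2]

lemma KLoc_erase (ω : Finset ι) (e0 : ι) : Agree ω ω (ω.erase e0) (ball 𝒞 ω e0 0) :=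
  ⟨Subset.rfl, erase_subset _ _, fun e he => by
    rw [mem_erase, and_iff_right fun h => he (mem_singleton.2 h)]⟩

lemma KLoc_sum_le (s B : Finset ι) {f : ι → ℝ} {c : ℝ} (hc : 0 ≤ c) (h0 : ∀ e ∉ B, f e = 0)
    (h1 : ∀ e, f e ≤ c) : ∑ e ∈ s, f e ≤ B.card * c := by
  rw [← sum_filter_add_sum_filter_not s (· ∈ B), sum_eq_zero (s := s.filter fun e => ¬ e ∈ B)
    fun e he => h0 e (mem_filter.1 he).2, add_zero]
  refine (sum_le_card_nsmul _ _ c fun e _ => h1 e).trans ?_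
  rw [nsmul_eq_mul]
  exact mul_le_mul_of_nonneg_right
    (Nat.cast_le.2 (card_le_card fun e he => (mem_filter.1 he).2)) hc

lemma KLoc_abs_ind (q r : Prop) : |ind q - ind r| ≤ 1 := by
  rw [abs_le]
  constructor <;> linarith [ind_nonneg q, ind_le_one q, ind_nonneg r, ind_le_one r]

lemma KLoc_card (hk : ∀ T ∈ 𝒞, T.card = k) (hΔ1 : 1 ≤ Δ) (hΔ : ∀ g, cop 𝒞 ω g ≤ Δ) (e0 : ι)
    (j : ℕ) : ((ball 𝒞 ω e0 j).card : ℝ) ≤ (1 + k) ^ j * Δ ^ j := by
  refine (card_ball hk (zero_le_one.trans hΔ1) hΔ e0 j).trans ?_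
  rw [← mul_pow]
  have : (0 : ℝ) ≤ Δ := zero_le_one.trans hΔ1
  exact pow_le_pow_left₀ (by positivity) (by linarith) j

theorem free_lip (hk : ∀ T ∈ 𝒞, T.card = k) (hΔ1 : 1 ≤ Δ) (hΔ : ∀ g, cop 𝒞 ω g ≤ Δ) (s i : ℕ)
    (e0 : ι) : |freeN 𝒞 𝓔 i (red 𝒞 ins K D1 s ω) - freeN 𝒞 𝓔 i (red 𝒞 ins K D1 s (ω.erase e0))| ≤
      (1 + k) ^ (s + i) * Δ ^ (s + i) := by
  have h := (KLoc_erase (𝒞 := 𝒞) ω e0).red (ins := ins) (K := K) (D1 := D1) s
  rw [Nat.zero_add] at h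
  unfold freeN
  rw [← sum_sub_distrib]
  refine (abs_sum_le_sum_abs _ _).trans ((KLoc_sum_le 𝓔 (ball 𝒞 ω e0 (s + i)) zero_le_one
    (fun e he => ?_) fun e => KLoc_abs_ind _ _).trans ?_)
  · rw [h.2.2 e fun hb => he (ball_mono e0 (Nat.le_add_right s i) hb), h.hf i he, sub_self,
      abs_zero]
  · rw [mul_one]
    exact KLoc_card hk hΔ1 hΔ e0 _

theorem sat_lip (hk : ∀ T ∈ 𝒞, T.card = k) (hΔ1 : 1 ≤ Δ) (hΔ : ∀ g, cop 𝒞 ω g ≤ Δ) (s i : ℕ)
    (e0 : ι) : |satN 𝒞 i (red 𝒞 ins K D1 s ω) - satN 𝒞 i (red 𝒞 ins K D1 s (ω.erase e0))| ≤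
      (1 + k) ^ (s + i) * Δ ^ (s + i + 1) := by
  have h := (KLoc_erase (𝒞 := 𝒞) ω e0).red (ins := ins) (K := K) (D1 := D1) s
  rw [Nat.zero_add] at h
  unfold satN
  rw [← sum_sub_distrib]
  refine (abs_sum_le_sum_abs _ _).trans (le_trans (sum_le_sum fun T _ => ?_)
    ((KLoc_meet hΔ (ball 𝒞 ω e0 (s + i))).trans ?_))
  · by_cases hT : ∃ g ∈ ball 𝒞 ω e0 (s + i), g ∈ T ∧ T ⊆ ω
    · rw [ind_pos hT]
      exact KLoc_abs_ind _ _
    · rw [ind_neg hT, KLoc_hall h (fun hs g hg hb => hT ⟨g, hb, hg, hs⟩) le_rfl, sub_self, abs_zero]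
  · rw [pow_succ, ← mul_assoc]
    exact mul_le_mul_of_nonneg_right (KLoc_card hk hΔ1 hΔ e0 _) (zero_le_one.trans hΔ1)

theorem psi_lip (hk : ∀ T ∈ 𝒞, T.card = k) (hk0 : 0 < k) (hΔ1 : 1 ≤ Δ)
    (hΔ : ∀ g, cop 𝒞 ω g ≤ Δ) (s t : ℕ) (e0 : ι) :
    ∑ e ∈ 𝓔, |(ind (e ∈ ω) - psi 𝒞 t (red 𝒞 ins K D1 s ω) e) -
      (ind (e ∈ ω.erase e0) - psi 𝒞 t (red 𝒞 ins K D1 s (ω.erase e0)) e)| ≤
      7 * (1 + k) ^ (s + (2 * t + 3)) * Δ ^ (s + (2 * t + 3) + 1) := by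
  have h := (KLoc_erase (𝒞 := 𝒞) ω e0).red (ins := ins) (K := K) (D1 := D1) s
  rw [Nat.zero_add] at h
  have hne : ∀ T ∈ 𝒞, T.Nonempty := fun T hT => card_pos.1 (by rw [hk T hT]; exact hk0)
  have hΔ0 : 0 ≤ Δ := zero_le_one.trans hΔ1
  refine (KLoc_sum_le 𝓔 (ball 𝒞 ω e0 (s + (2 * t + 3))) (c := 7 * Δ) (by positivity)
    (fun e he => ?_) fun e => ?_).trans ?_
  · rw [h.psi t he, ← (KLoc_erase (𝒞 := 𝒞) ω e0).2.2 e
      fun hb => he (ball_mono e0 (Nat.zero_le _) hb), sub_self, abs_zero]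
  · have a1 := abs_le.1 (abs_psi_le hne hΔ h.1 t e)
    have a2 := abs_le.1 (abs_psi_le hne hΔ h.2.1 t e)
    have a3 := abs_le.1 (KLoc_abs_ind (e ∈ ω) (e ∈ ω.erase e0))
    rw [abs_le]
    constructor <;> linarith only [hΔ1, a1, a2, a3, a1.1, a1.2, a2.1, a2.2, a3.1, a3.2]
  · have := mul_le_mul_of_nonneg_right (KLoc_card hk hΔ1 hΔ e0 (s + (2 * t + 3)))
      (by positivity : 0 ≤ 7 * Δ)
    rw [pow_succ Δ (s + (2 * t + 3))]
    linarith

end Pool.Agent.Work.MP_d4a230_co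
end

-- merged part: Pool.Agent.Work.MP_d4a230_co.KPsi
section
/-!
The cover of the library in terms of the fractional indicator `psi`.
-/

namespace Pool.Agent.Work.MP_d4a230_co

open Finset

section Abstract

variable {ι : Type} [DecidableEq ι] {𝒞 : Finset (Finset ι)} {𝓔 : Finset ι} {ω : Finset ι} {k : ℕ}

private lemma KPsi_sum (hD : ∀ T ∈ 𝒞, T ⊆ 𝓔) (f : Finset ι → ι → ℝ) :
    ∑ e ∈ 𝓔, ∑ T ∈ 𝒞, ind (e ∈ T) * f T e = ∑ T ∈ 𝒞, ∑ e ∈ T, f T e := by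
  rw [Finset.sum_comm]
  refine Finset.sum_congr rfl fun T hT => ?_
  rw [← Finset.sum_subset (hD T hT) fun e _ he => by rw [ind_neg he, zero_mul]]
  exact Finset.sum_congr rfl fun e he => by rw [ind_pos he, one_mul]

lemma psi_le (hne : ∀ T ∈ 𝒞, T.Nonempty) (t : ℕ) (e : ι) : psi 𝒞 t ω e ≤ ind (e ∈ ω) := by
  have n3 : 0 ≤ ∑ T ∈ 𝒞, ind (e ∈ T) *
      (ind (HAll 𝒞 ω (2 * t + 2) T) - ind (HAll 𝒞 ω (2 * t + 1) T)) :=
    Finset.sum_nonneg fun T _ => mul_nonneg (ind_nonneg _) (sub_nonneg.2 (ind_mono fun h =>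
      ⟨h.1, fun g hg => HF_odd_even t (t + 1) (h.2 g hg)⟩))
  have n1 : ∀ T, ind (e ∈ T) * (ind (HAll 𝒞 ω (2 * t + 1) T) * (1 - hwgt 𝒞 ω t T e)) ≤
      ind (e ∈ T ∧ HAll 𝒞 ω (2 * t + 1) T) := fun T => by
    rw [← mul_assoc, ← ind_and]
    exact mul_le_of_le_one_right (ind_nonneg _) (sub_le_self _ (hwgt_nonneg _ _ _))
  unfold psi
  by_cases h : ∃ T ∈ 𝒞, e ∈ T ∧ HAll 𝒞 ω (2 * t + 1) T
  · obtain ⟨T, t1, t2, t3⟩ := h
    have hs : HSup 𝒞 ω t e T := ⟨t1, t2, t3.1, fun g hg _ => t3.2 g hg⟩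
    have f1 : ∑ T' ∈ 𝒞, ind (e ∈ T') *
        (ind (HAll 𝒞 ω (2 * t + 1) T') * (1 - hwgt 𝒞 ω t T' e)) ≤ ∑ T' ∈ 𝒞, ind (T' = T) :=
      Finset.sum_le_sum fun T' hT' => (n1 T').trans
        (ind_mono fun h => hsup_unique (t3.2 e t2) ⟨hT', h.1, h.2.1, fun g hg _ => h.2.2 g hg⟩)
    rw [Finset.sum_eq_single_of_mem T t1 (f := fun T' => ind (T' = T))
      (fun T' _ h => ind_neg h), ind_pos rfl] at f1
    rw [ind_neg (q := _ ∧ HF 𝒞 ω (2 * t + 2) e ∅)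
      (fun h4 => not_HF_iff.2 ⟨T, (hne T t1).ne_empty, hs⟩ h4.2), ind_pos (t3.1 t2)]
    linarith
  · have f1 : ∑ T ∈ 𝒞, ind (e ∈ T) *
        (ind (HAll 𝒞 ω (2 * t + 1) T) * (1 - hwgt 𝒞 ω t T e)) ≤ 0 :=
      Finset.sum_nonpos fun T hT => (n1 T).trans (ind_neg fun h1 => h ⟨T, hT, h1⟩).le
    linarith [ind_mono (q := e ∈ ω ∧ HF 𝒞 ω (2 * t + 2) e ∅) (r := e ∈ ω) fun h4 => h4.1]

lemma sum_psi (hk : ∀ T ∈ 𝒞, T.card = k) (hk0 : 0 < k) (hD : ∀ T ∈ 𝒞, T ⊆ 𝓔) (t : ℕ) :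
    ∑ e ∈ 𝓔, psi 𝒞 t ω e = freeN 𝒞 𝓔 (2 * t + 2) ω + (2 * (k : ℝ) - 1) * satN 𝒞 (2 * t + 1) ω -
      k * satN 𝒞 (2 * t + 2) ω := by
  unfold psi freeN satN
  rw [Finset.sum_sub_distrib, Finset.sum_add_distrib,
    KPsi_sum hD fun T e => ind (HAll 𝒞 ω (2 * t + 1) T) * (1 - hwgt 𝒞 ω t T e),
    KPsi_sum hD fun T _ => ind (HAll 𝒞 ω (2 * t + 2) T) - ind (HAll 𝒞 ω (2 * t + 1) T)]
  have e1 : ∑ T ∈ 𝒞, ∑ e ∈ T, ind (HAll 𝒞 ω (2 * t + 1) T) * (1 - hwgt 𝒞 ω t T e) =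
      ((k : ℝ) - 1) * ∑ T ∈ 𝒞, ind (HAll 𝒞 ω (2 * t + 1) T) := by
    rw [Finset.mul_sum]
    refine Finset.sum_congr rfl fun T hT => ?_
    rw [← Finset.mul_sum, Finset.sum_sub_distrib,
      hwgt_sum t (Finset.card_pos.1 (by rw [hk T hT]; exact hk0)), Finset.sum_const, hk T hT,
      nsmul_eq_mul, mul_one, mul_comm]
  have e2 : ∑ T ∈ 𝒞, ∑ _e ∈ T, (ind (HAll 𝒞 ω (2 * t + 2) T) - ind (HAll 𝒞 ω (2 * t + 1) T)) =
      (k : ℝ) * (∑ T ∈ 𝒞, ind (HAll 𝒞 ω (2 * t + 2) T) -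
        ∑ T ∈ 𝒞, ind (HAll 𝒞 ω (2 * t + 1) T)) := by
    rw [← Finset.sum_sub_distrib, Finset.mul_sum]
    refine Finset.sum_congr rfl fun T hT => ?_
    rw [Finset.sum_const, hk T hT, nsmul_eq_mul]
  rw [e1, e2]
  ring

end Abstract

variable {V : Type} [DecidableEq V] [Fintype V] {𝒞 : Finset (Finset (Sym2 V))} {h k K0 : ℕ}

theorem Sys.lower' (S : Sys 𝒞 h k K0) (ω : Finset (Sym2 V)) (t : ℕ) :
    ∃ R ⊆ ω, (∀ T ∈ 𝒞, ¬ T ⊆ R) ∧ ∃ dev : V → ℝ, ∑ v, dev v ^ 2 ≤ h * ∑ T ∈ 𝒞, ind (T ⊆ ω) ∧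
      ∀ v, ∑ a ∈ univ.erase v, psi 𝒞 t ω s(v, a) - dev v ≤ dgE R v := by
  revert t
  intro s
  classical
  rcases isEmpty_or_nonempty V with hV | hV
  · exact ⟨∅, Finset.empty_subset _, fun T hT h => (S.nonempty hT).ne_empty (Finset.subset_empty.1 h),
      fun _ => 0, by
        rw [Finset.sum_of_isEmpty]
        exact mul_nonneg (Nat.cast_nonneg _) (Finset.sum_nonneg fun _ _ => ind_nonneg _),
      fun v => isEmptyElim v⟩
  have : Nonempty (Sym2 V) := ⟨s(Classical.arbitrary V, Classical.arbitrary V)⟩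
  set L := 2 * s + 1 with hL
  set U := 2 * s + 2 with hU
  let 𝒯 := 𝒞.filter (HAll 𝒞 ω L)
  obtain ⟨σ, s1, s2⟩ := round_lemma (V := V) 𝒯 id (hwgt 𝒞 ω s)
    (fun T e v => ind (v ∈ e) - ∑ g ∈ T, ind (v ∈ g) * hwgt 𝒞 ω s T g) h (hwgt_nonneg s)
    (fun T hT => hwgt_sum s (S.nonempty (Finset.mem_filter.1 hT).1))
    (fun T hT v => by
      simp only [id, mul_sub, Finset.sum_sub_distrib, ← Finset.sum_mul]
      rw [hwgt_sum s (S.nonempty (Finset.mem_filter.1 hT).1), one_mul, sub_eq_zero]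
      exact Finset.sum_congr rfl fun _ _ => mul_comm _ _)
    (fun T hT e he => by
      have hT' := (Finset.mem_filter.1 hT).1
      rw [← S.cvs T hT', ← Finset.sum_subset (Finset.subset_univ (vs T))]
      · refine (Finset.sum_le_card_nsmul _ _ 1 fun v _ => ?_).trans (by simp)
        have f1 : 0 ≤ ∑ g ∈ T, ind (v ∈ g) * hwgt 𝒞 ω s T g :=
          Finset.sum_nonneg fun g _ => mul_nonneg (ind_nonneg _) (hwgt_nonneg _ _ _)
        have f2 : ∑ g ∈ T, ind (v ∈ g) * hwgt 𝒞 ω s T g ≤ 1 := by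
          rw [← hwgt_sum (𝒞 := 𝒞) (ω := ω) s (S.nonempty hT')]
          exact Finset.sum_le_sum fun g _ =>
            mul_le_of_le_one_left (hwgt_nonneg _ _ _) (ind_le_one _)
        exact (sq_le_one_iff_abs_le_one _).2 (abs_le.2
          ⟨by linarith only [f2, ind_nonneg (v ∈ e)], by linarith [ind_le_one (v ∈ e)]⟩)
      · intro v _ hv
        rw [ind_neg fun h => hv (mem_vs.2 ⟨e, he, h⟩), Finset.sum_eq_zero fun g hg => by
          rw [ind_neg fun h => hv (mem_vs.2 ⟨g, hg, h⟩), zero_mul]]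
        simp)
  let R := ω.filter fun e => (¬ ∃ T ∈ 𝒞, e ∈ T ∧ HAll 𝒞 ω U T ∧ ¬ HAll 𝒞 ω L T) ∧
    (HF 𝒞 ω U e ∅ ∨ ∃ T ∈ 𝒞, e ∈ T ∧ HAll 𝒞 ω L T ∧ σ T ≠ e)
  refine ⟨R, Finset.filter_subset _ _, hcover s σ (fun T hT hc => ?_)
    (fun e he => Finset.mem_filter.1 he) fun T hT => S.nonempty hT, _, s2.trans ?_, fun v => ?_⟩
  · obtain ⟨h1, h2⟩ := s1 T (Finset.mem_filter.2 ⟨hT, hc⟩)
    exact ⟨h1, fun g hg hf => hwgt_pos h1 h2 hg hf⟩
  · refine mul_le_mul_of_nonneg_left ?_ (Nat.cast_nonneg _)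
    rw [← sum_ind]
    exact Finset.sum_le_sum fun T _ => ind_mono fun h => h.1
  have c1 : ∑ a ∈ univ.erase v, (ind (s(v, a) ∈ ω ∧ HF 𝒞 ω U s(v, a) ∅) +
      ∑ T ∈ 𝒞, (ind (s(v, a) ∈ T) * ind (HAll 𝒞 ω L T) -
        ind (HAll 𝒞 ω L T) * ind (σ T = s(v, a))) -
      ∑ T ∈ 𝒞, (ind (s(v, a) ∈ T) * ind (HAll 𝒞 ω U T) -
        ind (s(v, a) ∈ T) * ind (HAll 𝒞 ω L T))) ≤ dgE R v := by
    refine Finset.sum_le_sum fun a _ => ?_
    set e := s(v, a)
    have n3 : ∀ T, 0 ≤ ind (e ∈ T) * ind (HAll 𝒞 ω U T) - ind (e ∈ T) * ind (HAll 𝒞 ω L T) :=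
      fun T => sub_nonneg.2 (mul_le_mul_of_nonneg_left (ind_mono fun h =>
        ⟨h.1, fun g hg => HF_odd_even s (s + 1) (h.2 g hg)⟩) (ind_nonneg _))
    have m1 : ind (e ∈ ω ∧ HF 𝒞 ω U e ∅) + ∑ T ∈ 𝒞, (ind (e ∈ T) * ind (HAll 𝒞 ω L T) -
        ind (HAll 𝒞 ω L T) * ind (σ T = e)) ≤
        ind (e ∈ ω ∧ (HF 𝒞 ω U e ∅ ∨ ∃ T ∈ 𝒞, e ∈ T ∧ HAll 𝒞 ω L T ∧ σ T ≠ e)) := by
      by_cases h : ∃ T ∈ 𝒞, e ∈ T ∧ HAll 𝒞 ω L T ∧ σ T ≠ e
      · obtain ⟨T, t1, t2, t3, t4⟩ := h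
        have hs : HSup 𝒞 ω s e T := ⟨t1, t2, t3.1, fun g hg _ => t3.2 g hg⟩
        have f1 : ∑ T' ∈ 𝒞, (ind (e ∈ T') * ind (HAll 𝒞 ω L T') -
            ind (HAll 𝒞 ω L T') * ind (σ T' = e)) ≤ ∑ T' ∈ 𝒞, ind (T' = T) := by
          refine Finset.sum_le_sum fun T' hT' => ?_
          rw [← ind_and]
          refine (sub_le_self _ (mul_nonneg (ind_nonneg _) (ind_nonneg _))).trans
            (ind_mono fun h => hsup_unique (t3.2 e t2) ⟨hT', h.1, h.2.1, fun g hg _ => h.2.2 g hg⟩)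
        rw [Finset.sum_eq_single_of_mem T t1 (f := fun T' => ind (T' = T))
          (fun T' _ h => ind_neg h), ind_pos rfl] at f1
        rw [ind_neg (q := _ ∧ HF 𝒞 ω U e ∅)
          (fun h4 => not_HF_iff.2 ⟨T, Finset.ne_empty_of_mem t2, hs⟩ h4.2),
          ind_pos (q := e ∈ ω ∧ _) ⟨t3.1 t2, Or.inr ⟨T, t1, t2, t3, t4⟩⟩]
        linarith only [f1]
      · have f1 : ∑ T ∈ 𝒞, (ind (e ∈ T) * ind (HAll 𝒞 ω L T) -
            ind (HAll 𝒞 ω L T) * ind (σ T = e)) ≤ 0 := by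
          refine Finset.sum_nonpos fun T hT => ?_
          rw [← ind_and, ← ind_and, sub_nonpos]
          exact ind_mono fun h1 => ⟨h1.2, by_contra fun h2 => h ⟨T, hT, h1.1, h1.2, h2⟩⟩
        linarith only [f1, ind_mono (q := e ∈ ω ∧ HF 𝒞 ω U e ∅) (r := e ∈ ω ∧ (HF 𝒞 ω U e ∅ ∨
          ∃ T ∈ 𝒞, e ∈ T ∧ HAll 𝒞 ω L T ∧ σ T ≠ e)) fun h4 => ⟨h4.1, Or.inl h4.2⟩]
    by_cases hl : ∃ T ∈ 𝒞, e ∈ T ∧ HAll 𝒞 ω U T ∧ ¬ HAll 𝒞 ω L T
    · obtain ⟨T, t1, t2, t3, t4⟩ := hl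
      have := Finset.single_le_sum (fun T _ => n3 T) t1
      rw [ind_pos t2, ind_pos t3, ind_neg t4] at this
      linarith only [m1, this, ind_nonneg (e ∈ R), ind_le_one
        (e ∈ ω ∧ (HF 𝒞 ω U e ∅ ∨ ∃ T ∈ 𝒞, e ∈ T ∧ HAll 𝒞 ω L T ∧ σ T ≠ e))]
    · have := ind_mono (q := e ∈ ω ∧ (HF 𝒞 ω U e ∅ ∨ ∃ T ∈ 𝒞, e ∈ T ∧ HAll 𝒞 ω L T ∧ σ T ≠ e))
        (r := e ∈ R) (fun h => Finset.mem_filter.2 ⟨h.1, hl, h.2⟩)
      have n4 := Finset.sum_nonneg fun T (_ : T ∈ 𝒞) => n3 T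
      linarith only [m1, this, n4]
  have c2 : ∑ a ∈ univ.erase v, ∑ T ∈ 𝒞, ind (HAll 𝒞 ω L T) * ind (σ T = s(v, a)) ≤
      ∑ T ∈ 𝒯, ind (v ∈ σ T) := by
    rw [Finset.sum_comm, Finset.sum_filter]
    refine Finset.sum_le_sum fun T _ => ?_
    rw [← Finset.mul_sum]
    split_ifs with hc
    · rw [ind_pos hc, one_mul]
      by_cases hv : v ∈ σ T
      · obtain ⟨b, hb⟩ := Sym2.mem_iff_exists.1 hv
        rw [ind_pos hv, hb, ← sum_ind_eq b]
        exact (Finset.sum_le_sum fun a _ => ind_mono fun h => (Sym2.congr_right.1 h).symm).trans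
          (Finset.sum_le_sum_of_subset_of_nonneg (Finset.subset_univ _) fun _ _ _ => ind_nonneg _)
      · rw [ind_neg hv]
        exact (Finset.sum_eq_zero fun a _ => ind_neg fun h => hv (by simp [h])).le
    · rw [ind_neg hc, zero_mul]
  have c3 : ∑ T ∈ 𝒯, ∑ g ∈ T, ind (v ∈ g) * hwgt 𝒞 ω s T g =
      ∑ a ∈ univ.erase v, ∑ T ∈ 𝒞, ind (s(v, a) ∈ T) *
        (ind (HAll 𝒞 ω L T) * hwgt 𝒞 ω s T s(v, a)) := by
    rw [Finset.sum_comm, Finset.sum_filter]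
    refine Finset.sum_congr rfl fun T hT => ?_
    split_ifs with hc
    · rw [← star_sum (S.nd T hT)]
      refine Finset.sum_congr rfl fun a _ => ?_
      rw [ind_pos hc, one_mul]
    · rw [eq_comm]
      refine Finset.sum_eq_zero fun a _ => ?_
      rw [ind_neg hc, zero_mul, mul_zero]
  unfold psi
  rw [← hL, ← hU]
  simp only [mul_sub, mul_one, Finset.sum_add_distrib, Finset.sum_sub_distrib] at c1 c3 ⊢
  linarith only [c2, c3, c1]

end Pool.Agent.Work.MP_d4a230_co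
end

-- merged part: Pool.Agent.Work.MP_d4a230_co.KSym
section
/-!
Equivariance of the statistics, and the symmetry of the balanced colouring.
-/

namespace Pool.Agent.Work.MP_d4a230_co

open Finset Pool.Agent.Work.MP_07f1b5_pr

section Abstract

variable {ι : Type} [DecidableEq ι] {𝒞 : Finset (Finset ι)} {ins : ι → Prop} {K : ι → ℝ} {D1 : ℝ}
  {φ : ι ≃ ι}

lemma E_map [Fintype ι] (p : ℝ) (φ : ι ≃ ι) (f : Finset ι → ℝ) :
    E p (fun ω => f (ω.map φ.toEmbedding)) = E p f := by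
  unfold E Ex
  rw [← (Equiv.finsetCongr φ).sum_comp fun ω => wt (fun _ => p) ω * f ω]
  refine Finset.sum_congr rfl fun ω _ => ?_
  congr 1
  unfold wt
  rw [← φ.prod_comp fun e => if e ∈ φ.finsetCongr ω then p else 1 - p]
  simp

/-- The family is invariant under `φ`. -/
def InvF (𝒞 : Finset (Finset ι)) (φ : ι ≃ ι) : Prop := ∀ T : Finset ι, T.map φ.toEmbedding ∈ 𝒞 ↔ T ∈ 𝒞

lemma InvF.sum (h : InvF 𝒞 φ) (F : Finset ι → ℝ) :
    ∑ T ∈ 𝒞, F (T.map φ.toEmbedding) = ∑ T ∈ 𝒞, F T := by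
  refine Finset.sum_equiv φ.finsetCongr (fun T => (h T).symm) fun _ _ => rfl

omit [DecidableEq ι] in
lemma KSym_mem {e : ι} {T : Finset ι} : φ e ∈ T.map φ.toEmbedding ↔ e ∈ T :=
  Finset.mem_map' φ.toEmbedding

omit [DecidableEq ι] in
lemma KSym_ex {T : Finset ι} {q : ι → Prop} :
    (∃ g ∈ T.map φ.toEmbedding, q g) ↔ ∃ g ∈ T, q (φ g) :=
  ⟨fun ⟨g, h1, h2⟩ => by
    obtain ⟨g, rfl⟩ := φ.surjective g
    exact ⟨g, KSym_mem.1 h1, h2⟩, fun ⟨g, h1, h2⟩ => ⟨φ g, KSym_mem.2 h1, h2⟩⟩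

omit [DecidableEq ι] in
lemma KSym_all (h : InvF 𝒞 φ) {q : Finset ι → Prop} :
    (∀ T ∈ 𝒞, q T) ↔ ∀ T ∈ 𝒞, q (T.map φ.toEmbedding) :=
  ⟨fun h1 T hT => h1 _ ((h T).2 hT), fun h1 T hT => by
    obtain ⟨T, rfl⟩ := φ.finsetCongr.surjective T
    exact h1 T ((h T).1 hT)⟩

lemma InvF.lam (h : InvF 𝒞 φ) (hi : ∀ e, ins (φ e) ↔ ins e) (q : ℝ) (e : ι) :
    lam 𝒞 ins q (φ e) = lam 𝒞 ins q e := by
  unfold Pool.Agent.Work.MP_d4a230_co.lam OneIn
  rw [← h.sum]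
  simp only [KSym_mem, Finset.forall_mem_map, Equiv.coe_toEmbedding, ne_eq,
    EmbeddingLike.apply_eq_iff_eq, hi]

lemma InvF.core (h : InvF 𝒞 φ) (hi : ∀ e, ins (φ e) ↔ ins e) (hK : ∀ e, K (φ e) = K e)
    (ω : Finset ι) (j : ℕ) (e : ι) :
    Core 𝒞 ins K D1 (ω.map φ.toEmbedding) j (φ e) ↔ Core 𝒞 ins K D1 ω j e := by
  induction j generalizing e with
  | zero => rfl
  | succ j ih =>
    unfold Core cop
    rw [← h.sum, ← h.sum fun T => ind (φ e ∈ T ∧ _), KSym_all h]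
    simp only [KSym_mem, Finset.forall_mem_map, Equiv.coe_toEmbedding, ne_eq,
      EmbeddingLike.apply_eq_iff_eq, hi, hK, ih, Finset.map_subset_map, KSym_ex]

lemma InvF.red (h : InvF 𝒞 φ) (hi : ∀ e, ins (φ e) ↔ ins e) (hK : ∀ e, K (φ e) = K e)
    (ω : Finset ι) (s : ℕ) :
    red 𝒞 ins K D1 s (ω.map φ.toEmbedding) = (red 𝒞 ins K D1 s ω).map φ.toEmbedding := by
  ext e
  obtain ⟨e, rfl⟩ := φ.surjective e
  unfold Pool.Agent.Work.MP_d4a230_co.red
  simp only [KSym_mem, Finset.mem_filter, hi, h.core hi hK]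

lemma InvF.hf (h : InvF 𝒞 φ) (ω : Finset ι) (j : ℕ) (e : ι) (X : Finset ι) :
    HF 𝒞 (ω.map φ.toEmbedding) j (φ e) (X.map φ.toEmbedding) ↔ HF 𝒞 ω j e X := by
  induction j generalizing e X with
  | zero => rfl
  | succ j ih =>
    rw [HF_succ, HF_succ, KSym_all h]
    simp only [KSym_mem, Finset.forall_mem_map, Equiv.coe_toEmbedding, ne_eq,
      EmbeddingLike.apply_eq_iff_eq, ih, Finset.map_subset_map, Finset.map_inj]

lemma InvF.psi (h : InvF 𝒞 φ) (ω : Finset ι) (t : ℕ) (e : ι) :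
    psi 𝒞 t (ω.map φ.toEmbedding) (φ e) = psi 𝒞 t ω e := by
  have e0 := fun j => h.hf ω j e ∅
  rw [Finset.map_empty] at e0
  unfold Pool.Agent.Work.MP_d4a230_co.psi
  rw [← h.sum, ← h.sum fun T => ind (φ e ∈ T) * (_ - _)]
  simp only [hwgt, HForced, HTri, HAll, KSym_mem, Finset.forall_mem_map, Equiv.coe_toEmbedding,
    ne_eq, EmbeddingLike.apply_eq_iff_eq, h.hf, e0, Finset.map_subset_map, Finset.sum_map,
    Finset.card_map]

end Abstract

/-- The colouring by residues. -/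
def modc (r : ℕ) (hr : 0 < r) (n : ℕ) : Fin n → Fin r := fun v => ⟨v % r, Nat.mod_lt _ hr⟩

lemma modc_bal {r n : ℕ} (hr : 0 < r) (h : r ∣ n) : Bal (modc r hr n) 0 := by
  intro i
  obtain ⟨m, rfl⟩ := h
  have e1 : (part (modc r hr (r * m)) i).card = m := by
    have a1 := Nat.count_modEq_card (r * m) hr i
    rw [Nat.mul_mod_right, if_neg (Nat.not_lt_zero _), add_zero, Nat.mul_div_cancel_left _ hr,
      Nat.count_eq_card_filter_range] at a1
    refine Eq.trans ?_ a1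
    refine Finset.card_bij (fun v _ => (v : ℕ)) (fun v hv => ?_) (fun _ _ _ _ h => Fin.ext h)
      fun v hv => ?_
    · refine Finset.mem_filter.2 ⟨Finset.mem_range.2 v.2, ?_⟩
      rw [← (Finset.mem_filter.1 hv).2]
      exact (Nat.mod_modEq _ _).symm
    · obtain ⟨b1, b2⟩ := Finset.mem_filter.1 hv
      exact ⟨⟨v, Finset.mem_range.1 b1⟩, Finset.mem_filter.2 ⟨Finset.mem_univ _,
        Fin.ext (Eq.trans b2 (Nat.mod_eq_of_lt i.2))⟩, rfl⟩
  have : (r : ℝ) ≠ 0 := by positivity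
  rw [e1, Fintype.card_fin, Nat.cast_mul, mul_div_cancel_left₀ _ this]
  simp

/-- The loss at a vertex. -/
noncomputable def loss {V : Type} [Fintype V] [DecidableEq V] (𝒞 : Finset (Finset (Sym2 V)))
    (ins : Sym2 V → Prop) (K : Sym2 V → ℝ) (D1 : ℝ) (s t : ℕ) (v : V) (ω : Finset (Sym2 V)) : ℝ :=
  ∑ a ∈ univ.erase v, (ind (s(v, a) ∈ ω) - psi 𝒞 t (red 𝒞 ins K D1 s ω) s(v, a))

variable {W : Type} [Fintype W] [DecidableEq W] {H : SimpleGraph W} [DecidableRel H.Adj]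

theorem loss_sym {r n : ℕ} (hr : 0 < r) (h : r ∣ n) (p q c D1 : ℝ) (s t : ℕ) (u v : Fin n) :
    E p (loss (copies H (Fin n)) (Ins (modc r hr n))
      (fun e => c * lam (copies H (Fin n)) (Ins (modc r hr n)) q e) D1 s t u) =
    E p (loss (copies H (Fin n)) (Ins (modc r hr n))
      (fun e => c * lam (copies H (Fin n)) (Ins (modc r hr n)) q e) D1 s t v) := by
  have : NeZero n := ⟨u.pos.ne'⟩
  set σ : Fin n ≃ Fin n := Equiv.addRight (v - u) with hσ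
  have σu : σ u = v := by simp [hσ]
  set φ : Sym2 (Fin n) ≃ Sym2 (Fin n) := ⟨Sym2.map σ, Sym2.map σ.symm,
    fun e => by simp [Sym2.map_map], fun e => by simp [Sym2.map_map]⟩ with hφ
  have φ1 : ∀ a b, φ s(a, b) = s(σ a, σ b) := fun _ _ => rfl
  have hI : InvF (copies H (Fin n)) φ := fun T => by
    constructor
    · intro hT
      obtain ⟨f, -, hf⟩ := Finset.mem_image.1 hT
      refine Finset.mem_image.2 ⟨f.trans σ.symm.toEmbedding, Finset.mem_univ _,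
        Finset.map_injective φ.toEmbedding (Eq.trans ?_ hf)⟩
      unfold img
      rw [Finset.map_eq_image, Finset.image_image]
      refine Finset.image_congr fun e _ => ?_
      induction e using Sym2.ind with
      | _ a b => simp [φ1]
    · intro hT
      obtain ⟨f, -, rfl⟩ := Finset.mem_image.1 hT
      refine Finset.mem_image.2 ⟨f.trans σ.toEmbedding, Finset.mem_univ _, ?_⟩
      unfold img
      rw [Finset.map_eq_image, Finset.image_image]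
      refine Finset.image_congr fun e _ => ?_
      induction e using Sym2.ind with
      | _ a b => simp [φ1]
  have hm : ∀ a b, modc r hr n (σ a) = modc r hr n (σ b) ↔ modc r hr n a = modc r hr n b := by
    intro a b
    unfold modc
    simp only [Fin.mk.injEq, hσ, Equiv.coe_addRight, Fin.val_add, Nat.mod_mod_of_dvd _ h]
    exact ⟨fun h => Nat.ModEq.add_right_cancel' _ h, fun h => Nat.ModEq.add_right _ h⟩
  have hi : ∀ e, Ins (modc r hr n) (φ e) ↔ Ins (modc r hr n) e := fun e => by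
    induction e using Sym2.ind with
    | _ a b => simp [Ins, φ1, hm]
  rw [← E_map p φ (loss _ _ _ D1 s t v)]
  refine E_congr fun ω => ?_
  unfold loss
  rw [hI.red hi fun e => by rw [hI.lam hi]]
  refine Finset.sum_equiv σ (fun a => by simp [← σu]) fun a _ => ?_
  rw [← σu, ← φ1, hI.psi, ind_congr KSym_mem]

end Pool.Agent.Work.MP_d4a230_co
end
end
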