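import Pool.Agent.Work.MP_d4a230_co.HMain
import Pool.Agent.Work.MP_d4a230_co.KCount0
import Pool.Agent.Work.MP_d4a230_co.KSym
import Pool.Agent.Work.MP_d4a230_co.KVal

-- merged part: Pool.Agent.Work.MP_d4a230_co.KStab
section
-- merged part: Pool.Agent.Work.MP_d4a230_co.SCont
section
/-!
Containers for down-closed families through conditioned random sets, and Janson's inequality.
-/

namespace Pool.Agent.Work.MP_d4a230_co

open Finset

variable {ι : Type} [Fintype ι] [DecidableEq ι] {q : ℝ}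

/-- Probability that `T` together with a random part of `C` belongs to the family. -/
noncomputable def Zc (q : ℝ) (𝓘 : Finset ι → Prop) (T C : Finset ι) : ℝ :=
  Pr q fun ω => 𝓘 (T ∪ ω ∩ C)

variable {𝓘 : Finset ι → Prop}

lemma Zc_insert {v : ι} {C : Finset ι} (hv : v ∉ C) (T : Finset ι) :
    Zc q 𝓘 T (insert v C) = (1 - q) * Zc q 𝓘 T C + q * Zc q 𝓘 (insert v T) C := by
  have h1 : ∀ ω : Finset ι, ind (𝓘 (T ∪ ω ∩ insert v C)) = ind (𝓘 (T ∪ ω ∩ C)) +
      (ind (v ∈ ω) * ind (𝓘 (insert v T ∪ ω ∩ C)) - ind (v ∈ ω) * ind (𝓘 (T ∪ ω ∩ C))) := by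
    intro ω
    by_cases h : v ∈ ω
    · rw [ind_pos h, Finset.inter_insert_of_mem h, Finset.union_insert, Finset.insert_union]
      ring
    · rw [ind_neg h, Finset.inter_insert_of_notMem h]
      ring
  unfold Zc Pr
  rw [E_congr h1, E_add, E_sub, plant1, plant1]
  simp only [Finset.insert_inter_of_notMem hv]
  ring

lemma Zc_nonneg (h0 : 0 ≤ q) (h1 : q ≤ 1) (T C : Finset ι) : 0 ≤ Zc q 𝓘 T C :=
  Pr_nonneg h0 h1 _

lemma Zc_anti (h0 : 0 ≤ q) (h1 : q ≤ 1) (hd : ∀ A B, A ⊆ B → 𝓘 B → 𝓘 A) {T T' : Finset ι}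
    (h : T ⊆ T') (C : Finset ι) : Zc q 𝓘 T' C ≤ Zc q 𝓘 T C :=
  Pr_mono h0 h1 fun _ hω => hd _ _ (Finset.union_subset_union_left h) hω

lemma Zc_ge (h0 : 0 ≤ q) (h1 : q ≤ 1) {T : Finset ι} (hT : 𝓘 T) (C : Finset ι) :
    (1 - q) ^ C.card ≤ Zc q 𝓘 T C := by
  induction C using Finset.induction_on with
  | empty =>
    unfold Zc Pr
    rw [E_congr (g := fun _ => 1) fun ω => ind_pos (by simpa using hT), E_const]
    simp
  | insert v C hv ih =>
    rw [Zc_insert hv, Finset.card_insert_of_notMem hv, pow_succ]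
    have := Zc_nonneg (𝓘 := 𝓘) h0 h1 (insert v T) C
    nlinarith only [h0, this, h1, ih]

lemma ent_step (h0 : 0 ≤ q) (h1 : q < 1) {a b : ℝ} (hb : 0 ≤ b) (hab : b ≤ a) :
    (1 - q) * (a * Real.log a) + q * (b * Real.log b) + Real.log (1 - q) * ((1 - q) * (a - b)) ≤
      ((1 - q) * a + q * b) * Real.log ((1 - q) * a + q * b) := by
  rcases (hb.trans hab).eq_or_lt with ha | ha
  · have : b = 0 := le_antisymm (ha ▸ hab) hb
    subst this
    rw [← ha]
    simp
  have hq : 0 < 1 - q := by linarith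
  set Z := (1 - q) * a + q * b with hZ
  have hZb : b ≤ Z := by nlinarith only [h1, hab]
  have hZ0 : 0 < Z := by positivity
  have e1 : b * Real.log b ≤ b * Real.log Z := by
    rcases hb.eq_or_lt with h | h
    · rw [← h]; simp
    · exact mul_le_mul_of_nonneg_left (Real.log_le_log h hZb) hb
  have e2 : a * Real.log a + Real.log (1 - q) * (a - b) ≤ a * Real.log Z := by
    have y0 : 0 ≤ 1 - b / a := by rw [sub_nonneg, div_le_one ha]; exact hab
    have y1 : 1 - b / a ≤ 1 := by have := div_nonneg hb ha.le; linarith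
    have e3 := rpow_one_add_le_one_add_mul_self (s := -q) (by linarith) y0 y1
    have e4 := Real.log_le_log (Real.rpow_pos_of_pos (by linarith only [h1]) _) e3
    rw [Real.log_rpow (by linarith)] at e4
    have e5 : 1 + (1 - b / a) * -q = Z / a := by rw [hZ]; field_simp; ring
    rw [e5, Real.log_div hZ0.ne' ha.ne', ← sub_eq_add_neg] at e4
    have e6 := mul_le_mul_of_nonneg_left e4 ha.le
    have e7 : a * ((1 - b / a) * Real.log (1 - q)) = Real.log (1 - q) * (a - b) := by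
      field_simp
    rw [e7] at e6
    linarith only [e6]
  have e8 := mul_le_mul_of_nonneg_left e1 h0
  have e9 := mul_le_mul_of_nonneg_left e2 hq.le
  calc _ = (1 - q) * (a * Real.log a + Real.log (1 - q) * (a - b)) + q * (b * Real.log b) := by
        ring
    _ ≤ (1 - q) * (a * Real.log Z) + q * (b * Real.log Z) := add_le_add e9 e8
    _ = _ := by rw [hZ]; ring

lemma Zc_entropy (h0 : 0 ≤ q) (h1 : q < 1) (hd : ∀ A B, A ⊆ B → 𝓘 B → 𝓘 A) (C T : Finset ι) :
    Real.log (1 - q) * (C.card * Zc q 𝓘 T C - ∑ v ∈ C, Zc q 𝓘 (insert v T) (C.erase v)) ≤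
      Zc q 𝓘 T C * Real.log (Zc q 𝓘 T C) := by
  induction C using Finset.induction_on generalizing T with
  | empty =>
    unfold Zc Pr
    simp only [Finset.inter_empty, Finset.union_empty, E_const, Finset.card_empty,
      Finset.sum_empty, Nat.cast_zero, zero_mul, sub_zero, mul_zero]
    by_cases h : 𝓘 T
    · rw [ind_pos h]; simp
    · rw [ind_neg h]; simp
  | insert u C hu ih =>
    have e1 : ∑ v ∈ C, Zc q 𝓘 (insert v T) ((insert u C).erase v) =
        (1 - q) * ∑ v ∈ C, Zc q 𝓘 (insert v T) (C.erase v) +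
          q * ∑ v ∈ C, Zc q 𝓘 (insert v (insert u T)) (C.erase v) := by
      rw [Finset.mul_sum, Finset.mul_sum, ← Finset.sum_add_distrib]
      refine Finset.sum_congr rfl fun v hv => ?_
      rw [Finset.erase_insert_of_ne (fun h : u = v => hu (h ▸ hv)),
        Zc_insert (fun h => hu (Finset.mem_of_mem_erase h)), Finset.insert_comm]
    rw [Finset.sum_insert hu, Finset.erase_insert hu, e1, Zc_insert hu,
      Finset.card_insert_of_notMem hu]
    have i0 := mul_le_mul_of_nonneg_left (ih T) (sub_nonneg.2 h1.le)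
    have i1 := mul_le_mul_of_nonneg_left (ih (insert u T)) h0
    have e2 := ent_step h0 h1 (Zc_nonneg (𝓘 := 𝓘) h0 h1.le (insert u T) C)
      (Zc_anti h0 h1.le hd (Finset.subset_insert u T) C)
    push_cast
    linarith

lemma cont_rec (h0 : 0 ≤ q) (h1 : q < 1) {δ : ℝ} (hδ : 0 ≤ δ) (C : Finset ι) :
    ∀ T : Finset ι, ∃ f : Finset ι → Finset ι, ∀ I, T ⊆ I → I ⊆ T ∪ C → ∃ T', T ⊆ T' ∧ T' ⊆ I ∧
      I ⊆ T' ∪ f T' ∧
      Zc q 𝓘 T' (f T') / (1 - q) ^ (f T').card ≤
        Real.exp (δ * (T.card - T'.card)) * (Zc q 𝓘 T C / (1 - q) ^ C.card) ∧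
      ∀ v ∈ f T', (1 - δ) * Zc q 𝓘 T' (f T') ≤ Zc q 𝓘 (insert v T') ((f T').erase v) := by
  induction C using Finset.strongInduction with
  | H C ih =>
    intro T
    by_cases hlow : ∀ v ∈ C, (1 - δ) * Zc q 𝓘 T C ≤ Zc q 𝓘 (insert v T) (C.erase v)
    · exact ⟨fun _ => C, fun I t1 t2 => ⟨T, subset_rfl, t1, t2, by simp, hlow⟩⟩
    push Not at hlow
    obtain ⟨v, hv, hl⟩ := hlow
    obtain ⟨f0, g0⟩ := ih _ (Finset.erase_ssubset hv) T
    obtain ⟨f1, g1⟩ := ih _ (Finset.erase_ssubset hv) (insert v T)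
    have hq : 0 < 1 - q := by linarith
    have c1 : (1 - q) ^ C.card = (1 - q) ^ (C.erase v).card * (1 - q) := by
      rw [← pow_succ, Finset.card_erase_add_one hv]
    have c2 : 0 < (1 - q) ^ (C.erase v).card := pow_pos hq _
    have z0 := Zc_nonneg (𝓘 := 𝓘) h0 h1.le T C
    have z1 := Zc_nonneg (𝓘 := 𝓘) h0 h1.le (insert v T) (C.erase v)
    refine ⟨fun T' => if v ∈ T' then f1 T' else f0 T', fun I t1 t2 => ?_⟩
    by_cases hI : v ∈ I
    · obtain ⟨T', s1, s2, s3, s4, s5⟩ := g1 I (Finset.insert_subset hI t1) (fun x hx => by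
        have := t2 hx
        simp only [Finset.mem_union, Finset.mem_insert, Finset.mem_erase] at this ⊢
        tauto)
      have hvT : v ∈ T' := s1 (Finset.mem_insert_self _ _)
      refine ⟨T', (Finset.subset_insert _ _).trans s1, s2, ?_⟩
      simp only [if_pos hvT]
      refine ⟨s3, s4.trans ?_, s5⟩
      have c3 : ((insert v T).card : ℝ) ≤ T.card + 1 := by exact_mod_cast Finset.card_insert_le v T
      have c4 : Real.exp (δ * ((insert v T).card - T'.card)) ≤
          Real.exp (δ * (T.card - T'.card)) * Real.exp δ := by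
        rw [← Real.exp_add]
        exact Real.exp_le_exp.2 (by nlinarith only [hδ, c3])
      have c5 : Real.exp δ * (1 - δ) ≤ 1 := by
        have := mul_le_mul_of_nonneg_left (Real.add_one_le_exp (-δ)) (Real.exp_pos δ).le
        rw [← Real.exp_add, add_neg_cancel, Real.exp_zero] at this
        linarith
      have c6 : Real.exp δ * (Zc q 𝓘 (insert v T) (C.erase v) / (1 - q) ^ (C.erase v).card) ≤
          Zc q 𝓘 T C / (1 - q) ^ C.card := by
        rw [c1, ← mul_div_assoc, ← div_div, div_right_comm]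
        refine div_le_div_of_nonneg_right ?_ c2.le
        rw [le_div_iff₀ hq]
        have c7 := mul_le_mul_of_nonneg_left hl.le (Real.exp_pos δ).le
        have c8 := mul_le_mul_of_nonneg_right c5 z0
        have c9 := mul_nonneg (mul_nonneg (Real.exp_pos δ).le z1) h0
        nlinarith only [c7, c8, c9]
      calc _ ≤ Real.exp (δ * (T.card - T'.card)) * Real.exp δ *
            (Zc q 𝓘 (insert v T) (C.erase v) / (1 - q) ^ (C.erase v).card) :=
            mul_le_mul_of_nonneg_right c4 (div_nonneg z1 c2.le)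
        _ ≤ _ := by
            rw [mul_assoc]
            exact mul_le_mul_of_nonneg_left c6 (Real.exp_pos _).le
    · obtain ⟨T', s1, s2, s3, s4, s5⟩ := g0 I t1 (fun x hx => by
        have := t2 hx
        have hxv : x ≠ v := fun h => hI (h ▸ hx)
        simp only [Finset.mem_union, Finset.mem_erase] at this ⊢
        tauto)
      have hvT : v ∉ T' := fun h => hI (s2 h)
      refine ⟨T', s1, s2, ?_⟩
      simp only [if_neg hvT]
      refine ⟨s3, s4.trans (mul_le_mul_of_nonneg_left ?_ (Real.exp_pos _).le), s5⟩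
      rw [c1, ← div_div, div_right_comm]
      refine div_le_div_of_nonneg_right ?_ c2.le
      rw [le_div_iff₀ hq]
      have c3 := Zc_insert (q := q) (𝓘 := 𝓘) (Finset.notMem_erase v C) T
      rw [Finset.insert_erase hv] at c3
      have c4 := mul_nonneg h0 z1
      linarith only [c3, c4]

/-- The container lemma. -/
theorem containers (h0 : 0 ≤ q) (h1 : q ≤ 1 / 2) (hd : ∀ A B, A ⊆ B → 𝓘 B → 𝓘 A) {δ : ℝ}
    (hδ : 0 ≤ δ) : ∃ f : Finset ι → Finset ι, ∀ I, 𝓘 I → ∃ T ⊆ I, I ⊆ T ∪ f T ∧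
      δ * T.card ≤ 2 * q * Fintype.card ι ∧
      Real.exp (-(2 * q * δ * Fintype.card ι)) ≤ Pr q fun ω => 𝓘 (ω ∩ f T) := by
  have h1' : q < 1 := by linarith
  have hq : 0 < 1 - q := by linarith
  have l0 : Real.log (1 - q) ≤ 0 := Real.log_nonpos hq.le (by linarith)
  have l1 : -(2 * q) ≤ Real.log (1 - q) := by
    refine le_trans ?_ (Real.one_sub_inv_le_log_of_pos hq)
    have : (1 - q)⁻¹ ≤ 1 + 2 * q := by
      rw [inv_le_iff_one_le_mul₀ hq]; nlinarith only [h0, h1]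
    linarith
  obtain ⟨f, hf⟩ := cont_rec (𝓘 := 𝓘) h0 h1' hδ univ ∅
  refine ⟨f, fun I hI => ?_⟩
  obtain ⟨T, -, s2, s3, s4, s5⟩ := hf I (Finset.empty_subset _) (by simp)
  have hT := hd _ _ s2 hI
  have z1 := Zc_ge (𝓘 := 𝓘) h0 h1'.le hT (f T)
  have z0 : 0 < Zc q 𝓘 T (f T) := (pow_pos hq _).trans_le z1
  refine ⟨T, s2, s3, ?_, ?_⟩
  · have a1 : 1 ≤ Zc q 𝓘 T (f T) / (1 - q) ^ (f T).card := (one_le_div (pow_pos hq _)).2 z1
    have a2 : Zc q 𝓘 ∅ univ / (1 - q) ^ (univ : Finset ι).card ≤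
        Real.exp (2 * q * Fintype.card ι) := by
      rw [div_le_iff₀ (pow_pos hq _), Finset.card_univ, ← Real.exp_log hq, ← Real.exp_nat_mul,
        ← Real.exp_add]
      refine (Pr_le_one h0 h1'.le _).trans (Real.one_le_exp ?_)
      have := mul_le_mul_of_nonneg_left l1 (Nat.cast_nonneg (α := ℝ) (Fintype.card ι))
      linarith only [this]
    have a3 := (a1.trans s4).trans (mul_le_mul_of_nonneg_left a2 (Real.exp_pos _).le)
    rw [← Real.exp_add, Real.one_le_exp_iff] at a3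
    simp only [Finset.card_empty, Nat.cast_zero] at a3
    linarith only [a3]
  · have a1 := Zc_entropy h0 h1' hd (f T) T
    have a2 : ((f T).card : ℝ) * ((1 - δ) * Zc q 𝓘 T (f T)) ≤
        ∑ v ∈ f T, Zc q 𝓘 (insert v T) ((f T).erase v) := by
      rw [← nsmul_eq_mul]
      exact Finset.card_nsmul_le_sum _ _ _ s5
    have a3 : Zc q 𝓘 T (f T) * (Real.log (1 - q) * (δ * (f T).card)) ≤
        Zc q 𝓘 T (f T) * Real.log (Zc q 𝓘 T (f T)) := by
      refine le_trans ?_ a1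
      have := mul_le_mul_of_nonpos_left a2 l0
      nlinarith only [this]
    have a4 := le_of_mul_le_mul_left a3 z0
    have a5 : ((f T).card : ℝ) ≤ Fintype.card ι := by exact_mod_cast Finset.card_le_univ _
    have a6 : -(2 * q * δ * Fintype.card ι) ≤ Real.log (Zc q 𝓘 T (f T)) := by
      refine le_trans ?_ a4
      have b1 := mul_le_mul_of_nonneg_right l1 (mul_nonneg hδ (Nat.cast_nonneg (α := ℝ) (f T).card))
      have b2 := mul_le_mul_of_nonneg_left a5 (mul_nonneg h0 hδ)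
      linarith only [b1, b2]
    refine (Real.exp_le_exp.2 a6).trans ?_
    rw [Real.exp_log z0]
    exact Pr_mono h0 h1'.le fun ω hω => hd _ _ Finset.subset_union_right hω

lemma one_sub_sum_le_prod {κ : Type} (s : Finset κ) {a : κ → ℝ} (h0 : ∀ i, 0 ≤ a i)
    (h1 : ∀ i, a i ≤ 1) : 1 - ∑ i ∈ s, a i ≤ ∏ i ∈ s, (1 - a i) := by
  classical
  induction s using Finset.induction_on with
  | empty => simp
  | insert i s hi ih =>
    rw [Finset.sum_insert hi, Finset.prod_insert hi]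
    have := mul_le_mul_of_nonneg_left ih (sub_nonneg.2 (h1 i))
    have := mul_nonneg (h0 i) (Finset.sum_nonneg fun j (_ : j ∈ s) => h0 j)
    nlinarith

/-- The soft avoidance functional. -/
noncomputable def softAv (t : ℝ) (𝓐 : Finset (Finset ι)) (ω : Finset ι) : ℝ :=
  ∏ B ∈ 𝓐, (1 - t * ind (B ⊆ ω))

omit [Fintype ι] [DecidableEq ι] in
lemma softAv_nonneg {t : ℝ} (t0 : 0 ≤ t) (t1 : t ≤ 1) (𝓐 : Finset (Finset ι)) (ω : Finset ι) :
    0 ≤ softAv t 𝓐 ω := Finset.prod_nonneg fun B _ => by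
  nlinarith only [t1, t0, ind_le_one (B ⊆ ω), ind_nonneg (B ⊆ ω)]

omit [Fintype ι] [DecidableEq ι] in
lemma softAv_anti {t : ℝ} (t0 : 0 ≤ t) (t1 : t ≤ 1) (𝓐 : Finset (Finset ι)) {ω ω' : Finset ι}
    (h : ω ⊆ ω') : softAv t 𝓐 ω' ≤ softAv t 𝓐 ω :=
  Finset.prod_le_prod (fun B _ => by nlinarith only [t1, t0, ind_le_one (B ⊆ ω'), ind_nonneg (B ⊆ ω')])
    fun B _ => by nlinarith [ind_mono (q := B ⊆ ω) (r := B ⊆ ω') fun h' => h'.trans h]

lemma janson_soft (h0 : 0 ≤ q) (h1 : q ≤ 1) {t M : ℝ} (t0 : 0 ≤ t) (t1 : t ≤ 1) (tM : t * M ≤ 1)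
    (𝓑 : Finset (Finset ι))
    (hM : ∀ B ∈ 𝓑, ∑ A ∈ 𝓑.filter (fun A => ¬ Disjoint A B), q ^ (A \ B).card ≤ M) :
    E q (softAv t 𝓑) ≤ Real.exp (-(t * (1 - t * M) * ∑ B ∈ 𝓑, q ^ B.card)) := by
  induction 𝓑 using Finset.induction_on with
  | empty =>
    unfold softAv
    simp [E_const]
  | insert B 𝓐 hB ih =>
    have hsub : ∀ B', ∑ A ∈ 𝓐.filter (fun A => ¬ Disjoint A B'), q ^ (A \ B').card ≤
        ∑ A ∈ (insert B 𝓐).filter (fun A => ¬ Disjoint A B'), q ^ (A \ B').card := fun B' =>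
      Finset.sum_le_sum_of_subset_of_nonneg
        (Finset.filter_subset_filter _ (Finset.subset_insert _ _)) fun _ _ _ => pow_nonneg h0 _
    have ih' := ih fun B' hB' => (hsub B').trans (hM B' (Finset.mem_insert_of_mem hB'))
    have hMB := (hsub B).trans (hM B (Finset.mem_insert_self _ _))
    set 𝓐1 := 𝓐.filter (fun A => ¬ Disjoint A B)
    set 𝓐2 := 𝓐.filter (fun A => Disjoint A B)
    have sp : ∀ ω, softAv t 𝓐 ω = softAv t 𝓐2 ω * softAv t 𝓐1 ω := fun ω =>
      (Finset.prod_filter_mul_prod_filter_not _ _ _).symm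
    have e1 : ∀ ω, softAv t (insert B 𝓐) ω =
        softAv t 𝓐 ω - t * (ind (B ⊆ ω) * softAv t 𝓐 ω) := fun ω => by
      unfold softAv
      rw [Finset.prod_insert hB]; ring
    have e2 : ∀ ω, softAv t 𝓐2 ω - t * ∑ A ∈ 𝓐1, ind (A \ B ⊆ ω) * softAv t 𝓐2 ω ≤
        softAv t 𝓐 (ω ∪ B) := fun ω => by
      have a1 : softAv t 𝓐2 (ω ∪ B) = softAv t 𝓐2 ω := Finset.prod_congr rfl fun A hA => by
        rw [ind_congr (q := A ⊆ ω ∪ B) (r := A ⊆ ω)]
        exact ⟨fun h x hx => (Finset.mem_union.1 (h hx)).resolve_right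
          (Finset.disjoint_left.1 (Finset.mem_filter.1 hA).2 hx),
          fun h => h.trans Finset.subset_union_left⟩
      have a2 := one_sub_sum_le_prod 𝓐1 (a := fun A => t * ind (A ⊆ ω ∪ B))
        (fun A => mul_nonneg t0 (ind_nonneg _))
        (fun A => mul_le_one₀ t1 (ind_nonneg _) (ind_le_one _))
      have a3 : ∑ A ∈ 𝓐1, t * ind (A ⊆ ω ∪ B) = t * ∑ A ∈ 𝓐1, ind (A \ B ⊆ ω) := by
        rw [Finset.mul_sum]
        refine Finset.sum_congr rfl fun A _ => ?_
        rw [ind_congr (q := A ⊆ ω ∪ B) (r := A \ B ⊆ ω)]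
        rw [Finset.union_comm]
        exact (sdiff_le_iff (α := Finset ι)).symm
      rw [sp, a1, ← Finset.sum_mul]
      rw [a3] at a2
      have := mul_le_mul_of_nonneg_left a2 (softAv_nonneg t0 t1 𝓐2 ω)
      unfold softAv at this ⊢
      linarith
    have g0 : 0 ≤ E q (softAv t 𝓐2) := E_nonneg h0 h1 (softAv_nonneg t0 t1 _)
    have e3 : E q (softAv t 𝓐) ≤ E q (softAv t 𝓐2) := E_mono h0 h1 fun ω => by
      rw [sp]
      refine mul_le_of_le_one_right (softAv_nonneg t0 t1 _ _) ?_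
      exact Finset.prod_le_one (fun A _ => by nlinarith only [t1, t0, ind_le_one (A ⊆ ω), ind_nonneg (A ⊆ ω)])
        fun A _ => by nlinarith only [t0, ind_nonneg (A ⊆ ω)]
    have e4 : ∑ A ∈ 𝓐1, E q (fun ω => ind (A \ B ⊆ ω) * softAv t 𝓐2 ω) ≤
        M * E q (softAv t 𝓐2) := by
      refine le_trans ?_ (mul_le_mul_of_nonneg_right hMB g0)
      rw [Finset.sum_mul]
      refine Finset.sum_le_sum fun A _ => ?_
      rw [plant]
      exact mul_le_mul_of_nonneg_left (E_mono h0 h1 fun ω =>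
        softAv_anti t0 t1 _ Finset.subset_union_left) (pow_nonneg h0 _)
    have e5 := E_mono h0 h1 e2
    rw [E_sub, E_const_mul, E_sum] at e5
    have e6 : (1 - t * M) * E q (softAv t 𝓐) ≤ E q (fun ω => softAv t 𝓐 (ω ∪ B)) := by
      have a1 := mul_le_mul_of_nonneg_left e4 t0
      have a2 := mul_le_mul_of_nonneg_left e3 (sub_nonneg.2 tM)
      have a3 : E q (fun ω => softAv t 𝓐2 ω) = E q (softAv t 𝓐2) := rfl
      linarith
    have e7 : E q (softAv t (insert B 𝓐)) =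
        E q (softAv t 𝓐) - t * (q ^ B.card * E q (fun ω => softAv t 𝓐 (ω ∪ B))) := by
      rw [← plant, ← E_const_mul, ← E_sub]
      exact E_congr e1
    have g1 : 0 ≤ E q (softAv t 𝓐) := E_nonneg h0 h1 (softAv_nonneg t0 t1 _)
    have e8 := mul_le_mul_of_nonneg_left e6 (mul_nonneg t0 (pow_nonneg h0 B.card))
    have e9 := mul_le_mul_of_nonneg_right
      (Real.add_one_le_exp (-(t * (1 - t * M) * q ^ B.card))) g1
    rw [Finset.sum_insert hB, mul_add, neg_add, Real.exp_add]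
    refine le_trans ?_ (mul_le_mul_of_nonneg_left ih' (Real.exp_pos _).le)
    linarith

/-- Janson's inequality with a uniform bound on the overlaps. -/
theorem janson (h0 : 0 ≤ q) (h1 : q ≤ 1) {M : ℝ} (M1 : 1 ≤ M) (𝓑 : Finset (Finset ι))
    (hM : ∀ B ∈ 𝓑, ∑ A ∈ 𝓑.filter (fun A => ¬ Disjoint A B), q ^ (A \ B).card ≤ M) :
    Pr q (fun ω => ∀ B ∈ 𝓑, ¬ B ⊆ ω) ≤ Real.exp (-((∑ B ∈ 𝓑, q ^ B.card) / (4 * M))) := by
  have M0 : 0 < M := by linarith
  have t0 : 0 ≤ 1 / (2 * M) := by positivity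
  have t1 : 1 / (2 * M) ≤ 1 := by rw [div_le_one (by positivity)]; linarith
  have tM : 1 / (2 * M) * M = 1 / 2 := by field_simp
  have := janson_soft h0 h1 t0 t1 (by rw [tM]; norm_num) 𝓑 hM
  refine le_trans (E_mono h0 h1 fun ω => ?_) (this.trans (le_of_eq ?_))
  · by_cases h : ∀ B ∈ 𝓑, ¬ B ⊆ ω
    · rw [ind_pos h]
      exact le_of_eq (Finset.prod_eq_one fun B hB => by rw [ind_neg (h B hB)]; simp).symm
    · rw [ind_neg h]
      exact softAv_nonneg t0 t1 _ _
  · rw [tM]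
    congr 1
    field_simp
    ring

end Pool.Agent.Work.MP_d4a230_co
end

-- merged part: Pool.Agent.Work.MP_d4a230_co.SDense
section
/-!
Dense stability for graphs with few cliques, and the blow-up inequality.
-/

namespace Pool.Agent.Work.MP_d4a230_co

open Finset

variable {V : Type}

open Classical in
/-- Number of ordered cliques of a given size inside a vertex set. -/
noncomputable def kq (G : SimpleGraph V) : ℕ → Finset V → ℝ
  | 0, _ => 1
  | s + 1, U => ∑ x ∈ U, kq G s (U.filter fun y => G.Adj x y)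

lemma kq_nonneg (G : SimpleGraph V) (s : ℕ) (U : Finset V) : 0 ≤ kq G s U := by
  induction s generalizing U with
  | zero => exact zero_le_one
  | succ s ih => exact Finset.sum_nonneg fun _ _ => ih _

/-- Number of ordered pairs between two sets satisfying a relation. -/
noncomputable def prs (R : V → V → Prop) (A B : Finset V) : ℝ := ∑ x ∈ A, ∑ y ∈ B, ind (R x y)

lemma prs_nonneg (R : V → V → Prop) (A B : Finset V) : 0 ≤ prs R A B :=
  Finset.sum_nonneg fun _ _ => Finset.sum_nonneg fun _ _ => ind_nonneg _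

lemma prs_mono {R R' : V → V → Prop} {A B : Finset V} (h : ∀ x ∈ A, ∀ y ∈ B, R x y → R' x y) :
    prs R A B ≤ prs R' A B :=
  Finset.sum_le_sum fun x hx => Finset.sum_le_sum fun y hy => ind_mono (h x hx y hy)

lemma prs_true {R : V → V → Prop} {A B : Finset V} (h : ∀ x ∈ A, ∀ y ∈ B, R x y) :
    prs R A B = A.card * B.card := by
  unfold prs
  rw [Finset.sum_congr rfl fun x hx => Finset.sum_congr rfl fun y hy => ind_pos (h x hx y hy)]
  simp

lemma prs_false {R : V → V → Prop} {A B : Finset V} (h : ∀ x ∈ A, ∀ y ∈ B, ¬ R x y) :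
    prs R A B = 0 :=
  Finset.sum_eq_zero fun x hx => Finset.sum_eq_zero fun y hy => ind_neg (h x hx y hy)

lemma prs_le (R : V → V → Prop) (A B : Finset V) : prs R A B ≤ A.card * B.card :=
  (prs_mono fun _ _ _ _ _ => trivial).trans (prs_true fun _ _ _ _ => trivial).le

lemma prs_right (R : V → V → Prop) (A B : Finset V) (s : V → Prop) [DecidablePred s] :
    prs R A B = prs R A (B.filter s) + prs R A (B.filter fun x => ¬ s x) := by
  unfold prs
  rw [← Finset.sum_add_distrib]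
  exact Finset.sum_congr rfl fun x _ => (Finset.sum_filter_add_sum_filter_not _ _ _).symm

lemma prs_split (R : V → V → Prop) (U : Finset V) (s : V → Prop) [DecidablePred s] :
    prs R U U = prs R (U.filter s) (U.filter s) + prs R (U.filter s) (U.filter fun x => ¬ s x) +
      (prs R (U.filter fun x => ¬ s x) (U.filter s) +
        prs R (U.filter fun x => ¬ s x) (U.filter fun x => ¬ s x)) := by
  rw [← prs_right, ← prs_right]
  exact (Finset.sum_filter_add_sum_filter_not _ _ _).symm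

lemma prs_adj_comm (G : SimpleGraph V) (A B : Finset V) : prs G.Adj A B = prs G.Adj B A := by
  unfold prs
  rw [Finset.sum_comm]
  exact Finset.sum_congr rfl fun _ _ => Finset.sum_congr rfl fun _ _ => ind_congr (G.adj_comm _ _)

/-- Robust form of the degree majorisation argument. -/
theorem robust_part (r : ℕ) : ∀ ε : ℝ, 0 < ε → ∃ β : ℝ, 0 < β ∧ ∀ (n : ℕ) (G : SimpleGraph (Fin n))
    (U : Finset (Fin n)), kq G (r + 2) U ≤ β * (n : ℝ) ^ (r + 2) → ∃ π : Fin n → ℕ, (∀ v, π v ≤ r) ∧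
      prs G.Adj U U + prs (fun x y => G.Adj x y ∧ π x = π y) U U ≤
        prs (fun x y => π x ≠ π y) U U + ε * (n : ℝ) ^ 2 := by
  classical
  induction r with
  | zero =>
    intro ε hε
    refine ⟨ε / 2, by positivity, fun n G U hU => ⟨fun _ => 0, fun _ => le_rfl, ?_⟩⟩
    have e1 : kq G (0 + 2) U = prs G.Adj U U := by
      unfold prs
      simp only [kq, sum_ind]
      simp
    have e2 := prs_mono (R := fun x y => G.Adj x y ∧ 0 = 0) (R' := G.Adj) (A := U) (B := U)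
      fun _ _ _ _ h => h.1
    have e3 := prs_nonneg (fun _ _ : Fin n => 0 ≠ 0) U U
    rw [e1, zero_add] at hU
    linarith only [hU, e2, e3]
  | succ r ih =>
    intro ε hε
    obtain ⟨β, hβ, ih⟩ := ih (ε / 2) (by positivity)
    refine ⟨β * (ε / 4), by positivity, fun n G U hU => ?_⟩
    rcases Nat.eq_zero_or_pos n with rfl | hn
    · exact ⟨fun _ => 0, fun _ => Nat.zero_le _, by simp [prs, Finset.eq_empty_of_isEmpty U]⟩
    have hn' : (0 : ℝ) < n := by exact_mod_cast hn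
    have cn : ∀ A : Finset (Fin n), (A.card : ℝ) ≤ n := fun A => by
      exact_mod_cast (Finset.card_le_univ A).trans (Fintype.card_fin n).le
    set rich : Fin n → Prop := fun x => β * (n : ℝ) ^ (r + 2) < kq G (r + 2) (U.filter fun y => G.Adj x y)
      with hrich
    have hR : ((U.filter rich).card : ℝ) ≤ ε / 4 * n := by
      have a1 : ((U.filter rich).card : ℝ) * (β * (n : ℝ) ^ (r + 2)) ≤ kq G (r + 1 + 2) U := by
        rw [← nsmul_eq_mul]
        refine (Finset.card_nsmul_le_sum _ _ _ fun x hx => (Finset.mem_filter.1 hx).2.le).trans ?_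
        exact Finset.sum_le_sum_of_subset_of_nonneg (Finset.filter_subset _ _)
          fun _ _ _ => kq_nonneg _ _ _
      refine le_of_mul_le_mul_right ((a1.trans hU).trans (le_of_eq ?_)) (by positivity)
      ring
    rcases (U.filter fun x => ¬ rich x).eq_empty_or_nonempty with he | hne
    · refine ⟨fun _ => 0, fun _ => Nat.zero_le _, ?_⟩
      have a1 : U.filter rich = U := Finset.filter_true_of_mem fun x hx => by
        by_contra hc
        exact Finset.notMem_empty x (he ▸ Finset.mem_filter.2 ⟨hx, hc⟩)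
      rw [a1] at hR
      have a2 := prs_le G.Adj U U
      have a3 := prs_le (fun x y => G.Adj x y ∧ 0 = 0) U U
      have a4 := prs_nonneg (fun _ _ : Fin n => 0 ≠ 0) U U
      have a5 := mul_le_mul hR (cn U) (Nat.cast_nonneg _) (by positivity)
      have a6 : 0 ≤ ε * (n : ℝ) ^ 2 := by positivity
      nlinarith only [a2, a3, a4, a5]
    obtain ⟨x, hx, hmax⟩ := Finset.exists_max_image _
      (fun x => (U.filter fun y => G.Adj x y).card) hne
    obtain ⟨π, hπ, h1⟩ := ih n G _ (not_lt.1 (Finset.mem_filter.1 hx).2)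
    set N := U.filter fun y => G.Adj x y with hN
    set D := U.filter fun y => ¬ G.Adj x y with hD
    have nN : ∀ y ∈ N, G.Adj x y := fun y hy => (Finset.mem_filter.1 hy).2
    have nD : ∀ y ∈ D, ¬ G.Adj x y := fun y hy => (Finset.mem_filter.1 hy).2
    set π' : Fin n → ℕ := fun v => if G.Adj x v then π v else r + 1 with hπ'
    have pN : ∀ y ∈ N, π' y = π y := fun y hy => if_pos (nN y hy)
    have pD : ∀ y ∈ D, π' y = r + 1 := fun y hy => if_neg (nD y hy)
    have pND : ∀ y ∈ N, ∀ z ∈ D, π' y ≠ π' z := fun y hy z hz => by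
      have := hπ y
      rw [pN y hy, pD z hz]; omega
    refine ⟨π', fun v => ?_, ?_⟩
    · by_cases h : G.Adj x v
      · exact (if_pos h).trans_le ((hπ v).trans (Nat.le_succ r))
      · exact (if_neg h).le
    have s1 := prs_split G.Adj U fun y => G.Adj x y
    have s2 := prs_split (fun y z => G.Adj y z ∧ π' y = π' z) U fun y => G.Adj x y
    have s3 := prs_split (fun y z => π' y ≠ π' z) U fun y => G.Adj x y
    have s4 := prs_right G.Adj D U fun y => G.Adj x y
    rw [← hN, ← hD] at s1 s2 s3 s4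
    have b1 := prs_adj_comm G N D
    have b2 : prs (fun y z => G.Adj y z ∧ π' y = π' z) N N ≤
        prs (fun y z => G.Adj y z ∧ π y = π z) N N :=
      prs_mono fun y hy z hz h => ⟨h.1, by rw [← pN y hy, ← pN z hz]; exact h.2⟩
    have b3 : prs (fun y z => G.Adj y z ∧ π' y = π' z) N D = 0 :=
      prs_false fun y hy z hz h => pND y hy z hz h.2
    have b4 : prs (fun y z => G.Adj y z ∧ π' y = π' z) D N = 0 :=
      prs_false fun y hy z hz h => pND z hz y hy h.2.symm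
    have b5 : prs (fun y z => G.Adj y z ∧ π' y = π' z) D D ≤ prs G.Adj D D :=
      prs_mono fun _ _ _ _ h => h.1
    have b6 : prs (fun y z => π y ≠ π z) N N ≤ prs (fun y z => π' y ≠ π' z) N N :=
      prs_mono fun y hy z hz h => by rw [pN y hy, pN z hz]; exact h
    have b7 : prs (fun y z => π' y ≠ π' z) N D = N.card * D.card := prs_true pND
    have b8 : prs (fun y z => π' y ≠ π' z) D N = D.card * N.card :=
      prs_true fun y hy z hz => (pND z hz y hy).symm
    have b9 := prs_nonneg (fun y z => π' y ≠ π' z) D D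
    have b10 : prs G.Adj D U ≤ D.card * N.card + (U.filter rich).card * n := by
      have c1 : ∀ v ∈ D, ∑ y ∈ U, ind (G.Adj v y) ≤ N.card + ind (rich v) * n := fun v hv => by
        rw [sum_ind]
        by_cases h : rich v
        · rw [ind_pos h]
          linarith only [cn (U.filter fun y => G.Adj v y), Nat.cast_nonneg (α := ℝ) N.card]
        · rw [ind_neg h, zero_mul, add_zero]
          exact_mod_cast hmax v (Finset.mem_filter.2 ⟨(Finset.mem_filter.1 hv).1, h⟩)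
      refine (Finset.sum_le_sum c1).trans ?_
      rw [Finset.sum_add_distrib, Finset.sum_const, nsmul_eq_mul, ← Finset.sum_mul, sum_ind]
      have c2 : ((D.filter rich).card : ℝ) ≤ (U.filter rich).card := by
        exact_mod_cast Finset.card_le_card (Finset.filter_subset_filter _ (Finset.filter_subset _ _))
      have := mul_le_mul_of_nonneg_right c2 hn'.le
      linarith only [this]
    have b11 := mul_le_mul_of_nonneg_right hR hn'.le
    nlinarith only [h1, s1, s2, s3, s4, b1, b2, b3, b4, b5, b6, b7, b8, b9, b10, b11]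

lemma cross_le [Fintype V] {r : ℕ} (hr : 0 < r) (π : V → Fin r) :
    prs (fun x y => π x ≠ π y) univ univ ≤ (1 - 1 / (r : ℝ)) * (Fintype.card V : ℝ) ^ 2 := by
  have e1 : ∀ x y, ind (π x ≠ π y) = 1 - ∑ i, ind (π x = i) * ind (π y = i) := fun x y => by
    rw [ind_not, Finset.sum_eq_single_of_mem (π x) (Finset.mem_univ _)
      fun i _ hi => by rw [ind_neg hi.symm, zero_mul], ind_pos rfl, one_mul, ind_congr eq_comm]
  have e2 : prs (fun x y => π x ≠ π y) univ univ =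
      (Fintype.card V : ℝ) ^ 2 - ∑ i, (∑ x, ind (π x = i)) ^ 2 := by
    unfold prs
    simp only [e1, Finset.sum_sub_distrib, Finset.sum_const, Finset.card_univ, nsmul_eq_mul, sq,
      Finset.sum_mul_sum, mul_one]
    congr 1
    rw [Finset.sum_comm (s := (univ : Finset (Fin r)))]
    exact Finset.sum_congr rfl fun x _ => Finset.sum_comm
  have e3 : ∑ i, ∑ x, ind (π x = i) = Fintype.card V := by
    rw [Finset.sum_comm, Finset.sum_congr rfl fun x _ => (Finset.sum_eq_single_of_mem (π x)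
      (Finset.mem_univ _) fun i _ hi => ind_neg hi.symm).trans (ind_pos rfl)]
    simp
  have e4 := sq_sum_le_card_mul_sum_sq (s := (univ : Finset (Fin r)))
    (f := fun i => ∑ x, ind (π x = i))
  rw [e3, Finset.card_univ, Fintype.card_fin] at e4
  have hr' : (0 : ℝ) < r := by exact_mod_cast hr
  have e5 : 1 / (r : ℝ) * (Fintype.card V : ℝ) ^ 2 ≤ ∑ i, (∑ x, ind (π x = i)) ^ 2 := by
    rw [one_div, inv_mul_le_iff₀ hr']; exact e4
  rw [e2]
  linarith only [e5]

section Clone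

variable [Fintype V] [DecidableEq V] {α : Type} [Fintype α] [DecidableEq α]

omit [DecidableEq V] in
lemma resample (F : (α → V) → ℝ) (v : α) :
    Fintype.card V * ∑ g, F g = ∑ g, ∑ x, F (Function.update g v x) := by
  have inv : Function.Involutive
      fun z : (α → V) × V => (Function.update z.1 v z.2, z.1 v) := fun z => by simp
  have e1 := Equiv.sum_comp inv.toPerm fun z => F z.1
  rw [Fintype.sum_prod_type, Fintype.sum_prod_type] at e1
  simp only [Finset.sum_const, Finset.card_univ, nsmul_eq_mul] at e1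
  rw [Finset.mul_sum, ← e1]
  rfl

/-- The map `g` sends differently coloured points of `S` to adjacent vertices. -/
def Mult {κ : Type} (G : SimpleGraph V) (col : α → κ) (S : Finset α) (g : α → V) : Prop :=
  ∀ a ∈ S, ∀ b ∈ S, col a ≠ col b → G.Adj (g a) (g b)

omit [DecidableEq V] in
lemma clone {κ : Type} (G : SimpleGraph V) (col : α → κ) {S : Finset α} {a v : α} (ha : a ∉ S)
    (hv : v ∈ S) (hc : col v = col a) (hn : 0 < Fintype.card V) :
    (∑ g, ind (Mult G col S g)) ^ 2 ≤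
      (Fintype.card V : ℝ) ^ Fintype.card α * ∑ g, ind (Mult G col (insert a S) g) := by
  have hn' : (0 : ℝ) < Fintype.card V := by exact_mod_cast hn
  have e1 := resample (fun g => ind (Mult G col S g)) v
  have e2 := resample (fun g => ind (Mult G col (insert a S) g)) a
  have e3 := resample (fun g => ∑ y, ind (Mult G col (insert a S) (Function.update g a y))) v
  have e4 : ∀ g : α → V, (∑ x, ind (Mult G col S (Function.update g v x))) ^ 2 ≤
      ∑ x, ∑ y, ind (Mult G col (insert a S) (Function.update (Function.update g v x) a y)) := by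
    intro g
    rw [sq, Finset.sum_mul_sum]
    refine Finset.sum_le_sum fun x _ => Finset.sum_le_sum fun y _ => ?_
    rw [← ind_and]
    refine ind_mono fun h => ?_
    have key : ∀ c ∈ S, col a ≠ col c → G.Adj y (Function.update g v x c) := fun c hc' hne => by
      have hcv : c ≠ v := fun h' => hne (by rw [h', hc])
      have := h.2 v hv c hc' (hc ▸ hne)
      rw [Function.update_self, Function.update_of_ne hcv] at this
      rwa [Function.update_of_ne hcv]
    have ne : ∀ c ∈ S, c ≠ a := fun c hc' h' => ha (h' ▸ hc')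
    intro b hb0 c hc0 hne
    rcases Finset.mem_insert.1 hb0 with rfl | hb <;> rcases Finset.mem_insert.1 hc0 with rfl | hc'
    · exact absurd rfl hne
    · rw [Function.update_self, Function.update_of_ne (ne c hc')]
      exact key c hc' hne
    · rw [Function.update_self, Function.update_of_ne (ne b hb)]
      exact (key b hb hne.symm).symm
    · rw [Function.update_of_ne (ne c hc'), Function.update_of_ne (ne b hb)]
      exact h.1 b hb c hc' hne
  have e5 := sq_sum_le_card_mul_sum_sq (s := (univ : Finset (α → V)))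
    (f := fun g => ∑ x, ind (Mult G col S (Function.update g v x)))
  rw [← e1, Finset.card_univ, Fintype.card_fun, Nat.cast_pow] at e5
  have e6 := mul_le_mul_of_nonneg_left (Finset.sum_le_sum fun g (_ : g ∈ univ) => e4 g)
    (pow_pos hn' (Fintype.card α)).le
  rw [← e3, ← e2] at e6
  refine le_of_mul_le_mul_left ?_ (pow_pos hn' 2)
  calc _ = (Fintype.card V * ∑ g, ind (Mult G col S g)) ^ 2 := by ring
    _ ≤ _ := e5.trans e6
    _ = _ := by ring

omit [DecidableEq V] in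
lemma kq_le (G : SimpleGraph V) (s : ℕ) (U : Finset V) : kq G s U ≤
    ∑ y : Fin s → V, ind ((∀ i, y i ∈ U) ∧ ∀ i j, i ≠ j → G.Adj (y i) (y j)) := by
  classical
  induction s generalizing U with
  | zero => simp [kq, ind_pos]
  | succ s ih =>
    rw [← (Fin.consEquiv fun _ => V).sum_comp, Fintype.sum_prod_type]
    refine le_trans (Finset.sum_le_sum fun x hx => (ih _).trans (Finset.sum_le_sum fun y _ =>
      ind_mono fun h => ?_)) (Finset.sum_le_sum_of_subset_of_nonneg (Finset.subset_univ U)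
        fun _ _ _ => Finset.sum_nonneg fun _ _ => ind_nonneg _)
    refine ⟨fun i => ?_, fun i j => ?_⟩
    · refine Fin.cases hx (fun i => ?_) i
      exact (Finset.mem_filter.1 (h.1 i)).1
    · refine Fin.cases ?_ (fun i => ?_) i <;> refine Fin.cases ?_ (fun j => ?_) j <;> intro hne
      · exact absurd rfl hne
      · exact (Finset.mem_filter.1 (h.1 j)).2
      · exact (Finset.mem_filter.1 (h.1 i)).2.symm
      · exact h.2 i j fun h' => hne (by rw [h'])

omit [DecidableEq V] in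
/-- Many cliques give many homomorphic images of any graph with that many colours. -/
theorem blow_up {W : Type} [Fintype W] [DecidableEq W] {H : SimpleGraph W} {s : ℕ}
    (hH : H.Colorable s) (G : SimpleGraph V) (hn : 0 < Fintype.card V) {ρ : ℝ} (hρ : 0 ≤ ρ)
    (h : ρ * (Fintype.card V : ℝ) ^ s ≤ kq G s univ) :
    ρ ^ 2 ^ Fintype.card W * (Fintype.card V : ℝ) ^ Fintype.card W ≤
      ∑ z : W → V, ind (∀ a b, H.Adj a b → G.Adj (z a) (z b)) := by
  obtain ⟨φ⟩ := hH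
  have hn' : (0 : ℝ) < Fintype.card V := by exact_mod_cast hn
  set col : Fin s ⊕ W → Fin s := Sum.elim id φ
  have cA : Fintype.card (Fin s ⊕ W) = s + Fintype.card W := by simp
  have sm : ∀ F : (Fin s ⊕ W → V) → ℝ, ∑ g, F g = ∑ y, ∑ z, F (Sum.elim y z) := fun F => by
    rw [← (Equiv.sumArrowEquivProdArrow _ _ _).symm.sum_comp, Fintype.sum_prod_type]
    rfl
  have key : ∀ D : Finset W, ρ ^ 2 ^ D.card * (Fintype.card V : ℝ) ^ (s + Fintype.card W) ≤
      ∑ g, ind (Mult G col (univ.disjSum D) g) := by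
    intro D
    induction D using Finset.induction_on with
    | empty =>
      rw [sm]
      have a1 : ∀ y : Fin s → V, (Fintype.card V : ℝ) ^ Fintype.card W *
          ind ((∀ i, y i ∈ univ) ∧ ∀ i j, i ≠ j → G.Adj (y i) (y j)) ≤
          ∑ z : W → V, ind (Mult G col (univ.disjSum ∅) (Sum.elim y z)) := fun y => by
        rw [← Nat.cast_pow, ← Fintype.card_fun, ← nsmul_eq_mul, ← Finset.card_univ]
        refine Finset.card_nsmul_le_sum _ _ _ fun z _ => ind_mono fun hy => ?_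
        rintro (a | a) ha (b | b) hb hne
        · exact hy.2 a b hne
        · simp at hb
        · simp at ha
        · simp at ha
      refine le_trans ?_ (Finset.sum_le_sum fun y _ => a1 y)
      rw [← Finset.mul_sum]
      refine le_trans (le_of_eq ?_)
        (mul_le_mul_of_nonneg_left (h.trans (kq_le G s univ)) (by positivity))
      simp only [Finset.card_empty, pow_zero, pow_one]
      ring
    | insert a D ha ih =>
      have a1 : (univ : Finset (Fin s)).disjSum (insert a D) =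
          insert (Sum.inr a) (univ.disjSum D) := by
        ext (x | x) <;> simp
      have a2 := clone G col (S := univ.disjSum D) (a := Sum.inr a) (v := Sum.inl (φ a))
        (by simpa using ha) (by simp) rfl hn
      rw [← a1, cA] at a2
      refine le_of_mul_le_mul_left (le_trans (le_of_eq ?_)
        ((pow_le_pow_left₀ (by positivity) ih 2).trans a2)) (by positivity)
      rw [Finset.card_insert_of_notMem ha, pow_succ 2, pow_mul]
      ring
  have a1 := key univ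
  rw [sm, Finset.card_univ] at a1
  have a2 : ∀ y : Fin s → V, ∑ z : W → V, ind (Mult G col (univ.disjSum univ) (Sum.elim y z)) ≤
      ∑ z : W → V, ind (∀ a b, H.Adj a b → G.Adj (z a) (z b)) := fun y =>
    Finset.sum_le_sum fun z _ => ind_mono fun hz a b hab =>
      hz (Sum.inr a) (by simp) (Sum.inr b) (by simp) (φ.valid hab)
  have a3 := a1.trans (Finset.sum_le_sum fun y _ => a2 y)
  rw [Finset.sum_const, Finset.card_univ, Fintype.card_fun, Fintype.card_fin, nsmul_eq_mul,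
    Nat.cast_pow] at a3
  refine le_of_mul_le_mul_left (le_trans (le_of_eq ?_) a3) (pow_pos hn' s)
  ring

end Clone

end Pool.Agent.Work.MP_d4a230_co
end

-- merged part: Pool.Agent.Work.MP_d4a230_co.KStab
section
/-!
Sparse stability with a minimum degree condition.
-/

namespace Pool.Agent.Work.MP_d4a230_co

open Finset Filter Topology

section Prob

variable {ι : Type} [Fintype ι] [DecidableEq ι] {p : ℝ}

lemma chernoff_sharp (h0 : 0 ≤ p) (h1 : p ≤ 1) (M : Finset ι) (s : ℝ) {u : ℝ} (u0 : 0 ≤ u)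
    (u1 : u ≤ 1) : Pr p (fun ω => p * M.card + s ≤ ((ω ∩ M).card : ℝ)) ≤
      Real.exp (u ^ 2 * (p * M.card) - u * s) := by
  have hm := markov h0 h1 (f := fun ω => Real.exp u ^ (ω ∩ M).card)
    (fun ω => by positivity) (Real.exp_pos (u * (p * M.card + s)))
  have h2 := mgf_le h0 h1 (Real.exp_pos u).le M
  refine le_trans (Pr_mono h0 h1 fun ω h => ?_) (hm.trans ?_)
  · rw [← Real.exp_nat_mul]; exact Real.exp_le_exp.2 (by nlinarith only [u0, h])
  · rw [div_le_iff₀ (Real.exp_pos _), ← Real.exp_add]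
    refine h2.trans (Real.exp_le_exp.2 ?_)
    have h4 := (abs_le.1 (Real.abs_exp_sub_one_sub_id_le (x := u) (by rwa [abs_of_nonneg u0]))).2
    have h3 : (0 : ℝ) ≤ p * M.card := by positivity
    nlinarith only [h4, h3]

lemma union_bound (h0 : 0 ≤ p) (h1 : p ≤ 1) (M : Finset ι → Finset ι) (s t : ℝ) {u b : ℝ}
    (u0 : 0 ≤ u) (u1 : u ≤ 1) (hb : 0 ≤ b) :
    Pr p (fun ω => ¬ ∀ T ⊆ ω, (T.card : ℝ) ≤ t →
      ((ω ∩ (M T \ T)).card : ℝ) < p * (M T).card + s) ≤
      Real.exp ((Real.exp (-b) + u ^ 2) * (p * Fintype.card ι) + b * t - u * s) := by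
  have e1 : ∀ T : Finset ι, (T.card : ℝ) ≤ t →
      Pr p (fun ω => T ⊆ ω ∧ p * (M T).card + s ≤ ((ω ∩ (M T \ T)).card : ℝ)) ≤
      (p * Real.exp (-b)) ^ T.card * Real.exp (u ^ 2 * (p * Fintype.card ι) + b * t - u * s) := by
    intro T hT
    have a1 : ∀ ω : Finset ι, (ω ∪ T) ∩ (M T \ T) = ω ∩ (M T \ T) := fun ω => by
      rw [Finset.union_inter_distrib_right, Finset.inter_sdiff_self, Finset.union_empty]
    unfold Pr
    simp only [ind_and]
    rw [plant]
    simp only [a1]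
    have a2 : ((M T \ T).card : ℝ) ≤ (M T).card := by
      exact_mod_cast Finset.card_le_card Finset.sdiff_subset
    have a3 : ((M T).card : ℝ) ≤ Fintype.card ι := by exact_mod_cast Finset.card_le_univ _
    have a4 := (Pr_mono h0 h1 (A := fun ω => p * (M T).card + s ≤ ((ω ∩ (M T \ T)).card : ℝ))
      fun ω h => le_trans (by nlinarith only [h0, a2]) h).trans (chernoff_sharp h0 h1 (M T \ T) s u0 u1)
    rw [mul_pow, mul_assoc, ← Real.exp_nat_mul, ← Real.exp_add]
    refine mul_le_mul_of_nonneg_left (a4.trans (Real.exp_le_exp.2 ?_)) (pow_nonneg h0 _)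
    have a5 := mul_le_mul_of_nonneg_left (mul_le_mul_of_nonneg_left (a2.trans a3) h0) (sq_nonneg u)
    have a6 := mul_le_mul_of_nonneg_left hT hb
    linarith
  have x0 : 0 ≤ p * Real.exp (-b) := by positivity
  refine le_trans (Pr_mono h0 h1 (B := fun ω => ∃ T ∈ univ.filter fun T : Finset ι =>
    (T.card : ℝ) ≤ t, T ⊆ ω ∧ p * (M T).card + s ≤ ((ω ∩ (M T \ T)).card : ℝ)) fun ω h => ?_)
    ((Pr_exists_le h0 h1 _ _).trans ((Finset.sum_le_sum fun T hT =>
      e1 T (Finset.mem_filter.1 hT).2).trans ?_))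
  · push Not at h
    obtain ⟨T, t1, t2, t3⟩ := h
    exact ⟨T, Finset.mem_filter.2 ⟨Finset.mem_univ _, t2⟩, t1, t3⟩
  · have a1 : ∑ T ∈ univ.filter (fun T : Finset ι => (T.card : ℝ) ≤ t),
        (p * Real.exp (-b)) ^ T.card ≤ Real.exp (p * Real.exp (-b) * Fintype.card ι) := by
      refine (Finset.sum_le_sum_of_subset_of_nonneg (t := univ.powerset) (by simp)
        fun _ _ _ => pow_nonneg x0 _).trans ?_
      simp only [← Finset.prod_const]
      rw [← Finset.prod_one_add, Finset.prod_const, mul_comm _ (Fintype.card ι : ℝ),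
        Real.exp_nat_mul]
      exact pow_le_pow_left₀ (by linarith) (by linarith [Real.add_one_le_exp (p * Real.exp (-b))]) _
    rw [← Finset.sum_mul]
    refine (mul_le_mul_of_nonneg_right a1 (Real.exp_pos _).le).trans (le_of_eq ?_)
    rw [← Real.exp_add]
    congr 1
    ring

end Prob

lemma card_pairs_le {n : ℕ} (hn : 0 < n) : (Fintype.card (Sym2 (Fin n)) : ℝ) ≤ (n : ℝ) ^ 2 := by
  rw [Sym2.card, Fintype.card_fin, Nat.choose_two_right]
  have : (n + 1) * (n + 1 - 1) / 2 ≤ n ^ 2 := by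
    rw [Nat.add_sub_cancel]
    exact Nat.div_le_of_le_mul (by nlinarith only [hn])
  exact_mod_cast this

lemma HReg.whp_union {p : ℕ → ℝ} {𝒞 : ∀ n, Finset (Finset (Sym2 (Fin n)))} {h k K0 : ℕ} {μ Λ : ℝ}
    (R : HReg p 𝒞 h k K0 μ Λ) {ζ : ℝ} (z0 : 0 < ζ) (z1 : ζ ≤ 1)
    (M : ∀ n, Finset (Sym2 (Fin n)) → Finset (Sym2 (Fin n))) :
    Whp p fun n ω => ∀ T ⊆ ω, (T.card : ℝ) ≤ ζ ^ 4 / 256 * (p n * (n : ℝ) ^ 2) →
      ((ω ∩ (M n T \ T)).card : ℝ) < p n * (M n T).card + ζ * (p n * (n : ℝ) ^ 2) := by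
  refine whp_of_le R.p0 R.p1 (f := fun n => Real.exp (-(ζ ^ 2 / 8 * (p n * n))))
    (Real.tendsto_exp_neg_atTop_nhds_zero.comp (R.inf.const_mul_atTop (by positivity))) ?_
  filter_upwards [eventually_gt_atTop 0] with n hn
  refine (union_bound (R.p0 n) (R.p1 n) (M n) _ _ (u := ζ / 2) (b := 16 / ζ ^ 2) (by positivity)
    (by linarith only [z1]) (by positivity)).trans (Real.exp_le_exp.2 ?_)
  have hn1 : (1 : ℝ) ≤ n := by exact_mod_cast hn
  have hp := R.p0 n
  have a1 : Real.exp (-(16 / ζ ^ 2)) ≤ ζ ^ 2 / 16 := by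
    rw [Real.exp_neg, ← inv_div 16 (ζ ^ 2)]
    exact inv_anti₀ (by positivity) (by linarith [Real.add_one_le_exp (16 / ζ ^ 2)])
  have a2 := mul_le_mul (add_le_add_left a1 ((ζ / 2) ^ 2))
    (mul_le_mul_of_nonneg_left (card_pairs_le hn) hp) (by positivity) (by positivity)
  have a3 : 16 / ζ ^ 2 * (ζ ^ 4 / 256 * (p n * (n : ℝ) ^ 2)) = ζ ^ 2 / 16 * (p n * (n : ℝ) ^ 2) := by
    field_simp
    ring
  have a4 : ζ ^ 2 / 8 * (p n * n) ≤ ζ ^ 2 / 8 * (p n * (n : ℝ) ^ 2) :=
    mul_le_mul_of_nonneg_left (mul_le_mul_of_nonneg_left (by nlinarith only [hn1]) hp) (by positivity)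
  rw [a3]
  linarith only [a2, a4]

section Few

variable {V : Type} [Fintype V] [DecidableEq V]

lemma Sys.few {𝒞 : Finset (Finset (Sym2 V))} {h k K0 : ℕ} (S : Sys 𝒞 h k K0) (hK : 1 ≤ K0)
    {q β : ℝ} (q0 : 0 < q) (q1 : q ≤ 1) (hD : Dense 𝒞 h k q 1)
    (ha : 1 ≤ (Fintype.card V : ℝ) ^ (h - 2) * q ^ (k - 1)) (C : Finset (Sym2 V))
    (hC : Real.exp (-(β / (12 * (4 ^ k * K0)) * (q * (Fintype.card V : ℝ) ^ 2))) ≤
      Pr q fun ω => ∀ T ∈ 𝒞, ¬ T ⊆ ω ∩ C) :
    ((𝒞.filter fun T => T ⊆ C).card : ℝ) ≤ β * (Fintype.card V : ℝ) ^ h := by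
  set a := (Fintype.card V : ℝ) ^ (h - 2) * q ^ (k - 1) with ha'
  have K1 : (1 : ℝ) ≤ K0 := by exact_mod_cast hK
  have K2 : (1 : ℝ) ≤ 4 ^ k * K0 := one_le_mul_of_one_le_of_one_le (one_le_pow₀ (by norm_num)) K1
  have e1 := janson q0.le q1 (M := 3 * (4 ^ k * K0) * a) (by nlinarith only [ha, K2])
    (𝒞.filter fun T => T ⊆ C) fun B hB => by
      have b1 := (Finset.mem_filter.1 hB).1
      refine (S.wext q0.le q1 zero_le_one hD B fun A hA => ?_).trans ?_
      · obtain ⟨a1, a2⟩ := Finset.mem_filter.1 hA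
        have a3 := (Finset.mem_filter.1 a1).1
        obtain ⟨e, e1, e2⟩ := Finset.not_disjoint_iff.1 a2
        refine ⟨a3, ?_⟩
        rw [← Sym2.card_toFinset_of_not_isDiag _ (S.nd A a3 e e1)]
        exact Finset.card_le_card fun x hx => Finset.mem_inter.2
          ⟨mem_vs.2 ⟨e, e1, Sym2.mem_toFinset.1 hx⟩, mem_vs.2 ⟨e, e2, Sym2.mem_toFinset.1 hx⟩⟩
      · rw [S.card B b1, ← ha']
        nlinarith only [ha, K2]
  have e2 := (hC.trans (Pr_mono q0.le q1 fun ω hω B hB hs => hω B (Finset.mem_filter.1 hB).1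
    (Finset.subset_inter hs (Finset.mem_filter.1 hB).2))).trans e1
  rw [Real.exp_le_exp, neg_le_neg_iff, Finset.sum_congr rfl
    (fun B hB => by rw [S.card B (Finset.mem_filter.1 hB).1]), Finset.sum_const, nsmul_eq_mul,
    div_le_iff₀ (by positivity)] at e2
  refine le_of_mul_le_mul_right (e2.trans (le_of_eq ?_)) (pow_pos q0 k)
  have h3 := S.h3
  have hk := S.hk
  have e3 : (Fintype.card V : ℝ) ^ h = (Fintype.card V : ℝ) ^ (h - 2) * (Fintype.card V : ℝ) ^ 2 := by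
    rw [← pow_add]; congr 1; omega
  have e4 : q ^ k = q ^ (k - 1) * q := by rw [← pow_succ]; congr 1; omega
  rw [e3, e4, ha']
  field_simp
  ring

lemma handshake_card (M : Finset (Sym2 V)) :
    ∑ v, dgE M v = 2 * ((M.filter fun e => ¬ e.IsDiag).card : ℝ) := by
  unfold dgE
  rw [handshake fun e => ind (e ∈ M), sum_ind, Finset.filter_mem_eq_inter, Finset.inter_comm,
    Finset.inter_filter, Finset.inter_univ]

lemma two_card_le {M : Finset (Sym2 V)} (hM : ∀ e ∈ M, ¬ e.IsDiag) {R : V → V → Prop}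
    (h : ∀ x y, s(x, y) ∈ M → R x y) : 2 * (M.card : ℝ) ≤ prs R univ univ := by
  have := handshake_card M
  rw [Finset.filter_true_of_mem hM] at this
  rw [← this]
  exact Finset.sum_le_sum fun x _ => (Finset.sum_le_sum fun y _ => ind_mono (h x y)).trans
    (Finset.sum_le_sum_of_subset_of_nonneg (Finset.subset_univ _) fun _ _ _ => ind_nonneg _)

variable {W : Type} [Fintype W] [DecidableEq W] {H : SimpleGraph W} [DecidableRel H.Adj]

omit [DecidableEq V] in
lemma noninj_le : Fintype.card V * ∑ z : W → V, ind (¬ Function.Injective z) ≤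
    (Fintype.card W : ℝ) ^ 2 * (Fintype.card V : ℝ) ^ Fintype.card W := by
  have e1 : ∀ z : W → V, ind (¬ Function.Injective z) ≤ ∑ a, ∑ b, ind (a ≠ b ∧ z a = z b) := by
    intro z
    refine le_trans (ind_mono fun h => ?_) ((ind_exists_le univ _).trans
      (Finset.sum_le_sum fun a _ => ind_exists_le univ _))
    obtain ⟨a, b, h1, h2⟩ := Function.not_injective_iff.1 h
    exact ⟨a, Finset.mem_univ _, b, Finset.mem_univ _, h2, h1⟩
  have e2 : ∀ a b : W, Fintype.card V * ∑ z : W → V, ind (a ≠ b ∧ z a = z b) ≤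
      (Fintype.card V : ℝ) ^ Fintype.card W := fun a b => by
    rw [resample _ a, ← Nat.cast_pow, ← Fintype.card_fun, ← Finset.card_univ, ← nsmul_one]
    refine Finset.sum_le_card_nsmul _ _ _ fun z _ => ?_
    rw [Finset.sum_eq_single_of_mem (z b) (Finset.mem_univ _) fun x _ hx => ind_neg fun h => hx ?_]
    · exact ind_le_one _
    · have := h.2
      rwa [Function.update_self, Function.update_of_ne h.1.symm] at this
  refine (mul_le_mul_of_nonneg_left (Finset.sum_le_sum fun z _ => e1 z) (Nat.cast_nonneg _)).trans ?_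
  rw [Finset.sum_comm, Finset.mul_sum]
  refine (Finset.sum_le_card_nsmul _ _
    (Fintype.card W * (Fintype.card V : ℝ) ^ Fintype.card W) fun a _ => ?_).trans (le_of_eq ?_)
  · rw [Finset.sum_comm, Finset.mul_sum, ← nsmul_eq_mul, ← Finset.card_univ]
    exact Finset.sum_le_card_nsmul _ _ _ fun b _ => e2 a b
  · rw [Finset.card_univ, nsmul_eq_mul]; ring

lemma HBal.hom_le (B : HBal H) (C : Finset (Sym2 V)) :
    ∑ z : W → V, ind (∀ a b, H.Adj a b → (gr C).Adj (z a) (z b)) ≤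
      ∑ z : W → V, ind (¬ Function.Injective z) +
        ((copies H V).filter fun T => T ⊆ C).card * (Fintype.card W : ℝ) ^ Fintype.card W := by
  have e1 : ∀ z : W → V, ind (∀ a b, H.Adj a b → (gr C).Adj (z a) (z b)) ≤
      ind (¬ Function.Injective z) + ∑ T ∈ (copies H V).filter fun T => T ⊆ C,
        ind (z ∈ Fintype.piFinset fun _ : W => vs T) := by
    intro z
    refine le_trans (ind_mono fun h => ?_) ((ind_or_le _ _).trans
      (add_le_add_right (ind_exists_le _ _) _))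
    refine or_iff_not_imp_left.2 fun hi => ?_
    have hi' := not_not.1 hi
    refine ⟨img H ⟨z, hi'⟩, Finset.mem_filter.2 ⟨Finset.mem_image_of_mem _ (Finset.mem_univ _),
      fun e he => ?_⟩, Fintype.mem_piFinset.2 fun a => ?_⟩
    · obtain ⟨g, hg, rfl⟩ := Finset.mem_image.1 he
      induction g using Sym2.ind with
      | _ a b => exact (gr_adj.1 (h a b (by simpa using hg))).1
    · rw [B.vs_img]
      exact Finset.mem_map_of_mem _ (Finset.mem_univ a)
  refine (Finset.sum_le_sum fun z _ => e1 z).trans ?_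
  rw [Finset.sum_add_distrib, Finset.sum_comm, ← nsmul_eq_mul]
  refine add_le_add_right (Finset.sum_le_card_nsmul _ _ _ fun T hT => le_of_eq ?_) _
  rw [sum_ind, Finset.filter_mem_eq_inter, Finset.univ_inter, Fintype.card_piFinset,
    Finset.prod_const, (B.sys (V := V)).cvs T (Finset.mem_filter.1 hT).1]
  simp

end Few

variable {W : Type} [Fintype W] [DecidableEq W] {H : SimpleGraph W} [DecidableRel H.Adj]

open Classical in
theorem dense_part (B : HBal H) {r : ℕ} (hr0 : 0 < r) (hr1 : H.Colorable (r + 1)) {ε : ℝ}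
    (hε : 0 < ε) : ∃ β : ℝ, 0 < β ∧ ∀ᶠ n : ℕ in atTop, ∀ C : Finset (Sym2 (Fin n)),
      (((copies H (Fin n)).filter fun T => T ⊆ C).card : ℝ) ≤ β * (n : ℝ) ^ Fintype.card W →
      ∃ π : Fin n → Fin r, 2 * ((C.filter fun e => ¬ e.IsDiag).card : ℝ) +
        2 * ((C.filter (Ins π)).card : ℝ) ≤ (1 - 1 / (r : ℝ) + ε) * (n : ℝ) ^ 2 := by
  obtain ⟨r, rfl⟩ : ∃ r', r = r' + 1 := ⟨r - 1, by omega⟩
  obtain ⟨ρ, hρ, hR⟩ := robust_part r ε hε
  set h := Fintype.card W
  have h0 : (0 : ℝ) < h := by have := B.h3; exact_mod_cast (by omega : 0 < h)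
  set σ := ρ ^ 2 ^ h with hσ
  have σ0 : 0 < σ := by positivity
  refine ⟨σ / (2 * (h : ℝ) ^ h), by positivity, ?_⟩
  filter_upwards [eventually_gt_atTop 0,
    tendsto_natCast_atTop_atTop.eventually (eventually_gt_atTop (2 * (h : ℝ) ^ 2 / σ))]
    with n hn hn2 C hC
  have hn' : (0 : ℝ) < n := by exact_mod_cast hn
  have e1 : kq (gr C) (r + 2) univ ≤ ρ * (n : ℝ) ^ (r + 2) := by
    by_contra hc
    have a1 := blow_up hr1 (gr C) (by simpa using hn) hρ.le
      (by rw [Fintype.card_fin]; exact (not_le.1 hc).le)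
    have a2 := mul_le_mul_of_nonneg_left (a1.trans (B.hom_le C)) hn'.le
    have a3 := noninj_le (V := Fin n) (W := W)
    rw [Fintype.card_fin] at a2 a3
    have a4 := mul_le_mul_of_nonneg_left (mul_le_mul_of_nonneg_right hC (pow_pos h0 h).le) hn'.le
    have a5 : σ / (2 * (h : ℝ) ^ h) * (n : ℝ) ^ h * (h : ℝ) ^ h = σ / 2 * (n : ℝ) ^ h := by
      field_simp
    rw [a5] at a4
    rw [div_lt_iff₀ σ0] at hn2
    have a6 := mul_lt_mul_of_pos_right hn2 (pow_pos hn' h)
    rw [mul_add] at a2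
    linarith only [a2, a3, a4, a6]
  obtain ⟨π, hπ, e2⟩ := hR n (gr C) univ e1
  refine ⟨fun v => ⟨π v, Nat.lt_succ_of_le (hπ v)⟩, ?_⟩
  have e3 := cross_le hr0 fun v => (⟨π v, Nat.lt_succ_of_le (hπ v)⟩ : Fin (r + 1))
  have e4 := two_card_le (M := C.filter fun e => ¬ e.IsDiag) (R := (gr C).Adj)
    (fun e he => (Finset.mem_filter.1 he).2) fun x y hxy =>
      gr_adj.2 ⟨(Finset.mem_filter.1 hxy).1, by simpa using (Finset.mem_filter.1 hxy).2⟩
  have e5 := two_card_le
    (M := C.filter (Ins fun v => (⟨π v, Nat.lt_succ_of_le (hπ v)⟩ : Fin (r + 1))))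
    (R := fun x y => (gr C).Adj x y ∧ π x = π y)
    (fun e he => (Finset.mem_filter.1 he).2.1) fun x y hxy =>
      ⟨gr_adj.2 ⟨(Finset.mem_filter.1 hxy).1, by simpa using (Finset.mem_filter.1 hxy).2.1⟩,
        by simpa using (Finset.mem_filter.1 hxy).2.2⟩
  simp only [ne_eq, Fin.mk.injEq, Fintype.card_fin] at e2 e3
  linarith only [e2, e4, e5, e3]

theorem stab (B : HBal H) {r : ℕ} (hr0 : 0 < r) (hr1 : H.Colorable (r + 1)) {ε : ℝ} (hε : 0 < ε) :
    ∃ δ : ℝ, 0 < δ ∧ ∃ Λ0 : ℝ, ∀ (p : ℕ → ℝ) (μ Λ : ℝ), GReg H p μ Λ → Λ0 ≤ Λ →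
      Whp p fun n ω => ∀ ω' ⊆ ω, (∀ T ∈ copies H (Fin n), ¬ T ⊆ ω') →
        (∀ v, (1 - 1 / (r : ℝ) - δ) * (p n * n) ≤ dgE ω' v) →
        ∃ π : Fin n → Fin r, inE π ω' ≤ ε * (p n * (n : ℝ) ^ 2) := by
  classical
  obtain ⟨β, hβ, hdense⟩ := dense_part B hr0 hr1 (half_pos hε)
  set h := Fintype.card W
  set k := H.edgeFinset.card
  have K1 : 1 ≤ kz W := Nat.one_le_two_pow
  have K2 : (0 : ℝ) < kz W := by exact_mod_cast K1
  set ζ := min (ε / 8) 1 with hζ
  have z0 : 0 < ζ := by positivity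
  have z1 : ζ ≤ 1 := min_le_right _ _
  have z2 : ζ ≤ ε / 8 := min_le_left _ _
  have z3 : ζ ^ 4 / 256 ≤ ζ := by
    have := pow_le_of_le_one z0.le z1 (n := 4) (by norm_num)
    linarith only [z0, this]
  set d := β / (24 * (4 ^ k * kz W)) with hd
  have d0 : 0 < d := by positivity
  set c := max 2 (2 / (d * (ζ ^ 4 / 256))) with hc
  have c2 : 2 ≤ c := le_max_left _ _
  have c0 : 0 < c := by linarith only [c2]
  have c3 : 2 ≤ c * (d * (ζ ^ 4 / 256)) := (div_le_iff₀ (by positivity)).1 (le_max_right _ _)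
  refine ⟨ε / 2, half_pos hε, 2 * c ^ (k - 1), fun p μ Λ R hΛ => ?_⟩
  have q0 : ∀ n, 0 ≤ p n / c := fun n => div_nonneg (R.p0 n) c0.le
  have q1 : ∀ n, p n / c ≤ p n := fun n => div_le_self (R.p0 n) (by linarith only [c2])
  have q2 : ∀ n, p n / c ≤ 1 / 2 := fun n => by
    rw [div_le_iff₀ c0]; linarith only [c2, R.p1 n]
  choose f hf using fun n => containers (q := p n / c)
    (𝓘 := fun I => ∀ T ∈ copies H (Fin n), ¬ T ⊆ I) (q0 n) (q2 n)
    (fun A A' hA h1 T hT h2 => h1 T hT (h2.trans hA)) d0.le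
  have hex : ∀ (n : ℕ) (C : Finset (Sym2 (Fin n))), ∃ π : Fin n → Fin r,
      (∃ π' : Fin n → Fin r, 2 * ((C.filter fun e => ¬ e.IsDiag).card : ℝ) +
        2 * ((C.filter (Ins π')).card : ℝ) ≤ (1 - 1 / (r : ℝ) + ε / 2) * (n : ℝ) ^ 2) →
      2 * ((C.filter fun e => ¬ e.IsDiag).card : ℝ) +
        2 * ((C.filter (Ins π)).card : ℝ) ≤ (1 - 1 / (r : ℝ) + ε / 2) * (n : ℝ) ^ 2 := fun n C =>
    (em _).elim (fun h' => h'.imp fun _ h1 _ => h1) fun h' => ⟨fun _ => ⟨0, hr0⟩, fun h1 => absurd h1 h'⟩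
  choose g hg using hex
  refine ((R.whp_union z0 z1 fun n T => (f n T).filter fun e => ¬ e.IsDiag).and R.p0 R.p1
    (R.whp_union z0 z1 fun n T => (f n T).filter (Ins (g n (f n T))))).mono R.p0 R.p1 ?_
  obtain ⟨θ, t1, t2, -⟩ := R.theta
  have cp : 0 < c ^ (k - 1) := pow_pos c0 _
  filter_upwards [hdense, t1, t2.eventually (ge_mem_nhds one_pos), eventually_gt_atTop 0,
    R.lim.eventually (le_mem_nhds (show c ^ (k - 1) < Λ by linarith only [hΛ, cp])),
    R.inf.eventually (eventually_gt_atTop 0)] with n hdense t1 t2 hn l1 l2 ω hω ω' s1 s2 s3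
  have hn' : (0 : ℝ) < n := by exact_mod_cast hn
  have p0 : 0 < p n := (mul_pos_iff_of_pos_right hn').1 l2
  have m0 : 0 < p n * (n : ℝ) ^ 2 := by positivity
  obtain ⟨T, u1, u2, u3, u4⟩ := hf n ω' s2
  have N1 := mul_le_mul_of_nonneg_left (card_pairs_le hn) (q0 n)
  have v1 : (T.card : ℝ) ≤ ζ ^ 4 / 256 * (p n * (n : ℝ) ^ 2) := by
    refine le_of_mul_le_mul_left (u3.trans ?_) d0
    have a1 := mul_le_mul_of_nonneg_right c3 (mul_nonneg (q0 n) (sq_nonneg (n : ℝ)))
    have a2 : c * (d * (ζ ^ 4 / 256)) * (p n / c * (n : ℝ) ^ 2) =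
        d * (ζ ^ 4 / 256 * (p n * (n : ℝ) ^ 2)) := by field_simp
    linarith only [N1, a1, a2]
  have v2 := (R.sys n).few K1 (q := p n / c) (β := β) (by positivity) ((q1 n).trans (R.p1 n))
    (fun A hA U hU w1 w2 => le_trans (mul_le_mul_of_nonneg_left
      (pow_le_pow_left₀ (q0 n) (q1 n) _) (by positivity)) ((t1.2 A hA U hU w1 w2).trans t2))
    (by rw [Fintype.card_fin, div_pow, ← mul_div_assoc, one_le_div cp]; exact l1) (f n T)
    (le_trans (Real.exp_le_exp.2 (by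
      have a1 : β / (12 * (4 ^ k * kz W)) = 2 * d := by rw [hd]; field_simp; ring
      have a2 := mul_le_mul_of_nonneg_left N1 d0.le
      rw [a1, Fintype.card_fin]
      linarith only [a2])) u4)
  rw [Fintype.card_fin] at v2
  have v3 := mul_le_mul_of_nonneg_left (hg n _ (hdense _ v2)) p0.le
  have v4 := hω.1 T (u1.trans s1) v1
  have v5 := hω.2 T (u1.trans s1) v1
  have cv : ∀ (Q : Sym2 (Fin n) → Prop) [DecidablePred Q], ((ω'.filter Q).card : ℝ) ≤
      T.card + (ω ∩ ((f n T).filter Q \ T)).card := fun Q _ => by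
    rw [← Nat.cast_add, Nat.cast_le]
    refine le_trans (Finset.card_le_card fun e he => ?_) (Finset.card_union_le _ _)
    obtain ⟨a1, a2⟩ := Finset.mem_filter.1 he
    refine Finset.mem_union.2 (or_iff_not_imp_left.2 fun a3 => Finset.mem_inter.2 ⟨s1 a1,
      Finset.mem_sdiff.2 ⟨Finset.mem_filter.2 ⟨(Finset.mem_union.1 (u2 a1)).resolve_left a3, a2⟩,
        a3⟩⟩)
  have v6 := cv fun e => ¬ e.IsDiag
  have v7 := cv (Ins (g n (f n T)))
  have v8 := Finset.card_nsmul_le_sum univ _ _ fun v _ => s3 v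
  rw [handshake_card, Finset.card_univ, Fintype.card_fin, nsmul_eq_mul] at v8
  refine ⟨g n (f n T), ?_⟩
  unfold inE
  rw [sum_ind]
  have v9 := mul_le_mul_of_nonneg_right (z3.trans z2) m0.le
  have v10 := mul_le_mul_of_nonneg_right z2 m0.le
  linarith only [v1, v3, v4, v5, v6, v7, v8, v9, v10]

end Pool.Agent.Work.MP_d4a230_co
end
end

-- merged part: Pool.Agent.Work.MP_d4a230_co.KUC2
section
-- merged part: Pool.Agent.Work.MP_d4a230_co.KUC1
section
/-!
Concentration for functions that are Lipschitz on a down-closed event.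
-/

namespace Pool.Agent.Work.MP_d4a230_co

open Finset

variable {ι : Type} [Fintype ι] [DecidableEq ι] {p : ℝ}

lemma KUC1_two {K a t F0 F1 G0 G1 : ℝ} (a0 : 0 ≤ a) (a1 : a ≤ 1) (t0 : 0 ≤ t) (t1 : t ≤ 1)
    (hF0 : 0 ≤ F0) (hF1 : 0 ≤ F1) (hG0 : 0 ≤ G0) (hG1 : 0 ≤ G1) (h00 : F0 * G0 ≤ K)
    (h11 : F1 * G1 ≤ K) (h01 : F0 * G1 ≤ Real.exp a * K) (h10 : F1 * G0 ≤ Real.exp a * K) :
    ((1 - t) * F0 + t * F1) * ((1 - t) * G0 + t * G1) ≤ K * Real.exp (2 * a ^ 2 * t) := by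
  have hK : 0 ≤ K := (mul_nonneg hF0 hG0).trans h00
  have e1 : Real.exp a * Real.exp (-a) = 1 := by rw [← Real.exp_add]; simp
  have e2 : Real.exp a + Real.exp (-a) ≤ 2 + 2 * a ^ 2 := by
    have b1 := (abs_le.1 (Real.abs_exp_sub_one_sub_id_le (x := a) (by rwa [abs_of_nonneg a0]))).2
    have b2 := (abs_le.1 (Real.abs_exp_sub_one_sub_id_le (x := -a)
      (by rwa [abs_neg, abs_of_nonneg a0]))).2
    nlinarith only [b1, b2]
  have e3 : F0 * G1 + F1 * G0 ≤ K * (Real.exp a + Real.exp (-a)) := by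
    rcases hK.eq_or_lt with h | h
    · subst h
      linarith
    · have c1 : (F0 * G1) * (F1 * G0) ≤ K * K := by
        have := mul_le_mul h00 h11 (mul_nonneg hF1 hG1) hK
        linarith
      have c2 := mul_nonneg (sub_nonneg.2 h01) (sub_nonneg.2 h10)
      refine le_of_mul_le_mul_left ?_ (mul_pos (Real.exp_pos a) h)
      have c3 : Real.exp a * K * (K * (Real.exp a + Real.exp (-a))) =
          Real.exp a * K * (Real.exp a * K) + K * K := by
        linear_combination K * K * e1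
      rw [c3]
      linarith
  have e4 : F0 * G1 + F1 * G0 ≤ K * (2 + 2 * a ^ 2) :=
    e3.trans (mul_le_mul_of_nonneg_left e2 hK)
  have e5 := Real.add_one_le_exp (2 * a ^ 2 * t)
  have s0 : 0 ≤ 1 - t := by linarith
  calc ((1 - t) * F0 + t * F1) * ((1 - t) * G0 + t * G1)
      = (1 - t) ^ 2 * (F0 * G0) + t ^ 2 * (F1 * G1) + t * (1 - t) * (F0 * G1 + F1 * G0) := by ring
    _ ≤ (1 - t) ^ 2 * K + t ^ 2 * K + t * (1 - t) * (K * (2 + 2 * a ^ 2)) := by gcongr
    _ = K * (2 * a ^ 2 * t + 1) - K * (2 * a ^ 2 * t ^ 2) := by ring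
    _ ≤ K * (2 * a ^ 2 * t + 1) := sub_le_self _ (by positivity)
    _ ≤ _ := mul_le_mul_of_nonneg_left e5 hK

omit [Fintype ι] in
lemma KUC1_c1 (e : ι) (A B : Finset ι) : ((A \ insert e B).card : ℝ) ≤ (A \ B).card := by
  exact_mod_cast Finset.card_le_card
    (Finset.sdiff_subset_sdiff subset_rfl (Finset.subset_insert _ _))

omit [Fintype ι] in
lemma KUC1_c2 (e : ι) (A B : Finset ι) : ((insert e A \ B).card : ℝ) ≤ (A \ B).card + 1 := by
  have : insert e A \ B ⊆ insert e (A \ B) := by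
    intro x hx
    simp only [Finset.mem_sdiff, Finset.mem_insert] at hx ⊢
    tauto
  exact_mod_cast (Finset.card_le_card this).trans (Finset.card_insert_le _ _)

omit [Fintype ι] in
lemma KUC1_c3 (e : ι) (A B : Finset ι) : ((insert e A \ insert e B).card : ℝ) ≤ (A \ B).card := by
  have : insert e A \ insert e B ⊆ A \ B := by
    intro x hx
    simp only [Finset.mem_sdiff, Finset.mem_insert] at hx ⊢
    tauto
  exact_mod_cast Finset.card_le_card this

open Pool.Agent.Work.MP_07f1b5_pr in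
lemma KUC1_aux {a : ℝ} (a0 : 0 ≤ a) (a1 : a ≤ 1) (s : Finset ι) :
    ∀ (P : ι → ℝ), Adm P → (∀ e ∉ s, P e = 0) → ∀ (C : ℝ) (f g : Finset ι → ℝ), 0 ≤ C →
      (∀ ω, 0 ≤ f ω) → (∀ ω, 0 ≤ g ω) →
      (∀ ω ω', f ω * g ω' ≤ C * Real.exp (a * ((ω \ ω').card + (ω' \ ω).card))) →
      Ex P f * Ex P g ≤ C * Real.exp (2 * a ^ 2 * ∑ e ∈ s, P e) := by
  induction s using Finset.induction_on with
  | empty =>
    intro P _ hP C f g _ _ _ hfg
    have e : ∀ f : Finset ι → ℝ, Ex P f = f ∅ := fun f => by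
      rw [← Ex_const P (f ∅)]
      refine Ex_congr_ae fun ω hω => ?_
      rw [Finset.eq_empty_of_forall_notMem fun x hx => ne_zero_of_wt_ne hω hx (hP x (by simp))]
    rw [e, e]
    simpa using hfg ∅ ∅
  | insert e s he ih =>
    intro P hA hP C f g hC f0 g0 hfg
    have hA' := hA.update e le_rfl zero_le_one
    have hP' : ∀ x ∉ s, Function.update P e 0 x = 0 := fun x hx => by
      by_cases h : x = e
      · simp [h]
      · rw [Function.update_of_ne h, hP x (by simp [h, hx])]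
    have hs : ∑ x ∈ s, Function.update P e 0 x = ∑ x ∈ s, P x :=
      Finset.sum_congr rfl fun x hx => Function.update_of_ne (ne_of_mem_of_not_mem hx he) _ _
    have ih' := ih _ hA' hP'
    rw [hs] at ih'
    have step : ∀ {x y z : ℝ}, x ≤ C * Real.exp (a * y) → y ≤ z + 1 →
        x ≤ Real.exp a * C * Real.exp (a * z) := fun {x y z} h1 h2 => by
      refine h1.trans ?_
      rw [mul_comm _ C, mul_assoc, ← Real.exp_add]
      exact mul_le_mul_of_nonneg_left (Real.exp_le_exp.2 (by nlinarith only [a0, h2])) hC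
    have hC' : 0 ≤ Real.exp a * C := mul_nonneg (Real.exp_pos a).le hC
    have h00 := ih' C f g hC f0 g0 hfg
    have h11 := ih' C (fun ω => f (insert e ω)) (fun ω => g (insert e ω)) hC (fun _ => f0 _)
      (fun _ => g0 _) fun ω ω' => (hfg _ _).trans (mul_le_mul_of_nonneg_left (Real.exp_le_exp.2
        (mul_le_mul_of_nonneg_left (add_le_add (KUC1_c3 _ _ _) (KUC1_c3 _ _ _)) a0)) hC)
    have h01 := ih' _ f (fun ω => g (insert e ω)) hC' f0 (fun _ => g0 _) fun ω ω' =>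
      step (hfg _ _) (by linarith [KUC1_c1 e ω ω', KUC1_c2 e ω' ω])
    have h10 := ih' _ (fun ω => f (insert e ω)) g hC' (fun _ => f0 _) g0 fun ω ω' =>
      step (hfg _ _) (by linarith [KUC1_c1 e ω' ω, KUC1_c2 e ω ω'])
    rw [mul_assoc] at h01 h10
    rw [Ex_split P e f, Ex_split P e g, Finset.sum_insert he, mul_add (2 * a ^ 2),
      add_comm (2 * a ^ 2 * P e), Real.exp_add, ← mul_assoc]
    exact KUC1_two a0 a1 (hA e).1 (hA e).2 (Ex_nonneg hA' f0) (Ex_nonneg hA' fun _ => f0 _)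
      (Ex_nonneg hA' g0) (Ex_nonneg hA' fun _ => g0 _) h00 h11 h01 h10

omit [Fintype ι] in
lemma KUC1_chain {Γ : Finset ι → Prop} (hΓ : ∀ ω ω', ω' ⊆ ω → Γ ω → Γ ω') {f : Finset ι → ℝ}
    {L : ℝ} (hlip : ∀ ω e, Γ ω → |f ω - f (ω.erase e)| ≤ L) (ω : Finset ι) (hω : Γ ω)
    (D : Finset ι) : |f ω - f (ω \ D)| ≤ L * D.card := by
  induction D using Finset.induction_on with
  | empty => simp
  | insert e D he ih =>
    rw [Finset.sdiff_insert, Finset.card_insert_of_notMem he]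
    have h1 := hlip (ω \ D) e (hΓ _ _ Finset.sdiff_subset hω)
    have h2 := abs_sub_le (f ω) (f (ω \ D)) (f ((ω \ D).erase e))
    push_cast
    linarith

/-- Infimum convolution inequality on the biased cube. -/
theorem inf_conv (h0 : 0 ≤ p) (h1 : p ≤ 1) {a : ℝ} (a0 : 0 ≤ a) (a1 : a ≤ 1)
    (f g : Finset ι → ℝ) (f0 : ∀ ω, 0 ≤ f ω) (g0 : ∀ ω, 0 ≤ g ω)
    (hfg : ∀ ω ω', f ω * g ω' ≤ Real.exp (a * ((ω \ ω').card + (ω' \ ω).card))) :
    E p f * E p g ≤ Real.exp (2 * p * Fintype.card ι * a ^ 2) := by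
  have := KUC1_aux a0 a1 univ (fun _ => p) (fun _ => ⟨h0, h1⟩) (by simp) 1 f g zero_le_one f0 g0
    (by simpa only [one_mul] using hfg)
  rw [one_mul, Finset.sum_const, Finset.card_univ, nsmul_eq_mul] at this
  exact this.trans (le_of_eq (by congr 1; ring))

/-- Two events at Hamming distance at least `τ`. -/
theorem far_events (h0 : 0 < p) (h1 : p ≤ 1) (A B : Finset ι → Prop) {τ N : ℝ} (hτ : 0 ≤ τ)
    (hN : (Fintype.card ι : ℝ) ≤ N) (hN0 : 0 < N) (hτN : τ ≤ 4 * p * N)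
    (hAB : ∀ ω ω', A ω → B ω' → τ ≤ (ω \ ω').card + (ω' \ ω).card) :
    Pr p A * Pr p B ≤ Real.exp (-(τ ^ 2 / (8 * p * N))) := by
  have hp : 0 < 4 * p * N := by positivity
  set a := τ / (4 * p * N) with ha
  have a0 : 0 ≤ a := div_nonneg hτ hp.le
  have a1 : a ≤ 1 := (div_le_one hp).2 hτN
  have h := inf_conv h0.le h1 a0 a1 (fun ω => Real.exp (a * τ) * ind (A ω)) (fun ω => ind (B ω))
    (fun ω => mul_nonneg (Real.exp_pos _).le (ind_nonneg _)) (fun ω => ind_nonneg _) fun ω ω' => by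
      rw [mul_assoc, ← ind_and]
      by_cases hc : A ω ∧ B ω'
      · rw [ind_pos hc, mul_one]
        exact Real.exp_le_exp.2 (mul_le_mul_of_nonneg_left (hAB _ _ hc.1 hc.2) a0)
      · rw [ind_neg hc, mul_zero]
        exact (Real.exp_pos _).le
  rw [E_const_mul, mul_assoc] at h
  refine le_of_mul_le_mul_left (h.trans ?_) (Real.exp_pos (a * τ))
  rw [← Real.exp_add]
  refine Real.exp_le_exp.2 ?_
  have e : a * τ + -(τ ^ 2 / (8 * p * N)) = 2 * p * N * a ^ 2 := by
    rw [ha]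
    field_simp
    ring
  rw [e]
  gcongr

theorem uc_fin (h0 : 0 < p) (h1 : p ≤ 1) (Γ : Finset ι → Prop)
    (hΓ : ∀ ω ω', ω' ⊆ ω → Γ ω → Γ ω') (f : Finset ι → ℝ) (f0 : ∀ ω, 0 ≤ f ω) {L u b τ N : ℝ}
    (hL : 0 ≤ L) (hlip : ∀ ω e, Γ ω → |f ω - f (ω.erase e)| ≤ L) (hu : 0 < u) (hb : E p f ≤ b)
    (hΓ' : Pr p (fun ω => ¬ Γ ω) ≤ u / (2 * (b + u))) (hτ : 0 ≤ τ)
    (hN : (Fintype.card ι : ℝ) ≤ N) (hN0 : 0 < N) (hτN : τ ≤ 4 * p * N) :
    Pr p (fun ω => Γ ω ∧ E p f + u + L * τ < f ω) ≤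
      2 * (b + u) / u * Real.exp (-(τ ^ 2 / (8 * p * N))) := by
  have hE := E_nonneg h0.le h1 f0
  have hbu : 0 < b + u := by linarith
  have h2 := far_events h0 h1 (fun ω => Γ ω ∧ f ω ≤ E p f + u)
    (fun ω => Γ ω ∧ E p f + u + L * τ < f ω) hτ hN hN0 hτN fun ω ω' hA hB => by
      have c1 := (abs_le.1 (KUC1_chain hΓ hlip ω hA.1 (ω \ ω'))).1
      have c2 := (abs_le.1 (KUC1_chain hΓ hlip ω' hB.1 (ω' \ ω))).2
      rw [Finset.sdiff_sdiff_self_left] at c1 c2
      rw [Finset.inter_comm] at c2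
      exact (lt_of_mul_lt_mul_left (a := L) (by linarith [hA.2, hB.2]) hL).le
  have h3 : u / (2 * (b + u)) ≤ Pr p (fun ω => Γ ω ∧ f ω ≤ E p f + u) := by
    have c1 := Pr_not (p := p) (fun ω => Γ ω ∧ f ω ≤ E p f + u)
    have c2 := (Pr_mono h0.le h1 (A := fun ω => ¬ (Γ ω ∧ f ω ≤ E p f + u))
      fun ω h => (not_and_or.1 h).imp id fun h => (not_le.1 h).le).trans (Pr_or_le h0.le h1 _ _)
    have c3 := markov h0.le h1 f0 (a := E p f + u) (by linarith)
    have c4 : E p f / (E p f + u) ≤ b / (b + u) := by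
      rw [div_le_div_iff₀ (by linarith) hbu]
      nlinarith only [hu, hb]
    have c5 : b / (b + u) = 1 - 2 * (u / (2 * (b + u))) := by
      field_simp
      ring
    linarith only [hΓ', c1, c2, c3, c4, c5]
  have h4 := (mul_le_mul_of_nonneg_right h3 (Pr_nonneg h0.le h1 _)).trans h2
  rw [div_mul_eq_mul_div, div_le_iff₀ (by positivity)] at h4
  rw [div_mul_eq_mul_div, le_div_iff₀ hu]
  linarith only [h4]

end Pool.Agent.Work.MP_d4a230_co
end

-- merged part: Pool.Agent.Work.MP_d4a230_co.KUC2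
section
/-!
Uniform concentration over exponentially many local statistics.
-/

namespace Pool.Agent.Work.MP_d4a230_co

open Finset Filter Topology

variable {p : ℕ → ℝ} {𝒞 : ∀ n, Finset (Finset (Sym2 (Fin n)))} {h k K0 : ℕ} {μ Λ : ℝ}

lemma KUC2_card (n : ℕ) : (Fintype.card (Sym2 (Fin n)) : ℝ) ≤ (n : ℝ) ^ 2 := by
  have : Fintype.card (Sym2 (Fin n)) ≤ n ^ 2 := by
    rw [Sym2.card, Fintype.card_fin, Nat.choose_two_right, Nat.add_sub_cancel]
    refine Nat.div_le_of_le_mul ?_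
    rcases Nat.eq_zero_or_pos n with h | h
    · simp [h]
    · nlinarith only [h]
  exact_mod_cast this

lemma KUC2_cop {V : Type} [DecidableEq V] (𝒟 : Finset (Finset (Sym2 V))) (ω P : Finset (Sym2 V))
    (e : Sym2 V) : cop 𝒟 ω e ≤ cY 𝒟 e (ω ∪ P) := by
  unfold cop cY
  rw [Finset.sum_filter]
  refine Finset.sum_le_sum fun T _ => ?_
  split_ifs with he
  · exact ind_mono fun h => h.2.trans Finset.subset_union_left
  · exact le_of_eq (ind_neg fun h => he h.1)

theorem gam_whp (R : HReg p 𝒞 h k K0 μ Λ) (a : ℕ) : ∃ Δ : ℕ → ℝ, (∀ n, 1 ≤ Δ n) ∧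
    Tendsto (fun n => Δ n ^ a / (p n * n)) atTop (𝓝 0) ∧
    Whp p fun n ω => ∀ e, cop (𝒞 n) ω e ≤ Δ n := by
  have hΛ := R.pos
  have e1 : ∀ᶠ n : ℕ in atTop, max 1 ((p n * n) ^ (((a + 1 : ℕ) : ℝ)⁻¹)) ^ (a + 1) = p n * n := by
    filter_upwards [R.inf.eventually_ge_atTop 1] with n hn
    rw [max_eq_right (Real.one_le_rpow hn (by positivity)),
      Real.rpow_inv_natCast_pow (by linarith) (Nat.succ_ne_zero a)]
  have e2 : Tendsto (fun n : ℕ => max 1 ((p n * n) ^ (((a + 1 : ℕ) : ℝ)⁻¹))) atTop atTop :=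
    tendsto_atTop_mono (fun n => le_max_right _ _)
      ((tendsto_rpow_atTop (by positivity)).comp R.inf)
  have e3 : ∀ n : ℕ, (1 : ℝ) ≤ max 1 ((p n * n) ^ (((a + 1 : ℕ) : ℝ)⁻¹)) := fun n => le_max_left _ _
  generalize hΔ : (fun n : ℕ => max 1 ((p n * n) ^ (((a + 1 : ℕ) : ℝ)⁻¹))) = Δ at e2
  simp only [fun n => congrFun hΔ n] at e1 e3
  refine ⟨Δ, e3, ?_, ?_⟩
  · refine e2.inv_tendsto_atTop.congr' ?_
    filter_upwards [e1] with n hn
    have := e3 n
    rw [← hn, Pi.inv_apply, pow_succ]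
    field_simp
  · set j := (a + 1) * ((k - 1) * 3) with hj
    set c : ℝ := 4 ^ (1 + j * k) * (K0 * (Λ + 3)) with hc
    have hc0 : 0 ≤ c := by positivity
    refine whp_of_le R.p0 R.p1 (f := fun n => (1 + c) ^ j / (Λ / 2) ^ 3 / n)
      (tendsto_const_div_atTop_nhds_zero_nat _) ?_
    filter_upwards [e1, R.pow_ge, R.ext (1 + j * k), eventually_gt_atTop 0] with n h1 h2 h3 hn
    have S := R.sys n
    have hn' : (0 : ℝ) < n := by exact_mod_cast hn
    have d0 : 0 < Δ n := lt_of_lt_of_le one_pos (e3 n)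
    have d1 : (Λ / 2 * n) ^ 3 ≤ Δ n ^ j := by
      rw [hj, pow_mul, h1, pow_mul]
      exact pow_le_pow_left₀ (by positivity) h2 3
    have d2 : ∀ e : Sym2 (Fin n), Pr (p n) (fun ω => Δ n < cop (𝒞 n) ω e) ≤
        (1 + c) ^ j / (Λ / 2 * n) ^ 3 := by
      intro e
      by_cases he : e.IsDiag
      · refine le_trans ?_ (show (0 : ℝ) ≤ _ by positivity)
        rw [← E_const (ι := Sym2 (Fin n)) (p := p n) 0]
        refine E_mono (R.p0 n) (R.p1 n) fun ω => le_of_eq (ind_neg (not_lt.2 ?_))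
        refine le_trans (le_of_eq (Finset.sum_eq_zero fun T hT => ind_neg fun h => ?_)) d0.le
        exact S.nd T hT e h.1 he
      · have m1 := moment_bound S (R.p0 n) hc0 (M := 1 + j * k) (e := e)
          (fun P h4 h5 => h3 P h5 _ fun T hT => ⟨(Finset.mem_filter.1 hT).1,
            two_le_inter he (Finset.mem_filter.1 hT).2 h4⟩) j {e} (Finset.mem_singleton_self _)
          (by simp)
        have m2 := markov (R.p0 n) (R.p1 n) (f := fun ω => (1 + cY (𝒞 n) e (ω ∪ {e})) ^ j)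
          (fun ω => pow_nonneg (add_nonneg zero_le_one (cY_nonneg _ _)) _) (pow_pos d0 j)
        refine (Pr_mono (R.p0 n) (R.p1 n) fun ω hω => ?_).trans (m2.trans ?_)
        · exact pow_le_pow_left₀ d0.le (by linarith only [hω, KUC2_cop (𝒞 n) ω {e} e]) j
        · exact div_le_div₀ (by positivity) m1 (by positivity) d1
    refine (Pr_mono (R.p0 n) (R.p1 n) (B := fun ω => ∃ e ∈ univ, Δ n < cop (𝒞 n) ω e)
      fun ω hω => ?_).trans ((Pr_exists_le (R.p0 n) (R.p1 n) _ _).trans ?_)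
    · push Not at hω
      obtain ⟨e, he⟩ := hω
      exact ⟨e, Finset.mem_univ _, he⟩
    · refine (Finset.sum_le_card_nsmul _ _ _ fun e _ => d2 e).trans ?_
      rw [nsmul_eq_mul, Finset.card_univ]
      refine (mul_le_mul_of_nonneg_right (KUC2_card n) (by positivity)).trans (le_of_eq ?_)
      field_simp

theorem uc (R : HReg p 𝒞 h k K0 μ Λ) {α : ℕ → Type} (I : ∀ n, Finset (α n)) {C b c : ℝ} {a : ℕ}
    (hC : 1 ≤ C) (hb0 : 0 ≤ b) (hc : 0 ≤ c)
    (hI : ∀ᶠ n in atTop, ((I n).card : ℝ) ≤ C ^ n) (f : ∀ n, α n → Finset (Sym2 (Fin n)) → ℝ)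
    (f0 : ∀ n i ω, 0 ≤ f n i ω)
    (hb : ∀ᶠ n in atTop, ∀ i ∈ I n, E (p n) (f n i) ≤ b * (p n * (n : ℝ) ^ 2))
    (hlip : ∀ n, ∀ i ∈ I n, ∀ Δ : ℝ, 1 ≤ Δ → ∀ ω e, (∀ g, cop (𝒞 n) ω g ≤ Δ) →
      |f n i ω - f n i (ω.erase e)| ≤ c * Δ ^ a) {ζ : ℝ} (hζ : 0 < ζ) :
    Whp p fun n ω => ∀ i ∈ I n, f n i ω ≤ E (p n) (f n i) + ζ * (p n * (n : ℝ) ^ 2) := by
  obtain ⟨Δ, d1, d2, d3⟩ := gam_whp R (2 * a)
  rw [whp_iff R.p0 R.p1] at d3 ⊢
  intro ε hε
  set m : ℝ := min (ζ / 2) 1 with hm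
  have m0 : 0 < m := lt_min (half_pos hζ) one_pos
  have m1 : m ≤ ζ / 2 := min_le_left _ _
  have m2 : m ≤ 1 := min_le_right _ _
  have lC : 0 ≤ Real.log C := Real.log_nonneg hC
  have l1 := (Real.tendsto_exp_neg_atTop_nhds_zero.comp
    (tendsto_natCast_atTop_atTop (R := ℝ))).const_mul (2 * (b + ζ / 2) / (ζ / 2))
  rw [mul_zero] at l1
  filter_upwards [hI, hb, d3 _ (half_pos hε), d3 (ζ / 2 / (2 * (b + ζ / 2))) (by positivity),
    d2.eventually (ge_mem_nhds (show 0 < m ^ 2 / (8 * (c + 1) ^ 2 * (Real.log C + 1)) by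
      positivity)), l1.eventually (ge_mem_nhds (half_pos hε)), R.inf.eventually_gt_atTop 0,
    eventually_gt_atTop 0] with n h1 h2 h3 h4 h5 h6 h7 hn
  have hn' : (0 : ℝ) < n := by exact_mod_cast hn
  have hp : 0 < p n := (mul_pos_iff_of_pos_right hn').1 h7
  have hs : 0 < p n * (n : ℝ) ^ 2 := by positivity
  have a1 : 1 ≤ Δ n ^ a := one_le_pow₀ (d1 n)
  set L : ℝ := c * Δ n ^ a + 1 with hL
  have L1 : 1 ≤ L := le_add_of_nonneg_left (by positivity)
  have L0 : 0 < L := by linarith only [L1]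
  have L2 : L ^ 2 ≤ (c + 1) ^ 2 * Δ n ^ (2 * a) := by
    rw [mul_comm 2 a, pow_mul, ← mul_pow]
    exact pow_le_pow_left₀ L0.le (by linarith only [a1]) 2
  have L3 : (Real.log C + 1) * n ≤ (m * (p n * (n : ℝ) ^ 2) / L) ^ 2 / (8 * p n * (n : ℝ) ^ 2) := by
    have e1 : (m * (p n * (n : ℝ) ^ 2) / L) ^ 2 / (8 * p n * (n : ℝ) ^ 2) =
        m ^ 2 * (p n * n) / (8 * L ^ 2) * n := by field_simp
    rw [e1]
    refine mul_le_mul_of_nonneg_right ?_ hn'.le
    rw [div_le_div_iff₀ h7 (by positivity)] at h5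
    rw [le_div_iff₀ (by positivity)]
    nlinarith only [h5, L2, lC]
  have key : ∀ i ∈ I n, Pr (p n) (fun ω => (∀ e, cop (𝒞 n) ω e ≤ Δ n) ∧
      E (p n) (f n i) + ζ / 2 * (p n * (n : ℝ) ^ 2) + L * (m * (p n * (n : ℝ) ^ 2) / L) <
        f n i ω) ≤ 2 * (b + ζ / 2) / (ζ / 2) * Real.exp (-((Real.log C + 1) * n)) := by
    intro i hi
    refine (uc_fin hp (R.p1 n) _ (fun ω ω' hs hω e => le_trans (Finset.sum_le_sum fun T _ =>
      ind_mono fun h => ⟨h.1, h.2.trans hs⟩) (hω e)) (f n i) (f0 n i) L0.le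
      (fun ω e hω => (hlip n i hi _ (d1 n) ω e hω).trans (by linarith only [])) (by positivity) (h2 i hi)
      (h4.trans (le_of_eq (by field_simp))) (by positivity) (KUC2_card n) (by positivity)
      ?_).trans ?_
    · rw [div_le_iff₀ L0]
      nlinarith only [hs, m2, L1]
    · exact mul_le_mul (le_of_eq (by field_simp)) (Real.exp_le_exp.2 (neg_le_neg L3))
        (Real.exp_pos _).le (by positivity)
  refine (Pr_mono (R.p0 n) (R.p1 n) (B := fun ω => (¬ ∀ e, cop (𝒞 n) ω e ≤ Δ n) ∨ ∃ i ∈ I n,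
    (∀ e, cop (𝒞 n) ω e ≤ Δ n) ∧ E (p n) (f n i) + ζ / 2 * (p n * (n : ℝ) ^ 2) +
      L * (m * (p n * (n : ℝ) ^ 2) / L) < f n i ω) fun ω hω => ?_).trans
    ((Pr_or_le (R.p0 n) (R.p1 n) _ _).trans ?_)
  · refine or_iff_not_imp_left.2 fun hΓ => ?_
    push Not at hω
    obtain ⟨i, hi, hω⟩ := hω
    refine ⟨i, hi, not_not.1 hΓ, lt_of_le_of_lt ?_ hω⟩
    rw [mul_div_cancel₀ _ L0.ne']
    nlinarith only [m1, hs]
  · have k1 := (Pr_exists_le (R.p0 n) (R.p1 n) _ _).trans (Finset.sum_le_card_nsmul _ _ _ key)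
    rw [nsmul_eq_mul] at k1
    have k2 : C ^ n * Real.exp (-((Real.log C + 1) * n)) = Real.exp (-n) := by
      rw [← Real.exp_log (show 0 < C ^ n by positivity), ← Real.exp_add, Real.log_pow]
      congr 1
      ring
    have k3 := mul_le_mul_of_nonneg_right h1 (show 0 ≤ 2 * (b + ζ / 2) / (ζ / 2) *
      Real.exp (-((Real.log C + 1) * n)) by positivity)
    rw [mul_left_comm (C ^ n), k2] at k3
    simp only [Function.comp] at h6
    linarith only [h3, h6, k1, k3]

end Pool.Agent.Work.MP_d4a230_co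
end
end

-- merged part: Pool.Agent.Work.MP_d4a230_co.KUp
section
/-!
The upper bound for large `c`.
-/

namespace Pool.Agent.Work.MP_d4a230_co

open Finset Filter Topology

lemma one_le_kz (W : Type) [Fintype W] : (1 : ℝ) ≤ kz W := by
  unfold kz
  exact_mod_cast Nat.one_le_two_pow

lemma exists_depth (a b : ℝ) {ζ : ℝ} (hζ : 0 < ζ) {q : ℕ → Prop} (hq : ∀ᶠ j in atTop, q j) :
    ∃ t, q (2 * t + 1) ∧ a * (b / 2 ^ (2 * t + 1)) ≤ ζ := by
  have h1 : Tendsto (fun j : ℕ => a * (b / 2 ^ j)) atTop (𝓝 (a * 0)) :=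
    (tendsto_const_nhds.div_atTop (tendsto_pow_atTop_atTop_of_one_lt one_lt_two)).const_mul a
  rw [mul_zero] at h1
  have h2 : Tendsto (fun t : ℕ => 2 * t + 1) atTop atTop :=
    tendsto_atTop_mono (fun t => by simp only [id]; omega) tendsto_id
  exact (h2.eventually (hq.and (h1.eventually (ge_mem_nhds hζ)))).exists

lemma sum_dgE {V : Type} [Fintype V] [DecidableEq V] (ω : Finset (Sym2 V)) :
    ∑ v, dgE ω v = 2 * ∑ e ∈ offd V, ind (e ∈ ω) := handshake fun e => ind (e ∈ ω)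

lemma freeN_nonneg {ι : Type} [DecidableEq ι] (𝒞 : Finset (Finset ι)) (𝓔 : Finset ι) (i : ℕ)
    (ω : Finset ι) : 0 ≤ freeN 𝒞 𝓔 i ω := Finset.sum_nonneg fun _ _ => ind_nonneg _

lemma satN_nonneg {ι : Type} [DecidableEq ι] (𝒞 : Finset (Finset ι)) (i : ℕ)
    (ω : Finset ι) : 0 ≤ satN 𝒞 i ω := Finset.sum_nonneg fun _ _ => ind_nonneg _

variable {W : Type} [Fintype W] [DecidableEq W] {H : SimpleGraph W} [DecidableRel H.Adj] {r : ℕ}

theorem large_upper (B : HBal H) (C : ECrit H r) : ∃ Λ0 : ℝ, ∀ (p : ℕ → ℝ) (μ Λ : ℝ),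
    GReg H p μ Λ → Λ0 ≤ Λ → ∀ x y, IsOpt H r (2 * Λ / aut H) x y →
      ∀ d, phiF H r (2 * Λ / aut H) x y < d →
        Whp p fun n => HEv (copies H (Fin n)) (d * p n * n) 0 := by
  classical
  have hk3 : 3 ≤ H.edgeFinset.card := B.h3.trans B.hk
  have hr2 : 2 ≤ r := C.two_le (by omega)
  obtain ⟨c, σ, hc, hσ, hbig⟩ := big_of B C
  obtain ⟨γ, ε, δ, Λ1, g0, g1, e0, d0, hjz⟩ := jz B C hσ
  obtain ⟨δ', d0', Λ2, hst⟩ := stab B (r := r) (by omega) C.colorable e0
  obtain ⟨Λ3, hval⟩ := val_bounds B C hc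
  obtain ⟨Λ4, hpar⟩ := exists_par H.edgeFinset.card (one_le_kz W) hc g0 g1
  refine ⟨max (max Λ1 Λ2) (max Λ3 Λ4), fun p μ Λ R hΛ x y hopt d hd => ?_⟩
  simp only [max_le_iff] at hΛ
  obtain ⟨hl, ε', P⟩ := hpar Λ hΛ.2.2
  have hΦ := hopt.ge C
  set Φ := phiF H r (2 * Λ / aut H) x y with hΦd
  set k := H.edgeFinset.card with hk
  set M := (kz W : ℝ) * (Λ + 1) with hM
  have hM0 : 0 ≤ M := mul_nonneg (Nat.cast_nonneg _) (by linarith only [g0, g1, R.pos])
  have hk1 : (1 : ℝ) ≤ k := by exact_mod_cast (by omega : 1 ≤ k)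
  have hr1 : 1 / (r : ℝ) ≤ 1 := by
    rw [div_le_one (by exact_mod_cast (by omega : 0 < r))]; exact_mod_cast (by omega : 1 ≤ r)
  obtain ⟨ζ, hζ, hζd⟩ : ∃ ζ : ℝ, 0 < ζ ∧ Φ + 12 * ζ < d := ⟨(d - Φ) / 16, by linarith only [hd], by linarith only [hd]⟩
  obtain ⟨t, ht1, ht2⟩ := exists_depth (1 + k * M) (4 * k * M) hζ (hval p μ Λ R hΛ.2.1 x y hopt ζ hζ)
  obtain ⟨S, hS⟩ := exists_nat_one_div_lt hζ
  have hkM : 0 < 1 + k * M := by (clear * - hM0 hk3; positivity)
  let K : ∀ n, (Fin n → Fin r) → Sym2 (Fin n) → ℝ := fun n π e =>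
    (1 - γ) * lam (copies H (Fin n)) (Ins π) (p n ^ (k - 1)) e
  let f : ∀ n, (Fin n → Fin r) × ℕ → Finset (Sym2 (Fin n)) → ℝ := fun n i ω =>
    freeN (copies H (Fin n)) (offd (Fin n)) (2 * t + 2)
      (red (copies H (Fin n)) (Ins i.1) (K n i.1) (3 * M + 1) i.2 ω) +
    ((k : ℝ) - 1) * satN (copies H (Fin n)) (2 * t + 1)
      (red (copies H (Fin n)) (Ins i.1) (K n i.1) (3 * M + 1) i.2 ω)
  set S' := 2 * t + 2 + 2 * (S + 1) with hS'
  let I : ∀ n, Finset ((Fin n → Fin r) × ℕ) := fun n =>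
    (univ.filter fun π => Bal π σ) ×ˢ Icc (2 * t + 2) S'
  have hE : ∀ᶠ n in atTop, ∀ i ∈ I n, E (p n) (f n i) ≤ (Φ / 2 + 3 * ζ) * (p n * (n : ℝ) ^ 2) := by
    filter_upwards [ht1, hbig p μ Λ R, ev_counts R P hl S' (div_pos hζ hkM)] with n h1 h2 h3 i hi
    obtain ⟨i1, i2⟩ := Finset.mem_product.1 hi
    have hB := h2 i.1 (Finset.mem_filter.1 i1).2
    obtain ⟨i3, i4⟩ := Finset.mem_Icc.1 i2
    have a1 := (abs_le.1 (h3 _ hB i.2 (2 * t + 2) i3 i4).1).2
    have a2 := (abs_le.1 (h3 _ hB i.2 (2 * t + 1) (by omega) i4).2).2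
    have a3 := mul_le_mul_of_nonneg_left (h1 i.1 hB).1 (R.p0 n)
    have hN : 0 ≤ p n * (n : ℝ) ^ 2 := mul_nonneg (R.p0 n) (by positivity)
    have a4 : 4 * k * M / 2 ^ (2 * t + 2) ≤ 4 * k * M / 2 ^ (2 * t + 1) :=
      div_le_div_of_nonneg_left (by (clear * - hM0 hk3; positivity)) (by positivity)
        (pow_le_pow_right₀ one_le_two (by omega))
    have a5 : (1 + k * M) * (ζ / (1 + k * M)) = ζ := by field_simp
    have a6 : 0 ≤ 4 * k * M / 2 ^ (2 * t + 1) + ζ / (1 + k * M) := by (clear * - hM0 hk3 hζ; positivity)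
    have a7 : (4 * k * M / 2 ^ (2 * t + 2) + ζ / (1 + k * M)) + ((k : ℝ) - 1) *
        (M * (4 * k * M / 2 ^ (2 * t + 1) + ζ / (1 + k * M))) ≤ 2 * ζ := by
      nlinarith only [ht2, a4, a5, hM0, a6, mul_nonneg hM0 a6]
    have a8 := mul_le_mul_of_nonneg_left a7 hN
    have a9 := mul_le_mul_of_nonneg_left a2 (sub_nonneg.2 hk1)
    simp only [f]
    rw [E_add, E_const_mul]
    unfold valZ at a3
    nlinarith only [a1, a3, a8, a9, hζ, hN, mul_nonneg hζ.le hN]
  have huc := uc R I (C := r * (S' + 1)) (b := Φ / 2 + 3 * ζ) (c := k * (1 + k) ^ (S' + (2 * t + 2)))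
    (a := S' + (2 * t + 2))
    (by
      have : (1 : ℝ) ≤ r := by exact_mod_cast (by omega : 1 ≤ r)
      nlinarith only [this, Nat.cast_nonneg (α := ℝ) S'])
    (by linarith only [hΦ, hr1, hζ]) (by (clear * - hk3; positivity))
    (by
      filter_upwards [eventually_ge_atTop 1] with n hn
      have h1 : (I n).card ≤ (r * (S' + 1)) ^ n := by
        simp only [I]
        rw [Finset.card_product, mul_pow]
        refine Nat.mul_le_mul ((Finset.card_filter_le _ _).trans (by simp)) ?_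
        rw [Nat.card_Icc]
        exact (Nat.sub_le _ _).trans (Nat.le_self_pow (by omega) _)
      exact_mod_cast h1)
    f (fun n i ω => add_nonneg (freeN_nonneg _ _ _ _)
      (mul_nonneg (sub_nonneg.2 hk1) (satN_nonneg _ _ _))) hE
    (by
      intro n i hi Δ hΔ ω e hω
      have i4 := (Finset.mem_Icc.1 (Finset.mem_product.1 hi).2).2
      have b1 := free_lip (𝓔 := offd (Fin n)) (ins := Ins i.1) (K := K n i.1) (D1 := 3 * M + 1)
        (R.sys n).card hΔ hω i.2 (2 * t + 2) e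
      have b2 := sat_lip (ins := Ins i.1) (K := K n i.1) (D1 := 3 * M + 1)
        (R.sys n).card hΔ hω i.2 (2 * t + 1) e
      have b3 : ∀ a b : ℕ, a ≤ S' + (2 * t + 2) → b ≤ S' + (2 * t + 2) →
          (1 + (k : ℝ)) ^ a * Δ ^ b ≤ (1 + k) ^ (S' + (2 * t + 2)) * Δ ^ (S' + (2 * t + 2)) :=
        fun a b ha hb => mul_le_mul (pow_le_pow_right₀ (by linarith only [g0, g1, hk1]) ha) (pow_le_pow_right₀ hΔ hb)
          (by positivity) (by (clear * - hk3; positivity))
      have b4 := abs_le.1 (b1.trans (b3 _ _ (by omega) (by omega)))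
      have b5 := abs_le.1 (b2.trans (b3 _ _ (by omega) (by omega)))
      have b6 := mul_le_mul_of_nonneg_left b5.1 (sub_nonneg.2 hk1)
      have b7 := mul_le_mul_of_nonneg_left b5.2 (sub_nonneg.2 hk1)
      simp only [f]
      rw [abs_le]
      constructor <;> nlinarith only [b4, b6, b7, b4.1, b4.2]) hζ
  refine (((huc.and R.p0 R.p1 (deg_whp R)).and R.p0 R.p1 (hst p μ Λ R hΛ.1.2)).and R.p0 R.p1
    (hjz p μ Λ R hΛ.1.1 ζ hζ)).mono R.p0 R.p1 ?_
  filter_upwards [hE, R.inf.eventually_gt_atTop 0] with n h1 hD ω ⟨⟨⟨w1, w2⟩, w3⟩, w4⟩ ω' hle hfree hdeg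
  exfalso
  have hn : (0 : ℝ) < n := by
    rcases Nat.eq_zero_or_pos n with rfl | hn
    · simp at hD
    · exact_mod_cast hn
  have hlow : ∀ δ0 : ℝ, 0 < δ0 → ∀ v, (1 - 1 / (r : ℝ) - δ0) * (p n * n) ≤ dgE ω' v := by
    intro δ0 h0 v
    refine le_trans ?_ (hdeg v)
    rw [mul_assoc]
    exact mul_le_mul_of_nonneg_right (by linarith only [hΦ, hζ, hζd, h0]) hD.le
  obtain ⟨π, hπ, hJZ⟩ := w4 ω' hle (hlow δ d0) (w3 ω' hle hfree (hlow δ' d0'))
  obtain ⟨s, s1, s2, s3⟩ := core_pigeon (𝒞 := copies H (Fin n)) (𝓔 := offd (Fin n)) (ins := Ins π)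
    (K := K n π) (D1 := 3 * M + 1) (ω := ω) (2 * t + 2) (S + 1) (Nat.succ_pos S)
  obtain ⟨J, Z, j1, j2⟩ := core_upper (𝓔 := offd (Fin n)) (ins := Ins π) (K := K n π)
    (D1 := 3 * M + 1) (R.sys n).card (fun T hT e he => Finset.mem_filter.2
      ⟨Finset.mem_univ _, (R.sys n).nd T hT e he⟩) hle hfree s t
  have hi : (π, s) ∈ I n := Finset.mem_product.2
    ⟨Finset.mem_filter.2 ⟨Finset.mem_univ _, hπ⟩, Finset.mem_Icc.2 ⟨s1, s2⟩⟩
  have c1 := hJZ J Z j1
  have c2 := w1 _ hi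
  have c3 := h1 _ hi
  have c4 := Finset.sum_le_sum fun v (_ : v ∈ univ) => hdeg v
  have c5 := Finset.sum_le_sum fun v (_ : v ∈ univ) => w2 v
  rw [sum_dgE, Finset.sum_const, Finset.card_univ, Fintype.card_fin, nsmul_eq_mul] at c4 c5
  have hN : 0 < p n * (n : ℝ) ^ 2 := by nlinarith only [hD, hn]
  set x0 := ∑ e ∈ offd (Fin n), ind (e ∈ ω ∧ Core (copies H (Fin n)) (Ins π) (K n π) (3 * M + 1) ω s e ∧
    ¬ Core (copies H (Fin n)) (Ins π) (K n π) (3 * M + 1) ω (s + 2) e)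
  have c6 : x0 ≤ ζ * (p n * (n : ℝ) ^ 2) := by
    have h0 : (0 : ℝ) < S + 1 := by positivity
    rw [div_lt_iff₀ h0] at hS
    push_cast at s3
    refine le_of_mul_le_mul_left (s3.trans ?_) h0
    nlinarith only [c5, g0, g1, hS, hN]
  simp only [f] at c2 c3
  nlinarith only [c1, c2, c3, c4, j2, c6, hζd, hN, mul_lt_mul_of_pos_right hζd hN]

end Pool.Agent.Work.MP_d4a230_co
end

-- merged part: Pool.Agent.Work.MP_d4a230_co.KMain
section
-- merged part: Pool.Agent.Work.MP_d4a230_co.KLow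
section
/-!
The lower bound for large `c`.
-/

namespace Pool.Agent.Work.MP_d4a230_co

open Finset Filter Topology

section Loss

variable {V : Type} [Fintype V] [DecidableEq V] {𝒞 : Finset (Finset (Sym2 V))}
  {ins : Sym2 V → Prop} {K : Sym2 V → ℝ} {D1 : ℝ} {s t : ℕ}

lemma loss_nonneg (hne : ∀ T ∈ 𝒞, T.Nonempty) (v : V) (ω : Finset (Sym2 V)) :
    0 ≤ loss 𝒞 ins K D1 s t v ω :=
  Finset.sum_nonneg fun _ _ => sub_nonneg.2
    ((psi_le hne t _).trans (ind_mono fun h => red_subset s h))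

lemma sum_loss (ω : Finset (Sym2 V)) : ∑ v, loss 𝒞 ins K D1 s t v ω =
    2 * (∑ e ∈ offd V, ind (e ∈ ω) - ∑ e ∈ offd V, psi 𝒞 t (red 𝒞 ins K D1 s ω) e) := by
  rw [← Finset.sum_sub_distrib]
  exact handshake fun e => ind (e ∈ ω) - psi 𝒞 t (red 𝒞 ins K D1 s ω) e

lemma loss_lip {k : ℕ} {Δ : ℝ} {ω : Finset (Sym2 V)} (hk : ∀ T ∈ 𝒞, T.card = k) (hk0 : 0 < k)
    (hΔ1 : 1 ≤ Δ) (hΔ : ∀ g, cop 𝒞 ω g ≤ Δ) (e0 : Sym2 V) (X : Finset V) :
    |∑ v ∈ X, loss 𝒞 ins K D1 s t v ω - ∑ v ∈ X, loss 𝒞 ins K D1 s t v (ω.erase e0)| ≤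
      14 * (1 + k) ^ (s + (2 * t + 3)) * Δ ^ (s + (2 * t + 3) + 1) := by
  have h1 := psi_lip (𝓔 := offd V) (ins := ins) (K := K) (D1 := D1) hk hk0 hΔ1 hΔ s t e0
  have h2 := handshake (V := V) fun e => |(ind (e ∈ ω) - psi 𝒞 t (red 𝒞 ins K D1 s ω) e) -
      (ind (e ∈ ω.erase e0) - psi 𝒞 t (red 𝒞 ins K D1 s (ω.erase e0)) e)|
  unfold loss
  simp only [← Finset.sum_sub_distrib]
  refine (Finset.abs_sum_le_sum_abs _ _).trans ((Finset.sum_le_sum fun v _ =>
    Finset.abs_sum_le_sum_abs _ _).trans ((Finset.sum_le_sum_of_subset_of_nonneg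
      (Finset.subset_univ X) fun v _ _ => Finset.sum_nonneg fun _ _ => abs_nonneg _).trans ?_))
  rw [h2]
  unfold offd at h1
  linarith only [h1]

lemma E_count (p : ℝ) (X : Finset (Sym2 V)) :
    E p (fun ω => ∑ e ∈ X, ind (e ∈ ω)) = p * X.card := by
  rw [E_sum, Finset.sum_congr rfl fun e _ => ?_, Finset.sum_const, nsmul_eq_mul, mul_comm]
  have := plant1 (p := p) e fun _ => 1
  simpa [E_const] using this

end Loss

variable {W : Type} [Fintype W] [DecidableEq W] {H : SimpleGraph W} [DecidableRel H.Adj] {r : ℕ}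

theorem large_lower (B : HBal H) (C : ECrit H r) : ∃ Λ0 : ℝ, ∀ (p : ℕ → ℝ) (μ Λ : ℝ),
    GReg H p μ Λ → Λ0 ≤ Λ → ∀ x y, IsOpt H r (2 * Λ / aut H) x y →
      ∀ d, d < phiF H r (2 * Λ / aut H) x y → ∀ C0 : ℕ,
        ∃ᶠ n in atTop, Pr (p n) (HEv (copies H (Fin n)) (d * p n * n) C0) ≤ 1 / 2 := by
  classical
  have hk3 : 3 ≤ H.edgeFinset.card := B.h3.trans B.hk
  have hr2 : 2 ≤ r := C.two_le (by omega)
  have hr : 0 < r := by omega
  obtain ⟨c, σ, hc, hσ, hbig⟩ := big_of B C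
  obtain ⟨Λ3, hval⟩ := val_bounds B C hc
  obtain ⟨γ, g0, g1⟩ : ∃ γ : ℝ, 0 < γ ∧ γ ≤ 1 / 2 := ⟨1 / 2, by norm_num, le_rfl⟩
  obtain ⟨Λ4, hpar⟩ := exists_par H.edgeFinset.card (one_le_kz W) hc g0 g1
  refine ⟨max Λ3 Λ4, fun p μ Λ R hΛ x y hopt d hd C0 => ?_⟩
  simp only [max_le_iff] at hΛ
  obtain ⟨hl, ε', P⟩ := hpar Λ hΛ.2
  have hΦ : phiF H r (2 * Λ / aut H) x y ≤ 1 := phiF_le hr
    (div_nonneg (by linarith only [R.pos]) (by linarith only [g0, g1, one_le_aut (H := H)])) hopt.1 hopt.2.1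
  set Φ := phiF H r (2 * Λ / aut H) x y with hΦd
  set k := H.edgeFinset.card with hk
  set M := (kz W : ℝ) * (Λ + 1) with hM
  have hM0 : 0 ≤ M := mul_nonneg (Nat.cast_nonneg _) (by linarith only [g0, g1, R.pos])
  have hk1 : (1 : ℝ) ≤ k := by exact_mod_cast (by omega : 1 ≤ k)
  obtain ⟨ε, hε, hεd⟩ : ∃ ε : ℝ, 0 < ε ∧ d + 10 * ε = Φ := ⟨(Φ - d) / 10, by linarith only [hd], by ring⟩
  obtain ⟨η, hη, hcore⟩ := hlower_core R (ν := d + 5 * ε) (d := d) (b := 1 / 32) hε le_rfl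
    (by linarith only [hΦ, hε, hεd]) (by norm_num) C0
  obtain ⟨t, ht1, ht2⟩ := exists_depth (1 + 3 * k * M) (4 * k * M) (half_pos hε)
    (hval p μ Λ R hΛ.1 x y hopt ε hε)
  have hkM : 0 < 1 + 3 * k * M := by (clear * - hM0 hk3; positivity)
  let K : ∀ n, Sym2 (Fin n) → ℝ := fun n e =>
    (1 - γ) * lam (copies H (Fin n)) (Ins (modc r hr n)) (p n ^ (k - 1)) e
  let g : ∀ n, Fin n → Finset (Sym2 (Fin n)) → ℝ := fun n =>
    loss (copies H (Fin n)) (Ins (modc r hr n)) (K n) (3 * M + 1) (2 * t + 2) t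
  let I : ∀ n, Finset (Finset (Fin n)) := fun n => univ.filter fun _ => r ∣ n
  have hsub : ∀ n, ∀ T ∈ copies H (Fin n), T ⊆ offd (Fin n) := fun n T hT e he =>
    Finset.mem_filter.2 ⟨Finset.mem_univ _, (R.sys n).nd T hT e he⟩
  obtain hE : ∀ᶠ n in atTop, r ∣ n → ∀ v, E (p n) (g n v) ≤ (1 - Φ + 3 * ε) * (p n * n) := by
    clear * - r p g Φ ε W H M c Λ t γ k μ R ε' P hl hε hkM σ hbig x y ht1 hr hσ hk3 hM0 ht2 g0 g1
      hk1 K hsub
    filter_upwards [ht1, hbig p μ Λ R, ev_counts R P hl (2 * t + 2) (div_pos (half_pos hε) hkM),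
      eventually_gt_atTop 0] with n h1 h2 h3 hn hdv v
    have hπ := modc_bal hr hdv
    have hB := h2 _ (hπ.mono hσ.le)
    have a1 := (abs_le.1 (h3 _ hB (2 * t + 2) (2 * t + 2) le_rfl le_rfl).1).1
    have a2 := (abs_le.1 (h3 _ hB (2 * t + 2) (2 * t + 1) (by omega) le_rfl).2).1
    have a2' := (abs_le.1 (h3 _ hB (2 * t + 2) (2 * t + 2) le_rfl le_rfl).2).2
    have a3 := mul_le_mul_of_nonneg_left ((h1 _ hB).2 hπ) (R.p0 n)
    have hN : 0 ≤ p n * (n : ℝ) ^ 2 := mul_nonneg (R.p0 n) (by positivity)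
    have a4 : 4 * k * M / 2 ^ (2 * t + 2) ≤ 4 * k * M / 2 ^ (2 * t + 1) :=
      div_le_div_of_nonneg_left (by (clear * - hM0 hk3; positivity)) (by positivity)
        (pow_le_pow_right₀ one_le_two (by omega))
    have a5 : (1 + 3 * k * M) * (ε / 2 / (1 + 3 * k * M)) = ε / 2 := by field_simp
    have a6 : 0 ≤ 4 * k * M / 2 ^ (2 * t + 1) + ε / 2 / (1 + 3 * k * M) := by (clear * - hM0 hk3 hε; positivity)
    obtain a7 : (4 * k * M / 2 ^ (2 * t + 2) + ε / 2 / (1 + 3 * k * M)) + (2 * (k : ℝ) - 1) *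
        (M * (4 * k * M / 2 ^ (2 * t + 1) + ε / 2 / (1 + 3 * k * M))) +
        k * (M * (4 * k * M / 2 ^ (2 * t + 2) + ε / 2 / (1 + 3 * k * M))) ≤ ε := by
      clear * - k M t ε W Λ ht2 a4 a5 hM0 a6
      nlinarith only [ht2, a4, a5, hM0, a6, mul_nonneg hM0 a6, mul_le_mul_of_nonneg_left a4
        (mul_nonneg (Nat.cast_nonneg (α := ℝ) k) hM0)]
    have a8 := mul_le_mul_of_nonneg_left a7 hN
    have a9 := mul_le_mul_of_nonneg_left a2 (show (0 : ℝ) ≤ 2 * k - 1 by linarith only [g0, g1, hk1])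
    have a10 := mul_le_mul_of_nonneg_left a2' (Nat.cast_nonneg (α := ℝ) k)
    obtain b1 : ∑ u, E (p n) (g n u) = n * E (p n) (g n v) := by
      rw [Finset.sum_congr rfl fun u _ => loss_sym hr hdv (p n) _ _ _ _ _ u v, Finset.sum_const,
        Finset.card_univ, Fintype.card_fin, nsmul_eq_mul]
    rw [← E_sum] at b1
    simp only [g, sum_loss, sum_psi (R.sys n).card (by omega) (hsub n)] at b1
    rw [E_const_mul, E_sub, E_count, E_sub, E_add, E_const_mul, E_const_mul] at b1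
    have b2 := card_offd (V := Fin n)
    rw [Fintype.card_fin] at b2
    have hn' : (0 : ℝ) < n := by exact_mod_cast hn
    have b3 : p n * (2 * (offd (Fin n)).card) ≤ p n * (n : ℝ) ^ 2 :=
      mul_le_mul_of_nonneg_left (by linarith only [b2, hn']) (R.p0 n)
    refine le_of_mul_le_mul_left ?_ hn'
    unfold lowZ at a3
    simp only [g]
    clear * - n p W H r hr K M t v Φ ε k γ Λ x y a1 a3 a8 a9 a10 b1 b3; nlinarith only [hr, a1, a3, a8, a9, a10, b1, b3]
  obtain hE' : ∀ᶠ n in atTop, ∀ X ∈ I n, E (p n) (fun ω => ∑ v ∈ X, g n v ω) ≤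
      X.card * ((1 - Φ + 3 * ε) * (p n * n)) := by
    filter_upwards [hE] with n h1 X hX
    rw [E_sum, ← nsmul_eq_mul]
    exact Finset.sum_le_card_nsmul _ _ _ fun v _ => h1 (Finset.mem_filter.1 hX).2 v
  have huc := uc R I (C := 2) (b := 1 - Φ + 3 * ε) (c := 14 * (1 + k) ^ (2 * t + 2 + (2 * t + 3)))
    (a := 2 * t + 2 + (2 * t + 3) + 1) one_le_two (by linarith only [hΦ, hε]) (by (clear * - hk3; positivity))
    (Eventually.of_forall fun n => by
      have h1 : (I n).card ≤ 2 ^ n := (Finset.card_filter_le _ _).trans (by simp)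
      exact_mod_cast h1)
    (fun n X ω => ∑ v ∈ X, g n v ω)
    (fun n X ω => Finset.sum_nonneg fun v _ => loss_nonneg (fun T hT => (R.sys n).nonempty hT) v ω)
    (by
      clear * - I p g Φ ε hE' hΦ hε W H μ Λ R γ g0 g1
      filter_upwards [hE'] with n h1 X hX
      refine (h1 X hX).trans ?_
      have h2 : (X.card : ℝ) ≤ n := by exact_mod_cast (Finset.card_le_univ X).trans (by simp)
      have h3 : 0 ≤ (1 - Φ + 3 * ε) * (p n * n) :=
        mul_nonneg (by linarith only [hΦ, hε]) (mul_nonneg (R.p0 n) (Nat.cast_nonneg _))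
      nlinarith only [g0, g1, h2, h3])
    (fun n X _ Δ hΔ ω e hω => loss_lip (R.sys n).card (by omega) hΔ hω e X)
    (ζ := ε * η / 4) (by positivity)
  have hw := (whp_iff R.p0 R.p1).1 (huc.and R.p0 R.p1 (deg_low_whp R hε)) (1 / 4) (by norm_num)
  have hfr : ∃ᶠ n : ℕ in atTop, r ∣ n :=
    frequently_atTop.2 fun a => ⟨r * a, Nat.le_mul_of_pos_left a hr, dvd_mul_right r a⟩
  refine (hfr.and_eventually (hw.and (hcore.and (hE'.and (R.inf.eventually_gt_atTop 0))))).mono ?_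
  rintro n ⟨hdv, h1, h2, h3, hD⟩
  refine le_trans ?_ (show (8 : ℝ) * (1 / 32) + 1 / 4 ≤ 1 / 2 by norm_num)
  refine le_trans (Pr_mono (R.p0 n) (R.p1 n) fun ω hω => ?_)
    ((Pr_or_le (R.p0 n) (R.p1 n) _ _).trans (add_le_add h2 h1))
  refine or_iff_not_imp_right.2 fun hG => ⟨hω, ?_⟩
  obtain ⟨w1, w2⟩ := not_not.1 hG
  obtain ⟨R0, r1, r2, dev, r3, r4⟩ := (R.sys n).lower'
    (red (copies H (Fin n)) (Ins (modc r hr n)) (K n) (3 * M + 1) (2 * t + 2) ω) t
  let Y : Fin n → ℝ := fun v => ∑ a ∈ univ.erase v, psi (copies H (Fin n)) t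
    (red (copies H (Fin n)) (Ins (modc r hr n)) (K n) (3 * M + 1) (2 * t + 2) ω) s(v, a)
  refine ⟨R0, r1.trans (red_subset _), r2, fun v => min (Y v) ((d + 5 * ε) * (p n * n)), dev,
    r3.trans (mul_le_mul_of_nonneg_left (Finset.sum_le_sum fun T _ => ind_mono fun h =>
      h.trans (red_subset _)) (Nat.cast_nonneg _)),
    fun v => (sub_le_sub_right (min_le_left _ _) _).trans (r4 v), ?_⟩
  rw [sum_ind]
  set X := univ.filter fun v : Fin n =>
    ε * (p n * n) ≤ |min (Y v) ((d + 5 * ε) * (p n * n)) - (d + 5 * ε) * (p n * n)| with hX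
  have hXI : X ∈ I n := Finset.mem_filter.2 ⟨Finset.mem_univ _, hdv⟩
  have c1 := (w1 X hXI).trans (add_le_add_left (h3 X hXI) _)
  obtain c2 : X.card • ((1 - Φ + 5 * ε) * (p n * n)) ≤ ∑ v ∈ X, g n v ω := by
    refine Finset.card_nsmul_le_sum _ _ _ fun v hv => ?_
    have e1 := (Finset.mem_filter.1 hv).2
    have e2 : g n v ω = dgE ω v - Y v := Finset.sum_sub_distrib _ _
    have e3 := w2 v
    rw [abs_of_nonpos (sub_nonpos.2 (min_le_right _ _))] at e1
    rcases min_cases (Y v) ((d + 5 * ε) * (p n * n)) with h | h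
    · rw [h.1] at e1
      rw [e2, ← hεd]
      linarith only [e1, e3]
    · rw [h.1] at e1
      nlinarith only [e1, hε, hD]
  rw [nsmul_eq_mul] at c2
  refine le_of_mul_le_mul_left (a := 2 * ε * (p n * n)) ?_ (by positivity)
  nlinarith only [c1, c2]

end Pool.Agent.Work.MP_d4a230_co
end

-- merged part: Pool.Agent.Work.MP_d4a230_co.KMain
section
/-!
The exact value for large `c`.
-/

namespace Pool.Agent.Work.MP_d4a230_co

open Finset Filter Topology

variable {W : Type} [Fintype W] [DecidableEq W] {H : SimpleGraph W} [DecidableRel H.Adj] {r : ℕ}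

theorem large_exact (B : HBal H) (C : ECrit H r) : ∃ Λ0 : ℝ, ∀ (p : ℕ → unitInterval) (μ Λ : ℝ),
    GReg H (fun n => p n) μ Λ → Λ0 ≤ Λ → ∀ x y, IsOpt H r (2 * Λ / aut H) x y →
      chromThreshold H p = phiF H r (2 * Λ / aut H) x y := by
  obtain ⟨Λ1, h1⟩ := large_upper B C
  obtain ⟨Λ2, h2⟩ := large_lower B C
  refine ⟨max Λ1 Λ2, fun p μ Λ R hΛ x y hopt => ?_⟩
  have hr2 : (2 : ℝ) ≤ r := by
    exact_mod_cast C.two_le (by have := B.h3; have := B.hk; omega)
  have h0 : 0 ≤ phiF H r (2 * Λ / aut H) x y :=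
    le_trans (sub_nonneg.2 ((div_le_one (by linarith)).2 (by linarith))) (hopt.ge C)
  rw [hchrom_eq]
  refine le_antisymm (le_of_forall_gt_imp_ge_of_dense fun d hd => csInf_le ⟨0, fun _ h => h.1.le⟩
    ⟨h0.trans_lt hd, 0, h1 _ μ Λ R (le_of_max_le_left hΛ) x y hopt d hd⟩)
    (le_csInf ⟨2, two_pos, 0, turan_mem R one_lt_two⟩ ?_)
  rintro d ⟨_, C0, hC⟩
  by_contra hc
  obtain ⟨n, e1, e2⟩ := ((h2 _ μ Λ R (le_of_max_le_right hΛ) x y hopt d (not_le.1 hc) C0).and_eventually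
    (hC.eventually (lt_mem_nhds (show (1 : ℝ) / 2 < 1 by norm_num)))).exists
  exact absurd e1 (not_le.2 e2)

end Pool.Agent.Work.MP_d4a230_co
end
end
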